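import Pool.Agent.Lib.MP_c23930_al.UDefs
import Pool.Agent.Lib.MP_f1646b_al.P02

/-!
# A01: guessing geodesics with a uniform constant
-/

set_option autoImplicit false

namespace Pool.Agent.Lib.MP_c23930_al

open Pool.Agent.Lib.MP_f1646b_al

theorem guess_unif (h : ℕ) : ∃ T : ℕ, ∀ (X : Type) (d : X → X → ℕ), IsGeo d →
    ∀ L : X → X → Set X,
    (∀ x y z, ∀ w ∈ L x y, ∃ v, (v ∈ L x z ∨ v ∈ L z y) ∧ d w v ≤ h) →
    (∀ x y, d x y ≤ 1 → ∀ w ∈ L x y, d x w ≤ h) →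
    (∀ x y, ∃ (m : ℕ) (p : ℕ → X), p 0 = x ∧ p m = y ∧ (∀ i ≤ m, p i ∈ L x y) ∧
      ∀ i < m, d (p i) (p (i + 1)) ≤ 1) →
    (∀ x y, ∀ w ∈ L x y, ∀ γ, GeoPath d γ x y → ∃ i ≤ d x y, d w (γ i) ≤ T) ∧ Hyp d T := by
  obtain ⟨T0, hT0, hT⟩ := P02.exists_T0 h
  refine ⟨4 * T0 + 1 + h, fun X d hg L h1 h2 h3 => ?_⟩
  have hub : ∀ x y, ∀ w ∈ L x y, ∀ γ, GeoPath d γ x y → ∃ i ≤ d x y, d w (γ i) ≤ T0 :=
    fun x y w hw γ hγ => P02.uniform_bound hg L h h1 h2 hT0 hT x y w hw γ hγ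
  refine ⟨?_, ?_⟩
  · intro x y w hw γ hγ
    obtain ⟨i, hi, hiw⟩ := hub x y w hw γ hγ
    exact ⟨i, hi, by omega⟩
  · intro x y z w hw
    obtain ⟨γ, hγ, hγw⟩ := exists_geoPath hg x y w hw
    have hdw : d x w ≤ d x y := by unfold MP_f1646b_al.Btw at hw; omega
    obtain ⟨u, hu, hwu⟩ := P02.near_L hg L h3 hub x y γ hγ (d x w) hdw
    rw [hγw] at hwu
    obtain ⟨v, hv, huv⟩ := h1 x y z u hu
    have hfin : ∀ a b, v ∈ L a b → ∃ v', MP_f1646b_al.Btw d a v' b ∧ d v v' ≤ T0 := by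
      intro a b hvab
      obtain ⟨γ', hγ', _⟩ := exists_geoPath hg a b a (btw_left hg a b)
      obtain ⟨i, hi, hiv⟩ := hub a b v hvab γ' hγ'
      refine ⟨γ' i, ?_, hiv⟩
      have h4 := (P02.geoPath_left hγ' hi).1
      have h5 := (P02.geoPath_right hγ' hi).1
      unfold MP_f1646b_al.Btw
      omega
    rcases hv with hv | hv
    · obtain ⟨v', hv', hvv'⟩ := hfin x z hv
      refine ⟨v', Or.inl hv', ?_⟩
      have h4 := hg.tri w u v'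
      have h5 := hg.tri u v v'
      omega
    · obtain ⟨v', hv', hvv'⟩ := hfin z y hv
      refine ⟨v', Or.inr hv', ?_⟩
      have h4 := hg.tri w u v'
      have h5 := hg.tri u v v'
      omega

end Pool.Agent.Lib.MP_c23930_al
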