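import Pool.Agent.Lib.MP_c23930_al.UDefs
import Pool.Agent.Lib.MP_f1646b_al.P03

/-!
# A02: the metric of the cone-off
-/

set_option autoImplicit false

namespace Pool.Agent.Lib.MP_c23930_al

open Pool.Agent.Lib.MP_f1646b_al

variable {V S : Type} {Γ : SimpleGraph V} {Y : S → Set V}

namespace A02

theorem adj_ll (u v : V) : (cone Γ Y).Adj (Sum.inl u) (Sum.inl v) ↔ Γ.Adj u v := by
  unfold cone
  rw [SimpleGraph.fromRel_adj]
  constructor
  · rintro ⟨_, (⟨a, b, ha, hb, hab⟩ | ⟨a, s, ha, hb, has⟩) |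
      (⟨a, b, ha, hb, hab⟩ | ⟨a, s, ha, hb, has⟩)⟩
    · rw [Sum.inl.inj ha, Sum.inl.inj hb]
      exact hab
    · cases hb
    · rw [Sum.inl.inj ha, Sum.inl.inj hb]
      exact hab.symm
    · cases hb
  · intro hd
    refine ⟨?_, Or.inl (Or.inl ⟨u, v, rfl, rfl, hd⟩)⟩
    intro he
    exact hd.ne (Sum.inl.inj he)

theorem adj_lr (u : V) (s : S) : (cone Γ Y).Adj (Sum.inl u) (Sum.inr s) ↔ u ∈ Y s := by
  unfold cone
  rw [SimpleGraph.fromRel_adj]
  constructor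
  · rintro ⟨_, (⟨a, b, ha, hb, hab⟩ | ⟨a, t, ha, hb, hat⟩) |
      (⟨a, b, ha, hb, hab⟩ | ⟨a, t, ha, hb, hat⟩)⟩
    · cases hb
    · rw [Sum.inl.inj ha, Sum.inr.inj hb]
      exact hat
    · cases ha
    · cases ha
  · intro hd
    exact ⟨Sum.inl_ne_inr, Or.inl (Or.inr ⟨u, s, rfl, rfl, hd⟩)⟩

theorem adj_rr (s t : S) : ¬ (cone Γ Y).Adj (Sum.inr s) (Sum.inr t) := by
  unfold cone
  rw [SimpleGraph.fromRel_adj]
  rintro ⟨_, (⟨a, b, ha, hb, hab⟩ | ⟨a, r, ha, hb, har⟩) |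
      (⟨a, b, ha, hb, hab⟩ | ⟨a, r, ha, hb, har⟩)⟩
  · cases ha
  · cases ha
  · cases ha
  · cases ha

/-- the inclusion of the graph into its cone-off -/
def incl (Γ : SimpleGraph V) (Y : S → Set V) : Γ →g cone Γ Y :=
  ⟨Sum.inl, fun {a b} hab => (adj_ll a b).2 hab⟩

theorem connected (hc : Γ.Connected) (hY : ∀ s, (Y s).Nonempty) : (cone Γ Y).Connected := by
  obtain ⟨v0⟩ := hc.nonempty
  have : Nonempty (V ⊕ S) := ⟨Sum.inl v0⟩
  have key : ∀ x : V ⊕ S, (cone Γ Y).Reachable x (Sum.inl v0) := by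
    have hl : ∀ u : V, (cone Γ Y).Reachable (Sum.inl u) (Sum.inl v0) := fun u =>
      (hc.preconnected u v0).map (incl Γ Y)
    rintro (u | s)
    · exact hl u
    · obtain ⟨u, hu⟩ := hY s
      exact ((adj_lr (Γ := Γ) u s).2 hu).symm.reachable.trans (hl u)
  exact SimpleGraph.Connected.mk fun x y => (key x).trans (key y).symm

end A02

theorem cone_geo (hc : Γ.Connected) (hY : ∀ s, (Y s).Nonempty) : IsGeo (cd Γ Y) :=
  isGeo_dist _ (A02.connected hc hY)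

theorem cd_ll (hc : Γ.Connected) (hY : ∀ s, (Y s).Nonempty) (u v : V) :
    cd Γ Y (Sum.inl u) (Sum.inl v) = 1 ↔ Γ.Adj u v := by
  unfold cd
  rw [SimpleGraph.dist_eq_one_iff_adj, A02.adj_ll]

theorem cd_lr (hc : Γ.Connected) (hY : ∀ s, (Y s).Nonempty) (u : V) (s : S) :
    cd Γ Y (Sum.inl u) (Sum.inr s) = 1 ↔ u ∈ Y s := by
  unfold cd
  rw [SimpleGraph.dist_eq_one_iff_adj, A02.adj_lr]

theorem cd_rr (hc : Γ.Connected) (hY : ∀ s, (Y s).Nonempty) (s t : S) :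
    cd Γ Y (Sum.inr s) (Sum.inr t) ≠ 1 := by
  unfold cd
  rw [Ne, SimpleGraph.dist_eq_one_iff_adj]
  exact A02.adj_rr s t

theorem cd_le (hc : Γ.Connected) (hY : ∀ s, (Y s).Nonempty) (u v : V) :
    cd Γ Y (Sum.inl u) (Sum.inl v) ≤ Γ.dist u v := by
  obtain ⟨p, hp⟩ := hc.exists_walk_length_eq_dist u v
  have h1 := SimpleGraph.dist_le (p.map (A02.incl Γ Y))
  rw [SimpleGraph.Walk.length_map, hp] at h1
  exact h1

/-- an automorphism acts by isometries -/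
theorem cd_isom {G : Type} [Group G] [MulAction G V] [MulAction G S] (hc : Γ.Connected)
    (hY : ∀ s, (Y s).Nonempty) (h1 : ∀ (g : G) u v, Γ.Adj u v → Γ.Adj (g • u) (g • v))
    (h2 : ∀ (g : G) s u, u ∈ Y s → g • u ∈ Y (g • s)) (g : G) (x y : V ⊕ S) :
    cd Γ Y (g • x) (g • y) = cd Γ Y x y := by
  have hadj : ∀ (g : G) (x y : V ⊕ S), (cone Γ Y).Adj x y → (cone Γ Y).Adj (g • x) (g • y) := by
    rintro g (u | s) (v | t) hxy
    · rw [Sum.smul_inl, Sum.smul_inl, A02.adj_ll]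
      exact h1 g u v ((A02.adj_ll u v).1 hxy)
    · rw [Sum.smul_inl, Sum.smul_inr, A02.adj_lr]
      exact h2 g t u ((A02.adj_lr u t).1 hxy)
    · rw [Sum.smul_inl, Sum.smul_inr, SimpleGraph.adj_comm, A02.adj_lr]
      exact h2 g s v ((A02.adj_lr v s).1 hxy.symm)
    · exact absurd hxy (A02.adj_rr s t)
  have hle : ∀ (g : G) (x y : V ⊕ S), cd Γ Y (g • x) (g • y) ≤ cd Γ Y x y := by
    intro g x y
    obtain ⟨p, hp⟩ := (A02.connected hc hY).exists_walk_length_eq_dist x y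
    let φ : cone Γ Y →g cone Γ Y := ⟨fun z => g • z, fun hab => hadj g _ _ hab⟩
    have h3 := SimpleGraph.dist_le (p.map φ)
    rw [SimpleGraph.Walk.length_map, hp] at h3
    exact h3
  refine le_antisymm (hle g x y) ?_
  have h3 := hle g⁻¹ (g • x) (g • y)
  rwa [inv_smul_smul, inv_smul_smul] at h3

end Pool.Agent.Lib.MP_c23930_al
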