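import Pool.Agent.Lib.MP_c23930_al.A01
import Pool.Agent.Lib.MP_c23930_al.A02

/-!
# A03: the cone-off is hyperbolic, with a uniform constant
-/

set_option autoImplicit false

namespace Pool.Agent.Lib.MP_c23930_al

open Pool.Agent.Lib.MP_f1646b_al

namespace A03

variable {V S : Type} {Γ : SimpleGraph V} {Y : S → Set V} {P : S → V → ℤ} {I : V → V → Set V}
  {c Δ : ℕ}

/-- base point -/
def bp (y : S → V) : V ⊕ S → V := Sum.elim id y

/-- the guessed intervals of the cone-off -/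
def LL (I : V → V → Set V) (y : S → V) (a b : V ⊕ S) : Set (V ⊕ S) :=
  {a, b} ∪ Sum.inl '' I (bp y a) (bp y b)

theorem cd_bp (hL : LSys Γ Y P I c Δ) {y : S → V} (hy : ∀ s, y s ∈ Y s) (x : V ⊕ S) :
    cd Γ Y x (Sum.inl (bp y x)) ≤ 1 := by
  have hg := cone_geo hL.conn hL.ne
  rcases x with u | s
  · exact (hg.self _).le.trans (Nat.zero_le _)
  · rw [hg.symm]
    exact ((cd_lr hL.conn hL.ne _ _).2 (hy s)).le

/-- a point of a hull is near the apex -/
theorem apex_near (hL : LSys Γ Y P I c Δ) {s : S} {p p' v : V} (hp : p ∈ Y s) (hp' : p' ∈ Y s)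
    (hv : v ∈ I p p') : cd Γ Y (Sum.inr s) (Sum.inl v) ≤ c + 1 := by
  have hg := cone_geo hL.conn hL.ne
  obtain ⟨q, hq, hd⟩ := hL.hull s p hp p' hp' v hv
  have h1 := cd_le hL.conn hL.ne v q
  have h2 := (cd_lr hL.conn hL.ne q s).2 hq
  have h3 := hg.tri (Sum.inr s) (Sum.inl q) (Sum.inl v)
  rw [hg.symm (Sum.inr s) (Sum.inl q), hg.symm (Sum.inl q) (Sum.inl v)] at h3
  omega

theorem small (hL : LSys Γ Y P I c Δ) {y : S → V} (hy : ∀ s, y s ∈ Y s) (a b : V ⊕ S)
    (hab : cd Γ Y a b ≤ 1) (w : V ⊕ S) (hw : w ∈ LL I y a b) : cd Γ Y a w ≤ c + 2 := by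
  have hg := cone_geo hL.conn hL.ne
  rcases hw with (rfl | rfl) | ⟨v, hv, rfl⟩
  · rw [hg.self]; omega
  · omega
  rcases a with u | s <;> rcases b with u' | t
  · have h1 : Γ.dist u u' ≤ 1 := by
      rcases Nat.le_one_iff_eq_zero_or_eq_one.1 hab with h | h
      · have := hg.eq_of _ _ h
        rw [Sum.inl.inj this, SimpleGraph.dist_self]; omega
      · exact (SimpleGraph.dist_eq_one_iff_adj.2 ((cd_ll hL.conn hL.ne u u').1 h)).le
    have h2 := hL.small u u' h1 v hv
    exact (cd_le hL.conn hL.ne u v).trans (by omega)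
  · have hu : u ∈ Y t := by
      rcases Nat.le_one_iff_eq_zero_or_eq_one.1 hab with h | h
      · exact absurd (hg.eq_of _ _ h) (by simp)
      · exact (cd_lr hL.conn hL.ne u t).1 h
    have h1 := apex_near hL hu (hy t) hv
    have h2 := hg.tri (Sum.inl u) (Sum.inr t) (Sum.inl v)
    omega
  · have hu : u' ∈ Y s := by
      rw [hg.symm] at hab
      rcases Nat.le_one_iff_eq_zero_or_eq_one.1 hab with h | h
      · exact absurd (hg.eq_of _ _ h) (by simp)
      · exact (cd_lr hL.conn hL.ne u' s).1 h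
    have h1 := apex_near hL (hy s) hu hv
    omega
  · have hst : s = t := by
      rcases Nat.le_one_iff_eq_zero_or_eq_one.1 hab with h | h
      · exact Sum.inr.inj (hg.eq_of _ _ h)
      · exact absurd h (cd_rr hL.conn hL.ne s t)
    subst hst
    have h1 := apex_near hL (hy s) (hy s) hv
    omega

theorem thin (hL : LSys Γ Y P I c Δ) {y : S → V} (x z t w : V ⊕ S) (hw : w ∈ LL I y x z) :
    ∃ v, (v ∈ LL I y x t ∨ v ∈ LL I y t z) ∧ cd Γ Y w v ≤ c + 2 := by
  have hg := cone_geo hL.conn hL.ne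
  rcases hw with (rfl | rfl) | ⟨v, hv, rfl⟩
  · exact ⟨w, Or.inl (Or.inl (Or.inl rfl)), by rw [hg.self]; omega⟩
  · exact ⟨w, Or.inr (Or.inl (Or.inr rfl)), by rw [hg.self]; omega⟩
  · obtain ⟨v', h1, h2⟩ := hL.thin (bp y x) (bp y z) (bp y t) v hv
    refine ⟨Sum.inl v', ?_, (cd_le hL.conn hL.ne v v').trans (by omega)⟩
    rcases h1 with h1 | h1
    · exact Or.inl (Or.inr ⟨v', h1, rfl⟩)
    · exact Or.inr (Or.inr ⟨v', h1, rfl⟩)

theorem path (hL : LSys Γ Y P I c Δ) {y : S → V} (hy : ∀ s, y s ∈ Y s) (a b : V ⊕ S) :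
    ∃ (m : ℕ) (p : ℕ → V ⊕ S), p 0 = a ∧ p m = b ∧ (∀ i ≤ m, p i ∈ LL I y a b) ∧
      ∀ i < m, cd Γ Y (p i) (p (i + 1)) ≤ 1 := by
  have hg := cone_geo hL.conn hL.ne
  obtain ⟨m, p, h0, hm, hin, hst⟩ := hL.path (bp y a) (bp y b)
  refine ⟨m + 2, fun i => if i = 0 then a else if i = m + 2 then b else Sum.inl (p (i - 1)),
    by simp, by simp, fun i hi => ?_, fun i hi => ?_⟩
  · dsimp only
    split_ifs with h1 h2
    · exact Or.inl (Or.inl rfl)
    · exact Or.inl (Or.inr rfl)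
    · exact Or.inr ⟨p (i - 1), hin _ (by omega), rfl⟩
  · dsimp only
    by_cases h1 : i = 0
    · subst h1
      rw [if_pos rfl, if_neg (by omega), if_neg (by omega)]
      have := cd_bp hL hy a
      rwa [← h0] at this
    · rw [if_neg h1, if_neg (by omega), if_neg (by omega)]
      by_cases h2 : i = m + 1
      · rw [if_pos (by omega)]
        subst h2
        have := cd_bp hL hy b
        rw [hg.symm, ← hm] at this
        simpa using this
      · rw [if_neg (by omega)]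
        have := hst (i - 1) (by omega)
        have e : i - 1 + 1 = i + 1 - 1 := by omega
        rw [e] at this
        exact (cd_le hL.conn hL.ne _ _).trans this

end A03

theorem cone_hyp (c : ℕ) : ∃ T : ℕ, ∀ (V S : Type) (Γ : SimpleGraph V) (Y : S → Set V)
    (P : S → V → ℤ) (I : V → V → Set V) (Δ : ℕ), LSys Γ Y P I c Δ → Hyp (cd Γ Y) T := by
  obtain ⟨T, hT⟩ := guess_unif (c + 2)
  refine ⟨T, fun V S Γ Y P I Δ hL => ?_⟩
  choose y hy using hL.ne
  exact (hT (V ⊕ S) (cd Γ Y) (cone_geo hL.conn hL.ne) (A03.LL I y)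
    (fun x z t w hw => A03.thin hL x z t w hw) (fun a b hab w hw => A03.small hL hy a b hab w hw)
    (A03.path hL hy)).2

end Pool.Agent.Lib.MP_c23930_al
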