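import Pool.Agent.Lib.MP_c23930_al.A02
import Pool.Agent.Lib.MP_f1646b_al.P01

/-!
# A04: bounded projection of geodesics avoiding an apex
-/

set_option autoImplicit false

namespace Pool.Agent.Lib.MP_c23930_al

open Pool.Agent.Lib.MP_f1646b_al

variable {V S : Type} {Γ : SimpleGraph V} {Y : S → Set V} {P : S → V → ℤ} {I : V → V → Set V}
  {c Δ : ℕ}

/-- bound for the variation of the coordinate along a geodesic -/
def th1 (c Δ : ℕ) : ℕ := (4 * c + 8) * (Δ + 1)

/-- bound for the width of the set of exit points -/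
def wd (c Δ : ℕ) : ℕ := 2 * th1 c Δ + Δ

/-- the constant `θ` of the cone-off -/
def thA (c Δ : ℕ) : ℕ := 10 * (th1 c Δ + Δ)

namespace A04

/-- a value of a function along a path changes somewhere -/
theorem exists_change {β : Type*} (f : ℕ → β) (m : ℕ) (h : f 0 ≠ f m) :
    ∃ i < m, f i ≠ f (i + 1) := by
  by_contra hc
  push Not at hc
  apply h
  induction m with
  | zero => rfl
  | succ m ih =>
    rcases eq_or_ne (f 0) (f m) with h1 | h1
    · rw [h1]
      exact hc m (Nat.lt_succ_self m)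
    · exact absurd (ih h1 fun i hi => hc i (Nat.lt_succ_of_lt hi)) h1

theorem near_apex (hL : LSys Γ Y P I c Δ) {s : S} {u q : V} (hq : q ∈ Y s) {k : ℕ}
    (h : Γ.dist u q ≤ k) : cd Γ Y (Sum.inl u) (Sum.inr s) ≤ k + 1 := by
  have hg := cone_geo hL.conn hL.ne
  have h1 := cd_le hL.conn hL.ne u q
  have h2 := (cd_lr hL.conn hL.ne q s).2 hq
  have h3 := hg.tri (Sum.inl u) (Sum.inl q) (Sum.inr s)
  omega

/-- the last vertex before the time `i` -/
def lastV (u : V) (γ : ℕ → V ⊕ S) : ℕ → V
  | 0 => u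
  | i + 1 => Sum.elim id (fun _ => lastV u γ i) (γ (i + 1))

theorem lastV_inl {u : V} {γ : ℕ → V ⊕ S} (h0 : γ 0 = Sum.inl u) :
    ∀ {i : ℕ} {x : V}, γ i = Sum.inl x → lastV u γ i = x := by
  intro i x h
  cases i with
  | zero =>
    rw [h0] at h
    exact Sum.inl.inj h
  | succ i => simp [lastV, h]

theorem lastV_inr {u : V} {γ : ℕ → V ⊕ S} {i : ℕ} {t : S} (h : γ (i + 1) = Sum.inr t) :
    lastV u γ (i + 1) = lastV u γ i := by simp [lastV, h]

/-- a finite set of natural numbers of small diameter -/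
theorem card_le {A : Finset ℕ} {K : ℕ} (h : ∀ i ∈ A, ∀ j ∈ A, i ≤ j → j ≤ i + K) :
    A.card ≤ K + 1 := by
  rcases A.eq_empty_or_nonempty with h1 | h1
  · simp [h1]
  · have h2 : A ⊆ Finset.Icc (A.min' h1) (A.min' h1 + K) := by
      intro j hj
      have h3 := A.min'_le j hj
      exact Finset.mem_Icc.2 ⟨h3, h _ (A.min'_mem h1) j hj h3⟩
    have h3 := Finset.card_le_card h2
    rw [Nat.card_Icc] at h3
    omega

/-- total variation -/
theorem variation {f : ℕ → ℤ} {D K E : ℕ} (h1 : ∀ i < D, |f (i + 1) - f i| ≤ E)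
    (h2 : ∀ i < D, ∀ j < D, f (i + 1) ≠ f i → f (j + 1) ≠ f j → i ≤ j → j ≤ i + K) :
    |f D - f 0| ≤ ((K + 1) * E : ℕ) := by
  classical
  have e : f D - f 0 = ∑ i ∈ Finset.range D, (f (i + 1) - f i) := (Finset.sum_range_sub f D).symm
  set A := (Finset.range D).filter fun i => f (i + 1) ≠ f i with hA
  have e2 : ∑ i ∈ Finset.range D, |f (i + 1) - f i| = ∑ i ∈ A, |f (i + 1) - f i| := by
    rw [hA, Finset.sum_filter]
    refine Finset.sum_congr rfl fun i _ => ?_
    split_ifs with h
    · rfl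
    · push Not at h
      rw [h, sub_self, abs_zero]
  have h3 : A.card ≤ K + 1 := by
    refine card_le fun i hi j hj hij => ?_
    rw [hA, Finset.mem_filter, Finset.mem_range] at hi hj
    exact h2 i hi.1 j hj.1 hi.2 hj.2 hij
  calc |f D - f 0| ≤ ∑ i ∈ Finset.range D, |f (i + 1) - f i| := by
        rw [e]; exact Finset.abs_sum_le_sum_abs _ _
    _ = ∑ i ∈ A, |f (i + 1) - f i| := e2
    _ ≤ ∑ _i ∈ A, (E : ℤ) := Finset.sum_le_sum fun i hi => by
        rw [hA, Finset.mem_filter, Finset.mem_range] at hi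
        exact h1 i hi.1
    _ = (A.card : ℤ) * E := by rw [Finset.sum_const, nsmul_eq_mul]
    _ ≤ ((K + 1) * E : ℕ) := by
        push_cast
        have : (A.card : ℤ) ≤ K + 1 := by exact_mod_cast h3
        exact mul_le_mul_of_nonneg_right this (Int.natCast_nonneg E)

end A04

theorem link (hL : LSys Γ Y P I c Δ) {s t : S} (hst : s ≠ t) {u v : V} (hu : u ∈ Y t)
    (hv : v ∈ Y t) (h : P s u ≠ P s v) : cd Γ Y (Sum.inr s) (Sum.inr t) ≤ 2 * c + 2 := by
  obtain ⟨m, p, h0, h1, h2, h3⟩ := hL.path u v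
  obtain ⟨i, hi, h4⟩ := A04.exists_change (fun i => P s (p i)) m (by
    rw [h0, h1]
    exact h)
  change P s (p i) ≠ P s (p (i + 1)) at h4
  have hne : p i ≠ p (i + 1) := fun h5 => h4 (by rw [h5])
  have hadj : Γ.Adj (p i) (p (i + 1)) := by
    have h5 := h3 i hi
    have h6 : Γ.dist (p i) (p (i + 1)) ≠ 0 := fun h7 =>
      hne (((hL.conn.preconnected _ _).dist_eq_zero_iff).1 h7)
    exact SimpleGraph.dist_eq_one_iff_adj.1 (by omega)
  obtain ⟨q, hq, hq2⟩ := hL.near s _ _ hadj h4
  obtain ⟨q', hq', hq2'⟩ := hL.hull t u hu v hv (p i) (h2 i hi.le)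
  have hg := cone_geo hL.conn hL.ne
  have a1 := A04.near_apex hL hq hq2
  have a2 := A04.near_apex hL hq' hq2'
  have a3 := hg.tri (Sum.inr s) (Sum.inl (p i)) (Sum.inr t)
  have a4 := hg.symm (Sum.inr s) (Sum.inl (p i))
  omega

theorem bgp (hL : LSys Γ Y P I c Δ) (s : S) (u v : V) (γ : ℕ → V ⊕ S)
    (hγ : GeoPath (cd Γ Y) γ (Sum.inl u) (Sum.inl v))
    (h : ∀ i ≤ cd Γ Y (Sum.inl u) (Sum.inl v), γ i ≠ Sum.inr s) :
    |P s u - P s v| ≤ th1 c Δ := by
  obtain ⟨h0, h1, h2⟩ := hγ
  have hg := cone_geo hL.conn hL.ne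
  set D := cd Γ Y (Sum.inl u) (Sum.inl v) with hD
  have step : ∀ i < D, cd Γ Y (γ i) (γ (i + 1)) = 1 := by
    intro i hi
    rw [h2 i (i + 1) (Nat.le_succ i) hi]
    omega
  have key : ∀ i < D, |P s (A04.lastV u γ (i + 1)) - P s (A04.lastV u γ i)| ≤ ((Δ + 1 : ℕ) : ℤ) ∧
      (P s (A04.lastV u γ (i + 1)) ≠ P s (A04.lastV u γ i) →
        cd Γ Y (γ i) (Sum.inr s) ≤ 2 * c + 2) := by
    intro i hi
    have hst := step i hi
    rcases hb : γ (i + 1) with b | t
    · have eb : A04.lastV u γ (i + 1) = b := A04.lastV_inl h0 hb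
      rcases ha : γ i with a | t
      · have ea : A04.lastV u γ i = a := A04.lastV_inl h0 ha
        rw [ha, hb] at hst
        have hadj := (cd_ll hL.conn hL.ne a b).1 hst
        rw [ea, eb]
        refine ⟨?_, fun hne => ?_⟩
        · have := hL.lip s a b hadj
          rw [abs_sub_comm]
          push_cast
          have h3 : (0 : ℤ) ≤ Δ := Int.natCast_nonneg Δ
          omega
        · obtain ⟨q, hq, hq2⟩ := hL.near s a b hadj hne.symm
          have := A04.near_apex hL hq hq2
          omega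
      · have hi0 : i ≠ 0 := by
          rintro rfl
          rw [h0] at ha
          exact absurd ha (by simp)
        obtain ⟨j, rfl⟩ := Nat.exists_eq_succ_of_ne_zero hi0
        have hj := step j (by omega)
        have ha' : γ (j + 1) = Sum.inr t := ha
        rcases hc : γ j with a | t'
        · have ea : A04.lastV u γ (j + 1) = a := by
            rw [A04.lastV_inr ha', A04.lastV_inl h0 hc]
          have ea' : A04.lastV u γ (Nat.succ j) = a := ea
          rw [hc, ha'] at hj
          rw [ha, hb] at hst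
          have hat := (cd_lr hL.conn hL.ne a t).1 hj
          have hbt := (cd_lr hL.conn hL.ne b t).1 (by rw [hg.symm]; exact hst)
          have hts : s ≠ t := by
            rintro rfl
            exact h (j + 1) (by omega) ha'
          rw [ea', eb]
          refine ⟨?_, fun hne => ?_⟩
          · have := hL.ov s t hts b hbt a hat
            push_cast
            omega
          · rw [hg.symm]
            exact link hL hts hbt hat hne
        · rw [hc, ha'] at hj
          exact absurd hj (cd_rr hL.conn hL.ne t' t)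
    · rw [A04.lastV_inr hb, sub_self, abs_zero]
      exact ⟨Int.natCast_nonneg _, fun h3 => absurd rfl h3⟩
  have fin := A04.variation (f := fun i => P s (A04.lastV u γ i)) (D := D) (K := 4 * c + 4)
    (E := Δ + 1) (fun i hi => (key i hi).1) (fun i hi j hj hi2 hj2 hij => by
      have h3 := (key i hi).2 hi2
      have h4 := (key j hj).2 hj2
      have h5 := h2 i j hij (by omega)
      have h6 := hg.tri (γ i) (Sum.inr s) (γ j)
      have h7 := hg.symm (Sum.inr s) (γ j)
      omega)
  have e0 : A04.lastV u γ 0 = u := rfl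
  have e1 : A04.lastV u γ D = v := A04.lastV_inl h0 h1
  simp only [e0, e1] at fin
  rw [abs_sub_comm]
  refine fin.trans ?_
  have : (4 * c + 4 + 1) * (Δ + 1) ≤ th1 c Δ := by
    unfold th1
    exact Nat.mul_le_mul_right _ (by omega)
  exact_mod_cast this

end Pool.Agent.Lib.MP_c23930_al
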