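import Pool.Agent.Lib.MP_c23930_al.A04
import Pool.Agent.Lib.MP_f1646b_al.P02

/-!
# A05: exit points
-/

set_option autoImplicit false

namespace Pool.Agent.Lib.MP_c23930_al

open Pool.Agent.Lib.MP_f1646b_al

variable {V S : Type} {Γ : SimpleGraph V} {Y : S → Set V} {P : S → V → ℤ} {I : V → V → Set V}
  {c Δ : ℕ}

namespace A05

/-- `a` is a vertex at the point `x` of the cone-off -/
def En (Y : S → Set V) (x : V ⊕ S) (a : V) : Prop :=
  x = Sum.inl a ∨ ∃ t, x = Sum.inr t ∧ a ∈ Y t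

theorem en_near (hL : LSys Γ Y P I c Δ) {s : S} {x : V ⊕ S} (hx : x ≠ Sum.inr s) {a a' : V}
    (h : En Y x a) (h' : En Y x a') : |P s a - P s a'| ≤ Δ := by
  rcases h with h | ⟨t, h, ha⟩
  · rcases h' with h' | ⟨t', h', _⟩
    · rw [h] at h'
      have e : a = a' := Sum.inl.inj h'
      rw [e, sub_self, abs_zero]
      exact Int.natCast_nonneg _
    · rw [h] at h'
      cases h'
  · rcases h' with h' | ⟨t', h', ha'⟩
    · rw [h] at h'
      cases h'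
    · rw [h] at h'
      have e : t = t' := Sum.inr.inj h'
      subst e
      have hst : s ≠ t := by
        rintro rfl
        exact hx h
      exact hL.ov s t hst a ha a' ha'

/-- neighbours of an apex -/
theorem nb (hL : LSys Γ Y P I c Δ) {t : S} {w : V ⊕ S} (h : cd Γ Y (Sum.inr t) w = 1) :
    ∃ a, w = Sum.inl a ∧ a ∈ Y t := by
  rcases w with a | t'
  · refine ⟨a, rfl, ?_⟩
    rw [(cone_geo hL.conn hL.ne).symm] at h
    exact (cd_lr hL.conn hL.ne a t).1 h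
  · exact absurd h (cd_rr hL.conn hL.ne t t')

/-- the vertices at the two ends of a geodesic which avoids `s` -/
theorem ends (hL : LSys Γ Y P I c Δ) (s : S) {x y : V ⊕ S} (hxy : x ≠ y) {γ : ℕ → V ⊕ S}
    (hγ : GeoPath (cd Γ Y) γ x y) (h : ∀ i ≤ cd Γ Y x y, γ i ≠ Sum.inr s) :
    ∃ a b, En Y x a ∧ En Y y b ∧ |P s a - P s b| ≤ th1 c Δ := by
  have hg := cone_geo hL.conn hL.ne (Γ := Γ) (Y := Y)
  have hn : 1 ≤ cd Γ Y x y := by
    rcases Nat.eq_zero_or_pos (cd Γ Y x y) with h0 | h0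
    · exact absurd (hg.eq_of _ _ h0) hxy
    · exact h0
  set n := cd Γ Y x y with hnd
  have h1 : ∃ i a, i ≤ 1 ∧ γ i = Sum.inl a ∧ En Y x a ∧ (i = 0 ∨ ∃ t, x = Sum.inr t) := by
    rcases x with a | t
    · exact ⟨0, a, by omega, hγ.1, Or.inl rfl, Or.inl rfl⟩
    · have h2 := hγ.2.2 0 1 (by omega) hn
      rw [hγ.1] at h2
      obtain ⟨a, ha, hat⟩ := nb hL h2
      exact ⟨1, a, le_refl _, ha, Or.inr ⟨t, rfl, hat⟩, Or.inr ⟨t, rfl⟩⟩
  have h2 : ∃ j b, n - 1 ≤ j ∧ j ≤ n ∧ γ j = Sum.inl b ∧ En Y y b ∧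
      (j = n ∨ ∃ t, y = Sum.inr t) := by
    rcases y with b | t
    · exact ⟨n, b, by omega, le_refl _, hγ.2.1, Or.inl rfl, Or.inl rfl⟩
    · have h2 := hγ.2.2 (n - 1) n (by omega) (le_refl _)
      have h3 : γ n = Sum.inr t := hγ.2.1
      rw [h3, hg.symm] at h2
      obtain ⟨b, hb, hbt⟩ := nb hL (h2.trans (by omega))
      exact ⟨n - 1, b, le_refl _, by omega, hb, Or.inr ⟨t, rfl, hbt⟩, Or.inr ⟨t, rfl⟩⟩
  obtain ⟨i, a, hi, hia, hxa, hi0⟩ := h1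
  obtain ⟨j, b, hj, hjn, hjb, hyb, hj0⟩ := h2
  refine ⟨a, b, hxa, hyb, ?_⟩
  have hij : i ≤ j := by
    by_contra hc
    have e1 : n = 1 := by omega
    rcases hi0 with hi0 | ⟨t, ht⟩
    · omega
    · rcases hj0 with hj0 | ⟨t', ht'⟩
      · omega
      · rw [ht, ht'] at hnd
        exact cd_rr hL.conn hL.ne t t' (hnd.symm.trans e1)
  have h3 := P02.geoPath_sub hγ hij hjn
  rw [hia, hjb] at h3
  refine bgp hL s a b _ h3.2 fun k hk => ?_
  rw [h3.1] at hk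
  exact h (i + k) (by omega)

/-- from an exit point to the end -/
theorem exit (hL : LSys Γ Y P I c Δ) {s : S} {x : V ⊕ S} {u : V} (hu : u ∈ InS Γ Y s x) :
    ∃ b, En Y x b ∧ |P s u - P s b| ≤ th1 c Δ := by
  have hg := cone_geo hL.conn hL.ne (Γ := Γ) (Y := Y)
  by_cases hxu : Sum.inl u = x
  · refine ⟨u, Or.inl hxu.symm, ?_⟩
    rw [sub_self, abs_zero]
    exact Int.natCast_nonneg _
  · obtain ⟨γ, hγ, -⟩ := exists_geoPath hg (Sum.inl u) x (Sum.inl u) (btw_left hg _ _)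
    obtain ⟨a, b, ha, hb, hab⟩ := ends hL s hxu hγ (fun i hi he => by
      have h1 := (P02.geoPath_right hγ hi).1
      have h2 := hu.2
      rw [he] at h1
      omega)
    rcases ha with ha | ⟨t, ha, _⟩
    · have e : u = a := Sum.inl.inj ha
      rw [← e] at hab
      exact ⟨b, hb, hab⟩
    · cases ha

end A05

theorem inS_nonempty (hL : LSys Γ Y P I c Δ) (s : S) (x : V ⊕ S) (hx : x ≠ Sum.inr s) :
    (InS Γ Y s x).Nonempty := by
  have hg := cone_geo hL.conn hL.ne (Γ := Γ) (Y := Y)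
  have hn : 1 ≤ cd Γ Y (Sum.inr s) x := by
    rcases Nat.eq_zero_or_pos (cd Γ Y (Sum.inr s) x) with h0 | h0
    · exact absurd (hg.eq_of _ _ h0).symm hx
    · exact h0
  obtain ⟨w, h1, h2⟩ := hg.geo (Sum.inr s) x 1 hn
  obtain ⟨a, ha, has⟩ := A05.nb hL h1
  refine ⟨a, has, ?_⟩
  rw [ha] at h2
  omega

theorem inS_width (hL : LSys Γ Y P I c Δ) (s : S) (x : V ⊕ S) (hx : x ≠ Sum.inr s)
    (u v : V) (hu : u ∈ InS Γ Y s x) (hv : v ∈ InS Γ Y s x) : |P s u - P s v| ≤ wd c Δ := by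
  obtain ⟨b, hb, h1⟩ := A05.exit hL hu
  obtain ⟨b', hb', h2⟩ := A05.exit hL hv
  have h3 := A05.en_near hL hx hb hb'
  unfold wd
  push_cast
  rw [abs_le] at *
  constructor <;> linarith [h1.1, h1.2, h2.1, h2.2, h3.1, h3.2]

theorem inS_avoid (hL : LSys Γ Y P I c Δ) (s : S) (x y : V ⊕ S) (hx : x ≠ Sum.inr s)
    (hy : y ≠ Sum.inr s) (γ : ℕ → V ⊕ S) (hγ : GeoPath (cd Γ Y) γ x y)
    (h : ∀ i ≤ cd Γ Y x y, γ i ≠ Sum.inr s) (u v : V) (hu : u ∈ InS Γ Y s x)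
    (hv : v ∈ InS Γ Y s y) : |P s u - P s v| ≤ 3 * th1 c Δ + 2 * Δ := by
  obtain ⟨b, hb, h1⟩ := A05.exit hL hu
  obtain ⟨b', hb', h2⟩ := A05.exit hL hv
  have t0 : (0 : ℤ) ≤ th1 c Δ := Int.natCast_nonneg _
  have d0 : (0 : ℤ) ≤ Δ := Int.natCast_nonneg _
  by_cases hxy : x = y
  · rw [← hxy] at hb'
    have h3 := A05.en_near hL hx hb hb'
    rw [abs_le] at *
    constructor <;> linarith [h1.1, h1.2, h2.1, h2.2, h3.1, h3.2]
  · obtain ⟨a, a', ha, ha', h3⟩ := A05.ends hL s hxy hγ h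
    have h4 := A05.en_near hL hx hb ha
    have h5 := A05.en_near hL hy hb' ha'
    rw [abs_le] at *
    constructor <;> linarith [h1.1, h1.2, h2.1, h2.2, h3.1, h3.2, h4.1, h4.2, h5.1, h5.2]

theorem mS_near (hL : LSys Γ Y P I c Δ) (s : S) (x : V ⊕ S) (hx : x ≠ Sum.inr s)
    (u : V) (hu : u ∈ InS Γ Y s x) : |mS Γ Y P s x - 2 * P s u| ≤ wd c Δ := by
  have hw := inS_width hL s x hx
  set A := P s '' InS Γ Y s x with hA
  have hne : A.Nonempty := ⟨_, u, hu, rfl⟩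
  have hb1 : BddBelow A := by
    refine ⟨P s u - wd c Δ, ?_⟩
    rintro _ ⟨v, hv, rfl⟩
    have h1 := hw u v hu hv
    rw [abs_le] at h1
    linarith [h1.1, h1.2]
  have hb2 : BddAbove A := by
    refine ⟨P s u + wd c Δ, ?_⟩
    rintro _ ⟨v, hv, rfl⟩
    have h1 := hw u v hu hv
    rw [abs_le] at h1
    linarith [h1.1, h1.2]
  obtain ⟨a, ha, hae⟩ := Int.csInf_mem hne hb1
  obtain ⟨b, hb, hbe⟩ := Int.csSup_mem hne hb2
  have h1 : sInf A ≤ P s u := csInf_le hb1 ⟨u, hu, rfl⟩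
  have h2 : P s u ≤ sSup A := le_csSup hb2 ⟨u, hu, rfl⟩
  have h3 := hw a b ha hb
  unfold mS
  rw [← hA]
  rw [hae, hbe] at h3
  rw [abs_le] at *
  constructor <;> linarith [h3.1, h3.2]

end Pool.Agent.Lib.MP_c23930_al
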