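import Pool.Agent.Lib.MP_c23930_al.A05

/-!
# A06: the cone-off is a space with cut apices
-/

set_option autoImplicit false

namespace Pool.Agent.Lib.MP_c23930_al

open Pool.Agent.Lib.MP_f1646b_al

theorem cone_cas {V S : Type} {Γ : SimpleGraph V} {Y : S → Set V} {P : S → V → ℤ}
    {I : V → V → Set V} {c Δ : ℕ} (hL : LSys Γ Y P I c Δ) :
    CAS (cd Γ Y) (apx V S) (alph Γ Y P) (thA c Δ) 0 := by
  have hg : IsGeo (cd Γ Y) := cone_geo hL.conn hL.ne
  have hout : ∀ (u : V) (s : S), u ∈ Y s → cd Γ Y (Sum.inr s) (Sum.inl u) = 1 := by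
    intro u s hu
    rw [hg.symm]
    exact (cd_lr hL.conn hL.ne u s).2 hu
  -- the basic estimate
  have hsmall : ∀ (x y : V ⊕ S) (s : S) (γ : ℕ → V ⊕ S), x ≠ Sum.inr s → y ≠ Sum.inr s →
      GeoPath (cd Γ Y) γ x y → (∀ i ≤ cd Γ Y x y, γ i ≠ Sum.inr s) →
      alph Γ Y P (Sum.inr s) x y ≤ thA c Δ := by
    intro x y s γ hx hy hγ hγs
    obtain ⟨u, hu⟩ := inS_nonempty hL s x hx
    obtain ⟨v, hv⟩ := inS_nonempty hL s y hy
    have h1 := inS_avoid hL s x y hx hy γ hγ hγs u v hu hv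
    have h2 := mS_near hL s x hx u hu
    have h3 := mS_near hL s y hy v hv
    show (mS Γ Y P s x - mS Γ Y P s y).natAbs ≤ thA c Δ
    rw [abs_le] at h1 h2 h3
    unfold wd at h2 h3
    unfold thA
    push_cast at h1 h2 h3
    omega
  -- `k1` and `k1'`
  have hk1' : ∀ (s : S) (x y w : V ⊕ S), x ≠ Sum.inr s → y ≠ Sum.inr s →
      thA c Δ < alph Γ Y P (Sum.inr s) x y → MP_f1646b_al.Btw (cd Γ Y) x w y →
      MP_f1646b_al.Btw (cd Γ Y) x (Sum.inr s) w ∨ MP_f1646b_al.Btw (cd Γ Y) w (Sum.inr s) y := by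
    intro s x y w hx hy hα hw
    obtain ⟨γ, hγ, hγw⟩ := exists_geoPath hg x y w hw
    have hex : ∃ i ≤ cd Γ Y x y, γ i = Sum.inr s := by
      by_contra hcon
      push Not at hcon
      have := hsmall x y s γ hx hy hγ hcon
      omega
    obtain ⟨i, hi, hic⟩ := hex
    obtain ⟨g0, g1, g2⟩ := hγ
    have hwle : cd Γ Y x w ≤ cd Γ Y x y := by unfold MP_f1646b_al.Btw at hw; omega
    have a0 : cd Γ Y x (γ i) = i := by
      have := g2 0 i (Nat.zero_le _) hi
      rw [g0] at this; omega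
    have a1 : cd Γ Y (γ i) y = cd Γ Y x y - i := by
      have := g2 i _ hi le_rfl
      rw [g1] at this; exact this
    rw [← hic]
    rcases le_total i (cd Γ Y x w) with hle | hle
    · left
      have := g2 i _ hle hwle
      rw [hγw] at this
      unfold MP_f1646b_al.Btw; omega
    · right
      have := g2 _ i hle hi
      rw [hγw] at this
      unfold MP_f1646b_al.Btw at hw ⊢; omega
  have hk1 : ∀ (s : S) (x y : V ⊕ S), x ≠ Sum.inr s → y ≠ Sum.inr s →
      thA c Δ < alph Γ Y P (Sum.inr s) x y → MP_f1646b_al.Btw (cd Γ Y) x (Sum.inr s) y := by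
    intro s x y hx hy hα
    rcases hk1' s x y x hx hy hα (btw_left hg x y) with h3 | h3
    · exfalso
      unfold MP_f1646b_al.Btw at h3
      rw [hg.self] at h3
      exact hx (hg.eq_of _ _ (by omega))
    · exact h3
  refine ⟨hg, ?_, ?_, ?_, ?_, ?_, ?_, ?_, ?_⟩
  · rintro _ ⟨s, rfl⟩ _ ⟨t, rfl⟩
    exact cd_rr hL.conn hL.ne s t
  · rintro _ ⟨s, rfl⟩ x hx
    show (mS Γ Y P s x - mS Γ Y P s x).natAbs = 0
    rw [sub_self]; rfl
  · rintro _ ⟨s, rfl⟩ x y hx hy
    show (mS Γ Y P s x - mS Γ Y P s y).natAbs = (mS Γ Y P s y - mS Γ Y P s x).natAbs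
    omega
  · rintro _ ⟨s, rfl⟩ x y z hx hy hz
    show (mS Γ Y P s x - mS Γ Y P s z).natAbs ≤ (mS Γ Y P s x - mS Γ Y P s y).natAbs +
      (mS Γ Y P s y - mS Γ Y P s z).natAbs + 0
    omega
  · rintro _ ⟨s, rfl⟩ x y hx hy hα
    exact hk1 s x y hx hy hα
  · rintro _ ⟨s, rfl⟩ x y w hx hy hα hw
    exact hk1' s x y w hx hy hα hw
  · rintro _ ⟨s, rfl⟩ _ ⟨t, rfl⟩ x hst hxs hxt hα
    have hb := hk1 t (Sum.inr s) x hst hxt hα
    have hset : InS Γ Y s (Sum.inr t) = InS Γ Y s x := by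
      ext u
      constructor
      · rintro ⟨hu, hu1⟩
        refine ⟨hu, ?_⟩
        have a1 := hg.tri (Sum.inl u) (Sum.inr t) x
        have a2 := hg.tri (Sum.inr s) (Sum.inl u) x
        have a3 := hout u s hu
        unfold MP_f1646b_al.Btw at hb
        omega
      · rintro ⟨hu, hu1⟩
        refine ⟨hu, ?_⟩
        have a3 := hout u s hu
        have hbu : MP_f1646b_al.Btw (cd Γ Y) (Sum.inr s) (Sum.inl u) x := by
          unfold MP_f1646b_al.Btw; omega
        rcases hk1' t (Sum.inr s) x (Sum.inl u) hst hxt hα hbu with h3 | h3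
        · exfalso
          have a4 := dist_pos_of_ne hg hst
          have a5 : cd Γ Y (Sum.inl u) (Sum.inr t) ≠ 0 := fun h0 => by
            have := hg.eq_of _ _ h0
            exact absurd this (by simp)
          have a6 := hg.symm (Sum.inl u) (Sum.inr t)
          unfold MP_f1646b_al.Btw at h3
          omega
        · unfold MP_f1646b_al.Btw at h3 hb
          omega
    show (mS Γ Y P s (Sum.inr t) - mS Γ Y P s x).natAbs = 0
    unfold mS
    rw [hset, sub_self]; rfl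
  · rintro _ ⟨s, rfl⟩ w x hw hx hb
    obtain ⟨u, hu⟩ := inS_nonempty hL s w hw
    have hu' : u ∈ InS Γ Y s x := by
      refine ⟨hu.1, ?_⟩
      have a1 := hg.tri (Sum.inl u) w x
      have a2 := hg.tri (Sum.inr s) (Sum.inl u) x
      have a3 := hout u s hu.1
      have a4 := hu.2
      unfold MP_f1646b_al.Btw at hb
      omega
    have h2 := mS_near hL s w hw u hu
    have h3 := mS_near hL s x hx u hu'
    show (mS Γ Y P s w - mS Γ Y P s x).natAbs ≤ thA c Δ
    rw [abs_le] at h2 h3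
    unfold wd at h2 h3
    unfold thA
    push_cast at h2 h3
    omega

end Pool.Agent.Lib.MP_c23930_al
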