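import Pool.Agent.Lib.MP_c23930_al.A05

/-!
# A07: lower bounds for the metric of the cone-off
-/

set_option autoImplicit false

namespace Pool.Agent.Lib.MP_c23930_al

open Pool.Agent.Lib.MP_f1646b_al

variable {V S : Type} {Γ : SimpleGraph V} {Y : S → Set V} {P : S → V → ℤ} {I : V → V → Set V}
  {c Δ : ℕ}

namespace A07

theorem step (hL : LSys Γ Y P I c Δ) (A : ℕ) (u v : V)
    (h2 : ∀ s, alph Γ Y P (Sum.inr s) (Sum.inl u) (Sum.inl v) ≤ A) (γ : ℕ → V ⊕ S)
    (hγ : GeoPath (cd Γ Y) γ (Sum.inl u) (Sum.inl v)) (i : ℕ) :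
    i ≤ cd Γ Y (Sum.inl u) (Sum.inl v) → ∀ a, γ i = Sum.inl a →
      Γ.dist u a ≤ i * (c * (A + 2 * wd c Δ + 1) + 1) := by
  have hg : IsGeo (cd Γ Y) := cone_geo hL.conn hL.ne
  set K := cd Γ Y (Sum.inl u) (Sum.inl v) with hK
  set B := c * (A + 2 * wd c Δ + 1) + 1 with hB
  obtain ⟨g0, g1, gd⟩ := hγ
  induction i using Nat.strong_induction_on with
  | _ i ih =>
    intro hi a ha
    rcases i with _ | i
    · rw [g0] at ha
      have : u = a := Sum.inl_injective ha
      subst this
      simp
    · have h01 := gd i (i + 1) (by omega) hi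
      rcases hb : γ i with b | t
      · have h3 := ih i (by omega) (by omega) b hb
        rw [hb, ha] at h01
        have h4 : cd Γ Y (Sum.inl b) (Sum.inl a) = 1 := by omega
        rw [cd_ll hL.conn hL.ne] at h4
        have h5 : Γ.dist b a = 1 := SimpleGraph.dist_eq_one_iff_adj.2 h4
        have h6 := hL.conn.dist_triangle (u := u) (v := b) (w := a)
        have h7 : (i + 1) * B = i * B + B := by ring
        rw [h7]
        omega
      · rcases i with _ | i
        · rw [g0] at hb
          cases hb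
        · have h02 := gd i (i + 1) (by omega) (by omega)
          rcases hw : γ i with w | t'
          · have h3 := ih i (by omega) (by omega) w hw
            rw [hb, ha] at h01
            rw [hw, hb] at h02
            have h4 : cd Γ Y (Sum.inl w) (Sum.inr t) = 1 := by omega
            have h5 : cd Γ Y (Sum.inl a) (Sum.inr t) = 1 := by rw [hg.symm]; omega
            rw [cd_lr hL.conn hL.ne] at h4 h5
            have hu0 : (Sum.inl u : V ⊕ S) ≠ Sum.inr t := by intro h; cases h
            have hv0 : (Sum.inl v : V ⊕ S) ≠ Sum.inr t := by intro h; cases h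
            have hw1 : w ∈ InS Γ Y t (Sum.inl u) := by
              refine ⟨h4, ?_⟩
              have e1 := gd 0 i (by omega) (by omega)
              have e2 := gd 0 (i + 1) (by omega) (by omega)
              rw [g0, hw] at e1
              rw [g0, hb] at e2
              rw [hg.symm (Sum.inl w), hg.symm (Sum.inr t), e1, e2]
              omega
            have ha1 : a ∈ InS Γ Y t (Sum.inl v) := by
              refine ⟨h5, ?_⟩
              have e1 := gd (i + 1 + 1) K hi le_rfl
              have e2 := gd (i + 1) K (by omega) le_rfl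
              rw [g1, ha] at e1
              rw [g1, hb] at e2
              rw [e1, e2]
              omega
            have m1 := mS_near hL t _ hu0 w hw1
            have m2 := mS_near hL t _ hv0 a ha1
            have m3 := h2 t
            simp only [alph] at m3
            have m4 := hL.met t w h4 a h5
            have m5 : |P t w - P t a| ≤ A + 2 * wd c Δ := by
              have m6 : ((mS Γ Y P t (Sum.inl u) - mS Γ Y P t (Sum.inl v)).natAbs : ℤ) ≤ A := by
                exact_mod_cast m3
              rw [Int.natCast_natAbs] at m6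
              rw [abs_le] at m1 m2 m6 ⊢
              constructor <;> linarith [m1.1, m1.2, m2.1, m2.2, m6.1, m6.2]
            have m7 : (Γ.dist w a : ℤ) ≤ (c * (A + 2 * wd c Δ + 1) : ℕ) := by
              push_cast
              refine le_trans m4 ?_
              have hc : (0 : ℤ) ≤ c := Int.natCast_nonneg c
              exact mul_le_mul_of_nonneg_left (by linarith) hc
            have m8 : Γ.dist w a ≤ c * (A + 2 * wd c Δ + 1) := by exact_mod_cast m7
            have h6 := hL.conn.dist_triangle (u := u) (v := w) (w := a)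
            have h7 : (i + 1 + 1) * B = i * B + B + B := by ring
            rw [h7]
            omega
          · rw [hw, hb] at h02
            exact absurd (by omega) (cd_rr hL.conn hL.ne t' t)

theorem mS_inl (hL : LSys Γ Y P I c Δ) (s : S) (u : V) :
    |mS Γ Y P s (Sum.inl u) - 2 * P s u| ≤ wd c Δ + 2 * th1 c Δ := by
  have hg : IsGeo (cd Γ Y) := cone_geo hL.conn hL.ne
  have hu0 : (Sum.inl u : V ⊕ S) ≠ Sum.inr s := by intro h; cases h
  obtain ⟨u', hu'⟩ := inS_nonempty hL s _ hu0
  have h1 := mS_near hL s _ hu0 u' hu'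
  obtain ⟨γ, hγ, -⟩ := exists_geoPath hg (Sum.inl u' : V ⊕ S) (Sum.inl u) (Sum.inl u')
    (btw_left hg _ _)
  have h2 : |P s u' - P s u| ≤ th1 c Δ := by
    refine bgp hL s u' u γ hγ fun i hi he => ?_
    have h3 := hγ.2.2 i _ hi le_rfl
    rw [hγ.2.1, he, ← hu'.2] at h3
    omega
  rw [abs_le] at h1 h2 ⊢
  constructor <;> linarith [h1.1, h1.2, h2.1, h2.2]

end A07

theorem cone_lb (hL : LSys Γ Y P I c Δ) (K A : ℕ) (u v : V)
    (h1 : cd Γ Y (Sum.inl u) (Sum.inl v) ≤ K)
    (h2 : ∀ s, alph Γ Y P (Sum.inr s) (Sum.inl u) (Sum.inl v) ≤ A) :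
    Γ.dist u v ≤ K * (c * (A + 2 * wd c Δ + 1) + 1) := by
  have hg : IsGeo (cd Γ Y) := cone_geo hL.conn hL.ne
  obtain ⟨γ, hγ, -⟩ := exists_geoPath hg (Sum.inl u : V ⊕ S) (Sum.inl v) (Sum.inl u)
    (btw_left hg _ _)
  have h3 := A07.step hL A u v h2 γ hγ _ le_rfl v hγ.2.1
  exact h3.trans (Nat.mul_le_mul_right _ h1)

theorem cone_alph (hL : LSys Γ Y P I c Δ) (s : S) (u v : V) :
    (alph Γ Y P (Sum.inr s) (Sum.inl u) (Sum.inl v) : ℤ) ≤ 2 * |P s u - P s v| + thA c Δ := by
  have h1 := A07.mS_inl hL s u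
  have h2 := A07.mS_inl hL s v
  have h3 : (wd c Δ : ℤ) = 2 * th1 c Δ + Δ := by simp [wd]
  have h4 : (thA c Δ : ℤ) = 10 * (th1 c Δ + Δ) := by simp [thA]
  have h5 : (0 : ℤ) ≤ th1 c Δ := Int.natCast_nonneg _
  have h6 : (0 : ℤ) ≤ Δ := Int.natCast_nonneg _
  simp only [alph]
  rw [Int.natCast_natAbs, h4]
  rw [h3] at h1 h2
  rw [abs_le] at h1 h2
  have h7 := abs_nonneg (P s u - P s v)
  rw [abs_le]
  rcases abs_cases (P s u - P s v) with h | h
  · constructor <;> linarith [h1.1, h1.2, h2.1, h2.2, h.1, h.2]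
  · constructor <;> linarith [h1.1, h1.2, h2.1, h2.2, h.1, h.2]

end Pool.Agent.Lib.MP_c23930_al
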