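import Pool.Agent.Lib.MP_c23930_al.A03
import Pool.Agent.Lib.MP_c23930_al.A06
import Pool.Agent.Lib.MP_c23930_al.A07

/-!
# A08: the package of the cone-off
-/

set_option autoImplicit false

namespace Pool.Agent.Lib.MP_c23930_al

open Pool.Agent.Lib.MP_f1646b_al

theorem cone_pkg (c Δ : ℕ) : ∃ (θ δ : ℕ) (Bf : ℕ → ℕ → ℕ), ∀ (V S : Type) (Γ : SimpleGraph V)
    (Y : S → Set V) (P : S → V → ℤ) (I : V → V → Set V), LSys Γ Y P I c Δ →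
    CAS (cd Γ Y) (apx V S) (alph Γ Y P) θ 0 ∧ Hyp (cd Γ Y) δ ∧
    (∀ K A u v, cd Γ Y (Sum.inl u) (Sum.inl v) ≤ K →
      (∀ s, alph Γ Y P (Sum.inr s) (Sum.inl u) (Sum.inl v) ≤ A) → Γ.dist u v ≤ Bf K A) ∧
    ∀ s u v, (alph Γ Y P (Sum.inr s) (Sum.inl u) (Sum.inl v) : ℤ) ≤ 2 * |P s u - P s v| + θ := by
  obtain ⟨T, hT⟩ := cone_hyp c
  exact ⟨thA c Δ, T, fun K A => K * (c * (A + 2 * wd c Δ + 1) + 1), fun V S Γ Y P I hL =>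
    ⟨cone_cas hL, hT V S Γ Y P I Δ hL, cone_lb hL, cone_alph hL⟩⟩

end Pool.Agent.Lib.MP_c23930_al
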