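import Pool.Agent.Lib.MP_c23930_al.A05

/-!
# A09: the rotation family of the cone-off
-/

set_option autoImplicit false

namespace Pool.Agent.Lib.MP_c23930_al

open Pool.Agent.Lib.MP_f1646b_al

/-- the rotation subgroups of the cone-off -/
def rotS {G S : Type*} [Group G] (R : S → Subgroup G) : G ⊕ S → Subgroup G
  | Sum.inl _ => ⊥
  | Sum.inr s => R s

variable {G S : Type} [Group G] [MulAction G S] {Γ : SimpleGraph G} {Y : S → Set G}
  {P : S → G → ℤ} {I : G → G → Set G} {R : S → Subgroup G} {c Δ n θ : ℕ}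

namespace A09

theorem isom (hL : LSys Γ Y P I c Δ) (hA : LAct G Γ Y P R n) (g : G) (x y : G ⊕ S) :
    cd Γ Y (g • x) (g • y) = cd Γ Y x y :=
  cd_isom hL.conn hL.ne (fun g u v h => hA.adj g u v h) (fun g s u h => hA.Y_smul g s u h) g x y

theorem mem_Y (hA : LAct G Γ Y P R n) (g : G) (s : S) (u : G) : g * u ∈ Y (g • s) ↔ u ∈ Y s := by
  refine ⟨fun h => ?_, hA.Y_smul g s u⟩
  have := hA.Y_smul g⁻¹ _ _ h
  rwa [inv_mul_cancel_left, inv_smul_smul] at this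

theorem inS_smul (hL : LSys Γ Y P I c Δ) (hA : LAct G Γ Y P R n) (g : G) (s : S) (x : G ⊕ S) :
    InS Γ Y (g • s) (g • x) = (fun u => g * u) '' InS Γ Y s x := by
  ext u
  constructor
  · rintro ⟨h1, h2⟩
    refine ⟨g⁻¹ * u, ⟨?_, ?_⟩, by simp⟩
    · rw [← mem_Y hA g, mul_inv_cancel_left]; exact h1
    · have e1 := isom hL hA g (Sum.inl (g⁻¹ * u)) x
      have e2 := isom hL hA g (Sum.inr s) x
      rw [Sum.smul_inl, smul_eq_mul, mul_inv_cancel_left] at e1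
      rw [Sum.smul_inr] at e2
      rw [← e1, ← e2]; exact h2
  · rintro ⟨v, ⟨h1, h2⟩, rfl⟩
    refine ⟨(mem_Y hA g s v).2 h1, ?_⟩
    have e1 := isom hL hA g (Sum.inl v) x
    have e2 := isom hL hA g (Sum.inr s) x
    rw [Sum.smul_inl, smul_eq_mul] at e1
    rw [Sum.smul_inr] at e2
    simp only
    rw [e1, e2]; exact h2

/-- images under a translation -/
theorem image_translate (hL : LSys Γ Y P I c Δ) (hA : LAct G Γ Y P R n) (g : G) (s : S)
    (x : G ⊕ S) {C : ℤ} (hC : ∀ u, P (g • s) (g * u) = P s u + C) :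
    P (g • s) '' InS Γ Y (g • s) (g • x) = OrderIso.addRight C '' (P s '' InS Γ Y s x) := by
  rw [inS_smul hL hA, Set.image_image, Set.image_image]
  exact Set.image_congr fun u _ => hC u

theorem mS_smul (hL : LSys Γ Y P I c Δ) (hA : LAct G Γ Y P R n) (g : G) (s : S)
    (x : G ⊕ S) (hx : x ≠ Sum.inr s) {C : ℤ} (hC : ∀ u, P (g • s) (g * u) = P s u + C) :
    mS Γ Y P (g • s) (g • x) = mS Γ Y P s x + 2 * C := by
  have hne : (P s '' InS Γ Y s x).Nonempty := (inS_nonempty hL s x hx).image _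
  obtain ⟨u₀, hu₀⟩ := inS_nonempty hL s x hx
  have hb : BddBelow (P s '' InS Γ Y s x) := by
    refine ⟨P s u₀ - wd c Δ, ?_⟩
    rintro _ ⟨u, hu, rfl⟩
    have := abs_le.1 (inS_width hL s x hx u₀ u hu₀ hu)
    omega
  have ha : BddAbove (P s '' InS Γ Y s x) := by
    refine ⟨P s u₀ + wd c Δ, ?_⟩
    rintro _ ⟨u, hu, rfl⟩
    have := abs_le.1 (inS_width hL s x hx u₀ u hu₀ hu)
    omega
  unfold mS
  rw [image_translate hL hA g s x hC, ← OrderIso.map_csInf' _ hne hb,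
    ← OrderIso.map_csSup' _ hne ha]
  simp only [OrderIso.addRight_apply]
  ring

theorem exists_C (hA : LAct G Γ Y P R n) (g : G) (s : S) :
    ∃ C : ℤ, ∀ u, P (g • s) (g * u) = P s u + C := by
  refine ⟨P (g • s) (g * 1) - P s 1, fun u => ?_⟩
  have := hA.P_smul g s u 1
  omega

theorem smul_ne {g : G} {s : S} {x : G ⊕ S} (hx : x ≠ Sum.inr s) : g • x ≠ Sum.inr (g • s) := by
  intro h
  rw [← Sum.smul_inr] at h
  exact hx (MulAction.injective g h)

end A09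

theorem cone_act (hL : LSys Γ Y P I c Δ) (hA : LAct G Γ Y P R n)
    (hC : CAS (cd Γ Y) (apx G S) (alph Γ Y P) θ 0) :
    ActCAS G (cd Γ Y) (apx G S) (alph Γ Y P) θ 0 := by
  refine ⟨hC, A09.isom hL hA, ?_, ?_⟩
  · rintro h _ ⟨s, rfl⟩
    exact ⟨h • s, rfl⟩
  · rintro h _ ⟨s, rfl⟩ x y hx hy
    obtain ⟨C, hC'⟩ := A09.exists_C hA h s
    show (mS Γ Y P (h • s) (h • x) - mS Γ Y P (h • s) (h • y)).natAbs =
      (mS Γ Y P s x - mS Γ Y P s y).natAbs
    rw [A09.mS_smul hL hA h s x hx hC', A09.mS_smul hL hA h s y hy hC']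
    congr 1
    ring

theorem cone_rot (hL : LSys Γ Y P I c Δ) (hA : LAct G Γ Y P R n)
    (hC : CAS (cd Γ Y) (apx G S) (alph Γ Y P) θ 0) (hn : 8 * θ < n) :
    RotFam G (cd Γ Y) (apx G S) (alph Γ Y P) θ n (rotS R) := by
  refine ⟨cone_act hL hA hC, ?_, ?_, ?_, hn⟩
  · rintro _ ⟨s, rfl⟩ ρ hρ
    exact congrArg Sum.inr ((hA.stab ρ s).1 hρ)
  · rintro h _ ⟨s, rfl⟩ ρ hρ
    refine (hA.stab _ _).2 ?_
    have := (hA.stab ρ s).1 hρ
    rw [mul_smul, mul_smul, inv_smul_smul, this]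
  · rintro _ ⟨s, rfl⟩ ρ hρ hne x hx
    obtain ⟨k, hk, hP⟩ := hA.shift s ρ hρ hne
    have hs : ρ • s = s := (hA.stab ρ s).1 hρ
    have hC' : ∀ u, P (ρ • s) (ρ * u) = P s u + k * n := by
      intro u; rw [hs]; exact hP u
    have hm := A09.mS_smul hL hA ρ s x hx hC'
    rw [hs] at hm
    show 2 * n ≤ (mS Γ Y P s x - mS Γ Y P s (ρ • x)).natAbs
    rw [hm]
    have e : mS Γ Y P s x - (mS Γ Y P s x + 2 * (k * n)) = -(2 * (k * n)) := by ring
    rw [e, Int.natAbs_neg, Int.natAbs_mul, Int.natAbs_mul]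
    have h1 : 1 ≤ k.natAbs := Nat.one_le_iff_ne_zero.2 (Int.natAbs_ne_zero.2 hk)
    have h2 : (n : ℤ).natAbs = n := Int.natAbs_natCast n
    rw [h2]
    have h3 : (2 : ℤ).natAbs = 2 := rfl
    rw [h3]
    nlinarith

end Pool.Agent.Lib.MP_c23930_al
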