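import Mathlib

/-!
# Restricted wreath products and sofic groups: definitions
-/

set_option autoImplicit false

namespace Pool.Agent.Lib.MP_c23930_al

/-- A group `G` is sofic: for every finite set `F` of elements and every `ε > 0` there are `n > 0` and a map
`σ` from `G` to the permutations of `n` points which is multiplicative on `F` at all but `ε n` points, and
such that for `g ∈ F`, `g ≠ 1`, the permutation `σ g` moves all but `ε n` points. -/
def Sofic (G : Type) [Group G] : Prop :=
  ∀ (F : Finset G) (ε : ℝ), 0 < ε → ∃ (n : ℕ) (σ : G → Equiv.Perm (Fin n)), 0 < n ∧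
    (∀ g ∈ F, ∀ h ∈ F,
      (1 - ε) * n ≤ ((Finset.univ.filter fun x : Fin n => σ (g * h) x = σ g (σ h x)).card : ℝ)) ∧
    (∀ g ∈ F, g ≠ 1 →
      (1 - ε) * n ≤ ((Finset.univ.filter fun x : Fin n => σ g x ≠ x).card : ℝ))

/-- The group of all functions `f : G → A` with `f x = 1` for all but finitely many `x`. -/
def base (A G : Type) [Group A] : Subgroup (G → A) where
  carrier := {f | (Function.mulSupport f).Finite}
  mul_mem' := fun {f g} hf hg => (hf.union hg).subset (Function.mulSupport_mul f g)
  one_mem' := by simp
  inv_mem' := fun {f} hf => by
    have : Function.mulSupport f⁻¹ = Function.mulSupport f := Function.mulSupport_inv f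
    simpa [this] using hf

/-- Left translation of a function by `g`: the value at `x` is the old value at `g⁻¹ * x`. -/
def translate (A G : Type) [Group A] [Group G] (g : G) : base A G ≃* base A G where
  toFun f := ⟨fun x => f.1 (g⁻¹ * x), by
    have h : Function.mulSupport (fun x => f.1 (g⁻¹ * x)) ⊆ (g * ·) '' Function.mulSupport f.1 := by
      intro x hx
      exact ⟨g⁻¹ * x, hx, by simp⟩
    exact (f.2.image _).subset h⟩
  invFun f := ⟨fun x => f.1 (g * x), by
    have h : Function.mulSupport (fun x => f.1 (g * x)) ⊆ (g⁻¹ * ·) '' Function.mulSupport f.1 := by
      intro x hx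
      exact ⟨g * x, hx, by simp⟩
    exact (f.2.image _).subset h⟩
  left_inv f := by ext x; simp
  right_inv f := by ext x; simp
  map_mul' f f' := by ext x; simp

/-- The action of `G` on the finitely supported functions by left translation. -/
def translateHom (A G : Type) [Group A] [Group G] : G →* MulAut (base A G) where
  toFun := translate A G
  map_one' := by ext f x; simp [translate]
  map_mul' g h := by ext f x; simp [translate, mul_assoc]

/-- The restricted wreath product `A wr G`: the semidirect product of the finitely supported functions
`G → A` by `G` acting by translation. -/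
abbrev Wreath (A G : Type) [Group A] [Group G] : Type :=
  base A G ⋊[translateHom A G] G

end Pool.Agent.Lib.MP_c23930_al
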