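import Pool.Agent.Lib.MP_c23930_al.Rank

/-!
# Word balls, long geodesics and words with prescribed lamps
-/

set_option autoImplicit false

namespace Pool.Agent.Lib.MP_c23930_al

open Finset
open scoped Pointwise

section balls

variable {Γ : Type} [Group Γ] [DecidableEq Γ]

/-- The ball of radius `n` for the generating set `S`. -/
def Bl (S : Finset Γ) (n : ℕ) : Finset Γ := (S ∪ S⁻¹ ∪ {1}) ^ n

variable (S : Finset Γ)

theorem one_mem_Bl (n : ℕ) : 1 ∈ Bl S n := Finset.one_mem_pow (by simp)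

theorem Bl_mono {m n : ℕ} (h : m ≤ n) : Bl S m ⊆ Bl S n :=
  Finset.pow_subset_pow_right (by simp) h

theorem mul_mem_Bl {m n : ℕ} {x y : Γ} (hx : x ∈ Bl S m) (hy : y ∈ Bl S n) :
    x * y ∈ Bl S (m + n) := by
  rw [Bl, pow_add]; exact Finset.mul_mem_mul hx hy

theorem mem_Bl_add {m n : ℕ} {z : Γ} (hz : z ∈ Bl S (m + n)) :
    ∃ x ∈ Bl S m, ∃ y ∈ Bl S n, x * y = z := by
  rw [Bl, pow_add] at hz; exact Finset.mem_mul.mp hz

theorem inv_mem_Bl {n : ℕ} {x : Γ} (hx : x ∈ Bl S n) : x⁻¹ ∈ Bl S n := by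
  have h : (Bl S n)⁻¹ = Bl S n := by
    rw [Bl, ← inv_pow]
    congr 1
    ext z
    simp only [Finset.mem_inv', Finset.mem_union, Finset.mem_singleton, inv_inv, inv_eq_one]
    tauto
  rw [← h]; exact Finset.inv_mem_inv hx

theorem mem_Bl_one {x : Γ} (hx : x ∈ S) : x ∈ Bl S 1 := by
  rw [Bl, pow_one]; simp [hx]

theorem exists_mem_Bl (hS : Subgroup.closure (S : Set Γ) = ⊤) (γ : Γ) : ∃ n, γ ∈ Bl S n := by
  have hγ : γ ∈ Subgroup.closure (S : Set Γ) := by rw [hS]; trivial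
  induction hγ using Subgroup.closure_induction with
  | mem x hx => exact ⟨1, mem_Bl_one S hx⟩
  | one => exact ⟨0, one_mem_Bl S 0⟩
  | mul x y _ _ hx hy =>
    obtain ⟨m, hm⟩ := hx
    obtain ⟨n, hn⟩ := hy
    exact ⟨m + n, mul_mem_Bl S hm hn⟩
  | inv x _ hx =>
    obtain ⟨m, hm⟩ := hx
    exact ⟨m, inv_mem_Bl S hm⟩

/-- Cutting an element of the ball of radius `q l` into `q` pieces. -/
theorem exists_path (l : ℕ) : ∀ (q : ℕ) (γ : Γ), γ ∈ Bl S (q * l) →
    ∃ y : ℕ → Γ, y 0 = 1 ∧ (∀ j < q, (y j)⁻¹ * y (j + 1) ∈ Bl S l) ∧ y q = γ := by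
  intro q
  induction q with
  | zero =>
    intro γ hγ
    rw [zero_mul, Bl, pow_zero, Finset.mem_one] at hγ
    exact ⟨fun _ => 1, rfl, fun j hj => absurd hj (Nat.not_lt_zero j), hγ.symm⟩
  | succ q ih =>
    intro γ hγ
    rw [add_mul, one_mul] at hγ
    obtain ⟨γ', hγ', d, hd, rfl⟩ := mem_Bl_add S hγ
    obtain ⟨y, hy0, hy, hyq⟩ := ih γ' hγ'
    refine ⟨fun j => if j ≤ q then y j else γ' * d, by simp [hy0], ?_, by simp⟩
    intro j hj
    by_cases h : j < q
    · have h1 : j ≤ q := h.le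
      have h2 : j + 1 ≤ q := h
      simp only [h1, h2, if_true]
      exact hy j h
    · have h1 : j = q := by omega
      subst h1
      simp only [le_refl, if_true, show ¬ j + 1 ≤ j by omega, if_false, hyq]
      simpa using hd

theorem path_mem {l q : ℕ} {y : ℕ → Γ} (hy : ∀ j < q, (y j)⁻¹ * y (j + 1) ∈ Bl S l) (i : ℕ) :
    ∀ k, i + k ≤ q → (y i)⁻¹ * y (i + k) ∈ Bl S (k * l) := by
  intro k
  induction k with
  | zero => intro _; simpa using one_mem_Bl S _
  | succ k ih =>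
    intro hk
    have h1 := ih (by omega)
    have h2 := hy (i + k) (by omega)
    have h3 := mul_mem_Bl S h1 h2
    rw [add_mul, one_mul]
    have : (y i)⁻¹ * y (i + k) * ((y (i + k))⁻¹ * y (i + k + 1)) = (y i)⁻¹ * y (i + (k + 1)) := by
      rw [← add_assoc]; group
    rwa [this] at h3

end balls

section projection

variable {Γ G : Type} [Group Γ] [DecidableEq Γ] [Group G] [DecidableEq G] (S : Finset Γ) (t : Γ →* G)

/-- The image of the ball of radius `n` in the quotient group `G`. -/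
def P (n : ℕ) : Finset G := (Bl S n).image t

theorem mem_P {n : ℕ} {g : G} : g ∈ P S t n ↔ ∃ x ∈ Bl S n, t x = g := by
  simp [P]

theorem P_mono {m n : ℕ} (h : m ≤ n) : P S t m ⊆ P S t n := Finset.image_subset_image (Bl_mono S h)

theorem one_mem_P (n : ℕ) : 1 ∈ P S t n := (mem_P S t).mpr ⟨1, one_mem_Bl S n, map_one t⟩

theorem mul_mem_P {m n : ℕ} {g h : G} (hg : g ∈ P S t m) (hh : h ∈ P S t n) :
    g * h ∈ P S t (m + n) := by
  obtain ⟨x, hx, rfl⟩ := (mem_P S t).mp hg
  obtain ⟨y, hy, rfl⟩ := (mem_P S t).mp hh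
  exact (mem_P S t).mpr ⟨x * y, mul_mem_Bl S hx hy, map_mul t x y⟩

theorem inv_mem_P {n : ℕ} {g : G} (hg : g ∈ P S t n) : g⁻¹ ∈ P S t n := by
  obtain ⟨x, hx, rfl⟩ := (mem_P S t).mp hg
  exact (mem_P S t).mpr ⟨x⁻¹, inv_mem_Bl S hx, map_inv t x⟩

theorem exists_not_mem_P [Infinite G] (hS : Subgroup.closure (S : Set Γ) = ⊤)
    (ht : Function.Surjective t) (n : ℕ) : ∃ γ ∈ Bl S (n + 1), t γ ∉ P S t n := by
  by_contra hcon
  push Not at hcon
  have key : ∀ k, ∀ γ ∈ Bl S (n + k), t γ ∈ P S t n := by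
    intro k
    induction k with
    | zero => intro γ hγ; exact (mem_P S t).mpr ⟨γ, hγ, rfl⟩
    | succ k ih =>
      intro γ hγ
      rw [← add_assoc] at hγ
      obtain ⟨x, hx, y, hy, rfl⟩ := mem_Bl_add S hγ
      obtain ⟨x', hx', hxx⟩ := (mem_P S t).mp (ih x hx)
      rw [map_mul, ← hxx, ← map_mul]
      exact hcon _ (mul_mem_Bl S hx' hy)
  have hall : ∀ g : G, g ∈ P S t n := by
    intro g
    obtain ⟨γ, rfl⟩ := ht g
    obtain ⟨m, hm⟩ := exists_mem_Bl S hS γ
    exact key m γ (Bl_mono S (by omega) hm)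
  exact Set.infinite_univ.not_finite ((P S t n).finite_toSet.subset fun g _ => hall g)

/-- Long geodesics with `q` steps of length `l`. -/
theorem exists_geodesic [Infinite G] (hS : Subgroup.closure (S : Set Γ) = ⊤)
    (ht : Function.Surjective t) (l : ℕ) (hl : 1 ≤ l) (q : ℕ) :
    ∃ y : ℕ → Γ, y 0 = 1 ∧ (∀ j < q, (y j)⁻¹ * y (j + 1) ∈ Bl S l) ∧
      ∀ i j, i < j → j ≤ q → (t (y i))⁻¹ * t (y j) ∉ P S t (l - 1) := by
  rcases Nat.eq_zero_or_pos q with rfl | hq
  · exact ⟨fun _ => 1, rfl, fun j hj => absurd hj (Nat.not_lt_zero j),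
      fun i j hij hj => absurd hij (by omega)⟩
  have hql : 1 ≤ q * l := Nat.mul_pos hq hl
  obtain ⟨γ, hγ, hγP⟩ := exists_not_mem_P S t hS ht (q * l - 1)
  rw [Nat.sub_add_cancel hql] at hγ
  obtain ⟨y, hy0, hy, hyq⟩ := exists_path S l q γ hγ
  refine ⟨y, hy0, hy, fun i j hij hj hmem => hγP ?_⟩
  have h1 : t (y i) ∈ P S t (i * l) := by
    have := path_mem S hy 0 i (by omega)
    rw [hy0] at this
    exact (mem_P S t).mpr ⟨y i, by simpa using this, rfl⟩
  have h2 : (t (y j))⁻¹ * t γ ∈ P S t ((q - j) * l) := by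
    have := path_mem S hy j (q - j) (by omega)
    rw [show j + (q - j) = q by omega, hyq] at this
    exact (mem_P S t).mpr ⟨_, this, by simp⟩
  have h3 := mul_mem_P S t (mul_mem_P S t h1 hmem) h2
  have h4 : t (y i) * ((t (y i))⁻¹ * t (y j)) * ((t (y j))⁻¹ * t γ) = t γ := by group
  rw [h4] at h3
  refine P_mono S t ?_ h3
  have h5 : (i + 1 + (q - j)) * l ≤ q * l := Nat.mul_le_mul_right _ (by omega)
  have h6 : (i + 1 + (q - j)) * l = i * l + l + (q - j) * l := by ring
  omega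

end projection

section words

variable {Γ G K : Type} [Group Γ] [DecidableEq Γ] [Group G] [Field K] (S : Finset Γ) (t : Γ →* G)
  (δ : Γ → G →₀ K) (hδ : ∀ x y, δ (x * y) = δ x + shift K (t x) (δ y))

include hδ

omit [DecidableEq Γ] in
theorem delta_one : δ 1 = 0 := by
  have := hδ 1 1
  simpa using this

omit [DecidableEq Γ] in
theorem delta_inv (x : Γ) : δ x⁻¹ = - shift K (t x⁻¹) (δ x) := by
  have := hδ x⁻¹ x
  rw [inv_mul_cancel, delta_one t δ hδ] at this
  exact eq_neg_of_add_eq_zero_left this.symm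

/-- Products of elements of the base. -/
theorem exists_prod {κ : Type} [DecidableEq κ] (c : κ → Γ) (L : ℕ) (D : Finset κ)
    (hc : ∀ k ∈ D, c k ∈ Bl S L ∧ t (c k) = 1) :
    ∃ x ∈ Bl S (D.card * L), t x = 1 ∧ δ x = ∑ k ∈ D, δ (c k) := by
  induction D using Finset.induction_on with
  | empty => exact ⟨1, one_mem_Bl S _, map_one t, by simp [delta_one t δ hδ]⟩
  | insert k D hk ih =>
    obtain ⟨x, hx, hxt, hxδ⟩ := ih fun k' hk' => hc k' (mem_insert_of_mem hk')
    obtain ⟨hkB, hkt⟩ := hc k (mem_insert_self _ _)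
    refine ⟨c k * x, ?_, by simp [hkt, hxt], ?_⟩
    · rw [card_insert_of_notMem hk, add_mul, one_mul, add_comm]
      exact mul_mem_Bl S hkB hx
    · rw [hδ, hkt, shift_one, hxδ, sum_insert hk]

/-- Words realising a sum of translated lamps along a path. -/
theorem exists_word {κ : Type} [DecidableEq κ] (c : κ → Γ) (L l : ℕ) (y : ℕ → Γ) (hy0 : y 0 = 1)
    (blk : κ → ℕ) (A : Finset κ) (hc : ∀ k ∈ A, c k ∈ Bl S L ∧ t (c k) = 1) :
    ∀ q, (∀ j < q, (y j)⁻¹ * y (j + 1) ∈ Bl S l) →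
    ∃ w ∈ Bl S ((A.filter fun k => blk k < q).card * L + q * l), t w = t (y q) ∧
      δ w = (∑ k ∈ A.filter fun k => blk k < q, shift K (t (y (blk k))) (δ (c k))) + δ (y q) := by
  intro q
  induction q with
  | zero =>
    intro _
    refine ⟨1, one_mem_Bl S _, by simp [hy0], by simp [hy0, delta_one t δ hδ]⟩
  | succ q ih =>
    intro hy
    obtain ⟨w, hw, hwt, hwδ⟩ := ih fun j hj => hy j (by omega)
    obtain ⟨x, hx, hxt, hxδ⟩ := exists_prod S t δ hδ c L (A.filter fun k => blk k = q)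
      (fun k hk => hc k (mem_filter.mp hk).1)
    set d := (y q)⁻¹ * y (q + 1) with hd
    have hdB := hy q (by omega)
    have hsplit : (A.filter fun k => blk k < q + 1) =
        (A.filter fun k => blk k < q) ∪ (A.filter fun k => blk k = q) := by
      ext k; simp only [mem_filter, mem_union]
      constructor
      · rintro ⟨h1, h2⟩
        rcases Nat.lt_succ_iff_lt_or_eq.mp h2 with h | h
        · exact Or.inl ⟨h1, h⟩
        · exact Or.inr ⟨h1, h⟩
      · rintro (⟨h1, h2⟩ | ⟨h1, h2⟩)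
        · exact ⟨h1, by omega⟩
        · exact ⟨h1, by omega⟩
    have hdisj : Disjoint (A.filter fun k => blk k < q) (A.filter fun k => blk k = q) := by
      rw [Finset.disjoint_left]
      intro k h1 h2
      have := (mem_filter.mp h1).2
      have := (mem_filter.mp h2).2
      omega
    refine ⟨w * x * d, ?_, ?_, ?_⟩
    · have h1 := mul_mem_Bl S (mul_mem_Bl S hw hx) hdB
      rw [hsplit, card_union_of_disjoint hdisj]
      convert h1 using 2
      ring
    · rw [map_mul, map_mul, hwt, hxt, hd, map_mul, map_inv]; group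
    · rw [hδ, hδ, hwδ, hwt, map_mul, hwt, hxt, mul_one, hxδ, hsplit, sum_union hdisj]
      have h2 : δ (y (q + 1)) = δ (y q) + shift K (t (y q)) (δ d) := by
        rw [← hδ, hd]; simp
      rw [h2, map_sum]
      have h3 : ∑ k ∈ A.filter (fun k => blk k = q), shift K (t (y q)) (δ (c k)) =
          ∑ k ∈ A.filter (fun k => blk k = q), shift K (t (y (blk k))) (δ (c k)) := by
        refine sum_congr rfl fun k hk => ?_
        rw [(mem_filter.mp hk).2]
      rw [h3]
      abel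

end words

end Pool.Agent.Lib.MP_c23930_al
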