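import Pool.Agent.Lib.MP_c23930_al.Rank3
import Pool.Agent.Lib.MP_c23930_al.Balls

/-!
# Many elements in the word balls
-/

set_option autoImplicit false

namespace Pool.Agent.Lib.MP_c23930_al

open Finset
open scoped Pointwise

variable {Γ G K : Type} [Group Γ] [Group G] [Field K] (S : Finset Γ) (t : Γ →* G)
  (δ : Γ → G →₀ K) (hδ : ∀ x y, δ (x * y) = δ x + shift K (t x) (δ y))

/-- The span of all translates is invariant under translation. -/
theorem span_shift {ι : Type} (a b : ι → G →₀ K) (g : G) (v : (G →₀ K) × (G →₀ K))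
    (hv : v ∈ Submodule.span K (Set.range (uvec a b))) :
    (shift K g v.1, shift K g v.2) ∈ Submodule.span K (Set.range (uvec a b)) := by
  have hle : Submodule.span K (Set.range (uvec a b)) ≤
      (Submodule.span K (Set.range (uvec a b))).comap ((shift K g).prodMap (shift K g)) := by
    rw [Submodule.span_le]
    rintro _ ⟨⟨h, i⟩, rfl⟩
    rw [SetLike.mem_coe, Submodule.mem_comap]
    refine Submodule.subset_span ⟨(g * h, i), ?_⟩
    simp [uvec, shift_mul]
  exact hle hv

include hδ

/-- The generating property in terms of the vectors. -/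
theorem span_gen (hS : Subgroup.closure (S : Set Γ) = ⊤) (γ : Γ) :
    (δ γ, Finsupp.single (t γ) 1 - Finsupp.single 1 1) ∈ Submodule.span K (Set.range
      (uvec (fun s : S => δ s.1) (fun s : S => Finsupp.single (t s.1) 1 - Finsupp.single 1 1))) := by
  have hγ : γ ∈ Subgroup.closure (S : Set Γ) := by rw [hS]; trivial
  induction hγ using Subgroup.closure_induction with
  | mem x hx =>
    refine Submodule.subset_span ⟨(1, ⟨x, hx⟩), ?_⟩
    simp only [uvec, shift_one]
  | one =>
    rw [delta_one t δ hδ, map_one, sub_self]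
    exact Submodule.zero_mem _
  | mul x y _ _ hx hy =>
    have h := Submodule.add_mem _ hx (span_shift _ _ (t x) _ hy)
    convert h using 1
    rw [hδ]
    simp
  | inv x _ hx =>
    have h := Submodule.neg_mem _ (span_shift _ _ (t x⁻¹) _ hx)
    convert h using 1
    rw [delta_inv t δ hδ]
    simp

theorem span_ker {e : Γ} (he : t e = 1) (hS : Subgroup.closure (S : Set Γ) = ⊤) :
    (δ e, 0) ∈ Submodule.span K (Set.range
      (uvec (fun s : S => δ s.1) (fun s : S => Finsupp.single (t s.1) 1 - Finsupp.single 1 1))) := by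
  have h := span_gen S t δ hδ hS e
  rwa [he, sub_self] at h

theorem span_quot (hS : Subgroup.closure (S : Set Γ) = ⊤) (ht : Function.Surjective t) (g : G) :
    ∃ f, (f, Finsupp.single g 1 - Finsupp.single 1 1) ∈ Submodule.span K (Set.range
      (uvec (fun s : S => δ s.1) (fun s : S => Finsupp.single (t s.1) 1 - Finsupp.single 1 1))) := by
  obtain ⟨γ, rfl⟩ := ht g
  exact ⟨δ γ, span_gen S t δ hδ hS γ⟩

/-- The main counting statement. -/
theorem card_ball_ge [DecidableEq Γ] [DecidableEq G] [Infinite G] (hG : Sofic G)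
    {e : Γ} (he : t e = 1) (he' : δ e ≠ 0)
    (hS : Subgroup.closure (S : Set Γ) = ⊤) (ht : Function.Surjective t) (r m : ℕ)
    (hm : (δ e).support.card * (m + ((P S t (r + 1)).card - 1)) ≤
      ((δ e).support.card + 1) * (P S t r).card) (q : ℕ) :
    (m + 1) ^ q ≤ (Bl S (q * (4 * r + 3))).card := by
  classical
  set k := (δ e).support.card with hk
  have hkpos : 0 < k := card_pos.mpr (Finsupp.support_nonempty_iff.mpr he')
  obtain ⟨y, hy0, hy, hgeo⟩ := exists_geodesic S t hS ht (2 * r + 1) (by omega) q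
  -- lifts
  have hlift : ∃ lift : G → Γ, (∀ v ∈ P S t (r + 1), t (lift v) = v ∧ lift v ∈ Bl S (r + 1)) ∧
      ∀ v ∈ P S t r, lift v ∈ Bl S r := by
    have h : ∀ v : G, ∃ x : Γ, (v ∈ P S t (r + 1) → t x = v ∧ x ∈ Bl S (r + 1)) ∧
        (v ∈ P S t r → x ∈ Bl S r) := by
      intro v
      by_cases h1 : v ∈ P S t r
      · obtain ⟨x, hx, hxv⟩ := (mem_P S t).mp h1
        exact ⟨x, fun _ => ⟨hxv, Bl_mono S (Nat.le_succ r) hx⟩, fun _ => hx⟩
      · by_cases h2 : v ∈ P S t (r + 1)
        · obtain ⟨x, hx, hxv⟩ := (mem_P S t).mp h2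
          exact ⟨x, fun _ => ⟨hxv, hx⟩, fun h => absurd h h1⟩
        · exact ⟨1, fun h => absurd h h2, fun h => absurd h h1⟩
    choose lift h using h
    exact ⟨lift, fun v hv => (h v).1 hv, fun v hv => (h v).2 hv⟩
  obtain ⟨lift, hl1, hl2⟩ := hlift
  let I : Type := Fin q × (P S t r) × S
  have hgt : ∀ i : I, i.2.1.1 * t i.2.2.1 ∈ P S t (r + 1) := fun i =>
    mul_mem_P S t i.2.1.2 ((mem_P S t).mpr ⟨i.2.2.1, mem_Bl_one S i.2.2.2, rfl⟩)
  have hg1 : ∀ i : I, i.2.1.1 ∈ P S t (r + 1) := fun i => P_mono S t (Nat.le_succ r) i.2.1.2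
  let c : I → Γ := fun i => lift i.2.1.1 * i.2.2.1 * (lift (i.2.1.1 * t i.2.2.1))⁻¹
  have hcB : ∀ i, c i ∈ Bl S (2 * r + 2) := by
    intro i
    have := mul_mem_Bl S (mul_mem_Bl S (hl2 _ i.2.1.2) (mem_Bl_one S i.2.2.2))
      (inv_mem_Bl S (hl1 _ (hgt i)).2)
    have e1 : r + 1 + (r + 1) = 2 * r + 2 := by ring
    rwa [e1] at this
  have hct : ∀ i, t (c i) = 1 := by
    intro i
    simp only [c, map_mul, map_inv, (hl1 _ (hgt i)).1, (hl1 _ (hg1 i)).1]
    group
  have hcδ : ∀ i, δ (c i) = δ (lift i.2.1.1) + shift K i.2.1.1 (δ i.2.2.1) -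
      δ (lift (i.2.1.1 * t i.2.2.1)) := by
    intro i
    simp only [c]
    rw [hδ, hδ, map_mul, (hl1 _ (hg1 i)).1, delta_inv t δ hδ, map_neg, ← shift_mul, map_inv,
      (hl1 _ (hgt i)).1, mul_inv_cancel, shift_one]
    abel
  let xj : Fin q → G := fun j => t (y j)
  let Ψ : I → (G →₀ K) := fun i => shift K (xj i.1) (δ (c i))
  -- the rank of the translates
  set U : Finset G := (univ : Finset (Fin q × (P S t r))).image fun p => xj p.1 * p.2.1 with hU
  have hUcard : U.card = q * (P S t r).card := by
    rw [hU, card_image_of_injective, card_univ, Fintype.card_prod, Fintype.card_fin,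
      Fintype.card_coe]
    rintro ⟨i, g⟩ ⟨j, h⟩ heq
    simp only at heq
    by_cases hij : i = j
    · subst hij
      have := mul_left_cancel heq
      rw [Subtype.ext this]
    · exfalso
      have key : ∀ (i j : Fin q) (g h : P S t r), i < j → xj i * g.1 = xj j * h.1 → False := by
        intro i j g h hlt heq
        apply hgeo i j hlt j.2.le
        have h1 : (t (y i))⁻¹ * t (y j) = g.1 * h.1⁻¹ := by
          change (xj i)⁻¹ * xj j = g.1 * h.1⁻¹
          rw [inv_mul_eq_iff_eq_mul, ← mul_assoc, heq]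
          group
        rw [h1]
        have h2 := mul_mem_P S t g.2 (inv_mem_P S t h.2)
        have e1 : r + r = 2 * r + 1 - 1 := by omega
        rwa [e1] at h2
      rcases lt_or_gt_of_ne hij with h' | h'
      · exact key i j g h h' heq
      · exact key j i h g h' heq.symm
  set a : S → (G →₀ K) := fun s => δ s.1 with ha
  set b : S → (G →₀ K) := fun s => Finsupp.single (t s.1) 1 - Finsupp.single 1 1 with hb
  let Θ : I → (G →₀ K) × (G →₀ K) := fun i => uvec a b (xj i.1 * i.2.1.1, i.2.2)
  have hrank : (k + 1) * (q * (P S t r).card) ≤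
      k * Module.finrank K (Submodule.span K (Set.range Θ)) := by
    have h := rank_ge (K := K) hG a b (δ e) he' (span_ker S t δ hδ he hS)
      (span_quot S t δ hδ hS ht) U
    rw [hUcard] at h
    have heq : uvec a b '' {p | p.1 ∈ (U : Set G)} = Set.range Θ := by
      ext v
      constructor
      · rintro ⟨⟨g, s⟩, hg, rfl⟩
        have hg' : g ∈ U := hg
        rw [hU] at hg'
        obtain ⟨p, _, rfl⟩ := mem_image.mp hg'
        exact ⟨(p.1, p.2, s), rfl⟩
      · rintro ⟨i, rfl⟩
        exact ⟨(xj i.1 * i.2.1.1, i.2.2), by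
          change xj i.1 * i.2.1.1 ∈ U
          rw [hU]
          exact mem_image_of_mem (fun p : Fin q × (P S t r) => xj p.1 * p.2.1)
            (mem_univ (i.1, i.2.1)), rfl⟩
    rwa [heq] at h
  -- comparison with the lamps of short loops
  let D : Fin q × ((P S t (r + 1)).erase 1) → (Fin q → (G →₀ K)) := fun p =>
    Pi.single p.1 (Finsupp.single p.2.1 1 - Finsupp.single 1 1)
  set W : Submodule K (Fin q → (G →₀ K)) := Submodule.span K (Set.range D) with hW
  have hWfr : Module.finrank K W ≤ q * ((P S t (r + 1)).card - 1) := by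
    have h := finrank_range_le_card (R := K) D
    rw [Fintype.card_prod, Fintype.card_fin, Fintype.card_coe,
      card_erase_of_mem (one_mem_P S t (r + 1))] at h
    exact h
  have hWmem : ∀ (j : Fin q) (v : G), v ∈ P S t (r + 1) →
      (Pi.single j (Finsupp.single v 1 - Finsupp.single 1 1) : Fin q → (G →₀ K)) ∈ W := by
    intro j v hv
    by_cases hv1 : v = 1
    · rw [hv1, sub_self, Pi.single_zero]; exact W.zero_mem
    · exact Submodule.subset_span ⟨(j, ⟨v, mem_erase.mpr ⟨hv1, hv⟩⟩), rfl⟩
  let ζ : I → (G →₀ K) × (Fin q → (G →₀ K)) := fun i =>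
    (Ψ i, Pi.single i.1 (Finsupp.single (i.2.1.1 * t i.2.2.1) 1 - Finsupp.single i.2.1.1 1))
  let α : (G →₀ K) →ₗ[K] (G →₀ K) := Finsupp.linearCombination K fun v => δ (lift v)
  let Λ : ((G →₀ K) × (Fin q → (G →₀ K))) →ₗ[K] ((G →₀ K) × (G →₀ K)) :=
    LinearMap.prod
      (LinearMap.fst K _ _ + (∑ j : Fin q, (shift K (xj j)) ∘ₗ α ∘ₗ (LinearMap.proj j)) ∘ₗ
        LinearMap.snd K _ _)
      ((∑ j : Fin q, (shift K (xj j)) ∘ₗ (LinearMap.proj j)) ∘ₗ LinearMap.snd K _ _)
  have hΛ : ∀ i, Λ (ζ i) = Θ i := by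
    intro i
    have hs1 : ∀ (f : (G →₀ K) →ₗ[K] (G →₀ K)) (v : G →₀ K),
        (∑ j : Fin q, (shift K (xj j)) (f ((Pi.single i.1 v : Fin q → (G →₀ K)) j))) =
          shift K (xj i.1) (f v) := by
      intro f v
      rw [Finset.sum_eq_single i.1]
      · simp
      · intro j _ hj
        rw [Pi.single_eq_of_ne hj, map_zero, map_zero]
      · intro h; exact absurd (mem_univ _) h
    refine Prod.ext ?_ ?_
    · have h1 := hs1 α (Finsupp.single (i.2.1.1 * t i.2.2.1) 1 - Finsupp.single i.2.1.1 1)
      have e1 : (Λ (ζ i)).1 = Ψ i + ∑ j : Fin q, (shift K (xj j)) (α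
          ((Pi.single i.1 (Finsupp.single (i.2.1.1 * t i.2.2.1) 1 - Finsupp.single i.2.1.1 1) :
            Fin q → (G →₀ K)) j)) := by
        simp only [Λ, ζ, LinearMap.prod_apply, Function.prod, LinearMap.add_apply,
          LinearMap.fst_apply, LinearMap.comp_apply, LinearMap.snd_apply, LinearMap.sum_apply,
          LinearMap.proj_apply]
      have hα : α (Finsupp.single (i.2.1.1 * t i.2.2.1) 1 - Finsupp.single i.2.1.1 1) =
          δ (lift (i.2.1.1 * t i.2.2.1)) - δ (lift i.2.1.1) := by
        simp [α, Finsupp.linearCombination_single]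
      rw [e1, h1, hα]
      simp only [Ψ, Θ, uvec, ha]
      rw [hcδ, shift_mul, ← map_add]
      congr 1
      abel
    · have h1 := hs1 LinearMap.id
        (Finsupp.single (i.2.1.1 * t i.2.2.1) 1 - Finsupp.single i.2.1.1 1)
      have e1 : (Λ (ζ i)).2 = ∑ j : Fin q, (shift K (xj j))
          ((LinearMap.id : (G →₀ K) →ₗ[K] (G →₀ K))
          ((Pi.single i.1 (Finsupp.single (i.2.1.1 * t i.2.2.1) 1 - Finsupp.single i.2.1.1 1) :
            Fin q → (G →₀ K)) j)) := by
        simp only [Λ, ζ, LinearMap.prod_apply, Function.prod, LinearMap.comp_apply,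
          LinearMap.snd_apply, LinearMap.sum_apply, LinearMap.proj_apply, LinearMap.id_apply]
      rw [e1, h1]
      simp only [Θ, uvec, hb, LinearMap.id_apply, map_sub, shift_single, mul_one, mul_assoc]
  have hΨfr : q * m ≤ Module.finrank K (Submodule.span K (Set.range Ψ)) := by
    have h1 : Submodule.span K (Set.range Θ) = (Submodule.span K (Set.range ζ)).map Λ := by
      rw [Submodule.map_span, ← Set.range_comp]
      congr 2
      funext i
      exact (hΛ i).symm
    have h2 : Submodule.span K (Set.range ζ) ≤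
        (Submodule.span K (Set.range Ψ)).map (LinearMap.inl K _ _) ⊔
          W.map (LinearMap.inr K _ _) := by
      rw [Submodule.span_le]
      rintro _ ⟨i, rfl⟩
      have e1 : ζ i = LinearMap.inl K _ _ (Ψ i) + LinearMap.inr K _ _
          (Pi.single i.1 (Finsupp.single (i.2.1.1 * t i.2.2.1) 1 - Finsupp.single i.2.1.1 1) :
            Fin q → (G →₀ K)) := by
        simp [ζ]
      rw [SetLike.mem_coe, e1]
      refine Submodule.add_mem_sup (Submodule.mem_map_of_mem (Submodule.subset_span ⟨i, rfl⟩))
        (Submodule.mem_map_of_mem ?_)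
      have e2 : (Pi.single i.1 (Finsupp.single (i.2.1.1 * t i.2.2.1) 1 -
          Finsupp.single i.2.1.1 1) : Fin q → (G →₀ K)) =
          Pi.single i.1 (Finsupp.single (i.2.1.1 * t i.2.2.1) 1 - Finsupp.single 1 1) -
          Pi.single i.1 (Finsupp.single i.2.1.1 1 - Finsupp.single 1 1) := by
        rw [← Pi.single_sub]; congr 1; abel
      rw [e2]
      exact W.sub_mem (hWmem _ _ (hgt i)) (hWmem _ _ (hg1 i))
    have : FiniteDimensional K (Submodule.span K (Set.range Ψ)) :=
      FiniteDimensional.span_of_finite K (Set.finite_range _)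
    have : FiniteDimensional K (Submodule.span K (Set.range ζ)) :=
      FiniteDimensional.span_of_finite K (Set.finite_range _)
    have : FiniteDimensional K W := FiniteDimensional.span_of_finite K (Set.finite_range _)
    have h3 : Module.finrank K (Submodule.span K (Set.range Θ)) ≤
        Module.finrank K (Submodule.span K (Set.range Ψ)) + q * ((P S t (r + 1)).card - 1) := by
      rw [h1]
      refine (Submodule.finrank_map_le _ _).trans ((Submodule.finrank_mono h2).trans ?_)
      refine (Submodule.finrank_add_le_finrank_add_finrank _ _).trans ?_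
      exact Nat.add_le_add (Submodule.finrank_map_le _ _)
        ((Submodule.finrank_map_le _ _).trans hWfr)
    have h4 := hrank.trans (Nat.mul_le_mul_left k h3)
    have h5 : q * (k * (m + ((P S t (r + 1)).card - 1))) ≤ q * ((k + 1) * (P S t r).card) :=
      Nat.mul_le_mul_left _ hm
    have h6 : q * (k * (m + ((P S t (r + 1)).card - 1))) =
        k * (q * m + q * ((P S t (r + 1)).card - 1)) := by
      ring
    have h7 : q * ((k + 1) * (P S t r).card) = (k + 1) * (q * (P S t r).card) := by ring
    rw [h6, h7] at h5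
    have h8 := Nat.le_of_mul_le_mul_left (h5.trans h4) hkpos
    omega
  -- an independent family
  obtain ⟨B0, _, _, hspan, hli⟩ := exists_linearIndepOn_extension
    (K := K) (v := Ψ) (s := ∅) (t := Set.univ) (linearIndepOn_empty K Ψ) (Set.empty_subset _)
  set B : Finset I := (Set.toFinite B0).toFinset with hB
  have hBB : (B : Set I) = B0 := by rw [hB]; exact Set.Finite.coe_toFinset _
  have hBcard : q * m ≤ B.card := by
    have hle : Submodule.span K (Set.range Ψ) ≤
        Submodule.span K ((B.image Ψ : Finset _) : Set _) := by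
      rw [Submodule.span_le, coe_image, hBB]
      rw [Set.image_univ] at hspan
      exact hspan
    exact hΨfr.trans ((Submodule.finrank_mono hle).trans
      ((finrank_span_finset_le_card _).trans card_image_le))
  have hliB : LinearIndependent K (fun i : B => Ψ i.1) := by
    have : LinearIndepOn K Ψ (B : Set I) := by rw [hBB]; exact hli
    exact this
  obtain ⟨f⟩ : Nonempty ((Fin q × Fin m) ↪ B) := by
    apply Function.Embedding.nonempty_of_card_le
    rw [Fintype.card_prod, Fintype.card_fin, Fintype.card_fin, Fintype.card_coe]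
    exact hBcard
  set β : Fin q × Fin m → I := fun p => (f p).1 with hβ
  have hliβ : LinearIndependent K (fun p => Ψ (β p)) := hliB.comp f f.injective
  -- words
  let A : (Fin q → Option (Fin m)) → Finset (Fin q × Fin m) := fun F =>
    univ.filter fun p => F p.1 = some p.2
  have hAcard : ∀ F, (A F).card ≤ q := by
    intro F
    have h : (A F).card ≤ (univ : Finset (Fin q)).card := by
      refine card_le_card_of_injOn Prod.fst (fun _ _ => mem_coe.mpr (mem_univ _)) ?_
      rintro ⟨i, k⟩ hi ⟨j, l⟩ hj hij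
      simp only at hij
      subst hij
      have h1 : F i = some k := (mem_filter.mp hi).2
      have h2 : F i = some l := (mem_filter.mp hj).2
      rw [h1] at h2
      rw [Option.some.inj h2]
    simpa using h
  have hword : ∀ F, ∃ w ∈ Bl S (q * (4 * r + 3)),
      δ w = (∑ p ∈ A F, Ψ (β p)) + δ (y q) := by
    intro F
    obtain ⟨w, hw, _, hwδ⟩ := exists_word S t δ hδ (fun p => c (β p)) (2 * r + 2) (2 * r + 1) y hy0
      (fun p => ((β p).1 : ℕ)) (A F) (fun p _ => ⟨hcB _, hct _⟩) q hy
    have hfil : ((A F).filter fun p => ((β p).1 : ℕ) < q) = A F :=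
      filter_true_of_mem fun p _ => (β p).1.2
    rw [hfil] at hw hwδ
    refine ⟨w, Bl_mono S ?_ hw, hwδ⟩
    have := Nat.mul_le_mul_right (2 * r + 2) (hAcard F)
    calc (A F).card * (2 * r + 2) + q * (2 * r + 1) ≤ q * (2 * r + 2) + q * (2 * r + 1) := by omega
      _ = q * (4 * r + 3) := by ring
  choose w hwB hwδ using hword
  have hinj : Function.Injective w := by
    intro F F' hFF
    have h1 : (∑ p ∈ A F, Ψ (β p)) = ∑ p ∈ A F', Ψ (β p) := by
      have := hwδ F
      rw [hFF, hwδ F'] at this
      exact (add_right_cancel this).symm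
    have h2 : ∑ p : Fin q × Fin m, ((if p ∈ A F then (1 : K) else 0) -
        (if p ∈ A F' then (1 : K) else 0)) • Ψ (β p) = 0 := by
      simp only [sub_smul, ite_smul, one_smul, zero_smul, sum_sub_distrib, sum_ite_mem, univ_inter]
      rw [h1, sub_self]
    have h3 := Fintype.linearIndependent_iff.mp hliβ _ h2
    have h4 : ∀ p, p ∈ A F ↔ p ∈ A F' := by
      intro p
      have := h3 p
      by_cases h5 : p ∈ A F <;> by_cases h6 : p ∈ A F' <;> simp [h5, h6] at this ⊢
    funext k
    apply Option.ext
    intro l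
    have := h4 (k, l)
    simpa [A] using this
  calc (m + 1) ^ q = Fintype.card (Fin q → Option (Fin m)) := by simp
    _ = (univ : Finset (Fin q → Option (Fin m))).card := card_univ.symm
    _ ≤ (Bl S (q * (4 * r + 3))).card :=
        card_le_card_of_injOn w (fun F _ => hwB F) hinj.injOn

end Pool.Agent.Lib.MP_c23930_al
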