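import Pool.Agent.Lib.MP_c23930_al.Defs
import Pool.Agent.Lib.MP_c23930_al.Growth

/-!
# Uniformly exponential growth
-/

set_option autoImplicit false

namespace Pool.Agent.Lib.MP_c23930_al

open Finset
open scoped Pointwise

theorem two_mul_le_two_pow : ∀ k : ℕ, 1 ≤ k → 2 * k ≤ 2 ^ k := by
  intro k hk
  induction k, hk using Nat.le_induction with
  | base => norm_num
  | succ k hk ih =>
    have h1 : 2 ^ 1 ≤ 2 ^ k := Nat.pow_le_pow_right (by norm_num) hk
    rw [pow_succ]
    omega

theorem base_pow (k : ℕ) (hk : 1 ≤ k) :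
    (1 + 1 / (64 * (k : ℝ) ^ 2)) ^ (44 * k ^ 2) ≤ 2 := by
  have hkr : (0 : ℝ) < k := by exact_mod_cast hk
  have h1 : (1 + 1 / (64 * (k : ℝ) ^ 2)) ≤ Real.exp (1 / (64 * (k : ℝ) ^ 2)) := by
    rw [add_comm]; exact Real.add_one_le_exp _
  have h2 : (1 + 1 / (64 * (k : ℝ) ^ 2)) ^ (44 * k ^ 2) ≤
      Real.exp (1 / (64 * (k : ℝ) ^ 2)) ^ (44 * k ^ 2) :=
    pow_le_pow_left₀ (by positivity) h1 _
  refine h2.trans ?_
  rw [← Real.exp_nat_mul]
  have h3 : ((44 * k ^ 2 : ℕ) : ℝ) * (1 / (64 * (k : ℝ) ^ 2)) = 44 / 64 := by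
    push_cast; field_simp
  rw [h3]
  have h4 : (44 / 64 : ℝ) ≤ Real.log 2 := by
    have := Real.log_two_gt_d9
    norm_num at this ⊢
    linarith
  calc Real.exp (44 / 64) ≤ Real.exp (Real.log 2) := Real.exp_le_exp.mpr h4
    _ = 2 := Real.exp_log (by norm_num)

theorem numeric (k : ℕ) (hk : 1 ≤ k) (r : ℕ) :
    (1 + 1 / (64 * (k : ℝ) ^ 2)) ^ (4 * r + 3) ≤ 2 ∨
    (1 + 1 / (64 * (k : ℝ) ^ 2)) ^ (4 * r + 3) ≤ (1 + 1 / (2 * (k : ℝ))) ^ r / (2 * k) := by
  have hkr : (0 : ℝ) < k := by exact_mod_cast hk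
  set c : ℝ := 1 + 1 / (64 * (k : ℝ) ^ 2) with hc
  have hc1 : 1 ≤ c := by rw [hc]; linarith [show (0 : ℝ) < 1 / (64 * (k : ℝ) ^ 2) by positivity]
  have hbase : c ^ (44 * k ^ 2) ≤ 2 := base_pow k hk
  by_cases h : 4 * r + 3 ≤ 44 * k ^ 2
  · exact Or.inl ((pow_le_pow_right₀ hc1 h).trans hbase)
  right
  push Not at h
  set a := r / (2 * k) with ha
  have hr1 : 2 * k * a ≤ r := Nat.mul_div_le r (2 * k)
  have hr2 : r < 2 * k * (a + 1) := Nat.lt_mul_div_succ r (by omega)
  have ha1 : 5 * k ≤ a := by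
    by_contra hcon
    push Not at hcon
    have h1 : a + 1 ≤ 5 * k := hcon
    have h2 : 2 * k * (a + 1) ≤ 2 * k * (5 * k) := Nat.mul_le_mul_left _ h1
    have h3 : 2 * k * (5 * k) = 10 * k ^ 2 := by ring
    have h4 : 1 ≤ k ^ 2 := Nat.one_le_pow _ _ hk
    omega
  obtain ⟨b, hb⟩ : ∃ b, a = k + b := ⟨a - k, by omega⟩
  have hb4 : 4 * k ≤ b := by omega
  have hN : 4 * r + 3 ≤ 44 * k ^ 2 * b := by
    have h1 : 4 * r + 3 ≤ 8 * k * (a + 1) := by
      have : 8 * k * (a + 1) = 4 * (2 * k * (a + 1)) := by ring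
      omega
    refine h1.trans ?_
    have h2 : 8 * (a + 1) ≤ 44 * k * b := by
      have h3 : a + 1 ≤ 3 * b := by omega
      have h4 : 44 * b ≤ 44 * k * b := Nat.mul_le_mul_right _ (by omega)
      omega
    calc 8 * k * (a + 1) = k * (8 * (a + 1)) := by ring
      _ ≤ k * (44 * k * b) := Nat.mul_le_mul_left _ h2
      _ = 44 * k ^ 2 * b := by ring
  have h1 : c ^ (4 * r + 3) ≤ 2 ^ b := by
    calc c ^ (4 * r + 3) ≤ c ^ (44 * k ^ 2 * b) := pow_le_pow_right₀ hc1 hN
      _ = (c ^ (44 * k ^ 2)) ^ b := by rw [pow_mul]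
      _ ≤ 2 ^ b := pow_le_pow_left₀ (by positivity) hbase _
  have h2 : (2 : ℝ) ≤ (1 + 1 / (2 * (k : ℝ))) ^ (2 * k) := by
    have h3 := one_add_mul_le_pow (a := 1 / (2 * (k : ℝ)))
      (by have : (0 : ℝ) < 1 / (2 * (k : ℝ)) := by positivity
          linarith) (2 * k)
    have h4 : (1 : ℝ) + ((2 * k : ℕ) : ℝ) * (1 / (2 * (k : ℝ))) = 2 := by
      push_cast; field_simp; norm_num
    rw [h4] at h3
    exact h3
  have h3 : (2 : ℝ) ^ a ≤ (1 + 1 / (2 * (k : ℝ))) ^ r := by
    calc (2 : ℝ) ^ a ≤ ((1 + 1 / (2 * (k : ℝ))) ^ (2 * k)) ^ a :=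
          pow_le_pow_left₀ (by norm_num) h2 _
      _ = (1 + 1 / (2 * (k : ℝ))) ^ (2 * k * a) := (pow_mul _ _ _).symm
      _ ≤ (1 + 1 / (2 * (k : ℝ))) ^ r := pow_le_pow_right₀ (by
          have : (0 : ℝ) < 1 / (2 * (k : ℝ)) := by positivity
          linarith) hr1
  have h4 : (2 * k : ℝ) ≤ 2 ^ k := by exact_mod_cast two_mul_le_two_pow k hk
  refine h1.trans ?_
  rw [le_div_iff₀ (by positivity)]
  calc (2 : ℝ) ^ b * (2 * k) ≤ 2 ^ b * 2 ^ k := mul_le_mul_of_nonneg_left h4 (by positivity)
    _ = 2 ^ a := by rw [hb, ← pow_add, add_comm]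
    _ ≤ _ := h3

section abstract_growth

variable {Γ G K : Type} [Group Γ] [Group G] [Field K] (S : Finset Γ) (t : Γ →* G)
  (δ : Γ → G →₀ K) (hδ : ∀ x y, δ (x * y) = δ x + shift K (t x) (δ y))

include hδ

/-- Uniformly exponential growth in terms of a cocycle. -/
theorem growth_cocycle [DecidableEq Γ] [Infinite G] (hG : Sofic G)
    {e : Γ} (he : t e = 1) (he' : δ e ≠ 0)
    (hS : Subgroup.closure (S : Set Γ) = ⊤) (ht : Function.Surjective t) (n : ℕ) :
    (1 + 1 / (64 * ((δ e).support.card : ℝ) ^ 2)) ^ n ≤ ((Bl S n).card : ℝ) := by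
  classical
  set k := (δ e).support.card with hk
  have hkpos : 1 ≤ k := card_pos.mpr (Finsupp.support_nonempty_iff.mpr he')
  have hkr : (0 : ℝ) < k := by exact_mod_cast hkpos
  have hk1 : (1 : ℝ) ≤ k := by exact_mod_cast hkpos
  set lam : ℝ := 1 + 1 / (2 * (k : ℝ)) with hlam
  have hstep : ∀ x y : ℕ, (2 * k + 1) * x < 2 * k * y → ∀ z : ℝ, z ≤ x → z * lam ≤ y := by
    intro x y hxy z hz
    have h1 : ((2 * k + 1 : ℕ) : ℝ) * x < ((2 * k : ℕ) : ℝ) * y := by exact_mod_cast hxy
    push_cast at h1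
    have hlam' : lam = (2 * k + 1) / (2 * k) := by rw [hlam]; field_simp
    have hlampos : 0 < lam := by rw [hlam]; positivity
    have h2 : z * lam ≤ x * lam := mul_le_mul_of_nonneg_right hz hlampos.le
    refine h2.trans ?_
    rw [hlam', mul_div_assoc', div_le_iff₀ (by positivity)]
    linarith
  by_cases hcase : ∀ r, (2 * k + 1) * (P S t r).card < 2 * k * (P S t (r + 1)).card
  · have h1 : ∀ r, lam ^ r ≤ ((P S t r).card : ℝ) := by
      intro r
      induction r with
      | zero =>
        have : 1 ≤ (P S t 0).card := Finset.card_pos.mpr ⟨1, one_mem_P S t 0⟩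
        have h : (1 : ℝ) ≤ ((P S t 0).card : ℝ) := by exact_mod_cast this
        simpa using h
      | succ r ih =>
        rw [pow_succ]
        exact hstep _ _ (hcase r) _ ih
    have hcl : (1 + 1 / (64 * (k : ℝ) ^ 2)) ≤ lam := by
      rw [hlam]
      have : 1 / (64 * (k : ℝ) ^ 2) ≤ 1 / (2 * (k : ℝ)) := by
        apply one_div_le_one_div_of_le (by positivity)
        nlinarith
      linarith
    calc (1 + 1 / (64 * (k : ℝ) ^ 2)) ^ n ≤ lam ^ n := pow_le_pow_left₀ (by positivity) hcl n
      _ ≤ ((P S t n).card : ℝ) := h1 n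
      _ ≤ ((Bl S n).card : ℝ) := by exact_mod_cast Finset.card_image_le
  · push Not at hcase
    have hex : ∃ r, 2 * k * (P S t (r + 1)).card ≤ (2 * k + 1) * (P S t r).card := hcase
    set r := Nat.find hex with hr
    have hr1 : 2 * k * (P S t (r + 1)).card ≤ (2 * k + 1) * (P S t r).card := Nat.find_spec hex
    have hr2 : ∀ j < r, (2 * k + 1) * (P S t j).card < 2 * k * (P S t (j + 1)).card := by
      intro j hj
      have := Nat.find_min hex hj
      omega
    have h1 : ∀ j, j ≤ r → lam ^ j ≤ ((P S t j).card : ℝ) := by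
      intro j
      induction j with
      | zero =>
        intro _
        have : 1 ≤ (P S t 0).card := Finset.card_pos.mpr ⟨1, one_mem_P S t 0⟩
        have h : (1 : ℝ) ≤ ((P S t 0).card : ℝ) := by exact_mod_cast this
        simpa using h
      | succ j ih =>
        intro hj
        rw [pow_succ]
        exact hstep _ _ (hr2 j (by omega)) _ (ih (by omega))
    have hmono : (P S t r).card ≤ (P S t (r + 1)).card := card_le_card (P_mono S t (Nat.le_succ r))
    have hPpos : 1 ≤ (P S t r).card := Finset.card_pos.mpr ⟨1, one_mem_P S t r⟩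
    set p := (P S t r).card with hp
    set p' := (P S t (r + 1)).card with hp'
    set D := ((k + 1) * p) / k with hD
    have hD1 : k * D ≤ (k + 1) * p := Nat.mul_div_le _ _
    have hD2 : (k + 1) * p < k * (D + 1) := Nat.lt_mul_div_succ _ (by omega)
    have hpD : p' - 1 ≤ D := by
      rw [hD, Nat.le_div_iff_mul_le (by omega)]
      have e1 : (p' - 1) * k + k = p' * k := by
        have : p' = (p' - 1) + 1 := by omega
        conv_rhs => rw [this]
        ring
      have e2 : 2 * ((p' - 1) * k) + 2 * k ≤ (2 * k + 1) * p := by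
        calc 2 * ((p' - 1) * k) + 2 * k = 2 * ((p' - 1) * k + k) := by ring
          _ = 2 * k * p' := by rw [e1]; ring
          _ ≤ _ := hr1
      have e3 : (2 * k + 1) * p ≤ 2 * ((k + 1) * p) := by
        have : 2 * ((k + 1) * p) = (2 * k + 1) * p + p := by ring
        omega
      omega
    obtain ⟨m, hm⟩ : ∃ m, m + (p' - 1) = D := ⟨D - (p' - 1), by omega⟩
    have hball := card_ball_ge S t δ hδ hG he he' hS ht r m (by
      rw [← hk, ← hp, ← hp', hm]; exact hD1) n
    have hmlow : p + 2 ≤ 2 * k * m := by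
      have e1 : k * D = k * m + k * (p' - 1) := by rw [← hm]; ring
      have e2 : k * (p' - 1) + k = k * p' := by
        have : p' = (p' - 1) + 1 := by omega
        conv_rhs => rw [this]
        ring
      have e3 : k * (D + 1) = k * D + k := by ring
      have e4 : 2 * k * m = 2 * (k * m) := by ring
      have e5 : 2 * k * p' = 2 * (k * p') := by ring
      have e6 : (2 * k + 1) * p = 2 * (k * p) + p := by ring
      have e7 : (k + 1) * p = k * p + p := by ring
      omega
    have hm1 : 1 ≤ m := by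
      rcases Nat.eq_zero_or_pos m with h0 | h0
      · rw [h0] at hmlow; omega
      · exact h0
    have hm2 : (1 + 1 / (64 * (k : ℝ) ^ 2)) ^ (4 * r + 3) ≤ ((m + 1 : ℕ) : ℝ) := by
      rcases numeric k hkpos r with h | h
      · refine h.trans ?_
        have : 2 ≤ m + 1 := by omega
        exact_mod_cast this
      · refine h.trans ?_
        rw [div_le_iff₀ (by positivity)]
        have h2 := h1 r le_rfl
        have h3 : ((p + 2 : ℕ) : ℝ) ≤ ((2 * k * m : ℕ) : ℝ) := by exact_mod_cast hmlow
        push_cast at h3 ⊢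
        nlinarith
    have hpow : ((1 + 1 / (64 * (k : ℝ) ^ 2)) ^ n) ^ (4 * r + 3) ≤
        ((Bl S n).card : ℝ) ^ (4 * r + 3) := by
      have e1 : Bl S (n * (4 * r + 3)) = (Bl S n) ^ (4 * r + 3) := by rw [Bl, Bl, pow_mul]
      have e2 : (Bl S (n * (4 * r + 3))).card ≤ (Bl S n).card ^ (4 * r + 3) := by
        rw [e1]; exact Finset.card_pow_le
      calc ((1 + 1 / (64 * (k : ℝ) ^ 2)) ^ n) ^ (4 * r + 3) =
            ((1 + 1 / (64 * (k : ℝ) ^ 2)) ^ (4 * r + 3)) ^ n := by
            rw [← pow_mul, ← pow_mul, mul_comm n]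
        _ ≤ (((m + 1 : ℕ) : ℝ)) ^ n := pow_le_pow_left₀ (by positivity) hm2 n
        _ = (((m + 1) ^ n : ℕ) : ℝ) := by push_cast; rfl
        _ ≤ ((Bl S (n * (4 * r + 3))).card : ℝ) := by exact_mod_cast hball
        _ ≤ (((Bl S n).card ^ (4 * r + 3) : ℕ) : ℝ) := by exact_mod_cast e2
        _ = ((Bl S n).card : ℝ) ^ (4 * r + 3) := by push_cast; rfl
    exact le_of_pow_le_pow_left₀ (by omega) (by positivity) hpow

end abstract_growth

section wreath

variable {A G K : Type} [Group A] [Group G] [Field K]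

theorem shift_apply (g x : G) (f : G →₀ K) : shift K g f x = f (g⁻¹ * x) := by
  have h := Finsupp.mapDomain_apply (mul_right_injective g) f (g⁻¹ * x)
  simpa [shift] using h

/-- The cocycle of a wreath product with values in the finitely supported functions `G → K`. -/
noncomputable def coc (π : A →* Multiplicative K) (x : Wreath A G) : G →₀ K :=
  Finsupp.ofSupportFinite (fun g => (π (x.left.1 g)).toAdd) (by
    refine x.left.2.subset fun g hg => ?_
    rw [Function.mem_mulSupport]
    intro h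
    rw [Function.mem_support] at hg
    exact hg (by rw [h, map_one, toAdd_one]))

theorem coc_apply (π : A →* Multiplicative K) (x : Wreath A G) (g : G) :
    coc π x g = (π (x.left.1 g)).toAdd := rfl

theorem coc_mul (π : A →* Multiplicative K) (x y : Wreath A G) :
    coc π (x * y) = coc π x + shift K x.right (coc π y) := by
  ext g
  rw [Finsupp.add_apply, shift_apply, coc_apply, coc_apply, coc_apply, SemidirectProduct.mul_left]
  change (π (x.left.1 g * y.left.1 (x.right⁻¹ * g))).toAdd = _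
  rw [map_mul, toAdd_mul]

/-- The element of the wreath product with the single lamp `a` at the identity. -/
def slamp [DecidableEq G] (a : A) : Wreath A G :=
  SemidirectProduct.inl ⟨Pi.mulSingle 1 a, (Set.finite_singleton (1 : G)).subset
    (Pi.mulSupport_mulSingle_subset)⟩

theorem coc_lamp [DecidableEq G] (π : A →* Multiplicative K) (a : A)
    (ha : (π a).toAdd = 1) : coc π (slamp a : Wreath A G) = Finsupp.single 1 1 := by
  ext g
  rw [coc_apply]
  change (π ((Pi.mulSingle (1 : G) a : G → A) g)).toAdd = _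
  by_cases h : g = 1
  · subst h; simp [ha]
  · rw [Pi.mulSingle_eq_of_ne h, map_one, toAdd_one, Finsupp.single_eq_of_ne h]

end wreath

section hom

variable {A G : Type} [Group A] [Group G]

/-- The product of all values, in a commutative group. -/
noncomputable def total {B : Type} [CommGroup B] (ρ : A →* B) : Wreath A G →* B :=
  SemidirectProduct.lift
    { toFun := fun f => ∏ᶠ x, ρ (f.1 x)
      map_one' := by simp
      map_mul' := fun f g => by
        have h : ∀ f : base A G, (Function.mulSupport fun x => ρ (f.1 x)).Finite := fun f =>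
          f.2.subset fun x hx => by
            rw [Function.mem_mulSupport] at hx ⊢
            intro h
            exact hx (by rw [h, map_one])
        rw [← finprod_mul_distrib (h f) (h g)]
        refine finprod_congr fun x => ?_
        change ρ (f.1 x * g.1 x) = _
        rw [map_mul] }
    1
    (by
      intro g
      ext f
      simp only [MonoidHom.coe_comp, Function.comp_apply, MonoidHom.one_apply, map_one]
      change ∏ᶠ x, ρ (f.1 (g⁻¹ * x)) = ∏ᶠ x, ρ (f.1 x)
      exact finprod_comp_equiv (Equiv.mulLeft g⁻¹) (f := fun x => ρ (f.1 x)))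

theorem total_lamp {B : Type} [CommGroup B] [DecidableEq G] (ρ : A →* B) (a : A) :
    total ρ (slamp a : Wreath A G) = ρ a := by
  rw [total, slamp, SemidirectProduct.lift_inl]
  change ∏ᶠ x, ρ ((Pi.mulSingle (1 : G) a : G → A) x) = ρ a
  rw [finprod_eq_single _ (1 : G)]
  · simp
  · intro x hx
    rw [Pi.mulSingle_eq_of_ne hx, map_one]

/-- A nontrivial finitely generated commutative group maps onto the additive group of a field. -/
theorem exists_field (B : Type) [CommGroup B] [Nontrivial B] (hB : Group.FG B) :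
    ∃ (K : Type) (_ : Field K) (π : B →* Multiplicative K) (b : B), (π b).toAdd = 1 := by
  have h1 : AddGroup.FG (Additive B) := GroupFG.iff_add_fg.mp hB
  have h2 : Module.Finite ℤ (Additive B) := Module.Finite.iff_addGroup_fg.mpr h1
  obtain ⟨N, hN⟩ := IsCoatomic.exists_coatom (Submodule ℤ (Additive B))
  have h3 : IsSimpleModule ℤ (Additive B ⧸ N) := isSimpleModule_iff_isCoatom.mpr hN
  obtain ⟨I, hI, ⟨φ⟩⟩ := isSimpleModule_iff_quot_maximal.mp h3
  obtain ⟨b', hb'⟩ := Submodule.Quotient.mk_surjective N (φ.symm 1)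
  refine ⟨ℤ ⧸ I, Ideal.Quotient.field I,
    AddMonoidHom.toMultiplicativeRight (α := B) (β := ℤ ⧸ I)
      (φ.toLinearMap.toAddMonoidHom.comp (N.mkQ).toAddMonoidHom), b'.toMul, ?_⟩
  change φ (N.mkQ b') = 1
  rw [Submodule.mkQ_apply, hb', LinearEquiv.apply_symm_apply]

end hom

/-- Every finitely generated group with a homomorphism to `K wr G`, `K` a field and `G` infinite and sofic,
which maps onto `G` and whose image meets the base, has uniformly exponential growth. -/
theorem growth_hom {G K Γ : Type} [Group G] [Field K] [Group Γ] [DecidableEq Γ] [Infinite G]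
    (hG : Sofic G) (Φ : Γ →* Wreath (Multiplicative K) G) (hΦ : ∀ g, ∃ γ, (Φ γ).right = g)
    (ν : Γ) (hν : (Φ ν).right = 1) (hν' : Φ ν ≠ 1)
    (S : Finset Γ) (hS : Subgroup.closure (S : Set Γ) = ⊤) (n : ℕ) :
    (1 + 1 / (64 * ((Function.mulSupport (Φ ν).left.1).ncard : ℝ) ^ 2)) ^ n ≤
      ((Bl S n).card : ℝ) := by
  classical
  have hne : coc (MonoidHom.id (Multiplicative K)) (Φ ν) ≠ 0 := by
    intro h
    apply hν'
    ext x
    · have h1 := DFunLike.congr_fun h x
      rw [coc_apply] at h1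
      exact toAdd_eq_zero.mp h1
    · exact hν
  have hcard : (Function.mulSupport (Φ ν).left.1).ncard =
      (coc (MonoidHom.id (Multiplicative K)) (Φ ν)).support.card := by
    rw [← Set.ncard_coe_finset]
    congr 1
    ext x
    rw [Function.mem_mulSupport, mem_coe, Finsupp.mem_support_iff, coc_apply]
    exact not_congr toAdd_eq_zero.symm
  rw [hcard]
  refine growth_cocycle S (SemidirectProduct.rightHom.comp Φ)
    (fun x => coc (MonoidHom.id (Multiplicative K)) (Φ x)) (fun x y => ?_) hG (e := ν) ?_ hne hS ?_ n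
  · rw [map_mul, coc_mul]
    rfl
  · exact hν
  · exact hΦ

/-- Every finitely generated group which maps onto `A wr G`, with `G` infinite and sofic and `A ≠ [A, A]`,
has uniformly exponential growth. -/
theorem growth_wreath {A G Γ : Type} [Group A] [Group G] [Group Γ] [DecidableEq Γ] [Infinite G]
    (hG : Sofic G) (hA : commutator A ≠ ⊤) (φ : Γ →* Wreath A G) (hφ : Function.Surjective φ)
    (S : Finset Γ) (hS : Subgroup.closure (S : Set Γ) = ⊤) (n : ℕ) :
    (65 / 64 : ℝ) ^ n ≤ ((Bl S n).card : ℝ) := by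
  classical
  have hfg : Group.FG Γ := Group.fg_def.mpr ⟨S, hS⟩
  have hnt : Nontrivial (Abelianization A) := by
    by_contra hcon
    rw [not_nontrivial_iff_subsingleton] at hcon
    exact hA (QuotientGroup.subsingleton_iff.mp hcon)
  have hsurj : Function.Surjective ((total (G := G) (Abelianization.of (G := A))).comp φ) := by
    intro b
    obtain ⟨a, rfl⟩ := QuotientGroup.mk_surjective b
    obtain ⟨x, hx⟩ := hφ (slamp a)
    refine ⟨x, ?_⟩
    rw [MonoidHom.comp_apply, hx, total_lamp]
    rfl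
  obtain ⟨K, hK, π, b, hb⟩ := exists_field (Abelianization A) (Group.fg_of_surjective hsurj)
  obtain ⟨a, rfl⟩ := QuotientGroup.mk_surjective b
  obtain ⟨e, he⟩ := hφ (slamp a)
  have hce : coc (π.comp Abelianization.of) (φ e) = Finsupp.single (1 : G) (1 : K) := by
    rw [he]
    exact coc_lamp _ a hb
  have h := growth_cocycle S (SemidirectProduct.rightHom.comp φ)
    (fun x => coc (π.comp Abelianization.of) (φ x)) (fun x y => by rw [map_mul, coc_mul]; rfl)
    hG (e := e) (by rw [MonoidHom.comp_apply, he]; rfl) (by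
      rw [hce]; simp) hS (by
      intro g
      obtain ⟨x, hx⟩ := hφ (SemidirectProduct.inr g)
      exact ⟨x, by rw [MonoidHom.comp_apply, hx]; rfl⟩) n
  have hc : ((coc (π.comp Abelianization.of) (φ e)).support.card : ℝ) = 1 := by
    rw [hce, Finsupp.support_single _ one_ne_zero]; simp
  simp only [hc] at h
  norm_num at h
  exact h

end Pool.Agent.Lib.MP_c23930_al
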