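import Pool.Agent.Lib.MP_c23930_al.PDefs

/-!
# The number of codes of bounded weight
-/

set_option autoImplicit false

namespace Pool.Agent.Lib.MP_c23930_al

theorem codeCount_base : ∀ E : ℕ, {w : MW | w.wt ≤ E}.Finite ∧
    Set.ncard {w : MW | w.wt ≤ E} ≤ 8 * 2 ^ E := by
  intro E
  induction E using Nat.strong_induction_on with
  | _ E ih =>
    obtain ⟨B, hB⟩ : ∃ B : Finset MW, B = Finset.univ.image MW.base := ⟨_, rfl⟩
    have hBc : B.card ≤ 4 := by
      rw [hB]
      exact Finset.card_image_le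
    rcases Nat.lt_or_ge E 3 with hE | hE
    · have hsub : {w : MW | w.wt ≤ E} ⊆ (B : Set MW) := by
        intro w hw
        have hw' : w.wt ≤ E := hw
        cases w with
        | base g => rw [hB]; simp
        | snoc w g =>
          have : (MW.snoc w g).wt = w.wt + 3 + g.wt := rfl
          omega
      refine ⟨B.finite_toSet.subset hsub, ?_⟩
      have h1 := Set.ncard_le_ncard hsub B.finite_toSet
      rw [Set.ncard_coe_finset] at h1
      have h2 : 1 ≤ 2 ^ E := Nat.one_le_two_pow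
      omega
    · obtain ⟨hf, hc⟩ := ih (E - 3) (by omega)
      obtain ⟨C, hC⟩ : ∃ C : Finset MW, C = (hf.toFinset ×ˢ Finset.univ).image
        (fun p : MW × B4 => MW.snoc p.1 p.2) := ⟨_, rfl⟩
      have hCc : C.card ≤ 8 * 2 ^ (E - 3) * 4 := by
        rw [hC]
        refine Finset.card_image_le.trans ?_
        rw [Finset.card_product]
        have h1 : hf.toFinset.card = Set.ncard {w : MW | w.wt ≤ E - 3} :=
          (Set.ncard_eq_toFinset_card _ hf).symm
        have h2 : (Finset.univ : Finset B4).card = 4 := rfl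
        rw [h1, h2]
        exact Nat.mul_le_mul_right _ hc
      have hsub : {w : MW | w.wt ≤ E} ⊆ ((B ∪ C : Finset MW) : Set MW) := by
        intro w hw
        have hw' : w.wt ≤ E := hw
        rw [Finset.mem_coe, Finset.mem_union]
        cases w with
        | base g => left; rw [hB]; simp
        | snoc w g =>
          right
          have : (MW.snoc w g).wt = w.wt + 3 + g.wt := rfl
          rw [hC, Finset.mem_image]
          refine ⟨(w, g), ?_, rfl⟩
          rw [Finset.mem_product]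
          refine ⟨?_, Finset.mem_univ _⟩
          rw [Set.Finite.mem_toFinset]
          show w.wt ≤ E - 3
          omega
      refine ⟨(B ∪ C).finite_toSet.subset hsub, ?_⟩
      have h1 := Set.ncard_le_ncard hsub (B ∪ C).finite_toSet
      rw [Set.ncard_coe_finset] at h1
      have h2 := Finset.card_union_le B C
      have h3 : 2 ^ E = 2 ^ (E - 3) * 8 := by
        rw [show (8 : ℕ) = 2 ^ 3 by norm_num, ← pow_add]
        congr 1
        omega
      have h4 : 1 ≤ 2 ^ (E - 3) := Nat.one_le_two_pow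
      omega

theorem codeCount_aux (L : ℕ) : ∀ E : ℕ, {t : Cd L | Cd.wt L t ≤ E}.Finite ∧
    Set.ncard {t : Cd L | Cd.wt L t ≤ E} ≤ (8 * (E + 1)) ^ (2 ^ (L + 1) - 1) * 2 ^ E := by
  classical
  induction L with
  | zero =>
    intro E
    obtain ⟨h1, h2⟩ := codeCount_base E
    refine ⟨h1, ?_⟩
    refine (h2 : Set.ncard {t : Cd 0 | Cd.wt 0 t ≤ E} ≤ 8 * 2 ^ E).trans ?_
    have e : 2 ^ (0 + 1) - 1 = 1 := rfl
    rw [e, pow_one]
    exact Nat.mul_le_mul_right _ (by omega)
  | succ L ih =>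
    intro E
    have hf : ∀ i, {t : Cd L | Cd.wt L t ≤ i}.Finite := fun i => (ih i).1
    have hcard : ∀ i, (hf i).toFinset.card ≤ (8 * (i + 1)) ^ (2 ^ (L + 1) - 1) * 2 ^ i := by
      intro i
      rw [← Set.ncard_eq_toFinset_card _ (hf i)]
      exact (ih i).2
    obtain ⟨C, hC⟩ : ∃ C : Finset (Bool × Cd L × Cd L), C = (Finset.range (E + 1)).biUnion
      (fun i => (Finset.univ : Finset Bool) ×ˢ ((hf i).toFinset ×ˢ (hf (E - i)).toFinset)) :=
      ⟨_, rfl⟩
    have hsub : {t : Cd (L + 1) | Cd.wt (L + 1) t ≤ E} ⊆ ((C : Set (Bool × Cd L × Cd L))) := by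
      rintro ⟨x, t0, t1⟩ ht
      have ht' : Cd.wt L t0 + Cd.wt L t1 ≤ E := ht
      change ((x, t0, t1) : Bool × Cd L × Cd L) ∈ C
      rw [hC, Finset.mem_biUnion]
      refine ⟨Cd.wt L t0, Finset.mem_range.2 (by omega), ?_⟩
      rw [Finset.mem_product, Finset.mem_product]
      refine ⟨Finset.mem_univ _, ?_, ?_⟩
      · rw [Set.Finite.mem_toFinset]
        show Cd.wt L t0 ≤ Cd.wt L t0
        exact le_rfl
      · rw [Set.Finite.mem_toFinset]
        show Cd.wt L t1 ≤ E - Cd.wt L t0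
        omega
    have hfin : {t : Cd (L + 1) | Cd.wt (L + 1) t ≤ E}.Finite := C.finite_toSet.subset hsub
    refine ⟨hfin, ?_⟩
    have h1 : Set.ncard {t : Cd (L + 1) | Cd.wt (L + 1) t ≤ E} ≤
        Set.ncard (C : Set (Bool × Cd L × Cd L)) := Set.ncard_le_ncard hsub C.finite_toSet
    rw [Set.ncard_coe_finset] at h1
    obtain ⟨e, he⟩ : ∃ e, e = 2 ^ (L + 1) - 1 := ⟨_, rfl⟩
    have he2 : 2 ^ (L + 1 + 1) - 1 = 1 + (e + e) := by
      have h2 : 1 ≤ 2 ^ (L + 1) := Nat.one_le_two_pow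
      rw [pow_succ 2 (L + 1)]
      omega
    have h2 : C.card ≤ ∑ i ∈ Finset.range (E + 1), 2 * ((8 * (E + 1)) ^ (e + e) * 2 ^ E) := by
      rw [hC]
      refine Finset.card_biUnion_le.trans (Finset.sum_le_sum fun i hi => ?_)
      have hi' := Finset.mem_range.1 hi
      rw [Finset.card_product, Finset.card_product]
      have h3 : (Finset.univ : Finset Bool).card = 2 := rfl
      rw [h3]
      refine Nat.mul_le_mul_left _ ?_
      have h4 := Nat.mul_le_mul (hcard i) (hcard (E - i))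
      rw [← he] at h4
      refine h4.trans ?_
      have h5 : (8 * (i + 1)) ^ e ≤ (8 * (E + 1)) ^ e := Nat.pow_le_pow_left (by omega) e
      have h6 : (8 * (E - i + 1)) ^ e ≤ (8 * (E + 1)) ^ e := Nat.pow_le_pow_left (by omega) e
      have h7 : 2 ^ i * 2 ^ (E - i) = 2 ^ E := by
        rw [← pow_add]
        congr 1
        omega
      calc (8 * (i + 1)) ^ e * 2 ^ i * ((8 * (E - i + 1)) ^ e * 2 ^ (E - i))
          = (8 * (i + 1)) ^ e * (8 * (E - i + 1)) ^ e * (2 ^ i * 2 ^ (E - i)) := by ring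
        _ ≤ (8 * (E + 1)) ^ e * (8 * (E + 1)) ^ e * (2 ^ i * 2 ^ (E - i)) :=
            Nat.mul_le_mul_right _ (Nat.mul_le_mul h5 h6)
        _ = (8 * (E + 1)) ^ (e + e) * 2 ^ E := by rw [h7, pow_add]
    refine h1.trans (h2.trans ?_)
    rw [Finset.sum_const, Finset.card_range, smul_eq_mul, he2, pow_add _ 1 (e + e), pow_one]
    calc (E + 1) * (2 * ((8 * (E + 1)) ^ (e + e) * 2 ^ E))
        = (2 * (E + 1)) * ((8 * (E + 1)) ^ (e + e) * 2 ^ E) := by ring
      _ ≤ (8 * (E + 1)) * ((8 * (E + 1)) ^ (e + e) * 2 ^ E) :=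
          Nat.mul_le_mul_right _ (by omega)
      _ = 8 * (E + 1) * (8 * (E + 1)) ^ (e + e) * 2 ^ E := by ring

theorem finite_cd (L E : ℕ) : {t : Cd L | Cd.wt L t ≤ E}.Finite := (codeCount_aux L E).1

theorem card_cd (L E : ℕ) :
    Set.ncard {t : Cd L | Cd.wt L t ≤ E} ≤ (8 * (E + 1)) ^ (2 ^ (L + 1) - 1) * 2 ^ E :=
  (codeCount_aux L E).2

end Pool.Agent.Lib.MP_c23930_al
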