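import Pool.Agent.Lib.MP_c23930_al.Grig2

set_option autoImplicit false
open scoped Pointwise

namespace Pool.Agent.Lib.MP_c23930_al

theorem card_Sball (m : ℕ) (x : Om m) (n : ℕ) : (Sball m x n).card ≤ 5 ^ n := by
  induction n with
  | zero => simp [Sball]
  | succ n ih =>
    rw [Sball]
    refine (Finset.card_union_le _ _).trans ?_
    have h1 := Finset.card_image_le (s := Sball m x n ×ˢ (Finset.univ : Finset Q4))
      (f := fun p : Om m × Q4 => gq m p.2 p.1)
    have h2 : (Sball m x n ×ˢ (Finset.univ : Finset Q4)).card = (Sball m x n).card * 4 := by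
      rw [Finset.card_product]; rfl
    rw [pow_succ]
    omega

theorem exists_far (m n : ℕ) (h : 5 ^ n < 2 ^ m) (x : Om m) : ∃ y, y ∉ Sball m x n := by
  by_contra hc
  push Not at hc
  have h1 : Sball m x n = Finset.univ := Finset.eq_univ_iff_forall.2 hc
  have h2 := card_Sball m x n
  rw [h1, Finset.card_univ, card_Om] at h2
  omega

theorem dlamp_empty {Ω : Type*} [DecidableEq Ω] : dlamp (∅ : Finset Ω) = 1 := rfl

theorem dlamp_mul {Ω : Type*} [DecidableEq Ω] (A : Finset Ω) (u : Ω) :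
    ∃ A' ⊆ insert u A, dlamp A * sW (u, u) = dlamp A' := by
  by_cases hu : u ∈ A
  · refine ⟨A.erase u, (Finset.erase_subset _ _).trans (Finset.subset_insert _ _), ?_⟩
    have h1 : dlamp (A.erase u) * sW (u, u) = dlamp A :=
      Finset.noncommProd_erase_mul A hu (fun u => sW (u, u)) _
    rw [← h1, mul_assoc, sW_mul_self, mul_one]
  · refine ⟨insert u A, subset_rfl, ?_⟩
    exact (Finset.noncommProd_insert_of_notMem' A u (fun u => sW (u, u)) _ hu).symm

/-- letters fixed by `k` give lamps fixed by `k` -/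
theorem actK_lamp {Ω : Type*} [DecidableEq Ω] (A : Finset Ω) (k : Kg Ω)
    (h : ∀ u ∈ A, kl k (u, u) = (u, u)) : actK Ω k (dlamp A) = dlamp A := by
  refine (Finset.map_noncommProd A _ _ (actK Ω k)).trans ?_
  refine Finset.noncommProd_congr rfl ?_ _
  intro u hu
  rw [actK_s, h u hu]

theorem inl_comm_inr {Ω : Type*} [DecidableEq Ω] (A : Finset Ω) (k : Kg Ω)
    (h : ∀ u ∈ A, kl k (u, u) = (u, u)) :
    (SemidirectProduct.inl (dlamp A) * SemidirectProduct.inr k : Pg Ω) =
      SemidirectProduct.inr k * SemidirectProduct.inl (dlamp A) := by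
  have h1 := SemidirectProduct.inl_aut (φ := actK Ω) k (dlamp A)
  rw [actK_lamp A k h] at h1
  calc (SemidirectProduct.inl (dlamp A) * SemidirectProduct.inr k : Pg Ω)
      = SemidirectProduct.inr k * SemidirectProduct.inl (dlamp A) * SemidirectProduct.inr k⁻¹ *
          SemidirectProduct.inr k := by rw [← h1]
    _ = SemidirectProduct.inr k * SemidirectProduct.inl (dlamp A) := by
        rw [mul_assoc, ← map_mul, inv_mul_cancel, map_one, mul_one]

theorem inr_mul_inl {Ω : Type*} (k : Kg Ω) (p : Ω × Ω) :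
    (SemidirectProduct.inr k * SemidirectProduct.inl (sW p) : Pg Ω) =
      SemidirectProduct.inl (sW (kl k p)) * SemidirectProduct.inr k := by
  have h1 := SemidirectProduct.inl_aut (φ := actK Ω) k (sW p)
  rw [actK_s] at h1
  rw [h1, mul_assoc, ← map_mul, inv_mul_cancel, map_one, mul_one]

/-- the swap letter on the left -/
theorem inr_mul_swap {Ω : Type*} [DecidableEq Ω] (h : Equiv.Perm Ω) (a b : Ω) :
    (SemidirectProduct.inr (h, h) * SemidirectProduct.inr (Equiv.swap a b, 1) : Pg Ω) =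
      SemidirectProduct.inr (Equiv.swap (h a) (h b), 1) * SemidirectProduct.inr (h, h) := by
  rw [← map_mul, ← map_mul, Prod.mk_mul_mk, Prod.mk_mul_mk, mul_one, one_mul,
    Equiv.mul_swap_eq_swap_mul]

theorem inr_mul_swap' {Ω : Type*} [DecidableEq Ω] (h : Equiv.Perm Ω) (a b : Ω) :
    (SemidirectProduct.inr (h, h) * SemidirectProduct.inr (1, Equiv.swap a b) : Pg Ω) =
      SemidirectProduct.inr (1, Equiv.swap (h a) (h b)) * SemidirectProduct.inr (h, h) := by
  rw [← map_mul, ← map_mul, Prod.mk_mul_mk, Prod.mk_mul_mk, mul_one, one_mul,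
    Equiv.mul_swap_eq_swap_mul]

theorem Sball_succ (m : ℕ) (x : Om m) (n : ℕ) : Sball m x n ⊆ Sball m x (n + 1) :=
  Finset.subset_union_left

theorem Sball_gq (m : ℕ) (x : Om m) (n : ℕ) (q : Q4) {v : Om m} (hv : v ∈ Sball m x n) :
    gq m q v ∈ Sball m x (n + 1) := by
  refine Finset.mem_union_right _ (Finset.mem_image.2 ⟨(v, q), ?_, rfl⟩)
  exact Finset.mem_product.2 ⟨hv, Finset.mem_univ _⟩

theorem Sball_mono (m : ℕ) (x : Om m) {i n : ℕ} (h : i ≤ n) : Sball m x i ⊆ Sball m x n := by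
  induction n, h using Nat.le_induction with
  | base => exact subset_rfl
  | succ n _ ih => exact ih.trans (Sball_succ m x n)

/-- product with a swap of two points of `S` -/
theorem supp_mul_swap {Ω : Type*} [DecidableEq Ω] (p : Equiv.Perm Ω) (S : Finset Ω) (a b : Ω)
    (hp : ∀ z, p z ≠ z → z ∈ S) (ha : a ∈ S) (hb : b ∈ S) (z : Ω)
    (hz : (p * Equiv.swap a b) z ≠ z) : z ∈ S := by
  by_cases h1 : z = a
  · rw [h1]; exact ha
  by_cases h2 : z = b
  · rw [h2]; exact hb
  refine hp z ?_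
  rwa [Equiv.Perm.mul_apply, Equiv.swap_apply_of_ne_of_ne h1 h2] at hz

/-- points of `A` are moved neither by `swap (h y) (h (q y))` -/
theorem dlamp_far (m R i : ℕ) (x₀ y : Om m) (hy : y ∉ Sball m x₀ (R + 1)) (hi : i ≤ R) (w : MW)
    (A : Finset (Om m)) (hA : ∀ u ∈ A, ∃ v ∈ Sball m x₀ i, w.ev m v = u) (g : Q4) {u : Om m}
    (hu : u ∈ A) : Equiv.swap (w.ev m y) (w.ev m (gq m g y)) u = u := by
  obtain ⟨v, hv, hvu⟩ := hA u hu
  refine Equiv.swap_apply_of_ne_of_ne ?_ ?_
  · intro h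
    rw [← hvu] at h
    have h1 : v = y := (w.ev m).injective h
    rw [h1] at hv
    exact hy (Sball_mono m x₀ (by omega) hv)
  · intro h
    rw [← hvu] at h
    have h1 : v = gq m g y := (w.ev m).injective h
    have h2 := Sball_gq m x₀ i g hv
    rw [h1, ← Equiv.Perm.mul_apply, gq_sq, Equiv.Perm.one_apply] at h2
    exact hy (Sball_mono m x₀ (by omega) h2)

/-- normal form of the elements of the ball of radius `R`, with the invariant of the induction -/
theorem normal_form_aux (m R : ℕ) (x₀ y : Om m) (hy : y ∉ Sball m x₀ (R + 1)) (l : List TL)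
    (hl : l.length ≤ R) :
    ∃ (w : MW) (p₁ p₂ : Equiv.Perm (Om m)) (A : Finset (Om m)),
      w.wt ≤ 7 * l.length ∧ (∀ z, p₁ z ≠ z → z ∈ w.io m y) ∧ (∀ z, p₂ z ≠ z → z ∈ w.io m y) ∧
      A ⊆ w.io m x₀ ∧ (∀ u ∈ A, ∃ v ∈ Sball m x₀ l.length, w.ev m v = u) ∧
      (l.map (TL.val m x₀ y)).prod =
        (SemidirectProduct.inr (p₁, p₂) * SemidirectProduct.inl (dlamp A) *
          SemidirectProduct.inr (w.ev m, w.ev m) : Pg (Om m)) := by
  induction l using List.reverseRecOn with
  | nil =>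
    refine ⟨.base .o, 1, 1, ∅, le_refl _, fun z h => absurd rfl h, fun z h => absurd rfl h,
      Finset.empty_subset _, fun u hu => absurd hu (Finset.notMem_empty _), ?_⟩
    have h1 : MW.ev m (.base .o) = 1 := gb_o m
    rw [h1, dlamp_empty, map_one, mul_one]
    change (1 : Pg (Om m)) = SemidirectProduct.inr 1 * SemidirectProduct.inr 1
    rw [map_one, mul_one]
  | append_singleton l g ih =>
    rw [List.length_append, List.length_singleton] at hl
    obtain ⟨w, p₁, p₂, A, hw, hp₁, hp₂, hA, hA', he⟩ := ih (by omega)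
    rw [List.length_append, List.length_singleton, List.map_append, List.map_singleton,
      List.prod_append, List.prod_singleton, he]
    have hfar : ∀ g : Q4, ∀ u ∈ A, Equiv.swap (w.ev m y) (w.ev m (gq m g y)) u = u :=
      fun g u hu => dlamp_far m R l.length x₀ y hy (by omega) w A hA' g hu
    cases g with
    | q g =>
      refine ⟨w.mulQ g, p₁, p₂, A, ?_, fun z hz => io_mulQ m w g y (hp₁ z hz),
        fun z hz => io_mulQ m w g y (hp₂ z hz), hA.trans (io_mulQ m w g x₀), ?_, ?_⟩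
      · have := wt_mulQ w g
        omega
      · intro u hu
        obtain ⟨v, hv, hvu⟩ := hA' u hu
        refine ⟨gq m g v, Sball_gq m x₀ _ g hv, ?_⟩
        rw [ev_mulQ, Equiv.Perm.mul_apply, ← Equiv.Perm.mul_apply (gq m g), gq_sq]
        exact hvu
      · rw [ev_mulQ, mul_assoc]
        congr 1
    | l g =>
      refine ⟨w, p₁ * Equiv.swap (w.ev m y) (w.ev m (gq m g y)), p₂, A, by omega,
        supp_mul_swap p₁ _ _ _ hp₁ (ev_mem_io m w y) (ev_gq_mem_io m w g y), hp₂, hA, ?_, ?_⟩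
      · intro u hu
        obtain ⟨v, hv, hvu⟩ := hA' u hu
        exact ⟨v, Sball_succ m x₀ _ hv, hvu⟩
      · change _ * SemidirectProduct.inr (Equiv.swap y (gq m g y), 1) = _
        rw [mul_assoc, inr_mul_swap, ← mul_assoc, mul_assoc (SemidirectProduct.inr (p₁, p₂)),
          inl_comm_inr, ← mul_assoc, ← map_mul, Prod.mk_mul_mk, mul_one]
        intro u hu
        exact Prod.ext (hfar g u hu) rfl
    | r g =>
      refine ⟨w, p₁, p₂ * Equiv.swap (w.ev m y) (w.ev m (gq m g y)), A, by omega, hp₁,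
        supp_mul_swap p₂ _ _ _ hp₂ (ev_mem_io m w y) (ev_gq_mem_io m w g y), hA, ?_, ?_⟩
      · intro u hu
        obtain ⟨v, hv, hvu⟩ := hA' u hu
        exact ⟨v, Sball_succ m x₀ _ hv, hvu⟩
      · change _ * SemidirectProduct.inr (1, Equiv.swap y (gq m g y)) = _
        rw [mul_assoc, inr_mul_swap', ← mul_assoc, mul_assoc (SemidirectProduct.inr (p₁, p₂)),
          inl_comm_inr, ← mul_assoc, ← map_mul, Prod.mk_mul_mk, mul_one]
        intro u hu
        exact Prod.ext rfl (hfar g u hu)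
    | t =>
      obtain ⟨A', hA1, hA2⟩ := dlamp_mul A (w.ev m x₀)
      refine ⟨w, p₁, p₂, A', by omega, hp₁, hp₂, ?_, ?_, ?_⟩
      · intro u hu
        rcases Finset.mem_insert.1 (hA1 hu) with h | h
        · rw [h]; exact ev_mem_io m w x₀
        · exact hA h
      · intro u hu
        rcases Finset.mem_insert.1 (hA1 hu) with h | h
        · exact ⟨x₀, Sball_mono m x₀ (Nat.zero_le _) (Finset.mem_singleton_self x₀), h.symm⟩
        · obtain ⟨v, hv, hvu⟩ := hA' u h
          exact ⟨v, Sball_succ m x₀ _ hv, hvu⟩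
      · change _ * SemidirectProduct.inl (sW (x₀, x₀)) = _
        rw [mul_assoc, inr_mul_inl, ← mul_assoc, mul_assoc (SemidirectProduct.inr (p₁, p₂)),
          ← map_mul]
        have h3 : kl (w.ev m, w.ev m) (x₀, x₀) = (w.ev m x₀, w.ev m x₀) := rfl
        rw [h3, hA2]

/-- normal form of the elements of the ball of radius `R` -/
theorem normal_form (m R : ℕ) (x₀ y : Om m) (hy : y ∉ Sball m x₀ (R + 1)) (l : List TL)
    (hl : l.length ≤ R) :
    ∃ (w : MW) (p₁ p₂ : Equiv.Perm (Om m)) (A : Finset (Om m)),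
      w.wt ≤ 7 * R ∧ (∀ z, p₁ z ≠ z → z ∈ w.io m y) ∧ (∀ z, p₂ z ≠ z → z ∈ w.io m y) ∧
      A ⊆ w.io m x₀ ∧
      (l.map (TL.val m x₀ y)).prod =
        (SemidirectProduct.inr (p₁, p₂) * SemidirectProduct.inl (dlamp A) *
          SemidirectProduct.inr (w.ev m, w.ev m) : Pg (Om m)) := by
  obtain ⟨w, p₁, p₂, A, hw, hp₁, hp₂, hA, _, he⟩ := normal_form_aux m R x₀ y hy l hl
  exact ⟨w, p₁, p₂, A, hw.trans (by omega), hp₁, hp₂, hA, he⟩

end Pool.Agent.Lib.MP_c23930_al
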