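import Pool.Agent.Lib.MP_c23930_al.Codes
import Pool.Agent.Lib.MP_c23930_al.CodeCount
import Pool.Agent.Lib.MP_c23930_al.Normal

set_option autoImplicit false
open scoped Pointwise

namespace Pool.Agent.Lib.MP_c23930_al

theorem TL.val_sq (m : ℕ) (x₀ y : Om m) (g : TL) :
    TL.val m x₀ y g * TL.val m x₀ y g = 1 := by
  cases g with
  | q g => simp only [TL.val]; rw [← map_mul, Prod.mk_mul_mk, gq_sq, ← Prod.one_eq_mk, map_one]
  | l g =>
    simp only [TL.val]
    rw [← map_mul, Prod.mk_mul_mk, Equiv.swap_mul_self, mul_one, ← Prod.one_eq_mk, map_one]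
  | r g =>
    simp only [TL.val]
    rw [← map_mul, Prod.mk_mul_mk, Equiv.swap_mul_self, mul_one, ← Prod.one_eq_mk, map_one]
  | t => simp only [TL.val]; rw [← map_mul, sW_mul_self, map_one]

namespace BallCount

/-- elements of the ball are short words -/
theorem mem_ball (m R : ℕ) (x₀ y : Om m) (x : Pg (Om m))
    (hx : x ∈ ((Tset m x₀ y : Set (Pg (Om m))) ∪ (Tset m x₀ y : Set (Pg (Om m)))⁻¹ ∪ {1}) ^ R) :
    ∃ l : List TL, l.length ≤ R ∧ x = (l.map (TL.val m x₀ y)).prod := by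
  induction R generalizing x with
  | zero =>
    rw [pow_zero, Set.mem_one] at hx
    exact ⟨[], le_refl _, by simpa using hx⟩
  | succ R ih =>
    rw [pow_succ] at hx
    obtain ⟨a, ha, b, hb, rfl⟩ := Set.mem_mul.1 hx
    obtain ⟨l, hl, rfl⟩ := ih a ha
    have key : ∀ b ∈ Tset m x₀ y, ∃ g : TL, b = TL.val m x₀ y g := by
      intro b hb
      classical
      simp only [Tset, Finset.mem_erase, Finset.mem_image, Finset.mem_univ, true_and] at hb
      obtain ⟨g, hg⟩ := hb.2
      exact ⟨g, hg.symm⟩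
    rcases hb with (hb | hb) | hb
    · obtain ⟨g, rfl⟩ := key b hb
      exact ⟨l ++ [g], by simpa using hl, by simp⟩
    · obtain ⟨g, hg⟩ := key b⁻¹ hb
      have hb' : b = TL.val m x₀ y g := by
        rw [eq_comm, ← inv_eq_iff_eq_inv] at hg
        rw [← hg]
        exact (inv_eq_of_mul_eq_one_left (TL.val_sq m x₀ y g))
      subst hb'
      exact ⟨l ++ [g], by simpa using hl, by simp⟩
    · rw [Set.mem_singleton_iff] at hb
      subst hb
      exact ⟨l, by omega, by simp⟩

/-- permutations supported in `O` -/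
def ps {Ω : Type*} [Fintype Ω] [DecidableEq Ω] (O : Finset Ω) : Finset (Equiv.Perm Ω) :=
  Finset.univ.filter fun p => ∀ z, p z ≠ z → z ∈ O

theorem card_ps {Ω : Type*} [Fintype Ω] [DecidableEq Ω] (O : Finset Ω) (M : ℕ)
    (hM : O.card ≤ M) (h1 : 1 ≤ M) : (ps O).card ≤ M ^ M := by
  classical
  have e : {p : Equiv.Perm Ω // p ∈ ps O} ≃ Equiv.Perm {z // z ∈ O} :=
    (Equiv.subtypeEquivRight (by
      intro p
      simp only [ps, Finset.mem_filter, Finset.mem_univ, true_and]
      constructor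
      · intro h z hz
        by_contra h'
        exact hz (h z h')
      · intro h z hz
        by_contra h'
        exact hz (h z h'))).trans
      (Equiv.Perm.subtypeEquivSubtypePerm (fun z => z ∈ O)).symm
  have h2 : (ps O).card = O.card.factorial := by
    have := Fintype.card_congr e
    rw [Fintype.card_coe, Fintype.card_perm, Fintype.card_coe] at this
    exact this
  rw [h2]
  calc O.card.factorial ≤ O.card ^ O.card := Nat.factorial_le_pow _
    _ ≤ M ^ O.card := Nat.pow_le_pow_left hM _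
    _ ≤ M ^ M := Nat.pow_le_pow_right h1 hM

end BallCount

theorem count_ball (m L R E : ℕ) (x₀ y : Om (m + L)) (hy : y ∉ Sball (m + L) x₀ (R + 1))
    (hE : 9 ^ L * (7 * R) + 3 * 10 ^ L * 2 ^ L ≤ 10 ^ L * E) :
    Set.ncard (((Tset (m + L) x₀ y : Set (Pg (Om (m + L)))) ∪
        (Tset (m + L) x₀ y : Set (Pg (Om (m + L))))⁻¹ ∪ {1}) ^ R) ≤
      (8 * (E + 1)) ^ (2 ^ (L + 1)) * 2 ^ E * ((22 * E) ^ (22 * E)) ^ 2 * 2 ^ (22 * E) := by
  classical
  have h10 : 0 < 10 ^ L := by positivity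
  have h2E : 3 * 2 ^ L ≤ E := by
    have : 10 ^ L * (3 * 2 ^ L) ≤ 10 ^ L * E := by
      calc 10 ^ L * (3 * 2 ^ L) = 3 * 10 ^ L * 2 ^ L := by ring
        _ ≤ _ := le_trans (Nat.le_add_left _ _) hE
    exact Nat.le_of_mul_le_mul_left this h10
  have hE1 : 1 ≤ E := le_trans (by have := Nat.one_le_two_pow (n := L); omega) h2E
  set M := 22 * E with hMdef
  have hM1 : 1 ≤ M := by omega
  -- the orbit bounds
  have hO : ∀ (t : Cd L) (z : Om (m + L)), Cd.wt L t ≤ E → (Cd.io m L t z).card ≤ M := by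
    intro t z ht
    have := cd_io_card m L t z
    omega
  -- weights of codes
  have hW : ∀ w : MW, w.wt ≤ 7 * R → Cd.wt L (Cd.of L w) ≤ E := by
    intro w hw
    have h1 := cd_wt L w
    have h2 : 9 ^ L * w.wt ≤ 9 ^ L * (7 * R) := Nat.mul_le_mul_left _ hw
    have h3 : 10 ^ L * Cd.wt L (Cd.of L w) ≤ 10 ^ L * E := by
      refine le_trans ?_ hE
      omega
    exact Nat.le_of_mul_le_mul_left h3 h10
  -- the permutation attached to a code
  let hc : Cd L → Equiv.Perm (Om (m + L)) := fun t =>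
    if h : ∃ g : Equiv.Perm (Om (m + L)), ∀ z, g z = Cd.ev m L t z then h.choose else 1
  have hcof : ∀ w : MW, hc (Cd.of L w) = w.ev (m + L) := by
    intro w
    have h : ∃ g : Equiv.Perm (Om (m + L)), ∀ z, g z = Cd.ev m L (Cd.of L w) z :=
      ⟨w.ev (m + L), fun z => (cd_ev m L w z).symm⟩
    have h1 : hc (Cd.of L w) = h.choose := dif_pos h
    rw [h1]
    ext z
    rw [h.choose_spec z, cd_ev]
  let f : Cd L → (Equiv.Perm (Om (m + L)) × Equiv.Perm (Om (m + L)) × Finset (Om (m + L))) →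
      Pg (Om (m + L)) := fun t q =>
    SemidirectProduct.inr (q.1, q.2.1) * SemidirectProduct.inl (dlamp q.2.2) *
          SemidirectProduct.inr (hc t, hc t)
  let D : Cd L → Finset (Equiv.Perm (Om (m + L)) × Equiv.Perm (Om (m + L)) ×
      Finset (Om (m + L))) := fun t =>
    BallCount.ps (Cd.io m L t y) ×ˢ (BallCount.ps (Cd.io m L t y) ×ˢ (Cd.io m L t x₀).powerset)
  have hDcard : ∀ t, Cd.wt L t ≤ E → (D t).card ≤ (M ^ M) ^ 2 * 2 ^ M := by
    intro t ht
    simp only [D, Finset.card_product, Finset.card_powerset]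
    have h1 := BallCount.card_ps (Cd.io m L t y) M (hO t y ht) hM1
    have h2 : 2 ^ (Cd.io m L t x₀).card ≤ 2 ^ M :=
      Nat.pow_le_pow_right (by norm_num) (hO t x₀ ht)
    calc _ ≤ M ^ M * (M ^ M * 2 ^ M) := Nat.mul_le_mul h1 (Nat.mul_le_mul h1 h2)
      _ = (M ^ M) ^ 2 * 2 ^ M := by ring
  have hfin := finite_cd L E
  let S : Finset (Cd L) := hfin.toFinset
  have hS : S.card ≤ (8 * (E + 1)) ^ (2 ^ (L + 1)) * 2 ^ E := by
    have h1 : S.card = Set.ncard {t : Cd L | Cd.wt L t ≤ E} :=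
      (Set.ncard_eq_toFinset_card _ hfin).symm
    rw [h1]
    refine (card_cd L E).trans (Nat.mul_le_mul_right _ ?_)
    exact Nat.pow_le_pow_right (by omega) (Nat.sub_le _ _)
  let U : Finset (Pg (Om (m + L))) := S.biUnion fun t => (D t).image (f t)
  have hsub : ((Tset (m + L) x₀ y : Set (Pg (Om (m + L)))) ∪
        (Tset (m + L) x₀ y : Set (Pg (Om (m + L))))⁻¹ ∪ {1}) ^ R ⊆ (U : Set (Pg (Om (m + L)))) := by
    intro x hx
    obtain ⟨l, hl, rfl⟩ := BallCount.mem_ball (m + L) R x₀ y x hx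
    obtain ⟨w, p₁, p₂, A, hw, h1, h2, hA, he⟩ := normal_form (m + L) R x₀ y hy l hl
    have hsubO := fun z => cd_io m L w z
    simp only [U, Finset.coe_biUnion, Set.mem_iUnion, Finset.mem_coe]
    refine ⟨Cd.of L w, ?_, ?_⟩
    · simpa [S] using hW w hw
    · rw [Finset.mem_image]
      refine ⟨(p₁, p₂, A), ?_, ?_⟩
      · simp only [D, Finset.mem_product, BallCount.ps, Finset.mem_filter, Finset.mem_univ,
          true_and, Finset.mem_powerset]
        exact ⟨fun z hz => hsubO y (h1 z hz), fun z hz => hsubO y (h2 z hz),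
          hA.trans (hsubO x₀)⟩
      · simp only [f, hcof]
        exact he.symm
  calc _ ≤ Set.ncard (U : Set (Pg (Om (m + L)))) :=
        Set.ncard_le_ncard hsub (Finset.finite_toSet U)
    _ = U.card := Set.ncard_coe_finset U
    _ ≤ ∑ t ∈ S, ((D t).image (f t)).card := Finset.card_biUnion_le
    _ ≤ ∑ t ∈ S, (M ^ M) ^ 2 * 2 ^ M := by
        refine Finset.sum_le_sum fun t ht => ?_
        refine Finset.card_image_le.trans (hDcard t ?_)
        simpa [S] using ht
    _ = S.card * ((M ^ M) ^ 2 * 2 ^ M) := by rw [Finset.sum_const, smul_eq_mul]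
    _ ≤ ((8 * (E + 1)) ^ (2 ^ (L + 1)) * 2 ^ E) * ((M ^ M) ^ 2 * 2 ^ M) :=
        Nat.mul_le_mul_right _ hS
    _ = _ := by ring

end Pool.Agent.Lib.MP_c23930_al
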