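import Pool.Agent.Lib.MP_c23930_al.Grig2

set_option autoImplicit false

namespace Pool.Agent.Lib.MP_c23930_al

theorem cd_ev (m L : ℕ) (w : MW) (z : Om (m + L)) :
    Cd.ev m L (Cd.of L w) z = MW.ev (m + L) w z := by
  induction L generalizing w with
  | zero => rfl
  | succ L ih =>
    obtain ⟨z₁, z'⟩ : Bool × Om (m + L) := z
    have h := ev_sec (m + L) w z₁ z'
    refine Eq.trans ?_ h.symm
    change ((xor z₁ w.sg, Cd.ev m L (cond (xor z₁ w.sg) (Cd.of L (w.sec true))
      (Cd.of L (w.sec false))) z') : Bool × Om (m + L)) = _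
    rcases hv : xor z₁ w.sg with _ | _
    · exact congrArg (fun t => ((false, t) : Bool × Om (m + L))) (ih (w.sec false) z')
    · exact congrArg (fun t => ((true, t) : Bool × Om (m + L))) (ih (w.sec true) z')

theorem cd_io (m L : ℕ) (w : MW) (z : Om (m + L)) :
    MW.io (m + L) w z ⊆ Cd.io m L (Cd.of L w) z := by
  induction L generalizing w with
  | zero => exact fun x hx => hx
  | succ L ih =>
    obtain ⟨z₁, z'⟩ : Bool × Om (m + L) := z
    have h := io_sec (m + L) w z₁ z'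
    refine Finset.Subset.trans h ?_
    change _ ⊆ ((Cd.io m L (Cd.of L (w.sec false)) z').image
        fun y => ((false, y) : Bool × Om (m + L))) ∪
      ((Cd.io m L (Cd.of L (w.sec true)) z').image fun y => ((true, y) : Bool × Om (m + L)))
    exact Finset.union_subset_union (Finset.image_subset_image (ih _ _))
      (Finset.image_subset_image (ih _ _))

theorem cd_io_card (m L : ℕ) (t : Cd L) (z : Om (m + L)) :
    3 * (Cd.io m L t z).card ≤ 32 * (Cd.wt L t + 3 * 2 ^ L) := by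
  induction L with
  | zero =>
    have h := card_io m t z
    have e1 : Cd.io m 0 t z = MW.io m t z := rfl
    have e2 : Cd.wt 0 t = MW.wt t := rfl
    rw [e1, e2, pow_zero, mul_one]
    exact h
  | succ L ih =>
    obtain ⟨s, t0, t1⟩ : Bool × Cd L × Cd L := t
    obtain ⟨z₁, z'⟩ : Bool × Om (m + L) := z
    have h0 := ih t0 z'
    have h1 := ih t1 z'
    have hc : (Cd.io m (L + 1) ((s, t0, t1) : Bool × Cd L × Cd L)
        ((z₁, z') : Bool × Om (m + L))).card ≤
        (Cd.io m L t0 z').card + (Cd.io m L t1 z').card :=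
      (Finset.card_union_le _ _).trans (Nat.add_le_add Finset.card_image_le Finset.card_image_le)
    have e2 : Cd.wt (L + 1) ((s, t0, t1) : Bool × Cd L × Cd L) = Cd.wt L t0 + Cd.wt L t1 := rfl
    rw [e2, pow_succ]
    refine (Nat.mul_le_mul_left 3 hc).trans ?_
    calc 3 * ((Cd.io m L t0 z').card + (Cd.io m L t1 z').card)
        = 3 * (Cd.io m L t0 z').card + 3 * (Cd.io m L t1 z').card := by ring
      _ ≤ 32 * (Cd.wt L t0 + 3 * 2 ^ L) + 32 * (Cd.wt L t1 + 3 * 2 ^ L) := Nat.add_le_add h0 h1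
      _ = 32 * (Cd.wt L t0 + Cd.wt L t1 + 3 * (2 ^ L * 2)) := by ring

theorem cd_wt (L : ℕ) (w : MW) :
    10 ^ L * Cd.wt L (Cd.of L w) + 3 * 10 ^ L ≤ 9 ^ L * w.wt + 3 * 10 ^ L * 2 ^ L := by
  induction L generalizing w with
  | zero =>
    have e : Cd.wt 0 (Cd.of 0 w) = w.wt := rfl
    rw [e]
    simp
  | succ L ih =>
    have h0 := ih (w.sec false)
    have h1 := ih (w.sec true)
    have hs := wt_sec w
    have e : Cd.wt (L + 1) (Cd.of (L + 1) w) =
      Cd.wt L (Cd.of L (w.sec false)) + Cd.wt L (Cd.of L (w.sec true)) := rfl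
    rw [e]
    set A := Cd.wt L (Cd.of L (w.sec false))
    set B := Cd.wt L (Cd.of L (w.sec true))
    set a := (w.sec false).wt
    set b := (w.sec true).wt
    have h9 : 9 ^ L ≤ 10 ^ L := Nat.pow_le_pow_left (by norm_num) L
    have hs' : 9 ^ L * (10 * (a + b)) ≤ 9 ^ L * (9 * (w.wt + 3)) := Nat.mul_le_mul_left _ hs
    have e10 : 10 ^ (L + 1) = 10 * 10 ^ L := by rw [pow_succ, mul_comm]
    have e9 : 9 ^ (L + 1) = 9 * 9 ^ L := by rw [pow_succ, mul_comm]
    have e2 : 2 ^ (L + 1) = 2 * 2 ^ L := by rw [pow_succ, mul_comm]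
    rw [e10, e9, e2]
    set T := 10 ^ L
    set N := 9 ^ L
    set P := 2 ^ L
    -- 10 T (A+B) + 30 T ≤ 9 N w + 60 T P
    have k0 : 10 * (T * A + 3 * T) ≤ 10 * (N * a + 3 * T * P) := Nat.mul_le_mul_left _ h0
    have k1 : 10 * (T * B + 3 * T) ≤ 10 * (N * b + 3 * T * P) := Nat.mul_le_mul_left _ h1
    nlinarith [k0, k1, hs', h9]

end Pool.Agent.Lib.MP_c23930_al
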