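import Pool.Agent.Lib.MP_c23930_al.PDefs

set_option autoImplicit false

namespace Pool.Agent.Lib.MP_c23930_al

private theorem grig1_rho_mul (g h : B4) : (g.mul h).rho = g.rho.mul h.rho := by
  cases g <;> cases h <;> rfl

private theorem grig1_om_mul (g h : B4) : (g.mul h).om = xor g.om h.om := by
  cases g <;> cases h <;> rfl

private theorem grig1_gb_false (m : ℕ) (g : B4) (z : Om m) :
    gb (m + 1) g ((false, z) : Bool × Om m) = ((false, (cond g.om (ga m) 1) z) : Bool × Om m) :=
  rfl

private theorem grig1_gb_true (m : ℕ) (g : B4) (z : Om m) :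
    gb (m + 1) g ((true, z) : Bool × Om m) = ((true, gb m g.rho z) : Bool × Om m) :=
  rfl

private theorem grig1_ga (m : ℕ) (x : Bool) (z : Om m) :
    ga (m + 1) ((x, z) : Bool × Om m) = ((!x, z) : Bool × Om m) :=
  rfl

theorem ga_sq (m : ℕ) : ga m * ga m = 1 := by
  cases m with
  | zero => rfl
  | succ m =>
    refine Equiv.ext ?_
    rintro ⟨x, z⟩
    exact congrArg (fun p => ((p, z) : Bool × Om m)) (Bool.not_not x)

theorem gb_o (m : ℕ) : gb m .o = 1 := by
  induction m with
  | zero => rfl
  | succ m ih =>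
    refine Equiv.ext ?_
    rintro ⟨x, z⟩
    cases x
    · rfl
    · exact congrArg (fun p : Equiv.Perm (Om m) => ((true, p z) : Bool × Om m)) ih

theorem gb_mul (m : ℕ) (g h : B4) : gb m (g.mul h) = gb m g * gb m h := by
  induction m generalizing g h with
  | zero => rfl
  | succ m ih =>
    refine Equiv.ext ?_
    rintro ⟨x, z⟩
    cases x
    · have e : (cond (g.mul h).om (ga m) 1 : Equiv.Perm (Om m)) =
          cond g.om (ga m) 1 * cond h.om (ga m) 1 := by
        rw [grig1_om_mul]
        cases g.om <;> cases h.om <;> simp [ga_sq]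
      exact congrArg (fun p : Equiv.Perm (Om m) => ((false, p z) : Bool × Om m)) e
    · have e : gb m (g.mul h).rho = gb m g.rho * gb m h.rho := by rw [grig1_rho_mul, ih]
      exact congrArg (fun p : Equiv.Perm (Om m) => ((true, p z) : Bool × Om m)) e

theorem gq_sq (m : ℕ) (q : Q4) : gq m q * gq m q = 1 := by
  cases q
  · exact ga_sq m
  · show gb m .b * gb m .b = 1
    rw [← gb_mul]; exact gb_o m
  · show gb m .c * gb m .c = 1
    rw [← gb_mul]; exact gb_o m
  · show gb m .d * gb m .d = 1
    rw [← gb_mul]; exact gb_o m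

theorem ev_mulA (m : ℕ) (w : MW) : w.mulA.ev m = w.ev m * ga m := by
  show w.ev m * ga m * gb m .o = _
  rw [gb_o, mul_one]

theorem ev_mulB (m : ℕ) (w : MW) (g : B4) : (w.mulB g).ev m = w.ev m * gb m g := by
  cases w with
  | base h => exact gb_mul m h g
  | snoc w h =>
    show w.ev m * ga m * gb m (h.mul g) = w.ev m * ga m * gb m h * gb m g
    rw [gb_mul]
    simp only [mul_assoc]

theorem ev_mulQ (m : ℕ) (w : MW) (q : Q4) : (w.mulQ q).ev m = w.ev m * gq m q := by
  cases q
  · exact ev_mulA m w
  · exact ev_mulB m w .b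
  · exact ev_mulB m w .c
  · exact ev_mulB m w .d

/-- a word for the letter `q` acting below the vertex `1` -/
private def grig1_lift : Q4 → List Q4
  | .a => [.a, .b, .a]
  | .b => [.d]
  | .c => [.b]
  | .d => [.c]

private theorem grig1_lift_apply (m : ℕ) (q : Q4) (z : Om m) :
    ((grig1_lift q).map (gq (m + 1))).prod ((true, z) : Bool × Om m) =
      ((true, gq m q z) : Bool × Om m) := by
  cases q
  · show (ga (m + 1) * (gb (m + 1) .b * (ga (m + 1) * 1))) ((true, z) : Bool × Om m) = _
    rw [Equiv.Perm.mul_apply, Equiv.Perm.mul_apply, mul_one]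
    rfl
  · show (gb (m + 1) .d * 1) ((true, z) : Bool × Om m) = _
    rw [mul_one]; rfl
  · show (gb (m + 1) .b * 1) ((true, z) : Bool × Om m) = _
    rw [mul_one]; rfl
  · show (gb (m + 1) .c * 1) ((true, z) : Bool × Om m) = _
    rw [mul_one]; rfl

private theorem grig1_lift_list (m : ℕ) (l : List Q4) (z : Om m) :
    ((l.flatMap grig1_lift).map (gq (m + 1))).prod ((true, z) : Bool × Om m) =
      ((true, (l.map (gq m)).prod z) : Bool × Om m) := by
  induction l with
  | nil => rfl
  | cons q l ih =>
    have h1 : (((q :: l).flatMap grig1_lift).map (gq (m + 1))).prod =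
        ((grig1_lift q).map (gq (m + 1))).prod *
          ((l.flatMap grig1_lift).map (gq (m + 1))).prod := by
      rw [List.flatMap_cons, List.map_append, List.prod_append]
    rw [h1]
    refine (congrArg (fun u => ((grig1_lift q).map (gq (m + 1))).prod u) ih).trans ?_
    exact grig1_lift_apply m q _

/-- transitivity on the level `m` -/
theorem gq_trans (m : ℕ) (x y : Om m) : ∃ l : List Q4, (l.map (gq m)).prod x = y := by
  induction m with
  | zero => exact ⟨[], rfl⟩
  | succ m ih =>
    obtain ⟨x₁, x'⟩ := x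
    obtain ⟨y₁, y'⟩ := y
    obtain ⟨l, hl⟩ := ih x' y'
    -- from `(x₁, x')` to `(true, x')`
    obtain ⟨l₁, h₁⟩ : ∃ l₁ : List Q4, (l₁.map (gq (m + 1))).prod ((x₁, x') : Bool × Om m) =
        ((true, x') : Bool × Om m) := by
      cases x₁
      · exact ⟨[.a], rfl⟩
      · exact ⟨[], rfl⟩
    obtain ⟨l₂, h₂⟩ : ∃ l₂ : List Q4, (l₂.map (gq (m + 1))).prod ((true, y') : Bool × Om m) =
        ((y₁, y') : Bool × Om m) := by
      cases y₁
      · exact ⟨[.a], rfl⟩
      · exact ⟨[], rfl⟩
    refine ⟨l₂ ++ (l.flatMap grig1_lift ++ l₁), ?_⟩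
    rw [List.map_append, List.prod_append, List.map_append, List.prod_append]
    have e1 := congrArg (fun u => ((l.flatMap grig1_lift).map (gq (m + 1))).prod u) h₁
    have e2 := grig1_lift_list m l x'
    rw [hl] at e2
    exact (congrArg (fun u => (l₂.map (gq (m + 1))).prod u) (e1.trans e2)).trans h₂

end Pool.Agent.Lib.MP_c23930_al
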