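import Pool.Agent.Lib.MP_c23930_al.Grig1

set_option autoImplicit false
open scoped Pointwise

namespace Pool.Agent.Lib.MP_c23930_al

theorem B4.wt_mul (g h : B4) : (g.mul h).wt ≤ g.wt + h.wt := by
  cases g <;> cases h <;> decide

theorem Grig2.wt_mulB (w : MW) (g : B4) : (w.mulB g).wt ≤ w.wt + g.wt := by
  cases w with
  | base h => exact B4.wt_mul h g
  | snoc w h =>
    have := B4.wt_mul h g
    simp only [MW.mulB, MW.wt]
    omega

theorem wt_mulQ (w : MW) (q : Q4) : (w.mulQ q).wt ≤ w.wt + 7 := by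
  cases q with
  | a =>
    simp only [MW.mulQ, MW.mulA, MW.wt, B4.wt]
    omega
  | b =>
    have := Grig2.wt_mulB w .b
    simp only [MW.mulQ, B4.wt] at *
    omega
  | c =>
    have := Grig2.wt_mulB w .c
    simp only [MW.mulQ, B4.wt] at *
    omega
  | d =>
    have := Grig2.wt_mulB w .d
    simp only [MW.mulQ, B4.wt] at *
    omega

theorem io_mulB (m : ℕ) (w : MW) (g : B4) (z : Om m) : (w.mulB g).io m z = w.io m z := by
  cases w <;> rfl

theorem io_mulA (m : ℕ) (w : MW) (z : Om m) : w.io m z ⊆ w.mulA.io m z :=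
  Finset.subset_union_left

theorem io_mulQ (m : ℕ) (w : MW) (q : Q4) (z : Om m) : w.io m z ⊆ (w.mulQ q).io m z := by
  cases q with
  | a => exact io_mulA m w z
  | b => exact (io_mulB m w .b z).symm.subset
  | c => exact (io_mulB m w .c z).symm.subset
  | d => exact (io_mulB m w .d z).symm.subset

theorem Grig2.gb_se (m : ℕ) (g : B4) (x : B4 × Bool × B4) (z : Om m) :
    gb m g (se m x z) = se m (g.mul x.1, x.2) z := by
  simp only [se, gb_mul, Equiv.Perm.mul_apply]

theorem ev_se_mem (m : ℕ) (w : MW) (x : B4 × Bool × B4) (z : Om m) :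
    w.ev m (se m x z) ∈ w.io m z := by
  cases w with
  | base g =>
    simp only [MW.ev, MW.io, Finset.mem_image, Finset.mem_univ, true_and]
    exact ⟨(g.mul x.1, x.2), (Grig2.gb_se m g x z).symm⟩
  | snoc w g =>
    simp only [MW.ev, MW.io, Finset.mem_union, Finset.mem_image, Finset.mem_univ, true_and]
    right
    refine ⟨(g.mul x.1, x.2), ?_⟩
    rw [← Grig2.gb_se m g x z]
    rfl

theorem Grig2.se_one (m : ℕ) : se m (.o, false, .o) = 1 := by
  simp [se, gb_o]

theorem ev_mem_io (m : ℕ) (w : MW) (z : Om m) : w.ev m z ∈ w.io m z := by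
  have h := ev_se_mem m w (.o, false, .o) z
  rw [Grig2.se_one] at h
  exact h

theorem Grig2.se_gq (m : ℕ) (q : Q4) : ∃ x, gq m q = se m x := by
  cases q with
  | a => exact ⟨(.o, true, .o), by simp [se, gb_o, gq]⟩
  | b => exact ⟨(.b, false, .o), by simp [se, gb_o, gq]⟩
  | c => exact ⟨(.c, false, .o), by simp [se, gb_o, gq]⟩
  | d => exact ⟨(.d, false, .o), by simp [se, gb_o, gq]⟩

theorem ev_gq_mem_io (m : ℕ) (w : MW) (q : Q4) (z : Om m) : w.ev m (gq m q z) ∈ w.io m z := by
  obtain ⟨x, hx⟩ := Grig2.se_gq m q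
  rw [hx]
  exact ev_se_mem m w x z

theorem Grig2.card_B : Fintype.card (B4 × Bool × B4) = 32 := by decide

theorem card_io (m : ℕ) (w : MW) (z : Om m) : 3 * (w.io m z).card ≤ 32 * (w.wt + 3) := by
  induction w with
  | base g =>
    have h : ((Finset.univ.image fun x : B4 × Bool × B4 => se m x z)).card ≤ 32 :=
      Finset.card_image_le.trans (by rw [Finset.card_univ, Grig2.card_B])
    simp only [MW.io, MW.wt]
    omega
  | snoc w g ih =>
    have h : ((Finset.univ.image fun x : B4 × Bool × B4 => (w.ev m * ga m) (se m x z))).card ≤ 32 :=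
      Finset.card_image_le.trans (by rw [Finset.card_univ, Grig2.card_B])
    have h2 := Finset.card_union_le (w.io m z)
      (Finset.univ.image fun x : B4 × Bool × B4 => (w.ev m * ga m) (se m x z))
    simp only [MW.io, MW.wt]
    omega

/-- the vertex `(v, y)` of level `m + 1` -/
def Grig2.pk (m : ℕ) (v : Bool) (y : Om m) : Om (m + 1) := ((v, y) : Bool × Om m)

open Grig2 (pk)

theorem Grig2.gb_succ (m : ℕ) (g : B4) (z₁ : Bool) (z' : Om m) :
    gb (m + 1) g (pk m z₁ z') =
      pk m z₁ ((cond z₁ (gb m g.rho) (cond g.om (ga m) 1)) z') := rfl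

theorem Grig2.ga_succ (m : ℕ) (z₁ : Bool) (z' : Om m) :
    ga (m + 1) (pk m z₁ z') = pk m (!z₁) z' := rfl

theorem Grig2.ev_sec' (m : ℕ) (w : MW) (z₁ : Bool) (z' : Om m) :
    w.ev (m + 1) (pk m z₁ z') = pk m (xor z₁ w.sg) ((w.sec (xor z₁ w.sg)).ev m z') := by
  induction w generalizing z₁ z' with
  | base g =>
    simp only [MW.ev, MW.sg, MW.sec, Bool.xor_false]
    rw [Grig2.gb_succ]
    cases z₁ <;> cases g <;> simp [MW.ev, B4.om, B4.rho, gb_o]
  | snoc w g ih =>
    have h1 : (MW.snoc w g).ev (m + 1) (pk m z₁ z') =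
        w.ev (m + 1) (ga (m + 1) (gb (m + 1) g (pk m z₁ z'))) := rfl
    rw [h1, Grig2.gb_succ, Grig2.ga_succ, ih]
    have h2 : xor (!z₁) w.sg = xor z₁ (!w.sg) := by cases z₁ <;> cases w.sg <;> rfl
    rw [h2]
    simp only [MW.sg, MW.sec]
    have h3 : xor (xor z₁ (!w.sg)) (!w.sg) = z₁ := by cases z₁ <;> cases w.sg <;> rfl
    rw [h3]
    cases z₁ with
    | true =>
      simp only [cond_true, ev_mulB, Equiv.Perm.mul_apply]
    | false =>
      simp only [cond_false]
      cases g.om with
      | true => simp only [cond_true, ev_mulA, Equiv.Perm.mul_apply]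
      | false => simp only [cond_false, Equiv.Perm.one_apply]

/-- the section formula: `w` maps `(z₁, z')` to `(v, w_v z')` with `v = z₁ + sg w` -/
theorem ev_sec (m : ℕ) (w : MW) (z₁ : Bool) (z' : Om m) :
    w.ev (m + 1) ((z₁, z') : Bool × Om m) =
      ((xor z₁ w.sg, (w.sec (xor z₁ w.sg)).ev m z') : Bool × Om m) :=
  Grig2.ev_sec' m w z₁ z'

theorem Grig2.se_succ (m : ℕ) (x : B4 × Bool × B4) (z₁ : Bool) (z' : Om m) :
    ∃ x' : B4 × Bool × B4, se (m + 1) x (pk m z₁ z') = pk m (xor z₁ x.2.1) (se m x' z') := by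
  obtain ⟨h, e, h'⟩ := x
  have key : se (m + 1) (h, e, h') (pk m z₁ z') =
      gb (m + 1) h ((cond e (ga (m + 1)) 1) (gb (m + 1) h' (pk m z₁ z'))) := rfl
  rw [key, Grig2.gb_succ]
  have se' : ∀ x : B4 × Bool × B4, se m x z' =
      gb m x.1 ((cond x.2.1 (ga m) 1) (gb m x.2.2 z')) := fun x => rfl
  cases e with
  | true =>
    simp only [cond_true]
    rw [Grig2.ga_succ, Grig2.gb_succ]
    cases z₁ with
    | false =>
      refine ⟨(h.rho, h'.om, .o), ?_⟩
      rw [se']
      simp [gb_o]
    | true =>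
      refine ⟨(.o, h.om, h'.rho), ?_⟩
      rw [se']
      simp [gb_o]
  | false =>
    simp only [cond_false, Equiv.Perm.one_apply]
    rw [Grig2.gb_succ]
    cases z₁ with
    | false =>
      refine ⟨(.o, xor h.om h'.om, .o), ?_⟩
      rw [se']
      have hs : ∀ u : Om m, ga m (ga m u) = u := fun u =>
        congrArg (fun f : Equiv.Perm (Om m) => f u) (ga_sq m)
      cases h.om <;> cases h'.om <;> simp [gb_o, hs]
    | true =>
      refine ⟨(h.rho.mul h'.rho, false, .o), ?_⟩
      rw [se']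
      simp [gb_o, gb_mul]

/-- the union of the two inverted orbits of the sections -/
def Grig2.U (m : ℕ) (w : MW) (z' : Om m) : Finset (Om (m + 1)) :=
  (((w.sec false).io m z').image fun y => ((false, y) : Bool × Om m)) ∪
    (((w.sec true).io m z').image fun y => ((true, y) : Bool × Om m))

theorem Grig2.mem_U (m : ℕ) (w : MW) (z' : Om m) (p : Om (m + 1)) :
    p ∈ Grig2.U m w z' ↔ ∃ v, ∃ y ∈ (w.sec v).io m z', pk m v y = p := by
  constructor
  · intro h
    rcases Finset.mem_union.1 h with h | h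
    · obtain ⟨y, hy, e⟩ := Finset.mem_image.1 h
      exact ⟨false, y, hy, e⟩
    · obtain ⟨y, hy, e⟩ := Finset.mem_image.1 h
      exact ⟨true, y, hy, e⟩
  · rintro ⟨v, y, hy, rfl⟩
    cases v with
    | false => exact Finset.mem_union_left _ (Finset.mem_image_of_mem _ hy)
    | true => exact Finset.mem_union_right _ (Finset.mem_image_of_mem _ hy)

theorem Grig2.io_sec_snoc (m : ℕ) (w : MW) (g : B4) (v : Bool) (z : Om m) :
    (w.sec v).io m z ⊆ ((MW.snoc w g).sec v).io m z := by
  simp only [MW.sec]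
  cases xor v (!w.sg) with
  | true => exact (io_mulB m _ _ z).symm.subset
  | false =>
    simp only [cond_false]
    cases g.om with
    | true => exact io_mulA m _ z
    | false => exact subset_rfl

theorem Grig2.io_sec_base (m : ℕ) (g : B4) (v : Bool) (x : B4 × Bool × B4) (z : Om m) :
    se m x z ∈ ((MW.base g).sec v).io m z := by
  have h : ∀ g : B4, se m x z ∈ (MW.base g).io m z := fun g =>
    Finset.mem_image_of_mem _ (Finset.mem_univ x)
  cases v with
  | true => exact h _
  | false =>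
    simp only [MW.sec, cond_false]
    cases g.om with
    | true => exact Finset.mem_union_left _ (h .o)
    | false => exact h _

theorem Grig2.io_sec' (m : ℕ) (w : MW) (z₁ : Bool) (z' : Om m) :
    w.io (m + 1) (pk m z₁ z') ⊆ Grig2.U m w z' := by
  induction w with
  | base g =>
    intro p hp
    obtain ⟨x, -, rfl⟩ := Finset.mem_image.1 hp
    obtain ⟨x', hx'⟩ := Grig2.se_succ m x z₁ z'
    rw [hx', Grig2.mem_U]
    exact ⟨_, _, Grig2.io_sec_base m g _ x' z', rfl⟩
  | snoc w g ih =>
    intro p hp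
    rw [Grig2.mem_U]
    rcases Finset.mem_union.1 hp with hp | hp
    · obtain ⟨v, y, hy, e⟩ := (Grig2.mem_U m w z' p).1 (ih hp)
      exact ⟨v, y, Grig2.io_sec_snoc m w g v z' hy, e⟩
    · obtain ⟨x, -, rfl⟩ := Finset.mem_image.1 hp
      obtain ⟨x', hx'⟩ := Grig2.se_succ m x z₁ z'
      rw [hx', Equiv.Perm.mul_apply, Grig2.ga_succ, Grig2.ev_sec']
      exact ⟨_, _, Grig2.io_sec_snoc m w g _ z' (ev_se_mem m _ x' z'), rfl⟩

theorem io_sec (m : ℕ) (w : MW) (z₁ : Bool) (z' : Om m) :
    w.io (m + 1) ((z₁, z') : Bool × Om m) ⊆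
      (((w.sec false).io m z').image fun y => ((false, y) : Bool × Om m)) ∪
        (((w.sec true).io m z').image fun y => ((true, y) : Bool × Om m)) :=
  Grig2.io_sec' m w z₁ z'

/-- contraction -/
theorem wt_sec (w : MW) : 10 * ((w.sec false).wt + (w.sec true).wt) ≤ 9 * (w.wt + 3) := by
  induction w with
  | base g => cases g <;> decide
  | snoc w g ih =>
    have hA : ∀ u : MW, u.mulA.wt = u.wt + 3 := fun u => rfl
    have h0 := Grig2.wt_mulB (w.sec false) g.rho
    have h1 := Grig2.wt_mulB (w.sec true) g.rho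
    have hg : 10 * (g.rho.wt + cond g.om 3 0) ≤ 9 * (g.wt + 3) := by
      cases g <;> decide
    have e0 : (cond g.om (w.sec false).mulA (w.sec false)).wt = (w.sec false).wt + cond g.om 3 0 := by
      cases g.om <;> rfl
    have e1 : (cond g.om (w.sec true).mulA (w.sec true)).wt = (w.sec true).wt + cond g.om 3 0 := by
      cases g.om <;> rfl
    simp only [MW.sec, MW.wt]
    cases hs : w.sg with
    | true =>
      simp only [Bool.not_true, Bool.xor_false, cond_true, cond_false, e0]
      omega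
    | false =>
      simp only [Bool.not_false, Bool.xor_true, Bool.not_true, cond_true, cond_false, e1]
      omega

end Pool.Agent.Lib.MP_c23930_al
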