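import Pool.Agent.Lib.MP_c23930_al.Defs

/-!
# A convenient form of soficity
-/

set_option autoImplicit false

namespace Pool.Agent.Lib.MP_c23930_al

open Finset

theorem Sofic.approx {G : Type} [Group G] (hG : Sofic G) (R : Finset G) (δ : ℝ) (hδ : 0 < δ) :
    ∃ (n : ℕ) (τ : G → Equiv.Perm (Fin n)) (Bad : Finset (Fin n)), 0 < n ∧
      (Bad.card : ℝ) ≤ δ * n ∧
      ∀ x, x ∉ Bad → (∀ g ∈ R, ∀ h ∈ R, τ (g * h) x = τ h (τ g x)) ∧
        (∀ g ∈ R, g ≠ 1 → τ g x ≠ x) ∧ τ 1 x = x := by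
  classical
  set F : Finset G := (insert 1 R).image (·⁻¹) with hF
  have h1F : (1 : G) ∈ F := by
    rw [hF, mem_image]; exact ⟨1, by simp, by simp⟩
  have hRF : ∀ g ∈ R, g⁻¹ ∈ F := fun g hg => by
    rw [hF, mem_image]; exact ⟨g, by simp [hg], rfl⟩
  have hFpos : 0 < F.card := card_pos.mpr ⟨1, h1F⟩
  set c : ℝ := (F.card : ℝ) * F.card + F.card with hc
  have hcpos : 0 < c := by
    have : (0 : ℝ) < F.card := by exact_mod_cast hFpos
    positivity
  obtain ⟨n, σ, hn, hmul, hfree⟩ := hG F (δ / c) (by positivity)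
  set B1 : Finset (Fin n) := (F ×ˢ F).biUnion fun p =>
    univ.filter fun x : Fin n => ¬ σ (p.1 * p.2) x = σ p.1 (σ p.2 x) with hB1
  set B2 : Finset (Fin n) := F.biUnion fun g =>
    if g = 1 then ∅ else univ.filter fun x : Fin n => ¬ σ g x ≠ x with hB2
  have hcard1 : ∀ p ∈ F ×ˢ F, ((univ.filter fun x : Fin n =>
      ¬ σ (p.1 * p.2) x = σ p.1 (σ p.2 x)).card : ℝ) ≤ δ / c * n := by
    intro p hp
    rw [mem_product] at hp
    have h := hmul p.1 hp.1 p.2 hp.2
    have h2 := card_filter_add_card_filter_not (s := (univ : Finset (Fin n)))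
      (fun x : Fin n => σ (p.1 * p.2) x = σ p.1 (σ p.2 x))
    rw [card_univ, Fintype.card_fin] at h2
    have h3 : (((univ.filter fun x : Fin n => σ (p.1 * p.2) x = σ p.1 (σ p.2 x)).card : ℝ)
      + (univ.filter fun x : Fin n => ¬ σ (p.1 * p.2) x = σ p.1 (σ p.2 x)).card) = n := by
      exact_mod_cast h2
    nlinarith [h, h3]
  have hcard2 : ∀ g ∈ F, ((if g = 1 then (∅ : Finset (Fin n)) else
      univ.filter fun x : Fin n => ¬ σ g x ≠ x).card : ℝ) ≤ δ / c * n := by
    intro g hg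
    split_ifs with hg1
    · simp only [card_empty, Nat.cast_zero]; positivity
    · have h := hfree g hg hg1
      have h2 := card_filter_add_card_filter_not (s := (univ : Finset (Fin n)))
        (fun x : Fin n => σ g x ≠ x)
      rw [card_univ, Fintype.card_fin] at h2
      have h3 : (((univ.filter fun x : Fin n => σ g x ≠ x).card : ℝ)
        + (univ.filter fun x : Fin n => ¬ σ g x ≠ x).card) = n := by
        exact_mod_cast h2
      nlinarith [h, h3]
  refine ⟨n, fun g => σ g⁻¹, B1 ∪ B2, hn, ?_, ?_⟩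
  · have hb1 : (B1.card : ℝ) ≤ (F.card : ℝ) * F.card * (δ / c * n) := by
      calc (B1.card : ℝ) ≤ ((∑ p ∈ F ×ˢ F, (univ.filter fun x : Fin n =>
              ¬ σ (p.1 * p.2) x = σ p.1 (σ p.2 x)).card : ℕ) : ℝ) := by
            exact_mod_cast card_biUnion_le
        _ = ∑ p ∈ F ×ˢ F, ((univ.filter fun x : Fin n =>
              ¬ σ (p.1 * p.2) x = σ p.1 (σ p.2 x)).card : ℝ) := by push_cast; rfl
        _ ≤ ∑ _p ∈ F ×ˢ F, δ / c * n := sum_le_sum hcard1
        _ = (F.card : ℝ) * F.card * (δ / c * n) := by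
            rw [sum_const, card_product, nsmul_eq_mul]; push_cast; ring
    have hb2 : (B2.card : ℝ) ≤ (F.card : ℝ) * (δ / c * n) := by
      calc (B2.card : ℝ) ≤ ((∑ g ∈ F, (if g = 1 then (∅ : Finset (Fin n)) else
              univ.filter fun x : Fin n => ¬ σ g x ≠ x).card : ℕ) : ℝ) := by
            exact_mod_cast card_biUnion_le
        _ = ∑ g ∈ F, ((if g = 1 then (∅ : Finset (Fin n)) else
              univ.filter fun x : Fin n => ¬ σ g x ≠ x).card : ℝ) := by push_cast; rfl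
        _ ≤ ∑ _g ∈ F, δ / c * n := sum_le_sum hcard2
        _ = (F.card : ℝ) * (δ / c * n) := by
            rw [sum_const, nsmul_eq_mul]
    have hu : ((B1 ∪ B2).card : ℝ) ≤ B1.card + B2.card := by
      exact_mod_cast card_union_le B1 B2
    have : (F.card : ℝ) * F.card * (δ / c * n) + (F.card : ℝ) * (δ / c * n) = δ * n := by
      rw [← add_mul, ← hc]; field_simp
    linarith
  · intro x hx
    rw [mem_union, not_or] at hx
    obtain ⟨hx1, hx2⟩ := hx
    have key : ∀ g ∈ F, ∀ h ∈ F, σ (g * h) x = σ g (σ h x) := by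
      intro g hg h hh
      by_contra hne
      exact hx1 (mem_biUnion.mpr ⟨(g, h), mem_product.mpr ⟨hg, hh⟩, mem_filter.mpr ⟨mem_univ _, hne⟩⟩)
    refine ⟨fun g hg h hh => ?_, fun g hg hg1 h => ?_, ?_⟩
    · have := key h⁻¹ (hRF h hh) g⁻¹ (hRF g hg)
      simpa [mul_inv_rev] using this
    · apply hx2
      refine mem_biUnion.mpr ⟨g⁻¹, hRF g hg, ?_⟩
      rw [if_neg (by simpa using hg1)]
      exact mem_filter.mpr ⟨mem_univ _, by simpa using h⟩
    · have := key 1 h1F 1 h1F
      rw [mul_one] at this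
      have h2 := (σ 1).injective this
      simpa using h2.symm

end Pool.Agent.Lib.MP_c23930_al
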