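import Pool.Agent.Lib.MP_c23930_al.BDefs

/-!
# B01: walls and labels
-/

set_option autoImplicit false

namespace Pool.Agent.Lib.MP_c23930_al

variable {Ω : Type}

namespace B01

open Pool.Agent.Lib.MP_60edde_al

/-- the Coxeter system -/
noncomputable abbrev cs (Ω : Type) : CoxeterSystem (crossM Ω) (Wg Ω) := (crossM Ω).toCoxeterSystem

theorem zmod_xor (a b : ZMod 2) : a + b = 1 ↔ Xor (a = 1) (b = 1) := by
  revert a b
  unfold Xor
  decide

theorem mem_lis (ω : List (Ω × Ω)) (t : Wg Ω) (h : crs ((cs Ω).wordProd ω) t) :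
    t ∈ (cs Ω).leftInvSeq ω := by
  unfold crs at h
  rw [← CoxeterSystem.wordProd_reverse] at h
  have h1 := eta_wordProd_ne_zero (cs Ω) ω.reverse t (by rw [h]; decide)
  rw [CoxeterSystem.rightInvSeq_reverse, List.mem_reverse] at h1
  exact h1

theorem crs_of_lt {w t : Wg Ω} (ht : (cs Ω).IsReflection t)
    (h : (cs Ω).length (t * w) < (cs Ω).length w) : crs w t := by
  unfold crs
  apply eta_of_length_lt (cs Ω) ht
  have : w⁻¹ * t = (t * w)⁻¹ := by rw [mul_inv_rev, ht.inv]
  rw [this, CoxeterSystem.length_inv, CoxeterSystem.length_inv]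
  exact h

theorem crs_of_mem_lis {ω : List (Ω × Ω)} (hω : (cs Ω).IsReduced ω) {t : Wg Ω}
    (h : t ∈ (cs Ω).leftInvSeq ω) : crs ((cs Ω).wordProd ω) t := by
  have h1 := (cs Ω).isLeftInversion_of_mem_leftInvSeq hω h
  exact crs_of_lt h1.1 h1.2

end B01

open B01 Pool.Agent.Lib.MP_60edde_al

theorem crs_one (t : Wg Ω) : ¬ crs 1 t := by
  unfold crs
  rw [inv_one, eta_one]
  decide

theorem crs_mul (x y t : Wg Ω) : crs (x * y) t ↔ Xor (crs x t) (crs y (x⁻¹ * t * x)) := by
  unfold crs
  rw [mul_inv_rev, eta_mul, inv_inv]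
  exact zmod_xor _ _

theorem crs_simple (p : Ω × Ω) (t : Wg Ω) : crs (sW p) t ↔ t = sW p := by
  unfold crs
  rw [sW_inv]
  have h := eta_simple (cs Ω) p t
  rw [show eta (crossM Ω).toCoxeterSystem (sW p) t = ind (t = sW p) from h]
  unfold ind
  split_ifs with h1 <;> simp [h1]

theorem LD_iff (w : Wg Ω) (p : Ω × Ω) : LD w p ↔ crs w (sW p) := by
  constructor
  · intro h
    exact crs_of_lt ((cs Ω).isReflection_simple p) h
  · intro h
    have h1 := length_lt_of_eta (cs Ω) h
    have : w⁻¹ * sW p = (sW p * w)⁻¹ := by rw [mul_inv_rev, sW_inv]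
    rw [this, CoxeterSystem.length_inv, CoxeterSystem.length_inv] at h1
    exact h1

theorem crs_prefix (w t : Wg Ω) (h : crs w t) : ∃ (x : Wg Ω) (p : Ω × Ω) (y : Wg Ω),
    w = x * sW p * y ∧ ell w = ell x + 1 + ell y ∧ t = x * sW p * x⁻¹ := by
  obtain ⟨ω, hω, rfl⟩ := (cs Ω).exists_isReduced w
  obtain ⟨j, hj, hj2⟩ := List.mem_iff_getElem.1 (mem_lis ω t h)
  have hj' : j < ω.length := by simpa using hj
  refine ⟨(cs Ω).wordProd (ω.take j), ω[j], (cs Ω).wordProd (ω.drop (j + 1)), ?_, ?_, ?_⟩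
  · have h1 : ω = ω.take j ++ ω[j] :: ω.drop (j + 1) := by
      rw [← List.drop_eq_getElem_cons hj', List.take_append_drop]
    conv_lhs => rw [h1]
    rw [CoxeterSystem.wordProd_append, CoxeterSystem.wordProd_cons, mul_assoc]
    rfl
  · have h1 : ell ((cs Ω).wordProd (ω.take j)) = j := by
      have := hω.take j
      unfold CoxeterSystem.IsReduced at this
      rw [List.length_take, min_eq_left hj'.le] at this
      exact this
    have h2 : ell ((cs Ω).wordProd (ω.drop (j + 1))) = ω.length - (j + 1) := by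
      have := hω.drop (j + 1)
      unfold CoxeterSystem.IsReduced at this
      rw [List.length_drop] at this
      exact this
    have h3 : ell ((cs Ω).wordProd ω) = ω.length := hω
    rw [h1, h2, h3]
    omega
  · rw [← hj2, CoxeterSystem.getElem_leftInvSeq _ _ _ hj']
    rfl

theorem label_unique (x y : Wg Ω) (p q : Ω × Ω) (h : x * sW p * x⁻¹ = y * sW q * y⁻¹) :
    p = q := by
  classical
  let f : Ω × Ω → Multiplicative (ZMod 2) := fun r => if r = p then Multiplicative.ofAdd 1 else 1
  have h1 : ∀ r, f r * f r = 1 := by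
    intro r
    simp only [f]
    split_ifs
    · decide
    · simp
  let F := liftW f h1 (fun _ _ _ _ => mul_comm _ _)
  have h2 := congrArg F h
  rw [map_mul, map_mul, map_inv, map_mul, map_mul, map_inv, mul_comm (F x), mul_comm (F y),
    mul_inv_cancel_right, mul_inv_cancel_right] at h2
  have h3 : F (sW p) = Multiplicative.ofAdd 1 := by
    rw [show F (sW p) = f p from liftW_s _ _ _ _]
    simp [f]
  have h4 : F (sW q) = if q = p then Multiplicative.ofAdd 1 else 1 :=
    liftW_s f h1 (fun _ _ _ _ => mul_comm _ _) q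
  rw [h3, h4] at h2
  by_contra hne
  rw [if_neg (fun h => hne h.symm)] at h2
  revert h2
  decide

theorem WA_iff (A : Set (Ω × Ω)) (w : Wg Ω) :
    w ∈ WA A ↔ ∀ x p, crs w (x * sW p * x⁻¹) → p ∈ A := by
  constructor
  · intro h
    unfold WA at h
    induction h using Subgroup.closure_induction with
    | mem w hw =>
      obtain ⟨a, ha, rfl⟩ := hw
      intro x p hx
      rw [crs_simple] at hx
      have : p = a := label_unique x 1 p a (by rw [hx]; simp)
      rw [this]
      exact ha
    | one =>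
      intro x p hx
      exact absurd hx (crs_one _)
    | mul v w _ _ hv hw =>
      intro x p hx
      rw [crs_mul] at hx
      rcases hx with ⟨h1, _⟩ | ⟨h1, _⟩
      · exact hv x p h1
      · refine hw (v⁻¹ * x) p ?_
        have : v⁻¹ * x * sW p * (v⁻¹ * x)⁻¹ = v⁻¹ * (x * sW p * x⁻¹) * v := by group
        rw [this]
        exact h1
    | inv w _ hw =>
      intro x p hx
      have h1 := crs_mul w⁻¹ w (x * sW p * x⁻¹)
      rw [inv_mul_cancel] at h1
      refine hw (w * x) p ?_
      have : w * x * sW p * (w * x)⁻¹ = w⁻¹⁻¹ * (x * sW p * x⁻¹) * w⁻¹ := by group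
      rw [this]
      by_contra hn
      exact crs_one _ (h1.mpr (Or.inl ⟨hx, hn⟩))
  · intro h
    obtain ⟨ω, hω, rfl⟩ := (cs Ω).exists_isReduced w
    have h1 : ∀ p ∈ ω, p ∈ A := by
      intro p hp
      obtain ⟨j, hj, rfl⟩ := List.mem_iff_getElem.1 hp
      have h2 : (cs Ω).wordProd (ω.take j) * sW ω[j] * ((cs Ω).wordProd (ω.take j))⁻¹ ∈
          (cs Ω).leftInvSeq ω := by
        have h3 := CoxeterSystem.getElem_leftInvSeq (cs Ω) ω j hj
        have h4 : (cs Ω).wordProd (ω.take j) * sW ω[j] * ((cs Ω).wordProd (ω.take j))⁻¹ =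
          ((cs Ω).leftInvSeq ω)[j]'(by simpa using hj) := h3.symm
        rw [h4]
        exact List.getElem_mem _
      exact h _ _ (crs_of_mem_lis hω h2)
    have h2 : ∀ l : List (Ω × Ω), (∀ p ∈ l, p ∈ A) → (cs Ω).wordProd l ∈ WA A := by
      intro l
      induction l with
      | nil => intro _; rw [CoxeterSystem.wordProd_nil]; exact one_mem _
      | cons p l ih =>
        intro hl
        rw [CoxeterSystem.wordProd_cons]
        refine mul_mem (Subgroup.subset_closure ⟨p, hl p (by simp), rfl⟩) (ih fun q hq => ?_)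
        exact hl q (by simp [hq])
    exact h2 ω h1

theorem crs_of_add (x y t : Wg Ω) (h : ell (x * y) = ell x + ell y) (ht : crs x t) :
    crs (x * y) t := by
  obtain ⟨ω, hω, rfl⟩ := (cs Ω).exists_isReduced x
  obtain ⟨ω', hω', rfl⟩ := (cs Ω).exists_isReduced y
  have h1 : (cs Ω).IsReduced (ω ++ ω') := by
    unfold CoxeterSystem.IsReduced at *
    rw [CoxeterSystem.wordProd_append, List.length_append, ← hω, ← hω']
    exact h
  rw [← CoxeterSystem.wordProd_append]
  apply crs_of_mem_lis h1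
  have h2 := mem_lis ω t ht
  have h3 := (cs Ω).leftInvSeq_take (ω ++ ω') ω.length
  rw [List.take_left' rfl] at h3
  rw [h3] at h2
  exact List.mem_of_mem_take h2

theorem WA_left (A : Set (Ω × Ω)) (x y : Wg Ω) (h : ell (x * y) = ell x + ell y)
    (hw : x * y ∈ WA A) : x ∈ WA A ∧ y ∈ WA A := by
  have hx : x ∈ WA A := by
    rw [WA_iff]
    intro z p hz
    exact (WA_iff A _).mp hw z p (crs_of_add x y _ h hz)
  refine ⟨hx, ?_⟩
  have := mul_mem (inv_mem hx) hw
  rwa [inv_mul_cancel_left] at this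

theorem ell_act (k : Kg Ω) (w : Wg Ω) : ell (actHomP k w) = ell w := by
  have h1 : ∀ (k : Kg Ω) (w : Wg Ω), ell (actHomP k w) ≤ ell w := by
    intro k w
    obtain ⟨ω, hω, rfl⟩ := (cs Ω).exists_isReduced w
    have h2 : ∀ l : List (Ω × Ω), actHomP k ((cs Ω).wordProd l) =
        (cs Ω).wordProd (l.map (kl k)) := by
      intro l
      induction l with
      | nil => simp
      | cons p l ih =>
        rw [CoxeterSystem.wordProd_cons, map_mul, ih, List.map_cons, CoxeterSystem.wordProd_cons]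
        rw [show actHomP k ((cs Ω).simple p) = (cs Ω).simple (kl k p) from actHomP_s k p]
    rw [h2]
    have h3 := (cs Ω).length_wordProd_le (ω.map (kl k))
    rw [List.length_map] at h3
    have h4 : ell ((cs Ω).wordProd ω) = ω.length := hω
    rw [h4]
    exact h3
  refine le_antisymm (h1 k w) ?_
  have h2 := h1 k⁻¹ (actHomP k w)
  rw [← actHomP_mul, inv_mul_cancel, actHomP_one] at h2
  exact h2

theorem WA_act (k : Kg Ω) (A : Set (Ω × Ω)) (w : Wg Ω) (h : w ∈ WA A) :
    actHomP k w ∈ WA (kl k '' A) := by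
  unfold WA at h
  induction h using Subgroup.closure_induction with
  | mem w hw =>
    obtain ⟨a, ha, rfl⟩ := hw
    rw [actHomP_s]
    exact Subgroup.subset_closure ⟨kl k a, ⟨a, ha, rfl⟩, rfl⟩
  | one => rw [map_one]; exact one_mem _
  | mul v w _ _ hv hw => rw [map_mul]; exact mul_mem hv hw
  | inv w _ hw => rw [map_inv]; exact inv_mem hw

theorem misses_act (k : Kg Ω) (w : Wg Ω) (e : Ω × Ω) (h : Misses w e) :
    Misses (actHomP k w) (kl k e) := by
  have h1 := WA_act k {p | p ≠ e} w h
  refine Subgroup.closure_mono (Set.image_mono ?_) h1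
  rintro _ ⟨p, hp, rfl⟩
  intro he
  apply hp
  unfold kl at he
  have h2 := Prod.ext_iff.mp he
  exact Prod.ext (k.1.injective h2.1) (k.2.injective h2.2)

theorem eq_one_of_crs (w : Wg Ω) (h : ∀ x p, ¬ crs w (x * sW p * x⁻¹)) : w = 1 := by
  by_contra hne
  obtain ⟨p, hp⟩ := (cs Ω).exists_leftDescent_of_ne_one hne
  have h1 : LD w p := hp
  rw [LD_iff] at h1
  apply h 1 p
  simpa using h1

end Pool.Agent.Lib.MP_c23930_al
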