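import Pool.Agent.Lib.MP_c23930_al.B01

/-!
# B02: descents
-/

set_option autoImplicit false

namespace Pool.Agent.Lib.MP_c23930_al

variable {Ω : Type}

namespace B02

open Classical in
/-- images of the letters in the infinite dihedral group -/
noncomputable def f (p q : Ω × Ω) (x : Ω × Ω) : DihedralGroup 0 :=
  if x = p then DihedralGroup.sr 0 else if x = q then DihedralGroup.sr 1 else 1

theorem f_sq (p q x : Ω × Ω) : f p q x * f p q x = 1 := by
  unfold f
  split_ifs <;> simp

theorem f_comm {p q : Ω × Ω} (h : nc p q) (x y : Ω × Ω) (h1 : x.1 ≠ y.1) (h2 : x.2 ≠ y.2) :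
    f p q x * f p q y = f p q y * f p q x := by
  obtain ⟨-, h'⟩ := h
  by_cases hx : x = p ∨ x = q
  · by_cases hy : y = p ∨ y = q
    · exfalso
      rcases hx with rfl | rfl
      · rcases hy with rfl | rfl
        · exact h1 rfl
        · exact h'.elim h1 h2
      · rcases hy with rfl | rfl
        · exact h'.elim (fun k => h1 k.symm) (fun k => h2 k.symm)
        · exact h1 rfl
    · have : f p q y = 1 := by
        unfold f
        rw [if_neg (fun k => hy (Or.inl k)), if_neg (fun k => hy (Or.inr k))]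
      rw [this, one_mul, mul_one]
  · have : f p q x = 1 := by
      unfold f
      rw [if_neg (fun k => hx (Or.inl k)), if_neg (fun k => hx (Or.inr k))]
    rw [this, one_mul, mul_one]

/-- alternating products -/
noncomputable def alt (p q : Ω × Ω) : ℕ → Wg Ω
  | 0 => 1
  | k + 1 => sW p * alt q p k

theorem alt_crs (k : ℕ) : ∀ (p q : Ω × Ω) (r : Wg Ω), crs (alt p q k) r →
    ∃ j : ℕ, r = (sW p * sW q) ^ j * sW p := by
  induction k with
  | zero => intro p q r h; exact absurd h (crs_one r)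
  | succ k ih =>
    intro p q r h
    have h' : crs (sW p * alt q p k) r := h
    rw [crs_mul] at h'
    rcases h' with ⟨h1, -⟩ | ⟨h1, -⟩
    · rw [crs_simple] at h1
      exact ⟨0, by simpa using h1⟩
    · obtain ⟨j, hj⟩ := ih q p _ h1
      refine ⟨j + 1, ?_⟩
      have e : r = sW p * ((sW q * sW p) ^ j * sW q) * sW p := by
        rw [← hj, sW_inv]
        simp only [mul_assoc, sW_mul_self, mul_one]
        rw [← mul_assoc, sW_mul_self, one_mul]
      have e2 : ∀ j : ℕ, sW p * ((sW q * sW p) ^ j) = (sW p * sW q) ^ j * sW p := by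
        intro j
        induction j with
        | zero => simp
        | succ j ih2 =>
          rw [pow_succ, ← mul_assoc, ih2, pow_succ]
          simp only [mul_assoc]
      rw [e, ← mul_assoc (sW p), e2, pow_succ]
      simp only [mul_assoc]

theorem alt_mem (p q : Ω × Ω) (b : Wg Ω) (h : b ∈ Subgroup.closure ({sW p, sW q} : Set (Wg Ω))) :
    (∃ k, b = alt p q k) ∨ ∃ k, b = alt q p k := by
  have key : ∀ (p q : Ω × Ω) (b : Wg Ω), ((∃ k, b = alt p q k) ∨ ∃ k, b = alt q p k) →
      ((∃ k, sW p * b = alt p q k) ∨ ∃ k, sW p * b = alt q p k) := by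
    intro p q b hb
    rcases hb with ⟨k, rfl⟩ | ⟨k, rfl⟩
    · cases k with
      | zero => exact Or.inl ⟨1, rfl⟩
      | succ k =>
        right
        refine ⟨k, ?_⟩
        show sW p * (sW p * alt q p k) = _
        rw [← mul_assoc, sW_mul_self, one_mul]
    · exact Or.inl ⟨k + 1, rfl⟩
  have key2 : ∀ x ∈ ({sW p, sW q} : Set (Wg Ω)), ∀ b : Wg Ω,
      ((∃ k, b = alt p q k) ∨ ∃ k, b = alt q p k) →
      ((∃ k, x * b = alt p q k) ∨ ∃ k, x * b = alt q p k) := by
    intro x hx b hb
    rcases hx with rfl | rfl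
    · exact key p q b hb
    · exact (key q p b hb.symm).symm
  induction h using Subgroup.closure_induction_left with
  | one => exact Or.inl ⟨0, rfl⟩
  | mul_left x hx y hy ih => exact key2 x hx y ih
  | inv_mul_cancel x hx y hy ih =>
    refine key2 _ ?_ y ih
    rcases hx with rfl | rfl
    · rw [sW_inv]; simp
    · rw [sW_inv]; simp

theorem ell_mul_le (x y : Wg Ω) : ell (x * y) ≤ ell x + ell y :=
  (crossM Ω).toCoxeterSystem.length_mul_le x y

theorem ell_lt_of_crs {v r : Wg Ω} (h : crs v r) : ell (r * v) < ell v := by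
  obtain ⟨x, p, y, e1, e2, e3⟩ := crs_prefix v r h
  have : r * v = x * y := by
    rw [e1, e3]
    calc x * sW p * x⁻¹ * (x * sW p * y) = x * (sW p * sW p) * y := by group
      _ = x * y := by rw [sW_mul_self, mul_one]
  rw [this, e2]
  have := ell_mul_le x y
  omega

theorem nc_symm {p q : Ω × Ω} (h : nc p q) : nc q p :=
  ⟨h.1.symm, h.2.imp Eq.symm Eq.symm⟩

end B02

theorem inf_order {p q : Ω × Ω} (h : nc p q) (m : ℕ) (hm : 0 < m) :
    (sW p * sW q) ^ m ≠ (1 : Wg Ω) := by
  intro e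
  have e2 := congrArg (liftW (B02.f p q) (B02.f_sq p q) (B02.f_comm h)) e
  rw [map_pow, map_mul, map_one, liftW_s, liftW_s] at e2
  have a : B02.f p q p = DihedralGroup.sr 0 := by simp [B02.f]
  have b : B02.f p q q = DihedralGroup.sr 1 := by
    have : q ≠ p := fun k => h.1 k.symm
    simp [B02.f, this]
  rw [a, b, DihedralGroup.sr_mul_sr] at e2
  rw [show (1 : ZMod 0) - 0 = 1 from rfl, DihedralGroup.r_one_pow] at e2
  rw [← DihedralGroup.r_zero] at e2
  have e3 : ((m : ℕ) : ZMod 0) = 0 := by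
    injection e2
  have e4 : ((m : ℕ) : ℤ) = 0 := e3
  omega

theorem not_both {u : Wg Ω} {p q : Ω × Ω} (h : nc p q) (h1 : LD u p) : ¬ LD u q := by
  intro h2
  rw [LD_iff] at h1 h2
  set D := Subgroup.closure ({sW p, sW q} : Set (Wg Ω)) with hD
  have hp : sW p ∈ D := Subgroup.subset_closure (by simp)
  have hq : sW q ∈ D := Subgroup.subset_closure (by simp)
  -- minimal element
  obtain ⟨b, hb, hmin⟩ : ∃ b ∈ D, ∀ c ∈ D, ell (b * u) ≤ ell (c * u) := by
    classical
    have hex : ∃ n, ∃ b ∈ D, ell (b * u) = n := ⟨_, 1, D.one_mem, rfl⟩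
    obtain ⟨b, hb, hbn⟩ := Nat.find_spec hex
    exact ⟨b, hb, fun c hc => hbn ▸ Nat.find_min' hex ⟨c, hc, rfl⟩⟩
  have hno : ∀ r ∈ D, ¬ crs (b * u) r := by
    intro r hr hc
    have := B02.ell_lt_of_crs hc
    have h3 := hmin (r * b) (D.mul_mem hr hb)
    rw [mul_assoc] at h3
    omega
  have hu : u = b⁻¹ * (b * u) := by group
  have key : ∀ r ∈ D, crs u r → crs b⁻¹ r := by
    intro r hr hc
    rw [hu, crs_mul] at hc
    rcases hc with ⟨h3, -⟩ | ⟨h3, -⟩
    · exact h3
    · exact absurd h3 (hno _ (by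
        refine D.mul_mem (D.mul_mem ?_ hr) ?_
        · rw [inv_inv]; exact hb
        · exact D.inv_mem hb))
  have k1 := key _ hp h1
  have k2 := key _ hq h2
  have fin : ∀ {p q : Ω × Ω}, nc p q → ∀ j : ℕ, sW q ≠ (sW p * sW q) ^ j * sW p := by
    intro p q h j e
    have : (sW p * sW q) ^ (j + 1) = (1 : Wg Ω) := by
      rw [pow_succ, ← mul_assoc, ← e, sW_mul_self]
    exact inf_order h _ (Nat.succ_pos j) this
  rcases B02.alt_mem p q b⁻¹ (D.inv_mem hb) with ⟨k, hk⟩ | ⟨k, hk⟩
  · rw [hk] at k2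
    obtain ⟨j, hj⟩ := B02.alt_crs k p q _ k2
    exact fin h j hj
  · rw [hk] at k1
    obtain ⟨j, hj⟩ := B02.alt_crs k q p _ k1
    exact fin (B02.nc_symm h) j hj

end Pool.Agent.Lib.MP_c23930_al
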