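import Pool.Agent.Lib.MP_c23930_al.B02

/-!
# B03: common prefixes
-/

set_option autoImplicit false

namespace Pool.Agent.Lib.MP_c23930_al

variable {Ω : Type}

namespace B03

theorem ell_one : ell (1 : Wg Ω) = 0 := (crossM Ω).toCoxeterSystem.length_one

theorem ell_s (p : Ω × Ω) : ell (sW p) = 1 := (crossM Ω).toCoxeterSystem.length_simple p

theorem eq_one_of_ell {w : Wg Ω} (h : ell w = 0) : w = 1 :=
  (crossM Ω).toCoxeterSystem.length_eq_zero_iff.1 h

theorem ell_inv (w : Wg Ω) : ell w⁻¹ = ell w := (crossM Ω).toCoxeterSystem.length_inv w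

/-- the length changes by one -/
theorem ell_s_mul (p : Ω × Ω) (w : Wg Ω) :
    ell (sW p * w) = ell w + 1 ∨ ell (sW p * w) + 1 = ell w :=
  (crossM Ω).toCoxeterSystem.length_simple_mul w p

theorem ell_add_of_not_LD {p : Ω × Ω} {w : Wg Ω} (h : ¬ LD w p) : ell (sW p * w) = ell w + 1 := by
  rcases ell_s_mul p w with h1 | h1
  · exact h1
  · exact absurd (show ell (sW p * w) < ell w by omega) h

theorem ell_of_LD {p : Ω × Ω} {w : Wg Ω} (h : LD w p) : ell (sW p * w) + 1 = ell w := by
  rcases ell_s_mul p w with h1 | h1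
  · have : ell (sW p * w) < ell w := h
    omega
  · exact h1

theorem exists_LD {w : Wg Ω} (h : w ≠ 1) : ∃ p, LD w p :=
  (crossM Ω).toCoxeterSystem.exists_leftDescent_of_ne_one h

theorem exists_right {w : Wg Ω} (h : w ≠ 1) : ∃ p w', w = w' * sW p ∧ ell w = ell w' + 1 := by
  obtain ⟨p, hp⟩ := exists_LD (inv_ne_one.2 h)
  refine ⟨p, w * sW p, ?_, ?_⟩
  · rw [mul_assoc, sW_mul_self, mul_one]
  · have h1 := ell_of_LD hp
    rw [← ell_inv w, ← h1, ← ell_inv (w * sW p), mul_inv_rev, sW_inv]

theorem cancel (p : Ω × Ω) (w : Wg Ω) : sW p * (sW p * w) = w := by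
  rw [← mul_assoc, sW_mul_self, one_mul]

theorem s_inj {p q : Ω × Ω} (h : sW p = sW q) : p = q :=
  label_unique 1 1 p q (by simpa using h)

theorem cm_comm {p q : Ω × Ω} (h : cm p q) : sW p * sW q = sW q * sW p := sW_comm h.1 h.2

theorem cm_ne {p q : Ω × Ω} (h : cm p q) : p ≠ q := fun e => h.1 (congrArg Prod.fst e)

theorem nc_or (p q : Ω × Ω) : p = q ∨ nc p q ∨ cm p q := by
  unfold nc cm
  tauto

theorem WA_comm {f : Ω × Ω} {w : Wg Ω} {A : Set (Ω × Ω)} (hA : ∀ x ∈ A, sW x * sW f = sW f * sW x)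
    (h : w ∈ WA A) : w * sW f = sW f * w := by
  have h1 : WA A ≤ Subgroup.centralizer ({sW f} : Set (Wg Ω)) := by
    unfold WA
    rw [Subgroup.closure_le]
    rintro _ ⟨x, hx, rfl⟩
    rw [SetLike.mem_coe, Subgroup.mem_centralizer_iff]
    rintro _ rfl
    exact (hA x hx).symm
  have h2 := h1 h
  rw [Subgroup.mem_centralizer_iff] at h2
  exact (h2 _ rfl).symm

theorem not_LD_s {p q : Ω × Ω} (h : p ≠ q) : ¬ LD (sW p) q := by
  rw [LD_iff, crs_simple]
  intro e
  exact h (s_inj e).symm

end B03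

open B03 in
theorem LD_E {q v : Wg Ω} {f : Ω × Ω} (h : ell (q * v) = ell q + ell v) (h1 : LD (q * v) f)
    (h2 : ¬ LD q f) : q ∈ WA {x | cm x f} ∧ LD v f := by
  obtain ⟨n, hn⟩ : ∃ n, ell q = n := ⟨_, rfl⟩
  induction n generalizing q v with
  | zero =>
    obtain rfl := eq_one_of_ell hn
    rw [one_mul] at h1
    exact ⟨Subgroup.one_mem _, h1⟩
  | succ n ih =>
    have hq : q ≠ 1 := by
      rintro rfl
      rw [ell_one] at hn
      omega
    obtain ⟨g, q1, e1, e2⟩ := exists_right hq
    have e3 : q * v = q1 * (sW g * v) := by rw [e1, mul_assoc]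
    have l1 := B02.ell_mul_le q1 (sW g * v)
    have l2 := B02.ell_mul_le (sW g) v
    rw [ell_s] at l2
    rw [← e3] at l1
    have l3 : ell (sW g * v) = ell v + 1 := by omega
    have l4 : ell (q1 * (sW g * v)) = ell q1 + ell (sW g * v) := by
      rw [← e3]; omega
    have n1 : ¬ LD q1 f := by
      intro k
      rw [LD_iff] at k
      apply h2
      rw [LD_iff, e1]
      refine crs_of_add q1 (sW g) _ ?_ k
      rw [← e1, ell_s]
      exact e2
    obtain ⟨i1, i2⟩ := ih l4 (by rw [← e3]; exact h1) n1 (by omega)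
    have hg : LD (sW g * v) g := by
      show ell (sW g * (sW g * v)) < _
      rw [cancel]; omega
    have hc1 : q1 * sW f = sW f * q1 := WA_comm (fun x hx => cm_comm hx) i1
    rcases nc_or g f with hgf | hgf | hgf
    · subst hgf
      exfalso
      apply h2
      show ell (sW g * q) < ell q
      rw [e1, hc1, cancel, ← hc1, ← e1]
      omega
    · exact absurd i2 (not_both hgf hg)
    · refine ⟨?_, ?_⟩
      · rw [e1]
        exact Subgroup.mul_mem _ i1 (Subgroup.subset_closure ⟨g, hgf, rfl⟩)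
      · rw [LD_iff, crs_mul] at i2
        rcases i2 with ⟨i3, -⟩ | ⟨i3, -⟩
        · rw [crs_simple] at i3
          exact absurd (s_inj i3).symm (cm_ne hgf)
        · rw [LD_iff]
          have : (sW g)⁻¹ * sW f * sW g = sW f := by
            rw [mul_assoc, ← cm_comm hgf, ← mul_assoc, inv_mul_cancel, one_mul]
          rwa [this] at i3

open B03 in
theorem no_common {a b : Wg Ω} (h : ∀ p, LD a p → ¬ LD b p) :
    ell (a⁻¹ * b) = ell a + ell b := by
  obtain ⟨n, hn⟩ : ∃ n, ell a = n := ⟨_, rfl⟩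
  induction n generalizing a b with
  | zero =>
    obtain rfl := eq_one_of_ell hn
    rw [ell_one, inv_one, one_mul, zero_add]
  | succ n ih =>
    have ha : a ≠ 1 := by
      rintro rfl
      rw [ell_one] at hn
      omega
    obtain ⟨g, hg⟩ := exists_LD ha
    have hb : ¬ LD b g := h g hg
    have e1 := ell_of_LD hg
    have e2 := ell_add_of_not_LD hb
    have e3 : a⁻¹ * b = (sW g * a)⁻¹ * (sW g * b) := by
      rw [mul_inv_rev, sW_inv, mul_assoc, cancel]
    have key : ∀ f, LD (sW g * a) f → ¬ LD (sW g * b) f := by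
      intro f h1 h2
      have hgf : g ≠ f := by
        rintro rfl
        have : ell (sW g * (sW g * a)) < ell (sW g * a) := h1
        rw [cancel] at this
        omega
      obtain ⟨i1, i2⟩ := LD_E (q := sW g) (v := b) (f := f) (by rw [e2, ell_s]; omega) h2
        (not_LD_s hgf)
      have hc : cm g f := by
        rw [WA_iff] at i1
        refine i1 1 g ?_
        rw [one_mul, inv_one, mul_one, crs_simple]
      refine h f ?_ i2
      have ea : a = sW g * (sW g * a) := (cancel g a).symm
      rw [LD_iff, ea, crs_mul]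
      right
      refine ⟨?_, ?_⟩
      · have : (sW g)⁻¹ * sW f * sW g = sW f := by
          rw [mul_assoc, ← cm_comm hc, ← mul_assoc, inv_mul_cancel, one_mul]
        rw [this, ← LD_iff]
        exact h1
      · rw [crs_simple]
        intro e
        exact hgf (s_inj e).symm
    have := ih key (by omega)
    rw [e3, this]
    omega

open B03 in
theorem common_not {a b : Wg Ω} (h : ell (a⁻¹ * b) = ell a + ell b) (p : Ω × Ω) (h1 : LD a p) :
    ¬ LD b p := by
  intro h2
  have e1 := ell_of_LD h1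
  have e2 := ell_of_LD h2
  have e3 : a⁻¹ * b = (sW p * a)⁻¹ * (sW p * b) := by
    rw [mul_inv_rev, sW_inv, mul_assoc, cancel]
  have l := B02.ell_mul_le (sW p * a)⁻¹ (sW p * b)
  rw [← e3, ell_inv] at l
  omega

open B03 in
theorem central {g : Wg Ω} {p q : Ω × Ω} (h : g * sW p * g⁻¹ = sW q) :
    p = q ∧ g ∈ WA {x | x = q ∨ cm x q} := by
  have hpq : p = q := label_unique g 1 p q (by rw [h]; simp)
  subst hpq
  refine ⟨rfl, ?_⟩
  have h' : g * sW p = sW p * g := by
    calc g * sW p = g * sW p * g⁻¹ * g := by group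
      _ = sW p * g := by rw [h]
  clear h
  by_cases hd : LD g p
  · -- remove the letter
    have hd' : ¬ LD (sW p * g) p := by
      intro k
      have k1 : ell (sW p * (sW p * g)) < ell (sW p * g) := k
      rw [cancel] at k1
      have := ell_of_LD hd
      omega
    have h2 : (sW p * g) * sW p = sW p * (sW p * g) := by rw [mul_assoc, h']
    have l1 := ell_add_of_not_LD hd'
    have l2 : ell ((sW p * g) * sW p) = ell (sW p * g) + ell (sW p) := by
      rw [h2, l1, ell_s]
    have l3 : LD ((sW p * g) * sW p) p := by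
      show ell (sW p * ((sW p * g) * sW p)) < _
      rw [h2, cancel]; omega
    have h3 := (LD_E l2 l3 hd').1
    have h4 : WA {x | cm x p} ≤ WA {x | x = p ∨ cm x p} :=
      Subgroup.closure_mono (Set.image_mono fun x hx => Or.inr hx)
    have h5 : sW p ∈ WA {x | x = p ∨ cm x p} := Subgroup.subset_closure ⟨p, Or.inl rfl, rfl⟩
    have h6 := Subgroup.mul_mem _ h5 (h4 h3)
    rwa [cancel] at h6
  · have l1 := ell_add_of_not_LD hd
    have l2 : ell (g * sW p) = ell g + ell (sW p) := by rw [h', l1, ell_s]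
    have l3 : LD (g * sW p) p := by
      show ell (sW p * (g * sW p)) < _
      rw [h', cancel]; omega
    have h3 := (LD_E l2 l3 hd).1
    have h4 : WA {x | cm x p} ≤ WA {x | x = p ∨ cm x p} :=
      Subgroup.closure_mono (Set.image_mono fun x hx => Or.inr hx)
    exact h4 h3

end Pool.Agent.Lib.MP_c23930_al
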