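import Pool.Agent.Lib.MP_c23930_al.B03

/-!
# B04: the axioms of a factor
-/

set_option autoImplicit false

namespace Pool.Agent.Lib.MP_c23930_al

namespace B04

variable {Ω : Type}

theorem ell_mul_le (x y : Wg Ω) : ell (x * y) ≤ ell x + ell y :=
  (B01.cs Ω).length_mul_le x y

theorem ell_inv (x : Wg Ω) : ell x⁻¹ = ell x := (B01.cs Ω).length_inv x

theorem ell_one : ell (1 : Wg Ω) = 0 := (B01.cs Ω).length_one

theorem LD_eq {w : Wg Ω} {p : Ω × Ω} (h : LD w p) : ell (sW p * w) + 1 = ell w :=
  (B01.cs Ω).isLeftDescent_iff.1 h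

theorem exists_LD {w : Wg Ω} (h : w ≠ 1) : ∃ p, LD w p := by
  obtain ⟨p, hp⟩ := (B01.cs Ω).exists_leftDescent_of_ne_one h
  exact ⟨p, hp⟩

theorem LD_of_add {x y : Wg Ω} {f : Ω × Ω} (h : ell (x * y) = ell x + ell y) (h1 : LD x f) :
    LD (x * y) f := by
  rw [LD_iff] at h1 ⊢
  exact crs_of_add _ _ _ h h1

theorem sW_cancel (p : Ω × Ω) (w : Wg Ω) : sW p * (sW p * w) = w := by
  rw [← mul_assoc, sW_mul_self, one_mul]

/-- longest common prefixes -/
theorem exists_lcp (n : ℕ) : ∀ (a c : Wg Ω), ell a ≤ n → ∃ q : Wg Ω,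
    ell a = ell q + ell (q⁻¹ * a) ∧ ell c = ell q + ell (q⁻¹ * c) ∧
      ∀ p, LD (q⁻¹ * a) p → ¬ LD (q⁻¹ * c) p := by
  induction n with
  | zero =>
    intro a c ha
    refine ⟨1, ?_, ?_, ?_⟩
    · rw [inv_one, one_mul, ell_one, zero_add]
    · rw [inv_one, one_mul, ell_one, zero_add]
    · intro p hp
      rw [inv_one, one_mul] at hp
      have := LD_eq hp
      omega
  | succ n ih =>
    intro a c ha
    by_cases h : ∃ p, LD a p ∧ LD c p
    · obtain ⟨p, h1, h2⟩ := h
      have e1 := LD_eq h1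
      have e2 := LD_eq h2
      obtain ⟨q, q1, q2, q3⟩ := ih (sW p * a) (sW p * c) (by omega)
      have f1 : (sW p * q)⁻¹ * a = q⁻¹ * (sW p * a) := by
        rw [mul_inv_rev, sW_inv, mul_assoc]
      have f2 : (sW p * q)⁻¹ * c = q⁻¹ * (sW p * c) := by
        rw [mul_inv_rev, sW_inv, mul_assoc]
      have g1 := ell_mul_le (sW p * q) ((sW p * q)⁻¹ * a)
      have g2 : ell (sW p * q) ≤ ell (sW p) + ell q := ell_mul_le _ _
      have g3 : ell (sW p : Wg Ω) = 1 := (B01.cs Ω).length_simple p
      rw [mul_inv_cancel_left] at g1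
      refine ⟨sW p * q, ?_, ?_, ?_⟩
      · rw [f1] at g1 ⊢
        omega
      · rw [f1] at g1
        rw [f2]
        omega
      · rw [f1, f2]
        exact q3
    · push Not at h
      refine ⟨1, ?_, ?_, ?_⟩
      · rw [inv_one, one_mul, ell_one, zero_add]
      · rw [inv_one, one_mul, ell_one, zero_add]
      · intro p hp
        rw [inv_one, one_mul] at hp ⊢
        exact h p hp

theorem misses_iff (w : Wg Ω) (e : Ω × Ω) : Misses w e ↔ w ∈ WA {p | p ≠ e} := Iff.rfl

theorem misses_one (e : Ω × Ω) : Misses (1 : Wg Ω) e := one_mem _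

theorem misses_inv {w : Wg Ω} {e : Ω × Ω} (h : Misses w e) : Misses w⁻¹ e := inv_mem h

theorem misses_simple {p e : Ω × Ω} (h : p ≠ e) : Misses (sW p : Wg Ω) e :=
  Subgroup.subset_closure ⟨p, h, rfl⟩

/-- the thin triangle property in the Coxeter group -/
theorem thin_W (e : Ω × Ω) (a b c : Wg Ω) (h : ell (a⁻¹ * b) = ell a + ell b) :
    ∃ (q : Wg Ω) (f : Ω × Ω), Misses q f ∧
      (ell ((q⁻¹ * a)⁻¹ * (q⁻¹ * c)) = ell (q⁻¹ * a) + ell (q⁻¹ * c) ∨
        ell ((q⁻¹ * c)⁻¹ * (q⁻¹ * b)) = ell (q⁻¹ * c) + ell (q⁻¹ * b)) := by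
  obtain ⟨q, q1, q2, q3⟩ := exists_lcp _ a c le_rfl
  obtain ⟨q', r1, r2, r3⟩ := exists_lcp _ c b le_rfl
  by_cases hq' : q' = 1
  · refine ⟨1, e, misses_one e, Or.inr ?_⟩
    rw [hq', inv_one] at r3
    rw [inv_one]
    exact no_common r3
  · obtain ⟨f, hf⟩ := exists_LD hq'
    have h1 : LD c f := by
      have := LD_of_add (x := q') (y := q'⁻¹ * c) (f := f) (by rw [mul_inv_cancel_left]; exact r1) hf
      rwa [mul_inv_cancel_left] at this
    have h2 : LD b f := by
      have := LD_of_add (x := q') (y := q'⁻¹ * b) (f := f) (by rw [mul_inv_cancel_left]; exact r2) hf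
      rwa [mul_inv_cancel_left] at this
    have h3 : ¬ LD a f := fun ha => common_not h f ha h2
    have h4 : ¬ LD q f := by
      intro hq
      apply h3
      have := LD_of_add (x := q) (y := q⁻¹ * a) (f := f) (by rw [mul_inv_cancel_left]; exact q1) hq
      rwa [mul_inv_cancel_left] at this
    have h5 := LD_E (q := q) (v := q⁻¹ * c) (f := f) (by rw [mul_inv_cancel_left]; exact q2)
      (by rw [mul_inv_cancel_left]; exact h1) h4
    refine ⟨q, f, ?_, Or.inl (no_common q3)⟩
    rw [misses_iff]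
    refine Subgroup.closure_mono (Set.image_mono ?_) h5.1
    intro x hx hxf
    exact hx.1 (by rw [hxf])

end B04

theorem fac_P (Ω : Type) [Fintype Ω] (h : 2 ≤ Fintype.card Ω) : Fac (shP Ω) (BP Ω) := by
  obtain ⟨x₀, y₀, hxy⟩ := Fintype.one_lt_card_iff.1 (show 1 < Fintype.card Ω by omega)
  have hinl : ∀ (q : Wg Ω) (a : Pg Ω), ((SemidirectProduct.inl q : Pg Ω)⁻¹ * a).left =
      q⁻¹ * a.left := by
    intro q a
    rw [← map_inv, SemidirectProduct.mul_left, SemidirectProduct.left_inl,
      SemidirectProduct.right_inl, map_one]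
    rfl
  constructor
  · exact ⟨(x₀, x₀), B04.misses_one _⟩
  · rintro g ⟨e, he⟩
    refine ⟨kl g.right⁻¹ e, ?_⟩
    rw [SemidirectProduct.inv_left]
    exact misses_act _ _ _ (B04.misses_inv he)
  · intro a b hab
    unfold BP at hab ⊢
    rw [← B04.ell_inv, mul_inv_rev, inv_inv, hab, add_comm]
  · intro a b c hab
    obtain ⟨q, f, hq, hh⟩ := B04.thin_W (x₀, x₀) a.left b.left c.left hab
    refine ⟨SemidirectProduct.inl q, ⟨f, ?_⟩, ?_⟩
    · rw [SemidirectProduct.left_inl]
      exact hq
    · unfold BP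
      rw [hinl, hinl, hinl]
      exact hh
  · rintro a g ⟨e, he⟩ hB
    unfold BP at hB
    rw [SemidirectProduct.mul_left, inv_mul_cancel_left] at hB
    have h1 : actK Ω a.right g.left ∈ WA {p | p ≠ kl a.right e} := misses_act _ _ _ he
    refine ⟨kl a.right e, ?_⟩
    have h2 := WA_left {p | p ≠ kl a.right e} a.left⁻¹ (a.left * actK Ω a.right g.left)
      (by rw [inv_mul_cancel_left, B04.ell_inv]; exact hB) (by rw [inv_mul_cancel_left]; exact h1)
    have h3 := inv_mem h2.1
    rw [inv_inv] at h3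
    exact h3
  · intro a
    obtain ⟨ω, hω, hw⟩ := (B01.cs Ω).exists_isReduced a.left
    have hother : ∀ p : Ω × Ω, ∃ e, p ≠ e := by
      intro p
      by_cases hp : p = (x₀, x₀)
      · refine ⟨(x₀, y₀), ?_⟩
        rw [hp]
        intro e
        exact hxy (Prod.mk.inj e).2
      · exact ⟨_, hp⟩
    have htake : ∀ i, i ≤ ω.length → ell ((B01.cs Ω).wordProd (ω.take i)) = i := by
      intro i hi
      have := hω.take i
      unfold CoxeterSystem.IsReduced at this
      rw [List.length_take, min_eq_left hi] at this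
      exact this
    have hdrop : ∀ i, i ≤ ω.length →
        ell (((B01.cs Ω).wordProd (ω.take i))⁻¹ * a.left) = ω.length - i := by
      intro i hi
      have h1 : a.left = (B01.cs Ω).wordProd (ω.take i) * (B01.cs Ω).wordProd (ω.drop i) := by
        rw [← CoxeterSystem.wordProd_append, List.take_append_drop]
        exact hw
      rw [h1, inv_mul_cancel_left]
      have := hω.drop i
      unfold CoxeterSystem.IsReduced at this
      rw [List.length_drop] at this
      exact this
    have hfull : ell a.left = ω.length := by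
      rw [hw]
      exact hω
    refine ⟨ω.length + 1, fun i => if i ≤ ω.length then
      SemidirectProduct.inl ((B01.cs Ω).wordProd (ω.take i)) else a, ?_, ?_, ?_, ?_⟩
    · beta_reduce
      rw [if_pos (Nat.zero_le _), List.take_zero, CoxeterSystem.wordProd_nil, map_one]
    · beta_reduce
      rw [if_neg (by omega)]
    · intro i hi
      have hi' : i ≤ ω.length := by omega
      beta_reduce
      rw [if_pos hi']
      rcases hi'.lt_or_eq with h1 | h1
      · rw [if_pos (by omega)]
        obtain ⟨e, he⟩ := hother ω[i]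
        refine ⟨e, ?_⟩
        rw [hinl, SemidirectProduct.left_inl]
        have h2 : (B01.cs Ω).wordProd (ω.take (i + 1)) =
            (B01.cs Ω).wordProd (ω.take i) * sW ω[i] := by
          have : ω.take (i + 1) = ω.take i ++ [ω[i]] := by
            rw [List.take_succ_eq_append_getElem h1]
          rw [this, CoxeterSystem.wordProd_append, CoxeterSystem.wordProd_singleton]
          rfl
        rw [h2, inv_mul_cancel_left]
        exact B04.misses_simple he
      · rw [if_neg (by omega)]
        refine ⟨(x₀, x₀), ?_⟩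
        rw [hinl, h1, List.take_length, hw, inv_mul_cancel]
        exact B04.misses_one _
    · intro i hi
      unfold BP
      beta_reduce
      by_cases hi' : i ≤ ω.length
      · rw [if_pos hi', hinl, ← map_inv, SemidirectProduct.left_inl, inv_inv, mul_inv_cancel_left,
          B04.ell_inv, hdrop i hi', htake i hi', hfull]
        omega
      · rw [if_neg hi', inv_mul_cancel]
        change ell ((a⁻¹).left⁻¹ * 1) = ell (a⁻¹).left + ell (1 : Wg Ω)
        rw [mul_one, B04.ell_inv, B04.ell_one, add_zero]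

end Pool.Agent.Lib.MP_c23930_al
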