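import Pool.Agent.Lib.MP_c23930_al.B03

/-!
# B05: rigid words
-/

set_option autoImplicit false

namespace Pool.Agent.Lib.MP_c23930_al

variable {Ω : Type}

variable {l : List (Ω × Ω)}

namespace B05

/-- product of a word -/
noncomputable def pr (l : List (Ω × Ω)) : Wg Ω := (l.map sW).prod

theorem pr_nil : pr ([] : List (Ω × Ω)) = 1 := by simp [pr]

theorem pr_cons (x : Ω × Ω) (l : List (Ω × Ω)) : pr (x :: l) = sW x * pr l := by simp [pr]

theorem pr_append (l l' : List (Ω × Ω)) : pr (l ++ l') = pr l * pr l' := by simp [pr]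

theorem pp_eq (l : List (Ω × Ω)) (j : ℕ) : pp l j = pr (l.take j) := rfl

theorem ell_ne (w : Wg Ω) (p : Ω × Ω) : ell (sW p * w) ≠ ell w :=
  (crossM Ω).toCoxeterSystem.length_simple_mul_ne w p

theorem ell_or (w : Wg Ω) (p : Ω × Ω) : ell (sW p * w) = ell w + 1 ∨ ell (sW p * w) + 1 = ell w :=
  (crossM Ω).toCoxeterSystem.length_simple_mul w p

theorem ell_one : ell (1 : Wg Ω) = 0 := (crossM Ω).toCoxeterSystem.length_one

theorem ell_inv (w : Wg Ω) : ell w⁻¹ = ell w := (crossM Ω).toCoxeterSystem.length_inv w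

theorem ell_s (p : Ω × Ω) : ell (sW p) = 1 := (crossM Ω).toCoxeterSystem.length_simple p

theorem ell_zero {w : Wg Ω} (h : ell w = 0) : w = 1 :=
  (crossM Ω).toCoxeterSystem.length_eq_zero_iff.1 h

theorem ss (p : Ω × Ω) (w : Wg Ω) : sW p * (sW p * w) = w := by
  rw [← mul_assoc, sW_mul_self, one_mul]

theorem not_LD_iff (w : Wg Ω) (p : Ω × Ω) : ¬ LD w p ↔ LD (sW p * w) p := by
  unfold LD
  rw [ss]
  have := ell_ne w p
  omega

theorem not_LD_one (p : Ω × Ω) : ¬ LD (1 : Wg Ω) p := by
  unfold LD
  rw [ell_one]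
  omega

theorem nc_symm {p q : Ω × Ω} (h : nc p q) : nc q p := by
  obtain ⟨h1, h2⟩ := h
  exact ⟨h1.symm, h2.imp Eq.symm Eq.symm⟩

theorem sW_inj {p q : Ω × Ω} (h : (sW p : Wg Ω) = sW q) : p = q :=
  label_unique 1 1 p q (by simpa using h)

theorem LD_first : ∀ (l : List (Ω × Ω)) (x : Ω × Ω), Rigid (x :: l) → LD (pr (x :: l)) x := by
  intro l
  induction l with
  | nil =>
    intro x _
    rw [pr_cons, ← not_LD_iff, pr_nil]
    exact not_LD_one x
  | cons y l ih =>
    intro x hr
    unfold Rigid at hr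
    rw [List.isChain_cons_cons] at hr
    rw [pr_cons, ← not_LD_iff]
    exact not_both (nc_symm hr.1) (ih y hr.2)

theorem ell_pr (l : List (Ω × Ω)) (hr : Rigid l) : ell (pr l) = l.length := by
  induction l with
  | nil => rw [pr_nil, ell_one]; rfl
  | cons x l ih =>
    have h1 := LD_first l x hr
    have h2 : Rigid l := List.IsChain.of_cons hr
    rw [pr_cons] at h1 ⊢
    unfold LD at h1
    rw [ss] at h1
    rcases ell_or (pr l) x with h3 | h3
    · rw [h3, ih h2, List.length_cons]
    · omega

theorem LD_head (l : List (Ω × Ω)) (hr : Rigid l) (f : Ω × Ω) (h : LD (pr l) f) :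
    l.head? = some f := by
  induction l with
  | nil =>
    rw [pr_nil] at h
    exact absurd h (not_LD_one f)
  | cons x l ih =>
    by_cases hfx : f = x
    · rw [hfx]; rfl
    · exfalso
      have h2 : Rigid l := List.IsChain.of_cons hr
      have e1 : ell (sW x * pr l) = ell (sW x) + ell (pr l) := by
        rw [ell_s, ← pr_cons, ell_pr _ hr, ell_pr _ h2, List.length_cons]
        ring
      rw [pr_cons] at h
      have e2 : ¬ LD (sW x) f := by
        intro h3
        unfold LD at h3
        rw [ell_s] at h3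
        have h4 : (sW f * sW x : Wg Ω) = 1 := ell_zero (by omega)
        have h5 : (sW f : Wg Ω) = sW x := by
          rw [mul_eq_one_iff_eq_inv, sW_inv] at h4
          exact h4
        exact hfx (sW_inj h5)
      obtain ⟨hq, hv⟩ := LD_E e1 h e2
      have hcm : cm x f := by
        have := (WA_iff _ _).1 hq 1 x
        rw [crs_simple] at this
        exact this (by simp)
      have h6 := ih h2 hv
      cases l with
      | nil => simp at h6
      | cons y l =>
        simp only [List.head?_cons, Option.some.injEq] at h6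
        subst h6
        unfold Rigid at hr
        rw [List.isChain_cons_cons] at hr
        obtain ⟨-, h7 | h7⟩ := hr.1
        · exact hcm.1 h7
        · exact hcm.2 h7

theorem rigid_sub (hl : Rigid l) (a b : ℕ) : Rigid ((l.take b).drop a) := by
  unfold Rigid at hl ⊢
  exact (hl.take b).drop a

theorem split_pp {a b : ℕ} (hab : a ≤ b) : pp l b = pp l a * pr ((l.take b).drop a) := by
  rw [pp_eq, pp_eq, ← pr_append]
  congr 1
  conv_lhs => rw [← List.take_append_drop a (l.take b)]
  rw [List.take_take, min_eq_left hab]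

theorem inv_pp {a b : ℕ} (hab : a ≤ b) : (pp l a)⁻¹ * pp l b = pr ((l.take b).drop a) := by
  rw [split_pp hab, inv_mul_cancel_left]

theorem pp_succ {j : ℕ} {x : Ω × Ω} (hx : l[j]? = some x) : pp l (j + 1) = pp l j * sW x := by
  rw [pp_eq, pp_eq, List.take_add_one, hx, pr_append]
  simp [pr]

theorem prefix_pr : ∀ (l : List (Ω × Ω)), Rigid l → ∀ w : Wg Ω,
    ell (pr l) = ell w + ell (w⁻¹ * pr l) → ∃ m ≤ l.length, w = pr (l.take m) := by
  intro l
  induction l with
  | nil =>
    intro _ w h
    rw [pr_nil, ell_one] at h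
    exact ⟨0, by simp, by rw [ell_zero (by omega : ell w = 0)]; simp [pr]⟩
  | cons x l ih =>
    intro hr w h
    by_cases hw : w = 1
    · exact ⟨0, by simp, by rw [hw]; simp [pr]⟩
    · obtain ⟨f, hf⟩ := (crossM Ω).toCoxeterSystem.exists_leftDescent_of_ne_one hw
      have hf' : LD w f := hf
      have h1 : crs (w * (w⁻¹ * pr (x :: l))) (sW f) :=
        crs_of_add _ _ _ (by rw [mul_inv_cancel_left]; exact h) ((LD_iff _ _).1 hf')
      rw [mul_inv_cancel_left, ← LD_iff] at h1
      have h2 := LD_head _ hr f h1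
      simp only [List.head?_cons, Option.some.injEq] at h2
      subst h2
      have hr' : Rigid l := List.IsChain.of_cons hr
      have h3 : ell (sW x * w) + 1 = ell w := by
        rcases ell_or w x with h4 | h4
        · unfold LD at hf'
          omega
        · exact h4
      have h4 : (sW x * w)⁻¹ * pr l = w⁻¹ * pr (x :: l) := by
        rw [mul_inv_rev, sW_inv, pr_cons, mul_assoc]
      obtain ⟨m, hm, e⟩ := ih hr' (sW x * w) (by
        rw [h4, ell_pr _ hr']
        rw [ell_pr _ hr, List.length_cons] at h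
        omega)
      refine ⟨m + 1, by simpa using hm, ?_⟩
      rw [List.take_succ_cons, pr_cons, ← e, ss]

end B05

open B05

theorem bey_mono (hl : Rigid l) {j : ℕ} {w : Wg Ω} (h : bey l (j + 1) w) : bey l j w := by
  obtain ⟨y, hy, h1⟩ := h
  have hlt : j + 1 < l.length := by
    by_contra hc
    rw [List.getElem?_eq_none (by omega)] at hy
    simp at hy
  have hx : l[j]? = some l[j] := List.getElem?_eq_getElem (by omega)
  refine ⟨l[j], hx, ?_⟩
  have hy' : l[j + 1] = y := by
    rw [List.getElem?_eq_getElem hlt] at hy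
    exact Option.some.inj hy
  have hnc : nc l[j] y := by
    unfold Rigid at hl
    rw [List.isChain_iff_getElem] at hl
    rw [← hy']
    exact hl j hlt
  rw [pp_succ hx, mul_inv_rev, sW_inv, mul_assoc] at h1
  have h2 := not_both (nc_symm hnc) h1
  rw [not_LD_iff, ss] at h2
  exact h2

theorem bey_le (hl : Rigid l) {i j : ℕ} (hij : i ≤ j) {w : Wg Ω} (h : bey l j w) : bey l i w := by
  induction j, hij using Nat.le_induction with
  | base => exact h
  | succ k hk ih => exact ih (bey_mono hl h)

theorem bey_pp (hl : Rigid l) (j m : ℕ) (hm : m ≤ l.length) : bey l j (pp l m) ↔ j < m := by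
  constructor
  · intro h
    by_contra hc
    have h1 := bey_le hl (not_lt.1 hc) h
    obtain ⟨x, -, hx⟩ := h1
    rw [inv_mul_cancel] at hx
    exact not_LD_one x hx
  · intro h
    have hj : j < l.length := by omega
    refine ⟨l[j], List.getElem?_eq_getElem hj, ?_⟩
    rw [inv_pp h.le]
    have hr := rigid_sub hl j m
    have hlen : j < (l.take m).length := by rw [List.length_take]; omega
    have e : (l.take m).drop j = l[j] :: (l.take m).drop (j + 1) := by
      rw [List.drop_eq_getElem_cons hlen]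
      simp
    rw [e] at hr ⊢
    exact LD_first _ _ hr

theorem ell_pp (hl : Rigid l) (a b : ℕ) (hab : a ≤ b) (hb : b ≤ l.length) :
    ell ((pp l a)⁻¹ * pp l b) = b - a := by
  rw [inv_pp hab, ell_pr _ (rigid_sub hl a b), List.length_drop, List.length_take,
    min_eq_left hb]

theorem bey_wall (hl : Rigid l) (j : ℕ) (w : Wg Ω) (x : Ω × Ω) (hx : l[j]? = some x) :
    bey l j w ↔ crs w (pp l j * sW x * (pp l j)⁻¹) := by
  have hlt : j < l.length := by
    by_contra hc
    rw [List.getElem?_eq_none (by omega)] at hx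
    simp at hx
  have h1 : bey l j w ↔ LD ((pp l j)⁻¹ * w) x := by
    constructor
    · rintro ⟨y, hy, h⟩
      rw [hx] at hy
      rw [Option.some.inj hy]
      exact h
    · intro h
      exact ⟨x, hx, h⟩
  have h2 : ¬ crs (pp l j)⁻¹ (sW x) := by
    rw [← LD_iff]
    unfold LD
    have e1 : sW x * (pp l j)⁻¹ = (pp l (j + 1))⁻¹ := by
      rw [pp_succ hx, mul_inv_rev, sW_inv]
    have e2 := ell_pp hl 0 (j + 1) (by omega) (by omega)
    have e3 := ell_pp hl 0 j (by omega) (by omega)
    have e0 : pp l 0 = 1 := by simp [pp]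
    rw [e0, inv_one, one_mul] at e2 e3
    rw [e1, ell_inv, ell_inv, e2, e3]
    omega
  rw [h1, LD_iff, crs_mul, inv_inv]
  simp only [Xor, h2, false_and, not_false_eq_true, and_true, false_or]

/-- intervals of rigid words are prefixes -/
theorem pp_interval (hl : Rigid l) (a b : ℕ) (ha : a ≤ l.length) (hb : b ≤ l.length) (w : Wg Ω)
    (h : ell ((pp l a)⁻¹ * pp l b) = ell ((pp l a)⁻¹ * w) + ell (w⁻¹ * pp l b)) :
    ∃ m ≤ l.length, w = pp l m := by
  have key : ∀ a b : ℕ, a ≤ b → b ≤ l.length →
      ell ((pp l a)⁻¹ * pp l b) = ell ((pp l a)⁻¹ * w) + ell (w⁻¹ * pp l b) →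
      ∃ m ≤ l.length, w = pp l m := by
    intro a b hab hb h
    have e : ((pp l a)⁻¹ * w)⁻¹ * pr ((l.take b).drop a) = w⁻¹ * pp l b := by
      rw [← inv_pp hab]
      group
    rw [inv_pp hab] at h
    obtain ⟨m, hm, hw⟩ := prefix_pr _ (rigid_sub hl a b) ((pp l a)⁻¹ * w) (by rw [e]; exact h)
    rw [List.length_drop, List.length_take, min_eq_left hb] at hm
    refine ⟨a + m, by omega, ?_⟩
    have hw' : w = pp l a * pr (((l.take b).drop a).take m) := by
      rw [← hw, mul_inv_cancel_left]
    rw [hw', split_pp (show a ≤ a + m by omega)]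
    congr 2
    rw [List.take_drop, List.take_take, min_eq_left (by omega)]
  rcases le_total a b with hab | hab
  · exact key a b hab hb h
  · refine key b a hab ha ?_
    have e1 : (pp l b)⁻¹ * pp l a = ((pp l a)⁻¹ * pp l b)⁻¹ := by group
    have e2 : (pp l b)⁻¹ * w = (w⁻¹ * pp l b)⁻¹ := by group
    have e3 : w⁻¹ * pp l a = ((pp l a)⁻¹ * w)⁻¹ := by group
    rw [e1, e2, e3, ell_inv, ell_inv, ell_inv, h]
    ring

theorem pp_act (k : Kg Ω) (l : List (Ω × Ω)) (j : ℕ) :
    actHomP k (pp l j) = pp (l.map (kl k)) j := by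
  unfold pp
  rw [map_list_prod, ← List.map_take, List.map_map, List.map_map]
  congr 1

theorem rigid_act (k : Kg Ω) (hl : Rigid l) : Rigid (l.map (kl k)) := by
  unfold Rigid at hl ⊢
  rw [List.isChain_map]
  refine hl.imp ?_
  rintro p q ⟨h1, h2⟩
  refine ⟨?_, ?_⟩
  · intro h
    apply h1
    have h3 : k.1 p.1 = k.1 q.1 := congrArg Prod.fst h
    have h4 : k.2 p.2 = k.2 q.2 := congrArg Prod.snd h
    exact Prod.ext (k.1.injective h3) (k.2.injective h4)
  · rcases h2 with h2 | h2
    · left
      change k.1 p.1 = k.1 q.1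
      rw [h2]
    · right
      change k.2 p.2 = k.2 q.2
      rw [h2]

end Pool.Agent.Lib.MP_c23930_al
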