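import Pool.Agent.Lib.MP_c23930_al.B05

/-!
# B06: common walls of two rigid words
-/

set_option autoImplicit false

namespace Pool.Agent.Lib.MP_c23930_al

variable {Ω : Type}

namespace B06

/-- the `m`-th wall of the word `l`, moved by `w` -/
noncomputable def wl (w : Wg Ω) (l : List (Ω × Ω)) (m : ℕ) : Wg Ω :=
  if h : m < l.length then (w * pp l m) * sW l[m] * (w * pp l m)⁻¹ else 1

theorem wl_eq (w : Wg Ω) (l : List (Ω × Ω)) (m : ℕ) (h : m < l.length) :
    wl w l m = (w * pp l m) * sW l[m] * (w * pp l m)⁻¹ := dif_pos h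

theorem pp_succ (l : List (Ω × Ω)) (m : ℕ) (h : m < l.length) :
    pp l (m + 1) = pp l m * sW l[m] := by
  unfold pp
  rw [List.map_take, List.map_take, List.prod_take_succ _ _ (by simpa using h)]
  simp

theorem crs_step (w : Wg Ω) (l : List (Ω × Ω)) (m : ℕ) (h : m < l.length) (t : Wg Ω) :
    crs (w * pp l (m + 1)) t ↔ Xor (crs (w * pp l m) t) (t = wl w l m) := by
  rw [pp_succ l m h, ← mul_assoc, crs_mul, crs_simple, wl_eq w l m h]
  have e : (w * pp l m)⁻¹ * t * (w * pp l m) = sW l[m] ↔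
      t = (w * pp l m) * sW l[m] * (w * pp l m)⁻¹ := by
    constructor
    · intro h'
      rw [← h']; group
    · intro h'
      rw [h']; group
  rw [e]

theorem sep_wall (w : Wg Ω) (l : List (Ω × Ω)) (a b : ℕ) (hab : a ≤ b) (hb : b ≤ l.length)
    (t : Wg Ω) (h : Xor (crs (w * pp l a) t) (crs (w * pp l b) t)) :
    ∃ m, a ≤ m ∧ m < b ∧ t = wl w l m := by
  induction b, hab using Nat.le_induction with
  | base =>
    exfalso
    rcases h with h | h
    · exact h.2 h.1
    · exact h.2 h.1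
  | succ b hab ih =>
    by_cases hX : Xor (crs (w * pp l a) t) (crs (w * pp l b) t)
    · obtain ⟨m, h1, h2, h3⟩ := ih (by omega) hX
      exact ⟨m, h1, by omega, h3⟩
    · refine ⟨b, hab, by omega, ?_⟩
      by_contra hne
      have h1 := crs_step w l b (by omega) t
      have h2 : crs (w * pp l (b + 1)) t ↔ crs (w * pp l b) t := by
        rw [h1]
        constructor
        · rintro (h | h)
          · exact h.1
          · exact absurd h.1 hne
        · intro h
          exact Or.inl ⟨h, hne⟩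
      rw [Xor, h2] at h
      exact hX h

theorem wall_eq (l : List (Ω × Ω)) (hl : Rigid l) (j : ℕ) (hj : j < l.length) (u : Wg Ω) :
    bey l j u ↔ crs u (wl 1 l j) := by
  rw [wl_eq 1 l j hj, one_mul]
  exact bey_wall hl j u l[j] (List.getElem?_eq_getElem hj)

theorem wl_conj (w : Wg Ω) (l : List (Ω × Ω)) (m : ℕ) (h : m < l.length) :
    wl w l m = w * wl 1 l m * w⁻¹ := by
  rw [wl_eq w l m h, wl_eq 1 l m h]; group

theorem wl_inj {l : List (Ω × Ω)} (hl : Rigid l) (w : Wg Ω) {i j : ℕ} (hi : i < l.length)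
    (hj : j < l.length) (h : wl w l i = wl w l j) : i = j := by
  rw [wl_conj w l i hi, wl_conj w l j hj] at h
  have h' : wl 1 l i = wl 1 l j := by
    have := congrArg (fun z => w⁻¹ * z * w) h
    simpa [mul_assoc] using this
  by_contra hne
  rcases Nat.lt_or_gt_of_ne hne with hlt | hlt
  · have h1 := (bey_pp hl i j hj.le).2 hlt
    have h2 : ¬ bey l j (pp l j) := fun h => absurd ((bey_pp hl j j hj.le).1 h) (lt_irrefl _)
    rw [wall_eq l hl i hi] at h1
    rw [wall_eq l hl j hj] at h2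
    rw [h'] at h1
    exact h2 h1
  · have h1 := (bey_pp hl j i hi.le).2 hlt
    have h2 : ¬ bey l i (pp l i) := fun h => absurd ((bey_pp hl i i hi.le).1 h) (lt_irrefl _)
    rw [wall_eq l hl j hj] at h1
    rw [wall_eq l hl i hi] at h2
    rw [h'] at h2
    exact h2 h1

/-- walls of `l'` moved by `w` separate `u`, `v` iff the walls of `l'` separate `w⁻¹ u`, `w⁻¹ v` -/
theorem sep_conj {l : List (Ω × Ω)} (hl : Rigid l) (w u v : Wg Ω) (m : ℕ) (hm : m < l.length) :
    Xor (bey l m (w⁻¹ * u)) (bey l m (w⁻¹ * v)) ↔ Xor (crs u (wl w l m)) (crs v (wl w l m)) := by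
  rw [wall_eq l hl m hm, wall_eq l hl m hm, crs_mul, crs_mul, inv_inv, ← wl_conj w l m hm]
  by_cases h1 : crs w⁻¹ (wl 1 l m) <;> by_cases h2 : crs u (wl w l m) <;>
    by_cases h3 : crs v (wl w l m) <;> simp [Xor, h1, h2, h3]

theorem no_between {l l' : List (Ω × Ω)} (hl : Rigid l) (hl' : Rigid l') (w : Wg Ω) (j : ℕ)
    (hj : j + 1 < l.length) (m₁ m₂ m : ℕ) (h1 : m₁ < m) (h2 : m < m₂) (hm₂ : m₂ < l'.length)
    (h : (wl w l' m₁ = wl 1 l j ∧ wl w l' m₂ = wl 1 l (j + 1)) ∨
      (wl w l' m₂ = wl 1 l j ∧ wl w l' m₁ = wl 1 l (j + 1))) : False := by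
  set u := pp l j with hu
  set v := pp l (j + 2) with hv
  have s0 : Xor (crs u (wl 1 l j)) (crs v (wl 1 l j)) := by
    rw [← wall_eq l hl j (by omega), ← wall_eq l hl j (by omega), hu, hv,
      bey_pp hl j j (by omega), bey_pp hl j (j + 2) (by omega)]
    exact Or.inr ⟨by omega, by omega⟩
  have s1 : Xor (crs u (wl 1 l (j + 1))) (crs v (wl 1 l (j + 1))) := by
    rw [← wall_eq l hl (j + 1) hj, ← wall_eq l hl (j + 1) hj, hu, hv,
      bey_pp hl (j + 1) j (by omega), bey_pp hl (j + 1) (j + 2) (by omega)]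
    exact Or.inr ⟨by omega, by omega⟩
  have a1 : Xor (bey l' m₁ (w⁻¹ * u)) (bey l' m₁ (w⁻¹ * v)) := by
    rw [sep_conj hl' w u v m₁ (by omega)]
    rcases h with h | h
    · rw [h.1]; exact s0
    · rw [h.2]; exact s1
  have a2 : Xor (bey l' m₂ (w⁻¹ * u)) (bey l' m₂ (w⁻¹ * v)) := by
    rw [sep_conj hl' w u v m₂ hm₂]
    rcases h with h | h
    · rw [h.2]; exact s1
    · rw [h.1]; exact s0
  have a3 : Xor (bey l' m (w⁻¹ * u)) (bey l' m (w⁻¹ * v)) := by
    have c1 : ∀ z, bey l' m z → bey l' m₁ z := fun z => bey_le hl' h1.le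
    have c2 : ∀ z, bey l' m₂ z → bey l' m z := fun z => bey_le hl' h2.le
    rcases a2 with ⟨b1, b2⟩ | ⟨b1, b2⟩
    · refine Or.inl ⟨c2 _ b1, fun b3 => ?_⟩
      rcases a1 with ⟨_, d⟩ | ⟨_, d⟩
      · exact d (c1 _ b3)
      · exact d (c1 _ (c2 _ b1))
    · refine Or.inr ⟨c2 _ b1, fun b3 => ?_⟩
      rcases a1 with ⟨_, d⟩ | ⟨_, d⟩
      · exact d (c1 _ (c2 _ b1))
      · exact d (c1 _ b3)
  rw [sep_conj hl' w u v m (by omega)] at a3
  have a4 : Xor (crs ((1 : Wg Ω) * pp l j) (wl w l' m)) (crs ((1 : Wg Ω) * pp l (j + 2)) (wl w l' m)) := by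
    rw [one_mul, one_mul]; exact a3
  obtain ⟨i, hi1, hi2, hi3⟩ := sep_wall 1 l j (j + 2) (by omega) (by omega) _ a4
  have hi : i = j ∨ i = j + 1 := by omega
  have key : wl w l' m = wl w l' m₁ ∨ wl w l' m = wl w l' m₂ := by
    rcases hi with rfl | rfl
    · rcases h with h | h
      · left; rw [hi3, h.1]
      · right; rw [hi3, h.1]
    · rcases h with h | h
      · right; rw [hi3, h.2]
      · left; rw [hi3, h.2]
  rcases key with k | k
  · have := wl_inj hl' w (by omega) (by omega) k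
    omega
  · have := wl_inj hl' w (by omega) (by omega) k
    omega

end B06

open B06

theorem times {l l' : List (Ω × Ω)} (hl : Rigid l) (hl' : Rigid l') (w : Wg Ω) (a b j₁ j₂ : ℕ)
    (hab : a < b) (hb : b ≤ l'.length) (hj : j₁ < j₂) (hj2 : j₂ < l.length)
    (hsep : ∀ j, j₁ ≤ j → j ≤ j₂ →
      (bey l j (w * pp l' a) ↔ ¬ bey l j (w * pp l' b))) :
    (∃ s, ∀ j, j₁ ≤ j → j ≤ j₂ → ∃ x, l[j]? = some x ∧ l'[s + (j - j₁)]? = some x ∧
      pp l j * sW x * (pp l j)⁻¹ =
        (w * pp l' (s + (j - j₁))) * sW x * (w * pp l' (s + (j - j₁)))⁻¹) ∨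
    ∃ s, j₂ - j₁ ≤ s ∧ ∀ j, j₁ ≤ j → j ≤ j₂ → ∃ x, l[j]? = some x ∧
      l'[s - (j - j₁)]? = some x := by
  have hex : ∀ j, ∃ m, j₁ ≤ j → j ≤ j₂ → a ≤ m ∧ m < b ∧ wl 1 l j = wl w l' m := by
    intro j
    by_cases h1 : j₁ ≤ j
    · by_cases h2 : j ≤ j₂
      · have hX : Xor (crs (w * pp l' a) (wl 1 l j)) (crs (w * pp l' b) (wl 1 l j)) := by
          rw [← wall_eq l hl j (by omega), ← wall_eq l hl j (by omega)]
          have := hsep j h1 h2
          by_cases h3 : bey l j (w * pp l' b)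
          · exact Or.inr ⟨h3, fun h => (this.1 h) h3⟩
          · exact Or.inl ⟨this.2 h3, h3⟩
        obtain ⟨m, h3, h4, h5⟩ := sep_wall w l' a b hab.le hb _ hX
        exact ⟨m, fun _ _ => ⟨h3, h4, h5⟩⟩
      · exact ⟨0, fun _ h => absurd h h2⟩
    · exact ⟨0, fun h => absurd h h1⟩
  choose τ hτ using hex
  have hlab : ∀ j, (h1 : j₁ ≤ j) → (h2 : j ≤ j₂) → ∃ x, l[j]? = some x ∧ l'[τ j]? = some x ∧
      pp l j * sW x * (pp l j)⁻¹ = (w * pp l' (τ j)) * sW x * (w * pp l' (τ j))⁻¹ := by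
    intro j h1 h2
    obtain ⟨h3, h4, h5⟩ := hτ j h1 h2
    have h6 : j < l.length := by omega
    have h7 : τ j < l'.length := by omega
    rw [wl_eq 1 l j h6, wl_eq w l' (τ j) h7, one_mul] at h5
    have h8 : l[j] = l'[τ j] := label_unique _ _ _ _ h5
    refine ⟨l[j], List.getElem?_eq_getElem h6, ?_, ?_⟩
    · rw [h8]; exact List.getElem?_eq_getElem h7
    · rw [h5, h8]
  have hinj : ∀ i j, j₁ ≤ i → i ≤ j₂ → j₁ ≤ j → j ≤ j₂ → τ i = τ j → i = j := by
    intro i j h1 h2 h3 h4 h5
    have e : wl 1 l i = wl 1 l j := by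
      rw [(hτ i h1 h2).2.2, (hτ j h3 h4).2.2, h5]
    exact wl_inj hl 1 (by omega) (by omega) e
  have hstep : ∀ j, j₁ ≤ j → j < j₂ → τ (j + 1) = τ j + 1 ∨ τ (j + 1) + 1 = τ j := by
    intro j h1 h2
    have hne : τ (j + 1) ≠ τ j := fun h => by
      have := hinj _ _ (by omega) (by omega) h1 (by omega) h
      omega
    obtain ⟨c1, c2, c3⟩ := hτ j h1 (by omega)
    obtain ⟨d1, d2, d3⟩ := hτ (j + 1) (by omega) (by omega)
    by_contra hcon
    push Not at hcon
    rcases Nat.lt_or_gt_of_ne hne with hlt | hlt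
    · exact no_between hl hl' w j (by omega) (τ (j + 1)) (τ j) (τ (j + 1) + 1) (by omega)
        (by omega) (by omega) (Or.inr ⟨c3.symm, d3.symm⟩)
    · exact no_between hl hl' w j (by omega) (τ j) (τ (j + 1)) (τ j + 1) (by omega)
        (by omega) (by omega) (Or.inl ⟨c3.symm, d3.symm⟩)
  rcases hstep j₁ le_rfl hj with h0 | h0
  · left
    refine ⟨τ j₁, ?_⟩
    have hmono : ∀ d, j₁ + d ≤ j₂ → τ (j₁ + d) = τ j₁ + d := by
      intro d
      induction d using Nat.strong_induction_on with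
      | _ d ih =>
        intro hd
        match d with
        | 0 => simp
        | 1 => exact h0
        | d + 2 =>
          have e1 := ih d (by omega) (by omega)
          have e2 := ih (d + 1) (by omega) (by omega)
          rcases hstep (j₁ + (d + 1)) (by omega) (by omega) with h | h
          · rw [show j₁ + (d + 2) = j₁ + (d + 1) + 1 by omega, h, e2]; omega
          · exfalso
            have := hinj (j₁ + (d + 1) + 1) (j₁ + d) (by omega) (by omega) (by omega) (by omega)
              (by omega)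
            omega
    intro j h1 h2
    have e := hmono (j - j₁) (by omega)
    rw [show j₁ + (j - j₁) = j by omega] at e
    rw [← e]
    exact hlab j h1 h2
  · right
    have hmono : ∀ d, j₁ + d ≤ j₂ → τ (j₁ + d) + d = τ j₁ := by
      intro d
      induction d using Nat.strong_induction_on with
      | _ d ih =>
        intro hd
        match d with
        | 0 => simp
        | 1 => exact h0
        | d + 2 =>
          have e1 := ih d (by omega) (by omega)
          have e2 := ih (d + 1) (by omega) (by omega)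
          rcases hstep (j₁ + (d + 1)) (by omega) (by omega) with h | h
          · exfalso
            have := hinj (j₁ + (d + 1) + 1) (j₁ + d) (by omega) (by omega) (by omega) (by omega)
              (by omega)
            omega
          · rw [show j₁ + (d + 2) = j₁ + (d + 1) + 1 by omega]; omega
    refine ⟨τ j₁, ?_, ?_⟩
    · have := hmono (j₂ - j₁) (by omega)
      omega
    · intro j h1 h2
      have e := hmono (j - j₁) (by omega)
      rw [show j₁ + (j - j₁) = j by omega] at e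
      rw [show τ j₁ - (j - j₁) = τ j by omega]
      obtain ⟨x, c1, c2, _⟩ := hlab j h1 h2
      exact ⟨x, c1, c2⟩

end Pool.Agent.Lib.MP_c23930_al
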