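import Pool.Agent.Lib.MP_c23930_al.BDefs

/-!
# B07: the long words (combinatorics of lists)
-/

set_option autoImplicit false

namespace Pool.Agent.Lib.MP_c23930_al

variable {Ω : Type}

namespace B07

theorem nc_symm {p q : Ω × Ω} (h : nc p q) : nc q p :=
  ⟨h.1.symm, h.2.imp Eq.symm Eq.symm⟩

/-- rigid walk from `p` to `q` avoiding `o` -/
def Wk (o p : Ω × Ω) (l : List (Ω × Ω)) (q : Ω × Ω) : Prop :=
  (p :: l).IsChain nc ∧ o ∉ p :: l ∧ (p :: l).getLast? = some q

theorem Wk.append {o p a q : Ω × Ω} {l l' : List (Ω × Ω)} (h : Wk o p l a) (h' : Wk o a l' q) :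
    Wk o p (l ++ l') q := by
  obtain ⟨h1, h2, h3⟩ := h
  obtain ⟨h1', h2', h3'⟩ := h'
  refine ⟨?_, ?_, ?_⟩
  · rw [← List.cons_append, List.isChain_append]
    refine ⟨h1, h1'.tail, ?_⟩
    intro x hx y hy
    rw [h3] at hx
    cases hx
    exact h1'.rel_head? hy
  · rw [← List.cons_append, List.mem_append]
    rintro (h | h)
    · exact h2 h
    · exact h2' (List.mem_cons_of_mem _ h)
  · rw [← List.cons_append, List.getLast?_append, h3]
    rw [List.getLast?_cons] at h3'
    cases hl : l'.getLast? with
    | none => rw [hl] at h3'; simpa using h3'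
    | some z => rw [hl] at h3'; simpa using h3'

theorem wk_pair {o p q : Ω × Ω} (hp : p ≠ o) (hq : q ≠ o) (h : nc p q) : Wk o p [q] q :=
  ⟨by simpa using h, by simp [hp.symm, hq.symm], by simp⟩

theorem wk_exists {o p q : Ω × Ω} (hp : p ≠ o) (hq : q ≠ o) : ∃ l, Wk o p l q := by
  by_cases hpq : p = q
  · subst hpq
    exact ⟨[], by simp, by simp [hp.symm], by simp⟩
  by_cases h : nc p q
  · exact ⟨[q], wk_pair hp hq h⟩
  have h1 : p.1 ≠ q.1 := fun e => h ⟨hpq, Or.inl e⟩
  have h2 : p.2 ≠ q.2 := fun e => h ⟨hpq, Or.inr e⟩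
  by_cases hm : (p.1, q.2) = o
  · have hm' : (q.1, p.2) ≠ o := by
      intro e
      rw [← hm] at e
      exact h1 (congrArg Prod.fst e).symm
    have a1 : nc p (q.1, p.2) := ⟨fun e => h1 (by rw [e]), Or.inr rfl⟩
    have a2 : nc (q.1, p.2) q := ⟨fun e => h2 (by rw [← e]), Or.inl rfl⟩
    exact ⟨_, (wk_pair hp hm' a1).append (wk_pair hm' hq a2)⟩
  · have a1 : nc p (p.1, q.2) := ⟨fun e => h2 (by rw [e]), Or.inl rfl⟩
    have a2 : nc (p.1, q.2) q := ⟨fun e => h1 (by rw [← e]), Or.inr rfl⟩
    exact ⟨_, (wk_pair hp hm a1).append (wk_pair hm hq a2)⟩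

theorem wk_cover {o : Ω × Ω} (L : List (Ω × Ω)) (hL : o ∉ L) :
    ∀ p q : Ω × Ω, p ≠ o → q ≠ o → ∃ l, Wk o p l q ∧ ∀ x ∈ L, x ∈ p :: l := by
  induction L with
  | nil =>
    intro p q hp hq
    obtain ⟨l, hl⟩ := wk_exists hp hq
    exact ⟨l, hl, by simp⟩
  | cons a L ih =>
    intro p q hp hq
    have ha : a ≠ o := fun e => hL (by rw [e]; exact List.mem_cons_self)
    obtain ⟨l₁, h₁⟩ := wk_exists hp ha
    obtain ⟨l₂, h₂, h₃⟩ := ih (fun h => hL (List.mem_cons_of_mem _ h)) a q ha hq
    refine ⟨l₁ ++ l₂, h₁.append h₂, fun x hx => ?_⟩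
    have hmem : ∀ x, x ∈ a :: l₂ → x ∈ p :: (l₁ ++ l₂) := by
      intro x hx
      rw [← List.cons_append, List.mem_append]
      rcases List.mem_cons.1 hx with rfl | hx
      · exact Or.inl (List.mem_of_getLast? h₁.2.2)
      · exact Or.inr hx
    rcases List.mem_cons.1 hx with rfl | hx
    · exact hmem _ List.mem_cons_self
    · exact hmem _ (h₃ x hx)

end B07

open B07

theorem exists_cov (Ω : Type) [Fintype Ω] (h : 2 ≤ Fintype.card Ω) :
    ∃ (C : List (Ω × Ω)) (e f : Ω × Ω), Cov C e f := by
  classical
  obtain ⟨v, w, hvw⟩ := Fintype.exists_pair_of_one_lt_card (α := Ω) (by omega)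
  have hfo : ((v, w) : Ω × Ω) ≠ (v, v) := fun e => hvw (congrArg Prod.snd e).symm
  have hzo : ((w, v) : Ω × Ω) ≠ (v, v) := fun e => hvw (congrArg Prod.fst e).symm
  obtain ⟨l, ⟨h1, h2, h3⟩, h4⟩ := wk_cover (o := ((v, v) : Ω × Ω))
    (((Finset.univ : Finset (Ω × Ω)).erase (v, v)).toList) (by simp) (v, w) (w, v) hfo hzo
  refine ⟨(v, v) :: (v, w) :: l, (w, w), (v, w), ?_⟩
  refine ⟨?_, ?_, ?_, ?_, ?_, ?_, ?_⟩
  · show List.IsChain nc ((v, v) :: (v, w) :: l)
    rw [List.isChain_cons_cons]
    exact ⟨⟨hfo.symm, Or.inl rfl⟩, h1⟩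
  · intro x
    by_cases hx : x = (v, v)
    · rw [hx]; exact List.mem_cons_self
    · exact List.mem_cons_of_mem _ (h4 x (by simp [hx]))
  · exact ⟨fun e => hvw (congrArg Prod.fst e).symm, Or.inr rfl⟩
  · intro x hx
    simp only [List.head?_cons, Option.some.injEq] at hx
    subst hx
    exact ⟨⟨hfo.symm, Or.inl rfl⟩, fun e => hvw (congrArg Prod.fst e)⟩
  · intro x hx
    rw [List.getLast?_cons_cons, h3] at hx
    simp only [Option.some.injEq] at hx
    subst hx
    exact ⟨⟨fun e => hvw (congrArg Prod.snd e), Or.inl rfl⟩,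
      fun e => hvw (congrArg Prod.fst e).symm⟩
  · refine ⟨[(v, v)], (v, w) :: l, rfl, ⟨(v, w), by simpa using hfo⟩, (v, v), h2⟩
  · exact ⟨(v, v), fun e => hvw (congrArg Prod.fst e), hfo.symm⟩

variable {C : List (Ω × Ω)} {e f : Ω × Ω}

theorem cp_succ (C : List (Ω × Ω)) (n k i : ℕ) :
    cp C n k (i + 1) = cp C n k i + C.length + 2 * mi C n k i := by
  unfold cp
  rw [Finset.sum_range_succ, Nat.add_assoc]

namespace B07

theorem length_run (e f : Ω × Ω) (m : ℕ) : (run e f m).length = 2 * m := by
  unfold run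
  induction m with
  | zero => simp
  | succ m ih =>
    rw [List.replicate_succ, List.flatten_cons, List.length_append, ih]
    simp only [List.length_cons, List.length_nil]
    omega

theorem run_succ (e f : Ω × Ω) (m : ℕ) : run e f (m + 1) = e :: f :: run e f m := by
  unfold run
  rw [List.replicate_succ, List.flatten_cons]
  rfl

theorem run_get (e f : Ω × Ω) (m t : ℕ) (ht : t < 2 * m) :
    (run e f m)[t]? = some (if t % 2 = 0 then e else f) := by
  induction m generalizing t with
  | zero => omega
  | succ m ih =>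
    rw [run_succ]
    match t with
    | 0 => simp
    | 1 => simp
    | t + 2 =>
      rw [List.getElem?_cons_succ, List.getElem?_cons_succ, ih t (by omega)]
      have : (t + 2) % 2 = t % 2 := by omega
      rw [this]

theorem run_head (e f : Ω × Ω) (m : ℕ) (x : Ω × Ω) (hx : (run e f m).head? = some x) : x = e := by
  cases m with
  | zero => simp [run] at hx
  | succ m => rw [run_succ] at hx; simpa using hx.symm

theorem run_last (e f : Ω × Ω) (m : ℕ) (x : Ω × Ω) (hx : (run e f m).getLast? = some x) :
    x = f := by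
  induction m with
  | zero => simp [run] at hx
  | succ m ih =>
    rw [run_succ, List.getLast?_cons_cons] at hx
    cases m with
    | zero => simp [run] at hx; exact hx.symm
    | succ m =>
      rw [run_succ, List.getLast?_cons_cons] at hx
      apply ih
      rw [run_succ]; exact hx

theorem run_chain {e f : Ω × Ω} (h : nc e f) (m : ℕ) : (run e f m).IsChain nc := by
  induction m with
  | zero => simp [run]
  | succ m ih =>
    rw [run_succ, List.isChain_cons_cons]
    refine ⟨h, ?_⟩
    rw [List.isChain_cons]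
    refine ⟨?_, ih⟩
    intro y hy
    rw [run_head e f m y hy]
    exact nc_symm h

/-- the first `i` blocks -/
def bl (C : List (Ω × Ω)) (e f : Ω × Ω) (n k i : ℕ) : List (Ω × Ω) :=
  (List.range i).flatMap fun i => C ++ run e f (mi C n k i)

theorem bl_succ (C : List (Ω × Ω)) (e f : Ω × Ω) (n k i : ℕ) :
    bl C e f n k (i + 1) = bl C e f n k i ++ (C ++ run e f (mi C n k i)) := by
  unfold bl
  rw [List.range_succ, List.flatMap_append]
  simp

theorem length_bl (C : List (Ω × Ω)) (e f : Ω × Ω) (n k i : ℕ) :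
    (bl C e f n k i).length = cp C n k i := by
  induction i with
  | zero => simp [bl, cp]
  | succ i ih =>
    rw [bl_succ, List.length_append, List.length_append, ih, length_run, cp_succ]
    omega

theorem bl_prefix (C : List (Ω × Ω)) (e f : Ω × Ω) (n k i j : ℕ) (hij : i < j) :
    ∃ r, bl C e f n k j = bl C e f n k i ++ ((C ++ run e f (mi C n k i)) ++ r) := by
  induction j with
  | zero => omega
  | succ j ih =>
    rw [bl_succ]
    by_cases h : i < j
    · obtain ⟨r, hr⟩ := ih h
      exact ⟨r ++ (C ++ run e f (mi C n k j)), by rw [hr]; simp only [List.append_assoc]⟩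
    · have : i = j := by omega
      subst this
      exact ⟨[], by simp⟩

end B07

theorem length_Lk (C : List (Ω × Ω)) (e f : Ω × Ω) (n k : ℕ) :
    (Lk C e f n k).length = cp C n k n := length_bl C e f n k n

theorem Lk_get_C (C : List (Ω × Ω)) (e f : Ω × Ω) (n k i t : ℕ) (hi : i < n)
    (ht : t < C.length) : (Lk C e f n k)[cp C n k i + t]? = C[t]? := by
  obtain ⟨r, hr⟩ := bl_prefix C e f n k i n hi
  change (bl C e f n k n)[cp C n k i + t]? = C[t]?
  rw [hr, ← length_bl C e f n k i, List.getElem?_append_right (by omega), Nat.add_sub_cancel_left,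
    List.append_assoc, List.getElem?_append_left ht]

theorem Lk_get_run (C : List (Ω × Ω)) (e f : Ω × Ω) (n k i t : ℕ) (hi : i < n)
    (ht : t < 2 * mi C n k i) :
    (Lk C e f n k)[cp C n k i + C.length + t]? = some (if t % 2 = 0 then e else f) := by
  obtain ⟨r, hr⟩ := bl_prefix C e f n k i n hi
  change (bl C e f n k n)[cp C n k i + C.length + t]? = _
  have ht' : t < (run e f (mi C n k i)).length := by rw [length_run]; exact ht
  rw [hr, ← length_bl C e f n k i, Nat.add_assoc, List.getElem?_append_right (by omega),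
    Nat.add_sub_cancel_left, List.append_assoc, List.getElem?_append_right (by omega),
    Nat.add_sub_cancel_left, List.getElem?_append_left ht', run_get e f _ t ht]

theorem rigid_Lk (hC : Cov C e f) (n k : ℕ) : Rigid (Lk C e f n k) := by
  suffices h : ∀ i, (bl C e f n k i).IsChain nc ∧ ∀ x, (bl C e f n k i).getLast? = some x → x = f
    from (h n).1
  intro i
  induction i with
  | zero => simp [bl]
  | succ i ih =>
    have hm : mi C n k i ≠ 0 := by unfold mi; omega
    have hrun : run e f (mi C n k i) ≠ [] := by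
      intro h0
      have := length_run e f (mi C n k i)
      rw [h0] at this
      simp at this
      omega
    rw [bl_succ]
    refine ⟨?_, ?_⟩
    · rw [List.isChain_append]
      refine ⟨ih.1, ?_, ?_⟩
      · rw [List.isChain_append]
        refine ⟨hC.rigid, run_chain hC.ef _, ?_⟩
        intro x hx y hy
        rw [run_head e f _ y hy]
        exact (hC.lst x hx).1
      · intro x hx y hy
        rw [ih.2 x hx]
        cases hC' : C.head? with
        | none =>
          have : C = [] := List.head?_eq_none_iff.1 hC'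
          have h := hC.cover e
          rw [this] at h
          simp at h
        | some z =>
          rw [List.head?_append, hC'] at hy
          simp only [Option.some_or, Option.mem_def, Option.some.injEq] at hy
          subst hy
          exact nc_symm (hC.hd z hC').1
    · intro x hx
      rw [List.getLast?_append, List.getLast?_append] at hx
      cases hr : (run e f (mi C n k i)).getLast? with
      | none => exact absurd (List.getLast?_eq_none_iff.1 hr) hrun
      | some z =>
        rw [hr] at hx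
        simp only [Option.some_or, Option.some.injEq] at hx
        subst hx
        exact run_last e f _ z hr

end Pool.Agent.Lib.MP_c23930_al
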