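import Pool.Agent.Lib.MP_c23930_al.B07

/-!
# B08: windows identify the long words (combinatorics of lists)
-/

set_option autoImplicit false

namespace Pool.Agent.Lib.MP_c23930_al

variable {Ω : Type}

variable {C : List (Ω × Ω)} {e f : Ω × Ω}

namespace B08

/-- the letters at the positions `j` and `j + 2` exist and are equal -/
def Per (l : List (Ω × Ω)) (j : ℕ) : Prop := ∃ x, l[j]? = some x ∧ l[j + 2]? = some x

/-- the letters at the positions `j` and `j + 2` exist and are different -/
def NPer (l : List (Ω × Ω)) (j : ℕ) : Prop :=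
  ∃ x y, l[j]? = some x ∧ l[j + 2]? = some y ∧ x ≠ y

theorem not_both {l : List (Ω × Ω)} {j : ℕ} (h : Per l j) (h' : NPer l j) : False := by
  obtain ⟨x, h1, h2⟩ := h
  obtain ⟨y, z, h3, h4, h5⟩ := h'
  rw [h1] at h3
  rw [h2] at h4
  exact h5 ((Option.some.inj h3).symm.trans (Option.some.inj h4))

theorem C_pos (hC : Cov C e f) : 0 < C.length := List.length_pos_of_mem (hC.cover e)

/-- (P1): periodicity inside the runs -/
theorem per_run (C : List (Ω × Ω)) (e f : Ω × Ω) {n k i t : ℕ} (hi : i < n)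
    (ht : t + 2 < 2 * mi C n k i) : Per (Lk C e f n k) (cp C n k i + C.length + t) := by
  refine ⟨_, Lk_get_run C e f n k i t hi (by omega), ?_⟩
  rw [add_assoc (cp C n k i + C.length), Lk_get_run C e f n k i (t + 2) hi ht,
    Nat.add_mod_right]

/-- (P2): failure at the end of a copy of `C` -/
theorem nper_C (hC : Cov C e f) {n k i : ℕ} (hi : i < n) :
    NPer (Lk C e f n k) (cp C n k i + (C.length - 1)) := by
  have hc := C_pos hC
  have hm : 0 < mi C n k i := by unfold mi; omega
  have hne : C ≠ [] := List.ne_nil_of_length_pos hc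
  refine ⟨C.getLast hne, f, ?_, ?_, ?_⟩
  · rw [Lk_get_C C e f n k i _ hi (by omega), List.getLast_eq_getElem,
      List.getElem?_eq_getElem]
  · have h1 : cp C n k i + (C.length - 1) + 2 = cp C n k i + C.length + 1 := by omega
    rw [h1, Lk_get_run C e f n k i 1 hi (by omega)]
    rfl
  · exact (hC.lst _ (List.getLast?_eq_some_getLast hne)).2

/-- (P2'): failure at the end of a run -/
theorem nper_run (hC : Cov C e f) {n k i : ℕ} (hi : i + 1 < n) :
    NPer (Lk C e f n k) (cp C n k i + C.length + (2 * mi C n k i - 2)) := by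
  have hc := C_pos hC
  have hm : 0 < mi C n k i := by unfold mi; omega
  have hne : C ≠ [] := List.ne_nil_of_length_pos hc
  refine ⟨e, C.head hne, ?_, ?_, ?_⟩
  · rw [Lk_get_run C e f n k i _ (by omega) (by omega), if_pos (by omega)]
  · have h1 : cp C n k i + C.length + (2 * mi C n k i - 2) + 2 = cp C n k (i + 1) + 0 := by
      rw [cp_succ]; omega
    rw [h1, Lk_get_C C e f n k (i + 1) 0 hi hc, List.head_eq_getElem,
      List.getElem?_eq_getElem]
  · exact fun h => (hC.hd _ (List.head?_eq_some_head hne)).2 h.symm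

theorem cp_zero (C : List (Ω × Ω)) (n k : ℕ) : cp C n k 0 = 0 := by
  unfold cp; rw [Finset.range_zero, Finset.sum_empty]

/-- the block containing a position -/
theorem block (C : List (Ω × Ω)) (n k a : ℕ) : ∀ N, a < cp C n k N →
    ∃ i < N, cp C n k i ≤ a ∧ a < cp C n k (i + 1) := by
  intro N
  induction N with
  | zero => intro h; rw [cp_zero] at h; omega
  | succ N ih =>
    intro h
    rcases lt_or_ge a (cp C n k N) with h1 | h1
    · obtain ⟨i, hi, h2⟩ := ih h1
      exact ⟨i, by omega, h2⟩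
    · exact ⟨N, by omega, h1, h⟩

/-- an interval of periodicity between two failures is a complete run -/
theorem locate (hC : Cov C e f) {n k a m : ℕ} (hm : C.length + 3 ≤ m) (ha : 1 ≤ a)
    (h1 : ∀ t, t + 2 < 2 * m → Per (Lk C e f n k) (a + t))
    (h2 : NPer (Lk C e f n k) (a - 1)) (h3 : NPer (Lk C e f n k) (a + (2 * m - 2))) :
    ∃ i < n, a = cp C n k i + C.length ∧ m = mi C n k i := by
  have hc := C_pos hC
  have hlen : ∀ j, Per (Lk C e f n k) j → j + 2 < cp C n k n := by
    rintro j ⟨x, -, hx⟩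
    rw [← length_Lk C e f n k]
    exact (List.getElem?_eq_some_iff.1 hx).1
  have ha0 := hlen _ (h1 0 (by omega))
  obtain ⟨i, hi, hi1, hi2⟩ := block C n k a n (by omega)
  have hs := cp_succ C n k i
  have hmi : C.length + 3 ≤ mi C n k i := by unfold mi; omega
  -- not in the copy of `C`
  rcases lt_or_ge a (cp C n k i + C.length) with h4 | h4
  · exfalso
    have h5 := h1 (cp C n k i + (C.length - 1) - a) (by omega)
    have h6 : a + (cp C n k i + (C.length - 1) - a) = cp C n k i + (C.length - 1) := by omega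
    rw [h6] at h5
    exact not_both h5 (nper_C hC hi)
  obtain ⟨t0, rfl⟩ := Nat.exists_eq_add_of_le h4
  -- in the run
  have ht0 : t0 = 0 := by
    by_contra hne
    rcases lt_or_ge (t0 + 1) (2 * mi C n k i) with h5 | h5
    · have h6 := per_run C e f (n := n) (k := k) hi (t := t0 - 1) (by omega)
      have h7 : cp C n k i + C.length + (t0 - 1) = cp C n k i + C.length + t0 - 1 := by omega
      rw [h7] at h6
      exact not_both h6 h2
    · rcases lt_or_ge (i + 1) n with h6 | h6
      · have h7 := h1 C.length (by omega)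
        have h8 : cp C n k i + C.length + t0 + C.length
            = cp C n k (i + 1) + (C.length - 1) := by omega
        rw [h8] at h7
        exact not_both h7 (nper_C hC h6)
      · have h7 : cp C n k n = cp C n k (i + 1) := congrArg (cp C n k) (by omega)
        omega
  subst ht0
  rw [add_zero] at h1 h2 h3 ⊢
  refine ⟨i, hi, rfl, ?_⟩
  rcases lt_trichotomy m (mi C n k i) with h5 | h5 | h5
  · exact absurd h3 (fun h => not_both (per_run C e f hi (t := 2 * m - 2) (by omega)) h)
  · exact h5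
  · exfalso
    have h6 := h1 (2 * mi C n k i - 2) (by omega)
    rcases lt_or_ge (i + 1) n with h7 | h7
    · exact not_both h6 (nper_run hC h7)
    · have h8 := hlen _ h6
      have h9 : cp C n k n = cp C n k (i + 1) := congrArg (cp C n k) (by omega)
      omega

theorem kl_inj (α : Kg Ω) : Function.Injective (kl α) := by
  intro p q h
  have h1 := congrArg Prod.fst h
  have h2 := congrArg Prod.snd h
  exact Prod.ext (α.1.injective h1) (α.2.injective h2)

theorem get_map {l : List (Ω × Ω)} {g : Ω × Ω → Ω × Ω} {j : ℕ} {x : Ω × Ω}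
    (h : (l.map g)[j]? = some x) : ∃ y, l[j]? = some y ∧ g y = x := by
  rw [List.getElem?_map, Option.map_eq_some_iff] at h
  exact h

/-- transfer of periodicity and failure along a correspondence of positions -/
theorem transfer {l l' : List (Ω × Ω)} {g : Ω × Ω → Ω × Ω} (hg : Function.Injective g)
    {j p : ℕ} {q : ℕ}
    (h1 : ∃ x, l[j]? = some x ∧ (l'.map g)[p]? = some x)
    (h2 : ∃ x, l[j + 2]? = some x ∧ (l'.map g)[q]? = some x) :
    ∃ y z, l'[p]? = some y ∧ l'[q]? = some z ∧ (Per l j → y = z) ∧ (NPer l j → y ≠ z) := by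
  obtain ⟨x, hx, hx'⟩ := h1
  obtain ⟨w, hw, hw'⟩ := h2
  obtain ⟨y, hy, hy'⟩ := get_map hx'
  obtain ⟨z, hz, hz'⟩ := get_map hw'
  refine ⟨y, z, hy, hz, ?_, ?_⟩
  · rintro ⟨u, h3, h4⟩
    rw [h3] at hx
    rw [h4] at hw
    apply hg
    rw [hy', hz', ← Option.some.inj hx, ← Option.some.inj hw]
  · rintro ⟨u, v, h3, h4, h5⟩ h6
    rw [h3] at hx
    rw [h4] at hw
    apply h5
    rw [Option.some.inj hx, Option.some.inj hw, ← hy', ← hz', h6]

theorem mi_inj {n k k' i i' : ℕ} (hi : i < n) (hi' : i' < n)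
    (h : mi C n k i = mi C n k' i') : k = k' ∧ i = i' := by
  unfold mi at h
  have h5 : k * n + i = k' * n + i' := by omega
  have hn : 0 < n := by omega
  have h6 : (k * n + i) / n = k := by
    rw [add_comm, Nat.add_mul_div_right _ _ hn, Nat.div_eq_of_lt hi, zero_add]
  have h7 : (k' * n + i') / n = k' := by
    rw [add_comm, Nat.add_mul_div_right _ _ hn, Nat.div_eq_of_lt hi', zero_add]
  have h8 : k = k' := by rw [← h6, ← h7, h5]
  refine ⟨h8, ?_⟩
  rw [h8] at h5
  omega

theorem cp_mono (C : List (Ω × Ω)) (n k : ℕ) : Monotone (cp C n k) :=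
  monotone_nat_of_le_succ (fun i => by rw [cp_succ]; omega)

end B08

open B08

theorem window_fwd (hC : Cov C e f) (n k k' : ℕ) (α : Kg Ω) (i₁ i₃ : ℕ) (h1 : i₁ + 2 ≤ i₃)
    (h3 : i₃ < n) (s : ℕ)
    (h : ∀ j, cp C n k i₁ ≤ j → j ≤ cp C n k i₃ → ∃ x, (Lk C e f n k)[j]? = some x ∧
      ((Lk C e f n k').map (kl α))[s + (j - cp C n k i₁)]? = some x) :
    k = k' ∧ s = cp C n k i₁ ∧ α = 1 := by
  have hc := C_pos hC
  have hs := cp_succ C n k i₁
  have hm2 : cp C n k (i₁ + 1) ≤ cp C n k i₃ := cp_mono C n k (by omega)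
  have hm3 : cp C n k (i₁ + 2) ≤ cp C n k i₃ := cp_mono C n k (by omega)
  have hs2 := cp_succ C n k (i₁ + 1)
  have hmi : C.length + 3 ≤ mi C n k i₁ := by unfold mi; omega
  have hu : ∀ u, cp C n k i₁ + u ≤ cp C n k i₃ → ∃ x, (Lk C e f n k)[cp C n k i₁ + u]? = some x ∧
      ((Lk C e f n k').map (kl α))[s + u]? = some x := by
    intro u hu
    have := h (cp C n k i₁ + u) (by omega) hu
    rwa [Nat.add_sub_cancel_left] at this
  have hT : ∀ u, cp C n k i₁ + (u + 2) ≤ cp C n k i₃ →
      (Per (Lk C e f n k) (cp C n k i₁ + u) → Per (Lk C e f n k') (s + u)) ∧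
      (NPer (Lk C e f n k) (cp C n k i₁ + u) → NPer (Lk C e f n k') (s + u)) := by
    intro u hu2
    obtain ⟨y, z, hy, hz, hp, hn⟩ := transfer (kl_inj α) (hu u (by omega)) (hu (u + 2) hu2)
    refine ⟨fun hP => ⟨y, hy, ?_⟩, fun hN => ⟨y, z, hy, hz, hn hN⟩⟩
    rw [hp hP]; exact hz
  obtain ⟨i', hi', ha, hm⟩ := locate hC (n := n) (k := k') (a := s + C.length)
    (m := mi C n k i₁) hmi (by omega)
    (fun t ht => by
      have h4 := (hT (C.length + t) (by omega)).1
        (by rw [← add_assoc]; exact per_run C e f (by omega) ht)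
      rwa [← add_assoc] at h4)
    (by
      have h4 := (hT (C.length - 1) (by omega)).2 (nper_C hC (by omega))
      have h5 : s + C.length - 1 = s + (C.length - 1) := by omega
      rw [h5]; exact h4)
    (by
      have h4 := (hT (C.length + (2 * mi C n k i₁ - 2)) (by omega)).2
        (by rw [← add_assoc]; exact nper_run hC (by omega))
      rwa [← add_assoc] at h4)
  obtain ⟨hk, hi⟩ := mi_inj (by omega) hi' hm
  subst hk
  subst hi
  have hs3 : s = cp C n k i₁ := by omega
  refine ⟨rfl, hs3, ?_⟩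
  have hfix : ∀ x, kl α x = x := by
    intro x
    obtain ⟨t, ht, hx⟩ := List.getElem_of_mem (hC.cover x)
    obtain ⟨y, hy, hy'⟩ := hu t (by omega)
    obtain ⟨z, hz, hz'⟩ := get_map hy'
    rw [hs3] at hz
    rw [Lk_get_C C e f n k i₁ t (by omega) ht, List.getElem?_eq_getElem ht, hx] at hy hz
    rw [← Option.some.inj hy, ← Option.some.inj hz] at hz'
    exact hz'
  refine Prod.ext (Equiv.ext fun a => ?_) (Equiv.ext fun b => ?_)
  · exact congrArg Prod.fst (hfix (a, e.2))
  · exact congrArg Prod.snd (hfix (e.1, b))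

theorem window_bwd (hC : Cov C e f) (n k k' : ℕ) (α : Kg Ω) (i₁ i₃ : ℕ) (h1 : i₁ + 2 ≤ i₃)
    (h3 : i₃ < n) (s : ℕ) (hs : cp C n k i₃ - cp C n k i₁ ≤ s)
    (h : ∀ j, cp C n k i₁ ≤ j → j ≤ cp C n k i₃ → ∃ x, (Lk C e f n k)[j]? = some x ∧
      ((Lk C e f n k').map (kl α))[s - (j - cp C n k i₁)]? = some x) : False := by
  have hc := C_pos hC
  have key : ∀ i, i₁ ≤ i → i + 1 ≤ i₃ →
      ∃ i' < n, s + cp C n k i₁ + 1 = cp C n k (i + 1) + cp C n k' i' + C.length ∧
        mi C n k i = mi C n k' i' := by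
    intro i hi hi3
    have hs1 := cp_succ C n k i
    have hm1 : cp C n k i₁ ≤ cp C n k i := cp_mono C n k hi
    have hm2 : cp C n k (i + 1) ≤ cp C n k i₃ := cp_mono C n k hi3
    have hmi : C.length + 3 ≤ mi C n k i := by unfold mi; omega
    -- the letters of `l'` at the positions `p` and `p + 2`
    have hT : ∀ j p, cp C n k i₁ ≤ j → j + 2 ≤ cp C n k i₃ → p + 2 + j = s + cp C n k i₁ →
        (Per (Lk C e f n k) j → Per (Lk C e f n k') p) ∧
        (NPer (Lk C e f n k) j → NPer (Lk C e f n k') p) := by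
      intro j p hj hj2 hp
      have a1 := h j hj (by omega)
      have a2 := h (j + 2) (by omega) hj2
      have e1 : s - (j - cp C n k i₁) = p + 2 := by omega
      have e2 : s - (j + 2 - cp C n k i₁) = p := by omega
      rw [e1] at a1
      rw [e2] at a2
      obtain ⟨y, z, hy, hz, hp', hn'⟩ := transfer (kl_inj α) a1 a2
      refine ⟨fun hP => ⟨z, hz, ?_⟩, fun hN => ⟨z, y, hz, hy, (hn' hN).symm⟩⟩
      rw [← hp' hP]; exact hy
    obtain ⟨i', hi', ha, hm⟩ := locate hC (n := n) (k := k')
      (a := s + cp C n k i₁ + 1 - cp C n k (i + 1))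
      (m := mi C n k i) hmi (by omega)
      (fun t ht => (hT (cp C n k i + C.length + (2 * mi C n k i - 3 - t)) _ (by omega) (by omega)
        (by omega)).1 (per_run C e f (by omega) (by omega)))
      ((hT (cp C n k i + C.length + (2 * mi C n k i - 2)) _ (by omega) (by omega)
        (by omega)).2 (nper_run hC (by omega)))
      ((hT (cp C n k i + (C.length - 1)) _ (by omega) (by omega)
        (by omega)).2 (nper_C hC (by omega)))
    exact ⟨i', hi', by omega, hm⟩
  obtain ⟨j1, hj1, ha1, hb1⟩ := key i₁ le_rfl (by omega)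
  obtain ⟨j2, hj2, ha2, hb2⟩ := key (i₁ + 1) (by omega) (by omega)
  obtain ⟨rfl, rfl⟩ := mi_inj (by omega) hj1 hb1
  obtain ⟨-, hj⟩ := mi_inj (by omega) hj2 hb2
  rw [← hj] at ha2
  have hs1 := cp_succ C n k i₁
  have hs2 := cp_succ C n k (i₁ + 1)
  omega

end Pool.Agent.Lib.MP_c23930_al
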