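import Pool.Agent.Lib.MP_c23930_al.B05
import Pool.Agent.Lib.MP_c23930_al.B07

/-!
# B09: the coordinate of the long words
-/

set_option autoImplicit false

namespace Pool.Agent.Lib.MP_c23930_al

variable {Ω : Type}

variable {C : List (Ω × Ω)} {e f : Ω × Ω}

namespace B09

theorem cp_lt_succ (C : List (Ω × Ω)) (n k i : ℕ) : cp C n k i < cp C n k (i + 1) := by
  rw [cp_succ]
  unfold mi
  omega

theorem cp_strictMono (C : List (Ω × Ω)) (n k : ℕ) : StrictMono (cp C n k) :=
  strictMono_nat_of_lt_succ (cp_lt_succ C n k)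

theorem cp_zero (C : List (Ω × Ω)) (n k : ℕ) : cp C n k 0 = 0 := by
  unfold cp; simp

theorem pp_zero (l : List (Ω × Ω)) : pp l 0 = 1 := by
  unfold pp; simp

/-- the coordinate of a prefix -/
theorem cc_pp (hC : Cov C e f) (n k m : ℕ) (hm : m ≤ (Lk C e f n k).length) (i0 : ℕ)
    (hi0 : i0 ≤ n) (h1 : ∀ i < i0, cp C n k i < m) (h2 : m ≤ cp C n k i0) :
    cc C e f n k (pp (Lk C e f n k) m) = i0 := by
  classical
  unfold cc
  have hset : (Finset.range n).filter
      (fun i => bey (Lk C e f n k) (cp C n k i) (pp (Lk C e f n k) m)) = Finset.range i0 := by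
    ext i
    rw [Finset.mem_filter, Finset.mem_range, Finset.mem_range,
      bey_pp (rigid_Lk hC n k) _ _ hm]
    constructor
    · rintro ⟨-, h⟩
      by_contra hc
      push Not at hc
      have := (cp_strictMono C n k).monotone hc
      omega
    · intro h
      exact ⟨by omega, h1 i h⟩
  have : (((Finset.range n).filter
      (fun i => bey (Lk C e f n k) (cp C n k i) (pp (Lk C e f n k) m))).card : ℤ) =
      ((Finset.range i0).card : ℤ) := by
    rw [← hset]
  rw [Finset.card_range] at this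
  convert this

/-- the index of the first cut point after `m` -/
theorem exists_idx (C : List (Ω × Ω)) (n k m : ℕ) (hm : m ≤ cp C n k n) :
    ∃ i0 ≤ n, (∀ i < i0, cp C n k i < m) ∧ m ≤ cp C n k i0 := by
  classical
  have hex : ∃ i, m ≤ cp C n k i := ⟨n, hm⟩
  refine ⟨Nat.find hex, Nat.find_le hm, fun i hi => ?_, Nat.find_spec hex⟩
  have := Nat.find_min hex hi
  omega

/-- the set of crossed chain walls is an initial segment -/
theorem bey_iff_lt_cc (hC : Cov C e f) (n k i : ℕ) (hi : i < n) (w : Wg Ω) :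
    bey (Lk C e f n k) (cp C n k i) w ↔ (i : ℤ) < cc C e f n k w := by
  classical
  have hdown : ∀ i j, i ≤ j → bey (Lk C e f n k) (cp C n k j) w →
      bey (Lk C e f n k) (cp C n k i) w := fun i j hij h =>
    bey_le (rigid_Lk hC n k) ((cp_strictMono C n k).monotone hij) h
  have hcc : cc C e f n k w = ((Finset.range n).filter
      fun i => bey (Lk C e f n k) (cp C n k i) w).card := by
    unfold cc
    congr
  rw [hcc]
  constructor
  · intro h
    have hsub : Finset.range (i + 1) ⊆ (Finset.range n).filter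
        fun i => bey (Lk C e f n k) (cp C n k i) w := by
      intro j hj
      rw [Finset.mem_range] at hj
      rw [Finset.mem_filter, Finset.mem_range]
      exact ⟨by omega, hdown j i (by omega) h⟩
    have h2 := Finset.card_le_card hsub
    rw [Finset.card_range] at h2
    have : i < ((Finset.range n).filter
        fun i => bey (Lk C e f n k) (cp C n k i) w).card := by omega
    exact_mod_cast this
  · intro h
    by_contra hc
    have hsub : (Finset.range n).filter
        (fun i => bey (Lk C e f n k) (cp C n k i) w) ⊆ Finset.range i := by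
      intro j hj
      rw [Finset.mem_filter, Finset.mem_range] at hj
      rw [Finset.mem_range]
      by_contra hji
      push Not at hji
      exact hc (hdown i j hji hj.2)
    have h2 := Finset.card_le_card hsub
    rw [Finset.card_range] at h2
    have h3 : (i : ℤ) < (((Finset.range n).filter
        fun i => bey (Lk C e f n k) (cp C n k i) w).card : ℤ) := h
    have h4 : i < ((Finset.range n).filter
        fun i => bey (Lk C e f n k) (cp C n k i) w).card := by exact_mod_cast h3
    omega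

/-- two elements separated by the wall `t` -/
theorem crs_diff {w h t : Wg Ω} (hx : ¬ (crs w t ↔ crs (w * h) t)) :
    crs h (w⁻¹ * t * w) := by
  have h1 := crs_mul w h t
  by_contra hc
  apply hx
  rw [h1]
  constructor
  · intro h2
    exact Or.inl ⟨h2, hc⟩
  · rintro (⟨h2, -⟩ | ⟨h2, -⟩)
    · exact h2
    · exact absurd h2 hc

theorem misses_wall {h : Wg Ω} {x : Ω × Ω} (hx : Misses h x) (g : Wg Ω) :
    ¬ crs h (g * sW x * g⁻¹) := by
  intro hc
  have h1 : h ∈ WA {p : Ω × Ω | p ≠ x} := hx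
  exact (WA_iff _ _).1 h1 g x hc rfl

/-- no two chain walls are crossed at once -/
theorem no_two (hC : Cov C e f) (n k i : ℕ) (hi : i + 1 < n) (w h : Wg Ω) (x : Ω × Ω)
    (hx : Misses h x) (u v : Wg Ω) (huv : (u = w ∧ v = w * h) ∨ (u = w * h ∧ v = w))
    (h1 : bey (Lk C e f n k) (cp C n k (i + 1)) u) (h2 : ¬ bey (Lk C e f n k) (cp C n k i) v) :
    False := by
  have hr := rigid_Lk hC n k
  obtain ⟨t, ht, hxt⟩ := List.getElem_of_mem (hC.cover x)
  have hget : (Lk C e f n k)[cp C n k i + t]? = some x := by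
    rw [Lk_get_C C e f n k i t (by omega) ht, List.getElem?_eq_getElem ht, hxt]
  have hle : cp C n k i + t ≤ cp C n k (i + 1) := by
    rw [cp_succ]; omega
  have g1 : bey (Lk C e f n k) (cp C n k i + t) u := bey_le hr hle h1
  have g2 : ¬ bey (Lk C e f n k) (cp C n k i + t) v := fun hc =>
    h2 (bey_le hr (Nat.le_add_right _ _) hc)
  rw [bey_wall hr _ _ x hget] at g1 g2
  have g3 : crs h (w⁻¹ * (pp (Lk C e f n k) (cp C n k i + t) * sW x *
      (pp (Lk C e f n k) (cp C n k i + t))⁻¹) * w) := by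
    apply crs_diff
    rcases huv with ⟨rfl, rfl⟩ | ⟨rfl, rfl⟩
    · exact fun hh => g2 (hh.1 g1)
    · exact fun hh => g2 (hh.2 g1)
  have g4 := misses_wall hx (w⁻¹ * pp (Lk C e f n k) (cp C n k i + t))
  apply g4
  have g5 : w⁻¹ * pp (Lk C e f n k) (cp C n k i + t) * sW x *
      (w⁻¹ * pp (Lk C e f n k) (cp C n k i + t))⁻¹ =
      w⁻¹ * (pp (Lk C e f n k) (cp C n k i + t) * sW x *
      (pp (Lk C e f n k) (cp C n k i + t))⁻¹) * w := by group
  rw [g5]
  exact g3

/-- subwords missing a letter -/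
theorem miss_interval (l : List (Ω × Ω)) (x : Ω × Ω) (a d : ℕ)
    (h : ∀ j, a ≤ j → j < a + d → l[j]? ≠ some x) : Misses ((pp l a)⁻¹ * pp l (a + d)) x := by
  induction d with
  | zero =>
    rw [Nat.add_zero, inv_mul_cancel]
    exact Subgroup.one_mem _
  | succ d ih =>
    have h1 := ih fun j hj hj' => h j hj (by omega)
    have h2 : pp l (a + (d + 1)) = pp l (a + d) * ((l[a + d]?.toList).map sW).prod := by
      unfold pp
      rw [← Nat.add_assoc, List.take_add_one, List.map_append, List.prod_append]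
    rw [h2, ← mul_assoc]
    refine Subgroup.mul_mem _ h1 ?_
    have h3 := h (a + d) (by omega) (by omega)
    cases hy : l[a + d]? with
    | none => simp
    | some y =>
      rw [hy] at h3
      have h4 : y ≠ x := fun hh => h3 (by rw [hh])
      simp only [Option.toList_some, List.map_cons, List.map_nil, List.prod_cons, List.prod_nil,
        mul_one]
      exact Subgroup.subset_closure ⟨y, h4, rfl⟩

/-- a subword is a product of at most `N` elements missing a letter -/
def Pc (l : List (Ω × Ω)) (a b N : ℕ) : Prop :=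
  ∃ L : List (Wg Ω), (∀ h ∈ L, ∃ x, Misses h x) ∧ L.prod = (pp l a)⁻¹ * pp l b ∧ L.length ≤ N

theorem Pc.refl (l : List (Ω × Ω)) (a : ℕ) : Pc l a a 0 :=
  ⟨[], by simp, by simp, by simp⟩

theorem Pc.trans {l : List (Ω × Ω)} {a b c N N' : ℕ} (h : Pc l a b N) (h' : Pc l b c N') :
    Pc l a c (N + N') := by
  obtain ⟨L, h1, h2, h3⟩ := h
  obtain ⟨L', h1', h2', h3'⟩ := h'
  refine ⟨L ++ L', ?_, ?_, ?_⟩
  · intro x hx
    rw [List.mem_append] at hx
    exact hx.elim (h1 x) (h1' x)
  · rw [List.prod_append, h2, h2']; group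
  · rw [List.length_append]; omega

theorem Pc.mono {l : List (Ω × Ω)} {a b N N' : ℕ} (h : Pc l a b N) (hN : N ≤ N') :
    Pc l a b N' := by
  obtain ⟨L, h1, h2, h3⟩ := h
  exact ⟨L, h1, h2, h3.trans hN⟩

theorem Pc.symm {l : List (Ω × Ω)} {a b N : ℕ} (h : Pc l a b N) : Pc l b a N := by
  obtain ⟨L, h1, h2, h3⟩ := h
  refine ⟨(L.map fun x => x⁻¹).reverse, ?_, ?_, ?_⟩
  · intro x hx
    rw [List.mem_reverse, List.mem_map] at hx
    obtain ⟨y, hy, rfl⟩ := hx
    obtain ⟨z, hz⟩ := h1 y hy
    exact ⟨z, Subgroup.inv_mem _ hz⟩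
  · rw [← List.prod_inv_reverse, h2]; group
  · rw [List.length_reverse, List.length_map]; exact h3

theorem Pc.one {l : List (Ω × Ω)} {a b : ℕ} (hab : a ≤ b) (x : Ω × Ω)
    (h : ∀ j, a ≤ j → j < b → l[j]? ≠ some x) : Pc l a b 1 := by
  obtain ⟨d, rfl⟩ := Nat.exists_eq_add_of_le hab
  exact ⟨[(pp l a)⁻¹ * pp l (a + d)], by
    intro y hy
    rw [List.mem_singleton] at hy
    rw [hy]
    exact ⟨x, miss_interval l x a d h⟩, by simp, by simp⟩

/-- a subword of one block -/
theorem Pc.block (hC : Cov C e f) (n k i : ℕ) (hi : i < n) (a b : ℕ) (hab : a ≤ b)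
    (ha : cp C n k i ≤ a) (hb : b ≤ cp C n k (i + 1)) : Pc (Lk C e f n k) a b 3 := by
  obtain ⟨C₁, C₂, hCC, ⟨x1, hx1⟩, ⟨x2, hx2⟩⟩ := hC.split
  obtain ⟨x3, hx3, hx3'⟩ := hC.third
  have hlen : C.length = C₁.length + C₂.length := by rw [hCC, List.length_append]
  rw [cp_succ] at hb
  -- the three types of intervals
  have t1 : ∀ a b, a ≤ b → cp C n k i ≤ a → b ≤ cp C n k i + C₁.length →
      Pc (Lk C e f n k) a b 1 := by
    intro a b hab ha hb
    refine Pc.one hab x1 fun j hj hj' hjx => ?_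
    obtain ⟨t, rfl⟩ := Nat.exists_eq_add_of_le (ha.trans hj)
    rw [Lk_get_C C e f n k i t hi (by omega), hCC,
      List.getElem?_append_left (by omega)] at hjx
    exact hx1 (List.mem_of_getElem? hjx)
  have t2 : ∀ a b, a ≤ b → cp C n k i + C₁.length ≤ a → b ≤ cp C n k i + C.length →
      Pc (Lk C e f n k) a b 1 := by
    intro a b hab ha hb
    refine Pc.one hab x2 fun j hj hj' hjx => ?_
    obtain ⟨t, rfl⟩ := Nat.exists_eq_add_of_le (ha.trans hj)
    rw [Nat.add_assoc, Lk_get_C C e f n k i _ hi (by omega), hCC,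
      List.getElem?_append_right (by omega)] at hjx
    exact hx2 (List.mem_of_getElem? hjx)
  have t3 : ∀ a b, a ≤ b → cp C n k i + C.length ≤ a →
      b ≤ cp C n k i + C.length + 2 * mi C n k i → Pc (Lk C e f n k) a b 1 := by
    intro a b hab ha hb
    refine Pc.one hab x3 fun j hj hj' hjx => ?_
    obtain ⟨t, rfl⟩ := Nat.exists_eq_add_of_le (ha.trans hj)
    rw [Lk_get_run C e f n k i t hi (by omega)] at hjx
    have := Option.some.inj hjx
    split_ifs at this
    · exact hx3 this.symm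
    · exact hx3' this.symm
  -- cut at the two inner points
  set p := cp C n k i + C₁.length with hp
  set q := cp C n k i + C.length with hq
  have hpq : p ≤ q := by omega
  by_cases c1 : b ≤ p
  · exact (t1 a b hab ha c1).mono (by omega)
  push Not at c1
  by_cases c2 : a ≤ p
  · by_cases c3 : b ≤ q
    · exact ((t1 a p c2 ha le_rfl).trans (t2 p b c1.le le_rfl c3)).mono (by omega)
    push Not at c3
    exact ((t1 a p c2 ha le_rfl).trans (t2 p q hpq le_rfl le_rfl)).trans
      (t3 q b c3.le le_rfl hb)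
  push Not at c2
  by_cases c3 : b ≤ q
  · exact (t2 a b hab c2.le c3).mono (by omega)
  push Not at c3
  by_cases c4 : a ≤ q
  · exact ((t2 a q c4 c2.le le_rfl).trans (t3 q b c3.le le_rfl hb)).mono (by omega)
  push Not at c4
  exact (t3 a b hab c4.le hb).mono (by omega)

theorem Pc.blocks (hC : Cov C e f) (n k : ℕ) (m : ℕ) : ∀ i b, i + m ≤ n → cp C n k i ≤ b →
    b ≤ cp C n k (i + m) → Pc (Lk C e f n k) (cp C n k i) b (3 * m) := by
  induction m with
  | zero =>
    intro i b _ h1 h2
    have : b = cp C n k i := le_antisymm h2 h1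
    rw [this]
    exact Pc.refl _ _
  | succ m ih =>
    intro i b hi h1 h2
    by_cases c : b ≤ cp C n k (i + 1)
    · exact (Pc.block hC n k i (by omega) _ _ h1 le_rfl c).mono (by omega)
    push Not at c
    have e1 := Pc.block hC n k i (by omega) (cp C n k i) (cp C n k (i + 1))
      (cp_lt_succ C n k i).le le_rfl le_rfl
    have e2 := ih (i + 1) b (by omega) c.le (by rw [show i + 1 + m = i + (m + 1) by ring]; exact h2)
    exact (e1.trans e2).mono (by omega)

theorem Pc.main (hC : Cov C e f) (n k a b : ℕ) (hab : a ≤ b)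
    (hb : b ≤ (Lk C e f n k).length) :
    ∃ N : ℕ, Pc (Lk C e f n k) a b N ∧ (N : ℤ) ≤ 3 * (cc C e f n k (pp (Lk C e f n k) b) -
      cc C e f n k (pp (Lk C e f n k) a) + 1) ∧
      cc C e f n k (pp (Lk C e f n k) a) ≤ cc C e f n k (pp (Lk C e f n k) b) := by
  have hb' := hb
  rw [length_Lk] at hb'
  obtain ⟨i1, hi1n, h1, h2⟩ := exists_idx C n k b hb'
  obtain ⟨i0, hi0n, h3, h4⟩ := exists_idx C n k a (hab.trans hb')
  have e1 := cc_pp hC n k b hb i1 hi1n h1 h2
  have e0 := cc_pp hC n k a (hab.trans hb) i0 hi0n h3 h4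
  have h01 : i0 ≤ i1 := by
    by_contra hc
    push Not at hc
    have := h3 i1 hc
    omega
  rw [e1, e0]
  refine ⟨3 * (i1 - i0 + 1), ?_, by push_cast [Nat.cast_sub h01]; linarith, by exact_mod_cast h01⟩
  have hfirst : ∀ c, a ≤ c → c ≤ cp C n k i0 → Pc (Lk C e f n k) a c 3 := by
    intro c hac hc
    rcases Nat.eq_zero_or_pos i0 with h0 | h0
    · subst h0
      rw [cp_zero] at hc
      have : c = a := by omega
      rw [this]
      exact (Pc.refl _ _).mono (by omega)
    · obtain ⟨i', rfl⟩ := Nat.exists_eq_add_of_le' h0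
      exact Pc.block hC n k i' (by omega) a c hac (h3 i' (by omega)).le hc
  by_cases c : b ≤ cp C n k i0
  · exact (hfirst b hab c).mono (by omega)
  push Not at c
  have g1 := hfirst (cp C n k i0) h4 le_rfl
  have g2 := Pc.blocks hC n k (i1 - i0) i0 b (by omega) c.le
    (by rw [Nat.add_sub_cancel' h01]; exact h2)
  exact (g1.trans g2).mono (by omega)

end B09

open B09

theorem cc_range (C : List (Ω × Ω)) (e f : Ω × Ω) (n k : ℕ) (w : Wg Ω) :
    0 ≤ cc C e f n k w ∧ cc C e f n k w ≤ n := by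
  classical
  unfold cc
  refine ⟨Int.natCast_nonneg _, ?_⟩
  have h := Finset.card_filter_le (Finset.range n)
    (fun i => bey (Lk C e f n k) (cp C n k i) w)
  rw [Finset.card_range] at h
  refine le_trans (le_of_eq ?_) (Int.ofNat_le.2 h)
  congr

theorem cc_one (hC : Cov C e f) (n k : ℕ) : cc C e f n k 1 = 0 := by
  have h := cc_pp hC n k 0 (Nat.zero_le _) 0 (Nat.zero_le _) (fun i hi => by omega)
    (Nat.zero_le _)
  rw [pp_zero] at h
  exact_mod_cast h

theorem cc_V (hC : Cov C e f) (n k : ℕ) :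
    cc C e f n k (pp (Lk C e f n k) (Lk C e f n k).length) = n :=
  cc_pp hC n k _ le_rfl n le_rfl (fun i hi => by
    rw [length_Lk]; exact cp_strictMono C n k hi) (by rw [length_Lk])

theorem cc_lip (hC : Cov C e f) (n k : ℕ) (w h : Wg Ω) (x : Ω × Ω) (hx : Misses h x) :
    |cc C e f n k (w * h) - cc C e f n k w| ≤ 1 := by
  obtain ⟨a1, a2⟩ := cc_range C e f n k w
  obtain ⟨b1, b2⟩ := cc_range C e f n k (w * h)
  have key : ∀ u v : Wg Ω, ((u = w ∧ v = w * h) ∨ (u = w * h ∧ v = w)) →
      cc C e f n k u ≤ cc C e f n k v + 1 := by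
    intro u v huv
    by_contra hc
    push Not at hc
    obtain ⟨v1, v2⟩ := cc_range C e f n k v
    obtain ⟨u1, u2⟩ := cc_range C e f n k u
    obtain ⟨i, hi⟩ := Int.eq_ofNat_of_zero_le v1
    have hin : i + 1 < n := by
      have : (i : ℤ) + 1 < n := by omega
      exact_mod_cast this
    refine no_two hC n k i hin w h x hx u v huv ?_ ?_
    · rw [bey_iff_lt_cc hC n k _ hin]
      push_cast
      omega
    · rw [bey_iff_lt_cc hC n k _ (by omega)]
      omega
  have k1 := key w (w * h) (Or.inl ⟨rfl, rfl⟩)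
  have k2 := key (w * h) w (Or.inr ⟨rfl, rfl⟩)
  rw [abs_le]
  constructor <;> linarith

theorem cc_near (hC : Cov C e f) (n k : ℕ) (w h : Wg Ω) (x : Ω × Ω) (hx : Misses h x)
    (hne : cc C e f n k (w * h) ≠ cc C e f n k w) :
    ∃ a b : Wg Ω, Misses a x ∧ (∃ y, Misses b y) ∧
      ∃ m ≤ (Lk C e f n k).length, w * a * b = pp (Lk C e f n k) m := by
  have hr := rigid_Lk hC n k
  -- some status changes
  have hex : ∃ i < n, ¬ (bey (Lk C e f n k) (cp C n k i) w ↔
      bey (Lk C e f n k) (cp C n k i) (w * h)) := by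
    by_contra hc
    push Not at hc
    apply hne
    classical
    unfold cc
    congr 2
    refine Finset.filter_congr fun i hi => ?_
    rw [Finset.mem_range] at hi
    exact (hc i hi).symm
  obtain ⟨i, hi, hst⟩ := hex
  -- the first letter of `C`
  have hCne : C ≠ [] := List.ne_nil_of_mem (hC.cover x)
  obtain ⟨y0, hy0⟩ : ∃ y0, C[0]? = some y0 := by
    cases C with
    | nil => exact absurd rfl hCne
    | cons a t => exact ⟨a, rfl⟩
  have hClen : 0 < C.length := List.length_pos_iff.2 hCne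
  have hhd : C.head? = some y0 := by rw [List.head?_eq_getElem?]; exact hy0
  have hget : (Lk C e f n k)[cp C n k i]? = some y0 := by
    have := Lk_get_C C e f n k i 0 hi hClen
    rw [Nat.add_zero] at this
    rw [this, hy0]
  set g := pp (Lk C e f n k) (cp C n k i) with hg
  have hcr : crs h (w⁻¹ * (g * sW y0 * g⁻¹) * w) := by
    apply crs_diff
    rw [← bey_wall hr _ _ y0 hget, ← bey_wall hr _ _ y0 hget]
    exact hst
  obtain ⟨a, p, c, h1, h2, h3⟩ := crs_prefix _ _ hcr
  have hz : g⁻¹ * w * a * sW p * (g⁻¹ * w * a)⁻¹ = sW y0 := by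
    have : g⁻¹ * w * a * sW p * (g⁻¹ * w * a)⁻¹ = g⁻¹ * w * (a * sW p * a⁻¹) * w⁻¹ * g := by
      group
    rw [this, ← h3]
    group
  obtain ⟨hpy, hzW⟩ := central hz
  have hle : ell (sW p * c) ≤ 1 + ell c := by
    have := (crossM Ω).toCoxeterSystem.length_mul_le (sW p) c
    have h5 : (crossM Ω).toCoxeterSystem.length (sW p) = 1 :=
      (crossM Ω).toCoxeterSystem.length_simple p
    unfold ell
    omega
  have hle2 : ell (a * (sW p * c)) ≤ ell a + ell (sW p * c) :=
    (crossM Ω).toCoxeterSystem.length_mul_le _ _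
  have hell : ell (a * (sW p * c)) = ell a + ell (sW p * c) := by
    rw [h1, mul_assoc] at h2
    omega
  have ha : Misses a x := by
    have h6 : a * (sW p * c) ∈ WA {q : Ω × Ω | q ≠ x} := by
      rw [← mul_assoc, ← h1]; exact hx
    exact (WA_left _ _ _ hell h6).1
  refine ⟨a, (g⁻¹ * w * a)⁻¹, ha, ⟨f, ?_⟩, cp C n k i, ?_, ?_⟩
  · refine Subgroup.inv_mem _ ?_
    refine Subgroup.closure_mono (Set.image_mono ?_) hzW
    rintro q hq rfl
    obtain ⟨⟨hf1, hf2⟩, -⟩ := hC.hd y0 hhd
    rcases hq with hq | hq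
    · exact hf1 hq.symm
    · rcases hf2 with hf2 | hf2
      · exact hq.1 hf2.symm
      · exact hq.2 hf2.symm
  · rw [length_Lk]
    exact (cp_strictMono C n k).monotone hi.le
  · rw [← hg]
    group

theorem cc_met (hC : Cov C e f) (n k a b : ℕ) (ha : a ≤ (Lk C e f n k).length)
    (hb : b ≤ (Lk C e f n k).length) :
    ∃ l : List (Wg Ω), (∀ h ∈ l, ∃ x, Misses h x) ∧
      l.prod = (pp (Lk C e f n k) a)⁻¹ * pp (Lk C e f n k) b ∧
      (l.length : ℤ) ≤ 4 * (|cc C e f n k (pp (Lk C e f n k) a) -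
        cc C e f n k (pp (Lk C e f n k) b)| + 1) := by
  rcases le_total a b with hab | hab
  · obtain ⟨N, ⟨L, h1, h2, h3⟩, h4, h5⟩ := Pc.main hC n k a b hab hb
    refine ⟨L, h1, h2, ?_⟩
    have h3' : (L.length : ℤ) ≤ N := by exact_mod_cast h3
    rw [abs_sub_comm, abs_of_nonneg (by linarith)]
    linarith
  · obtain ⟨N, hP, h4, h5⟩ := Pc.main hC n k b a hab ha
    obtain ⟨L, h1, h2, h3⟩ := hP.symm
    refine ⟨L, h1, h2, ?_⟩
    have h3' : (L.length : ℤ) ≤ N := by exact_mod_cast h3
    rw [abs_of_nonneg (by linarith)]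
    linarith

end Pool.Agent.Lib.MP_c23930_al
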