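import Pool.Agent.Lib.MP_c23930_al.B06
import Pool.Agent.Lib.MP_c23930_al.B08
import Pool.Agent.Lib.MP_c23930_al.B09

/-!
# B10: overlaps of long words are short
-/

set_option autoImplicit false

namespace Pool.Agent.Lib.MP_c23930_al

variable {Ω : Type}

variable {C : List (Ω × Ω)} {e f : Ω × Ω}

namespace B10

theorem cp_lt_succ (C : List (Ω × Ω)) (n k i : ℕ) : cp C n k i + C.length < cp C n k (i + 1) := by
  rw [cp_succ]
  unfold mi
  omega

theorem cp_mono (C : List (Ω × Ω)) (n k : ℕ) : StrictMono (cp C n k) :=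
  strictMono_nat_of_lt_succ fun i => by
    have := cp_lt_succ C n k i
    omega

theorem cc_iff (hC : Cov C e f) (n k : ℕ) (X : Wg Ω) (i : ℕ) (hi : i < n) :
    bey (Lk C e f n k) (cp C n k i) X ↔ (i : ℤ) < cc C e f n k X := by
  classical
  have hl := rigid_Lk hC n k
  have hmono := (cp_mono C n k).monotone
  unfold cc
  constructor
  · intro h
    have hsub : Finset.range (i + 1) ⊆
        (Finset.range n).filter fun i => bey (Lk C e f n k) (cp C n k i) X := by
      intro j hj
      rw [Finset.mem_range] at hj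
      rw [Finset.mem_filter, Finset.mem_range]
      exact ⟨by omega, bey_le hl (hmono (by omega : j ≤ i)) h⟩
    have := Finset.card_le_card hsub
    rw [Finset.card_range] at this
    exact_mod_cast this
  · intro h
    by_contra hn
    have hsub : ((Finset.range n).filter fun i => bey (Lk C e f n k) (cp C n k i) X) ⊆
        Finset.range i := by
      intro j hj
      rw [Finset.mem_filter, Finset.mem_range] at hj
      rw [Finset.mem_range]
      by_contra hij
      exact hn (bey_le hl (hmono (by omega : i ≤ j)) hj.2)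
    have := Finset.card_le_card hsub
    rw [Finset.card_range] at this
    have h' : i < (((Finset.range n).filter fun i =>
      bey (Lk C e f n k) (cp C n k i) X)).card := by exact_mod_cast h
    omega

theorem pp_succ {l : List (Ω × Ω)} {j : ℕ} {x : Ω × Ω} (hx : l[j]? = some x) :
    pp l (j + 1) = pp l j * sW x := by
  unfold pp
  have hj : j < l.length := by
    by_contra h
    rw [List.getElem?_eq_none (by omega)] at hx
    exact absurd hx (by simp)
  have hx' : l[j] = x := by
    rw [List.getElem?_eq_getElem hj] at hx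
    exact Option.some.inj hx
  rw [List.take_add_one, List.map_append, List.prod_append, hx]
  simp

/-- the forward case: the translation is trivial -/
theorem eq_one (hC : Cov C e f) (n k : ℕ) (w : Wg Ω) (i₁ i₃ : ℕ) (h1 : i₁ + 2 ≤ i₃)
    (h : ∀ j, cp C n k i₁ ≤ j → j ≤ cp C n k i₃ → ∃ x, (Lk C e f n k)[j]? = some x ∧
      pp (Lk C e f n k) j * sW x * (pp (Lk C e f n k) j)⁻¹ =
        (w * pp (Lk C e f n k) j) * sW x * (w * pp (Lk C e f n k) j)⁻¹) (h3 : i₁ < n) : w = 1 := by
  set l := Lk C e f n k with hl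
  have key : ∀ j x, cp C n k i₁ ≤ j → j ≤ cp C n k i₃ → l[j]? = some x →
      ((pp l j)⁻¹ * w * pp l j) * sW x * ((pp l j)⁻¹ * w * pp l j)⁻¹ = sW x := by
    intro j x hj hj' hx
    obtain ⟨x', hx', he⟩ := h j hj hj'
    rw [hx] at hx'
    obtain rfl := Option.some.inj hx'
    calc ((pp l j)⁻¹ * w * pp l j) * sW x * ((pp l j)⁻¹ * w * pp l j)⁻¹
        = (pp l j)⁻¹ * ((w * pp l j) * sW x * (w * pp l j)⁻¹) * pp l j := by group
      _ = (pp l j)⁻¹ * (pp l j * sW x * (pp l j)⁻¹) * pp l j := by rw [← he]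
      _ = sW x := by group
  have hz : ∀ t, cp C n k i₁ + t ≤ cp C n k i₃ →
      (pp l (cp C n k i₁ + t))⁻¹ * w * pp l (cp C n k i₁ + t) =
        (pp l (cp C n k i₁))⁻¹ * w * pp l (cp C n k i₁) := by
    intro t
    induction t with
    | zero => intro _; rfl
    | succ t ih =>
      intro ht
      have ht' : cp C n k i₁ + t ≤ cp C n k i₃ := by omega
      obtain ⟨x, hx, -⟩ := h (cp C n k i₁ + t) (by omega) ht'
      have hk := key _ x (by omega) ht' hx
      rw [← ih ht', ← add_assoc, pp_succ hx]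
      have hk2 := mul_inv_eq_iff_eq_mul.1 hk
      have : (pp l (cp C n k i₁ + t) * sW x)⁻¹ * w * (pp l (cp C n k i₁ + t) * sW x) =
          sW x * (((pp l (cp C n k i₁ + t))⁻¹ * w * pp l (cp C n k i₁ + t)) * sW x) := by
        rw [mul_inv_rev, sW_inv]
        group
      rw [this, hk2, ← mul_assoc, sW_mul_self, one_mul]
  set z := (pp l (cp C n k i₁))⁻¹ * w * pp l (cp C n k i₁) with hzdef
  have hcp : cp C n k i₁ + C.length < cp C n k i₃ :=
    lt_of_lt_of_le (cp_lt_succ C n k i₁) ((cp_mono C n k).monotone (by omega : i₁ + 1 ≤ i₃))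
  have hmem : ∀ x : Ω × Ω, z ∈ WA {y | y = x ∨ cm y x} := by
    intro x
    obtain ⟨t, ht, hxt⟩ := List.getElem_of_mem (hC.cover x)
    have hg : l[cp C n k i₁ + t]? = some x := by
      rw [hl, Lk_get_C C e f n k i₁ t h3 ht, List.getElem?_eq_getElem ht, hxt]
    have hk := key _ x (by omega) (by omega) hg
    rw [hz t (by omega)] at hk
    exact (central hk).2
  have hz1 : z = 1 := by
    apply eq_one_of_crs
    intro x p hcr
    have hall : ∀ x0 : Ω × Ω, p = x0 ∨ cm p x0 := fun x0 =>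
      (WA_iff _ _).1 (hmem x0) x p hcr
    have hnt : ∃ u v : Ω, u ≠ v := by
      by_contra hno
      push Not at hno
      exact hC.ef.1 (Prod.ext (hno _ _) (hno _ _))
    obtain ⟨u, v, huv⟩ := hnt
    obtain ⟨y, hy⟩ : ∃ y : Ω, y ≠ p.2 := by
      by_cases hu : u = p.2
      · exact ⟨v, fun h' => huv (hu.trans h'.symm)⟩
      · exact ⟨u, hu⟩
    rcases hall (p.1, y) with h' | h'
    · exact hy (congrArg Prod.snd h').symm
    · exact h'.1 rfl
  rw [hzdef] at hz1
  have : w = pp l (cp C n k i₁) * ((pp l (cp C n k i₁))⁻¹ * w * pp l (cp C n k i₁)) *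
      (pp l (cp C n k i₁))⁻¹ := by group
  rw [this, hz1]
  group

theorem main (hC : Cov C e f) (n k k' : ℕ) (w : Wg Ω) (α : Kg Ω) (i₁ : ℕ) (h3 : i₁ + 2 < n)
    (a b : ℕ) (hab : a < b) (hb : b ≤ (Lk C e f n k').length)
    (hsep : ∀ j, cp C n k i₁ ≤ j → j ≤ cp C n k (i₁ + 2) →
      (bey (Lk C e f n k) j (w * pp ((Lk C e f n k').map (kl α)) a) ↔
        ¬ bey (Lk C e f n k) j (w * pp ((Lk C e f n k').map (kl α)) b))) :
    k = k' ∧ w = 1 ∧ α = 1 := by
  have hl := rigid_Lk hC n k
  have hl' := rigid_act α (rigid_Lk hC n k')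
  have hlt : cp C n k i₁ < cp C n k (i₁ + 2) := cp_mono C n k (by omega)
  have hlen : cp C n k (i₁ + 2) < (Lk C e f n k).length := by
    rw [length_Lk]; exact cp_mono C n k h3
  rcases times hl hl' w a b (cp C n k i₁) (cp C n k (i₁ + 2)) hab
    (by rw [List.length_map]; exact hb) hlt hlen hsep with ⟨s, hs⟩ | ⟨s, hs0, hs⟩
  · obtain ⟨h1, h2, h4⟩ := window_fwd hC n k k' α i₁ (i₁ + 2) le_rfl h3 s
      (fun j hj hj' => by
        obtain ⟨x, hx1, hx2, -⟩ := hs j hj hj'
        exact ⟨x, hx1, hx2⟩)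
    refine ⟨h1, ?_, h4⟩
    subst h1
    subst h4
    have hmap : (Lk C e f n k).map (kl (1 : Kg Ω)) = Lk C e f n k := by
      have : kl (1 : Kg Ω) = id := by
        funext p
        rfl
      rw [this, List.map_id]
    rw [hmap, h2] at hs
    apply eq_one hC n k w i₁ (i₁ + 2) le_rfl _ (by omega)
    intro j hj hj'
    obtain ⟨x, hx1, -, hx3⟩ := hs j hj hj'
    rw [show cp C n k i₁ + (j - cp C n k i₁) = j by omega] at hx3
    exact ⟨x, hx1, hx3⟩
  · exact (window_bwd hC n k k' α i₁ (i₁ + 2) le_rfl h3 s hs0 hs).elim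

theorem sep_of (hC : Cov C e f) (n k : ℕ) (X Y : Wg Ω)
    (h : cc C e f n k X + 3 ≤ cc C e f n k Y) :
    ∃ i₁, i₁ + 2 < n ∧ ∀ j, cp C n k i₁ ≤ j → j ≤ cp C n k (i₁ + 2) →
      (¬ bey (Lk C e f n k) j X ∧ bey (Lk C e f n k) j Y) := by
  have hl := rigid_Lk hC n k
  obtain ⟨i₁, hi⟩ := Int.eq_ofNat_of_zero_le (cc_range C e f n k X).1
  have hY := (cc_range C e f n k Y).2
  have hn : i₁ + 2 < n := by
    have : (i₁ : ℤ) + 3 ≤ n := by
      rw [hi] at h
      exact h.trans hY
    omega
  refine ⟨i₁, hn, fun j hj hj' => ⟨fun hb => ?_, ?_⟩⟩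
  · have h1 := (cc_iff hC n k X i₁ (by omega)).1 (bey_le hl hj hb)
    rw [hi] at h1
    exact lt_irrefl _ h1
  · refine bey_le hl hj' ((cc_iff hC n k Y (i₁ + 2) hn).2 ?_)
    push_cast
    rw [hi] at h
    linarith

end B10

theorem cc_ov (hC : Cov C e f) (n k k' : ℕ) (w : Wg Ω) (α : Kg Ω) :
    (k = k' ∧ w = 1 ∧ α = 1) ∨ ∀ a b, a ≤ (Lk C e f n k').length → b ≤ (Lk C e f n k').length →
      |cc C e f n k (w * actHomP α (pp (Lk C e f n k') a)) -
        cc C e f n k (w * actHomP α (pp (Lk C e f n k') b))| ≤ 2 := by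
  by_cases hA : k = k' ∧ w = 1 ∧ α = 1
  · exact Or.inl hA
  right
  have hlt : ∀ a b, a < b → a ≤ (Lk C e f n k').length → b ≤ (Lk C e f n k').length →
      |cc C e f n k (w * actHomP α (pp (Lk C e f n k') a)) -
        cc C e f n k (w * actHomP α (pp (Lk C e f n k') b))| ≤ 2 := by
    intro a b hab _ hb
    by_contra hcon
    apply hA
    rw [pp_act, pp_act] at hcon
    set X := w * pp ((Lk C e f n k').map (kl α)) a with hX
    set Y := w * pp ((Lk C e f n k').map (kl α)) b with hY
    rw [abs_le, not_and_or] at hcon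
    rcases hcon with h1 | h1
    · obtain ⟨i₁, hn, hs⟩ := B10.sep_of hC n k X Y (by omega)
      refine B10.main hC n k k' w α i₁ hn a b hab hb fun j hj hj' => ?_
      have := hs j hj hj'
      exact ⟨fun h => absurd h this.1, fun h => absurd this.2 h⟩
    · obtain ⟨i₁, hn, hs⟩ := B10.sep_of hC n k Y X (by omega)
      refine B10.main hC n k k' w α i₁ hn a b hab hb fun j hj hj' => ?_
      have := hs j hj hj'
      exact ⟨fun _ => this.1, fun _ => this.2⟩
  intro a b ha hb
  rcases lt_trichotomy a b with h | h | h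
  · exact hlt a b h ha hb
  · subst h
    simp
  · rw [abs_sub_comm]
    exact hlt b a h hb ha

end Pool.Agent.Lib.MP_c23930_al
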