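import Pool.Agent.Lib.MP_c23930_al.UDefs
import Pool.Agent.Lib.MP_60edde_al.Cocycle

/-!
# Definitions for block B: right-angled Coxeter groups
-/

set_option autoImplicit false

namespace Pool.Agent.Lib.MP_c23930_al

variable {Ω : Type}

/-- the two letters do not commute -/
def nc (p q : Ω × Ω) : Prop := p ≠ q ∧ (p.1 = q.1 ∨ p.2 = q.2)

/-- the two letters are different and commute -/
def cm (p q : Ω × Ω) : Prop := p.1 ≠ q.1 ∧ p.2 ≠ q.2

/-- left descent -/
def LD (w : Wg Ω) (p : Ω × Ω) : Prop := ell (sW p * w) < ell w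

/-- subgroup generated by a set of letters -/
noncomputable def WA (A : Set (Ω × Ω)) : Subgroup (Wg Ω) := Subgroup.closure (sW '' A)

/-- the wall of the reflection `t` separates `1` and `w` -/
def crs (w t : Wg Ω) : Prop :=
  Pool.Agent.Lib.MP_60edde_al.eta (crossM Ω).toCoxeterSystem w⁻¹ t = 1

/-- prefix products of a word -/
noncomputable def pp (l : List (Ω × Ω)) (j : ℕ) : Wg Ω := ((l.take j).map sW).prod

/-- rigid words: consecutive letters do not commute -/
def Rigid (l : List (Ω × Ω)) : Prop := l.IsChain nc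

/-- `w` is beyond the `j`-th wall of the word `l` -/
def bey (l : List (Ω × Ω)) (j : ℕ) (w : Wg Ω) : Prop :=
  ∃ x, l[j]? = some x ∧ LD ((pp l j)⁻¹ * w) x

/-- a covering rigid word `C` and two letters `e`, `f` -/
structure Cov (C : List (Ω × Ω)) (e f : Ω × Ω) : Prop where
  rigid : Rigid C
  cover : ∀ x, x ∈ C
  ef : nc e f
  hd : ∀ x, C.head? = some x → nc x f ∧ x ≠ e
  lst : ∀ x, C.getLast? = some x → nc x e ∧ x ≠ f
  split : ∃ C₁ C₂, C = C₁ ++ C₂ ∧ (∃ x, x ∉ C₁) ∧ ∃ x, x ∉ C₂
  third : ∃ x, x ≠ e ∧ x ≠ f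

/-- the word `(e f)^m` -/
def run (e f : Ω × Ω) (m : ℕ) : List (Ω × Ω) := (List.replicate m [e, f]).flatten

/-- exponent of the `i`-th run -/
def mi (C : List (Ω × Ω)) (n k i : ℕ) : ℕ := C.length + 3 + k * n + i

/-- the long words -/
def Lk (C : List (Ω × Ω)) (e f : Ω × Ω) (n k : ℕ) : List (Ω × Ω) :=
  (List.range n).flatMap fun i => C ++ run e f (mi C n k i)

/-- the position of the first letter of the `i`-th copy of `C` -/
def cp (C : List (Ω × Ω)) (n k i : ℕ) : ℕ :=
  ∑ i' ∈ Finset.range i, (C.length + 2 * mi C n k i')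

open Classical in
/-- number of chain walls crossed -/
noncomputable def cc (C : List (Ω × Ω)) (e f : Ω × Ω) (n k : ℕ) (w : Wg Ω) : ℤ :=
  ((Finset.range n).filter fun i => bey (Lk C e f n k) (cp C n k i) w).card

end Pool.Agent.Lib.MP_c23930_al
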