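import Pool.Agent.Lib.MP_c23930_al.B04
import Pool.Agent.Lib.MP_c23930_al.B10

/-!
# BMain: the chains of the factors
-/

set_option autoImplicit false

namespace Pool.Agent.Lib.MP_c23930_al

namespace BMain

variable {Ω : Type}

theorem left_mul (g h : Pg Ω) : (g * h).left = g.left * actHomP g.right h.left := rfl

theorem misses_one (x : Ω × Ω) : Misses (1 : Wg Ω) x := one_mem _

theorem act_inv (k : Kg Ω) (w : Wg Ω) : actHomP k (actHomP k⁻¹ w) = w := by
  rw [← actHomP_mul, mul_inv_cancel, actHomP_one]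

theorem act_inv' (k : Kg Ω) (w : Wg Ω) : actHomP k⁻¹ (actHomP k w) = w := by
  rw [← actHomP_mul, inv_mul_cancel, actHomP_one]

/-- the long elements -/
noncomputable def VB (C : List (Ω × Ω)) (e f : Ω × Ω) (n k : ℕ) : Pg Ω :=
  SemidirectProduct.inl (pp (Lk C e f n k) (Lk C e f n k).length)

/-- the segments -/
def SB (C : List (Ω × Ω)) (e f : Ω × Ω) (n k : ℕ) : Set (Pg Ω) :=
  {g | ∃ m ≤ (Lk C e f n k).length, g = SemidirectProduct.inl (pp (Lk C e f n k) m)}

/-- the coordinates -/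
noncomputable def cB (C : List (Ω × Ω)) (e f : Ω × Ω) (n k : ℕ) (g : Pg Ω) : ℤ :=
  cc C e f n k g.left

theorem mem_SB {C : List (Ω × Ω)} {e f : Ω × Ω} {n k : ℕ} {g : Pg Ω} (h : g ∈ SB C e f n k) :
    ∃ m ≤ (Lk C e f n k).length, g = SemidirectProduct.inl (pp (Lk C e f n k) m) := h

end BMain

open BMain

theorem chains_P (Ω : Type) [Fintype Ω] (h : 2 ≤ Fintype.card Ω) (n : ℕ) :
    ∃ V Seg c, Chains (shP Ω) (BP Ω) V Seg c n := by
  obtain ⟨C, e, f, hC⟩ := exists_cov Ω h
  refine ⟨VB C e f n, SB C e f n, cB C e f n, ?_⟩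
  refine
    { seg_one := ?_, seg_V := ?_, c_one := ?_, c_V := ?_, rng := ?_, lip := ?_, near := ?_,
      ov := ?_, met := ?_, hull := ?_ }
  · intro k
    refine ⟨0, Nat.zero_le _, ?_⟩
    simp [pp]
  · intro k
    exact ⟨_, le_refl _, rfl⟩
  · intro k
    exact cc_one hC n k
  · intro k
    exact cc_V hC n k
  · intro k g
    exact cc_range C e f n k g.left
  · rintro k g h ⟨x, hx⟩
    unfold cB
    rw [left_mul]
    exact cc_lip hC n k _ _ _ (misses_act g.right _ _ hx)
  · rintro k g h ⟨x, hx⟩ hne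
    unfold cB at hne
    rw [left_mul] at hne
    obtain ⟨a, b, ha, ⟨y, hb⟩, m, hm, hab⟩ := cc_near hC n k _ _ _ (misses_act g.right _ _ hx) hne
    refine ⟨SemidirectProduct.inl (actHomP g.right⁻¹ a), ⟨_, misses_act g.right⁻¹ _ _ ha⟩,
      ⟨actHomP g.right⁻¹ b, g.right⁻¹⟩, ⟨_, misses_act g.right⁻¹ _ _ hb⟩, m, hm, ?_⟩
    apply SemidirectProduct.ext
    · rw [left_mul, left_mul, SemidirectProduct.left_inl, SemidirectProduct.mul_right,
        SemidirectProduct.right_inl, mul_one, SemidirectProduct.left_inl]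
      show g.left * actHomP g.right (actHomP g.right⁻¹ a) * actHomP g.right (actHomP g.right⁻¹ b)
        = pp (Lk C e f n k) m
      rw [act_inv, act_inv, hab]
    · rw [SemidirectProduct.mul_right, SemidirectProduct.mul_right, SemidirectProduct.right_inl,
        SemidirectProduct.right_inl, mul_one]
      show g.right * g.right⁻¹ = 1
      rw [mul_inv_cancel]
  · intro k k' g
    rcases cc_ov hC n k k' g.left g.right with ⟨h1, h2, h3⟩ | h1
    · left
      refine ⟨h1, ?_⟩
      apply SemidirectProduct.ext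
      · rw [h2, SemidirectProduct.one_left]
      · rw [h3, SemidirectProduct.one_right]
    · right
      intro p hp p' hp'
      obtain ⟨a, ha, hpa⟩ := mem_SB hp
      obtain ⟨b, hb, hpb⟩ := mem_SB hp'
      unfold cB
      rw [left_mul, left_mul, hpa, hpb, SemidirectProduct.left_inl, SemidirectProduct.left_inl]
      exact h1 a b ha hb
  · intro k p hp p' hp'
    obtain ⟨a, ha, hpa⟩ := mem_SB hp
    obtain ⟨b, hb, hpb⟩ := mem_SB hp'
    obtain ⟨L, h1, h2, h3⟩ := cc_met hC n k a b ha hb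
    refine ⟨L.map (fun w => (SemidirectProduct.inl w : Pg Ω)), ?_, ?_, ?_⟩
    · intro g hg
      obtain ⟨w, hw, hgw⟩ := List.mem_map.1 hg
      obtain ⟨x, hx⟩ := h1 w hw
      refine ⟨x, ?_⟩
      rw [← hgw, SemidirectProduct.left_inl]
      exact hx
    · rw [hpa, hpb, ← map_inv, ← map_mul, ← h2]
      exact (map_list_prod (SemidirectProduct.inl : Wg Ω →* Pg Ω) L).symm
    · rw [List.length_map]
      unfold cB
      rw [hpa, hpb, SemidirectProduct.left_inl, SemidirectProduct.left_inl]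
      exact h3
  · intro k p hp p' hp' v hv
    obtain ⟨a, ha, hpa⟩ := mem_SB hp
    obtain ⟨b, hb, hpb⟩ := mem_SB hp'
    have hv1 : ∀ w : Wg Ω, (v⁻¹ * (SemidirectProduct.inl w : Pg Ω)).left =
        actHomP v.right⁻¹ (v.left⁻¹ * w) := by
      intro w
      rw [left_mul, SemidirectProduct.left_inl, SemidirectProduct.inv_left,
        SemidirectProduct.inv_right, map_mul]
      rfl
    unfold BP at hv
    rw [hpa, hpb, hv1, hv1, ell_act, ell_act, ← map_inv, ← map_mul, ell_act] at hv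
    have h1 : (v.left⁻¹ * pp (Lk C e f n k) a)⁻¹ * (v.left⁻¹ * pp (Lk C e f n k) b) =
        (pp (Lk C e f n k) a)⁻¹ * pp (Lk C e f n k) b := by group
    rw [h1] at hv
    have h2 : ell (v.left⁻¹ * pp (Lk C e f n k) a) = ell ((pp (Lk C e f n k) a)⁻¹ * v.left) := by
      have := (crossM Ω).toCoxeterSystem.length_inv (v.left⁻¹ * pp (Lk C e f n k) a)
      rw [mul_inv_rev, inv_inv] at this
      exact this.symm
    rw [h2] at hv
    obtain ⟨m, hm, hw⟩ := pp_interval (rigid_Lk hC n k) a b ha hb v.left hv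
    refine ⟨_, ⟨m, hm, rfl⟩, ?_⟩
    refine ⟨e, ?_⟩
    rw [hv1, hw, inv_mul_cancel, map_one]
    exact misses_one e

end Pool.Agent.Lib.MP_c23930_al
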