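import Pool.Agent.Lib.MP_c23930_al.UDefs

/-!
# D01: gates
-/

set_option autoImplicit false

namespace Pool.Agent.Lib.MP_c23930_al

open Monoid.CoprodI (of)

variable {ι : Type} {G : ι → Type} [∀ i, Group (G i)]

namespace D01

open Classical in
theorem gate_prod (i : ι) (w : Monoid.CoprodI.Word G) :
    gate i w.prod = (Monoid.CoprodI.Word.equivPair i w).head := by
  unfold gate
  have : Monoid.CoprodI.Word.equiv w.prod = w := Monoid.CoprodI.Word.equiv.right_inv w
  rw [this]

open Classical in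
theorem equiv_of_mul {i : ι} (m : G i) (g : Monoid.CoprodI G) :
    Monoid.CoprodI.Word.equiv (of m * g) = of m • Monoid.CoprodI.Word.equiv g := by
  change (of m * g) • (Monoid.CoprodI.Word.empty : Monoid.CoprodI.Word G) =
    of m • (g • (Monoid.CoprodI.Word.empty : Monoid.CoprodI.Word G))
  exact mul_smul _ _ _

end D01

open Classical in
theorem gate_one (i : ι) : gate i (1 : Monoid.CoprodI G) = 1 := by
  have h := D01.gate_prod (G := G) i Monoid.CoprodI.Word.empty
  rw [Monoid.CoprodI.Word.prod_empty] at h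
  rw [h, Monoid.CoprodI.Word.equivPair_eq_of_fstIdx_ne (by simp [Monoid.CoprodI.Word.fstIdx])]

open Classical in
theorem gate_of_mul (i : ι) (m : G i) (g : Monoid.CoprodI G) :
    gate i (of m * g) = m * gate i g := by
  unfold gate
  rw [D01.equiv_of_mul, Monoid.CoprodI.Word.equivPair_smul_same]

theorem gate_of (i : ι) (m : G i) : gate i (of m : Monoid.CoprodI G) = m := by
  have h := gate_of_mul i m (1 : Monoid.CoprodI G)
  rwa [mul_one, gate_one, mul_one] at h

namespace D01

open Classical in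
theorem fstIdx_of_gate {j : ι} (g : Monoid.CoprodI G) (hg : gate j g = 1) :
    (Monoid.CoprodI.Word.equiv g).fstIdx ≠ some j := by
  set w := Monoid.CoprodI.Word.equiv g with hw
  have h1 : (Monoid.CoprodI.Word.equivPair j w).head = 1 := hg
  have h2 := Monoid.CoprodI.Word.equivPair_head_smul_equivPair_tail (i := j) w
  rw [h1, map_one, one_smul] at h2
  rw [← h2]
  exact (Monoid.CoprodI.Word.equivPair j w).fstIdx_ne

end D01

open Classical in
/-- a syllable of another factor in front -/
theorem gate_ne {i j : ι} (hij : i ≠ j) (m : G j) (hm : m ≠ 1) (g : Monoid.CoprodI G)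
    (hg : gate j g = 1) : gate i (of m * g) = 1 := by
  have h1 := D01.fstIdx_of_gate g hg
  unfold gate
  rw [D01.equiv_of_mul, ← Monoid.CoprodI.Word.cons_eq_smul (h1 := h1) (h2 := hm),
    Monoid.CoprodI.Word.equivPair_eq_of_fstIdx_ne]
  rw [Monoid.CoprodI.Word.fstIdx_cons]
  intro h
  exact hij (Option.some.inj h).symm

namespace D01

open Classical in
/-- induction on reduced words in terms of gates -/
theorem gate_induction {p : Monoid.CoprodI G → Prop} (one : p 1)
    (cons : ∀ (l : ι) (b : G l) (g : Monoid.CoprodI G), b ≠ 1 → gate l g = 1 → p g → p (of b * g))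
    (g : Monoid.CoprodI G) : p g := by
  have key : ∀ w : Monoid.CoprodI.Word G, p w.prod := by
    intro w
    induction w using Monoid.CoprodI.Word.consRecOn with
    | empty => exact one
    | cons l b w h1 h2 ih =>
      rw [Monoid.CoprodI.Word.prod_cons]
      refine cons l b w.prod h2 ?_ ih
      rw [gate_prod, Monoid.CoprodI.Word.equivPair_eq_of_fstIdx_ne h1]
  have h := key (Monoid.CoprodI.Word.equiv g)
  rwa [show (Monoid.CoprodI.Word.equiv g).prod = g from
    Monoid.CoprodI.Word.equiv.left_inv g] at h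

/-- the decomposition at the gate -/
theorem gate_split (i : ι) (g : Monoid.CoprodI G) :
    ∃ g', g = of (gate i g) * g' ∧ gate i g' = 1 := by
  refine ⟨(of (gate i g))⁻¹ * g, by group, ?_⟩
  rw [← map_inv, gate_of_mul, inv_mul_cancel]

theorem gate_ne' {i j : ι} (hij : i ≠ j) (m : G j) (g : Monoid.CoprodI G)
    (hg : gate j g = 1) (hi : gate i g = 1) : gate i (of m * g) = 1 := by
  by_cases hm : m = 1
  · rw [hm, map_one, one_mul, hi]
  · exact gate_ne hij m hm g hg

theorem gate_of_ne {i j : ι} (hij : i ≠ j) (m : G j) : gate i (of m : Monoid.CoprodI G) = 1 := by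
  have h := gate_ne' hij m (1 : Monoid.CoprodI G) (gate_one j) (gate_one i)
  rwa [mul_one] at h

theorem gate_mul_right {j : ι} (h : G j) (g : Monoid.CoprodI G) :
    g ≠ 1 → ∀ i, gate i g = 1 → gate i (g * of h) = 1 := by
  refine gate_induction (p := fun g => g ≠ 1 → ∀ i, gate i g = 1 → gate i (g * of h) = 1) ?_ ?_ g
  · intro h1
    exact absurd rfl h1
  · intro l b g' hb hg' ih _ i hi
    have hil : i ≠ l := by
      rintro rfl
      rw [gate_of_mul, hg', mul_one] at hi
      exact hb hi
    rw [mul_assoc]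
    by_cases hg1 : g' = 1
    · rw [hg1, one_mul]
      by_cases hjl : j = l
      · subst hjl
        rw [← map_mul]
        exact gate_of_ne hil _
      · exact gate_ne hil b hb _ (gate_of_ne (fun e => hjl e.symm) h)
    · exact gate_ne hil b hb _ (ih hg1 l hg')

end D01

/-- right multiplication changes at most one gate -/
theorem gate_mul_of {i j : ι} (g : Monoid.CoprodI G) (h : G j)
    (hne : gate i (g * of h) ≠ gate i g) : i = j ∧ g = of (gate i g) := by
  obtain ⟨g', hg, hg'⟩ := D01.gate_split i g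
  have h1 : g' = 1 := by
    by_contra hg1
    apply hne
    conv_lhs => rw [hg]
    rw [mul_assoc, gate_of_mul, D01.gate_mul_right h g' hg1 i hg', mul_one]
  rw [h1, mul_one] at hg
  refine ⟨?_, hg⟩
  by_contra hij
  apply hne
  conv_lhs => rw [hg]
  rw [gate_of_mul, D01.gate_of_ne hij, mul_one]

theorem gate_step (sh : ∀ i, Set (G i)) (h1 : ∀ i, (1 : G i) ∈ sh i)
    (hinv : ∀ i, ∀ h ∈ sh i, h⁻¹ ∈ sh i) (u v : Monoid.CoprodI G) (h : (cay sh).Adj u v) :
    ∃ i, ∀ j g, gate j (g⁻¹ * u) ≠ gate j (g⁻¹ * v) → j = i ∧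
      ∃ a : G j, u = g * of a ∧ ∃ b ∈ sh j, gate j (g⁻¹ * v) = gate j (g⁻¹ * u) * b := by
  have key : ∀ (i : ι) (x : G i), x ∈ sh i → v = u * of x →
      ∀ j g, gate j (g⁻¹ * u) ≠ gate j (g⁻¹ * v) → j = i ∧
      ∃ a : G j, u = g * of a ∧ ∃ b ∈ sh j, gate j (g⁻¹ * v) = gate j (g⁻¹ * u) * b := by
    rintro i x hx rfl j g hne
    rw [← mul_assoc] at hne
    obtain ⟨e1, e2⟩ := gate_mul_of (g⁻¹ * u) x (Ne.symm hne)
    subst e1
    refine ⟨rfl, gate j (g⁻¹ * u), ?_, x, hx, ?_⟩
    · rw [← e2]; group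
    · rw [← mul_assoc]
      conv_lhs => rw [e2]
      rw [gate_of_mul, gate_of]
  rw [cay, SimpleGraph.fromRel_adj] at h
  rcases h.2 with ⟨i, x, hx, hv⟩ | ⟨i, x, hx, hu⟩
  · exact ⟨i, key i x hx hv⟩
  · refine ⟨i, key i x⁻¹ (hinv i x hx) ?_⟩
    rw [hu, map_inv]
    group

end Pool.Agent.Lib.MP_c23930_al
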