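import Pool.Agent.Lib.MP_c23930_al.D01

/-!
# D02: gates along a reduced bi-infinite line
-/

set_option autoImplicit false

namespace Pool.Agent.Lib.MP_c23930_al

open Monoid.CoprodI (of)

variable {ι : Type} {G : ι → Type} [∀ i, Group (G i)]

/-- a bi-infinite reduced word -/
structure Line (W : ℤ → Monoid.CoprodI G) (s : ℤ → Σ i, G i) : Prop where
  step : ∀ m, W (m + 1) = W m * of (s m).2
  ne : ∀ m, (s m).2 ≠ 1
  idx : ∀ m, (s m).1 ≠ (s (m + 1)).1

variable {W : ℤ → Monoid.CoprodI G} {s : ℤ → Σ i, G i}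

namespace D02

theorem gt_aux (h : Line W s) (k : ℕ) : ∀ m : ℤ,
    gate (s m).1 ((W m)⁻¹ * W (m + k + 1)) = (s m).2 ∧
      ∀ i, i ≠ (s m).1 → gate i ((W m)⁻¹ * W (m + k + 1)) = 1 := by
  induction k with
  | zero =>
    intro m
    have e : (W m)⁻¹ * W (m + ((0 : ℕ) : ℤ) + 1) = of (s m).2 := by
      rw [Nat.cast_zero, add_zero, h.step m]
      group
    rw [e]
    refine ⟨gate_of _ _, fun i hi => ?_⟩
    have := gate_ne hi (s m).2 (h.ne m) 1 (gate_one _)
    rwa [mul_one] at this
  | succ k ih =>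
    intro m
    have e : (W m)⁻¹ * W (m + ((k + 1 : ℕ) : ℤ) + 1) =
        of (s m).2 * ((W (m + 1))⁻¹ * W (m + 1 + k + 1)) := by
      have e2 : m + ((k + 1 : ℕ) : ℤ) + 1 = m + 1 + k + 1 := by push_cast; ring
      rw [e2]
      have e3 : of (s m).2 = (W m)⁻¹ * W (m + 1) := by
        rw [h.step m]
        group
      rw [e3]
      group
    have h1 : gate (s m).1 ((W (m + 1))⁻¹ * W (m + 1 + k + 1)) = 1 := (ih (m + 1)).2 _ (h.idx m)
    rw [e]
    refine ⟨?_, fun i hi => ?_⟩
    · rw [gate_of_mul, h1, mul_one]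
    · exact gate_ne hi _ (h.ne m) _ h1

theorem lt_aux (h : Line W s) (k : ℕ) : ∀ (m : ℤ) (i : ι), i ≠ (s (m - 1)).1 →
    gate i ((W m)⁻¹ * W (m - k - 1)) = 1 := by
  induction k with
  | zero =>
    intro m i hi
    have e : (W m)⁻¹ * W (m - ((0 : ℕ) : ℤ) - 1) = of ((s (m - 1)).2⁻¹) := by
      have := h.step (m - 1)
      rw [sub_add_cancel] at this
      rw [Nat.cast_zero, sub_zero, this, map_inv]
      group
    rw [e]
    have := gate_ne hi ((s (m - 1)).2⁻¹) (inv_ne_one.2 (h.ne (m - 1))) 1 (gate_one _)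
    rwa [mul_one] at this
  | succ k ih =>
    intro m i hi
    have e : (W m)⁻¹ * W (m - ((k + 1 : ℕ) : ℤ) - 1) =
        of ((s (m - 1)).2⁻¹) * ((W (m - 1))⁻¹ * W (m - 1 - k - 1)) := by
      have e2 : m - ((k + 1 : ℕ) : ℤ) - 1 = m - 1 - k - 1 := by push_cast; ring
      rw [e2]
      have e3 : of ((s (m - 1)).2⁻¹) = (W m)⁻¹ * W (m - 1) := by
        have := h.step (m - 1)
        rw [sub_add_cancel] at this
        rw [this, map_inv]
        group
      rw [e3]
      group
    rw [e]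
    refine gate_ne hi _ (inv_ne_one.2 (h.ne (m - 1))) _ (ih (m - 1) _ ?_)
    have := h.idx (m - 1 - 1)
    rw [sub_add_cancel] at this
    exact this.symm

end D02

/-- the gate of the part of the line behind `W m` -/
theorem Line.gate_gt (h : Line W s) (m m' : ℤ) (hm : m < m') :
    gate (s m).1 ((W m)⁻¹ * W m') = (s m).2 ∧
      ∀ i, i ≠ (s m).1 → gate i ((W m)⁻¹ * W m') = 1 := by
  have := D02.gt_aux h (m' - m - 1).toNat m
  have e : m + ((m' - m - 1).toNat : ℤ) + 1 = m' := by
    rw [Int.toNat_of_nonneg (by omega)]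
    ring
  rwa [e] at this

theorem Line.gate_lt (h : Line W s) (m m' : ℤ) (hm : m' < m) (i : ι) (hi : i ≠ (s (m - 1)).1) :
    gate i ((W m)⁻¹ * W m') = 1 := by
  have := D02.lt_aux h (m - m' - 1).toNat m i hi
  have e : m - ((m - m' - 1).toNat : ℤ) - 1 = m' := by
    rw [Int.toNat_of_nonneg (by omega)]
    ring
  rwa [e] at this

theorem Line.inj (h : Line W s) (m m' : ℤ) (hm : W m = W m') : m = m' := by
  have key : ∀ m m' : ℤ, m < m' → W m ≠ W m' := by
    intro m m' hlt he
    have h1 := (h.gate_gt m m' hlt).1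
    rw [he, inv_mul_cancel, gate_one] at h1
    exact h.ne m h1.symm
  rcases lt_trichotomy m m' with h1 | h1 | h1
  · exact absurd hm (key m m' h1)
  · exact h1
  · exact absurd hm.symm (key m' m h1)

/-- either the gate is constant along the line, or the line passes through the coset -/
theorem Line.piece (h : Line W s) (i : ι) (g : Monoid.CoprodI G) :
    (∀ m m', gate i (g⁻¹ * W m) = gate i (g⁻¹ * W m')) ∨
    ∃ (m₀ : ℤ) (x a : G i), s m₀ = ⟨i, x⟩ ∧ g⁻¹ * W m₀ = of a ∧
      (∀ m, m ≤ m₀ → gate i (g⁻¹ * W m) = a) ∧ ∀ m, m₀ < m → gate i (g⁻¹ * W m) = a * x := by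
  set f : ℤ → G i := fun m => gate i (g⁻¹ * W m) with hf
  have key1 : ∀ m, f (m + 1) ≠ f m → i = (s m).1 ∧ g⁻¹ * W m = of (f m) := by
    intro m hm
    simp only [hf] at hm ⊢
    rw [h.step m, ← mul_assoc] at hm
    exact gate_mul_of _ _ hm
  have key2 : ∀ m0 m1, m0 < m1 → f (m0 + 1) ≠ f m0 → f (m1 + 1) ≠ f m1 → False := by
    intro m0 m1 hlt h0 h1
    obtain ⟨hi, ha⟩ := key1 m0 h0
    obtain ⟨hi1, hb⟩ := key1 m1 h1
    have e : (W m0)⁻¹ * W m1 = of ((f m0)⁻¹ * f m1) := by
      rw [map_mul, map_inv, ← ha, ← hb]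
      group
    have h2 := (h.gate_gt m0 m1 hlt).1
    rw [e] at h2
    have h4 : of ((f m0)⁻¹ * f m1) = of (s m0).2 := by
      rw [← h2]
      clear_value f
      subst hi
      rw [gate_of]
    have h5 : W m1 = W (m0 + 1) := by
      rw [h.step m0, ← h4, ← e]
      group
    have h6 := h.inj _ _ h5
    subst h6
    exact h.idx m0 (hi.symm.trans hi1)
  by_cases hex : ∃ m0, f (m0 + 1) ≠ f m0
  · right
    obtain ⟨m0, hm0⟩ := hex
    obtain ⟨hi, ha⟩ := key1 m0 hm0
    have hconst : ∀ m, m ≠ m0 → f (m + 1) = f m := by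
      intro m hm
      by_contra hc
      rcases lt_or_gt_of_ne hm with h1 | h1
      · exact key2 m m0 h1 hc hm0
      · exact key2 m0 m h1 hm0 hc
    obtain ⟨x, hx⟩ : ∃ x : G i, s m0 = ⟨i, x⟩ := by
      clear_value f
      subst hi
      exact ⟨(s m0).2, rfl⟩
    have hnext : f (m0 + 1) = f m0 * x := by
      have h1 : g⁻¹ * W (m0 + 1) = of (f m0 * x) := by
        rw [h.step m0, hx, ← mul_assoc, ha, map_mul]
      calc f (m0 + 1) = gate i (g⁻¹ * W (m0 + 1)) := rfl
        _ = _ := by rw [h1, gate_of]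
    refine ⟨m0, x, f m0, hx, ha, ?_, ?_⟩
    · intro m hm
      change f m = f m0
      refine Int.le_induction_down (m := m0) (motive := fun m _ => f m = f m0) rfl ?_ m hm
      intro k hk ih
      rw [← ih]
      have := hconst (k - 1) (by omega)
      rw [sub_add_cancel] at this
      exact this.symm
    · intro m hm
      change f m = f m0 * x
      rw [← hnext]
      refine Int.le_induction (m := m0 + 1) (motive := fun m _ => f m = f (m0 + 1)) rfl ?_ m
        (by omega)
      intro k hk ih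
      rw [← ih]
      exact hconst k (by omega)
  · left
    push Not at hex
    have h0 : ∀ m, f m = f 0 := by
      intro m
      induction m using Int.induction_on with
      | zero => rfl
      | succ k ih => rw [hex, ih]
      | pred k ih =>
        have := hex (-(k : ℤ) - 1)
        rw [sub_add_cancel] at this
        rw [← this, ih]
    intro m m'
    exact (h0 m).trans (h0 m').symm

end Pool.Agent.Lib.MP_c23930_al
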