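import Pool.Agent.Lib.MP_c23930_al.D02

/-!
# D03: the axis of a relator
-/

set_option autoImplicit false

namespace Pool.Agent.Lib.MP_c23930_al

open Monoid.CoprodI (of)

namespace RelData

variable {ι : Type} {G : ι → Type} [∀ i, Group (G i)] {sh : ∀ i, Set (G i)}
  {B : ∀ i, G i → G i → Prop} {n : ℕ} (D : RelData G sh B n)

/-- period length -/
def pl (ρ : D.Sg) : ℕ := (D.per ρ).length

/-- the vertices of the axis of the relator -/
def wln (ρ : D.Sg) (m : ℤ) : Monoid.CoprodI G :=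
  D.r ρ ^ (m / D.pl ρ) * sprod ((D.per ρ).take (m % D.pl ρ).toNat)

/-- the syllables of the axis of the relator -/
def sy (ρ : D.Sg) (m : ℤ) : Σ i, G i :=
  (D.per ρ).getD (m % D.pl ρ).toNat ⟨D.M ρ, 1⟩

namespace D03aux

theorem sprod_append (l l' : List (Σ i, G i)) : sprod (l ++ l') = sprod l * sprod l' := by
  unfold sprod
  rw [List.map_append, List.prod_append]

theorem sprod_singleton (p : Σ i, G i) : sprod [p] = of p.2 := by
  simp [sprod]

end D03aux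

open D03aux

theorem pl_pos (ρ : D.Sg) : 2 ≤ D.pl ρ ∧ D.pl ρ ≤ 4 := by
  have h1 := D.xs_len ρ
  have h2 : 0 < (D.xs ρ).length := List.length_pos_iff.2 (D.xs_ne ρ)
  unfold pl per
  rw [List.length_cons]
  omega

theorem wln_mul (ρ : D.Sg) (j m : ℤ) : D.wln ρ (j * D.pl ρ + m) = D.r ρ ^ j * D.wln ρ m := by
  have h : (D.pl ρ : ℤ) ≠ 0 := by
    have := (D.pl_pos ρ).1
    omega
  unfold wln
  rw [add_comm, Int.add_mul_ediv_right _ _ h, Int.add_mul_emod_self_right, add_comm, zpow_add,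
    mul_assoc]

theorem wln_zero (ρ : D.Sg) : D.wln ρ 0 = 1 := by
  simp [wln, sprod]

theorem wln_nat (ρ : D.Sg) (k : ℕ) (hk : k ≤ D.pl ρ) :
    D.wln ρ k = sprod ((D.per ρ).take k) := by
  have h0 := (D.pl_pos ρ).1
  rcases lt_or_eq_of_le hk with h | h
  · have e1 : (k : ℤ) / (D.pl ρ : ℤ) = 0 := Int.ediv_eq_zero_of_lt (by omega) (by omega)
    have e2 : (k : ℤ) % (D.pl ρ : ℤ) = k := Int.emod_eq_of_lt (by omega) (by omega)
    unfold wln
    rw [e1, e2, zpow_zero, one_mul, Int.toNat_natCast]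
  · have e : D.wln ρ k = D.r ρ ^ (1 : ℤ) * D.wln ρ 0 := by
      rw [← D.wln_mul, h]
      congr 1
      omega
    rw [e, wln_zero, mul_one, zpow_one, h]
    unfold r pl
    rw [List.take_length]

theorem wln_one (ρ : D.Sg) : D.wln ρ 1 = of (D.VV ρ) := by
  have h0 := (D.pl_pos ρ).1
  have h := D.wln_nat ρ 1 (by omega)
  rw [Nat.cast_one] at h
  rw [h]
  unfold per
  rw [List.take_succ_cons, List.take_zero, sprod_singleton]

theorem sy_mul (ρ : D.Sg) (j m : ℤ) : D.sy ρ (j * D.pl ρ + m) = D.sy ρ m := by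
  unfold sy
  rw [add_comm, Int.add_mul_emod_self_right]

theorem sy_nat (ρ : D.Sg) (k : ℕ) (hk : k < (D.per ρ).length) : D.sy ρ k = (D.per ρ)[k] := by
  have e2 : (k : ℤ) % (D.pl ρ : ℤ) = k := Int.emod_eq_of_lt (by omega) (by unfold pl; omega)
  unfold sy
  rw [e2, Int.toNat_natCast]
  exact List.getD_eq_getElem _ _ hk

theorem sy_zero (ρ : D.Sg) : D.sy ρ 0 = ⟨D.M ρ, D.VV ρ⟩ := by
  have h0 := (D.pl_pos ρ).1
  have h := D.sy_nat ρ 0 (by unfold pl at h0; omega)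
  rw [Nat.cast_zero] at h
  rw [h]
  rfl

theorem sy_long (ρ : D.Sg) (j : ℤ) : D.sy ρ (j * D.pl ρ) = ⟨D.M ρ, D.VV ρ⟩ := by
  have h := D.sy_mul ρ j 0
  rw [add_zero] at h
  rw [h, sy_zero]

/-- decomposition of an integer -/
theorem dec (ρ : D.Sg) (m : ℤ) : ∃ (j : ℤ) (k : ℕ), k < D.pl ρ ∧ m = j * D.pl ρ + k ∧
    m % D.pl ρ = k := by
  have h0 := (D.pl_pos ρ).1
  have h1 : (0 : ℤ) < D.pl ρ := by omega
  have h2 := Int.emod_nonneg m h1.ne'
  have h3 := Int.emod_lt_of_pos m h1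
  have h4 := Int.mul_ediv_add_emod m (D.pl ρ)
  refine ⟨m / D.pl ρ, (m % D.pl ρ).toNat, by omega, ?_, by omega⟩
  have e : ((m % D.pl ρ).toNat : ℤ) = m % D.pl ρ := by omega
  rw [e, mul_comm]
  exact h4.symm

theorem sy_short (ρ : D.Sg) (m : ℤ) (hm : m % D.pl ρ ≠ 0) :
    (D.sy ρ m).2 ∈ sh (D.sy ρ m).1 ∧ (D.sy ρ m).2 ≠ 1 := by
  obtain ⟨j, k, hk, h1, h2⟩ := D.dec ρ m
  have hk0 : k ≠ 0 := by
    rintro rfl
    exact hm (by rw [h2]; rfl)
  obtain ⟨k', rfl⟩ := Nat.exists_eq_succ_of_ne_zero hk0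
  have hk2 : k' + 1 < (D.per ρ).length := hk
  have hk3 : k' < (D.xs ρ).length := by
    have : (D.per ρ).length = (D.xs ρ).length + 1 := List.length_cons
    omega
  have e : D.sy ρ m = (D.xs ρ)[k'] := by
    have e1 := D.sy_nat ρ (k' + 1) hk2
    have e2 := D.sy_mul ρ j ((k' + 1 : ℕ) : ℤ)
    rw [h1]
    exact e2.trans e1
  rw [e]
  exact D.xs_short ρ _ (List.getElem_mem _)

theorem VV_ne (hn : 1 ≤ n) (ρ : D.Sg) : D.VV ρ ≠ 1 := by
  intro h
  have h1 := (D.chains ρ).c_V (D.k ρ)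
  have h2 := (D.chains ρ).c_one (D.k ρ)
  unfold VV at h
  rw [h, h2] at h1
  omega

theorem line_rel (hn : 1 ≤ n) (ρ : D.Sg) : Line (D.wln ρ) (D.sy ρ) := by
  refine ⟨fun m => ?_, fun m => ?_, fun m => ?_⟩
  · obtain ⟨j, k, hk, h1, -⟩ := D.dec ρ m
    have hk' : k < (D.per ρ).length := hk
    rw [h1, add_assoc, wln_mul, wln_mul, sy_mul, mul_assoc]
    congr 1
    have e : ((k : ℤ) + 1) = ((k + 1 : ℕ) : ℤ) := by push_cast; rfl
    rw [e, D.wln_nat ρ (k + 1) hk, D.wln_nat ρ k hk.le, D.sy_nat ρ k hk',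
      ← List.take_append_getElem hk', sprod_append, sprod_singleton]
  · by_cases hm : m % D.pl ρ = 0
    · obtain ⟨j, k, hk, h1, h2⟩ := D.dec ρ m
      have hk0 : k = 0 := by omega
      subst hk0
      rw [Nat.cast_zero, add_zero] at h1
      rw [h1, sy_long]
      exact D.VV_ne hn ρ
    · exact (D.sy_short ρ m hm).2
  · obtain ⟨j, k, hk, h1, -⟩ := D.dec ρ m
    have hk' : k < (D.per ρ).length := hk
    have hc := D.xs_chain ρ
    have hc' : List.IsChain (fun p q : (Σ i, G i) => p.1 ≠ q.1)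
        (D.per ρ ++ [(⟨D.M ρ, D.VV ρ⟩ : Σ i, G i)]) := hc
    rw [List.isChain_iff_getElem] at hc'
    have h3 := hc' k (by rw [List.length_append, List.length_singleton]; omega)
    rw [List.getElem_append_left hk', ← D.sy_nat ρ k hk'] at h3
    rw [h1, add_assoc, sy_mul, sy_mul]
    rcases lt_or_eq_of_le (Nat.succ_le_of_lt hk') with h4 | h4
    · have e : ((k : ℤ) + 1) = ((k + 1 : ℕ) : ℤ) := by push_cast; rfl
      rw [List.getElem_append_left (show k + 1 < (D.per ρ).length from h4)] at h3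
      rw [e, D.sy_nat ρ (k + 1) h4]
      exact h3
    · have e : ((k : ℤ) + 1) = 1 * (D.pl ρ : ℤ) := by
        have : k + 1 = D.pl ρ := h4
        omega
      have e2 : (D.per ρ ++ [(⟨D.M ρ, D.VV ρ⟩ : Σ i, G i)])[k + 1]'(by
          rw [List.length_append, List.length_singleton]; omega) = ⟨D.M ρ, D.VV ρ⟩ := by
        rw [List.getElem_append_right (by omega)]
        simp
      rw [e, sy_long]
      rw [e2] at h3
      exact h3

/-- the points of the line `Y0` : vertices of the axis and points of the long segments -/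
theorem mem_Y0 (ρ : D.Sg) (v : Monoid.CoprodI G) : v ∈ D.Y0 ρ ↔
    (∃ m, v = D.wln ρ m) ∨ ∃ (j : ℤ), ∃ p ∈ D.Seg (D.M ρ) (D.k ρ), v = D.r ρ ^ j * of p := by
  constructor
  · rintro ⟨j, ⟨p, hp, rfl⟩ | ⟨m, hm, rfl⟩⟩
    · exact Or.inr ⟨j, p, hp, rfl⟩
    · refine Or.inl ⟨j * D.pl ρ + m, ?_⟩
      rw [wln_mul, D.wln_nat ρ m hm]
  · rintro (⟨m, rfl⟩ | ⟨j, p, hp, rfl⟩)
    · obtain ⟨j, k, hk, h1, -⟩ := D.dec ρ m
      refine ⟨j, Or.inr ⟨k, hk.le, ?_⟩⟩
      rw [h1, wln_mul, D.wln_nat ρ k hk.le]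
    · exact ⟨j, Or.inl ⟨p, hp, rfl⟩⟩

end RelData

end Pool.Agent.Lib.MP_c23930_al
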