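import Pool.Agent.Lib.MP_c23930_al.D03

/-!
# D04: cosets along the axis of a relator
-/

set_option autoImplicit false

namespace Pool.Agent.Lib.MP_c23930_al

open Monoid.CoprodI (of)

namespace RelData

variable {ι : Type} {G : ι → Type} [∀ i, Group (G i)] {sh : ∀ i, Set (G i)}
  {B : ∀ i, G i → G i → Prop} {n : ℕ} (D : RelData G sh B n)

theorem D04.pow_eq (ρ : D.Sg) (j : ℤ) : D.r ρ ^ j = D.wln ρ (j * D.pl ρ) := by
  have h := D.wln_mul ρ j 0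
  rw [add_zero, D.wln_zero, mul_one] at h
  exact h.symm

theorem D04.sy_zero (ρ : D.Sg) : D.sy ρ 0 = ⟨D.M ρ, D.VV ρ⟩ := by
  have h := D.sy_long ρ 0
  rwa [zero_mul] at h

theorem D04.VV_ne (hn : 1 ≤ n) (ρ : D.Sg) : D.VV ρ ≠ 1 := by
  have h := (D.line_rel hn ρ).ne 0
  rw [D04.sy_zero] at h
  exact h

theorem D04.gate_pos (hn : 1 ≤ n) (ρ : D.Sg) (j : ℤ) (hj : 0 < j) :
    gate (D.M ρ) (D.r ρ ^ j) = D.VV ρ := by
  have hp := (D.pl_pos ρ).1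
  have h := ((D.line_rel hn ρ).gate_gt 0 (j * D.pl ρ) (by positivity)).1
  rw [D04.sy_zero, D.wln_zero, inv_one, one_mul, ← D04.pow_eq] at h
  exact h

theorem D04.gate_neg (hn : 1 ≤ n) (ρ : D.Sg) (j : ℤ) (hj : j < 0) :
    gate (D.M ρ) (D.r ρ ^ j) = 1 := by
  have hp := (D.pl_pos ρ).1
  have hi := (D.line_rel hn ρ).idx (-1)
  have e : (-1 : ℤ) + 1 = 0 := by norm_num
  rw [e, D04.sy_zero] at hi
  have hlt : j * (D.pl ρ : ℤ) < 0 := mul_neg_of_neg_of_pos hj (by exact_mod_cast (by omega : 0 < D.pl ρ))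
  have h := (D.line_rel hn ρ).gate_lt 0 (j * D.pl ρ) hlt (D.M ρ) (by
    rw [zero_sub]
    exact fun e => hi e.symm)
  rw [D.wln_zero, inv_one, one_mul, ← D04.pow_eq] at h
  exact h

theorem gate_r_pos (hn : 1 ≤ n) (ρ : D.Sg) (j : ℤ) (hj : 0 < j) (a : G (D.M ρ)) :
    gate (D.M ρ) (D.r ρ ^ j * of a) = D.VV ρ := by
  have h0 := D04.gate_pos D hn ρ j hj
  by_contra hne
  have h1 : gate (D.M ρ) (D.r ρ ^ j * of a) ≠ gate (D.M ρ) (D.r ρ ^ j) := by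
    rw [h0]
    exact hne
  obtain ⟨-, h2⟩ := gate_mul_of _ _ h1
  rw [h0, ← D.wln_one, D04.pow_eq] at h2
  have h3 := (D.line_rel hn ρ).inj _ _ h2
  have hp := (D.pl_pos ρ).1
  have h4 : (D.pl ρ : ℤ) ∣ 1 := ⟨j, by rw [mul_comm]; exact h3.symm⟩
  have h5 := Int.le_of_dvd one_pos h4
  omega

theorem gate_r_neg (hn : 1 ≤ n) (ρ : D.Sg) (j : ℤ) (hj : j < 0) (a : G (D.M ρ)) :
    gate (D.M ρ) (D.r ρ ^ j * of a) = 1 := by
  have h0 := D04.gate_neg D hn ρ j hj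
  by_contra hne
  have h1 : gate (D.M ρ) (D.r ρ ^ j * of a) ≠ gate (D.M ρ) (D.r ρ ^ j) := by
    rw [h0]
    exact hne
  obtain ⟨-, h2⟩ := gate_mul_of _ _ h1
  rw [h0, map_one, ← D.wln_zero, D04.pow_eq] at h2
  have h3 := (D.line_rel hn ρ).inj _ _ h2
  have hp := (D.pl_pos ρ).1
  rcases mul_eq_zero.1 h3 with h | h
  · omega
  · have : D.pl ρ = 0 := by exact_mod_cast h
    omega

theorem D04.coset_lt (hn : 1 ≤ n) (ρ : D.Sg) (j j' : ℤ) (a a' : G (D.M ρ))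
    (h : D.r ρ ^ j * of a = D.r ρ ^ j' * of a') : ¬ j < j' := by
  intro hlt
  have e : D.r ρ ^ (j' - j) * of (a' * a⁻¹) = 1 := by
    rw [map_mul, map_inv, ← mul_assoc, sub_eq_neg_add, zpow_add, mul_assoc (D.r ρ ^ (-j)), ← h,
      zpow_neg]
    group
  have h1 := D.gate_r_pos hn ρ (j' - j) (by omega) (a' * a⁻¹)
  rw [e, gate_one] at h1
  exact D04.VV_ne D hn ρ h1.symm

theorem r_coset (hn : 1 ≤ n) (ρ : D.Sg) (j j' : ℤ) (a a' : G (D.M ρ))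
    (h : D.r ρ ^ j * of a = D.r ρ ^ j' * of a') : j = j' ∧ a = a' := by
  have h1 := D04.coset_lt D hn ρ j j' a a' h
  have h2 := D04.coset_lt D hn ρ j' j a' a h.symm
  have h3 : j = j' := by omega
  subst h3
  exact ⟨rfl, Monoid.CoprodI.of_injective _ (mul_left_cancel h)⟩

/-- the relator has infinite order -/
theorem r_inf (hn : 1 ≤ n) (ρ : D.Sg) (j : ℤ) (h : D.r ρ ^ j = 1) : j = 0 :=
  (D.r_coset hn ρ j 0 1 1 (by rw [h, zpow_zero])).1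

end RelData

end Pool.Agent.Lib.MP_c23930_al
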