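import Pool.Agent.Lib.MP_c23930_al.D04

/-!
# D05: the coordinate
-/

set_option autoImplicit false

namespace Pool.Agent.Lib.MP_c23930_al

open Monoid.CoprodI (of)

namespace RelData

variable {ι : Type} {G : ι → Type} [∀ i, Group (G i)] {sh : ∀ i, Set (G i)}
  {B : ∀ i, G i → G i → Prop} {n : ℕ} (D : RelData G sh B n)

/-- gate of `u` in the `j`-th long coset of the line `s` -/
noncomputable def gj (s : D.S) (j : ℤ) (u : Monoid.CoprodI G) : G (D.M s.1) :=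
  gate (D.M s.1) ((s.2.out * D.r s.1 ^ j)⁻¹ * u)

/-- coordinate function of the long segment -/
def cf (s : D.S) : G (D.M s.1) → ℤ := D.cc (D.M s.1) (D.k s.1)

namespace D05

theorem step_sub (hn : 1 ≤ n) (ρ : D.Sg) (u : Monoid.CoprodI G) (i : ι) (h : G i) :
    {j : ℤ | gate (D.M ρ) ((D.r ρ ^ j)⁻¹ * u) ≠
      gate (D.M ρ) ((D.r ρ ^ j)⁻¹ * (u * of h))}.Subsingleton := by
  intro j hj j' hj'
  simp only [Set.mem_ofPred_eq] at hj hj'
  rw [← mul_assoc] at hj hj'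
  have h1 := (gate_mul_of _ h hj.symm).2
  have h2 := (gate_mul_of _ h hj'.symm).2
  have e1 : u = D.r ρ ^ j * of (gate (D.M ρ) ((D.r ρ ^ j)⁻¹ * u)) := by
    rw [← h1]
    group
  have e2 : u = D.r ρ ^ j' * of (gate (D.M ρ) ((D.r ρ ^ j')⁻¹ * u)) := by
    rw [← h2]
    group
  exact (D.r_coset hn ρ j j' _ _ (e1.symm.trans e2)).1

theorem fin_mul (hn : 1 ≤ n) (ρ : D.Sg) (w : Monoid.CoprodI G) : ∀ u : Monoid.CoprodI G,
    {j : ℤ | gate (D.M ρ) ((D.r ρ ^ j)⁻¹ * u) ≠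
      gate (D.M ρ) ((D.r ρ ^ j)⁻¹ * (u * w))}.Finite := by
  induction w using Monoid.CoprodI.induction_on with
  | one => intro u; simp
  | of i m => intro u; exact (step_sub D hn ρ u i m).finite
  | mul x y hx hy =>
    intro u
    refine ((hx u).union (hy (u * x))).subset ?_
    intro j hj
    simp only [Set.mem_ofPred_eq, Set.mem_union] at hj ⊢
    by_contra hc
    push Not at hc
    rw [← mul_assoc u x y] at hj
    exact hj (hc.1.trans hc.2)

theorem fin0 (hn : 1 ≤ n) (ρ : D.Sg) (u v : Monoid.CoprodI G) :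
    {j : ℤ | gate (D.M ρ) ((D.r ρ ^ j)⁻¹ * u) ≠ gate (D.M ρ) ((D.r ρ ^ j)⁻¹ * v)}.Finite := by
  have := fin_mul D hn ρ (u⁻¹ * v) u
  simpa using this

theorem fin_supp (hn : 1 ≤ n) (ρ : D.Sg) (u v : Monoid.CoprodI G) :
    (Function.support fun j : ℤ => D.cc (D.M ρ) (D.k ρ) (gate (D.M ρ) ((D.r ρ ^ j)⁻¹ * u)) -
      D.cc (D.M ρ) (D.k ρ) (gate (D.M ρ) ((D.r ρ ^ j)⁻¹ * v))).Finite := by
  refine (fin0 D hn ρ u v).subset ?_
  intro j hj h
  apply hj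
  simp only [h, sub_self]

theorem P0_sub (hn : 1 ≤ n) (ρ : D.Sg) (u v : Monoid.CoprodI G) :
    D.P0 ρ u - D.P0 ρ v = ∑ᶠ j : ℤ, (D.cc (D.M ρ) (D.k ρ) (gate (D.M ρ) ((D.r ρ ^ j)⁻¹ * u)) -
      D.cc (D.M ρ) (D.k ρ) (gate (D.M ρ) ((D.r ρ ^ j)⁻¹ * v))) := by
  unfold P0
  have h1 := fin_supp D hn ρ u 1
  have h2 := fin_supp D hn ρ v 1
  simp only [mul_one] at h1 h2
  rw [← finsum_sub_distrib h1 h2]
  congr 1
  funext j
  ring

theorem P0_r1 (hn : 1 ≤ n) (ρ : D.Sg) (v : Monoid.CoprodI G) :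
    D.P0 ρ (D.r ρ * v) = D.P0 ρ v + n := by
  have h0 : D.P0 ρ v = ∑ᶠ j : ℤ, (D.cc (D.M ρ) (D.k ρ) (gate (D.M ρ) ((D.r ρ ^ (j - 1))⁻¹ * v)) -
      D.cc (D.M ρ) (D.k ρ) (gate (D.M ρ) ((D.r ρ ^ (j - 1))⁻¹))) := by
    unfold P0
    exact (finsum_comp_equiv (Equiv.subRight (1 : ℤ))
      (f := fun j : ℤ => D.cc (D.M ρ) (D.k ρ) (gate (D.M ρ) ((D.r ρ ^ j)⁻¹ * v)) -
        D.cc (D.M ρ) (D.k ρ) (gate (D.M ρ) ((D.r ρ ^ j)⁻¹)))).symm
  have e : ∀ j : ℤ, (D.r ρ ^ j)⁻¹ * (D.r ρ * v) = (D.r ρ ^ (j - 1))⁻¹ * v := by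
    intro j
    rw [← mul_assoc, ← zpow_neg, ← zpow_neg, ← zpow_add_one]
    congr 2
    ring
  have hs1 := fin_supp D hn ρ (D.r ρ * v) 1
  have hs2 : (Function.support fun j : ℤ =>
      D.cc (D.M ρ) (D.k ρ) (gate (D.M ρ) ((D.r ρ ^ (j - 1))⁻¹ * v)) -
      D.cc (D.M ρ) (D.k ρ) (gate (D.M ρ) ((D.r ρ ^ (j - 1))⁻¹))).Finite := by
    have h3 := fin_supp D hn ρ (D.r ρ * v) (D.r ρ)
    have e1 : ∀ j : ℤ, (D.r ρ ^ j)⁻¹ * D.r ρ = (D.r ρ ^ (j - 1))⁻¹ := by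
      intro j
      rw [← zpow_neg, ← zpow_neg, ← zpow_add_one]
      congr 1
      ring
    simp only [e, e1] at h3
    exact h3
  simp only [e, mul_one] at hs1
  have h1 : D.P0 ρ (D.r ρ * v) - D.P0 ρ v = ∑ᶠ j : ℤ,
      (D.cc (D.M ρ) (D.k ρ) (gate (D.M ρ) ((D.r ρ ^ (j - 1))⁻¹)) -
       D.cc (D.M ρ) (D.k ρ) (gate (D.M ρ) ((D.r ρ ^ j)⁻¹))) := by
    rw [h0]
    unfold P0
    simp only [e]
    rw [← finsum_sub_distrib hs1 hs2]
    congr 1
    funext j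
    ring
  have hB : ∀ j : ℤ, D.cc (D.M ρ) (D.k ρ) (gate (D.M ρ) ((D.r ρ ^ j)⁻¹)) = if j < 0 then (n : ℤ) else 0 := by
    intro j
    rw [← zpow_neg]
    rcases lt_trichotomy j 0 with hj | hj | hj
    · rw [if_pos hj]
      have := D.gate_r_pos hn ρ (-j) (by omega) 1
      rw [map_one, mul_one] at this
      rw [this]
      exact (D.chains ρ).c_V (D.k ρ)
    · rw [if_neg (by omega), hj, neg_zero, zpow_zero, gate_one]
      exact (D.chains ρ).c_one (D.k ρ)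
    · rw [if_neg (by omega)]
      have := D.gate_r_neg hn ρ (-j) (by omega) 1
      rw [map_one, mul_one] at this
      rw [this]
      exact (D.chains ρ).c_one (D.k ρ)
  simp only [hB] at h1
  rw [finsum_eq_single _ (0 : ℤ)] at h1
  · simp at h1
    omega
  · intro j hj
    split_ifs <;> first | omega | simp

end D05

theorem gj_fin (hn : 1 ≤ n) (s : D.S) (u v : Monoid.CoprodI G) :
    {j : ℤ | D.gj s j u ≠ D.gj s j v}.Finite := by
  refine (D05.fin0 D hn s.1 (s.2.out⁻¹ * u) (s.2.out⁻¹ * v)).subset ?_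
  intro j hj
  simp only [Set.mem_ofPred_eq, gj] at hj ⊢
  rw [← mul_assoc, ← mul_assoc, ← mul_inv_rev]
  exact hj

theorem P_sub (hn : 1 ≤ n) (s : D.S) (u v : Monoid.CoprodI G) :
    D.P s u - D.P s v = ∑ᶠ j : ℤ, (D.cf s (D.gj s j u) - D.cf s (D.gj s j v)) := by
  unfold P
  rw [D05.P0_sub D hn]
  congr 1
  funext j
  unfold cf gj
  rw [← mul_assoc, ← mul_assoc, ← mul_inv_rev]

theorem P0_r (hn : 1 ≤ n) (ρ : D.Sg) (v : Monoid.CoprodI G) (j : ℤ) :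
    D.P0 ρ (D.r ρ ^ j * v) = D.P0 ρ v + j * n := by
  induction j using Int.induction_on with
  | zero => simp
  | succ i hi =>
    rw [add_comm (i : ℤ) 1, zpow_add, zpow_one, mul_assoc, D05.P0_r1 D hn, hi]
    ring
  | pred i hi =>
    have h1 := D05.P0_r1 D hn ρ (D.r ρ ^ (-(i : ℤ) - 1) * v)
    have e : D.r ρ * (D.r ρ ^ (-(i : ℤ) - 1) * v) = D.r ρ ^ (-(i : ℤ)) * v := by
      rw [← mul_assoc, ← zpow_one_add]
      congr 2
      ring
    rw [e, hi] at h1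
    linarith

/-- one step changes the coordinate only inside a long coset of the line -/
theorem P_step (hn : 1 ≤ n) (s : D.S) (u : Monoid.CoprodI G) (i : ι) (h : G i)
    (hne : D.P s (u * of h) ≠ D.P s u) : i = D.M s.1 ∧
    ∃ (j : ℤ) (a b : G (D.M s.1)), (⟨i, h⟩ : Σ i, G i) = ⟨D.M s.1, b⟩ ∧
      u = s.2.out * D.r s.1 ^ j * of a ∧
      D.P s (u * of h) - D.P s u = D.cf s (a * b) - D.cf s a := by
  have hps := D.P_sub hn s (u * of h) u
  have key : ∀ j, D.gj s j (u * of h) ≠ D.gj s j u → D.M s.1 = i ∧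
      u = s.2.out * D.r s.1 ^ j * of (D.gj s j u) := by
    intro j hj
    unfold gj at hj ⊢
    rw [← mul_assoc] at hj
    obtain ⟨h1, h2⟩ := gate_mul_of _ h hj
    refine ⟨h1, ?_⟩
    rw [← h2]
    group
  have hex : ∃ j, D.cf s (D.gj s j (u * of h)) - D.cf s (D.gj s j u) ≠ 0 := by
    by_contra hc
    push Not at hc
    simp only [hc, finsum_zero] at hps
    exact hne (by omega)
  obtain ⟨j, hj⟩ := hex
  have hj' : D.gj s j (u * of h) ≠ D.gj s j u := by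
    intro h'
    apply hj
    rw [h', sub_self]
  obtain ⟨hi, hu⟩ := key j hj'
  subst hi
  refine ⟨rfl, j, D.gj s j u, h, rfl, hu, ?_⟩
  have huniq : ∀ j', j' ≠ j → D.cf s (D.gj s j' (u * of h)) - D.cf s (D.gj s j' u) = 0 := by
    intro j' hjj
    by_contra hc
    have hj2 : D.gj s j' (u * of h) ≠ D.gj s j' u := by
      intro h'
      apply hc
      rw [h', sub_self]
    obtain ⟨-, hu'⟩ := key j' hj2
    apply hjj
    have h3 : D.r s.1 ^ j' * of (D.gj s j' u) = D.r s.1 ^ j * of (D.gj s j u) := by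
      have := hu'.symm.trans hu
      rw [mul_assoc, mul_assoc] at this
      exact mul_left_cancel this
    exact (D.r_coset hn s.1 j' j _ _ h3).1
  rw [hps, finsum_eq_single _ j huniq]
  have e : D.gj s j (u * of h) = D.gj s j u * h := by
    have e2 : (s.2.out * D.r s.1 ^ j)⁻¹ * (u * of h) = of (D.gj s j u * h) := by
      rw [map_mul]
      calc (s.2.out * D.r s.1 ^ j)⁻¹ * (u * of h) = (s.2.out * D.r s.1 ^ j)⁻¹ *
            ((s.2.out * D.r s.1 ^ j * of (D.gj s j u)) * of h) := by rw [← hu]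
        _ = _ := by group
    calc D.gj s j (u * of h) = gate (D.M s.1) (of (D.gj s j u * h)) := by
          rw [← e2]
          rfl
      _ = _ := gate_of _ _
  rw [e]

end RelData

end Pool.Agent.Lib.MP_c23930_al
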