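import Pool.Agent.Lib.MP_c23930_al.D05

/-!
# D06: gates of the points of a line
-/

set_option autoImplicit false

namespace Pool.Agent.Lib.MP_c23930_al

open Monoid.CoprodI (of)

namespace RelData

variable {ι : Type} {G : ι → Type} [∀ i, Group (G i)] {sh : ∀ i, Set (G i)}
  {B : ∀ i, G i → G i → Prop} {n : ℕ} (D : RelData G sh B n)

namespace D06

/-- the vertices of the line `s` -/
noncomputable def WW (s : D.S) (m : ℤ) : Monoid.CoprodI G := s.2.out * D.wln s.1 m

theorem line_WW (hn : 1 ≤ n) (s : D.S) : Line (WW D s) (D.sy s.1) := by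
  have h := D.line_rel hn s.1
  refine ⟨fun m => ?_, h.ne, h.idx⟩
  unfold WW
  rw [h.step m, mul_assoc]

theorem WW_mul (s : D.S) (j : ℤ) : WW D s (j * D.pl s.1) = s.2.out * D.r s.1 ^ j := by
  unfold WW
  have := D.wln_mul s.1 j 0
  rw [add_zero, D.wln_zero, mul_one] at this
  rw [this]

theorem WW_mul_one (s : D.S) (j : ℤ) :
    WW D s (j * D.pl s.1 + 1) = s.2.out * D.r s.1 ^ j * of (D.VV s.1) := by
  unfold WW
  rw [D.wln_mul s.1 j 1, D.wln_one, mul_assoc]

theorem mem_Y (s : D.S) (u : Monoid.CoprodI G) : u ∈ D.Y s ↔ (∃ m, u = WW D s m) ∨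
    ∃ (j : ℤ), ∃ p ∈ D.Seg (D.M s.1) (D.k s.1), u = s.2.out * D.r s.1 ^ j * of p := by
  unfold Y WW
  rw [Set.mem_ofPred_eq, D.mem_Y0]
  constructor
  · rintro (⟨m, hm⟩ | ⟨j, p, hp, hj⟩)
    · exact Or.inl ⟨m, by rw [← hm, mul_inv_cancel_left]⟩
    · exact Or.inr ⟨j, p, hp, by rw [mul_assoc, ← hj, mul_inv_cancel_left]⟩
  · rintro (⟨m, hm⟩ | ⟨j, p, hp, hj⟩)
    · exact Or.inl ⟨m, by rw [hm, inv_mul_cancel_left]⟩
    · exact Or.inr ⟨j, p, hp, by rw [hj, mul_assoc, inv_mul_cancel_left]⟩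

theorem VV_ne (hn : 1 ≤ n) (ρ : D.Sg) : D.VV ρ ≠ 1 := by
  have h := (D.line_rel hn ρ).ne (0 * D.pl ρ)
  rwa [D.sy_long ρ 0] at h

/-- if the gate of a point of a long coset differs from that of the base point, then the gate
changes at the long syllable -/
theorem change (hn : 1 ≤ n) (s : D.S) (i : ι) (g : Monoid.CoprodI G) (j : ℤ) (p : G (D.M s.1))
    (hne : gate i (g⁻¹ * (s.2.out * D.r s.1 ^ j * of p)) ≠ gate i (g⁻¹ * (s.2.out * D.r s.1 ^ j))) :
    gate i (g⁻¹ * WW D s (j * D.pl s.1 + 1)) ≠ gate i (g⁻¹ * WW D s (j * D.pl s.1)) ∧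
      i = D.M s.1 ∧ ∃ b : G (D.M s.1), g⁻¹ * (s.2.out * D.r s.1 ^ j) = of b := by
  rw [← mul_assoc] at hne
  obtain ⟨hi, ha⟩ := gate_mul_of _ p hne
  subst hi
  refine ⟨?_, rfl, _, ha⟩
  rw [WW_mul_one, WW_mul, ← mul_assoc]
  rw [ha, gate_of, ← map_mul, gate_of]
  intro h
  exact VV_ne D hn s.1 (mul_eq_left.1 h)

end D06

open D06 in
theorem Y_gates (hn : 1 ≤ n) (s : D.S) (i : ι) (g : Monoid.CoprodI G) :
    (∀ u ∈ D.Y s, ∀ v ∈ D.Y s, gate i (g⁻¹ * u) = gate i (g⁻¹ * v)) ∨
    (∃ a x : G i, x ∈ sh i ∧ g * of a ∈ D.Y s ∧ g * of (a * x) ∈ D.Y s ∧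
      ∀ u ∈ D.Y s, gate i (g⁻¹ * u) = a ∨ gate i (g⁻¹ * u) = a * x) ∨
    (i = D.M s.1 ∧ ∃ (j : ℤ) (a : G (D.M s.1)), g * of a = s.2.out * D.r s.1 ^ j ∧
      ∀ u ∈ D.Y s, ∃ q ∈ D.Seg (D.M s.1) (D.k s.1), gate (D.M s.1) (g⁻¹ * u) = a * q) := by
  have hL := line_WW D hn s
  have hpl : 2 ≤ D.pl s.1 := (D.pl_pos s.1).1
  rcases hL.piece i g with hc | ⟨m0, x, a, hm0, hga, hle, hgt⟩
  · left
    have key : ∀ u ∈ D.Y s, gate i (g⁻¹ * u) = gate i (g⁻¹ * WW D s 0) := by
      intro u hu
      rcases (mem_Y D s u).1 hu with ⟨m, rfl⟩ | ⟨j, p, hp, rfl⟩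
      · exact hc _ _
      · by_contra hne
        have h1 : gate i (g⁻¹ * (s.2.out * D.r s.1 ^ j)) = gate i (g⁻¹ * WW D s 0) := by
          rw [← WW_mul]
          exact hc _ _
        rw [← h1] at hne
        exact (change D hn s i g j p hne).1 (hc _ _)
    intro u hu v hv
    rw [key u hu, key v hv]
  · -- the gate changes only at m0
    have honly : ∀ m, gate i (g⁻¹ * WW D s (m + 1)) ≠ gate i (g⁻¹ * WW D s m) → m = m0 := by
      intro m hm
      by_contra hne
      rcases lt_or_gt_of_ne hne with h1 | h1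
      · exact hm (by rw [hle _ (by omega), hle _ (by omega)])
      · exact hm (by rw [hgt _ (by omega), hgt _ (by omega)])
    have hval : ∀ m, gate i (g⁻¹ * WW D s m) = a ∨ gate i (g⁻¹ * WW D s m) = a * x := by
      intro m
      rcases le_or_gt m m0 with h1 | h1
      · exact Or.inl (hle m h1)
      · exact Or.inr (hgt m h1)
    right
    have hga' : g * of a = WW D s m0 := by
      rw [← hga]
      group
    by_cases hmod : m0 % D.pl s.1 = 0
    · right
      have hm0' : m0 = m0 / D.pl s.1 * D.pl s.1 := by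
        have := Int.mul_ediv_add_emod m0 (D.pl s.1)
        rw [hmod, add_zero, mul_comm] at this
        exact this.symm
      set j0 := m0 / D.pl s.1 with hj0
      rw [hm0', D.sy_long s.1 j0] at hm0
      obtain ⟨rfl, hx⟩ := Sigma.mk.inj hm0
      have hx' := eq_of_heq hx
      refine ⟨rfl, j0, a, ?_, ?_⟩
      · rw [hga', hm0', WW_mul]
      · have hch := D.chains s.1
        have hline : ∀ m, ∃ q ∈ D.Seg (D.M s.1) (D.k s.1),
            gate (D.M s.1) (g⁻¹ * WW D s m) = a * q := by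
          intro m
          rcases hval m with h1 | h1
          · exact ⟨1, hch.seg_one _, by rw [h1, mul_one]⟩
          · exact ⟨D.VV s.1, hch.seg_V _, by rw [h1, hx']⟩
        intro u hu
        rcases (mem_Y D s u).1 hu with ⟨m, rfl⟩ | ⟨j, p, hp, rfl⟩
        · exact hline m
        · by_cases hj : j = j0
          · refine ⟨p, hp, ?_⟩
            have e : g⁻¹ * (s.2.out * D.r s.1 ^ j * of p) = of (a * p) := by
              rw [map_mul, ← hga, hj, hm0', WW_mul]
              group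
            rw [e, gate_of]
          · by_cases hne : gate (D.M s.1) (g⁻¹ * (s.2.out * D.r s.1 ^ j * of p)) =
              gate (D.M s.1) (g⁻¹ * (s.2.out * D.r s.1 ^ j))
            · rw [hne, ← WW_mul]
              exact hline _
            · exfalso
              obtain ⟨-, -, b, hb⟩ := change D hn s _ g j p hne
              apply hj
              have e1 : s.2.out * D.r s.1 ^ j * of b⁻¹ = g := by
                rw [map_inv, ← hb]
                group
              have e2 : s.2.out * D.r s.1 ^ j0 * of a⁻¹ = g := by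
                rw [map_inv, ← hga, hm0', WW_mul]
                group
              have e3 := e1.trans e2.symm
              rw [mul_assoc, mul_assoc] at e3
              exact (D.r_coset hn s.1 j j0 _ _ (mul_left_cancel e3)).1
    · left
      have hsh := (D.sy_short s.1 m0 hmod).1
      rw [hm0] at hsh
      refine ⟨a, x, hsh, ?_, ?_, ?_⟩
      · rw [hga']
        exact (mem_Y D s _).2 (Or.inl ⟨m0, rfl⟩)
      · have : g * of (a * x) = WW D s (m0 + 1) := by
          rw [map_mul, ← mul_assoc, hga', hL.step m0, hm0]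
        rw [this]
        exact (mem_Y D s _).2 (Or.inl ⟨m0 + 1, rfl⟩)
      · intro u hu
        rcases (mem_Y D s u).1 hu with ⟨m, rfl⟩ | ⟨j, p, hp, rfl⟩
        · exact hval m
        · by_cases hne : gate i (g⁻¹ * (s.2.out * D.r s.1 ^ j * of p)) =
              gate i (g⁻¹ * (s.2.out * D.r s.1 ^ j))
          · rw [hne, ← WW_mul]
            exact hval _
          · exfalso
            have h1 := (change D hn s i g j p hne).1
            have h2 := honly _ h1
            apply hmod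
            rw [← h2]
            simp

open D06 in
/-- if the gate in the coset of `g` is not constant on the line `s`, then the line meets the coset -/
theorem Y_meets (hn : 1 ≤ n) (s : D.S) (i : ι) (g u v : Monoid.CoprodI G) (hu : u ∈ D.Y s)
    (hv : v ∈ D.Y s) (hne : gate i (g⁻¹ * u) ≠ gate i (g⁻¹ * v)) :
    ∃ a : G i, g * of a ∈ D.Y s := by
  rcases D.Y_gates hn s i g with h | ⟨a, x, -, ha, -, -⟩ | ⟨hi, j, a, ha, -⟩
  · exact absurd (h u hu v hv) hne
  · exact ⟨a, ha⟩
  · subst hi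
    refine ⟨a, ?_⟩
    rw [ha, ← WW_mul]
    exact (mem_Y D s _).2 (Or.inl ⟨_, rfl⟩)

end RelData

end Pool.Agent.Lib.MP_c23930_al
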