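import Pool.Agent.Lib.MP_c23930_al.D01

/-!
# D07: intervals in the free product
-/

set_option autoImplicit false

namespace Pool.Agent.Lib.MP_c23930_al

open Monoid.CoprodI (of)

variable {ι : Type} {G : ι → Type} [∀ i, Group (G i)] {sh : ∀ i, Set (G i)}
  {B : ∀ i, G i → G i → Prop}

namespace D07

theorem adj_or_eq (u : Monoid.CoprodI G) (i : ι) (h : G i) (hh : h ∈ sh i) :
    u = u * of h ∨ (cay sh).Adj u (u * of h) := by
  by_cases e : u = u * of h
  · exact Or.inl e
  · refine Or.inr ?_
    rw [cay, SimpleGraph.fromRel_adj]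
    exact ⟨e, Or.inl ⟨i, h, hh, rfl⟩⟩

theorem reach_of (u : Monoid.CoprodI G) (i : ι) (h : G i) (hh : h ∈ sh i) :
    (cay sh).Reachable u (u * of h) := by
  rcases adj_or_eq u i h hh with e | e
  · exact e ▸ SimpleGraph.Reachable.refl u
  · exact e.reachable

end D07

theorem cay_conn (hF : ∀ i, Fac (sh i) (B i)) : (cay sh).Connected := by
  have h1 : ∀ g u : Monoid.CoprodI G, (cay sh).Reachable u (u * g) := by
    intro g
    induction g using Monoid.CoprodI.induction_on with
    | one => intro u; rw [mul_one]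
    | of i m =>
      intro u
      obtain ⟨n, p, hp0, hpn, hstep, -⟩ := (hF i).path m
      have h2 : ∀ t ≤ n, (cay sh).Reachable u (u * of (p t)) := by
        intro t
        induction t with
        | zero => intro _; rw [hp0, map_one, mul_one]
        | succ t ih =>
          intro ht
          refine (ih (by omega)).trans ?_
          have h3 := D07.reach_of (u * of (p t)) i _ (hstep t (by omega))
          rwa [mul_assoc, ← map_mul, mul_inv_cancel_left] at h3
      rw [← hpn]
      exact h2 n le_rfl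
    | mul x y hx hy =>
      intro u
      rw [← mul_assoc]
      exact (hx u).trans (hy (u * x))
  refine (SimpleGraph.connected_iff _).2 ⟨fun u v => ?_, ⟨1⟩⟩
  have h2 := h1 (u⁻¹ * v) u
  rwa [mul_inv_cancel_left] at h2

/-- left multiplication is an automorphism -/
theorem cay_adj (g u v : Monoid.CoprodI G) (h : (cay sh).Adj u v) :
    (cay sh).Adj (g * u) (g * v) := by
  rw [cay, SimpleGraph.fromRel_adj] at h ⊢
  obtain ⟨h1, h2⟩ := h
  refine ⟨fun e => h1 (mul_left_cancel e), ?_⟩
  rcases h2 with ⟨i, x, hx, e⟩ | ⟨i, x, hx, e⟩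
  · exact Or.inl ⟨i, x, hx, by rw [e, mul_assoc]⟩
  · exact Or.inr ⟨i, x, hx, by rw [e, mul_assoc]⟩

theorem cay_dist_of (hF : ∀ i, Fac (sh i) (B i)) (u : Monoid.CoprodI G) (i : ι) (h : G i)
    (hh : h ∈ sh i) : (cay sh).dist u (u * of h) ≤ 1 := by
  have _ := hF
  rcases D07.adj_or_eq u i h hh with e | e
  · rw [← e, SimpleGraph.dist_self]
    exact Nat.zero_le _
  · rw [SimpleGraph.dist_eq_one_iff_adj.2 e]

theorem II_thin (hF : ∀ i, Fac (sh i) (B i)) (x y z w : Monoid.CoprodI G) (hw : w ∈ II B x y) :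
    ∃ v, (v ∈ II B x z ∨ v ∈ II B z y) ∧ (cay sh).dist w v ≤ 1 := by
  rcases hw with (rfl | rfl) | ⟨i, hne, hB⟩
  · exact ⟨w, Or.inl (Or.inl (Or.inl rfl)), by rw [SimpleGraph.dist_self]; exact Nat.zero_le _⟩
  · exact ⟨w, Or.inr (Or.inl (Or.inr rfl)), by rw [SimpleGraph.dist_self]; exact Nat.zero_le _⟩
  · by_cases hca : gate i (w⁻¹ * z) = gate i (w⁻¹ * x)
    · refine ⟨w, Or.inr (Or.inr ⟨i, ?_, ?_⟩), by rw [SimpleGraph.dist_self]; exact Nat.zero_le _⟩
      · rw [hca]; exact hne
      · rw [hca]; exact hB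
    · by_cases hcb : gate i (w⁻¹ * z) = gate i (w⁻¹ * y)
      · refine ⟨w, Or.inl (Or.inr ⟨i, ?_, ?_⟩), by rw [SimpleGraph.dist_self]; exact Nat.zero_le _⟩
        · rw [hcb]; exact hne
        · rw [hcb]; exact hB
      · obtain ⟨q, hq, hq'⟩ := (hF i).thin _ _ (gate i (w⁻¹ * z)) hB
        have e : ∀ t, (w * of q)⁻¹ * t = of q⁻¹ * (w⁻¹ * t) := by
          intro t
          rw [map_inv, mul_inv_rev, mul_assoc]
        refine ⟨w * of q, ?_, cay_dist_of hF w i q hq⟩
        rcases hq' with h | h
        · refine Or.inl (Or.inr ⟨i, ?_, ?_⟩)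
          · rw [e, e, gate_of_mul, gate_of_mul]
            intro h'
            exact hca (mul_left_cancel h').symm
          · rw [e, e, gate_of_mul, gate_of_mul]
            exact h
        · refine Or.inr (Or.inr ⟨i, ?_, ?_⟩)
          · rw [e, e, gate_of_mul, gate_of_mul]
            intro h'
            exact hcb (mul_left_cancel h')
          · rw [e, e, gate_of_mul, gate_of_mul]
            exact h

theorem II_small (hF : ∀ i, Fac (sh i) (B i)) (x y : Monoid.CoprodI G)
    (h : (cay sh).dist x y ≤ 1) (w : Monoid.CoprodI G) (hw : w ∈ II B x y) :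
    (cay sh).dist x w ≤ 1 := by
  have hc := cay_conn hF
  rcases hw with (rfl | rfl) | ⟨i, hne, hB⟩
  · rw [SimpleGraph.dist_self]; exact Nat.zero_le _
  · exact h
  · have key : ∃ (j : ι) (t : G j), t ∈ sh j ∧ y = x * of t := by
      rcases Nat.le_one_iff_eq_zero_or_eq_one.1 h with h0 | h1
      · have e := hc.dist_eq_zero_iff.1 h0
        exact absurd (by rw [e]) hne
      · have ha := SimpleGraph.dist_eq_one_iff_adj.1 h1
        rw [cay, SimpleGraph.fromRel_adj] at ha
        rcases ha.2 with ⟨j, t, ht, e⟩ | ⟨j, t, ht, e⟩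
        · exact ⟨j, t, ht, e⟩
        · exact ⟨j, t⁻¹, (hF j).inv t ht, by rw [e, map_inv]; group⟩
    obtain ⟨j, t, ht, rfl⟩ := key
    rw [← mul_assoc] at hne hB
    obtain ⟨e1, e2⟩ := gate_mul_of (w⁻¹ * x) t (Ne.symm hne)
    subst e1
    have e3 : gate i (w⁻¹ * x * of t) = gate i (w⁻¹ * x) * t := by
      conv_lhs => rw [e2]
      rw [gate_of_mul, gate_of]
    rw [e3] at hB
    have h4 := (hF i).close _ t ht hB
    have h5 := cay_dist_of hF w i _ h4
    rw [← e2, mul_inv_cancel_left] at h5
    rwa [SimpleGraph.dist_comm]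

theorem II_path (hF : ∀ i, Fac (sh i) (B i)) (x y : Monoid.CoprodI G) :
    ∃ (m : ℕ) (p : ℕ → Monoid.CoprodI G), p 0 = x ∧ p m = y ∧ (∀ i ≤ m, p i ∈ II B x y) ∧
      ∀ i < m, (cay sh).dist (p i) (p (i + 1)) ≤ 1 := by
  have key : ∀ g x : Monoid.CoprodI G, ∃ (m : ℕ) (p : ℕ → Monoid.CoprodI G), p 0 = x ∧
      p m = x * g ∧ (∀ i ≤ m, p i ∈ II B x (x * g)) ∧
      ∀ i < m, (cay sh).dist (p i) (p (i + 1)) ≤ 1 := by
    intro g
    refine D01.gate_induction (p := fun g => ∀ x : Monoid.CoprodI G, ∃ (m : ℕ)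
      (p : ℕ → Monoid.CoprodI G), p 0 = x ∧ p m = x * g ∧ (∀ i ≤ m, p i ∈ II B x (x * g)) ∧
      ∀ i < m, (cay sh).dist (p i) (p (i + 1)) ≤ 1) ?_ ?_ g
    · intro x
      refine ⟨0, fun _ => x, rfl, (mul_one x).symm, fun _ _ => Or.inl (Or.inl rfl), ?_⟩
      intro i hi
      omega
    · intro l b g' hb hg' ih x
      obtain ⟨m₁, p₁, a1, a2, a3, a4⟩ := (hF l).path b
      obtain ⟨m₂, p₂, b1, b2, b3, b4⟩ := ih (x * of b)
      have hy : x * of b * g' = x * (of b * g') := mul_assoc _ _ _
      rw [hy] at b2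
      -- the first part of the path
      have hfirst : ∀ t ≤ m₁, x * of (p₁ t) ∈ II B x (x * (of b * g')) := by
        intro t ht
        refine Or.inr ⟨l, ?_, ?_⟩
        · have e1 : (x * of (p₁ t))⁻¹ * x = of (p₁ t)⁻¹ := by rw [map_inv]; group
          have e2 : (x * of (p₁ t))⁻¹ * (x * (of b * g')) = of ((p₁ t)⁻¹ * b) * g' := by
            rw [map_mul, map_inv]; group
          rw [e1, e2, gate_of, gate_of_mul, hg', mul_one]
          intro e
          exact hb (by
            have := congrArg (fun z => p₁ t * z) e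
            simpa using this.symm)
        · have e1 : (x * of (p₁ t))⁻¹ * x = of (p₁ t)⁻¹ := by rw [map_inv]; group
          have e2 : (x * of (p₁ t))⁻¹ * (x * (of b * g')) = of ((p₁ t)⁻¹ * b) * g' := by
            rw [map_mul, map_inv]; group
          rw [e1, e2, gate_of, gate_of_mul, hg', mul_one]
          exact a4 t ht
      -- points of the second part
      have hsecond : ∀ v ∈ II B (x * of b) (x * of b * g'), v ∈ II B x (x * (of b * g')) := by
        intro v hv
        rcases hv with (rfl | hv) | ⟨i, hne, hB⟩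
        · have := hfirst m₁ le_rfl
          rwa [a2] at this
        · exact Or.inl (Or.inr (hv.trans hy))
        · have e0 : v⁻¹ * (x * of b) = v⁻¹ * x * of b := (mul_assoc _ _ _).symm
          have h1 : gate i (v⁻¹ * (x * of b)) = gate i (v⁻¹ * x) := by
            by_contra hne'
            rw [e0] at hne'
            obtain ⟨e1, e2⟩ := gate_mul_of _ _ hne'
            subst e1
            apply hne
            rw [e0, hy, ← mul_assoc v⁻¹ x (of b * g')]
            conv_lhs => rw [e2]
            conv_rhs => rw [e2]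
            rw [gate_of_mul, gate_of, gate_of_mul, gate_of_mul, hg', mul_one]
          rw [h1, hy] at hne hB
          exact Or.inr ⟨i, hne, hB⟩
      refine ⟨m₁ + m₂, fun i => if i ≤ m₁ then x * of (p₁ i) else p₂ (i - m₁), ?_, ?_, ?_, ?_⟩
      · simp [a1]
      · by_cases h0 : m₂ = 0
        · subst h0
          simp only [Nat.add_zero, le_refl, if_true]
          rw [a2, ← b2, b1]
        · have : ¬ (m₁ + m₂ ≤ m₁) := by omega
          simp only [this, if_false, Nat.add_sub_cancel_left]
          exact b2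
      · intro i hi
        by_cases h0 : i ≤ m₁
        · simp only [h0, if_true]
          exact hfirst i h0
        · simp only [h0, if_false]
          exact hsecond _ (b3 _ (by omega))
      · intro i hi
        by_cases h0 : i + 1 ≤ m₁
        · have h00 : i ≤ m₁ := by omega
          simp only [h0, h00, if_true]
          have h3 := cay_dist_of hF (x * of (p₁ i)) l _ (a3 i (by omega))
          rwa [mul_assoc, ← map_mul, mul_inv_cancel_left] at h3
        · by_cases h1 : i ≤ m₁
          · have h2 : i = m₁ := by omega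
            subst h2
            simp only [h0, le_refl, if_true, if_false]
            have e : i + 1 - i = 0 + 1 := by omega
            rw [e, a2, ← b1]
            exact b4 0 (by omega)
          · simp only [h0, h1, if_false]
            have e : i + 1 - m₁ = (i - m₁) + 1 := by omega
            rw [e]
            exact b4 _ (by omega)
  obtain ⟨m, p, h⟩ := key (x⁻¹ * y) x
  rw [mul_inv_cancel_left] at h
  exact ⟨m, p, h⟩

end Pool.Agent.Lib.MP_c23930_al
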