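import Pool.Agent.Lib.MP_c23930_al.D05
import Pool.Agent.Lib.MP_c23930_al.D07

/-!
# D08: the coordinate is Lipschitz, lines are coarsely parametrised
-/

set_option autoImplicit false

namespace Pool.Agent.Lib.MP_c23930_al

open Monoid.CoprodI (of)

namespace RelData

variable {ι : Type} {G : ι → Type} [∀ i, Group (G i)] {sh : ∀ i, Set (G i)}
  {B : ∀ i, G i → G i → Prop} {n : ℕ} (D : RelData G sh B n)

theorem Y_nonempty (s : D.S) : (D.Y s).Nonempty := by
  refine ⟨s.2.out, 0, Or.inr ⟨0, Nat.zero_le _, ?_⟩⟩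
  rw [inv_mul_cancel, zpow_zero, List.take_zero]
  simp [sprod]

namespace D08

theorem P_out (s : D.S) (w : Monoid.CoprodI G) : D.P s (s.2.out * w) = D.P0 s.1 w := by
  unfold RelData.P
  rw [inv_mul_cancel_left]

/-- a sigma equality transports shortness -/
theorem sh_of_eq {i j : ι} {h : G i} {b : G j} (e : (⟨i, h⟩ : Σ i, G i) = ⟨j, b⟩)
    (hh : h ∈ sh i) : b ∈ sh j := by
  cases e
  exact hh

theorem step_le (hF : ∀ i, Fac (sh i) (B i)) (hn : 1 ≤ n) (s : D.S) (u : Monoid.CoprodI G)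
    (i : ι) (h : G i) (hh : h ∈ sh i) : |D.P s (u * of h) - D.P s u| ≤ 1 := by
  by_cases hne : D.P s (u * of h) = D.P s u
  · rw [hne, sub_self, abs_zero]
    exact zero_le_one
  · obtain ⟨_, j, a, b, hb, _, hd⟩ := D.P_step hn s u i h hne
    rw [hd]
    exact (D.chains s.1).lip _ _ _ (sh_of_eq hb hh)

theorem step_near (hF : ∀ i, Fac (sh i) (B i)) (hn : 1 ≤ n) (s : D.S) (u : Monoid.CoprodI G)
    (i : ι) (h : G i) (hh : h ∈ sh i) (hne : D.P s (u * of h) ≠ D.P s u) :
    ∃ q ∈ D.Y s, (cay sh).dist u q ≤ 2 := by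
  obtain ⟨_, j, a, b, hb, hu, hd⟩ := D.P_step hn s u i h hne
  have hc : D.cf s (a * b) ≠ D.cf s a := by
    intro e
    rw [e, sub_self] at hd
    exact hne (sub_eq_zero.1 hd)
  obtain ⟨a', ha', b', hb', hq⟩ := (D.chains s.1).near _ _ _ (sh_of_eq hb hh) hc
  refine ⟨u * of a' * of b', ?_, ?_⟩
  · change s.2.out⁻¹ * (u * of a' * of b') ∈ D.Y0 s.1
    refine ⟨j, Or.inl ⟨_, hq, ?_⟩⟩
    rw [hu, map_mul, map_mul]
    group
  · have h1 := cay_dist_of hF u _ a' ha'
    have h2 := cay_dist_of hF (u * of a') _ b' hb'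
    have h3 := (cay_conn hF).dist_triangle (u := u) (v := u * of a') (w := u * of a' * of b')
    omega

end D08

theorem P_lip1 (hF : ∀ i, Fac (sh i) (B i)) (hn : 1 ≤ n) (s : D.S) (u v : Monoid.CoprodI G)
    (h : (cay sh).Adj u v) : |D.P s u - D.P s v| ≤ 1 := by
  rw [cay, SimpleGraph.fromRel_adj] at h
  obtain ⟨_, ⟨i, g, hg, e⟩ | ⟨i, g, hg, e⟩⟩ := h
  · rw [e, abs_sub_comm]
    exact D08.step_le D hF hn s u i g hg
  · rw [e]
    exact D08.step_le D hF hn s v i g hg

theorem P_near (hF : ∀ i, Fac (sh i) (B i)) (hn : 1 ≤ n) (s : D.S) (u v : Monoid.CoprodI G)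
    (h : (cay sh).Adj u v) (hne : D.P s u ≠ D.P s v) : ∃ q ∈ D.Y s, (cay sh).dist u q ≤ 2 := by
  rw [cay, SimpleGraph.fromRel_adj] at h
  obtain ⟨_, ⟨i, g, hg, e⟩ | ⟨i, g, hg, e⟩⟩ := h
  · rw [e] at hne
    exact D08.step_near D hF hn s u i g hg hne.symm
  · have e' : v = u * of g⁻¹ := by
      rw [e, map_inv, mul_inv_cancel_right]
    rw [e'] at hne
    exact D08.step_near D hF hn s u i g⁻¹ ((hF i).inv g hg) hne.symm

namespace D08

/-- distance along a list of short elements of one factor -/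
theorem dist_prod (hF : ∀ i, Fac (sh i) (B i)) (i : ι) (l : List (G i)) :
    ∀ (u : Monoid.CoprodI G), (∀ h ∈ l, h ∈ sh i) →
      (cay sh).dist u (u * of l.prod) ≤ l.length := by
  induction l with
  | nil =>
    intro u _
    simp
  | cons a l ih =>
    intro u hl
    have h1 := cay_dist_of hF u i a (hl a (by simp))
    have h2 := ih (u * of a) (fun h hh => hl h (by simp [hh]))
    have h3 := (cay_conn hF).dist_triangle (u := u) (v := u * of a) (w := u * of a * of l.prod)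
    rw [List.prod_cons, map_mul, ← mul_assoc, List.length_cons]
    omega

/-- distance along a list of short syllables -/
theorem dist_sprod (hF : ∀ i, Fac (sh i) (B i)) (l : List (Σ i, G i)) :
    ∀ (u : Monoid.CoprodI G), (∀ p ∈ l, p.2 ∈ sh p.1) →
      (cay sh).dist u (u * sprod l) ≤ l.length := by
  induction l with
  | nil =>
    intro u _
    simp [sprod]
  | cons a l ih =>
    intro u hl
    have h1 := cay_dist_of hF u a.1 a.2 (hl a (by simp))
    have h2 := ih (u * of a.2) (fun h hh => hl h (by simp [hh]))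
    have h3 := (cay_conn hF).dist_triangle (u := u) (v := u * of a.2) (w := u * of a.2 * sprod l)
    have e : sprod (a :: l) = of a.2 * sprod l := by simp [sprod]
    rw [e, ← mul_assoc, List.length_cons]
    omega

/-- the coordinate of a point of the long segment -/
theorem P0_of (hn : 1 ≤ n) (ρ : D.Sg) (q : G (D.M ρ)) :
    D.P0 ρ (of q) = D.cc (D.M ρ) (D.k ρ) q := by
  unfold RelData.P0
  rw [finsum_eq_single _ (0 : ℤ)]
  · rw [zpow_zero, inv_one, one_mul, gate_of, gate_one, (D.chains ρ).c_one, sub_zero]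
  · intro j hj
    have e : gate (D.M ρ) ((D.r ρ ^ j)⁻¹ * of q) = gate (D.M ρ) ((D.r ρ ^ j)⁻¹) := by
      have e1 : (D.r ρ ^ j)⁻¹ = D.r ρ ^ (-j) * of (1 : G (D.M ρ)) := by
        rw [map_one, mul_one, zpow_neg]
      rw [e1, map_one, mul_one]
      rcases lt_or_gt_of_ne hj with h | h
      · rw [D.gate_r_pos hn ρ (-j) (by omega) q]
        have := D.gate_r_pos hn ρ (-j) (by omega) 1
        rw [map_one, mul_one] at this
        rw [this]
      · rw [D.gate_r_neg hn ρ (-j) (by omega) q]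
        have := D.gate_r_neg hn ρ (-j) (by omega) 1
        rw [map_one, mul_one] at this
        rw [this]
    rw [e, sub_self]

theorem P_seg (hn : 1 ≤ n) (s : D.S) (j : ℤ) (q : G (D.M s.1)) :
    D.P s (s.2.out * D.r s.1 ^ j * of q) = D.cc (D.M s.1) (D.k s.1) q + j * n := by
  rw [mul_assoc, P_out, P0_r D hn, P0_of D hn]

/-- a short step on the axis does not change the coordinate -/
theorem P_wln_step (hn : 1 ≤ n) (s : D.S) (m : ℤ) (hm : m % D.pl s.1 ≠ 0) :
    D.P s (s.2.out * D.wln s.1 (m + 1)) = D.P s (s.2.out * D.wln s.1 m) := by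
  by_contra hne
  have hL := D.line_rel hn s.1
  rw [hL.step, ← mul_assoc] at hne
  obtain ⟨hi, j, a, b, hb, hu, _⟩ := D.P_step hn s _ _ _ hne
  have hb1 : b ≠ 1 := by
    have h1 := (D.sy_short s.1 m hm).2
    intro hb0
    apply h1
    have : ∀ {i j : ι} {h : G i} {b : G j}, (⟨i, h⟩ : Σ i, G i) = ⟨j, b⟩ → b = 1 → h = 1 := by
      intro i j h b e hb
      cases e
      exact hb
    exact this hb hb0
  have hof : of (D.sy s.1 m).2 = (of b : Monoid.CoprodI G) := by
    have : ∀ {i j : ι} {h : G i} {b : G j}, (⟨i, h⟩ : Σ i, G i) = ⟨j, b⟩ →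
        (of h : Monoid.CoprodI G) = of b := by
      intro i j h b e
      cases e
      rfl
    exact this hb
  have hw : D.wln s.1 m = D.r s.1 ^ j * of a := by
    rw [mul_assoc] at hu
    exact mul_left_cancel hu
  have hw1 : D.wln s.1 (m + 1) = D.r s.1 ^ j * of (a * b) := by
    rw [hL.step, hw, hof, map_mul, mul_assoc]
  have hj0 : D.wln s.1 (j * D.pl s.1) = D.r s.1 ^ j := by
    have := D.wln_mul s.1 j 0
    rw [add_zero, D.wln_zero, mul_one] at this
    exact this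
  have hj1 : D.wln s.1 (j * D.pl s.1 + 1) = D.r s.1 ^ j * of (D.VV s.1) := by
    rw [D.wln_mul, D.wln_one]
  have hV : D.VV s.1 ≠ 1 := by
    have := hL.ne (j * D.pl s.1)
    rw [D.sy_long] at this
    exact this
  have g1 : gate (D.M s.1) ((D.r s.1 ^ j)⁻¹ * D.wln s.1 m) = a := by
    rw [hw, inv_mul_cancel_left, gate_of]
  have g2 : gate (D.M s.1) ((D.r s.1 ^ j)⁻¹ * D.wln s.1 (m + 1)) = a * b := by
    rw [hw1, inv_mul_cancel_left, gate_of]
  have g3 : gate (D.M s.1) ((D.r s.1 ^ j)⁻¹ * D.wln s.1 (j * D.pl s.1)) = 1 := by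
    rw [hj0, inv_mul_cancel, gate_one]
  have g4 : gate (D.M s.1) ((D.r s.1 ^ j)⁻¹ * D.wln s.1 (j * D.pl s.1 + 1)) = D.VV s.1 := by
    rw [hj1, inv_mul_cancel_left, gate_of]
  rcases hL.piece (D.M s.1) (D.r s.1 ^ j) with hc | ⟨m₀, x, a₀, hs, ha, hle, hgt⟩
  · have := hc m (m + 1)
    rw [g1, g2] at this
    exact hb1 (left_eq_mul.1 this)
  · have hm0 : m = m₀ := by
      rcases lt_trichotomy m m₀ with h | h | h
      · have e1 := hle m (by omega)
        have e2 := hle (m + 1) (by omega)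
        rw [g1] at e1
        rw [g2, ← e1] at e2
        exact absurd (mul_eq_left.1 e2) hb1
      · exact h
      · have e1 := hgt m (by omega)
        have e2 := hgt (m + 1) (by omega)
        rw [g1] at e1
        rw [g2, ← e1] at e2
        exact absurd (mul_eq_left.1 e2) hb1
    have hm1 : j * D.pl s.1 = m₀ := by
      rcases lt_trichotomy (j * (D.pl s.1 : ℤ)) m₀ with h | h | h
      · have e1 := hle _ h.le
        have e2 := hle (j * D.pl s.1 + 1) (by omega)
        rw [g3] at e1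
        rw [g4, ← e1] at e2
        exact absurd e2 hV
      · exact h
      · have e1 := hgt _ h
        have e2 := hgt (j * D.pl s.1 + 1) (by omega)
        rw [g3] at e1
        rw [g4, ← e1] at e2
        exact absurd e2 hV
    apply hm
    rw [hm0, ← hm1]
    exact Int.mul_emod_left _ _

theorem P_wln (hn : 1 ≤ n) (s : D.S) (j : ℤ) (k : ℕ) (hk : k + 1 ≤ D.pl s.1) :
    D.P s (s.2.out * D.wln s.1 (j * D.pl s.1 + 1 + k)) = n + j * n := by
  induction k with
  | zero =>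
    have h1 := P_seg D hn s j (D.VV s.1)
    have h2 : D.cc (D.M s.1) (D.k s.1) (D.VV s.1) = n := (D.chains s.1).c_V _
    rw [h2] at h1
    rw [← h1]
    congr 1
    rw [Nat.cast_zero, add_zero, D.wln_mul, D.wln_one, mul_assoc]
  | succ k ih =>
    have e := ih (by omega)
    rw [← e]
    have := P_wln_step D hn s (j * D.pl s.1 + 1 + k) (by
      have : (j * (D.pl s.1 : ℤ) + 1 + k) % D.pl s.1 = 1 + k := by
        rw [add_assoc, add_comm, Int.add_mul_emod_self_right]
        exact Int.emod_eq_of_lt (by omega) (by omega)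
      rw [this]
      omega)
    rw [← this]
    congr 3
    push_cast
    ring

theorem wln_small (ρ : D.Sg) (k : ℕ) (hk : k + 1 < D.pl ρ) :
    D.wln ρ (k + 1) = of (D.VV ρ) * sprod ((D.xs ρ).take k) := by
  unfold RelData.wln
  rw [Int.ediv_eq_zero_of_lt (by omega) (by omega), Int.emod_eq_of_lt (by omega) (by omega),
    zpow_zero, one_mul]
  have : ((k : ℤ) + 1).toNat = k + 1 := by omega
  rw [this]
  simp [RelData.per, sprod]

/-- every point of the line is close to a point of a long segment with the same coordinate -/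
theorem rep (hF : ∀ i, Fac (sh i) (B i)) (hn : 1 ≤ n) (s : D.S) (p : Monoid.CoprodI G)
    (hp : p ∈ D.Y s) : ∃ (j : ℤ) (q : G (D.M s.1)), q ∈ D.Seg (D.M s.1) (D.k s.1) ∧
      (cay sh).dist (s.2.out * D.r s.1 ^ j * of q) p ≤ 2 ∧
      D.P s p = D.cc (D.M s.1) (D.k s.1) q + j * n := by
  have hp0 : s.2.out⁻¹ * p ∈ D.Y0 s.1 := hp
  have hpl := D.pl_pos s.1
  rw [D.mem_Y0] at hp0
  rcases hp0 with ⟨m, hm⟩ | ⟨j, q, hq, hm⟩
  · have hm' : p = s.2.out * D.wln s.1 m := by rw [← hm, mul_inv_cancel_left]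
    have hdec : m = m / D.pl s.1 * D.pl s.1 + m % D.pl s.1 := by
      rw [mul_comm]
      exact (Int.mul_ediv_add_emod m (D.pl s.1)).symm
    have h0 : 0 ≤ m % D.pl s.1 := Int.emod_nonneg _ (by omega)
    have h1 : m % D.pl s.1 < D.pl s.1 := Int.emod_lt_of_pos _ (by omega)
    set j := m / (D.pl s.1 : ℤ) with hj
    obtain ⟨m', hm1⟩ := Int.eq_ofNat_of_zero_le h0
    rw [hm1] at hdec h1
    rcases Nat.eq_zero_or_pos m' with hz | hz
    · refine ⟨j, 1, (D.chains s.1).seg_one _, ?_, ?_⟩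
      · have : p = s.2.out * D.r s.1 ^ j * of (1 : G (D.M s.1)) := by
          rw [hm', hdec, hz, D.wln_mul, Nat.cast_zero, D.wln_zero, map_one, mul_one, mul_one]
        rw [this]
        simp
      · have : p = s.2.out * D.r s.1 ^ j * of (1 : G (D.M s.1)) := by
          rw [hm', hdec, hz, D.wln_mul, Nat.cast_zero, D.wln_zero, map_one, mul_one, mul_one]
        rw [this, P_seg D hn]
    · obtain ⟨k, rfl⟩ : ∃ k, m' = k + 1 := ⟨m' - 1, by omega⟩
      refine ⟨j, D.VV s.1, (D.chains s.1).seg_V _, ?_, ?_⟩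
      · have : p = s.2.out * D.r s.1 ^ j * of (D.VV s.1) * sprod ((D.xs s.1).take k) := by
          rw [hm', hdec, D.wln_mul]
          push_cast
          rw [wln_small D s.1 k (by omega)]
          simp only [mul_assoc]
        rw [this]
        refine (dist_sprod hF _ _ ?_).trans ?_
        · intro x hx
          exact (D.xs_short s.1 x (List.mem_of_mem_take hx)).1
        · refine (List.length_take_le _ _).trans ?_
          omega
      · have h2 := P_wln D hn s j k (by omega)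
        have h3 : D.cc (D.M s.1) (D.k s.1) (D.VV s.1) = n := (D.chains s.1).c_V _
        rw [h3, ← h2, hm', hdec]
        congr 3
        push_cast
        ring
  · have hm' : p = s.2.out * D.r s.1 ^ j * of q := by
      rw [mul_assoc, ← hm, mul_inv_cancel_left]
    refine ⟨j, q, hq, ?_, ?_⟩
    · rw [hm']
      simp
    · rw [hm', P_seg D hn]

theorem dist_seg (hF : ∀ i, Fac (sh i) (B i)) (ρ : D.Sg) (g : Monoid.CoprodI G) (q q' : G (D.M ρ))
    (hq : q ∈ D.Seg (D.M ρ) (D.k ρ)) (hq' : q' ∈ D.Seg (D.M ρ) (D.k ρ)) :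
    ((cay sh).dist (g * of q) (g * of q') : ℤ) ≤
      4 * (|D.cc (D.M ρ) (D.k ρ) q - D.cc (D.M ρ) (D.k ρ) q'| + 1) := by
  obtain ⟨l, hl, hp, hlen⟩ := (D.chains ρ).met _ q hq q' hq'
  have := dist_prod hF (D.M ρ) l (g * of q) hl
  rw [hp, map_mul, map_inv, ← mul_assoc, mul_inv_cancel_right] at this
  have h2 : ((cay sh).dist (g * of q) (g * of q') : ℤ) ≤ l.length := by exact_mod_cast this
  exact h2.trans hlen

/-- from the end of a long segment to the beginning of the next one -/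
theorem dist_gap (hF : ∀ i, Fac (sh i) (B i)) (ρ : D.Sg) (g : Monoid.CoprodI G) (j : ℤ) :
    ((cay sh).dist (g * D.r ρ ^ j * of (D.VV ρ)) (g * D.r ρ ^ (j + 1)) : ℤ) ≤ 3 := by
  have e : g * D.r ρ ^ (j + 1) = g * D.r ρ ^ j * of (D.VV ρ) * sprod (D.xs ρ) := by
    rw [zpow_add_one]
    have : D.r ρ = of (D.VV ρ) * sprod (D.xs ρ) := by
      simp [RelData.r, RelData.per, sprod]
    nth_rewrite 2 [this]
    simp only [mul_assoc]
  rw [e]
  have h1 := dist_sprod hF (D.xs ρ) (g * D.r ρ ^ j * of (D.VV ρ))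
    (fun x hx => (D.xs_short ρ x hx).1)
  have h2 := D.xs_len ρ
  exact_mod_cast h1.trans h2

theorem dist_full (hF : ∀ i, Fac (sh i) (B i)) (ρ : D.Sg) (g : Monoid.CoprodI G) (j : ℤ) :
    ((cay sh).dist (g * D.r ρ ^ j) (g * D.r ρ ^ (j + 1)) : ℤ) ≤ 4 * (n + 1) + 3 := by
  have h1 := dist_seg D hF ρ (g * D.r ρ ^ j) 1 (D.VV ρ) ((D.chains ρ).seg_one _)
    ((D.chains ρ).seg_V _)
  have h2 := dist_gap D hF ρ g j
  have h3 := (cay_conn hF).dist_triangle (u := g * D.r ρ ^ j)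
    (v := g * D.r ρ ^ j * of (D.VV ρ)) (w := g * D.r ρ ^ (j + 1))
  have h4 : D.cc (D.M ρ) (D.k ρ) (D.VV ρ) = n := (D.chains ρ).c_V _
  rw [(D.chains ρ).c_one, h4, map_one, mul_one, zero_sub, abs_neg, Nat.abs_cast] at h1
  have h5 : ((cay sh).dist (g * D.r ρ ^ j) (g * D.r ρ ^ (j + 1)) : ℤ) ≤
      (cay sh).dist (g * D.r ρ ^ j) (g * D.r ρ ^ j * of (D.VV ρ)) +
      (cay sh).dist (g * D.r ρ ^ j * of (D.VV ρ)) (g * D.r ρ ^ (j + 1)) := by exact_mod_cast h3
  linarith

theorem dist_many (hF : ∀ i, Fac (sh i) (B i)) (ρ : D.Sg) (g : Monoid.CoprodI G) (j : ℤ)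
    (k : ℕ) :
    ((cay sh).dist (g * D.r ρ ^ j) (g * D.r ρ ^ (j + k)) : ℤ) ≤ k * (4 * (n + 1) + 3) := by
  induction k with
  | zero => simp
  | succ k ih =>
    have h1 := dist_full D hF ρ g (j + k)
    have h3 := (cay_conn hF).dist_triangle (u := g * D.r ρ ^ j)
      (v := g * D.r ρ ^ (j + k)) (w := g * D.r ρ ^ (j + k + 1))
    have h5 : ((cay sh).dist (g * D.r ρ ^ j) (g * D.r ρ ^ (j + k + 1)) : ℤ) ≤
      (cay sh).dist (g * D.r ρ ^ j) (g * D.r ρ ^ (j + k)) +
      (cay sh).dist (g * D.r ρ ^ (j + k)) (g * D.r ρ ^ (j + k + 1)) := by exact_mod_cast h3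
    push_cast
    rw [← add_assoc]
    linarith

/-- the main estimate for points of long segments -/
theorem dist_main (hF : ∀ i, Fac (sh i) (B i)) (hn : 1 ≤ n) (ρ : D.Sg) (g : Monoid.CoprodI G)
    (j j' : ℤ) (hj : j ≤ j') (q q' : G (D.M ρ))
    (hq : q ∈ D.Seg (D.M ρ) (D.k ρ)) (hq' : q' ∈ D.Seg (D.M ρ) (D.k ρ)) :
    ((cay sh).dist (g * D.r ρ ^ j * of q) (g * D.r ρ ^ j' * of q') : ℤ) ≤
      11 * |(D.cc (D.M ρ) (D.k ρ) q + j * n) - (D.cc (D.M ρ) (D.k ρ) q' + j' * n)| + 11 := by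
  rcases hj.eq_or_lt with rfl | hlt
  · have h1 := dist_seg D hF ρ (g * D.r ρ ^ j) q q' hq hq'
    have e : D.cc (D.M ρ) (D.k ρ) q + j * n - (D.cc (D.M ρ) (D.k ρ) q' + j * n) =
      D.cc (D.M ρ) (D.k ρ) q - D.cc (D.M ρ) (D.k ρ) q' := by ring
    rw [e]
    have := abs_nonneg (D.cc (D.M ρ) (D.k ρ) q - D.cc (D.M ρ) (D.k ρ) q')
    linarith
  · obtain ⟨k, hk⟩ : ∃ k : ℕ, j' = j + 1 + k := ⟨(j' - (j + 1)).toNat, by omega⟩
    have r1 := (D.chains ρ).rng (D.k ρ) q
    have r2 := (D.chains ρ).rng (D.k ρ) q'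
    have h4 : D.cc (D.M ρ) (D.k ρ) (D.VV ρ) = n := (D.chains ρ).c_V _
    have d1 := dist_seg D hF ρ (g * D.r ρ ^ j) q (D.VV ρ) hq ((D.chains ρ).seg_V _)
    rw [h4, abs_of_nonpos (by linarith [r1.2])] at d1
    have d2 := dist_gap D hF ρ g j
    have d3 := dist_many D hF ρ g (j + 1) k
    have d4 := dist_seg D hF ρ (g * D.r ρ ^ j') 1 q' ((D.chains ρ).seg_one _) hq'
    rw [(D.chains ρ).c_one, map_one, mul_one, zero_sub, abs_neg, abs_of_nonneg r2.1] at d4
    rw [← hk] at d3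
    have t1 := (cay_conn hF).dist_triangle (u := g * D.r ρ ^ j * of q)
      (v := g * D.r ρ ^ j') (w := g * D.r ρ ^ j' * of q')
    have t2 := (cay_conn hF).dist_triangle (u := g * D.r ρ ^ j * of q)
      (v := g * D.r ρ ^ (j + 1)) (w := g * D.r ρ ^ j')
    have t3 := (cay_conn hF).dist_triangle (u := g * D.r ρ ^ j * of q)
      (v := g * D.r ρ ^ j * of (D.VV ρ)) (w := g * D.r ρ ^ (j + 1))
    have hkn : (k : ℤ) ≤ k * n := by
      have : (1 : ℤ) ≤ n := by exact_mod_cast hn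
      nlinarith [Int.natCast_nonneg k]
    have e : D.cc (D.M ρ) (D.k ρ) q + j * n - (D.cc (D.M ρ) (D.k ρ) q' + j' * n) =
      -((n - D.cc (D.M ρ) (D.k ρ) q) + k * n + D.cc (D.M ρ) (D.k ρ) q') := by
      rw [hk]
      ring
    rw [e, abs_neg, abs_of_nonneg (by nlinarith [Int.natCast_nonneg k, r1.2, r2.1])]
    zify at t1 t2 t3
    have hk0 := Int.natCast_nonneg k
    nlinarith [r1.2, r2.1]

end D08

theorem Y_met (hF : ∀ i, Fac (sh i) (B i)) (hn : 1 ≤ n) (s : D.S) (p : Monoid.CoprodI G)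
    (hp : p ∈ D.Y s) (p' : Monoid.CoprodI G) (hp' : p' ∈ D.Y s) :
    ((cay sh).dist p p' : ℤ) ≤ 30 * (|D.P s p - D.P s p'| + 1) := by
  obtain ⟨j, q, hq, d1, e1⟩ := D08.rep D hF hn s p hp
  obtain ⟨j', q', hq', d2, e2⟩ := D08.rep D hF hn s p' hp'
  have hm : ((cay sh).dist (s.2.out * D.r s.1 ^ j * of q) (s.2.out * D.r s.1 ^ j' * of q') : ℤ) ≤
      11 * |(D.cc (D.M s.1) (D.k s.1) q + j * n) - (D.cc (D.M s.1) (D.k s.1) q' + j' * n)| + 11 := by
    rcases le_total j j' with h | h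
    · exact D08.dist_main D hF hn s.1 _ j j' h q q' hq hq'
    · rw [SimpleGraph.dist_comm, abs_sub_comm]
      exact D08.dist_main D hF hn s.1 _ j' j h q' q hq' hq
  rw [← e1, ← e2] at hm
  have t1 := (cay_conn hF).dist_triangle (u := p) (v := s.2.out * D.r s.1 ^ j * of q) (w := p')
  have t2 := (cay_conn hF).dist_triangle (u := s.2.out * D.r s.1 ^ j * of q)
    (v := s.2.out * D.r s.1 ^ j' * of q') (w := p')
  rw [SimpleGraph.dist_comm] at d1
  have := abs_nonneg (D.P s p - D.P s p')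
  zify at t1 t2 d1 d2
  linarith

end RelData

end Pool.Agent.Lib.MP_c23930_al
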