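import Pool.Agent.Lib.MP_c23930_al.D06

/-!
# D09: overlaps of different lines are bounded
-/

set_option autoImplicit false

namespace Pool.Agent.Lib.MP_c23930_al

open Monoid.CoprodI (of)

namespace RelData

variable {ι : Type} {G : ι → Type} [∀ i, Group (G i)] {sh : ∀ i, Set (G i)}
  {B : ∀ i, G i → G i → Prop} {n : ℕ} (D : RelData G sh B n)

namespace D09

theorem aux (t : D.S) (i : ι) (hi : i = D.M t.1) (κ : ℕ) (a : G (D.M t.1))
    (ch : Chains (sh i) (B i) (D.V i) (D.Seg i) (D.cc i) n) (g u v : Monoid.CoprodI G)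
    (q q' : G (D.M t.1)) (hq : q ∈ D.Seg (D.M t.1) (D.k t.1)) (hq' : q' ∈ D.Seg (D.M t.1) (D.k t.1))
    (hu : gate (D.M t.1) (g⁻¹ * u) = a * q) (hv : gate (D.M t.1) (g⁻¹ * v) = a * q') :
    (κ = D.k t.1 ∧ a = 1) ∨
      |D.cc i κ (gate i (g⁻¹ * u)) - D.cc i κ (gate i (g⁻¹ * v))| ≤ 2 := by
  subst hi
  rcases ch.ov κ (D.k t.1) a with h | h
  · exact Or.inl h
  · right
    rw [hu, hv]
    exact h q hq q' hq'

theorem eq_of (s t : D.S) (h1 : s.1 = t.1) (j j' : ℤ)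
    (h : s.2.out * D.r s.1 ^ j = t.2.out * D.r t.1 ^ j') : s = t := by
  obtain ⟨ρ, x⟩ := s
  obtain ⟨ρ', y⟩ := t
  dsimp only at h1
  subst h1
  dsimp only at h
  congr 1
  have e1 : (QuotientGroup.mk (x.out * D.r ρ ^ j) : Monoid.CoprodI G ⧸ Subgroup.zpowers (D.r ρ)) = x := by
    rw [← QuotientGroup.out_eq' x, QuotientGroup.eq]
    simp only [QuotientGroup.out_eq', mul_inv_rev, inv_mul_cancel_right]
    exact Subgroup.inv_mem _ (Subgroup.zpow_mem _ (Subgroup.mem_zpowers _) _)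
  have e2 : (QuotientGroup.mk (y.out * D.r ρ ^ j') : Monoid.CoprodI G ⧸ Subgroup.zpowers (D.r ρ)) = y := by
    rw [← QuotientGroup.out_eq' y, QuotientGroup.eq]
    simp only [QuotientGroup.out_eq', mul_inv_rev, inv_mul_cancel_right]
    exact Subgroup.inv_mem _ (Subgroup.zpow_mem _ (Subgroup.mem_zpowers _) _)
  rw [← e1, ← e2, h]

theorem term_le (hn : 3 ≤ n) (s t : D.S) (hst : s ≠ t) (j : ℤ) (u v : Monoid.CoprodI G)
    (hu : u ∈ D.Y t) (hv : v ∈ D.Y t) : |D.cf s (D.gj s j u) - D.cf s (D.gj s j v)| ≤ 2 := by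
  have ch := D.chains s.1
  unfold gj cf
  set g := s.2.out * D.r s.1 ^ j with hg
  rcases D.Y_gates (by omega) t (D.M s.1) g with h | ⟨a, x, hx, -, -, h⟩ | ⟨hM, j', a, hga, h⟩
  · rw [h u hu v hv]
    simp
  · have hl := ch.lip (D.k s.1) a x hx
    have hl' : |D.cc (D.M s.1) (D.k s.1) a - D.cc (D.M s.1) (D.k s.1) (a * x)| ≤ 1 := by
      rw [abs_sub_comm]
      exact hl
    rcases h u hu with h1 | h1 <;> rcases h v hv with h2 | h2 <;> rw [h1, h2]
    · simp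
    · omega
    · omega
    · simp
  · obtain ⟨q, hq, hqu⟩ := h u hu
    obtain ⟨q', hq', hqv⟩ := h v hv
    rcases aux D t (D.M s.1) hM (D.k s.1) a ch g u v q q' hq hq' hqu hqv with ⟨hk, ha⟩ | h3
    · exfalso
      refine hst (eq_of D s t (D.inj _ _ hM hk) j j' ?_)
      rw [ha] at hga
      simpa using hga
    · exact h3

theorem key (hn : 3 ≤ n) (s t : D.S) (hst : s ≠ t) (p : Monoid.CoprodI G) (hp : p ∈ D.Y t)
    (p' : Monoid.CoprodI G) (hp' : p' ∈ D.Y t) (j1 j2 j3 : ℤ) (h12 : j1 < j2) (h23 : j2 < j3)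
    (h1 : D.gj s j1 p ≠ D.gj s j1 p') (h3 : D.gj s j3 p ≠ D.gj s j3 p') : False := by
  obtain ⟨a1, ha1⟩ := D.Y_meets (by omega) t (D.M s.1) (s.2.out * D.r s.1 ^ j1) p p' hp hp' h1
  obtain ⟨a3, ha3⟩ := D.Y_meets (by omega) t (D.M s.1) (s.2.out * D.r s.1 ^ j3) p p' hp hp' h3
  have h := term_le D hn s t hst j2 _ _ ha3 ha1
  have e1 : D.gj s j2 (s.2.out * D.r s.1 ^ j1 * of a1) = 1 := by
    unfold gj
    have : (s.2.out * D.r s.1 ^ j2)⁻¹ * (s.2.out * D.r s.1 ^ j1 * of a1) =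
        D.r s.1 ^ (j1 - j2) * of a1 := by
      rw [zpow_sub, mul_inv_rev]
      have hc : D.r s.1 ^ j1 * (D.r s.1 ^ j2)⁻¹ = (D.r s.1 ^ j2)⁻¹ * D.r s.1 ^ j1 := by
        rw [← zpow_neg, ← zpow_add, ← zpow_add, add_comm]
      rw [hc]
      group
    rw [this]
    exact D.gate_r_neg (by omega) s.1 _ (by omega) a1
  have e3 : D.gj s j2 (s.2.out * D.r s.1 ^ j3 * of a3) = D.VV s.1 := by
    unfold gj
    have : (s.2.out * D.r s.1 ^ j2)⁻¹ * (s.2.out * D.r s.1 ^ j3 * of a3) =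
        D.r s.1 ^ (j3 - j2) * of a3 := by
      rw [zpow_sub, mul_inv_rev]
      have hc : D.r s.1 ^ j3 * (D.r s.1 ^ j2)⁻¹ = (D.r s.1 ^ j2)⁻¹ * D.r s.1 ^ j3 := by
        rw [← zpow_neg, ← zpow_add, ← zpow_add, add_comm]
      rw [hc]
      group
    rw [this]
    exact D.gate_r_pos (by omega) s.1 _ (by omega) a3
  rw [e1, e3] at h
  have c1 : D.cf s 1 = 0 := (D.chains s.1).c_one (D.k s.1)
  have c2 : D.cf s (D.VV s.1) = n := (D.chains s.1).c_V (D.k s.1)
  rw [c1, c2, sub_zero] at h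
  have := abs_le.1 h
  omega

end D09

theorem Y_ov (hn : 3 ≤ n) (s t : D.S) (hst : s ≠ t) (p : Monoid.CoprodI G) (hp : p ∈ D.Y t)
    (p' : Monoid.CoprodI G) (hp' : p' ∈ D.Y t) : |D.P s p - D.P s p'| ≤ 4 := by
  classical
  rw [D.P_sub (by omega) s p p']
  have hfin := D.gj_fin (by omega) s p p'
  set A := hfin.toFinset with hA
  have hsup : Function.support (fun j : ℤ => D.cf s (D.gj s j p) - D.cf s (D.gj s j p')) ⊆ (A : Set ℤ) := by
    intro j hj
    rw [hA, Set.Finite.coe_toFinset]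
    intro h
    apply hj
    simp only [h, sub_self]
  rw [finsum_eq_sum_of_support_subset _ hsup]
  have hcard : A.card ≤ 2 := by
    by_contra hc
    obtain ⟨a, b, c, ha, hb, hc', hab, hac, hbc⟩ := Finset.two_lt_card_iff.1 (not_le.1 hc)
    have mem : ∀ j, j ∈ A → D.gj s j p ≠ D.gj s j p' := fun j hj => by
      rw [hA, Set.Finite.mem_toFinset] at hj
      exact hj
    have K := D09.key D hn s t hst p hp p' hp'
    rcases lt_or_gt_of_ne hab with h1 | h1 <;> rcases lt_or_gt_of_ne hac with h2 | h2 <;>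
      rcases lt_or_gt_of_ne hbc with h3 | h3
    · exact K a b c h1 h3 (mem a ha) (mem c hc')
    · exact K a c b h2 h3 (mem a ha) (mem b hb)
    · omega
    · exact K c a b h2 h1 (mem c hc') (mem b hb)
    · exact K b a c h1 h2 (mem b hb) (mem c hc')
    · omega
    · exact K b c a h3 h2 (mem b hb) (mem a ha)
    · exact K c b a h3 h1 (mem c hc') (mem a ha)
  calc |∑ j ∈ A, (D.cf s (D.gj s j p) - D.cf s (D.gj s j p'))|
      ≤ ∑ j ∈ A, |D.cf s (D.gj s j p) - D.cf s (D.gj s j p')| := Finset.abs_sum_le_sum_abs _ _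
    _ ≤ ∑ j ∈ A, (2 : ℤ) := Finset.sum_le_sum fun j _ => D09.term_le D hn s t hst j p p' hp hp'
    _ = A.card * 2 := by simp
    _ ≤ 4 := by
        have : (A.card : ℤ) ≤ 2 := by exact_mod_cast hcard
        omega

end RelData

end Pool.Agent.Lib.MP_c23930_al
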