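import Pool.Agent.Lib.MP_c23930_al.D06
import Pool.Agent.Lib.MP_c23930_al.D07

/-!
# D10: lines are quasiconvex; gates of lines
-/

set_option autoImplicit false

namespace Pool.Agent.Lib.MP_c23930_al

open Monoid.CoprodI (of)

namespace RelData

variable {ι : Type} {G : ι → Type} [∀ i, Group (G i)] {sh : ∀ i, Set (G i)}
  {B : ∀ i, G i → G i → Prop} {n : ℕ} (D : RelData G sh B n)

theorem Y_hull (hF : ∀ i, Fac (sh i) (B i)) (hn : 1 ≤ n) (s : D.S) (p : Monoid.CoprodI G)
    (hp : p ∈ D.Y s) (p' : Monoid.CoprodI G) (hp' : p' ∈ D.Y s) (v : Monoid.CoprodI G)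
    (hv : v ∈ II B p p') : ∃ q ∈ D.Y s, (cay sh).dist v q ≤ 1 := by
  rcases hv with hv | ⟨i, hne, hB⟩
  · rcases hv with rfl | hv
    · exact ⟨v, hp, by simp⟩
    · rw [Set.mem_singleton_iff] at hv
      subst hv
      exact ⟨v, hp', by simp⟩
  · rcases D.Y_gates hn s i v with h | ⟨a0, x, hx, ha, -, hval⟩ | ⟨hi, j, a0, ha0, hval⟩
    · exact absurd (h p hp p' hp') hne
    · have hB' : B i a0 (a0 * x) := by
        rcases hval p hp with h1 | h1 <;> rcases hval p' hp' with h2 | h2 <;> rw [h1, h2] at hne hB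
        · exact absurd rfl hne
        · exact hB
        · exact (hF i).symm _ _ hB
        · exact absurd rfl hne
      exact ⟨v * of a0, ha, cay_dist_of hF v i a0 ((hF i).close a0 x hx hB')⟩
    · subst hi
      obtain ⟨q, hq, e⟩ := hval p hp
      obtain ⟨q', hq', e'⟩ := hval p' hp'
      rw [e, e'] at hB
      obtain ⟨q'', hq'', hsh⟩ := (D.chains s.1).hull (D.k s.1) q hq q' hq' a0⁻¹
        (by rwa [inv_inv])
      rw [inv_inv] at hsh
      refine ⟨v * of (a0 * q''), ?_, cay_dist_of hF v _ _ hsh⟩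
      rw [map_mul, ← mul_assoc, ha0]
      exact (D06.mem_Y D s _).2 (Or.inr ⟨j, q'', hq'', rfl⟩)

end RelData

variable {ι : Type} {G : ι → Type} [∀ i, Group (G i)] {sh : ∀ i, Set (G i)}
  {B : ∀ i, G i → G i → Prop} {n : ℕ}

theorem P_const (D : RelData G sh B n) (hn : 1 ≤ n) (s : D.S)
    (i : ι) (hi : i ≠ D.M s.1) (v : Monoid.CoprodI G) (h : G i) :
    D.P s (v * of h) = D.P s v := by
  by_contra hne
  exact hi (D.P_step hn s v i h hne).1

theorem gate_line (hF : ∀ i, Fac (sh i) (B i)) (D : RelData G sh B n) (hn : 1 ≤ n) (s : D.S)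
    (i : ι) (hi : i ≠ D.M s.1) (g u v : Monoid.CoprodI G) (hu : u ∈ D.Y s) (hv : v ∈ D.Y s) :
    (gate i (g⁻¹ * u))⁻¹ * gate i (g⁻¹ * v) ∈ sh i := by
  rcases D.Y_gates hn s i g with h | ⟨a0, x, hx, ha, -, hval⟩ | ⟨hi', -⟩
  · rw [h u hu v hv, inv_mul_cancel]
    exact (hF i).one
  · rcases hval u hu with h1 | h1 <;> rcases hval v hv with h2 | h2 <;> rw [h1, h2]
    · rw [inv_mul_cancel]
      exact (hF i).one
    · rw [inv_mul_cancel_left]
      exact hx
    · rw [mul_inv_rev, mul_assoc, inv_mul_cancel, mul_one]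
      exact (hF i).inv x hx
    · rw [inv_mul_cancel]
      exact (hF i).one
  · exact absurd hi' hi

end Pool.Agent.Lib.MP_c23930_al
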