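import Pool.Agent.Lib.MP_c23930_al.D05
import Pool.Agent.Lib.MP_c23930_al.D07

/-!
# D11: the group acts on the system of lines
-/

set_option autoImplicit false

namespace Pool.Agent.Lib.MP_c23930_al

open Monoid.CoprodI (of)

variable {ι : Type} {G : ι → Type} [∀ i, Group (G i)] {sh : ∀ i, Set (G i)}
  {B : ∀ i, G i → G i → Prop} {n : ℕ}

namespace D11

theorem out_smul (D : RelData G sh B n) (g : Monoid.CoprodI G) (s : D.S) :
    ∃ z : ℤ, (g • s).2.out = g * s.2.out * D.r s.1 ^ z := by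
  obtain ⟨ρ, q⟩ := s
  have h3 : (QuotientGroup.mk ((g • q).out) :
      Monoid.CoprodI G ⧸ Subgroup.zpowers (D.r ρ)) = g • q := QuotientGroup.out_eq' _
  have h2 : (QuotientGroup.mk (g * q.out) :
      Monoid.CoprodI G ⧸ Subgroup.zpowers (D.r ρ)) = g • q := by
    have h4 : (QuotientGroup.mk (g * q.out) :
        Monoid.CoprodI G ⧸ Subgroup.zpowers (D.r ρ)) = g • (QuotientGroup.mk q.out :
        Monoid.CoprodI G ⧸ Subgroup.zpowers (D.r ρ)) := rfl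
    rw [h4, QuotientGroup.out_eq']
  have h1 := h2.trans h3.symm
  rw [QuotientGroup.eq] at h1
  obtain ⟨z, hz⟩ := Subgroup.mem_zpowers_iff.1 h1
  refine ⟨z, ?_⟩
  change (g • q).out = g * q.out * D.r ρ ^ z
  rw [hz, mul_inv_cancel_left]

theorem Y0_zpow (D : RelData G sh B n) (ρ : D.Sg) (z : ℤ) (v : Monoid.CoprodI G)
    (hv : v ∈ D.Y0 ρ) : D.r ρ ^ z * v ∈ D.Y0 ρ := by
  obtain ⟨j, h⟩ := hv
  refine ⟨z + j, ?_⟩
  rcases h with ⟨p, hp, rfl⟩ | ⟨m, hm, rfl⟩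
  · exact Or.inl ⟨p, hp, by rw [zpow_add, mul_assoc]⟩
  · exact Or.inr ⟨m, hm, by rw [zpow_add, mul_assoc]⟩

theorem smul_eq_iff (D : RelData G sh B n) (g : Monoid.CoprodI G) (s : D.S) (h : g • s = s) :
    ∃ k : ℤ, g = s.2.out * D.r s.1 ^ k * (s.2.out)⁻¹ := by
  obtain ⟨z, hz⟩ := out_smul D g s
  rw [h] at hz
  refine ⟨-z, ?_⟩
  rw [zpow_neg]
  have : s.2.out * (D.r s.1 ^ z)⁻¹ = g * s.2.out := by
    conv_lhs => rw [hz]
    rw [mul_assoc, mul_inv_cancel, mul_one]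
  rw [this, mul_assoc, mul_inv_cancel, mul_one]

end D11

theorem lact (D : RelData G sh B n) (hn : 3 ≤ n) :
    LAct (Monoid.CoprodI G) (cay sh) D.Y D.P D.R n := by
  have hn1 : 1 ≤ n := by omega
  have hout : ∀ (g : Monoid.CoprodI G) (s : D.S), ∃ z : ℤ, ∀ u,
      ((g • s).2.out)⁻¹ * (g * u) = D.r s.1 ^ z * (s.2.out⁻¹ * u) := by
    intro g s
    obtain ⟨z, hz⟩ := D11.out_smul D g s
    refine ⟨-z, fun u => ?_⟩
    rw [hz, zpow_neg]
    group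
  refine ⟨cay_adj, ?_, ?_, ?_, ?_⟩
  · intro g s u hu
    obtain ⟨z, hz⟩ := hout g s
    change ((g • s).2.out)⁻¹ * (g * u) ∈ D.Y0 s.1
    rw [hz]
    exact D11.Y0_zpow D s.1 z _ hu
  · intro g s u v
    obtain ⟨z, hz⟩ := hout g s
    change D.P0 s.1 (((g • s).2.out)⁻¹ * (g * u)) - D.P0 s.1 (((g • s).2.out)⁻¹ * (g * v)) =
      D.P0 s.1 (s.2.out⁻¹ * u) - D.P0 s.1 (s.2.out⁻¹ * v)
    rw [hz, hz, D.P0_r hn1, D.P0_r hn1]
    ring
  · intro g s
    exact MulAction.mem_stabilizer_iff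
  · intro s ρ' hρ hne
    obtain ⟨k, hk⟩ := D11.smul_eq_iff D ρ' s (MulAction.mem_stabilizer_iff.1 hρ)
    refine ⟨k, ?_, ?_⟩
    · rintro rfl
      apply hne
      rw [hk, zpow_zero, mul_one, mul_inv_cancel]
    · intro u
      change D.P0 s.1 (s.2.out⁻¹ * (ρ' * u)) = D.P0 s.1 (s.2.out⁻¹ * u) + k * n
      have e : s.2.out⁻¹ * (ρ' * u) = D.r s.1 ^ k * (s.2.out⁻¹ * u) := by
        conv_lhs => rw [hk]
        group
      rw [e, D.P0_r hn1]

theorem N_eq (D : RelData G sh B n) :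
    D.N = Subgroup.closure (⋃ s, (D.R s : Set (Monoid.CoprodI G))) := by
  apply le_antisymm
  · rw [RelData.N, Subgroup.normalClosure]
    refine (Subgroup.closure_le _).2 ?_
    intro x hx
    obtain ⟨y, ⟨ρ, rfl⟩, hy⟩ := Group.mem_conjugatesOfSet_iff.1 hx
    obtain ⟨g, hg⟩ := isConj_iff.1 hy
    refine Subgroup.subset_closure (Set.mem_iUnion.2
      ⟨⟨ρ, (QuotientGroup.mk g : Monoid.CoprodI G ⧸ Subgroup.zpowers (D.r ρ))⟩, ?_⟩)
    refine MulAction.mem_stabilizer_iff.2 ?_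
    rw [← hg]
    change (⟨ρ, (g * D.r ρ * g⁻¹) • (QuotientGroup.mk g :
      Monoid.CoprodI G ⧸ Subgroup.zpowers (D.r ρ))⟩ : D.S) = _
    congr 1
    change (QuotientGroup.mk (g * D.r ρ * g⁻¹ * g) :
      Monoid.CoprodI G ⧸ Subgroup.zpowers (D.r ρ)) = QuotientGroup.mk g
    rw [QuotientGroup.eq]
    refine Subgroup.mem_zpowers_iff.2 ⟨-1, ?_⟩
    rw [zpow_neg_one]
    group
  · refine (Subgroup.closure_le _).2 ?_
    intro x hx
    obtain ⟨s, hs⟩ := Set.mem_iUnion.1 hx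
    obtain ⟨k, hk⟩ := D11.smul_eq_iff D x s (MulAction.mem_stabilizer_iff.1 hs)
    rw [hk]
    have h1 : D.r s.1 ∈ D.N := Subgroup.subset_normalClosure ⟨s.1, rfl⟩
    have h2 : (Subgroup.normalClosure (Set.range D.r)).Normal := Subgroup.normalClosure_normal
    exact h2.conj_mem _ (Subgroup.zpow_mem _ h1 k) _

end Pool.Agent.Lib.MP_c23930_al
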