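import Pool.Agent.Lib.MP_c23930_al.D08
import Pool.Agent.Lib.MP_c23930_al.D09
import Pool.Agent.Lib.MP_c23930_al.D10
import Pool.Agent.Lib.MP_c23930_al.D11

/-!
# D12: the system of lines of the relators
-/

set_option autoImplicit false

namespace Pool.Agent.Lib.MP_c23930_al

open Monoid.CoprodI (of)

theorem lsys {ι : Type} {G : ι → Type} [∀ i, Group (G i)] {sh : ∀ i, Set (G i)}
    {B : ∀ i, G i → G i → Prop} {n : ℕ} (hF : ∀ i, Fac (sh i) (B i)) (D : RelData G sh B n)
    (hn : 3 ≤ n) : LSys (cay sh) D.Y D.P (II B) 30 4 where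
  conn := cay_conn hF
  ne := D.Y_nonempty
  lip := fun s u v h => D.P_lip1 hF (by omega) s u v h
  near := fun s u v h hne => by
    obtain ⟨q, hq, hd⟩ := D.P_near hF (by omega) s u v h hne
    exact ⟨q, hq, by omega⟩
  ov := fun s t hst p hp p' hp' => by
    have := D.Y_ov hn s t hst p hp p' hp'
    simpa using this
  met := fun s p hp p' hp' => by
    have := D.Y_met hF (by omega) s p hp p' hp'
    simpa using this
  thin := fun x y z w hw => by
    obtain ⟨v, hv, hd⟩ := II_thin hF x y z w hw
    exact ⟨v, hv, by omega⟩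
  small := fun x y h w hw => by
    have := II_small hF x y h w hw
    omega
  path := II_path hF
  hull := fun s p hp p' hp' v hv => by
    obtain ⟨q, hq, hd⟩ := D.Y_hull hF (by omega) s p hp p' hp' v hv
    exact ⟨q, hq, by omega⟩

end Pool.Agent.Lib.MP_c23930_al
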