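import Pool.Agent.Lib.MP_f1646b_al.P12b

/-!
# E01: pairs with small angles realise the distance of the orbits
-/

set_option autoImplicit false

namespace Pool.Agent.Lib.MP_c23930_al

open Pool.Agent.Lib.MP_f1646b_al

theorem ngeo_small {G X : Type*} [Group G] [MulAction G X] {d : X → X → ℕ} {S : Set X}
    {α : X → X → X → ℕ} {θ n : ℕ} {R : X → Subgroup G} (h : RotFam G d S α θ n R) (x y : X)
    (hs : ∀ s ∈ S, s ≠ x → s ≠ y → α s x y + θ < n) (g : G)
    (hg : g ∈ Subgroup.closure (⋃ s ∈ S, (R s : Set G))) : d x y ≤ d x (g • y) := by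
  obtain ⟨μ, -, -, -, hμ⟩ := wg h
  have key : ∀ (m : ℕ ×ₗ ℕ) (g : G), g ∈ Subgroup.closure (⋃ s ∈ S, (R s : Set G)) →
      μ y (g • y) = m → d x y ≤ d x (g • y) := by
    intro m
    induction m using WellFoundedLT.induction with
    | ind m ih =>
      rintro g hg rfl
      by_cases hy : y = g • y
      · rw [← hy]
      obtain ⟨s, hsS, hsy, hsz, hn, ρ, hρ, -, hlt⟩ := hμ y (g • y) g hg rfl hy
      have hρC : ρ * g ∈ Subgroup.closure (⋃ s ∈ S, (R s : Set G)) := by
        refine Subgroup.mul_mem _ (Subgroup.subset_closure ?_) hg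
        simp only [Set.mem_iUnion, SetLike.mem_coe]
        exact ⟨s, hsS, hρ⟩
      have h1 := ih _ hlt (ρ * g) hρC (by rw [mul_smul])
      rw [mul_smul] at h1
      refine h1.trans ?_
      have hc := h.act.cas
      by_cases hsx : s = x
      · subst hsx
        have h2 := h.act.isom ρ s (g • y)
        rw [h.fix s hsS ρ hρ] at h2
        exact h2.le
      · have h2 := hs s hsS hsx hsy
        have h3 := hc.a_tri s hsS y x (g • y) hsy.symm (Ne.symm hsx) hsz.symm
        have h4 := hc.a_symm s hsS y x hsy.symm (Ne.symm hsx)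
        have h5 : Btw d x s (g • y) := hc.k1 s hsS x (g • y) (Ne.symm hsx) hsz.symm (by omega)
        have h6 := h.act.isom ρ s (g • y)
        rw [h.fix s hsS ρ hρ] at h6
        have h7 := hc.geo.tri x s (ρ • g • y)
        unfold MP_f1646b_al.Btw at h5
        omega
  exact key _ g hg rfl

end Pool.Agent.Lib.MP_c23930_al
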