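import Pool.Agent.Lib.MP_c23930_al.A09

/-!
# E02: the quotient space
-/

set_option autoImplicit false

namespace Pool.Agent.Lib.MP_c23930_al

open Pool.Agent.Lib.MP_f1646b_al

namespace E02

/-- the orbit relation of a normal subgroup -/
def rel (G X : Type) [Group G] [MulAction G X] (N : Subgroup G) : Setoid X where
  r x y := ∃ g ∈ N, g • x = y
  iseqv := ⟨fun x => ⟨1, N.one_mem, one_smul _ x⟩, by
    rintro x _ ⟨g, hg, rfl⟩
    exact ⟨g⁻¹, N.inv_mem hg, inv_smul_smul g x⟩, by
    rintro x _ _ ⟨g, hg, rfl⟩ ⟨k, hk, rfl⟩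
    exact ⟨k * g, N.mul_mem hk hg, mul_smul k g x⟩⟩

/-- the action of the quotient group on the quotient space -/
@[reducible]
def act (G X : Type) [Group G] [MulAction G X] (N : Subgroup G) [hN : N.Normal] :
    MulAction (G ⧸ N) (Quotient (rel G X N)) where
  smul q z := Quotient.liftOn₂' q z (fun g x => (Quotient.mk (rel G X N) (g • x))) (by
    rintro a x b y hab ⟨g, hg, rfl⟩
    rw [QuotientGroup.leftRel_apply] at hab
    refine Quotient.sound (s := rel G X N) ⟨b * g * a⁻¹, ?_, ?_⟩
    · have e : b * g * a⁻¹ = (b * g * b⁻¹) * (a * (a⁻¹ * b) * a⁻¹) := by group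
      rw [e]
      exact N.mul_mem (hN.conj_mem _ hg _) (hN.conj_mem _ hab _)
    · rw [smul_smul, smul_smul]
      congr 1
      group)
  one_smul z := by
    induction z using Quotient.inductionOn with
    | _ x =>
      change Quotient.mk (rel G X N) ((1 : G) • x) = _
      rw [one_smul]
  mul_smul p q z := by
    induction p using Quotient.inductionOn' with
    | _ a =>
      induction q using Quotient.inductionOn' with
      | _ b =>
        induction z using Quotient.inductionOn with
        | _ x =>
          change Quotient.mk (rel G X N) ((a * b) • x) = Quotient.mk (rel G X N) (a • b • x)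
          rw [mul_smul]

end E02

theorem exists_quot_space (G X : Type) [Group G] [MulAction G X] (N : Subgroup G) [N.Normal] :
    ∃ (Z : Type) (_ : MulAction (G ⧸ N) Z) (π : X → Z), Function.Surjective π ∧
      (∀ x y, π x = π y ↔ ∃ g ∈ N, g • x = y) ∧
      ∀ (g : G) x, π (g • x) = (g : G ⧸ N) • π x := by
  refine ⟨Quotient (E02.rel G X N), E02.act G X N, Quotient.mk (E02.rel G X N), ?_, ?_, ?_⟩
  · exact Quotient.mk_surjective
  · intro x y
    constructor
    · intro h
      exact Quotient.exact h
    · intro h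
      exact Quotient.sound (s := E02.rel G X N) h
  · intro g x
    rfl

theorem closure_rotS {G S : Type} [Group G] (R : S → Subgroup G) :
    Subgroup.closure (⋃ s ∈ apx G S, (rotS R s : Set G)) =
      Subgroup.closure (⋃ s, (R s : Set G)) := by
  congr 1
  ext g
  simp only [Set.mem_iUnion, SetLike.mem_coe, apx, Set.mem_range]
  constructor
  · rintro ⟨_, ⟨s, rfl⟩, h⟩
    exact ⟨s, h⟩
  · rintro ⟨s, h⟩
    exact ⟨Sum.inr s, ⟨s, rfl⟩, h⟩

/-- coordinates are Lipschitz -/
theorem P_lip {V S : Type} {Γ : SimpleGraph V} {Y : S → Set V} {P : S → V → ℤ}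
    {I : V → V → Set V} {c Δ : ℕ} (hL : LSys Γ Y P I c Δ) (s : S) (u v : V) :
    |P s u - P s v| ≤ Γ.dist u v := by
  obtain ⟨p, hp⟩ := hL.conn.exists_walk_length_eq_dist u v
  rw [← hp]
  clear hp
  induction p with
  | nil => simp
  | cons h p ih =>
    rename_i a b c'
    have h1 := hL.lip s a b h
    have h2 := abs_sub_le (P s a) (P s b) (P s c')
    rw [SimpleGraph.Walk.length_cons]
    push_cast
    linarith

end Pool.Agent.Lib.MP_c23930_al
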