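import Pool.Agent.Lib.MP_c23930_al.E01
import Pool.Agent.Lib.MP_c23930_al.E02

/-!
# E03: stabilisers of apices and tripods in the quotient
-/

set_option autoImplicit false

namespace Pool.Agent.Lib.MP_c23930_al

open Pool.Agent.Lib.MP_f1646b_al

variable {G S Z : Type} [Group G] [MulAction G S] {Γ : SimpleGraph G} {Y : S → Set G}
  {P : S → G → ℤ} {I : G → G → Set G} {R : S → Subgroup G} {c Δ n θ : ℕ}
  {N : Subgroup G} [N.Normal] [MulAction (G ⧸ N) Z] {π : G ⊕ S → Z} {D : Z → Z → ℕ}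
  {β : Z → Z → Z → ℕ}

theorem quot_free (hA : LAct G Γ Y P R n) (hN : N = Subgroup.closure (⋃ s, (R s : Set G)))
    (hπ : ∀ x y, π x = π y ↔ ∃ g ∈ N, g • x = y)
    (hequiv : ∀ (g : G) x, π (g • x) = (g : G ⧸ N) • π x)
    (q : G ⧸ N) (hq : q ≠ 1) (s : Z) (hs : s ∈ π '' apx G S) : q • s ≠ s := by
  obtain ⟨g, rfl⟩ := QuotientGroup.mk_surjective q
  obtain ⟨_, ⟨t, rfl⟩, rfl⟩ := hs
  intro h
  rw [← hequiv, hπ] at h
  obtain ⟨ν, hν, h1⟩ := h
  rw [← mul_smul, Sum.smul_inr] at h1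
  have h2 : (ν * g) • t = t := Sum.inr_injective h1
  have h3 : ν * g ∈ R t := (hA.stab _ _).2 h2
  have h4 : ν * g ∈ N := by
    rw [hN]; exact Subgroup.subset_closure (Set.mem_iUnion.2 ⟨t, h3⟩)
  have h5 : g ∈ N := (Subgroup.mul_mem_cancel_left N hν).1 h4
  exact hq ((QuotientGroup.eq_one_iff g).2 h5)

theorem quot_trip (h : RotFam G (cd Γ Y) (apx G S) (alph Γ Y P) θ n (rotS R))
    (hN : N = Subgroup.closure (⋃ s, (R s : Set G)))
    (hπ : ∀ x y, π x = π y ↔ ∃ g ∈ N, g • x = y)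
    (hequiv : ∀ (g : G) x, π (g • x) = (g : G ⧸ N) • π x)
    (hQ : QuotPkg (cd Γ Y) (apx G S) (alph Γ Y P) θ n (rotS R) N π D β)
    (hα : ∀ s u v, (alph Γ Y P (Sum.inr s) (Sum.inl u) (Sum.inl v) : ℤ) ≤ 2 * |P s u - P s v| + θ)
    (hn : 8 * θ + 5 ≤ n) (hT : Trip G Γ Y P) :
    ∃ p : Z, p ∉ π '' apx G S ∧ ∃ C : ℕ, ∀ L : ℕ, ∃ t : Fin 3 → G ⧸ N,
      (∀ i, L ≤ D p (t i • p)) ∧
      ∀ i j, i ≠ j → D p (t i • p) + D p (t j • p) ≤ D (t i • p) (t j • p) + C := by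
  have key : ∀ a b : G, (∀ s, |P s a - P s b| ≤ 2) →
      D (π (Sum.inl a)) (π (Sum.inl b)) = cd Γ Y (Sum.inl a) (Sum.inl b) := by
    intro a b hab
    apply le_antisymm (hQ.le _ _)
    obtain ⟨y, hy, hd⟩ := hQ.lift (Sum.inl a) (π (Sum.inl b))
    rw [← hd]
    obtain ⟨g, hg, rfl⟩ := (hπ _ _).1 hy.symm
    refine ngeo_small h (Sum.inl a) (Sum.inl b) ?_ g ?_
    · rintro s ⟨t, rfl⟩ _ _
      have h1 := hα t a b
      have h2 := hab t
      have h3 : ((alph Γ Y P (Sum.inr t) (Sum.inl a) (Sum.inl b) : ℕ) : ℤ) ≤ 4 + θ := by linarith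
      omega
    · rw [closure_rotS, ← hN]; exact hg
  have hs : ∀ g : G, ((g : G ⧸ N)) • π (Sum.inl 1 : G ⊕ S) = π (Sum.inl g) := by
    intro g
    rw [← hequiv, Sum.smul_inl, smul_eq_mul, mul_one]
  refine ⟨π (Sum.inl 1), ?_, 2, fun L => ?_⟩
  · rintro ⟨_, ⟨t, rfl⟩, h1⟩
    obtain ⟨g, _, h2⟩ := (hπ _ _).1 h1
    rw [Sum.smul_inr] at h2
    exact absurd h2 (by simp)
  · obtain ⟨t, h1, h2, h3⟩ := hT L
    have k1 : ∀ i, D (π (Sum.inl 1)) (π (Sum.inl (t i))) =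
        cd Γ Y (Sum.inl 1) (Sum.inl (t i)) := by
      intro i
      refine key 1 (t i) fun s => ?_
      rw [abs_sub_comm]
      exact (h3 s i).trans (by norm_num)
    refine ⟨fun i => (t i : G ⧸ N), fun i => ?_, fun i j hij => ?_⟩
    · simp only
      rw [hs, k1]; exact h1 i
    · simp only
      rw [hs, hs, k1, k1, key (t i) (t j) ?_]
      · exact h2 i j hij
      · intro s
        have a1 := abs_le.1 (h3 s i)
        have a2 := abs_le.1 (h3 s j)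
        rw [abs_le]
        constructor <;> linarith [a1.1, a1.2, a2.1, a2.2]

end Pool.Agent.Lib.MP_c23930_al
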