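import Pool.Agent.Lib.MP_c23930_al.E02

/-!
# E04: displacement in the quotient (lifting argument)
-/

set_option autoImplicit false

namespace Pool.Agent.Lib.MP_c23930_al

open Pool.Agent.Lib.MP_f1646b_al

namespace E04

theorem dist_le {G : Type} [Group G] {Γ : SimpleGraph G} (hc : Γ.Connected)
    (hadj : ∀ g u v, Γ.Adj u v → Γ.Adj (g * u) (g * v)) (g a b : G) :
    Γ.dist (g * a) (g * b) ≤ Γ.dist a b := by
  obtain ⟨p, hp⟩ := hc.exists_walk_length_eq_dist a b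
  let f : Γ →g Γ := ⟨fun x => g * x, fun {x y} h => hadj g x y h⟩
  rw [← hp]
  have h1 := SimpleGraph.dist_le (p.map f)
  rwa [SimpleGraph.Walk.length_map] at h1

theorem dist_eq {G : Type} [Group G] {Γ : SimpleGraph G} (hc : Γ.Connected)
    (hadj : ∀ g u v, Γ.Adj u v → Γ.Adj (g * u) (g * v)) (g a b : G) :
    Γ.dist (g * a) (g * b) = Γ.dist a b := by
  refine le_antisymm (dist_le hc hadj g a b) ?_
  have h := dist_le hc hadj g⁻¹ (g * a) (g * b)
  rwa [inv_mul_cancel_left, inv_mul_cancel_left] at h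

end E04

theorem quot_disp {G S Z : Type} [Group G] [MulAction G S] {Γ : SimpleGraph G} {Y : S → Set G}
    {P : S → G → ℤ} {I : G → G → Set G} {R : S → Subgroup G} {c Δ n θ : ℕ}
    {N : Subgroup G} [N.Normal] [MulAction (G ⧸ N) Z] {π : G ⊕ S → Z} {D : Z → Z → ℕ}
    {β : Z → Z → Z → ℕ} (hL : LSys Γ Y P I c Δ) (hA : LAct G Γ Y P R n)
    (hsurj : Function.Surjective π)
    (hπ : ∀ x y, π x = π y ↔ ∃ g ∈ N, g • x = y)
    (hequiv : ∀ (g : G) x, π (g • x) = (g : G ⧸ N) • π x)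
    (hQ : QuotPkg (cd Γ Y) (apx G S) (alph Γ Y P) θ n (rotS R) N π D β)
    (hα : ∀ s u v, (alph Γ Y P (Sum.inr s) (Sum.inl u) (Sum.inl v) : ℤ) ≤ 2 * |P s u - P s v| + θ)
    (K A B : ℕ)
    (hB : ∀ u v, cd Γ Y (Sum.inl u) (Sum.inl v) ≤ K →
      (∀ s, alph Γ Y P (Sum.inr s) (Sum.inl u) (Sum.inl v) ≤ A + 8 * θ) → Γ.dist u v ≤ B)
    (hn : 6 * B + θ < n) (φ : G →* Multiplicative ℤ)
    (hφ : ∀ g, |(φ g).toAdd| ≤ 3 * (Γ.dist 1 g : ℤ)) (q : G ⧸ N)
    (hq : ∀ g : G, (g : G ⧸ N) = q → ¬ (3 : ℤ) ∣ (φ g).toAdd) (p : Z) (hp : p ∉ π '' apx G S) :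
    ∃ j, 1 ≤ j ∧ j ≤ 3 * B + 1 ∧ (K < D p (q ^ j • p) ∨
      ∃ s ∈ π '' apx G S, s ≠ p ∧ s ≠ q ^ j • p ∧ A < β s p (q ^ j • p)) := by
  by_contra hcon
  have hdist := E04.dist_eq hL.conn hA.adj
  -- the point over `p`
  obtain ⟨x, hx⟩ := hsurj p
  obtain ⟨u, rfl⟩ : ∃ u, x = Sum.inl u := by
    rcases x with u | s
    · exact ⟨u, rfl⟩
    · exact absurd ⟨_, ⟨s, rfl⟩, hx⟩ hp
  -- lifts
  have key : ∀ j : ℕ, 1 ≤ j → j ≤ 3 * B + 1 → ∃ h : G, (h : G ⧸ N) = q ^ j ∧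
      Γ.dist u (h * u) ≤ B := by
    intro j hj1 hj2
    obtain ⟨g, hg⟩ := QuotientGroup.mk_surjective (q ^ j)
    have hb : q ^ j • p ∉ π '' apx G S := by
      rintro ⟨_, ⟨s, rfl⟩, hs⟩
      refine hp ⟨Sum.inr (g⁻¹ • s), ⟨_, rfl⟩, ?_⟩
      rw [← Sum.smul_inr, hequiv, hs, QuotientGroup.mk_inv, hg, inv_smul_smul]
    obtain ⟨y, hy1, hy2, hy3⟩ := hQ.q2 (Sum.inl u) (q ^ j • p)
    obtain ⟨v, rfl⟩ : ∃ v, y = Sum.inl v := by
      rcases y with v | s
      · exact ⟨v, rfl⟩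
      · exact absurd ⟨_, ⟨s, rfl⟩, hy1⟩ hb
    rw [hx] at hy2 hy3
    have h1 : D p (q ^ j • p) ≤ K := by
      by_contra h
      exact hcon ⟨j, hj1, hj2, Or.inl (not_le.1 h)⟩
    have h2 : Γ.dist u v ≤ B := by
      refine hB u v (by rw [hy2]; exact h1) fun s => ?_
      have h3 := hy3 (Sum.inr s) ⟨s, rfl⟩ (by simp) (by simp)
      refine h3.trans (Nat.add_le_add_right ?_ _)
      by_contra h
      refine hcon ⟨j, hj1, hj2, Or.inr ⟨π (Sum.inr s), ⟨_, ⟨s, rfl⟩, rfl⟩, ?_, ?_, not_le.1 h⟩⟩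
      · intro h'
        exact hp ⟨_, ⟨s, rfl⟩, h'⟩
      · intro h'
        exact hb ⟨_, ⟨s, rfl⟩, h'⟩
    refine ⟨v * u⁻¹, ?_, by rw [inv_mul_cancel_right]; exact h2⟩
    have h4 : π (Sum.inl v) = π (g • (Sum.inl u : G ⊕ S)) := by
      rw [hequiv, hx, hy1, hg]
    obtain ⟨ν, hν, h5⟩ := (hπ _ _).1 h4
    rw [Sum.smul_inl, Sum.smul_inl, smul_eq_mul, smul_eq_mul] at h5
    have h6 : ν * v = g * u := Sum.inl_injective h5
    have h7 : v * u⁻¹ = ν⁻¹ * g := by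
      rw [← mul_inv_eq_iff_eq_mul.2 h6]
      group
    rw [h7, ← hg, QuotientGroup.mk_mul, QuotientGroup.mk_inv, (QuotientGroup.eq_one_iff ν).2 hν,
      inv_one, one_mul]
  choose! h hh1 hh2 using key
  have hJ : ∀ j : ℕ, 1 ≤ j → j ≤ 3 * B + 1 → h j = h 1 ^ j := by
    intro j hj1
    induction j, hj1 using Nat.le_induction with
    | base => intro _; rw [pow_one]
    | succ j hj1 ih =>
      intro hj2
      have ih' := ih (by omega)
      have e1 := hh1 1 le_rfl (by omega)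
      have e2 := hh1 j hj1 (by omega)
      have e3 := hh1 (j + 1) (by omega) hj2
      have d1 := hh2 1 le_rfl (by omega)
      have d2 := hh2 j hj1 (by omega)
      have d3 := hh2 (j + 1) (by omega) hj2
      have hν : (h (j + 1))⁻¹ * (h 1 * h j) ∈ N := by
        rw [← QuotientGroup.eq_one_iff, QuotientGroup.mk_mul, QuotientGroup.mk_inv,
          QuotientGroup.mk_mul, e1, e2, e3, pow_one, ← pow_succ', inv_mul_cancel]
      have h1 : (h (j + 1))⁻¹ * (h 1 * h j) = 1 := by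
        by_contra hne
        have hmv : ((h (j + 1))⁻¹ * (h 1 * h j)) • (Sum.inl u : G ⊕ S) ≠ Sum.inl u := by
          intro h'
          rw [Sum.smul_inl, smul_eq_mul] at h'
          exact hne (mul_eq_right.1 (Sum.inl_injective h'))
        obtain ⟨_, ⟨s, rfl⟩, _, _, h5, _⟩ := hQ.q3 _ hν (Sum.inl u) hmv
        rw [Sum.smul_inl, smul_eq_mul] at h5
        have h6 := hα s u ((h (j + 1))⁻¹ * (h 1 * h j) * u)
        have h7 := P_lip hL s u ((h (j + 1))⁻¹ * (h 1 * h j) * u)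
        have h8 : Γ.dist u ((h (j + 1))⁻¹ * (h 1 * h j) * u) ≤ 3 * B := by
          have t1 := hdist (h (j + 1)) u ((h (j + 1))⁻¹ * (h 1 * h j) * u)
          rw [show h (j + 1) * ((h (j + 1))⁻¹ * (h 1 * h j) * u) = h 1 * (h j * u) by group] at t1
          rw [← t1]
          have t2 := hL.conn.dist_triangle (u := h (j + 1) * u) (v := u) (w := h 1 * (h j * u))
          have t3 := hL.conn.dist_triangle (u := u) (v := h 1 * u) (w := h 1 * (h j * u))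
          have t4 := hdist (h 1) u (h j * u)
          have t5 : Γ.dist (h (j + 1) * u) u = Γ.dist u (h (j + 1) * u) := SimpleGraph.dist_comm
          omega
        have h9 : (n : ℤ) ≤ 6 * B + θ := by
          have h10 : (Γ.dist u ((h (j + 1))⁻¹ * (h 1 * h j) * u) : ℤ) ≤ 3 * B := by
            exact_mod_cast h8
          have h11 : (n : ℤ) ≤ (alph Γ Y P (Sum.inr s) (Sum.inl u)
            (Sum.inl ((h (j + 1))⁻¹ * (h 1 * h j) * u)) : ℤ) := by exact_mod_cast h5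
          linarith
        omega
      rw [inv_mul_eq_one] at h1
      rw [h1, ih', pow_succ']
  have e1 := hh1 1 le_rfl (by omega)
  rw [pow_one] at e1
  have hnz : (φ (h 1)).toAdd ≠ 0 := by
    intro h0
    refine hq (h 1) e1 ?_
    rw [h0]
    exact dvd_zero _
  have hJJ := hJ (3 * B + 1) (by omega) le_rfl
  have hd := hh2 (3 * B + 1) (by omega) le_rfl
  have h1 : (φ (h (3 * B + 1))).toAdd = ((3 * B + 1 : ℕ) : ℤ) * (φ (h 1)).toAdd := by
    rw [hJJ, map_pow, toAdd_pow, nsmul_eq_mul]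
  have h2 : φ (u⁻¹ * (h (3 * B + 1) * u)) = φ (h (3 * B + 1)) := by
    rw [map_mul, map_mul, map_inv, mul_comm (φ (h (3 * B + 1))), inv_mul_cancel_left]
  have h3 := hφ (u⁻¹ * (h (3 * B + 1) * u))
  rw [h2, h1, abs_mul] at h3
  have h4 := hdist u 1 (u⁻¹ * (h (3 * B + 1) * u))
  rw [mul_one, mul_inv_cancel_left] at h4
  rw [← h4] at h3
  have h5 : (1 : ℤ) ≤ |(φ (h 1)).toAdd| := Int.one_le_abs hnz
  have h6 : |((3 * B + 1 : ℕ) : ℤ)| = 3 * B + 1 := by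
    rw [abs_of_nonneg (by positivity)]
    push_cast
    ring
  rw [h6] at h3
  have h7 : (Γ.dist u (h (3 * B + 1) * u) : ℤ) ≤ B := by exact_mod_cast hd
  have h8 : (3 * (B : ℤ) + 1) * 1 ≤ (3 * B + 1) * |(φ (h 1)).toAdd| :=
    mul_le_mul_of_nonneg_left h5 (by positivity)
  linarith

end Pool.Agent.Lib.MP_c23930_al
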