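import Pool.Agent.Lib.MP_c23930_al.UDefs

/-!
# U11: growth of groups containing short free semigroups
-/

set_option autoImplicit false

namespace Pool.Agent.Lib.MP_c23930_al

open Pool.Agent.Lib.MP_f1646b_al

open scoped Pointwise

namespace U11

variable {G : Type*} [Group G]

theorem one_mem (S : Set G) : (1 : G) ∈ S ∪ S⁻¹ ∪ {1} := by simp

theorem mono (S : Set G) {a b : ℕ} (h : a ≤ b) : wball S a ⊆ wball S b :=
  Set.pow_subset_pow_right (one_mem S) h

theorem mul_mem {S : Set G} {a b : ℕ} {x y : G} (hx : x ∈ wball S a) (hy : y ∈ wball S b) :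
    x * y ∈ wball S (a + b) := by
  unfold wball at *
  rw [pow_add]
  exact Set.mul_mem_mul hx hy

theorem one_mem' (S : Set G) (n : ℕ) : (1 : G) ∈ wball S n :=
  mono S (Nat.zero_le n) (by simp [wball])

theorem fin_pow {U : Set G} (hU : U.Finite) (n : ℕ) : (U ^ n).Finite := by
  induction n with
  | zero => simp
  | succ n ih =>
    rw [pow_succ]
    exact ih.mul hU

theorem fin {S : Set G} (hS : S.Finite) (n : ℕ) : (wball S n).Finite := by
  unfold wball
  exact fin_pow ((hS.union hS.inv).union (Set.finite_singleton 1)) n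

theorem prod_mem {S : Set G} {l : ℕ} (L : List G) (hL : ∀ x ∈ L, x ∈ wball S l) :
    L.prod ∈ wball S (L.length * l) := by
  induction L with
  | nil => simp [wball]
  | cons x L ih =>
    rw [List.prod_cons, List.length_cons]
    have h1 := hL x (by simp)
    have h2 := ih fun y hy => hL y (by simp [hy])
    have h3 := mul_mem h1 h2
    have e : l + L.length * l = (L.length + 1) * l := by ring
    rwa [e] at h3

theorem card_pow {S : Set G} (hS : S.Finite) {l : ℕ} {a b : G} (ha : a ∈ wball S l)
    (hb : b ∈ wball S l) (k : ℕ)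
    (hf : Function.Injective fun f : Fin k → Bool =>
      (List.ofFn fun i => if f i then a else b).prod) :
    2 ^ k ≤ (wball S (k * l)).ncard := by
  have h1 : Set.range (fun f : Fin k → Bool => (List.ofFn fun i => if f i then a else b).prod) ⊆
      wball S (k * l) := by
    rintro _ ⟨f, rfl⟩
    have h2 := prod_mem (S := S) (l := l) (List.ofFn fun i => if f i then a else b) (by
      intro x hx
      rw [List.mem_ofFn] at hx
      obtain ⟨i, rfl⟩ := hx
      split_ifs
      · exact ha
      · exact hb)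
    rwa [List.length_ofFn] at h2
  have h3 : (Set.range fun f : Fin k → Bool =>
      (List.ofFn fun i => if f i then a else b).prod).ncard = 2 ^ k := by
    rw [← Set.image_univ, Set.ncard_image_of_injective _ hf, Set.ncard_univ]
    simp
  rw [← h3]
  exact Set.ncard_le_ncard h1 (fin hS _)

end U11

theorem growth_of_free {Q : Type*} [Group Q] (S : Finset Q) (ℓ : ℕ) (hℓ : 1 ≤ ℓ) (a b : Q)
    (ha : a ∈ wball (S : Set Q) ℓ) (hb : b ∈ wball (S : Set Q) ℓ)
    (hf : ∀ n, Function.Injective fun f : Fin n → Bool =>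
      (List.ofFn fun i => if f i then a else b).prod) (n : ℕ) :
    ((2 : ℝ) ^ ((1 : ℝ) / (2 * ℓ))) ^ n ≤ (Set.ncard (wball (S : Set Q) n) : ℝ) := by
  have hS : (S : Set Q).Finite := S.finite_toSet
  have hl0 : (0 : ℝ) < ℓ := by exact_mod_cast hℓ
  have e0 : ((2 : ℝ) ^ ((1 : ℝ) / (2 * ℓ))) ^ n = (2 : ℝ) ^ ((n : ℝ) / (2 * ℓ)) := by
    rw [← Real.rpow_natCast, ← Real.rpow_mul (by norm_num)]
    congr 1
    field_simp
  rw [e0]
  have hdm := Nat.div_add_mod n ℓ
  have hml := Nat.mod_lt n (show 0 < ℓ by omega)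
  rcases Nat.eq_zero_or_pos (n / ℓ) with hk | hk
  · -- short balls
    rw [hk, mul_zero, zero_add] at hdm
    have hnl : n < ℓ := by omega
    rcases Nat.eq_zero_or_pos n with hn | hn
    · subst hn
      have h9 : (wball (S : Set Q) 0).ncard = 1 := by
        unfold wball
        rw [pow_zero, ← Set.singleton_one, Set.ncard_singleton]
      rw [h9]
      simp
    · have h1 : ∃ s ∈ (S : Set Q) ∪ (S : Set Q)⁻¹ ∪ {1}, s ≠ 1 := by
        by_contra hcon
        push Not at hcon
        have h2 : wball (S : Set Q) ℓ ⊆ {1} := by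
          unfold wball
          have h3 : (S : Set Q) ∪ (S : Set Q)⁻¹ ∪ {1} ⊆ {1} := fun s hs => hcon s hs
          have h4 := Set.pow_subset_pow_left (n := ℓ) h3
          rwa [Set.singleton_pow, one_pow] at h4
        have ha1 : a = 1 := h2 ha
        have hb1 : b = 1 := h2 hb
        have h5 := @hf 1 (fun _ => true) (fun _ => false) (by simp [ha1, hb1])
        have h6 := congrFun h5 0
        simp at h6
      obtain ⟨s, hs, hs1⟩ := h1
      have hs' : s ∈ wball (S : Set Q) n := U11.mono (S : Set Q) hn (by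
        unfold wball
        rwa [pow_one])
      have h7 : 2 ≤ (wball (S : Set Q) n).ncard := by
        have h8 : ({s, 1} : Set Q) ⊆ wball (S : Set Q) n := by
          intro x hx
          rcases hx with rfl | rfl
          · exact hs'
          · exact U11.one_mem' _ _
        rw [← Set.ncard_pair hs1]
        exact Set.ncard_le_ncard h8 (U11.fin hS n)
      have h8 : (n : ℝ) / (2 * ℓ) ≤ 1 := by
        rw [div_le_one (by positivity)]
        have : (n : ℝ) ≤ ℓ := by exact_mod_cast hnl.le
        linarith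
      calc (2 : ℝ) ^ ((n : ℝ) / (2 * ℓ)) ≤ (2 : ℝ) ^ (1 : ℝ) :=
            Real.rpow_le_rpow_of_exponent_le (by norm_num) h8
        _ = 2 := Real.rpow_one 2
        _ ≤ _ := by exact_mod_cast h7
  · have h1 := U11.card_pow hS ha hb (n / ℓ) (hf _)
    have h2 : n / ℓ * ℓ ≤ n := Nat.div_mul_le_self n ℓ
    have h3 := Set.ncard_le_ncard (U11.mono (S : Set Q) h2) (U11.fin hS n)
    have h4 : (n : ℝ) / (2 * ℓ) ≤ ((n / ℓ : ℕ) : ℝ) := by
      rw [div_le_iff₀ (by positivity)]
      have h5 : n ≤ n / ℓ * (2 * ℓ) := by nlinarith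
      exact_mod_cast h5
    calc (2 : ℝ) ^ ((n : ℝ) / (2 * ℓ)) ≤ (2 : ℝ) ^ ((n / ℓ : ℕ) : ℝ) :=
          Real.rpow_le_rpow_of_exponent_le (by norm_num) h4
      _ = ((2 ^ (n / ℓ) : ℕ) : ℝ) := by rw [Real.rpow_natCast]; push_cast; ring
      _ ≤ _ := by exact_mod_cast h1.trans h3

end Pool.Agent.Lib.MP_c23930_al
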