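import Pool.Agent.Lib.MP_c23930_al.U01

/-!
# U10: free semigroups
-/

set_option autoImplicit false

namespace Pool.Agent.Lib.MP_c23930_al

open Pool.Agent.Lib.MP_f1646b_al

/-- the conditions for a free semigroup on `a`, `b` -/
structure Five {Q Z : Type*} [Group Q] [MulAction Q Z] (D : Z → Z → ℕ) (η κ : ℕ) (x : Z)
    (a b : Q) : Prop where
  aa : gp D x (a⁻¹ • x) (a • x) ≤ κ
  bb : gp D x (b⁻¹ • x) (b • x) ≤ κ
  ab : gp D x (a⁻¹ • x) (b • x) ≤ κ
  ba : gp D x (b⁻¹ • x) (a • x) ≤ κ
  pp : gp D x (a • x) (b • x) ≤ κ
  la : κ + η < D x (a • x)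
  lb : κ + η < D x (b • x)

namespace U10

variable {Q Z : Type*} [Group Q] [MulAction Q Z] {D : Z → Z → ℕ} {η κ : ℕ}

/-- the letters -/
def gg (a b : Q) (t : Bool) : Q := if t then a else b

/-- the points of the path of a word -/
def pt (a b : Q) (x : Z) (l : List Bool) (i : ℕ) : Z := ((l.take i).map (gg a b)).prod • x

theorem gp_smul (hi : ∀ (g : Q) x y, D (g • x) (g • y) = D x y) (q : Q) (z x y : Z) :
    gp D (q • z) (q • x) (q • y) = gp D z x y := by
  unfold gp
  rw [hi, hi, hi]

theorem prod_succ (a b : Q) (l : List Bool) (i : ℕ) (hl : i < l.length) :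
    ((l.take (i + 1)).map (gg a b)).prod = ((l.take i).map (gg a b)).prod * gg a b l[i] := by
  rw [List.take_succ_eq_append_getElem hl, List.map_append, List.prod_append]
  simp

theorem step (hi : ∀ (g : Q) x y, D (g • x) (g • y) = D x y) {x : Z} {a b : Q}
    (hf : Five D η κ x a b) (l : List Bool) (i : ℕ) (hl : i < l.length) :
    κ + η + 1 ≤ D (pt a b x l i) (pt a b x l (i + 1)) := by
  unfold pt
  rw [prod_succ a b l i hl, mul_smul, hi]
  unfold gg
  split_ifs
  · exact hf.la
  · exact hf.lb

theorem turn (hi : ∀ (g : Q) x y, D (g • x) (g • y) = D x y) {x : Z} {a b : Q}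
    (hf : Five D η κ x a b) (l : List Bool) (i : ℕ) (hl : i + 1 < l.length) :
    gp D (pt a b x l (i + 1)) (pt a b x l i) (pt a b x l (i + 2)) ≤ κ := by
  have e1 : pt a b x l i =
      ((l.take (i + 1)).map (gg a b)).prod • ((gg a b l[i])⁻¹ • x) := by
    unfold pt
    rw [prod_succ a b l i (by omega), mul_smul, smul_inv_smul]
  have e2 : pt a b x l (i + 2) =
      ((l.take (i + 1)).map (gg a b)).prod • (gg a b l[i + 1] • x) := by
    unfold pt
    rw [prod_succ a b l (i + 1) hl, mul_smul]
  rw [e1, e2]
  unfold pt
  rw [gp_smul hi]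
  unfold gg
  split_ifs
  · exact hf.aa
  · exact hf.ab
  · exact hf.ba
  · exact hf.bb

theorem clash (h : FP D η) (hi : ∀ (g : Q) x y, D (g • x) (g • y) = D x y) {x : Z} {a b : Q}
    (hf : Five D η κ x a b) (l l' : List Bool) (hl : l.length = l'.length)
    (he : (((true :: l).map (gg a b)).prod : Q) = ((false :: l').map (gg a b)).prod) : False := by
  obtain ⟨w, hw⟩ : ∃ w, w = true :: l := ⟨_, rfl⟩
  obtain ⟨w', hw'⟩ : ∃ w', w' = false :: l' := ⟨_, rfl⟩
  obtain ⟨m, hm⟩ : ∃ m, m = w.length := ⟨_, rfl⟩
  have hm' : m = w'.length := by rw [hm, hw, hw']; simp [hl]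
  have hm1 : 1 ≤ m := by rw [hm, hw]; simp
  have p1 : pt a b x w 1 = a • x := by rw [hw]; simp [pt, gg]
  have p1' : pt a b x w' 1 = b • x := by rw [hw']; simp [pt, gg]
  have p0 : pt a b x w 0 = x := by simp [pt]
  have p0' : pt a b x w' 0 = x := by simp [pt]
  have lg := local_global h (2 * m) κ (κ + η + 1)
    (fun j => if j ≤ m then pt a b x w (m - j) else pt a b x w' (j - m)) (by omega)
    (fun j hj => ?_) (fun j hj => ?_)
  · have h3 := lg.2.2
    rw [if_pos (Nat.zero_le _), if_neg (by omega), Nat.sub_zero,
      show 2 * m - m = m by omega] at h3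
    have e : pt a b x w m = pt a b x w' m := by
      unfold pt
      rw [hm, List.take_length, ← hm, hm', List.take_length, hw, hw', he]
    rw [e, h.geo.self] at h3
    have e2 : κ + η + 1 - κ - η = 1 := by omega
    rw [e2] at h3
    omega
  · by_cases h1 : j + 1 ≤ m
    · rw [if_pos (by omega), if_pos h1, h.geo.symm]
      have := step hi hf w (m - (j + 1)) (by omega)
      rwa [show m - (j + 1) + 1 = m - j by omega] at this
    · rw [if_neg h1]
      have := step hi hf w' (j - m) (by omega)
      rw [show j - m + 1 = j + 1 - m by omega] at this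
      by_cases h2 : j ≤ m
      · have : j = m := by omega
        subst this
        rw [if_pos le_rfl, Nat.sub_self, p0]
        rwa [Nat.sub_self, p0'] at this
      · rwa [if_neg h2]
  · by_cases h1 : j + 2 ≤ m
    · rw [if_pos (by omega), if_pos (by omega), if_pos h1, gp_symm h]
      have := turn hi hf w (m - (j + 2)) (by omega)
      rwa [show m - (j + 2) + 1 = m - (j + 1) by omega,
        show m - (j + 2) + 2 = m - j by omega] at this
    · rw [if_neg h1]
      by_cases h2 : j + 1 ≤ m
      · have h3 : j + 1 = m := by omega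
        have h5 : j ≤ m := by omega
        rw [if_pos h2, if_pos h5, show m - (j + 1) = 0 by omega, p0,
          show m - j = 1 by omega, p1, show j + 2 - m = 1 by omega, p1']
        exact hf.pp
      · rw [if_neg h2]
        have := turn hi hf w' (j - m) (by omega)
        rw [show j - m + 1 = j + 1 - m by omega, show j - m + 2 = j + 2 - m by omega] at this
        by_cases h4 : j ≤ m
        · have h5 : j = m := by omega
          subst h5
          rw [if_pos le_rfl, Nat.sub_self, p0]
          rwa [Nat.sub_self, p0'] at this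
        · rwa [if_neg h4]

theorem lists (h : FP D η) (hi : ∀ (g : Q) x y, D (g • x) (g • y) = D x y) {x : Z} {a b : Q}
    (hf : Five D η κ x a b) : ∀ l l' : List Bool, l.length = l'.length →
    ((l.map (gg a b)).prod : Q) = (l'.map (gg a b)).prod → l = l' := by
  intro l
  induction l with
  | nil => intro l' hl _; exact (List.length_eq_zero_iff.1 hl.symm).symm
  | cons t l ih =>
    intro l' hl he
    cases l' with
    | nil => simp at hl
    | cons t' l' =>
      have hl2 : l.length = l'.length := by simpa using hl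
      cases t <;> cases t'
      · rw [List.map_cons, List.map_cons, List.prod_cons, List.prod_cons] at he
        rw [ih l' hl2 (mul_left_cancel he)]
      · exact (clash h hi hf l' l hl2.symm he.symm).elim
      · exact (clash h hi hf l l' hl2 he).elim
      · rw [List.map_cons, List.map_cons, List.prod_cons, List.prod_cons] at he
        rw [ih l' hl2 (mul_left_cancel he)]

end U10

theorem five_free {Q Z : Type*} [Group Q] [MulAction Q Z] {D : Z → Z → ℕ} {η κ : ℕ}
    (h : FP D η) (hi : ∀ (g : Q) x y, D (g • x) (g • y) = D x y) {x : Z} {a b : Q}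
    (hf : Five D η κ x a b) (n : ℕ) :
    Function.Injective fun f : Fin n → Bool => (List.ofFn fun i => if f i then a else b).prod := by
  intro f f' he
  have e : ∀ f : Fin n → Bool, (List.ofFn fun i => if f i then a else b) =
      (List.ofFn f).map (U10.gg a b) := by
    intro f
    rw [List.map_ofFn]
    rfl
  dsimp only at he
  rw [e f, e f'] at he
  exact List.ofFn_injective (U10.lists h hi hf _ _ (by simp) he)

end Pool.Agent.Lib.MP_c23930_al
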