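import Pool.Agent.Lib.MP_c23930_al.U09
import Pool.Agent.Lib.MP_c23930_al.U10

/-!
# U12: two axes far from each other
-/

set_option autoImplicit false

namespace Pool.Agent.Lib.MP_c23930_al

open Pool.Agent.Lib.MP_f1646b_al

namespace U12

section

variable {Q Z : Type*} [Group Q] [MulAction Q Z] {D : Z → Z → ℕ} {η : ℕ}

/-- the broken path -/
def path (p0 p1 p2 p3 p4 : Z) : ℕ → Z
  | 0 => p0
  | 1 => p1
  | 2 => p2
  | 3 => p3
  | _ => p4

theorem chain4 (h : FP D η) (p0 p1 p2 p3 p4 : Z) (d1 : 10 * η + 5 ≤ D p0 p1)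
    (d2 : 10 * η + 5 ≤ D p1 p2) (d3 : 10 * η + 5 ≤ D p2 p3) (d4 : 10 * η + 5 ≤ D p3 p4)
    (g1 : gp D p1 p0 p2 ≤ 3 * η + 1) (g2 : gp D p2 p1 p3 ≤ 3 * η + 1)
    (g3 : gp D p3 p2 p4 ≤ 3 * η + 1) :
    gp D p3 p0 p4 ≤ 4 * η + 1 ∧ D p0 p1 ≤ D p0 p4 := by
  have h1 := local_global h 4 (3 * η + 1) (10 * η + 5) (path p0 p1 p2 p3 p4) (by omega)
    (by
      intro i hi
      interval_cases i
      · exact d1
      · exact d2
      · exact d3
      · exact d4)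
    (by
      intro i hi
      have hi2 : i < 3 := by omega
      push_cast
      interval_cases i
      · exact g1
      · exact g2
      · exact g3)
  obtain ⟨e1, e2, -⟩ := h1
  have f1 := e1 2 le_rfl
  have f2 := e2 1 (by omega)
  have f3 := e2 2 (by omega)
  have f4 := e2 3 (by omega)
  push_cast at f1 f2 f3 f4
  have f1' : gp D p3 p0 p4 ≤ 3 * η + 1 + η := f1
  have f2' : (D p0 p1 : ℤ) + D p1 p2 - (3 * η + 1) - η ≤ D p0 p2 := f2
  have f3' : (D p0 p2 : ℤ) + D p2 p3 - (3 * η + 1) - η ≤ D p0 p3 := f3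
  have f4' : (D p0 p3 : ℤ) + D p3 p4 - (3 * η + 1) - η ≤ D p0 p4 := f4
  constructor
  · omega
  · omega

theorem gp_smul (hi : ∀ (g : Q) x y, D (g • x) (g • y) = D x y) (g : Q) (x y z : Z) :
    gp D (g • x) (g • y) (g • z) = gp D x y z := by
  unfold gp
  rw [hi, hi, hi]

/-- the products of one of the elements -/
theorem half (h : FP D η) (hi : ∀ (g : Q) x y, D (g • x) (g • y) = D x y) {w v : Q} {x y : Z}
    {τ : ℕ} (hτ : 64 * η + 30 ≤ τ) (hw : D x (w • x) = τ) (hv : D y (v • y) = τ)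
    (hxy : 10 * η + 5 ≤ D x y)
    (w2 : gp D x y (w⁻¹ • x) ≤ 3 * η + 1) (v1 : gp D y x (v • y) ≤ 3 * η + 1)
    (v2 : gp D y x (v⁻¹ • y) ≤ 3 * η + 1) :
    (2 * τ : ℤ) - 4 * η - 1 ≤ gp D x (w • x) ((w * v) • x) ∧ τ ≤ D x ((w * v) • x) ∧
      16 * (η : ℤ) + 9 ≤ gp D x y ((w * v)⁻¹ • x) := by
  have hyx : D y x = D x y := h.geo.symm y x
  have hw' : D x (w⁻¹ • x) = τ := by
    rw [← hi w, smul_inv_smul, h.geo.symm, hw]
  have hv' : D y (v⁻¹ • y) = τ := by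
    rw [← hi v, smul_inv_smul, h.geo.symm, hv]
  have a12 : D (w • x) (w • y) = D x y := hi w x y
  have a23 : D (w • y) ((w * v) • y) = τ := by
    rw [mul_smul, hi, hv]
  have a34 : D ((w * v) • y) ((w * v) • x) = D x y := by
    rw [hi, hyx]
  have g1 : gp D (w • x) x (w • y) ≤ 3 * η + 1 := by
    have h1 := gp_smul hi w x (w⁻¹ • x) y
    rw [smul_inv_smul] at h1
    rw [h1, gp_symm h]
    exact w2
  have g2 : gp D (w • y) (w • x) ((w * v) • y) ≤ 3 * η + 1 := by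
    rw [mul_smul, gp_smul hi]
    exact v1
  have g3 : gp D ((w * v) • y) (w • y) ((w * v) • x) ≤ 3 * η + 1 := by
    have h1 := gp_smul hi (w * v) y (v⁻¹ • y) x
    rw [smul_smul (w * v) v⁻¹, mul_inv_cancel_right] at h1
    rw [h1, gp_symm h]
    exact v2
  have c1 := chain4 h x (w • x) (w • y) ((w * v) • y) ((w * v) • x) (by omega) (by omega)
    (by omega) (by omega) g1 g2 g3
  have c2 := chain4 h ((w * v) • x) ((w * v) • y) (w • y) (w • x) x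
    (by rw [h.geo.symm]; omega) (by rw [h.geo.symm]; omega) (by rw [h.geo.symm]; omega)
    (by rw [h.geo.symm]; omega) (by rw [gp_symm h]; exact g3) (by rw [gp_symm h]; exact g2)
    (by rw [gp_symm h]; exact g1)
  have c3 := c2.1
  rw [gp_symm h] at c3
  have c4 := gp_add h x (w • x) ((w * v) • x)
  -- the inverse
  have b23 : D (v⁻¹ • y) (v⁻¹ • x) = D x y := by
    rw [hi, hyx]
  have b34 : D (v⁻¹ • x) ((w * v)⁻¹ • x) = τ := by
    rw [mul_inv_rev, mul_smul, hi, hw']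
  have k2 : gp D (v⁻¹ • y) y (v⁻¹ • x) ≤ 3 * η + 1 := by
    have h1 := gp_smul hi v⁻¹ y (v • y) x
    rw [inv_smul_smul] at h1
    rw [h1, gp_symm h]
    exact v1
  have k3 : gp D (v⁻¹ • x) (v⁻¹ • y) ((w * v)⁻¹ • x) ≤ 3 * η + 1 := by
    rw [mul_inv_rev, mul_smul, gp_smul hi]
    exact w2
  have c5 := chain4 h ((w * v)⁻¹ • x) (v⁻¹ • x) (v⁻¹ • y) y x
    (by rw [h.geo.symm]; omega) (by rw [h.geo.symm]; omega) (by rw [h.geo.symm]; omega)
    (by rw [h.geo.symm]; omega) (by rw [gp_symm h]; exact k3) (by rw [gp_symm h]; exact k2)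
    (by rw [gp_symm h]; exact v2)
  have c6 := c5.1
  rw [gp_symm h] at c6
  have c7 := gp_add h x y ((w * v)⁻¹ • x)
  refine ⟨by omega, ?_, by omega⟩
  have := c1.2
  omega

theorem four2 (h : FP D η) (x p q r s : Z) (B : ℤ) (h1 : gp D x p s ≤ B)
    (h2 : B + 2 * η < gp D x p q) (h3 : B + 2 * η < gp D x s r) :
    gp D x q r ≤ B + 2 * η := by
  have e1 := gp_four h x p q s
  have e2 := gp_four h x q r s
  have e3 := gp_symm h x s r
  omega

end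

end U12

theorem axes_far {Q Z : Type*} [Group Q] [MulAction Q Z] {D : Z → Z → ℕ} {η : ℕ}
    (h : FP D η) (hi : ∀ (g : Q) x y, D (g • x) (g • y) = D x y) {w v : Q} {γ γ' : ℤ → Z} {τ : ℕ}
    (hγ : Axis D w γ τ) (hγ' : Axis D v γ' τ) (hτ : 64 * η + 30 ≤ τ)
    (hfar : ∀ i j, 10 * η + 4 < D (γ i) (γ' j)) :
    ∃ x, Five D η (62 * η + 25) x (w * v) (w⁻¹ * v) := by
  classical
  have hex : ∃ n, ∃ i j, D (γ i) (γ' j) = n := ⟨_, 0, 0, rfl⟩
  obtain ⟨i, j, hij⟩ := Nat.find_spec hex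
  have hmin : ∀ i' j', D (γ i) (γ' j) ≤ D (γ i') (γ' j') := by
    intro i' j'
    rw [hij]
    exact Nat.find_min' hex ⟨i', j', rfl⟩
  have hwx : w • γ i = γ (i + τ) := hγ.shift i
  have hwx' : w⁻¹ • γ i = γ (i - τ) := by
    rw [inv_smul_eq_iff, hγ.shift, sub_add_cancel]
  have hvy : v • γ' j = γ' (j + τ) := hγ'.shift j
  have hvy' : v⁻¹ • γ' j = γ' (j - τ) := by
    rw [inv_smul_eq_iff, hγ'.shift, sub_add_cancel]
  have hn1 : ∀ k, gp D (γ i) (γ' j) (γ k) ≤ 3 * η + 1 :=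
    Axis.nearest h hi hγ (by omega) (γ' j) i (fun i' => by
      rw [h.geo.symm (γ' j), h.geo.symm (γ' j)]
      exact hmin i' j)
  have hn2 : ∀ k, gp D (γ' j) (γ i) (γ' k) ≤ 3 * η + 1 :=
    Axis.nearest h hi hγ' (by omega) (γ i) j (fun j' => hmin i j')
  have hturn := Axis.turn h hi hγ (by omega) i
  have hdw : D (γ i) (w • γ i) = τ := by
    have h1 := hγ.lip i (i + τ)
    have h2 := hγ.min (γ i)
    rw [hwx] at h2 ⊢
    rw [add_sub_cancel_left, Nat.abs_cast] at h1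
    omega
  have hdw' : D (γ i) (w⁻¹ • γ i) = τ := by
    rw [← hi w, smul_inv_smul, h.geo.symm, hdw]
  have hdv : D (γ' j) (v • γ' j) = τ := by
    have h1 := hγ'.lip j (j + τ)
    have h2 := hγ'.min (γ' j)
    rw [hvy] at h2 ⊢
    rw [add_sub_cancel_left, Nat.abs_cast] at h1
    omega
  have hxy : 10 * η + 5 ≤ D (γ i) (γ' j) := hfar i j
  have hw1 : gp D (γ i) (γ' j) (w • γ i) ≤ 3 * η + 1 := by
    rw [hwx]
    exact hn1 _
  have hw2 : gp D (γ i) (γ' j) (w⁻¹ • γ i) ≤ 3 * η + 1 := by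
    rw [hwx']
    exact hn1 _
  have hv1 : gp D (γ' j) (γ i) (v • γ' j) ≤ 3 * η + 1 := by
    rw [hvy]
    exact hn2 _
  have hv2 : gp D (γ' j) (γ i) (v⁻¹ • γ' j) ≤ 3 * η + 1 := by
    rw [hvy']
    exact hn2 _
  obtain ⟨a1, a2, a3⟩ := U12.half h hi hτ hdw hdv hxy hw2 hv1 hv2
  obtain ⟨b1, b2, b3⟩ := U12.half (w := w⁻¹) h hi hτ hdw' hdv hxy
    (by rw [inv_inv]; exact hw1) hv1 hv2
  have ht : gp D (γ i) (w • γ i) (w⁻¹ • γ i) ≤ 2 * η + 1 := by
    rw [hwx, hwx', gp_symm h]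
    exact hturn
  refine ⟨γ i, ?_, ?_, ?_, ?_, ?_, ?_, ?_⟩
  · have := U12.four2 h (γ i) (γ' j) ((w * v)⁻¹ • γ i) ((w * v) • γ i) (w • γ i) (3 * η + 1)
      hw1 (by omega) (by omega)
    push_cast
    omega
  · have := U12.four2 h (γ i) (γ' j) ((w⁻¹ * v)⁻¹ • γ i) ((w⁻¹ * v) • γ i) (w⁻¹ • γ i)
      (3 * η + 1) hw2 (by omega) (by omega)
    push_cast
    omega
  · have := U12.four2 h (γ i) (γ' j) ((w * v)⁻¹ • γ i) ((w⁻¹ * v) • γ i) (w⁻¹ • γ i)
      (3 * η + 1) hw2 (by omega) (by omega)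
    push_cast
    omega
  · have := U12.four2 h (γ i) (γ' j) ((w⁻¹ * v)⁻¹ • γ i) ((w * v) • γ i) (w • γ i)
      (3 * η + 1) hw1 (by omega) (by omega)
    push_cast
    omega
  · have := U12.four2 h (γ i) (w • γ i) ((w * v) • γ i) ((w⁻¹ * v) • γ i) (w⁻¹ • γ i)
      (2 * η + 1) ht (by omega) (by omega)
    push_cast
    omega
  · omega
  · omega

end Pool.Agent.Lib.MP_c23930_al
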