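import Pool.Agent.Lib.MP_c23930_al.U09
import Pool.Agent.Lib.MP_c23930_al.U10

/-!
# U13: two axes which are close but diverge
-/

set_option autoImplicit false

namespace Pool.Agent.Lib.MP_c23930_al

open Pool.Agent.Lib.MP_f1646b_al

namespace U13

variable {Q Z : Type*} [Group Q] [MulAction Q Z] {D : Z → Z → ℕ} {η : ℕ}

theorem exists_nearest (D : Z → Z → ℕ) (γ : ℤ → Z) (z : Z) : ∃ j, ∀ i, D z (γ j) ≤ D z (γ i) := by
  refine ⟨Function.argmin fun i => D z (γ i), fun i => ?_⟩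
  exact Function.argmin_le (fun i => D z (γ i)) i

theorem shiftD (hi : ∀ (g : Q) x y, D (g • x) (g • y) = D x y) {w : Q}
    {γ : ℤ → Z} {τ : ℕ} (hγ : Axis D w γ τ) (i j : ℤ) (n : ℕ) :
    D (γ (i + n * τ)) (γ (j + n * τ)) = D (γ i) (γ j) := by
  induction n with
  | zero => simp
  | succ n ih =>
    rw [← ih, ← hi w (γ (i + n * τ)), hγ.shift, hγ.shift]
    congr 2 <;> push_cast <;> ring

theorem locZ (hi : ∀ (g : Q) x y, D (g • x) (g • y) = D x y) {w : Q}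
    {γ : ℤ → Z} {τ : ℕ} (hγ : Axis D w γ τ) (hτ : 1 ≤ τ) (i j : ℤ) (hij : i ≤ j)
    (hj : j ≤ i + τ) : (D (γ i) (γ j) : ℤ) = j - i := by
  first
  | exact hγ.loc i j hij hj
  | have h1 := shiftD hi hγ i j i.natAbs
    have h2 : 0 ≤ i + i.natAbs * τ := by
      have h3 : (i.natAbs : ℤ) * 1 ≤ i.natAbs * τ :=
        mul_le_mul_of_nonneg_left (by exact_mod_cast hτ) (by positivity)
      omega
    obtain ⟨a, ha⟩ := Int.eq_ofNat_of_zero_le h2
    obtain ⟨b, hb⟩ := Int.eq_ofNat_of_zero_le (show 0 ≤ j + i.natAbs * τ by omega)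
    have h4 := hγ.loc a b (by omega) (by omega)
    rw [← h1, ha, hb]
    omega

/-- the choice of the last close point -/
theorem last (h : FP D η) {v : Q} {γ γ' : ℤ → Z} {τ : ℕ} (hγ' : Axis D v γ' τ) (i₀ j₀ j₁ : ℤ)
    (hnear : D (γ i₀) (γ' j₀) ≤ 10 * η + 4) (h01 : j₀ < j₁)
    (hfar : ∀ i, 10 * η + 4 + τ + 1 ≤ D (γ i) (γ' j₁)) :
    ∃ i k : ℤ, D (γ i) (γ' k) = 10 * η + 4 ∧ (∀ i', 10 * η + 4 ≤ D (γ i') (γ' k)) ∧
      ∀ l i', k < l → l ≤ k + τ → 10 * η + 4 < D (γ i') (γ' l) := by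
  have hg := h.geo
  obtain ⟨k, ⟨hk1, ik, hk2⟩, hk3⟩ := Int.exists_greatest_of_bdd
    (P := fun k => k ≤ j₁ ∧ ∃ i, D (γ i) (γ' k) ≤ 10 * η + 4) ⟨j₁, fun z hz => hz.1⟩
    ⟨j₀, h01.le, i₀, hnear⟩
  have hlong : k + τ + 1 ≤ j₁ := by
    have h1 := hfar ik
    have h2 := hg.tri (γ ik) (γ' k) (γ' j₁)
    have h3 := hγ'.lip k j₁
    rw [abs_of_nonneg (by omega)] at h3
    omega
  have hno : ∀ l i', k < l → l ≤ k + τ → 10 * η + 4 < D (γ i') (γ' l) := by
    intro l i' hkl hl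
    by_contra hcon
    push Not at hcon
    have := hk3 l ⟨by omega, i', hcon⟩
    omega
  have hge : ∀ i', 10 * η + 4 ≤ D (γ i') (γ' k) := by
    intro i'
    have h1 : 10 * η + 4 < D (γ i') (γ' (k + 1)) := by
      rcases Nat.eq_zero_or_pos τ with h0 | h0
      · by_contra hcon
        push Not at hcon
        have := hk3 (k + 1) ⟨by omega, i', hcon⟩
        omega
      · exact hno (k + 1) i' (by omega) (by omega)
    have h2 := hg.tri (γ i') (γ' k) (γ' (k + 1))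
    have h3 := hγ'.lip k (k + 1)
    rw [abs_of_nonneg (by omega)] at h3
    omega
  exact ⟨ik, k, le_antisymm hk2 (hge ik), hge, hno⟩

/-- the oriented form -/
theorem main (h : FP D η) (hi : ∀ (g : Q) x y, D (g • x) (g • y) = D x y) {w v : Q}
    {γ γ' : ℤ → Z} {τ : ℕ} (hγ : Axis D w γ τ) (hγ' : Axis D v γ' τ) (hτ : 64 * η + 30 ≤ τ)
    (i₀ j₀ j₁ : ℤ) (hnear : D (γ i₀) (γ' j₀) ≤ 10 * η + 4) (h01 : j₀ < j₁)
    (hfar : ∀ i, 10 * η + 4 + τ + 1 ≤ D (γ i) (γ' j₁)) :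
    ∃ x, ∃ a : Q, (a = w ∨ a = w⁻¹) ∧ Five D η (62 * η + 25) x a v := by
  have hg := h.geo
  obtain ⟨i, k, hik, hge, hno⟩ := last h hγ' i₀ j₀ j₁ hnear h01 hfar
  obtain ⟨i', hi'⟩ := exists_nearest D γ (γ' (k + τ))
  obtain ⟨x, hx⟩ : ∃ x, x = γ i := ⟨_, rfl⟩
  obtain ⟨x', hx'⟩ : ∃ x', x' = γ i' := ⟨_, rfl⟩
  obtain ⟨y, hy⟩ : ∃ y, y = γ' k := ⟨_, rfl⟩
  obtain ⟨z, hz⟩ : ∃ z, z = γ' (k + τ) := ⟨_, rfl⟩
  have hτ6 : 6 * η + 6 ≤ τ := by omega
  have hτ2 : 2 * η + 2 ≤ τ := by omega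
  have hvy : v • y = z := by rw [hy, hz, hγ'.shift]
  have hxy : D x y = 10 * η + 4 := by rw [hx, hy]; exact hik
  have hnx : ∀ j, D y (γ i) ≤ D y (γ j) := by
    intro j
    rw [hg.symm y (γ i), hg.symm y (γ j), hy, hik]
    exact hge j
  have hn1 : ∀ j, gp D x y (γ j) ≤ 3 * η + 1 := by
    intro j
    rw [hx]
    exact hγ.nearest h hi hτ6 y i hnx j
  have hn2 : ∀ j, gp D x' z (γ j) ≤ 3 * η + 1 := by
    intro j
    rw [hx', hz]
    exact hγ.nearest h hi hτ6 _ i' hi' j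
  have hyz : D y z = τ := by
    have h1 := locZ hi hγ' (by omega) k (k + τ) (by omega) le_rfl
    rw [← hy, ← hz] at h1
    omega
  have hx'z : 10 * η + 4 < D x' z := by
    rw [hx', hz]
    exact hno _ i' (by omega) le_rfl
  -- the projections of `y` and `z` are close
  have hxx : D x x' ≤ 4 * η + 1 := by
    by_contra hcon
    push Not at hcon
    have hlg := (local_global h 3 (3 * η + 1) (4 * η + 2)
      (fun n => match n with | 0 => y | 1 => x | 2 => x' | _ => z) (by omega) ?_ ?_).1 1 (by omega)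
    · have h3 : gp D x' y z ≤ 3 * η + 1 + η := by exact_mod_cast hlg
      obtain ⟨t, ht, ht'⟩ := near_geod h x' y z
      rw [hyz] at ht
      have l1 := locZ hi hγ' (by omega) k (k + t) (by omega) (by omega)
      have l2 := locZ hi hγ' (by omega) (k + t) (k + τ) (by omega) (by omega)
      rw [← hy] at l1
      rw [← hz] at l2
      have h4 := ht' (γ' (k + t)) (by unfold MP_f1646b_al.Btw; omega) (by omega)
      rcases Nat.eq_zero_or_pos t with h0 | h0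
      · subst h0
        have h5 := hge i'
        rw [← hx'] at h5
        rw [Nat.cast_zero, add_zero] at h4
        omega
      · have h5 := hno (k + t) i' (by omega) (by omega)
        rw [← hx'] at h5
        omega
    · intro n hn
      interval_cases n
      · show 4 * η + 2 ≤ D y x
        rw [hg.symm]; omega
      · show 4 * η + 2 ≤ D x x'
        omega
      · show 4 * η + 2 ≤ D x' z
        omega
    · intro n hn
      have hn' : n ≤ 1 := by omega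
      interval_cases n
      · show gp D x y x' ≤ ((3 * η + 1 : ℕ) : ℤ)
        have := hn1 i'
        rw [← hx'] at this
        push_cast
        exact this
      · show gp D x' x z ≤ ((3 * η + 1 : ℕ) : ℤ)
        have := hn2 i
        rw [← hx, gp_symm h] at this
        push_cast
        exact this
  -- products with `v • x`
  have hvx : ∀ j, gp D x (v • x) (γ j) ≤ 31 * η + 11 := by
    intro j
    have h1 := hn2 j
    have h2 := gp_base h x x' z (γ j)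
    have h3 := gp_pt h x (v • x) z (γ j)
    have h4 : D (v • x) z = 10 * η + 4 := by rw [← hvy, hi]; exact hxy
    omega
  have hwx : w • x = γ (i + τ) := by rw [hx, hγ.shift]
  have hwx' : w⁻¹ • x = γ (i - τ) := by
    rw [inv_smul_eq_iff, hγ.shift, hx]
    congr 1
    ring
  have hvy' : v⁻¹ • y = γ' (k - τ) := by
    rw [inv_smul_eq_iff, hγ'.shift, hy]
    congr 1
    ring
  have hbb : gp D x (v⁻¹ • x) (v • x) ≤ 62 * η + 25 := by
    have h1 := hγ'.turn h hi hτ2 k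
    rw [← hy, ← hvy', ← hz, ← hvy] at h1
    have h2 := gp_base h x y (v⁻¹ • x) (v • x)
    have h3 := gp_pt h y (v⁻¹ • x) (v⁻¹ • y) (v • x)
    have h4 := gp_pt h y (v • x) (v • y) (v⁻¹ • y)
    rw [hi, hxy] at h3 h4
    rw [gp_symm h y (v • x) (v⁻¹ • y), gp_symm h y (v • y) (v⁻¹ • y)] at h4
    rw [hxy] at h2
    push_cast at h2 h3 h4
    omega
  have hww : gp D x (w⁻¹ • x) (w • x) ≤ 2 * η + 1 := by
    have h1 := hγ.turn h hi hτ2 i
    rw [hwx, hwx', hx]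
    exact h1
  have hvw := hvx (i + τ)
  have hvw' := hvx (i - τ)
  rw [← hwx, gp_symm h] at hvw
  rw [← hwx', gp_symm h] at hvw'
  have hlw : τ ≤ D x (w • x) := hγ.min x
  have hlw' : τ ≤ D x (w⁻¹ • x) := by
    have h1 := hi w x (w⁻¹ • x)
    rw [smul_inv_smul, hg.symm] at h1
    omega
  have hlv : τ ≤ D x (v • x) := hγ'.min x
  have hfour := gp_four h x (w • x) (v⁻¹ • x) (w⁻¹ • x)
  rw [gp_symm h x (w • x) (w⁻¹ • x)] at hfour
  rcases le_total (gp D x (w • x) (v⁻¹ • x)) (gp D x (v⁻¹ • x) (w⁻¹ • x)) with hc | hc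
  · rw [min_eq_left hc, gp_symm h] at hfour
    refine ⟨x, w, Or.inl rfl, ⟨?_, ?_, ?_, ?_, ?_, ?_, ?_⟩⟩ <;> push_cast
    · omega
    · omega
    · omega
    · omega
    · omega
    · omega
    · omega
  · rw [min_eq_right hc] at hfour
    refine ⟨x, w⁻¹, Or.inr rfl, ⟨?_, ?_, ?_, ?_, ?_, ?_, ?_⟩⟩ <;> push_cast
    · rw [inv_inv, gp_symm h]
      omega
    · omega
    · rw [inv_inv]
      omega
    · omega
    · omega
    · omega
    · omega

end U13

theorem axes_div {Q Z : Type*} [Group Q] [MulAction Q Z] {D : Z → Z → ℕ} {η : ℕ}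
    (h : FP D η) (hi : ∀ (g : Q) x y, D (g • x) (g • y) = D x y) {w v : Q} {γ γ' : ℤ → Z} {τ : ℕ}
    (hγ : Axis D w γ τ) (hγ' : Axis D v γ' τ) (hτ : 64 * η + 30 ≤ τ) (i₀ j₀ : ℤ)
    (hnear : D (γ i₀) (γ' j₀) ≤ 10 * η + 4) (hfar : ∀ B : ℕ, ∃ j, ∀ i, B ≤ D (γ i) (γ' j)) :
    ∃ x, ∃ a b : Q, (a = w ∨ a = w⁻¹) ∧ (b = v ∨ b = v⁻¹) ∧ Five D η (62 * η + 25) x a b := by
  obtain ⟨j₁, hj₁⟩ := hfar (10 * η + 4 + τ + 1)
  rcases lt_trichotomy j₀ j₁ with h1 | h1 | h1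
  · obtain ⟨x, a, ha, hf⟩ := U13.main h hi hγ hγ' hτ i₀ j₀ j₁ hnear h1 hj₁
    exact ⟨x, a, v, ha, Or.inl rfl, hf⟩
  · exfalso
    subst h1
    have := hj₁ i₀
    omega
  · obtain ⟨x, a, ha, hf⟩ := U13.main h hi hγ (hγ'.inv h hi) hτ i₀ (-j₀) (-j₁)
      (by simpa using hnear) (by omega) (by simpa using hj₁)
    exact ⟨x, a, v⁻¹, ha, Or.inr rfl, hf⟩

end Pool.Agent.Lib.MP_c23930_al
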