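import Pool.Agent.Lib.MP_c23930_al.U09

/-!
# U14: axes at bounded distance are uniformly close; the lineal case
-/

set_option autoImplicit false

namespace Pool.Agent.Lib.MP_c23930_al

open Pool.Agent.Lib.MP_f1646b_al

namespace U14

theorem exists_near {Z : Type*} (D : Z → Z → ℕ) (γ : ℤ → Z) (y : Z) :
    ∃ k, ∀ i, D y (γ k) ≤ D y (γ i) := by
  classical
  have h : ∃ n, ∃ k, D y (γ k) = n := ⟨D y (γ 0), 0, rfl⟩
  obtain ⟨k, hk⟩ := Nat.find_spec h
  refine ⟨k, fun i => ?_⟩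
  rw [hk]
  exact Nat.find_min' h ⟨i, rfl⟩

end U14

theorem axes_unif {Q Z : Type*} [Group Q] [MulAction Q Z] {D : Z → Z → ℕ} {η : ℕ}
    (h : FP D η) (hi : ∀ (g : Q) x y, D (g • x) (g • y) = D x y) {w v : Q} {γ γ' : ℤ → Z} {τ : ℕ}
    (hγ : Axis D w γ τ) (hγ' : Axis D v γ' τ) (hτ : 6 * η + 6 ≤ τ) (B : ℕ)
    (hB : ∀ j, ∃ i, D (γ i) (γ' j) ≤ B) (j : ℤ) : ∃ i, D (γ i) (γ' j) ≤ 8 * η + 2 := by
  set N : ℕ := B + 3 * η + 2 with hN
  have hNτ : (0 : ℤ) ≤ N * τ := by positivity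
  obtain ⟨i1, hi1⟩ := hB (j - N * τ)
  obtain ⟨i2, hi2⟩ := hB (j + N * τ)
  obtain ⟨k, hk⟩ := U14.exists_near D γ (γ' j)
  refine ⟨k, ?_⟩
  have f1 := Axis.far h hi hγ' hτ (j - N * τ) N
  rw [sub_add_cancel] at f1
  have f2 := Axis.far h hi hγ' hτ j N
  have t1 := Axis.three h hi hγ' hτ (j - N * τ) j (j + N * τ) (by linarith) (by linarith)
  have n1 := Axis.nearest h hi hγ hτ (γ' j) k hk i1
  have n2 := Axis.nearest h hi hγ hτ (γ' j) k hk i2
  set y := γ' j with hy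
  set y1 := γ' (j - N * τ) with hy1
  set y2 := γ' (j + N * τ) with hy2
  set x1 := γ i1 with hx1
  set x2 := γ i2 with hx2
  set m := γ k with hm
  have s1 := h.geo.symm y1 y
  have s2 := h.geo.symm x1 y1
  have s3 := h.geo.symm x2 y2
  have s4 := h.geo.symm m y
  have s5 := h.geo.symm m x1
  have r1 := h.geo.tri y x1 y1
  have r2 := h.geo.tri y x2 y2
  have r3 := h.geo.tri x1 m x2
  have g1 : 2 * (N : ℤ) - 2 * B ≤ gp D y y1 x1 := by
    simp only [gp]
    omega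
  have g2 : 2 * (N : ℤ) - 2 * B ≤ gp D y x2 y2 := by
    simp only [gp]
    omega
  have q1 := gp_four h y y1 x1 y2
  have q2 := gp_four h y x1 x2 y2
  have g3 : gp D y x1 y2 ≤ 5 * η + 1 := by
    by_contra hc
    push Not at hc
    have : (5 * η + 2 : ℤ) ≤ min (gp D y y1 x1) (gp D y x1 y2) := le_min (by omega) (by omega)
    omega
  have g4 : gp D y x1 x2 ≤ 6 * η + 1 := by
    by_contra hc
    push Not at hc
    have : (6 * η + 2 : ℤ) ≤ min (gp D y x1 x2) (gp D y x2 y2) := le_min (by omega) (by omega)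
    omega
  simp only [gp] at n1 n2 g4
  omega

theorem not_lineal {Q Z : Type*} [Group Q] [MulAction Q Z] {D : Z → Z → ℕ} {η : ℕ}
    (h : FP D η) (hi : ∀ (g : Q) x y, D (g • x) (g • y) = D x y) {w : Q} {γ : ℤ → Z} {τ : ℕ}
    (hγ : Axis D w γ τ) (hτ : 6 * η + 6 ≤ τ) (hB : ∀ q : Q, ∃ i, D (γ i) (q • γ 0) ≤ 8 * η + 2)
    (p : Z) (C : ℕ) (ht : ∀ L : ℕ, ∃ t : Fin 3 → Q, (∀ i, L ≤ D p (t i • p)) ∧
      ∀ i j, i ≠ j → D p (t i • p) + D p (t j • p) ≤ D (t i • p) (t j • p) + C) : False := by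
  set o := γ 0 with ho
  obtain ⟨t, ht1, ht2⟩ := ht (C + 10 * D o p + 52 * η + 14)
  choose n hn using fun i => hB (t i)
  have s0 := h.geo.symm o p
  have key : ∀ i j, i ≠ j → ¬ (0 ≤ n i ∧ n i ≤ n j) ∧ ¬ (n j ≤ n i ∧ n i ≤ 0) := by
    intro i j hij
    have e1 := ht1 i
    have e3 := ht2 i j hij
    have a1 := h.geo.tri p o (t i • p)
    have a2 := h.geo.tri o (t i • o) (t i • p)
    rw [hi] at a2
    have b1 := h.geo.tri o p (t i • o)
    have b2 := h.geo.tri p (t i • p) (t i • o)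
    rw [hi] at b2
    have b3 := h.geo.tri o p (t j • o)
    have b4 := h.geo.tri p (t j • p) (t j • o)
    rw [hi] at b4
    have b5 := h.geo.tri (t i • p) (t i • o) (t j • p)
    rw [hi] at b5
    have b6 := h.geo.tri (t i • o) (t j • o) (t j • p)
    rw [hi] at b6
    have c1 := h.geo.tri o (γ (n i)) (t i • o)
    have c2 := hn i
    have c3 := hn j
    have c4 := h.geo.symm o (γ (n i))
    have p1 := gp_pt h o (γ (n i)) (t i • o) (γ (n j))
    have p2 := gp_pt h o (γ (n j)) (t j • o) (t i • o)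
    have p3 := gp_symm h o (γ (n j)) (t i • o)
    have p4 := gp_symm h o (t j • o) (t i • o)
    have p5 : gp D o (t i • o) (t j • o) ≤ C + 6 * D o p := by
      simp only [gp]
      omega
    have q1 := gp_add h (γ (n i)) o (γ (n j))
    have main : ¬ gp D (γ (n i)) o (γ (n j)) ≤ 4 * η + 1 := by
      intro hc
      omega
    constructor
    · rintro ⟨h1, h2⟩
      exact main (Axis.three h hi hγ hτ 0 (n i) (n j) h1 h2)
    · rintro ⟨h1, h2⟩
      have h3 := Axis.three h hi hγ hτ (n j) (n i) 0 h1 h2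
      rw [gp_symm h] at h3
      exact main h3
  have k01 := key 0 1 (by decide)
  have k10 := key 1 0 (by decide)
  have k02 := key 0 2 (by decide)
  have k20 := key 2 0 (by decide)
  have k12 := key 1 2 (by decide)
  have k21 := key 2 1 (by decide)
  omega

end Pool.Agent.Lib.MP_c23930_al
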