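import Pool.Agent.Lib.MP_c23930_al.U06
import Pool.Agent.Lib.MP_c23930_al.U11
import Pool.Agent.Lib.MP_c23930_al.U12
import Pool.Agent.Lib.MP_c23930_al.U13
import Pool.Agent.Lib.MP_c23930_al.U14

/-!
# U15: the abstract uniform growth theorem
-/

set_option autoImplicit false

namespace Pool.Agent.Lib.MP_c23930_al

open Pool.Agent.Lib.MP_f1646b_al

namespace U15

open scoped Pointwise

variable {G : Type*} [Group G] {S : Set G}

theorem one_mem_base : (1 : G) ∈ (S ∪ S⁻¹ ∪ {1} : Set G) := Or.inr rfl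

theorem mono {m n : ℕ} (h : m ≤ n) {x : G} (hx : x ∈ wball S m) : x ∈ wball S n :=
  Set.pow_subset_pow_right one_mem_base h hx

theorem mul_mem {m n : ℕ} {x y : G} (hx : x ∈ wball S m) (hy : y ∈ wball S n) :
    x * y ∈ wball S (m + n) := by
  unfold wball
  rw [pow_add]
  exact Set.mul_mem_mul hx hy

theorem inv_mem {m : ℕ} {x : G} (hx : x ∈ wball S m) : x⁻¹ ∈ wball S m := by
  unfold wball at *
  have h1 : x⁻¹ ∈ ((S ∪ S⁻¹ ∪ {1} : Set G) ^ m)⁻¹ := Set.inv_mem_inv.2 hx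
  have h2 : (S ∪ S⁻¹ ∪ {1} : Set G)⁻¹ = S ∪ S⁻¹ ∪ {1} := by
    rw [Set.union_inv, Set.union_inv, inv_inv, Set.inv_singleton, inv_one, Set.union_comm S⁻¹ S]
  rwa [← inv_pow, h2] at h1

theorem base_mem {x : G} (hx : x ∈ S ∨ x⁻¹ ∈ S) : x ∈ wball S 1 := by
  unfold wball
  rw [pow_one]
  rcases hx with hx | hx
  · exact Or.inl (Or.inl hx)
  · exact Or.inl (Or.inr hx)

theorem pow_mem {x : G} (hx : x ∈ S) (n : ℕ) : x ^ n ∈ wball S n :=
  Set.pow_mem_pow (Or.inl (Or.inl hx))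

end U15

open U15 in
theorem ueg_abs (θ e δ : ℕ) : ∃ K A : ℕ, ∀ J : ℕ, ∃ c : ℝ, 1 < c ∧
    ∀ (Q Z : Type) [Group Q] [MulAction Q Z] (D : Z → Z → ℕ) (T : Set Z) (β : Z → Z → Z → ℕ)
      (R : Subgroup Q), UData Q D T β θ e δ K A J R → UEGWith Q c := by
  set η : ℕ := 4 * δ + 4 with hη
  set C : ℕ := 64 * η + 30 + η + 1 with hC
  obtain ⟨K, A, hKA⟩ := exists_lox θ e δ C (by omega)
  refine ⟨K, A, fun J => ?_⟩
  refine ⟨(2 : ℝ) ^ ((1 : ℝ) / (2 * ((2 * (J + C) + 2 : ℕ) : ℝ))),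
    Real.one_lt_rpow (by norm_num) (by positivity), ?_⟩
  intro Q Z _ _ D T β R h S hS n
  have hfp : FP D η := fp_of_hyp h.act.cas.geo h.hyp
  have hi : ∀ (g : Q) x y, D (g • x) (g • y) = D x y := h.act.isom
  obtain ⟨g, hgS, hgR⟩ : ∃ g ∈ S, g ∉ R := by
    by_contra hne
    push Not at hne
    apply h.proper
    rw [eq_top_iff, ← hS, Subgroup.closure_le]
    exact fun x hx => hne x hx
  obtain ⟨i, hi1, hiI, p0, hp0⟩ := hKA J Q Z D T β R h g hgR
  have hw2 : (g ^ i) ^ 2 = g ^ (2 * i) := by rw [← pow_mul, mul_comm]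
  obtain ⟨p, hmin, hbig⟩ := exists_min hfp hi (g ^ i) (64 * η + 30) p0 (by
    rw [hw2]; omega)
  obtain ⟨γ, -, hγ⟩ := exists_axis hfp hi (g ^ i) p hmin (by omega)
  set w : Q := g ^ i with hw
  set τ : ℕ := D p (w • p) with hτ
  have hwm : w ∈ wball (S : Set Q) (J + C) := U15.mono hiI (U15.pow_mem hgS i)
  by_cases hall : ∀ s ∈ S, (∃ B, ∀ j, ∃ i, D (γ i) (s • γ j) ≤ B) ∧
      (∃ B, ∀ j, ∃ i, D (γ i) (s⁻¹ • γ j) ≤ B)
  · -- the lineal case
    exfalso
    have hq : ∀ q : Q, (∃ B, ∀ j, ∃ i, D (γ i) (q • γ j) ≤ B) ∧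
        (∃ B, ∀ j, ∃ i, D (γ i) (q⁻¹ • γ j) ≤ B) := by
      have hmul : ∀ x y : Q, (∃ B, ∀ j, ∃ i, D (γ i) (x • γ j) ≤ B) →
          (∃ B, ∀ j, ∃ i, D (γ i) (y • γ j) ≤ B) →
          ∃ B, ∀ j, ∃ i, D (γ i) ((x * y) • γ j) ≤ B := by
        rintro x y ⟨B1, h1⟩ ⟨B2, h2⟩
        refine ⟨B1 + B2, fun j => ?_⟩
        obtain ⟨k, hk⟩ := h2 j
        obtain ⟨l, hl⟩ := h1 k
        refine ⟨l, ?_⟩
        have h3 := hfp.geo.tri (γ l) (x • γ k) ((x * y) • γ j)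
        rw [mul_smul, hi] at h3
        rw [mul_smul]
        omega
      intro q
      have hqm : q ∈ Subgroup.closure (S : Set Q) := by rw [hS]; trivial
      induction hqm using Subgroup.closure_induction with
      | mem x hx => exact hall x hx
      | one =>
        rw [inv_one]
        have h1 : ∃ B, ∀ j, ∃ i, D (γ i) ((1 : Q) • γ j) ≤ B :=
          ⟨0, fun j => ⟨j, by rw [one_smul, hfp.geo.self]⟩⟩
        exact ⟨h1, h1⟩
      | mul x y _ _ hx hy =>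
        refine ⟨hmul x y hx.1 hy.1, ?_⟩
        rw [mul_inv_rev]
        exact hmul _ _ hy.2 hx.2
      | inv x _ hx =>
        refine ⟨hx.2, ?_⟩
        rw [inv_inv]
        exact hx.1
    obtain ⟨p', -, C', hC'⟩ := h.trip
    refine not_lineal hfp hi hγ (by omega) (fun q => ?_) p' C' hC'
    obtain ⟨B, hB⟩ := (hq q).1
    exact axes_unif hfp hi hγ (hγ.conj hfp hi q) (by omega) B hB 0
  · -- a conjugate axis diverges
    obtain ⟨s, hs, hsB⟩ : ∃ s : Q, (s ∈ (S : Set Q) ∨ s⁻¹ ∈ (S : Set Q)) ∧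
        ¬ ∃ B, ∀ j, ∃ i, D (γ i) (s • γ j) ≤ B := by
      by_contra hne
      push Not at hne
      apply hall
      intro s hs
      exact ⟨hne s (Or.inl hs), hne s⁻¹ (Or.inr (by rwa [inv_inv]))⟩
    push Not at hsB
    have hγ' := hγ.conj hfp hi s
    have hfar : ∀ B : ℕ, ∃ j, ∀ i, B ≤ D (γ i) (s • γ j) := by
      intro B
      obtain ⟨j, hj⟩ := hsB B
      exact ⟨j, fun i => (hj i).le⟩
    have hsm : s ∈ wball (S : Set Q) 1 := U15.base_mem hs
    have hvm : s * w * s⁻¹ ∈ wball (S : Set Q) (1 + (J + C) + 1) :=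
      U15.mul_mem (U15.mul_mem hsm hwm) (U15.inv_mem hsm)
    have hend : ∀ (x : Z) (a b : Q), Five D η (62 * η + 25) x a b →
        a ∈ wball (S : Set Q) (2 * (J + C) + 2) → b ∈ wball (S : Set Q) (2 * (J + C) + 2) →
        ((2 : ℝ) ^ ((1 : ℝ) / (2 * ((2 * (J + C) + 2 : ℕ) : ℝ)))) ^ n ≤
          (Set.ncard (wball (S : Set Q) n) : ℝ) := by
      intro x a b hf ha hb
      exact growth_of_free S (2 * (J + C) + 2) (by omega) a b ha hb (five_free hfp hi hf) n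
    by_cases hclose : ∃ i j, D (γ i) (s • γ j) ≤ 10 * η + 4
    · obtain ⟨i₀, j₀, hij⟩ := hclose
      obtain ⟨x, a, b, ha, hb, hf⟩ := axes_div hfp hi hγ hγ' hbig i₀ j₀ hij hfar
      refine hend x a b hf ?_ ?_
      · refine U15.mono (m := J + C) (by omega) ?_
        rcases ha with rfl | rfl
        · exact hwm
        · exact U15.inv_mem hwm
      · refine U15.mono (m := 1 + (J + C) + 1) (by omega) ?_
        rcases hb with rfl | rfl
        · exact hvm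
        · exact U15.inv_mem hvm
    · push Not at hclose
      obtain ⟨x, hf⟩ := axes_far hfp hi hγ hγ' hbig hclose
      refine hend x _ _ hf ?_ ?_
      · exact U15.mono (m := (J + C) + (1 + (J + C) + 1)) (by omega) (U15.mul_mem hwm hvm)
      · exact U15.mono (m := (J + C) + (1 + (J + C) + 1)) (by omega)
          (U15.mul_mem (U15.inv_mem hwm) hvm)

end Pool.Agent.Lib.MP_c23930_al
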