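import Pool.Agent.Lib.MP_c23930_al.A08
import Pool.Agent.Lib.MP_c23930_al.E03
import Pool.Agent.Lib.MP_c23930_al.E04
import Pool.Agent.Lib.MP_c23930_al.U15
import Pool.Agent.Lib.MP_f1646b_al.P13b

/-!
# E05: uniform growth of the quotient
-/

set_option autoImplicit false

namespace Pool.Agent.Lib.MP_c23930_al

open Pool.Agent.Lib.MP_f1646b_al

theorem ueg_quot (c Δ : ℕ) : ∃ n₀ : ℕ, ∀ n, n₀ ≤ n → ∀ (G S : Type) [Group G] [MulAction G S]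
    (Γ : SimpleGraph G) (Y : S → Set G) (P : S → G → ℤ) (I : G → G → Set G)
    (R : S → Subgroup G), LSys Γ Y P I c Δ → LAct G Γ Y P R n →
    ∀ φ : G →* Multiplicative ℤ, (∀ g, |(φ g).toAdd| ≤ 3 * (Γ.dist 1 g : ℤ)) →
    (∀ s, ∀ ρ ∈ R s, (3 : ℤ) ∣ (φ ρ).toAdd) → (∃ g, ¬ (3 : ℤ) ∣ (φ g).toAdd) →
    Trip G Γ Y P → ∀ (N : Subgroup G) [N.Normal], N = Subgroup.closure (⋃ s, (R s : Set G)) →
    UEG (G ⧸ N) := by
  obtain ⟨θ, δ, Bf, hpkg⟩ := cone_pkg c Δ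
  obtain ⟨K, A, hU⟩ := ueg_abs θ (4 * θ) δ
  set B := Bf K (A + 8 * θ) with hBdef
  obtain ⟨cc, hcc, hU⟩ := hU (3 * B + 1)
  refine ⟨max (8 * θ + 5) (6 * B + θ + 1), ?_⟩
  intro n hn G S _ _ Γ Y P I R hL hA φ hφ hφR hφ1 hT N _ hN
  have hn1 : 8 * θ + 5 ≤ n := le_trans (le_max_left _ _) hn
  have hn2 : 6 * B + θ + 1 ≤ n := le_trans (le_max_right _ _) hn
  obtain ⟨hC, hHyp, hLB, hα⟩ := hpkg G S Γ Y P I hL
  have hRot := cone_rot hL hA hC (by omega : 8 * θ < n)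
  obtain ⟨Z, _, π, hsurj, hπ, hequiv⟩ := exists_quot_space G (G ⊕ S) N
  obtain ⟨D, β, hQ⟩ := exists_quotPkg hRot N (hN.trans (closure_rotS R).symm) π hsurj hπ hequiv
  have hφN : ∀ g ∈ N, (3 : ℤ) ∣ (φ g).toAdd := by
    intro g hg
    rw [hN] at hg
    induction hg using Subgroup.closure_induction with
    | mem x hx =>
      obtain ⟨s, hs⟩ := Set.mem_iUnion.1 hx
      exact hφR s x hs
    | one => simp
    | mul x y _ _ h1 h2 => rw [map_mul, toAdd_mul]; exact dvd_add h1 h2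
    | inv x _ h1 => rw [map_inv, toAdd_inv]; exact (dvd_neg).2 h1
  -- the subgroup of elements whose lifts have image divisible by three
  let R' : Subgroup (G ⧸ N) :=
    { carrier := {q | ∃ g : G, (g : G ⧸ N) = q ∧ (3 : ℤ) ∣ (φ g).toAdd}
      mul_mem' := by
        rintro _ _ ⟨g, rfl, hg⟩ ⟨h, rfl, hh⟩
        exact ⟨g * h, rfl, by rw [map_mul, toAdd_mul]; exact dvd_add hg hh⟩
      one_mem' := ⟨1, rfl, by simp⟩
      inv_mem' := by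
        rintro _ ⟨g, rfl, hg⟩
        exact ⟨g⁻¹, rfl, by rw [map_inv, toAdd_inv]; exact (dvd_neg).2 hg⟩ }
  have hR' : ∀ g : G, (g : G ⧸ N) ∈ R' → (3 : ℤ) ∣ (φ g).toAdd := by
    rintro g ⟨h, hh, h3⟩
    have h4 : h⁻¹ * g ∈ N := QuotientGroup.eq.1 hh
    have h5 := hφN _ h4
    rw [map_mul, toAdd_mul, map_inv, toAdd_inv] at h5
    have h6 := dvd_add h3 h5
    simpa using h6
  refine ⟨cc, hcc, hU (G ⧸ N) Z D (π '' apx G S) β R' ⟨hQ.act, hQ.hyp δ hHyp,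
    fun q hq s hs => quot_free hA hN hπ hequiv q hq s hs, ?_, ?_,
    quot_trip hRot hN hπ hequiv hQ hα hn1 hT⟩⟩
  · intro htop
    obtain ⟨g, hg⟩ := hφ1
    exact hg (hR' g (htop ▸ Subgroup.mem_top _))
  · intro q hq p hp
    refine quot_disp hL hA hsurj hπ hequiv hQ hα K A B (fun u v h1 h2 => hLB K (A + 8 * θ) u v h1 h2)
      (by omega) φ hφ q ?_ p hp
    rintro g rfl h3
    exact hq ⟨g, rfl, h3⟩

end Pool.Agent.Lib.MP_c23930_al
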