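import Pool.Agent.Lib.MP_c23930_al.UDefs

/-!
# F01: a finite index subgroup is quasi-isometric to the group
-/

set_option autoImplicit false

namespace Pool.Agent.Lib.MP_c23930_al

open scoped Pointwise

namespace F01

section
variable {G : Type*} [Group G]

theorem one_mem (S : Set G) : (1 : G) ∈ S ∪ S⁻¹ ∪ {1} := by simp

theorem inv_eq (S : Set G) : (S ∪ S⁻¹ ∪ {1})⁻¹ = S ∪ S⁻¹ ∪ {1} := by
  rw [Set.union_inv, Set.union_inv, inv_inv, Set.inv_singleton, inv_one, Set.union_comm S⁻¹ S]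

theorem mono (S : Set G) {a b : ℕ} (h : a ≤ b) : wball S a ⊆ wball S b :=
  Set.pow_subset_pow_right (one_mem S) h

theorem mul_mem {S : Set G} {a b : ℕ} {x y : G} (hx : x ∈ wball S a) (hy : y ∈ wball S b) :
    x * y ∈ wball S (a + b) := by
  unfold wball at *
  rw [pow_add]
  exact Set.mul_mem_mul hx hy

theorem inv_mem {S : Set G} {a : ℕ} {x : G} (hx : x ∈ wball S a) : x⁻¹ ∈ wball S a := by
  have : (wball S a)⁻¹ = wball S a := by
    unfold wball
    rw [← inv_pow, inv_eq]
  rw [← this]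
  exact Set.inv_mem_inv.2 hx

theorem one_mem' (S : Set G) (n : ℕ) : (1 : G) ∈ wball S n :=
  mono S (Nat.zero_le n) (by simp [wball])

theorem fin_pow {U : Set G} (hU : U.Finite) (n : ℕ) : (U ^ n).Finite := by
  induction n with
  | zero => simp
  | succ n ih =>
    rw [pow_succ]
    exact ih.mul hU

theorem fin {S : Set G} (hS : S.Finite) (n : ℕ) : (wball S n).Finite := by
  unfold wball
  exact fin_pow ((hS.union hS.inv).union (Set.finite_singleton 1)) n

theorem gen {S : Set G} (hS : Subgroup.closure S = ⊤) (g : G) : ∃ n, g ∈ wball S n := by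
  have hg : g ∈ Subgroup.closure S := by rw [hS]; trivial
  induction hg using Subgroup.closure_induction with
  | mem x hx => exact ⟨1, by simp [wball, hx]⟩
  | one => exact ⟨0, by simp [wball]⟩
  | mul x y _ _ hx hy =>
    obtain ⟨a, ha⟩ := hx
    obtain ⟨b, hb⟩ := hy
    exact ⟨a + b, mul_mem ha hb⟩
  | inv x _ hx =>
    obtain ⟨a, ha⟩ := hx
    exact ⟨a, inv_mem ha⟩

theorem sub_closure (S : Set G) (n : ℕ) : wball S n ⊆ Subgroup.closure S := by
  unfold wball
  induction n with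
  | zero => simp
  | succ n ih =>
    rw [pow_succ]
    rintro x ⟨a, ha, b, hb, rfl⟩
    refine Subgroup.mul_mem _ (ih ha) ?_
    rcases hb with (hb | hb) | hb
    · exact Subgroup.subset_closure hb
    · exact (Subgroup.inv_mem_iff _).1 (Subgroup.subset_closure hb)
    · rw [Set.mem_singleton_iff.1 hb]
      exact Subgroup.one_mem _

/-- right transversal -/
theorem exists_tau (R : Subgroup G) [R.FiniteIndex] :
    ∃ τ : G → G, (Set.range τ).Finite ∧ (∀ g, g * (τ g)⁻¹ ∈ R) ∧ (∀ g ∈ R, τ g = 1) := by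
  classical
  have hfin : Finite (Quotient (QuotientGroup.rightRel R)) :=
    Finite.of_equiv _ (QuotientGroup.quotientRightRelEquivQuotientLeftRel R).symm
  refine ⟨fun g => if g ∈ R then 1 else
    (Quotient.mk (QuotientGroup.rightRel R) g).out, ?_, ?_, ?_⟩
  · refine ((Set.finite_range (fun q : Quotient (QuotientGroup.rightRel R) => q.out)).insert
      1).subset ?_
    rintro x ⟨g, rfl⟩
    by_cases h : g ∈ R
    · simp [h]
    · simp [h]
  · intro g
    by_cases h : g ∈ R
    · simp [h]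
    · simp only [h, if_false]
      have := Quotient.mk_out (s := QuotientGroup.rightRel R) g
      exact QuotientGroup.rightRel_apply.1 this
  · intro g hg
    simp [hg]

end

section
variable {Q : Type} [Group Q] (R : Subgroup Q) (S : Finset Q) (τ : Q → Q) (m : ℕ)
  (hτ : ∀ g, g * (τ g)⁻¹ ∈ R) (hτ1 : ∀ g ∈ R, τ g = 1) (hm : ∀ g, τ g ∈ wball (S : Set Q) m)

/-- short elements of the subgroup -/
def T : Set R := {r | (r : Q) ∈ wball (S : Set Q) (2 * m + 1)}

theorem T_fin : (T R S m).Finite := by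
  refine Set.Finite.preimage ?_ (fin S.finite_toSet _)
  exact Subtype.val_injective.injOn

theorem T_sym : T R S m ∪ (T R S m)⁻¹ ∪ {1} = T R S m := by
  ext r
  constructor
  · rintro ((h | h) | h)
    · exact h
    · have := inv_mem (S := (S : Set Q)) (a := 2 * m + 1) h
      simpa [T] using this
    · rw [Set.mem_singleton_iff.1 h]
      exact one_mem' _ _
  · intro h
    exact Or.inl (Or.inl h)

/-- the quasi-isometry -/
def f (g : Q) : R := ⟨g * (τ g)⁻¹, hτ g⟩

include hm in
theorem up (n : ℕ) : ∀ g g' : Q, g⁻¹ * g' ∈ wball (S : Set Q) n →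
    (f R τ hτ g)⁻¹ * f R τ hτ g' ∈ wball (T R S m) n := by
  induction n with
  | zero =>
    intro g g' h
    have : g = g' := by
      have h1 : g⁻¹ * g' = 1 := by simpa [wball] using h
      exact inv_mul_eq_one.1 h1
    subst this
    rw [inv_mul_cancel]
    exact one_mem' _ _
  | succ n ih =>
    intro g g' h
    unfold wball at h
    rw [pow_succ] at h
    obtain ⟨a, ha, s, hs, has⟩ := h
    have has : a * s = g⁻¹ * g' := has
    have h1 := ih g (g * a) (by rw [inv_mul_cancel_left]; exact ha)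
    have h2 : (f R τ hτ (g * a))⁻¹ * f R τ hτ g' ∈ wball (T R S m) 1 := by
      have h3 : (f R τ hτ (g * a))⁻¹ * f R τ hτ g' ∈ T R S m := by
        show (((f R τ hτ (g * a))⁻¹ * f R τ hτ g' : R) : Q) ∈ wball (S : Set Q) (2 * m + 1)
        have h4 : (((f R τ hτ (g * a))⁻¹ * f R τ hτ g' : R) : Q) =
            τ (g * a) * s * (τ g')⁻¹ := by
          have hg' : g' = g * a * s := by rw [mul_assoc, has]; group
          simp only [f, Subgroup.coe_mul, Subgroup.coe_inv, hg']
          group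
        rw [h4]
        have h5 : s ∈ wball (S : Set Q) 1 := by
          unfold wball
          rw [pow_one]
          exact hs
        have h6 := mul_mem (mul_mem (hm (g * a)) h5) (inv_mem (hm g'))
        have h7 : m + 1 + m = 2 * m + 1 := by ring
        rwa [h7] at h6
      unfold wball
      rw [T_sym, pow_one]
      exact h3
    have h3 := mul_mem h1 h2
    simpa [mul_assoc] using h3

theorem down (n : ℕ) : ∀ r : R, r ∈ wball (T R S m) n →
    (r : Q) ∈ wball (S : Set Q) ((2 * m + 1) * n) := by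
  unfold wball
  rw [T_sym]
  induction n with
  | zero =>
    intro r h
    have : r = 1 := by simpa using h
    subst this
    simp
  | succ n ih =>
    intro r h
    rw [pow_succ] at h
    obtain ⟨a, ha, s, hs, has⟩ := h
    have has : a * s = r := has
    subst has
    have h1 := ih a ha
    have h2 : (s : Q) ∈ wball (S : Set Q) (2 * m + 1) := hs
    have h3 := mul_mem (S := (S : Set Q)) h1 h2
    have h7 : (2 * m + 1) * n + (2 * m + 1) = (2 * m + 1) * (n + 1) := by ring
    rw [h7] at h3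
    exact h3

include hτ hτ1 hm in
theorem ball_mem (n : ℕ) (g : Q) (hg : g ∈ wball (S : Set Q) n) :
    f R τ hτ g ∈ wball (T R S m) n := by
  have h := up R S τ m hτ hm n 1 g (by simpa using hg)
  have h1 : f R τ hτ 1 = 1 := by
    apply Subtype.ext
    simp [f, hτ1 1 (Subgroup.one_mem R)]
  rwa [h1, inv_one, one_mul] at h

include hτ hτ1 hm in
theorem T_gen (hS : Subgroup.closure (S : Set Q) = ⊤) : Subgroup.closure (T R S m) = ⊤ := by
  rw [eq_top_iff]
  intro r _
  obtain ⟨n, hn⟩ := gen hS (r : Q)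
  have h := ball_mem R S τ m hτ hτ1 hm n r hn
  have h1 : f R τ hτ (r : Q) = r := by
    apply Subtype.ext
    simp [f, hτ1 r r.2]
  rw [h1] at h
  exact sub_closure _ _ h

include hτ hτ1 hm in
theorem count (N : ℕ) (hN : (Set.range τ).Finite) (hNc : (Set.range τ).ncard = N) (n : ℕ) :
    (wball (S : Set Q) n).ncard ≤ (wball (T R S m) n).ncard * N := by
  classical
  have hmap : Set.MapsTo (fun g : Q => (f R τ hτ g, τ g)) (wball (S : Set Q) n)
      (wball (T R S m) n ×ˢ Set.range τ) := by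
    intro g hg
    exact ⟨ball_mem R S τ m hτ hτ1 hm n g hg, ⟨g, rfl⟩⟩
  have hinj : Set.InjOn (fun g : Q => (f R τ hτ g, τ g)) (wball (S : Set Q) n) := by
    intro g _ g' _ h
    simp only [Prod.mk.injEq, f, Subtype.mk.injEq] at h
    obtain ⟨h1, h2⟩ := h
    rw [h2] at h1
    exact mul_right_cancel h1
  have h1 := Set.ncard_le_ncard_of_injOn _ hmap hinj ((fin (T_fin R S m) n).prod hN)
  rwa [Set.ncard_prod, hNc] at h1

end

end F01

open F01 in
theorem final_of (Q : Type) [Group Q] (R : Subgroup Q) (h1 : R.FiniteIndex) (h2 : Group.FG Q)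
    (h3 : UEG Q) (h4 : ¬ UEG R) :
    ¬ (∀ (G H : Type) [Group G] [Group H],
      (∃ S : Finset G, Subgroup.closure (S : Set G) = ⊤ ∧
        ∃ c : ℝ, 1 < c ∧ ∀ n : ℕ,
          c ^ n ≤ (Set.ncard (((S : Set G) ∪ (S : Set G)⁻¹ ∪ {1}) ^ n) : ℝ)) →
      (∃ T : Finset H, Subgroup.closure (T : Set H) = ⊤ ∧
        ∃ c : ℝ, 1 < c ∧ ∀ n : ℕ,
          c ^ n ≤ (Set.ncard (((T : Set H) ∪ (T : Set H)⁻¹ ∪ {1}) ^ n) : ℝ)) →
      (∃ (S : Finset G) (T : Finset H),
        Subgroup.closure (S : Set G) = ⊤ ∧ Subgroup.closure (T : Set H) = ⊤ ∧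
        ∃ (f : G → H) (K C : ℕ),
          (∀ g g' : G, ∀ n : ℕ,
            g⁻¹ * g' ∈ ((S : Set G) ∪ (S : Set G)⁻¹ ∪ {1}) ^ n →
            (f g)⁻¹ * f g' ∈ ((T : Set H) ∪ (T : Set H)⁻¹ ∪ {1}) ^ (K * n + C)) ∧
          (∀ g g' : G, ∀ n : ℕ,
            (f g)⁻¹ * f g' ∈ ((T : Set H) ∪ (T : Set H)⁻¹ ∪ {1}) ^ n →
            g⁻¹ * g' ∈ ((S : Set G) ∪ (S : Set G)⁻¹ ∪ {1}) ^ (K * n + C)) ∧
          (∀ h : H, ∃ g : G,
            (f g)⁻¹ * h ∈ ((T : Set H) ∪ (T : Set H)⁻¹ ∪ {1}) ^ C)) →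
      (∃ c : ℝ, 1 < c ∧ ∀ S : Finset G, Subgroup.closure (S : Set G) = ⊤ →
        ∀ n : ℕ, c ^ n ≤ (Set.ncard (((S : Set G) ∪ (S : Set G)⁻¹ ∪ {1}) ^ n) : ℝ)) →
      (∃ c : ℝ, 1 < c ∧ ∀ T : Finset H, Subgroup.closure (T : Set H) = ⊤ →
        ∀ n : ℕ, c ^ n ≤ (Set.ncard (((T : Set H) ∪ (T : Set H)⁻¹ ∪ {1}) ^ n) : ℝ))) := by
  classical
  intro hall
  apply h4
  obtain ⟨S, hS⟩ := h2
  obtain ⟨τ, hfin, hτ, hτ1⟩ := exists_tau R
  -- radius of the transversal
  obtain ⟨m, hm⟩ : ∃ m, ∀ g, τ g ∈ wball (S : Set Q) m := by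
    choose r hr using fun g : Q => gen hS g
    refine ⟨hfin.toFinset.sup r, fun g => ?_⟩
    have h5 : τ g ∈ hfin.toFinset := hfin.mem_toFinset.2 ⟨g, rfl⟩
    exact mono _ (Finset.le_sup (f := r) h5) (hr (τ g))
  have hTfin := T_fin R S m
  have hTgen := T_gen R S τ m hτ hτ1 hm hS
  obtain ⟨c, hc, hcS⟩ := h3
  have hSg : ∃ S : Finset Q, Subgroup.closure (S : Set Q) = ⊤ ∧
        ∃ c : ℝ, 1 < c ∧ ∀ n : ℕ,
          c ^ n ≤ (Set.ncard (((S : Set Q) ∪ (S : Set Q)⁻¹ ∪ {1}) ^ n) : ℝ) :=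
    ⟨S, hS, c, hc, fun n => hcS S hS n⟩
  have hTg : ∃ T : Finset R, Subgroup.closure (T : Set R) = ⊤ ∧
        ∃ c : ℝ, 1 < c ∧ ∀ n : ℕ,
          c ^ n ≤ (Set.ncard (((T : Set R) ∪ (T : Set R)⁻¹ ∪ {1}) ^ n) : ℝ) := by
    set N := (Set.range τ).ncard with hN
    have hN1 : 1 ≤ N := by
      rw [hN, Nat.one_le_iff_ne_zero, ne_eq, Set.ncard_eq_zero hfin]
      exact (Set.range_nonempty τ).ne_empty
    obtain ⟨k, hk⟩ := pow_unbounded_of_one_lt (N : ℝ) hc
    have hTk : (wball (T R S m) k).Finite := fin hTfin k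
    have hN0 : (0 : ℝ) < N := by exact_mod_cast hN1
    have hk1 : 1 ≤ k := by
      rcases Nat.eq_zero_or_pos k with h | h
      · subst h
        have h5 : (1 : ℝ) ≤ N := by exact_mod_cast hN1
        rw [pow_zero] at hk
        exact absurd hk (not_lt.2 h5)
      · exact h
    refine ⟨hTk.toFinset, ?_, c ^ k / N, (one_lt_div hN0).2 hk, fun n => ?_⟩
    · rw [eq_top_iff, ← hTgen, Subgroup.closure_le]
      intro x hx
      refine Subgroup.subset_closure ?_
      rw [Set.Finite.coe_toFinset]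
      refine mono _ hk1 ?_
      unfold wball
      rw [pow_one]
      exact Or.inl (Or.inl hx)
    · rw [Set.Finite.coe_toFinset]
      rcases Nat.eq_zero_or_pos n with h | h
      · subst h
        rw [pow_zero, pow_zero, ← Set.singleton_one, Set.ncard_singleton]
        norm_num
      · have h5 : wball (T R S m) (k * n) ⊆ (wball (T R S m) k ∪ (wball (T R S m) k)⁻¹ ∪ {1}) ^ n := by
          unfold wball
          rw [pow_mul]
          exact Set.pow_subset_pow_left (fun x hx => Or.inl (Or.inl hx))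
        have h6 : ((wball (T R S m) k ∪ (wball (T R S m) k)⁻¹ ∪ {1}) ^ n).Finite :=
          fin_pow ((hTk.union hTk.inv).union (Set.finite_singleton 1)) n
        have h7 := Set.ncard_le_ncard h5 h6
        have h8 := count R S τ m hτ hτ1 hm N hfin hN.symm (k * n)
        have h9 := hcS S hS (k * n)
        have h10 : (c ^ k) ^ n ≤
            ((wball (T R S m) k ∪ (wball (T R S m) k)⁻¹ ∪ {1}) ^ n).ncard * (N : ℝ) := by
          rw [← pow_mul]
          refine h9.trans ?_
          exact_mod_cast h8.trans (Nat.mul_le_mul_right N h7)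
        rw [div_pow]
        rw [div_le_iff₀ (by positivity)]
        refine h10.trans ?_
        refine mul_le_mul_of_nonneg_left ?_ (by positivity)
        exact le_self_pow₀ (by exact_mod_cast hN1) (by omega)
  refine hall Q R hSg hTg ⟨S, hTfin.toFinset, hS, ?_, f R τ hτ, 2 * m + 1, 2 * m, ?_, ?_, ?_⟩
    ⟨c, hc, fun S hS n => hcS S hS n⟩
  · rw [Set.Finite.coe_toFinset]
    exact hTgen
  · intro g g' n h
    rw [Set.Finite.coe_toFinset]
    exact mono _ (by nlinarith) (up R S τ m hτ hm n g g' h)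
  · intro g g' n h
    rw [Set.Finite.coe_toFinset] at h
    have h5 := down R S m n _ h
    have h6 := mul_mem (mul_mem (inv_mem (hm g)) h5) (hm g')
    have h7 : (τ g)⁻¹ * (((f R τ hτ g)⁻¹ * f R τ hτ g' : R) : Q) * τ g' = g⁻¹ * g' := by
      simp only [f, Subgroup.coe_mul, Subgroup.coe_inv]
      group
    have h8 : m + (2 * m + 1) * n + m = (2 * m + 1) * n + 2 * m := by ring
    rw [h7, h8] at h6
    exact h6
  · intro h
    refine ⟨(h : Q), ?_⟩
    have h5 : f R τ hτ (h : Q) = h := by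
      apply Subtype.ext
      simp [f, hτ1 h h.2]
    rw [h5, inv_mul_cancel]
    exact one_mem' _ _

end Pool.Agent.Lib.MP_c23930_al
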