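import Pool.Agent.Lib.MP_c23930_al.GDefs
import Pool.Agent.Lib.MP_c23930_al.D07

/-!
# G01: the infinite cyclic factor, all factors, Lipschitz property of the homomorphism to the integers
-/

set_option autoImplicit false

namespace Pool.Agent.Lib.MP_c23930_al

theorem fac_Z : Fac shZ BZ := by
  refine ⟨?_, ?_, ?_, ?_, ?_, ?_⟩
  · show |(1 : Multiplicative ℤ).toAdd| ≤ 3
    rw [toAdd_one, abs_zero]; norm_num
  · intro h hh
    show |(h⁻¹).toAdd| ≤ 3
    rw [toAdd_inv, abs_neg]; exact hh
  · intro a b h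
    rcases h with h | h
    · exact Or.inr ⟨h.1, h.2⟩
    · exact Or.inl ⟨h.1, h.2⟩
  · intro a b c h
    refine ⟨1, ?_, ?_⟩
    · show |(1 : Multiplicative ℤ).toAdd| ≤ 3
      rw [toAdd_one, abs_zero]; norm_num
    · rw [inv_one, one_mul, one_mul, one_mul]
      unfold BZ at *
      omega
  · intro a h hh hB
    have h1 : |h.toAdd| ≤ 3 := hh
    show |a.toAdd| ≤ 3
    unfold BZ at hB
    rw [toAdd_mul] at hB
    rw [abs_le] at h1 ⊢
    omega
  · intro a
    by_cases ha : 0 ≤ a.toAdd
    · refine ⟨a.toAdd.natAbs, fun i => Multiplicative.ofAdd (i : ℤ), ?_, ?_, ?_, ?_⟩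
      · simp
      · show Multiplicative.ofAdd ((a.toAdd.natAbs : ℕ) : ℤ) = a
        rw [Int.natAbs_of_nonneg ha]; exact ofAdd_toAdd a
      · intro i _
        show |((Multiplicative.ofAdd (i : ℤ))⁻¹ * Multiplicative.ofAdd ((i + 1 : ℕ) : ℤ)).toAdd| ≤ 3
        rw [toAdd_mul, toAdd_inv, toAdd_ofAdd, toAdd_ofAdd]
        push_cast
        rw [abs_le]; constructor <;> linarith
      · intro i hi
        have h1 : (i : ℤ) ≤ a.toAdd := by
          have h2 : ((a.toAdd.natAbs : ℕ) : ℤ) = a.toAdd := Int.natAbs_of_nonneg ha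
          have h3 : (i : ℤ) ≤ ((a.toAdd.natAbs : ℕ) : ℤ) := by exact_mod_cast hi
          linarith
        left
        rw [toAdd_mul, toAdd_inv, toAdd_ofAdd]
        constructor <;> linarith [Int.natCast_nonneg i]
    · have ha' : a.toAdd ≤ 0 := by linarith [not_le.1 ha]
      have hn : ((a.toAdd.natAbs : ℕ) : ℤ) = -a.toAdd := Int.ofNat_natAbs_of_nonpos ha'
      refine ⟨a.toAdd.natAbs, fun i => Multiplicative.ofAdd (-(i : ℤ)), ?_, ?_, ?_, ?_⟩
      · simp
      · show Multiplicative.ofAdd (-((a.toAdd.natAbs : ℕ) : ℤ)) = a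
        rw [hn, neg_neg]; exact ofAdd_toAdd a
      · intro i _
        show |((Multiplicative.ofAdd (-(i : ℤ)))⁻¹ *
          Multiplicative.ofAdd (-((i + 1 : ℕ) : ℤ))).toAdd| ≤ 3
        rw [toAdd_mul, toAdd_inv, toAdd_ofAdd, toAdd_ofAdd]
        push_cast
        rw [abs_le]; constructor <;> linarith
      · intro i hi
        have h1 : (i : ℤ) ≤ -a.toAdd := by
          have h3 : (i : ℤ) ≤ ((a.toAdd.natAbs : ℕ) : ℤ) := by exact_mod_cast hi
          linarith
        right
        rw [toAdd_mul, toAdd_inv, toAdd_ofAdd]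
        constructor <;> linarith [Int.natCast_nonneg i]

variable {P : ℕ → Type} [∀ N, Group (P N)] {sh : ∀ N, Set (P N)} {B : ∀ N, P N → P N → Prop}

theorem facG (hF : ∀ N, Fac (sh N) (B N)) : ∀ i, Fac (shG sh i) (BG B i)
  | none => fac_Z
  | some N => hF N

theorem phi_step (i : Option ℕ) (h : GG P i) (hh : h ∈ shG sh i) :
    |(phiG P (Monoid.CoprodI.of h)).toAdd| ≤ 3 := by
  cases i with
  | none =>
    have h1 : phiG P (Monoid.CoprodI.of (M := GG P) (i := none) h) = h := phiG_z P h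
    rw [h1]; exact hh
  | some N =>
    have h1 : phiG P (Monoid.CoprodI.of (M := GG P) (i := some N) h) = 1 := phiG_P P N h
    rw [h1, toAdd_one, abs_zero]; norm_num

theorem phi_lip (hF : ∀ N, Fac (sh N) (B N)) (g : PiG P) :
    |(phiG P g).toAdd| ≤ 3 * ((cay (shG sh)).dist 1 g : ℤ) := by
  obtain ⟨w, hw⟩ := (cay_conn (facG hF)).exists_walk_length_eq_dist 1 g
  rw [← hw]
  have key : ∀ (u v : PiG P) (w : (cay (shG sh)).Walk u v),
      |(phiG P v).toAdd - (phiG P u).toAdd| ≤ 3 * (w.length : ℤ) := by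
    intro u v w
    induction w with
    | nil => simp
    | @cons u v w huv q ih =>
      have h1 : |(phiG P v).toAdd - (phiG P u).toAdd| ≤ 3 := by
        rw [cay, SimpleGraph.fromRel_adj] at huv
        rcases huv.2 with ⟨i, h, hh, e⟩ | ⟨i, h, hh, e⟩
        · rw [e, map_mul, toAdd_mul, add_sub_cancel_left]
          exact phi_step i h hh
        · rw [e, map_mul, toAdd_mul]
          have := phi_step (P := P) (sh := sh) i h hh
          rw [abs_le] at this ⊢
          constructor <;> linarith [this.1, this.2]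
      rw [SimpleGraph.Walk.length_cons]
      push_cast
      rw [abs_le] at h1 ih ⊢
      constructor <;> linarith [h1.1, h1.2, ih.1, ih.2]
  have := key 1 g w
  rwa [map_one, toAdd_one, sub_zero] at this

end Pool.Agent.Lib.MP_c23930_al
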