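import Pool.Agent.Lib.MP_c23930_al.G01

/-!
# G02: the relators
-/

set_option autoImplicit false

namespace Pool.Agent.Lib.MP_c23930_al

namespace G02

variable (P : ℕ → Type) [∀ N, Group (P N)] (T : ∀ N, Finset (P N))

/-- index set of the relators -/
abbrev Sg : Type :=
  Unit ⊕ ({p // p ∈ T 0} ⊕ ((ℕ × {p // p ∈ T 0}) ⊕ (Σ N : ℕ, {p // p ∈ T (N + 1)})))

/-- factor of the long syllable -/
def MM : Sg P T → Option ℕ
  | Sum.inl _ => some 0
  | Sum.inr (Sum.inl _) => some 0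
  | Sum.inr (Sum.inr (Sum.inl q)) => some (q.1 + 1)
  | Sum.inr (Sum.inr (Sum.inr _)) => some 0

/-- syllable of the infinite cyclic factor -/
def zel (k : ℤ) : Σ i, GG P i := ⟨none, (Multiplicative.ofAdd k : Multiplicative ℤ)⟩

/-- syllable of the factor `P N` -/
def pel (N : ℕ) (p : P N) : Σ i, GG P i := ⟨some N, p⟩

/-- short syllables of the relators -/
def xs : Sg P T → List (Σ i, GG P i)
  | Sum.inl _ => [zel P (-3)]
  | Sum.inr (Sum.inl p) => [zel P 1, pel P 0 (p.1)⁻¹, zel P (-1)]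
  | Sum.inr (Sum.inr (Sum.inl q)) => [pel P 0 (q.2.1)⁻¹]
  | Sum.inr (Sum.inr (Sum.inr q)) => [pel P (q.1 + 1) (q.2.1)⁻¹]

/-- the long elements, also for the infinite cyclic factor -/
def VE (Vc : ∀ N, ℕ → P N) : ∀ i, ℕ → GG P i
  | none => fun _ => (1 : Multiplicative ℤ)
  | some N => Vc N

/-- the segments, also for the infinite cyclic factor -/
def SE (Sc : ∀ N, ℕ → Set (P N)) : ∀ i, ℕ → Set (GG P i)
  | none => fun _ => (Set.univ : Set (Multiplicative ℤ))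
  | some N => Sc N

/-- the coordinates, also for the infinite cyclic factor -/
def CE (Cc : ∀ N, ℕ → P N → ℤ) : ∀ i, ℕ → GG P i → ℤ
  | none => fun _ _ => 0
  | some N => Cc N

omit [∀ N, Group (P N)] in
theorem MM_some (ρ : Sg P T) : ∃ N, MM P T ρ = some N := by
  rcases ρ with _ | _ | _ | _
  · exact ⟨0, rfl⟩
  · exact ⟨0, rfl⟩
  · exact ⟨_, rfl⟩
  · exact ⟨0, rfl⟩

theorem of_zel (k : ℤ) : Monoid.CoprodI.of (zel P k).2 = zz P ^ k := by
  show zG P (Multiplicative.ofAdd k) = zz P ^ k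
  unfold zz
  rw [← map_zpow, ← ofAdd_zsmul]
  simp

theorem of_pel (N : ℕ) (p : P N) : Monoid.CoprodI.of (pel P N p).2 = fP P N p := rfl

theorem zel_short (sh : ∀ N, Set (P N)) (k : ℤ) (h : |k| ≤ 3) (h0 : k ≠ 0) :
    (zel P k).2 ∈ shG sh (zel P k).1 ∧ (zel P k).2 ≠ 1 := by
  refine ⟨h, ?_⟩
  intro h1
  have h2 : (Multiplicative.ofAdd k : Multiplicative ℤ) = 1 := h1
  have h3 := congrArg Multiplicative.toAdd h2
  rw [toAdd_ofAdd, toAdd_one] at h3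
  exact h0 h3

theorem pel_short (sh : ∀ N, Set (P N)) (B : ∀ N, P N → P N → Prop)
    (hF : ∀ N, Fac (sh N) (B N)) (N : ℕ) (p : P N) (h : p ∈ sh N) (h0 : p ≠ 1) :
    (pel P N p⁻¹).2 ∈ shG sh (pel P N p⁻¹).1 ∧ (pel P N p⁻¹).2 ≠ 1 := by
  refine ⟨(hF N).inv p h, ?_⟩
  intro h1
  have h2 : p⁻¹ = 1 := h1
  exact h0 (inv_eq_one.1 h2)

end G02

open G02

theorem exists_rel (P : ℕ → Type) [∀ N, Group (P N)] (sh : ∀ N, Set (P N))
    (B : ∀ N, P N → P N → Prop) (n : ℕ) (hF : ∀ N, Fac (sh N) (B N))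
    (hC : ∀ N, ∃ V Seg c, Chains (sh N) (B N) V Seg c n) (T : ∀ N, Finset (P N))
    (hT : ∀ N, ∀ t ∈ T N, t ∈ sh N ∧ t ≠ 1) :
    ∃ D : RelData (GG P) (shG sh) (BG B) n, (∀ ρ, ∃ N, D.M ρ = some N) ∧
      (∀ ρ, (3 : ℤ) ∣ (phiG P (D.r ρ)).toAdd) ∧
      (∃ v, fP P 0 v * (zz P ^ 3)⁻¹ ∈ D.N) ∧
      (∀ p ∈ T 0, ∃ v, fP P 0 v * (zz P * fP P 0 p * (zz P)⁻¹)⁻¹ ∈ D.N) ∧
      (∀ N, ∀ p ∈ T 0, ∃ v, fP P (N + 1) v * (fP P 0 p)⁻¹ ∈ D.N) ∧
      ∀ N, ∀ p ∈ T (N + 1), ∃ v, fP P 0 v * (fP P (N + 1) p)⁻¹ ∈ D.N := by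
  choose Vc Sc Cc hCc using hC
  obtain ⟨k, hk⟩ := exists_injective_nat (Sg P T)
  have hlen : ∀ ρ, (xs P T ρ).length ≤ 3 := by
    intro ρ
    rcases ρ with _ | _ | _ | _ <;> simp [xs]
  have hne : ∀ ρ, xs P T ρ ≠ [] := by
    intro ρ
    rcases ρ with _ | _ | _ | _ <;> simp [xs]
  have hshort : ∀ ρ, ∀ p ∈ xs P T ρ, p.2 ∈ shG sh p.1 ∧ p.2 ≠ 1 := by
    intro ρ p hp
    rcases ρ with _ | q | q | q
    · simp only [xs, List.mem_singleton] at hp
      subst hp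
      exact zel_short P sh (-3) (by norm_num) (by norm_num)
    · simp only [xs, List.mem_cons, List.not_mem_nil, or_false] at hp
      rcases hp with rfl | rfl | rfl
      · exact zel_short P sh 1 (by norm_num) (by norm_num)
      · exact pel_short P sh B hF 0 q.1 (hT 0 _ q.2).1 (hT 0 _ q.2).2
      · exact zel_short P sh (-1) (by norm_num) (by norm_num)
    · simp only [xs, List.mem_singleton] at hp
      subst hp
      exact pel_short P sh B hF 0 q.2.1 (hT 0 _ q.2.2).1 (hT 0 _ q.2.2).2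
    · simp only [xs, List.mem_singleton] at hp
      subst hp
      exact pel_short P sh B hF (q.1 + 1) q.2.1 (hT _ _ q.2.2).1 (hT _ _ q.2.2).2
  have hchain : ∀ ρ, List.IsChain (fun p q : (Σ i, GG P i) => p.1 ≠ q.1)
      ((⟨MM P T ρ, VE P Vc (MM P T ρ) (k ρ)⟩ : Σ i, GG P i) :: xs P T ρ ++
        [(⟨MM P T ρ, VE P Vc (MM P T ρ) (k ρ)⟩ : Σ i, GG P i)]) := by
    intro ρ
    rcases ρ with _ | q | q | q <;> simp [xs, MM, zel, pel]
  let D : RelData (GG P) (shG sh) (BG B) n :=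
    { Sg := Sg P T
      M := MM P T
      k := k
      V := VE P Vc
      Seg := SE P Sc
      cc := CE P Cc
      xs := xs P T
      inj := fun ρ σ _ h => hk h
      chains := by
        intro ρ
        obtain ⟨N, hN⟩ := MM_some P T ρ
        rw [hN]
        exact hCc N
      xs_ne := hne
      xs_len := hlen
      xs_short := hshort
      xs_chain := hchain }
  have hr : ∀ ρ, D.r ρ ∈ D.N := fun ρ => Subgroup.subset_normalClosure ⟨ρ, rfl⟩
  have e0 : D.r (Sum.inl ()) = fP P 0 (Vc 0 (k (Sum.inl ()))) * zz P ^ (-3 : ℤ) := by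
    show sprod _ = _
    unfold sprod
    show (List.map _ [_, zel P (-3)]).prod = _
    simp only [List.map_cons, List.map_nil, List.prod_cons, List.prod_nil, mul_one]
    rw [of_zel]; rfl
  have e1 : ∀ q : {p // p ∈ T 0}, D.r (Sum.inr (Sum.inl q)) =
      fP P 0 (Vc 0 (k (Sum.inr (Sum.inl q)))) * (zz P ^ (1 : ℤ) *
        (fP P 0 (q.1)⁻¹ * zz P ^ (-1 : ℤ))) := by
    intro q
    show sprod _ = _
    unfold sprod
    show (List.map _ [_, zel P 1, pel P 0 (q.1)⁻¹, zel P (-1)]).prod = _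
    simp only [List.map_cons, List.map_nil, List.prod_cons, List.prod_nil, mul_one]
    rw [of_zel, of_zel, of_pel]; rfl
  have e2 : ∀ (N : ℕ) (q : {p // p ∈ T 0}), D.r (Sum.inr (Sum.inr (Sum.inl (N, q)))) =
      fP P (N + 1) (Vc (N + 1) (k (Sum.inr (Sum.inr (Sum.inl (N, q)))))) *
        fP P 0 (q.1)⁻¹ := by
    intro N q
    show sprod _ = _
    unfold sprod
    show (List.map _ [_, pel P 0 (q.1)⁻¹]).prod = _
    simp only [List.map_cons, List.map_nil, List.prod_cons, List.prod_nil, mul_one]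
    rw [of_pel]; rfl
  have e3 : ∀ (N : ℕ) (q : {p // p ∈ T (N + 1)}),
      D.r (Sum.inr (Sum.inr (Sum.inr ⟨N, q⟩))) =
      fP P 0 (Vc 0 (k (Sum.inr (Sum.inr (Sum.inr ⟨N, q⟩))))) * fP P (N + 1) (q.1)⁻¹ := by
    intro N q
    show sprod _ = _
    unfold sprod
    show (List.map _ [_, pel P (N + 1) (q.1)⁻¹]).prod = _
    simp only [List.map_cons, List.map_nil, List.prod_cons, List.prod_nil, mul_one]
    rw [of_pel]; rfl
  have hzphi : ∀ j : ℤ, (phiG P (zz P ^ j)).toAdd = j := by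
    intro j
    rw [map_zpow, toAdd_zpow]
    unfold zz
    rw [phiG_z, toAdd_ofAdd]; simp
  refine ⟨D, MM_some P T, ?_, ?_, ?_, ?_, ?_⟩
  · intro ρ
    rcases ρ with _ | q | q | q
    · rw [e0, MonoidHom.map_mul, phiG_P, toAdd_mul, toAdd_one, hzphi]; norm_num
    · rw [e1, MonoidHom.map_mul, MonoidHom.map_mul, MonoidHom.map_mul, phiG_P, phiG_P, toAdd_mul,
        toAdd_mul, toAdd_mul, toAdd_one, hzphi, hzphi]
      norm_num
    · obtain ⟨N, q⟩ := q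
      rw [e2, MonoidHom.map_mul, phiG_P, phiG_P, toAdd_mul, toAdd_one]; norm_num
    · obtain ⟨N, q⟩ := q
      rw [e3, MonoidHom.map_mul, phiG_P, phiG_P, toAdd_mul, toAdd_one]; norm_num
  · refine ⟨Vc 0 (k (Sum.inl ())), ?_⟩
    have h := hr (Sum.inl ())
    rw [e0] at h
    have e : (zz P ^ 3)⁻¹ = zz P ^ (-3 : ℤ) := by
      rw [zpow_neg]; rfl
    rw [e]; exact h
  · intro p hp
    refine ⟨Vc 0 (k (Sum.inr (Sum.inl ⟨p, hp⟩))), ?_⟩
    have h := hr (Sum.inr (Sum.inl ⟨p, hp⟩))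
    rw [e1] at h
    have e : (zz P * fP P 0 p * (zz P)⁻¹)⁻¹ =
        zz P ^ (1 : ℤ) * (fP P 0 p⁻¹ * zz P ^ (-1 : ℤ)) := by
      rw [zpow_one, zpow_neg_one, map_inv]
      group
    rw [e]; exact h
  · intro N p hp
    refine ⟨Vc (N + 1) (k (Sum.inr (Sum.inr (Sum.inl (N, ⟨p, hp⟩))))), ?_⟩
    have h := hr (Sum.inr (Sum.inr (Sum.inl (N, ⟨p, hp⟩))))
    rw [e2, map_inv] at h
    exact h
  · intro N p hp
    refine ⟨Vc 0 (k (Sum.inr (Sum.inr (Sum.inr ⟨N, ⟨p, hp⟩⟩)))), ?_⟩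
    have h := hr (Sum.inr (Sum.inr (Sum.inr ⟨N, ⟨p, hp⟩⟩)))
    rw [e3, map_inv] at h
    exact h

end Pool.Agent.Lib.MP_c23930_al
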