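import Pool.Agent.Lib.MP_c23930_al.UDefs

/-!
# G03: algebra of the quotient
-/

set_option autoImplicit false

namespace Pool.Agent.Lib.MP_c23930_al

open scoped Pointwise

namespace G03

theorem range_le_of {P K : Type} [Group P] [Group K] (g : P →* K) (T : Set P)
    (hT : Subgroup.closure T = ⊤) (R : Subgroup K) (h : ∀ p ∈ T, g p ∈ R) : g.range ≤ R := by
  rw [MonoidHom.range_eq_map, ← hT, MonoidHom.map_closure, Subgroup.closure_le]
  rintro _ ⟨p, hp, rfl⟩
  exact h p hp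

end G03

open G03

theorem quot_alg {H : Type} [Group H] (N : Subgroup H) [N.Normal] (P : ℕ → Type)
    [∀ i, Group (P i)] (f : ∀ i, P i →* H) (z : H) (T : ∀ i, Finset (P i))
    (hT : ∀ i, Subgroup.closure (T i : Set (P i)) = ⊤)
    (hgen : Subgroup.closure ({z} ∪ ⋃ i, Set.range (f i)) = ⊤)
    (r0 : ∃ v, f 0 v * (z ^ 3)⁻¹ ∈ N)
    (r1 : ∀ p ∈ T 0, ∃ v, f 0 v * (z * f 0 p * z⁻¹)⁻¹ ∈ N)
    (r2 : ∀ i, ∀ p ∈ T 0, ∃ v, f (i + 1) v * (f 0 p)⁻¹ ∈ N)
    (r3 : ∀ i, ∀ p ∈ T (i + 1), ∃ v, f 0 v * (f (i + 1) p)⁻¹ ∈ N) :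
    ∃ R : Subgroup (H ⧸ N), R.FiniteIndex ∧ Group.FG (H ⧸ N) ∧
      ∀ i, ∃ h : P i →* R, Function.Surjective h := by
  classical
  set π : H →* H ⧸ N := QuotientGroup.mk' N with hπ
  have hπeq : ∀ a b : H, a * b⁻¹ ∈ N → π a = π b := by
    intro a b hab
    have h1 : π (a * b⁻¹) = 1 := by
      rw [hπ, QuotientGroup.mk'_apply, QuotientGroup.eq_one_iff]; exact hab
    rw [map_mul, map_inv, mul_inv_eq_one] at h1
    exact h1
  let A : ∀ i, Subgroup (H ⧸ N) := fun i => (π.comp (f i)).range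
  have hA1 : ∀ i, A (i + 1) ≤ A 0 := by
    intro i
    refine range_le_of _ _ (hT (i + 1)) _ ?_
    intro p hp
    obtain ⟨v, hv⟩ := r3 i p hp
    exact ⟨v, hπeq _ _ hv⟩
  have hA2 : ∀ i, A 0 ≤ A (i + 1) := by
    intro i
    refine range_le_of _ _ (hT 0) _ ?_
    intro p hp
    obtain ⟨v, hv⟩ := r2 i p hp
    exact ⟨v, hπeq _ _ hv⟩
  have hA : ∀ i, A i = A 0 := by
    intro i
    cases i with
    | zero => rfl
    | succ i => exact le_antisymm (hA1 i) (hA2 i)
  set R := A 0 with hR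
  set zb := π z with hzb
  have hz3 : zb ^ 3 ∈ R := by
    obtain ⟨v, hv⟩ := r0
    refine ⟨v, ?_⟩
    have := hπeq _ _ hv
    rw [map_pow] at this
    exact this
  have hconj : ∀ x ∈ R, zb * x * zb⁻¹ ∈ R := by
    have h1 : (((MulAut.conj zb).toMonoidHom).comp (π.comp (f 0))).range ≤ R := by
      refine range_le_of _ _ (hT 0) _ ?_
      intro p hp
      obtain ⟨v, hv⟩ := r1 p hp
      refine ⟨v, ?_⟩
      have := hπeq _ _ hv
      rw [map_mul, map_mul, map_inv] at this
      exact this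
    rintro x ⟨p, rfl⟩
    exact h1 ⟨p, rfl⟩
  have hconj' : ∀ x ∈ R, zb⁻¹ * x * zb ∈ R := by
    intro x hx
    have h1 : (zb ^ 3)⁻¹ * x * zb ^ 3 ∈ R := R.mul_mem (R.mul_mem (R.inv_mem hz3) hx) hz3
    have h2 := hconj _ (hconj _ h1)
    have h3 : zb * (zb * ((zb ^ 3)⁻¹ * x * zb ^ 3) * zb⁻¹) * zb⁻¹ = zb⁻¹ * x * zb := by
      simp only [pow_succ, pow_zero, one_mul]
      group
    rwa [h3] at h2
  have hnorm : zb ∈ Subgroup.normalizer (R : Set (H ⧸ N)) := by
    rw [Subgroup.mem_normalizer_iff]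
    intro x
    refine ⟨fun hx => hconj x hx, fun hx => ?_⟩
    have := hconj' _ hx
    have e : zb⁻¹ * (zb * x * zb⁻¹) * zb = x := by group
    rwa [e] at this
  -- generation
  have hrangeR : ∀ i p, π (f i p) ∈ R := by
    intro i p
    rw [← hA i]
    exact ⟨p, rfl⟩
  have hgen' : ∀ W : Subgroup (H ⧸ N), zb ∈ W → R ≤ W → W = ⊤ := by
    intro W h1 h2
    rw [eq_top_iff]
    have h3 : (⊤ : Subgroup H) ≤ W.comap π := by
      rw [← hgen, Subgroup.closure_le]
      rintro x (hx | hx)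
      · rw [Set.mem_singleton_iff] at hx
        rw [hx]; exact h1
      · rw [Set.mem_iUnion] at hx
        obtain ⟨i, p, rfl⟩ := hx
        exact h2 (hrangeR i p)
    intro x _
    obtain ⟨y, rfl⟩ := QuotientGroup.mk'_surjective N x
    exact h3 (Subgroup.mem_top y)
  have hntop : Subgroup.normalizer (R : Set (H ⧸ N)) = ⊤ :=
    hgen' _ hnorm Subgroup.le_normalizer
  have hRn : R.Normal := Subgroup.normalizer_eq_top_iff.1 hntop
  have hsup : Subgroup.zpowers zb ⊔ R = ⊤ :=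
    hgen' _ (le_sup_left (a := Subgroup.zpowers zb) (b := R) (Subgroup.mem_zpowers zb))
      le_sup_right
  refine ⟨R, ?_, ?_, ?_⟩
  · -- finite index
    have hsurj : Function.Surjective (fun j : Fin 3 => (QuotientGroup.mk (zb ^ (j : ℕ)) :
        (H ⧸ N) ⧸ R)) := by
      intro q
      obtain ⟨x, rfl⟩ := QuotientGroup.mk_surjective q
      have hx : x ∈ Subgroup.zpowers zb ⊔ R := by rw [hsup]; exact Subgroup.mem_top x
      rw [← SetLike.mem_coe, Subgroup.mul_normal, Set.mem_mul] at hx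
      obtain ⟨y, hy, r, hr, rfl⟩ := hx
      obtain ⟨k, rfl⟩ := hy
      have hk1 : 0 ≤ k % 3 := Int.emod_nonneg k (by norm_num)
      have hk2 : k % 3 < 3 := Int.emod_lt_of_pos k (by norm_num)
      refine ⟨⟨(k % 3).toNat, by omega⟩, ?_⟩
      show (QuotientGroup.mk (zb ^ (k % 3).toNat) : (H ⧸ N) ⧸ R) = QuotientGroup.mk (zb ^ k * r)
      rw [QuotientGroup.eq]
      have h1 : zb ^ (k % 3).toNat = zb ^ (k % 3) := by
        rw [← zpow_natCast, Int.toNat_of_nonneg hk1]
      have h2 : zb ^ k = zb ^ (k % 3) * (zb ^ (3:ℕ)) ^ (k / 3) := by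
        rw [← zpow_natCast zb 3, ← zpow_mul, ← zpow_add]
        congr 1
        have := Int.emod_add_mul_ediv k 3
        push_cast
        omega
      rw [h1, h2]
      have e : (zb ^ (k % 3))⁻¹ * (zb ^ (k % 3) * (zb ^ (3:ℕ)) ^ (k / 3) * r) =
          (zb ^ (3:ℕ)) ^ (k / 3) * r := by group
      rw [e]
      exact R.mul_mem (R.zpow_mem hz3 _) hr
    have : Finite ((H ⧸ N) ⧸ R) := Finite.of_surjective _ hsurj
    exact Subgroup.finiteIndex_of_finite_quotient
  · -- finitely generated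
    rw [Group.fg_iff]
    refine ⟨{zb} ∪ (fun p => π (f 0 p)) '' (T 0 : Set (P 0)), ?_, ?_⟩
    · refine hgen' _ (Subgroup.subset_closure (Or.inl rfl)) ?_
      refine range_le_of (π.comp (f 0)) _ (hT 0) _ ?_
      intro p hp
      exact Subgroup.subset_closure (Or.inr ⟨p, hp, rfl⟩)
    · exact (Set.finite_singleton _).union ((T 0).finite_toSet.image _)
  · intro i
    refine ⟨(π.comp (f i)).codRestrict R (fun p => hrangeR i p), ?_⟩
    rintro ⟨x, hx⟩
    have hx' : x ∈ A i := by rw [hA i]; exact hx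
    obtain ⟨p, hp⟩ := hx'
    exact ⟨p, Subtype.ext hp⟩

theorem not_ueg_of {R : Type} [Group R] (P : ℕ → Type) [∀ i, Group (P i)]
    (T : ∀ i, Finset (P i)) (hT : ∀ i, Subgroup.closure (T i : Set (P i)) = ⊤)
    (hs : ∀ i, ∃ h : P i →* R, Function.Surjective h)
    (hslow : ∀ c : ℝ, 1 < c → ∃ i, ∃ k : ℕ,
      (Set.ncard (wball (T i : Set (P i)) k) : ℝ) < c ^ k) : ¬ UEG R := by
  classical
  rintro ⟨c, hc, hu⟩
  obtain ⟨i, k, hik⟩ := hslow c hc
  obtain ⟨h, hh⟩ := hs i
  have hcl : Subgroup.closure (((T i).image h : Finset R) : Set R) = ⊤ := by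
    rw [Finset.coe_image, ← MonoidHom.map_closure, hT i]
    exact Subgroup.map_top_of_surjective h hh
  have h1 := hu ((T i).image h) hcl k
  have h2 : wball (((T i).image h : Finset R) : Set R) k = h '' wball (T i : Set (P i)) k := by
    unfold wball
    rw [Set.image_pow]
    congr 1
    rw [Set.image_union, Set.image_union, Finset.coe_image, Set.image_singleton, map_one]
    congr 2
    ext x
    simp only [Set.mem_inv, Set.mem_image]
    constructor
    · rintro ⟨y, hy, hyx⟩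
      refine ⟨y⁻¹, by rwa [inv_inv], ?_⟩
      rw [map_inv, hyx, inv_inv]
    · rintro ⟨y, hy, rfl⟩
      exact ⟨y⁻¹, hy, by rw [map_inv]⟩
  have hfin : (wball (T i : Set (P i)) k).Finite := by
    have hb : ((T i : Set (P i)) ∪ (T i : Set (P i))⁻¹ ∪ {1}).Finite :=
      (((T i).finite_toSet).union ((T i).finite_toSet.inv)).union (Set.finite_singleton _)
    unfold wball
    clear hik h1 h2
    induction k with
    | zero => rw [pow_zero]; exact Set.finite_one
    | succ k ih => rw [pow_succ]; exact ih.mul hb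
  have h3 : Set.ncard (wball (((T i).image h : Finset R) : Set R) k) ≤
      Set.ncard (wball (T i : Set (P i)) k) := by
    rw [h2]; exact Set.ncard_image_le hfin
  have h4 : (Set.ncard (wball (((T i).image h : Finset R) : Set R) k) : ℝ) ≤
      (Set.ncard (wball (T i : Set (P i)) k) : ℝ) := by exact_mod_cast h3
  linarith

end Pool.Agent.Lib.MP_c23930_al
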