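import Pool.Agent.Lib.MP_c23930_al.G01
import Pool.Agent.Lib.MP_c23930_al.A02
import Pool.Agent.Lib.MP_c23930_al.D08
import Pool.Agent.Lib.MP_c23930_al.D10

/-!
# G04: large tripods
-/

set_option autoImplicit false

namespace Pool.Agent.Lib.MP_c23930_al

theorem cd_lower {V S : Type} {Γ : SimpleGraph V} {Y : S → Set V} (hc : Γ.Connected)
    (hY : ∀ s, (Y s).Nonempty) (F : V → ℤ) (h1 : ∀ u v, Γ.Adj u v → |F u - F v| ≤ 3)
    (h2 : ∀ s, ∀ u ∈ Y s, ∀ v ∈ Y s, |F u - F v| ≤ 6) (u v : V) :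
    |F u - F v| ≤ 3 * (cd Γ Y (Sum.inl u) (Sum.inl v) : ℤ) := by
  have key : ∀ (x y : V ⊕ S) (p : (cone Γ Y).Walk x y), y = Sum.inl v →
      (∀ u, x = Sum.inl u → |F u - F v| ≤ 3 * (p.length : ℤ)) ∧
      (∀ s, x = Sum.inr s → ∀ u ∈ Y s, |F u - F v| ≤ 3 * (p.length : ℤ) + 3) := by
    intro x y p
    induction p with
    | nil =>
      intro hy
      refine ⟨?_, ?_⟩
      · intro u hu
        rw [hy] at hu
        rw [← Sum.inl.inj hu]
        simp
      · intro s hs
        rw [hy] at hs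
        cases hs
    | @cons x x' y hadj p ih =>
      intro hy
      obtain ⟨ih1, ih2⟩ := ih hy
      rw [SimpleGraph.Walk.length_cons]
      refine ⟨?_, ?_⟩
      · rintro u rfl
        rcases x' with w | s
        · have e1 := h1 u w ((A02.adj_ll u w).1 hadj)
          have e2 := ih1 w rfl
          have e3 := abs_sub_le (F u) (F w) (F v)
          push_cast
          linarith
        · have e2 := ih2 s rfl u ((A02.adj_lr u s).1 hadj)
          push_cast
          linarith
      · rintro s rfl u hu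
        rcases x' with w | t
        · have e1 := h2 s u hu w ((A02.adj_lr w s).1 hadj.symm)
          have e2 := ih1 w rfl
          have e3 := abs_sub_le (F u) (F w) (F v)
          push_cast
          linarith
        · exact absurd hadj (A02.adj_rr s t)
  obtain ⟨p, hp⟩ := (A02.connected hc hY).exists_walk_length_eq_dist (Sum.inl u) (Sum.inl v)
  have := (key _ _ p rfl).1 u rfl
  rw [hp] at this
  exact this

namespace G04

open Monoid.CoprodI (of)

theorem gate_other {ι : Type} {G : ι → Type} [∀ i, Group (G i)] {i j : ι} (hij : i ≠ j)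
    (m : G j) : gate i (of m : Monoid.CoprodI G) = 1 := by
  by_cases hm : m = 1
  · rw [hm, map_one, gate_one]
  · have := gate_ne hij m hm 1 (gate_one j)
    rwa [mul_one] at this

variable {P : ℕ → Type} [∀ N, Group (P N)]

/-- the exponent of the gate in the infinite cyclic factor -/
noncomputable def ex (g v : PiG P) : ℤ := (phiF P none (gate none (g⁻¹ * v))).toAdd

theorem phiF_small {sh : ∀ N, Set (P N)} (h : GG P none) (hh : h ∈ shG sh none) :
    |(phiF P none h).toAdd| ≤ 3 := hh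

/-- change of the exponent by a short element -/
theorem ex_diff {sh : ∀ N, Set (P N)} (x y b : GG P none) (hb : b ∈ shG sh none) (h : y = x * b) :
    |(phiF P none x).toAdd - (phiF P none y).toAdd| ≤ 3 := by
  rw [h, map_mul, toAdd_mul, sub_add_cancel_left, abs_neg]
  exact phiF_small b hb

theorem ex_step {sh : ∀ N, Set (P N)} {B : ∀ N, P N → P N → Prop} (hF : ∀ N, Fac (sh N) (B N))
    (b : P 0) (hb1 : b ≠ 1) (u v : PiG P) (h : (cay (shG sh)).Adj u v) :
    |ex 1 u - ex 1 v| ≤ 3 ∧ |ex (fP P 0 b) u - ex (fP P 0 b) v| ≤ 3 ∧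
      (ex 1 u = ex 1 v ∨ ex (fP P 0 b) u = ex (fP P 0 b) v) := by
  have hFG := facG (B := B) hF
  obtain ⟨i, hi⟩ := gate_step (shG sh) (fun i => (hFG i).one) (fun i => (hFG i).inv) u v h
  have hone : ∀ g : PiG P, |ex g u - ex g v| ≤ 3 := by
    intro g
    by_cases hne : gate none (g⁻¹ * u) = gate none (g⁻¹ * v)
    · unfold ex
      rw [hne, sub_self, abs_zero]
      norm_num
    · obtain ⟨_, a, _, c, hc, he⟩ := hi none g hne
      exact ex_diff _ _ c hc he
  refine ⟨hone _, hone _, ?_⟩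
  by_contra hcon
  push Not at hcon
  obtain ⟨c1, c2⟩ := hcon
  have n1 : gate none ((1 : PiG P)⁻¹ * u) ≠ gate none ((1 : PiG P)⁻¹ * v) := by
    intro e
    apply c1
    unfold ex
    rw [e]
  have n2 : gate none ((fP P 0 b)⁻¹ * u) ≠ gate none ((fP P 0 b)⁻¹ * v) := by
    intro e
    apply c2
    unfold ex
    rw [e]
  obtain ⟨_, a, ha, _⟩ := hi none 1 n1
  obtain ⟨_, a', ha', _⟩ := hi none (fP P 0 b) n2
  have e : (of a : PiG P) = fP P 0 b * of a' := by
    rw [← ha', ha, one_mul]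
  have g1 : gate (some 0) (of a : PiG P) = 1 := gate_other (by simp) a
  have g2 : gate (some 0) (fP P 0 b * of a' : PiG P) = b := by
    have h1 := gate_of_mul (G := GG P) (some 0) b (of a')
    have h2 : gate (some 0) (of a' : PiG P) = 1 := gate_other (by simp) a'
    rw [h2, mul_one] at h1
    exact h1
  rw [e, g2] at g1
  exact hb1 g1

theorem ex_line {sh : ∀ N, Set (P N)} {B : ∀ N, P N → P N → Prop} {n : ℕ}
    (hF : ∀ N, Fac (sh N) (B N))
    (D : RelData (GG P) (shG sh) (BG B) n) (hn : 1 ≤ n) (hM : ∀ ρ, ∃ N, D.M ρ = some N)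
    (g : PiG P) (s : D.S) (u : PiG P) (hu : u ∈ D.Y s) (v : PiG P) (hv : v ∈ D.Y s) :
    |ex g u - ex g v| ≤ 3 := by
  have hi : (none : Option ℕ) ≠ D.M s.1 := by
    obtain ⟨N, hN⟩ := hM s.1
    rw [hN]
    simp
  have h := gate_line (facG hF) D hn s none hi g u v hu hv
  exact ex_diff _ _ _ h (by rw [mul_inv_cancel_left])

theorem ex_one_z (a : Multiplicative ℤ) : ex (1 : PiG P) (zG P a) = a.toAdd := by
  unfold ex
  have : gate none ((1 : PiG P)⁻¹ * zG P a) = a := by
    rw [inv_one, one_mul]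
    exact gate_of (G := GG P) none a
  rw [this]
  rfl

theorem ex_one_bz (b : P 0) (hb1 : b ≠ 1) (a : Multiplicative ℤ) :
    ex (1 : PiG P) (fP P 0 b * zG P a) = 0 := by
  unfold ex
  have : gate none ((1 : PiG P)⁻¹ * (fP P 0 b * zG P a)) = 1 := by
    rw [inv_one, one_mul]
    exact gate_ne (G := GG P) (i := none) (j := some 0) (by simp) b hb1 _
      (gate_other (G := GG P) (i := some 0) (j := none) (by simp) a)
  rw [this, map_one]
  rfl

theorem ex_b_bz (b : P 0) (a : Multiplicative ℤ) :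
    ex (fP P 0 b) (fP P 0 b * zG P a) = a.toAdd := by
  unfold ex
  have : gate none ((fP P 0 b)⁻¹ * (fP P 0 b * zG P a)) = a := by
    rw [inv_mul_cancel_left]
    exact gate_of (G := GG P) none a
  rw [this]
  rfl

theorem ex_b_z (b : P 0) (hb1 : b ≠ 1) (a : Multiplicative ℤ) :
    ex (fP P 0 b) (zG P a) = 0 := by
  unfold ex
  have : gate none ((fP P 0 b)⁻¹ * zG P a) = 1 := by
    rw [← map_inv]
    exact gate_ne (G := GG P) (i := none) (j := some 0) (by simp) b⁻¹ (inv_ne_one.2 hb1) _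
      (gate_other (G := GG P) (i := some 0) (j := none) (by simp) a)
  rw [this, map_one]
  rfl

theorem zG_one : zG P 1 = 1 := map_one _

theorem dist_z {sh : ∀ N, Set (P N)} {B : ∀ N, P N → P N → Prop} (hF : ∀ N, Fac (sh N) (B N))
    (u : PiG P) (L : ℕ) (e : ℤ) (he : |e| ≤ 3) :
    (cay (shG sh)).dist u (u * zG P (Multiplicative.ofAdd (e * L))) ≤ L := by
  have h := RelData.D08.dist_prod (facG (B := B) hF) none
    (List.replicate L (Multiplicative.ofAdd e)) u (by
      intro h hh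
      rw [List.eq_of_mem_replicate hh]
      exact he)
  rw [List.length_replicate] at h
  have e1 : (List.replicate L (Multiplicative.ofAdd e) : List (GG P none)).prod =
      Multiplicative.ofAdd (e * L) := by
    have : ((List.replicate L (Multiplicative.ofAdd e) : List (Multiplicative ℤ)).prod) =
      Multiplicative.ofAdd (e * L) := by
      rw [List.prod_replicate, ← ofAdd_nsmul, nsmul_eq_mul, mul_comm]
    exact this
  rw [e1] at h
  exact h

end G04

theorem tripG {P : ℕ → Type} [∀ N, Group (P N)] {sh : ∀ N, Set (P N)}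
    {B : ∀ N, P N → P N → Prop} {n : ℕ} (hF : ∀ N, Fac (sh N) (B N))
    (D : RelData (GG P) (shG sh) (BG B) n) (hn : 1 ≤ n) (hM : ∀ ρ, ∃ N, D.M ρ = some N)
    (b : P 0) (hb : b ∈ sh 0) (hb1 : b ≠ 1) :
    Trip (PiG P) (cay (shG sh)) D.Y D.P := by
  intro L
  have hFG := facG (B := B) hF
  have hc : (cay (shG sh)).Connected := cay_conn hFG
  have hY : ∀ s : D.S, (D.Y s).Nonempty := D.Y_nonempty
  set F1 : PiG P → ℤ := G04.ex 1 with hF1
  set F2 : PiG P → ℤ := G04.ex (fP P 0 b) with hF2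
  -- lower bounds
  have low1 : ∀ u v : PiG P, |F1 u - F1 v| ≤ 3 * (cd (cay (shG sh)) D.Y (Sum.inl u) (Sum.inl v) : ℤ) :=
    fun u v => cd_lower hc hY F1 (fun u v h => (G04.ex_step hF b hb1 u v h).1)
      (fun s u hu v hv => (G04.ex_line hF D hn hM 1 s u hu v hv).trans (by norm_num)) u v
  have low2 : ∀ u v : PiG P, |F2 u - F2 v| ≤ 3 * (cd (cay (shG sh)) D.Y (Sum.inl u) (Sum.inl v) : ℤ) :=
    fun u v => cd_lower hc hY F2 (fun u v h => (G04.ex_step hF b hb1 u v h).2.1)
      (fun s u hu v hv => (G04.ex_line hF D hn hM _ s u hu v hv).trans (by norm_num)) u v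
  have low3 : ∀ u v : PiG P, |(F1 u - F2 u) - (F1 v - F2 v)| ≤
      3 * (cd (cay (shG sh)) D.Y (Sum.inl u) (Sum.inl v) : ℤ) := by
    refine fun u v => cd_lower hc hY (fun u => F1 u - F2 u) (fun u v h => ?_)
      (fun s u hu v hv => ?_) u v
    · obtain ⟨a1, a2, a3⟩ := G04.ex_step hF b hb1 u v h
      rcases a3 with a3 | a3
      · have : F1 u - F2 u - (F1 v - F2 v) = -(F2 u - F2 v) := by
          rw [hF1, a3]
          ring
        change |F1 u - F2 u - (F1 v - F2 v)| ≤ 3
        rw [this, abs_neg]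
        exact a2
      · have : F1 u - F2 u - (F1 v - F2 v) = (F1 u - F1 v) := by
          rw [hF2, a3]
          ring
        change |F1 u - F2 u - (F1 v - F2 v)| ≤ 3
        rw [this]
        exact a1
    · have a1 := G04.ex_line hF D hn hM 1 s u hu v hv
      have a2 := G04.ex_line hF D hn hM (fP P 0 b) s u hu v hv
      change |F1 u - F2 u - (F1 v - F2 v)| ≤ 6
      rw [abs_le] at a1 a2 ⊢
      constructor <;> linarith [a1.1, a1.2, a2.1, a2.2]
  have low4 : ∀ u v : PiG P, |(F1 u + F2 u) - (F1 v + F2 v)| ≤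
      3 * (cd (cay (shG sh)) D.Y (Sum.inl u) (Sum.inl v) : ℤ) := by
    refine fun u v => cd_lower hc hY (fun u => F1 u + F2 u) (fun u v h => ?_)
      (fun s u hu v hv => ?_) u v
    · obtain ⟨a1, a2, a3⟩ := G04.ex_step hF b hb1 u v h
      rcases a3 with a3 | a3
      · have : F1 u + F2 u - (F1 v + F2 v) = (F2 u - F2 v) := by
          rw [hF1, a3]
          ring
        change |F1 u + F2 u - (F1 v + F2 v)| ≤ 3
        rw [this]
        exact a2
      · have : F1 u + F2 u - (F1 v + F2 v) = (F1 u - F1 v) := by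
          rw [hF2, a3]
          ring
        change |F1 u + F2 u - (F1 v + F2 v)| ≤ 3
        rw [this]
        exact a1
    · have a1 := G04.ex_line hF D hn hM 1 s u hu v hv
      have a2 := G04.ex_line hF D hn hM (fP P 0 b) s u hu v hv
      change |F1 u + F2 u - (F1 v + F2 v)| ≤ 6
      rw [abs_le] at a1 a2 ⊢
      constructor <;> linarith [a1.1, a1.2, a2.1, a2.2]
  -- the three points
  set t0 : PiG P := zG P (Multiplicative.ofAdd (3 * (L : ℤ))) with ht0
  set t1 : PiG P := zG P (Multiplicative.ofAdd ((-3) * (L : ℤ))) with ht1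
  set t2 : PiG P := fP P 0 b * zG P (Multiplicative.ofAdd (3 * (L : ℤ))) with ht2
  have v10 : F1 1 = 0 := by
    have := G04.ex_one_z (P := P) 1
    rw [G04.zG_one] at this
    rw [hF1, this]
    rfl
  have v20 : F2 1 = 0 := by
    have := G04.ex_b_z (P := P) b hb1 1
    rw [G04.zG_one] at this
    rw [hF2, this]
  have w10 : F1 t0 = 3 * L := G04.ex_one_z _
  have w11 : F1 t1 = -3 * L := G04.ex_one_z _
  have w12 : F1 t2 = 0 := G04.ex_one_bz b hb1 _
  have w20 : F2 t0 = 0 := G04.ex_b_z b hb1 _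
  have w21 : F2 t1 = 0 := G04.ex_b_z b hb1 _
  have w22 : F2 t2 = 3 * L := G04.ex_b_bz b _
  -- upper bounds
  have d0 : cd (cay (shG sh)) D.Y (Sum.inl 1) (Sum.inl t0) ≤ L := by
    refine (cd_le hc hY _ _).trans ?_
    have := G04.dist_z (B := B) hF 1 L 3 (by norm_num)
    rwa [one_mul] at this
  have d1 : cd (cay (shG sh)) D.Y (Sum.inl 1) (Sum.inl t1) ≤ L := by
    refine (cd_le hc hY _ _).trans ?_
    have := G04.dist_z (B := B) hF 1 L (-3) (by norm_num)
    rwa [one_mul] at this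
  have d2 : cd (cay (shG sh)) D.Y (Sum.inl 1) (Sum.inl t2) ≤ L + 1 := by
    refine (cd_le hc hY _ _).trans ?_
    have e1 : (cay (shG sh)).dist (fP P 0 b) t2 ≤ L :=
      G04.dist_z (B := B) hF (fP P 0 b) L 3 (by norm_num)
    have e2 := cay_dist_of hFG 1 (some 0) b hb
    rw [one_mul] at e2
    have e3 := hc.dist_triangle (u := (1 : PiG P)) (v := fP P 0 b) (w := t2)
    have e4 : (cay (shG sh)).dist 1 (fP P 0 b) ≤ 1 := e2
    omega
  have l0 := low1 1 t0
  have l1 := low1 1 t1
  have l2 := low2 1 t2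
  have l01 := low1 t0 t1
  have l02 := low3 t0 t2
  have l12 := low4 t1 t2
  rw [v10, w10] at l0
  rw [v10, w11] at l1
  rw [v20, w22] at l2
  rw [w10, w11] at l01
  rw [w10, w20, w12, w22] at l02
  rw [w11, w21, w12, w22] at l12
  rw [abs_le] at l0 l1 l2 l01 l02 l12
  have s01 : cd (cay (shG sh)) D.Y (Sum.inl t1) (Sum.inl t0) =
      cd (cay (shG sh)) D.Y (Sum.inl t0) (Sum.inl t1) := SimpleGraph.dist_comm
  have s02 : cd (cay (shG sh)) D.Y (Sum.inl t2) (Sum.inl t0) =
      cd (cay (shG sh)) D.Y (Sum.inl t0) (Sum.inl t2) := SimpleGraph.dist_comm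
  have s12 : cd (cay (shG sh)) D.Y (Sum.inl t2) (Sum.inl t1) =
      cd (cay (shG sh)) D.Y (Sum.inl t1) (Sum.inl t2) := SimpleGraph.dist_comm
  have hi : ∀ s : D.S, (none : Option ℕ) ≠ D.M s.1 := by
    intro s
    obtain ⟨N, hN⟩ := hM s.1
    rw [hN]
    simp
  refine ⟨![t0, t1, t2], ?_, ?_, ?_⟩
  · intro i
    fin_cases i
    · change L ≤ cd (cay (shG sh)) D.Y (Sum.inl 1) (Sum.inl t0)
      omega
    · change L ≤ cd (cay (shG sh)) D.Y (Sum.inl 1) (Sum.inl t1)
      omega
    · change L ≤ cd (cay (shG sh)) D.Y (Sum.inl 1) (Sum.inl t2)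
      omega
  · intro i j hij
    fin_cases i <;> fin_cases j
    · exact absurd rfl hij
    · change cd (cay (shG sh)) D.Y (Sum.inl 1) (Sum.inl t0) +
        cd (cay (shG sh)) D.Y (Sum.inl 1) (Sum.inl t1) ≤
        cd (cay (shG sh)) D.Y (Sum.inl t0) (Sum.inl t1) + 2
      omega
    · change cd (cay (shG sh)) D.Y (Sum.inl 1) (Sum.inl t0) +
        cd (cay (shG sh)) D.Y (Sum.inl 1) (Sum.inl t2) ≤
        cd (cay (shG sh)) D.Y (Sum.inl t0) (Sum.inl t2) + 2
      omega
    · change cd (cay (shG sh)) D.Y (Sum.inl 1) (Sum.inl t1) +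
        cd (cay (shG sh)) D.Y (Sum.inl 1) (Sum.inl t0) ≤
        cd (cay (shG sh)) D.Y (Sum.inl t1) (Sum.inl t0) + 2
      omega
    · exact absurd rfl hij
    · change cd (cay (shG sh)) D.Y (Sum.inl 1) (Sum.inl t1) +
        cd (cay (shG sh)) D.Y (Sum.inl 1) (Sum.inl t2) ≤
        cd (cay (shG sh)) D.Y (Sum.inl t1) (Sum.inl t2) + 2
      omega
    · change cd (cay (shG sh)) D.Y (Sum.inl 1) (Sum.inl t2) +
        cd (cay (shG sh)) D.Y (Sum.inl 1) (Sum.inl t0) ≤
        cd (cay (shG sh)) D.Y (Sum.inl t2) (Sum.inl t0) + 2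
      omega
    · change cd (cay (shG sh)) D.Y (Sum.inl 1) (Sum.inl t2) +
        cd (cay (shG sh)) D.Y (Sum.inl 1) (Sum.inl t1) ≤
        cd (cay (shG sh)) D.Y (Sum.inl t2) (Sum.inl t1) + 2
      omega
    · exact absurd rfl hij
  · intro s i
    have pz : ∀ (v : PiG P) (a : Multiplicative ℤ), D.P s (v * zG P a) = D.P s v :=
      fun v a => P_const D hn s none (hi s) v a
    fin_cases i
    · change |D.P s t0 - D.P s 1| ≤ 1
      have := pz 1 (Multiplicative.ofAdd (3 * (L : ℤ)))
      rw [one_mul] at this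
      rw [this, sub_self, abs_zero]
      norm_num
    · change |D.P s t1 - D.P s 1| ≤ 1
      have := pz 1 (Multiplicative.ofAdd ((-3) * (L : ℤ)))
      rw [one_mul] at this
      rw [this, sub_self, abs_zero]
      norm_num
    · change |D.P s t2 - D.P s 1| ≤ 1
      rw [ht2, pz]
      have := RelData.D08.step_le D hFG hn s 1 (some 0) b hb
      rw [one_mul] at this
      exact this

end Pool.Agent.Lib.MP_c23930_al
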