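import Pool.Agent.Lib.MP_c23930_al.Grig1

set_option autoImplicit false
open scoped Pointwise

namespace Pool.Agent.Lib.MP_c23930_al

namespace Generate

theorem top_of_swaps (m : ℕ) (y : Om m) (H : Subgroup (Equiv.Perm (Om m)))
    (hH : ∀ (l : List Q4) (s : Q4),
      Equiv.swap ((l.map (gq m)).prod y) ((l.map (gq m)).prod (gq m s y)) ∈ H) : H = ⊤ := by
  classical
  let S : Set (Equiv.Perm (Om m)) := {σ | σ.IsSwap ∧ σ ∈ H}
  have hS : Subgroup.closure S ≤ H := (Subgroup.closure_le H).2 fun σ hσ => hσ.2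
  have key : ∀ l : List Q4, ∃ σ ∈ Subgroup.closure S, σ y = (l.map (gq m)).prod y := by
    intro l
    induction l using List.reverseRecOn with
    | nil => exact ⟨1, one_mem _, by simp⟩
    | append_singleton l s ih =>
      obtain ⟨σ, hσ, he⟩ := ih
      have hp : ((l ++ [s]).map (gq m)).prod y = (l.map (gq m)).prod (gq m s y) := by
        simp [List.map_append, List.prod_append, Equiv.Perm.mul_apply]
      rw [hp]
      by_cases hne : (l.map (gq m)).prod y = (l.map (gq m)).prod (gq m s y)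
      · exact ⟨σ, hσ, by rw [he, hne]⟩
      · refine ⟨Equiv.swap ((l.map (gq m)).prod y) ((l.map (gq m)).prod (gq m s y)) * σ,
          mul_mem (Subgroup.subset_closure ⟨⟨_, _, hne, rfl⟩, hH l s⟩) hσ, ?_⟩
        rw [Equiv.Perm.mul_apply, he, Equiv.swap_apply_left]
  have key2 : ∀ z, ∃ σ ∈ Subgroup.closure S, σ y = z := by
    intro z
    obtain ⟨l, hl⟩ := gq_trans m y z
    obtain ⟨σ, hσ, he⟩ := key l
    exact ⟨σ, hσ, he.trans hl⟩
  have : MulAction.IsPretransitive (Subgroup.closure S) (Om m) := ⟨by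
    intro x z
    obtain ⟨σ, hσ, he⟩ := key2 x
    obtain ⟨τ, hτ, he'⟩ := key2 z
    refine ⟨⟨τ * σ⁻¹, mul_mem hτ (inv_mem hσ)⟩, ?_⟩
    show (τ * σ⁻¹) x = z
    rw [Equiv.Perm.mul_apply, ← he, ← he']
    congr 1
    exact σ.symm_apply_apply y⟩
  have h1 := closure_of_isSwap_of_isPretransitive (S := S) (fun σ hσ => hσ.1)
  rw [eq_top_iff, ← h1]
  exact hS

theorem val_mem (m : ℕ) (x₀ y : Om m) (g : TL) :
    TL.val m x₀ y g ∈ Subgroup.closure (Tset m x₀ y : Set (Pg (Om m))) := by
  classical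
  by_cases h : TL.val m x₀ y g = 1
  · rw [h]; exact one_mem _
  · apply Subgroup.subset_closure
    simp only [Tset, Finset.coe_erase, Set.mem_sdiff, Finset.mem_coe, Finset.mem_image,
      Finset.mem_univ, true_and, Set.mem_singleton_iff]
    exact ⟨⟨g, rfl⟩, h⟩

theorem list_mem (m : ℕ) (x₀ y : Om m) (l : List Q4) :
    (SemidirectProduct.inr ((l.map (gq m)).prod, (l.map (gq m)).prod) : Pg (Om m)) ∈
      Subgroup.closure (Tset m x₀ y : Set (Pg (Om m))) := by
  induction l with
  | nil =>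
    have : (SemidirectProduct.inr ((([] : List Q4).map (gq m)).prod,
        (([] : List Q4).map (gq m)).prod) : Pg (Om m)) = 1 := by
      rw [List.map_nil, List.prod_nil, ← Prod.one_eq_mk, map_one]
    rw [this]; exact one_mem _
  | cons s l ih =>
    have : (SemidirectProduct.inr (((s :: l).map (gq m)).prod, ((s :: l).map (gq m)).prod) :
        Pg (Om m)) = TL.val m x₀ y (.q s) *
          SemidirectProduct.inr ((l.map (gq m)).prod, (l.map (gq m)).prod) := by
      simp only [TL.val, List.map_cons, List.prod_cons]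
      rw [← map_mul, Prod.mk_mul_mk]
    rw [this]
    exact mul_mem (val_mem m x₀ y _) ih

theorem left_mem (m : ℕ) (x₀ y : Om m) (p : Equiv.Perm (Om m)) :
    (SemidirectProduct.inr (p, 1) : Pg (Om m)) ∈
      Subgroup.closure (Tset m x₀ y : Set (Pg (Om m))) := by
  let φ : Equiv.Perm (Om m) →* Pg (Om m) :=
    (SemidirectProduct.inr (φ := actK (Om m))).comp (MonoidHom.inl _ _)
  have h := top_of_swaps m y ((Subgroup.closure (Tset m x₀ y : Set (Pg (Om m)))).comap φ) (by
    intro l s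
    rw [Subgroup.mem_comap]
    have h1 := mul_mem (mul_mem (list_mem m x₀ y l) (val_mem m x₀ y (.l s)))
      (inv_mem (list_mem m x₀ y l))
    convert h1 using 1
    simp only [TL.val]
    rw [← map_inv, ← map_mul, ← map_mul, Prod.mk_mul_mk, Prod.inv_mk, Prod.mk_mul_mk,
      Equiv.swap_apply_apply, mul_one, mul_inv_cancel]
    rfl)
  have : p ∈ (Subgroup.closure (Tset m x₀ y : Set (Pg (Om m)))).comap φ := by
    rw [h]; trivial
  exact this

theorem right_mem (m : ℕ) (x₀ y : Om m) (p : Equiv.Perm (Om m)) :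
    (SemidirectProduct.inr (1, p) : Pg (Om m)) ∈
      Subgroup.closure (Tset m x₀ y : Set (Pg (Om m))) := by
  let φ : Equiv.Perm (Om m) →* Pg (Om m) :=
    (SemidirectProduct.inr (φ := actK (Om m))).comp (MonoidHom.inr _ _)
  have h := top_of_swaps m y ((Subgroup.closure (Tset m x₀ y : Set (Pg (Om m)))).comap φ) (by
    intro l s
    rw [Subgroup.mem_comap]
    have h1 := mul_mem (mul_mem (list_mem m x₀ y l) (val_mem m x₀ y (.r s)))
      (inv_mem (list_mem m x₀ y l))
    convert h1 using 1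
    simp only [TL.val]
    rw [← map_inv, ← map_mul, ← map_mul, Prod.mk_mul_mk, Prod.inv_mk, Prod.mk_mul_mk,
      Equiv.swap_apply_apply, mul_one, mul_inv_cancel]
    rfl)
  have : p ∈ (Subgroup.closure (Tset m x₀ y : Set (Pg (Om m)))).comap φ := by
    rw [h]; trivial
  exact this

theorem inr_mem (m : ℕ) (x₀ y : Om m) (k : Kg (Om m)) :
    (SemidirectProduct.inr k : Pg (Om m)) ∈
      Subgroup.closure (Tset m x₀ y : Set (Pg (Om m))) := by
  have : (SemidirectProduct.inr k : Pg (Om m)) =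
      SemidirectProduct.inr (k.1, 1) * SemidirectProduct.inr (1, k.2) := by
    rw [← map_mul, Prod.mk_mul_mk, mul_one, one_mul]
  rw [this]
  exact mul_mem (left_mem m x₀ y _) (right_mem m x₀ y _)

theorem inl_mem (m : ℕ) (x₀ y : Om m) (w : Wg (Om m)) :
    (SemidirectProduct.inl w : Pg (Om m)) ∈
      Subgroup.closure (Tset m x₀ y : Set (Pg (Om m))) := by
  have h : Subgroup.closure (Set.range (sW (Ω := Om m))) ≤
      (Subgroup.closure (Tset m x₀ y : Set (Pg (Om m)))).comap
        (SemidirectProduct.inl (φ := actK (Om m))) := by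
    rw [Subgroup.closure_le]
    rintro _ ⟨⟨u, v⟩, rfl⟩
    show (SemidirectProduct.inl (sW (u, v)) : Pg (Om m)) ∈
      Subgroup.closure (Tset m x₀ y : Set (Pg (Om m)))
    have h1 : (sW (u, v) : Wg (Om m)) =
        actK (Om m) (Equiv.swap x₀ u, Equiv.swap x₀ v) (sW (x₀, x₀)) := by
      rw [actK_s]
      simp [kl]
    rw [h1, SemidirectProduct.inl_aut]
    have h2 := val_mem m x₀ y .t
    simp only [TL.val] at h2
    exact mul_mem (mul_mem (inr_mem m x₀ y _) h2) (inr_mem m x₀ y _)
  rw [closure_sW] at h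
  exact h (Subgroup.mem_top w)

end Generate

theorem closure_Tset (m : ℕ) (x₀ y : Om m) :
    Subgroup.closure (Tset m x₀ y : Set (Pg (Om m))) = ⊤ := by
  rw [eq_top_iff]
  intro x _
  rw [← SemidirectProduct.inl_left_mul_inr_right x]
  exact mul_mem (Generate.inl_mem m x₀ y _) (Generate.inr_mem m x₀ y _)

theorem misses_Tset (m : ℕ) (hm : 1 ≤ m) (x₀ y : Om m) (t : Pg (Om m)) (ht : t ∈ Tset m x₀ y) :
    ∃ e, Misses t.left e := by
  classical
  simp only [Tset, Finset.mem_erase, Finset.mem_image, Finset.mem_univ, true_and] at ht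
  obtain ⟨-, g, rfl⟩ := ht
  have h1 : Misses (1 : Wg (Om m)) (default, default) := one_mem _
  cases g with
  | q g => exact ⟨_, h1⟩
  | l g => exact ⟨_, h1⟩
  | r g => exact ⟨_, h1⟩
  | t =>
    have hc : 1 < Fintype.card (Om m) := by
      rw [card_Om]
      exact Nat.one_lt_two_pow (by omega)
    obtain ⟨x₁, hx₁⟩ := Fintype.exists_ne_of_one_lt_card hc x₀
    refine ⟨(x₁, x₁), ?_⟩
    show sW (x₀, x₀) ∈ Subgroup.closure (sW '' {p : Om m × Om m | p ≠ (x₁, x₁)})
    exact Subgroup.subset_closure ⟨(x₀, x₀), fun h => hx₁ (congrArg Prod.fst h).symm, rfl⟩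

end Pool.Agent.Lib.MP_c23930_al
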