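import Mathlib

set_option autoImplicit false

open Filter Topology

namespace Pool.Agent.Lib.MP_c23930_al

theorem slowLim_aux (c : ℝ) (hc : 1 < c) :
    ∃ L : ℕ, 529 * (6 + 2 * (L : ℝ)) * (9 / 10 : ℝ) ^ L < Real.log c := by
  have h1 : Tendsto (fun L : ℕ => (L : ℝ) * (9 / 10 : ℝ) ^ L) atTop (𝓝 0) :=
    tendsto_self_mul_const_pow_of_lt_one (by norm_num) (by norm_num)
  have h2 : Tendsto (fun L : ℕ => (9 / 10 : ℝ) ^ L) atTop (𝓝 0) :=
    tendsto_pow_atTop_nhds_zero_of_lt_one (by norm_num) (by norm_num)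
  have h3 : Tendsto (fun L : ℕ => 529 * (6 + 2 * (L : ℝ)) * (9 / 10 : ℝ) ^ L) atTop (𝓝 0) := by
    have h := (h2.const_mul (529 * 6)).add (h1.const_mul (529 * 2))
    simp only [mul_zero, add_zero] at h
    refine h.congr fun L => ?_
    ring
  exact (h3.eventually (gt_mem_nhds (Real.log_pos hc))).exists

theorem slow_limit (c : ℝ) (hc : 1 < c) : ∃ L E : ℕ,
    9 ^ L * (7 * 4 ^ L) + 3 * 10 ^ L * 2 ^ L ≤ 10 ^ L * E ∧
      (((8 * (E + 1)) ^ (2 ^ (L + 1)) * 2 ^ E * ((22 * E) ^ (22 * E)) ^ 2 * 2 ^ (22 * E) : ℕ) : ℝ) <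
        c ^ (4 ^ L) := by
  obtain ⟨L, hL⟩ := slowLim_aux c hc
  set a : ℝ := (18 / 5 : ℝ) ^ L with ha
  have ha1 : 1 ≤ a := one_le_pow₀ (by norm_num)
  have h2a : (2 : ℝ) ^ L ≤ a := pow_le_pow_left₀ (by norm_num) (by norm_num) L
  refine ⟨L, ⌈7 * a⌉₊ + 3 * 2 ^ L, ?_, ?_⟩
  · have h : (9 : ℝ) ^ L * (7 * 4 ^ L) + 3 * 10 ^ L * 2 ^ L ≤
        10 ^ L * ((⌈7 * a⌉₊ : ℕ) + 3 * 2 ^ L) := by
      have h7 : 7 * a ≤ (⌈7 * a⌉₊ : ℝ) := Nat.le_ceil _
      have h10 : (0 : ℝ) < 10 ^ L := by positivity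
      have he : (9 : ℝ) ^ L * (7 * 4 ^ L) = 10 ^ L * (7 * a) := by
        have : (9 : ℝ) ^ L * 4 ^ L = 10 ^ L * (18 / 5) ^ L := by
          rw [← mul_pow, ← mul_pow]; norm_num
        rw [ha]; linear_combination 7 * this
      rw [he]
      nlinarith [mul_le_mul_of_nonneg_left h7 h10.le]
    exact_mod_cast h
  · set E : ℕ := ⌈7 * a⌉₊ + 3 * 2 ^ L with hE
    have hE1 : (1 : ℝ) ≤ E := by
      have : 1 ≤ E := by
        have : 1 ≤ 2 ^ L := Nat.one_le_two_pow
        omega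
      exact_mod_cast this
    have hE2 : (E : ℝ) ≤ 11 * a := by
      have h7 : (⌈7 * a⌉₊ : ℝ) < 7 * a + 1 := Nat.ceil_lt_add_one (by positivity)
      rw [hE]; push_cast
      linarith
    have hloga : Real.log a ≤ 2 * L := by
      rw [ha, Real.log_pow]
      have : Real.log (18 / 5 : ℝ) ≤ 2 := by
        have h := Real.log_le_sub_one_of_pos (show (0 : ℝ) < 9 / 5 by norm_num)
        have h2 : Real.log (18 / 5 : ℝ) = Real.log 2 + Real.log (9 / 5) := by
          rw [← Real.log_mul (by norm_num) (by norm_num)]; norm_num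
        have h3 := Real.log_two_lt_d9
        linarith
      nlinarith [(Nat.cast_nonneg L : (0 : ℝ) ≤ (L : ℝ))]
    have hlog242 : Real.log 242 ≤ 6 := by
      have h : Real.log (242 : ℝ) ≤ Real.log (2 ^ 8 : ℝ) :=
        Real.log_le_log (by norm_num) (by norm_num)
      rw [Real.log_pow] at h
      have h3 := Real.log_two_lt_d9
      push_cast at h
      linarith
    have hE3 : Real.log (22 * (E : ℝ)) ≤ 6 + 2 * L := by
      have h : Real.log (22 * (E : ℝ)) ≤ Real.log (242 * a) :=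
        Real.log_le_log (by positivity) (by linarith)
      rw [Real.log_mul (show (242 : ℝ) ≠ 0 by norm_num) (by positivity)] at h
      linarith
    have hE4 : Real.log (8 * ((E : ℝ) + 1)) ≤ 6 + 2 * L := by
      have h : Real.log (8 * ((E : ℝ) + 1)) ≤ Real.log (22 * (E : ℝ)) :=
        Real.log_le_log (by positivity) (by linarith)
      linarith
    have hcpos : 0 < c := by linarith
    rw [← Real.log_lt_log_iff (by push_cast; positivity) (by positivity)]
    have hlog : Real.log (((8 * (E + 1)) ^ (2 ^ (L + 1)) * 2 ^ E * ((22 * E) ^ (22 * E)) ^ 2 *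
        2 ^ (22 * E) : ℕ) : ℝ) = 2 ^ (L + 1) * Real.log (8 * ((E : ℝ) + 1)) + E * Real.log 2 +
          2 * (22 * E * Real.log (22 * (E : ℝ))) + 22 * E * Real.log 2 := by
      have hEpos : (0 : ℝ) < E := by linarith
      push_cast
      rw [Real.log_mul (by positivity) (by positivity), Real.log_mul (by positivity) (by positivity),
        Real.log_mul (by positivity) (by positivity), Real.log_pow, Real.log_pow, Real.log_pow,
        Real.log_pow, Real.log_pow]
      push_cast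
      ring
    rw [hlog, Real.log_pow]
    have hl2 : Real.log 2 ≤ 1 := by linarith [Real.log_two_lt_d9]
    have hLL : (0 : ℝ) ≤ (L : ℝ) := Nat.cast_nonneg L
    have hK : (0 : ℝ) ≤ 6 + 2 * (L : ℝ) := by linarith
    have t1 : (2 : ℝ) ^ (L + 1) * Real.log (8 * ((E : ℝ) + 1)) ≤ 2 * a * (6 + 2 * L) := by
      rw [pow_succ]
      have := mul_le_mul (show (2 : ℝ) ^ L * 2 ≤ 2 * a by linarith) hE4
        (Real.log_nonneg (by linarith)) (by positivity)
      linarith
    have t2 : (E : ℝ) * Real.log 2 ≤ 11 * a := by nlinarith [Real.log_pos (show (1 : ℝ) < 2 by norm_num)]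
    have t3 : (E : ℝ) * Real.log (22 * (E : ℝ)) ≤ 11 * a * (6 + 2 * L) :=
      mul_le_mul hE2 hE3 (Real.log_nonneg (by linarith)) (by positivity)
    have t4 : 43 * a * 6 ≤ 43 * a * (6 + 2 * (L : ℝ)) :=
      mul_le_mul_of_nonneg_left (by linarith) (by positivity)
    have hfin : 529 * (6 + 2 * (L : ℝ)) * a < 4 ^ L * Real.log c := by
      have h4 : (4 : ℝ) ^ L * (9 / 10) ^ L = a := by
        rw [← mul_pow, ha]; norm_num
      have := mul_lt_mul_of_pos_left hL (show (0 : ℝ) < 4 ^ L by positivity)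
      calc 529 * (6 + 2 * (L : ℝ)) * a = 4 ^ L * (529 * (6 + 2 * (L : ℝ)) * (9 / 10 : ℝ) ^ L) := by
            rw [← h4]; ring
        _ < _ := this
    push_cast
    nlinarith

end Pool.Agent.Lib.MP_c23930_al
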