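import Pool.Agent.Lib.MP_c23930_al.BallCount
import Pool.Agent.Lib.MP_c23930_al.SlowLim
import Pool.Agent.Lib.MP_c23930_al.Generate

set_option autoImplicit false
open scoped Pointwise

namespace Pool.Agent.Lib.MP_c23930_al

/-- the groups `P_m` have arbitrarily small growth -/
theorem slow (c : ℝ) (hc : 1 < c) (m₀ : ℕ) : ∃ m, m₀ ≤ m ∧ ∃ x₀ y : Om m,
    Subgroup.closure (Tset m x₀ y : Set (Pg (Om m))) = ⊤ ∧
    (1 : Pg (Om m)) ∉ Tset m x₀ y ∧ (∀ t ∈ Tset m x₀ y, ∃ e, Misses t.left e) ∧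
    ∃ n : ℕ, 1 ≤ n ∧ (Set.ncard (((Tset m x₀ y : Set (Pg (Om m))) ∪
        (Tset m x₀ y : Set (Pg (Om m)))⁻¹ ∪ {1}) ^ n) : ℝ) < c ^ n := by
  obtain ⟨L, E, h1, h2⟩ := slow_limit c hc
  obtain ⟨m', hm', hpow⟩ : ∃ m' : ℕ, m₀ + 1 ≤ m' ∧ 5 ^ (4 ^ L + 1) < 2 ^ (m' + L) := by
    refine ⟨m₀ + 1 + 5 ^ (4 ^ L + 1), Nat.le_add_right _ _, ?_⟩
    calc 5 ^ (4 ^ L + 1) < 2 ^ (5 ^ (4 ^ L + 1)) := Nat.lt_two_pow_self
      _ ≤ 2 ^ (m₀ + 1 + 5 ^ (4 ^ L + 1) + L) :=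
        Nat.pow_le_pow_right (by norm_num) ((Nat.le_add_left _ _).trans (Nat.le_add_right _ _))
  obtain ⟨y, hy⟩ := exists_far (m' + L) (4 ^ L + 1) hpow default
  refine ⟨m' + L, by omega, default, y, closure_Tset _ _ _, ?_, ?_, 4 ^ L, Nat.one_le_pow _ _
    (by norm_num), ?_⟩
  · simp [Tset]
  · intro t ht
    exact misses_Tset (m' + L) (by omega) default y t ht
  · have h3 := count_ball m' L (4 ^ L) E default y hy h1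
    calc _ ≤ (((8 * (E + 1)) ^ (2 ^ (L + 1)) * 2 ^ E * ((22 * E) ^ (22 * E)) ^ 2 *
          2 ^ (22 * E) : ℕ) : ℝ) := by exact_mod_cast h3
      _ < c ^ (4 ^ L) := h2

end Pool.Agent.Lib.MP_c23930_al
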