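import Pool.Agent.Lib.MP_c23930_al.D12
import Pool.Agent.Lib.MP_c23930_al.E05
import Pool.Agent.Lib.MP_c23930_al.G02
import Pool.Agent.Lib.MP_c23930_al.G03
import Pool.Agent.Lib.MP_c23930_al.G04
import Pool.Agent.Lib.MP_c23930_al.Slow
import Pool.Agent.Lib.MP_c23930_al.BMain

/-!
# G05: the groups
-/

set_option autoImplicit false

namespace Pool.Agent.Lib.MP_c23930_al

open scoped Pointwise

theorem zG_eq (P : ℕ → Type) [∀ N, Group (P N)] (a : Multiplicative ℤ) :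
    zG P a = zz P ^ (Multiplicative.toAdd a) := by
  show zG P a = (zG P (Multiplicative.ofAdd (1 : ℤ))) ^ (Multiplicative.toAdd a)
  rw [← map_zpow, ← ofAdd_zsmul]
  simp only [smul_eq_mul, mul_one]
  rfl

theorem closure_gen (P : ℕ → Type) [∀ N, Group (P N)] :
    Subgroup.closure ({zz P} ∪ ⋃ i, Set.range (fP P i)) = ⊤ := by
  rw [eq_top_iff]
  intro g hg
  clear hg
  induction g using Monoid.CoprodI.induction_on with
  | one => exact one_mem _
  | of i m =>
    cases i with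
    | none =>
      have h1 : (Monoid.CoprodI.of (M := GG P) (i := none) m) = zz P ^ (Multiplicative.toAdd
          (show Multiplicative ℤ from m)) := zG_eq P m
      rw [h1]
      exact Subgroup.zpow_mem (Subgroup.closure ({zz P} ∪ ⋃ i, Set.range (fP P i)))
        (Subgroup.subset_closure (Or.inl rfl)) _
    | some N =>
      exact Subgroup.subset_closure (Or.inr (Set.mem_iUnion.2 ⟨N, m, rfl⟩))
  | mul x y hx hy => exact mul_mem hx hy

theorem main_group : ∃ (Q : Type) (_ : Group Q) (R : Subgroup Q),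
    R.FiniteIndex ∧ Group.FG Q ∧ UEG Q ∧ ¬ UEG R := by
  obtain ⟨n₀, hn₀⟩ := ueg_quot 30 4
  set n := max n₀ 3 with hn
  have hn3 : 3 ≤ n := le_max_right _ _
  have hslow : ∀ N : ℕ, ∃ m, 1 ≤ m ∧ ∃ x₀ y : Om m,
      Subgroup.closure (Tset m x₀ y : Set (Pg (Om m))) = ⊤ ∧
      (1 : Pg (Om m)) ∉ Tset m x₀ y ∧ (∀ t ∈ Tset m x₀ y, ∃ e, Misses t.left e) ∧
      ∃ k : ℕ, 1 ≤ k ∧ (Set.ncard (((Tset m x₀ y : Set (Pg (Om m))) ∪
        (Tset m x₀ y : Set (Pg (Om m)))⁻¹ ∪ {1}) ^ k) : ℝ) < (1 + 1 / ((N : ℝ) + 1)) ^ k :=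
    fun N => slow (1 + 1 / ((N : ℝ) + 1)) (by have : (0 : ℝ) < 1 / ((N : ℝ) + 1) := by positivity
                                              linarith) 1
  choose m hm x₀ y hgen h1 hsh k hk hlt using hslow
  let P : ℕ → Type := fun N => Pg (Om (m N))
  let sh : ∀ N, Set (P N) := fun N => shP (Om (m N))
  let B : ∀ N, P N → P N → Prop := fun N => BP (Om (m N))
  let T : ∀ N, Finset (P N) := fun N => Tset (m N) (x₀ N) (y N)
  have hcard : ∀ N, 2 ≤ Fintype.card (Om (m N)) := by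
    intro N
    rw [card_Om]
    calc 2 = 2 ^ 1 := rfl
      _ ≤ 2 ^ m N := Nat.pow_le_pow_right (by norm_num) (hm N)
  have hF : ∀ N, Fac (sh N) (B N) := fun N => fac_P (Om (m N)) (hcard N)
  have hC : ∀ N, ∃ V Seg c, Chains (sh N) (B N) V Seg c n :=
    fun N => chains_P (Om (m N)) (hcard N) n
  have hT : ∀ N, ∀ t ∈ T N, t ∈ sh N ∧ t ≠ 1 := by
    intro N t ht
    refine ⟨hsh N t ht, ?_⟩
    rintro rfl
    exact h1 N ht
  obtain ⟨D, hM, hφ, r0, r1, r2, r3⟩ := exists_rel P sh B n hF hC T hT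
  have hL := lsys (facG hF) D hn3
  have hA := lact D hn3
  have : D.N.Normal := Subgroup.normalClosure_normal
  -- a short element of `P 0`
  obtain ⟨b, hb, hb1⟩ : ∃ b : P 0, b ∈ sh 0 ∧ b ≠ 1 := by
    by_contra hcon
    push Not at hcon
    have hT0 : ∀ t ∈ T 0, t = 1 := fun t ht => hcon t (hT 0 t ht).1
    have htriv : ∀ g : P 0, g = 1 := by
      intro g
      have hg : g ∈ Subgroup.closure (T 0 : Set (P 0)) := by
        rw [show Subgroup.closure (T 0 : Set (P 0)) = ⊤ from hgen 0]; exact Subgroup.mem_top _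
      have : Subgroup.closure (T 0 : Set (P 0)) ≤ ⊥ := by
        rw [Subgroup.closure_le]
        intro t ht
        exact hT0 t ht
      exact Subgroup.mem_bot.1 (this hg)
    obtain ⟨V, Seg, c, hch⟩ := hC 0
    have h2 := hch.c_V 0
    rw [htriv (V 0), hch.c_one 0] at h2
    have : (3 : ℤ) ≤ n := by exact_mod_cast hn3
    omega
  have hφN : ∀ g ∈ D.N, (3 : ℤ) ∣ (phiG P g).toAdd := by
    intro g hg
    have hle : D.N ≤ Subgroup.comap (phiG P) (Subgroup.zpowers (Multiplicative.ofAdd (3 : ℤ))) := by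
      apply Subgroup.normalClosure_le_normal
      rintro _ ⟨ρ, rfl⟩
      obtain ⟨q, hq⟩ := hφ ρ
      refine Subgroup.mem_comap.2 ⟨q, ?_⟩
      apply Multiplicative.toAdd.injective
      show Multiplicative.toAdd ((Multiplicative.ofAdd (3 : ℤ)) ^ q) = _
      rw [toAdd_zpow, hq, toAdd_ofAdd, smul_eq_mul, mul_comm]
    obtain ⟨q, hq⟩ := Subgroup.mem_comap.1 (hle hg)
    refine ⟨q, ?_⟩
    rw [← hq]
    show Multiplicative.toAdd ((Multiplicative.ofAdd (3 : ℤ)) ^ q) = _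
    rw [toAdd_zpow, toAdd_ofAdd, smul_eq_mul, mul_comm]
  have hN := N_eq D
  have hUEG : UEG (PiG P ⧸ D.N) := by
    refine hn₀ n (le_max_left _ _) (PiG P) D.S (cay (shG sh)) D.Y D.P (II (BG B)) D.R hL hA
      (phiG P) (phi_lip hF) ?_ ⟨zz P, ?_⟩ (tripG hF D (by omega) hM b hb hb1) D.N hN
    · intro s ρ hρ
      apply hφN
      rw [hN]
      exact Subgroup.subset_closure (Set.mem_iUnion.2 ⟨s, hρ⟩)
    · show ¬ (3 : ℤ) ∣ (phiG P (zG P (Multiplicative.ofAdd (1 : ℤ)))).toAdd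
      rw [phiG_z, toAdd_ofAdd]
      decide
  obtain ⟨R, hfin, hfg, hsurj⟩ := quot_alg D.N P (fP P) (zz P) T (fun i => hgen i)
    (closure_gen P) r0 r1 r2 r3
  refine ⟨PiG P ⧸ D.N, inferInstance, R, hfin, hfg, hUEG, ?_⟩
  refine not_ueg_of P T (fun i => hgen i) hsurj ?_
  intro c hc
  obtain ⟨N, hN1⟩ := exists_nat_one_div_lt (sub_pos.2 hc)
  refine ⟨N, k N, lt_of_lt_of_le (hlt N) ?_⟩
  apply pow_le_pow_left₀ (by positivity)
  linarith

end Pool.Agent.Lib.MP_c23930_al
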