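import Pool.Agent.Lib.MP_c23930_al.UDefs

/-!
# Definitions for block G: the free product of `ℤ` and all factors
-/

set_option autoImplicit false

namespace Pool.Agent.Lib.MP_c23930_al

/-- the factors: `ℤ` and the groups `P N` -/
def GG (P : ℕ → Type) : Option ℕ → Type
  | none => Multiplicative ℤ
  | some N => P N

instance instGroupGG (P : ℕ → Type) [∀ N, Group (P N)] : ∀ i, Group (GG P i)
  | none => inferInstanceAs (Group (Multiplicative ℤ))
  | some N => inferInstanceAs (Group (P N))

/-- short elements of the factors -/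
def shG {P : ℕ → Type} (sh : ∀ N, Set (P N)) : ∀ i, Set (GG P i)
  | none => shZ
  | some N => sh N

/-- betweenness of the factors -/
def BG {P : ℕ → Type} (B : ∀ N, P N → P N → Prop) : ∀ i, GG P i → GG P i → Prop
  | none => BZ
  | some N => B N

/-- the free product -/
abbrev PiG (P : ℕ → Type) [∀ N, Group (P N)] : Type := Monoid.CoprodI (GG P)

/-- the inclusion of `ℤ` -/
def zG (P : ℕ → Type) [∀ N, Group (P N)] : Multiplicative ℤ →* PiG P :=
  Monoid.CoprodI.of (M := GG P) (i := none)

/-- the generator of `ℤ` -/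
def zz (P : ℕ → Type) [∀ N, Group (P N)] : PiG P := zG P (Multiplicative.ofAdd (1 : ℤ))

/-- the inclusions of the groups `P N` -/
def fP (P : ℕ → Type) [∀ N, Group (P N)] (N : ℕ) : P N →* PiG P :=
  Monoid.CoprodI.of (M := GG P) (i := some N)

/-- the homomorphism to `ℤ` on the factors -/
def phiF (P : ℕ → Type) [∀ N, Group (P N)] : ∀ i, GG P i →* Multiplicative ℤ
  | none => MonoidHom.id (Multiplicative ℤ)
  | some _ => 1

/-- the homomorphism to `ℤ` -/
def phiG (P : ℕ → Type) [∀ N, Group (P N)] : PiG P →* Multiplicative ℤ :=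
  Monoid.CoprodI.lift (phiF P)

theorem phiG_z (P : ℕ → Type) [∀ N, Group (P N)] (a : Multiplicative ℤ) :
    phiG P (zG P a) = a := by
  show Monoid.CoprodI.lift (phiF P) (Monoid.CoprodI.of (M := GG P) (i := none) a) = a
  rw [Monoid.CoprodI.lift_of]
  rfl

theorem phiG_P (P : ℕ → Type) [∀ N, Group (P N)] (N : ℕ) (a : P N) : phiG P (fP P N a) = 1 := by
  show Monoid.CoprodI.lift (phiF P) (Monoid.CoprodI.of (M := GG P) (i := some N) a) = 1
  rw [Monoid.CoprodI.lift_of]
  rfl

end Pool.Agent.Lib.MP_c23930_al
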