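import Mathlib

set_option autoImplicit false

namespace Pool.Agent.Lib.MP_c23930_al

/-! ### the right-angled Coxeter group on `Ω × Ω` -/

open Classical in
/-- the Coxeter matrix on `Ω × Ω`: two letters commute if both coordinates differ, otherwise they
generate an infinite dihedral group -/
noncomputable def crossM (Ω : Type*) : CoxeterMatrix (Ω × Ω) where
  M := Matrix.of fun p q => if p = q then 1 else if p.1 ≠ q.1 ∧ p.2 ≠ q.2 then 2 else 0
  isSymm := by
    ext p q
    simp only [Matrix.transpose_apply, Matrix.of_apply, eq_comm (a := q) (b := p), ne_eq,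
      eq_comm (a := q.1) (b := p.1), eq_comm (a := q.2) (b := p.2)]
  diagonal p := by simp
  off_diagonal p q h := by
    simp only [Matrix.of_apply, if_neg h]
    split_ifs <;> simp

theorem crossM_self (Ω : Type*) (p : Ω × Ω) : crossM Ω p p = 1 := (crossM Ω).diagonal p

theorem crossM_comm {Ω : Type*} {p q : Ω × Ω} (h1 : p.1 ≠ q.1) (h2 : p.2 ≠ q.2) :
    crossM Ω p q = 2 := by
  have hpq : p ≠ q := fun h => h1 (congrArg Prod.fst h)
  change (crossM Ω).M p q = 2
  simp only [crossM, Matrix.of_apply]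
  rw [if_neg hpq, if_pos ⟨h1, h2⟩]

theorem crossM_inf {Ω : Type*} {p q : Ω × Ω} (h : p ≠ q) (h' : p.1 = q.1 ∨ p.2 = q.2) :
    crossM Ω p q = 0 := by
  change (crossM Ω).M p q = 0
  simp only [crossM, Matrix.of_apply]
  rw [if_neg h, if_neg]
  rintro ⟨a, b⟩
  exact h'.elim a b

/-- the right-angled Coxeter group on `Ω × Ω` -/
abbrev Wg (Ω : Type*) := (crossM Ω).Group

/-- its generators -/
noncomputable abbrev sW {Ω : Type*} (p : Ω × Ω) : Wg Ω := (crossM Ω).simple p

theorem sW_mul_self {Ω : Type*} (p : Ω × Ω) : sW p * sW p = 1 :=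
  (crossM Ω).toCoxeterSystem.simple_mul_simple_self p

theorem sW_inv {Ω : Type*} (p : Ω × Ω) : (sW p)⁻¹ = sW p :=
  (crossM Ω).toCoxeterSystem.inv_simple p

theorem sW_comm {Ω : Type*} {p q : Ω × Ω} (h1 : p.1 ≠ q.1) (h2 : p.2 ≠ q.2) :
    sW p * sW q = sW q * sW p := by
  have h := (crossM Ω).toCoxeterSystem.simple_mul_simple_pow p q
  rw [crossM_comm h1 h2, pow_two] at h
  change sW p * sW q * (sW p * sW q) = 1 at h
  have h2 := mul_eq_one_iff_eq_inv.1 h
  rw [mul_inv_rev, sW_inv, sW_inv] at h2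
  exact h2

/-- two involutions commuting -/
theorem liftable_of {Ω G : Type*} [Group G] (f : Ω × Ω → G) (h1 : ∀ p, f p * f p = 1)
    (h2 : ∀ p q : Ω × Ω, p.1 ≠ q.1 → p.2 ≠ q.2 → f p * f q = f q * f p) :
    (crossM Ω).IsLiftable f := by
  intro p q
  by_cases hpq : p = q
  · subst hpq
    rw [crossM_self, pow_one, h1]
  by_cases h : p.1 ≠ q.1 ∧ p.2 ≠ q.2
  · rw [crossM_comm h.1 h.2, pow_two]
    calc f p * f q * (f p * f q) = f p * f q * (f q * f p) := by rw [← h2 p q h.1 h.2]
      _ = f p * (f q * f q) * f p := by group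
      _ = 1 := by rw [h1, mul_one, h1]
  · rw [crossM_inf hpq (by tauto), pow_zero]

/-- maps out of `W` -/
noncomputable def liftW {Ω G : Type*} [Group G] (f : Ω × Ω → G) (h1 : ∀ p, f p * f p = 1)
    (h2 : ∀ p q : Ω × Ω, p.1 ≠ q.1 → p.2 ≠ q.2 → f p * f q = f q * f p) : Wg Ω →* G :=
  (crossM Ω).toCoxeterSystem.lift ⟨f, liftable_of f h1 h2⟩

theorem liftW_s {Ω G : Type*} [Group G] (f : Ω × Ω → G) (h1 : ∀ p, f p * f p = 1)
    (h2 : ∀ p q : Ω × Ω, p.1 ≠ q.1 → p.2 ≠ q.2 → f p * f q = f q * f p) (p : Ω × Ω) :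
    liftW f h1 h2 (sW p) = f p :=
  (crossM Ω).toCoxeterSystem.lift_apply_simple (liftable_of f h1 h2) p

theorem homW_ext {Ω G : Type*} [Group G] {f g : Wg Ω →* G} (h : ∀ p, f (sW p) = g (sW p)) :
    f = g :=
  (crossM Ω).toCoxeterSystem.ext_simple h

theorem closure_sW (Ω : Type*) : Subgroup.closure (Set.range (sW (Ω := Ω))) = ⊤ :=
  (crossM Ω).toCoxeterSystem.subgroup_closure_range_simple

/-! ### the group `P = W ⋊ K` -/

/-- the acting group -/
abbrev Kg (Ω : Type*) := Equiv.Perm Ω × Equiv.Perm Ω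

/-- action of `K` on letters -/
def kl {Ω : Type*} (k : Kg Ω) (p : Ω × Ω) : Ω × Ω := (k.1 p.1, k.2 p.2)

/-- the endomorphism of `W` induced by `k` -/
noncomputable def actHomP {Ω : Type*} (k : Kg Ω) : Wg Ω →* Wg Ω :=
  liftW (fun p => sW (kl k p)) (fun _ => sW_mul_self _) (fun _ _ h1 h2 =>
    sW_comm (fun e => h1 (k.1.injective e)) (fun e => h2 (k.2.injective e)))

theorem actHomP_s {Ω : Type*} (k : Kg Ω) (p : Ω × Ω) : actHomP k (sW p) = sW (kl k p) :=
  liftW_s _ _ _ _

theorem actHomP_mul {Ω : Type*} (k k' : Kg Ω) (w : Wg Ω) :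
    actHomP (k * k') w = actHomP k (actHomP k' w) := by
  have : actHomP (k * k') = (actHomP k).comp (actHomP k') := homW_ext (by
    intro p; simp only [actHomP_s, MonoidHom.comp_apply]; rfl)
  rw [this]; rfl

theorem actHomP_one {Ω : Type*} (w : Wg Ω) : actHomP (1 : Kg Ω) w = w := by
  have : actHomP (1 : Kg Ω) = MonoidHom.id (Wg Ω) := homW_ext (by
    intro p; simp only [actHomP_s, MonoidHom.id_apply]; rfl)
  rw [this]; rfl

/-- the action of `K` on `W` -/
noncomputable def actK (Ω : Type*) : Kg Ω →* MulAut (Wg Ω) where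
  toFun k :=
    { toFun := actHomP k
      invFun := actHomP k⁻¹
      left_inv := fun w => by rw [← actHomP_mul, inv_mul_cancel, actHomP_one]
      right_inv := fun w => by rw [← actHomP_mul, mul_inv_cancel, actHomP_one]
      map_mul' := (actHomP k).map_mul }
  map_one' := by ext w; exact actHomP_one w
  map_mul' k k' := by ext w; exact actHomP_mul k k' w

theorem actK_s {Ω : Type*} (k : Kg Ω) (p : Ω × Ω) : actK Ω k (sW p) = sW (kl k p) :=
  actHomP_s k p

/-- the group `P = W ⋊ (Sym Ω × Sym Ω)` -/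
abbrev Pg (Ω : Type*) := Wg Ω ⋊[actK Ω] Kg Ω

/-- the dlamp elements: products of the commuting generators `s_(u,u)`, `u ∈ A` -/
noncomputable def dlamp {Ω : Type*} [DecidableEq Ω] (A : Finset Ω) : Wg Ω :=
  A.noncommProd (fun u => sW (u, u)) (by
    intro u _ v _ h
    exact sW_comm h h)

/-- `w` misses the letter `e` -/
def Misses {Ω : Type*} (w : Wg Ω) (e : Ω × Ω) : Prop :=
  w ∈ Subgroup.closure (sW '' {p | p ≠ e})

/-! ### the Grigorchuk generators on the vertices of level `m` of the binary tree -/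

/-- vertices of level `m` -/
def Om : ℕ → Type
  | 0 => Unit
  | m + 1 => Bool × Om m

instance instFintypeOm : ∀ m, Fintype (Om m)
  | 0 => inferInstanceAs (Fintype Unit)
  | m + 1 =>
    have : Fintype (Om m) := instFintypeOm m
    inferInstanceAs (Fintype (Bool × Om m))

instance instDecidableEqOm : ∀ m, DecidableEq (Om m)
  | 0 => inferInstanceAs (DecidableEq Unit)
  | m + 1 =>
    have : DecidableEq (Om m) := instDecidableEqOm m
    inferInstanceAs (DecidableEq (Bool × Om m))

instance instInhabitedOm : ∀ m, Inhabited (Om m)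
  | 0 => inferInstanceAs (Inhabited Unit)
  | m + 1 =>
    have : Inhabited (Om m) := instInhabitedOm m
    inferInstanceAs (Inhabited (Bool × Om m))

theorem card_Om : ∀ m, Fintype.card (Om m) = 2 ^ m
  | 0 => rfl
  | m + 1 => by
    have h : Fintype.card (Om (m + 1)) = Fintype.card (Bool × Om m) := rfl
    rw [h, Fintype.card_prod, card_Om m, Fintype.card_bool, pow_succ, mul_comm]

/-- the rooted flip `a` -/
def ga : (m : ℕ) → Equiv.Perm (Om m)
  | 0 => 1
  | m + 1 => (Equiv.prodCongr Equiv.boolNot (Equiv.refl (Om m)) : Equiv.Perm (Bool × Om m))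

/-- the Klein four group `{1, b, c, d}` -/
inductive B4 | o | b | c | d
  deriving DecidableEq

instance : Fintype B4 := ⟨{.o, .b, .c, .d}, fun x => by cases x <;> simp⟩

/-- multiplication -/
def B4.mul : B4 → B4 → B4
  | .o, x => x
  | x, .o => x
  | .b, .b => .o
  | .c, .c => .o
  | .d, .d => .o
  | .b, .c => .d
  | .c, .b => .d
  | .b, .d => .c
  | .d, .b => .c
  | .c, .d => .b
  | .d, .c => .b

/-- the section of `b, c` at `0` is `a`, that of `d` is trivial -/
def B4.om : B4 → Bool
  | .b => true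
  | .c => true
  | _ => false

/-- the sections at `1` -/
def B4.rho : B4 → B4
  | .o => .o
  | .b => .c
  | .c => .d
  | .d => .b

/-- weights -/
def B4.wt : B4 → ℕ
  | .o => 0
  | .b => 7
  | .c => 6
  | .d => 5

/-- the action of `B4` -/
def gb : (m : ℕ) → B4 → Equiv.Perm (Om m)
  | 0, _ => 1
  | m + 1, g => (Equiv.prodCongrRight fun x : Bool =>
      cond x (gb m g.rho) (cond g.om (ga m) 1) : Equiv.Perm (Bool × Om m))

/-- merged words `g₀ a g₁ a ⋯ a g_k` -/
inductive MW | base (g : B4) | snoc (w : MW) (g : B4)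
  deriving DecidableEq

/-- value -/
def MW.ev (m : ℕ) : MW → Equiv.Perm (Om m)
  | .base g => gb m g
  | .snoc w g => w.ev m * ga m * gb m g

/-- append the letter `a` -/
def MW.mulA (w : MW) : MW := .snoc w .o

/-- append an element of `B4` -/
def MW.mulB : MW → B4 → MW
  | .base g, h => .base (g.mul h)
  | .snoc w g, h => .snoc w (g.mul h)

/-- weight -/
def MW.wt : MW → ℕ
  | .base g => g.wt
  | .snoc w g => w.wt + 3 + g.wt

/-- parity of the number of letters `a` -/
def MW.sg : MW → Bool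
  | .base _ => false
  | .snoc w _ => !w.sg

/-- section at the target vertex `v` of the first level -/
def MW.sec : MW → Bool → MW
  | .base g, v => cond v (.base g.rho) (cond g.om (.snoc (.base .o) .o) (.base .o))
  | .snoc w g, v =>
    cond (xor v (!w.sg)) ((w.sec v).mulB g.rho) (cond g.om (w.sec v).mulA (w.sec v))

/-- the elements `h`, `h a h'` with `h, h'` in the Klein four group -/
def se (m : ℕ) (x : B4 × Bool × B4) : Equiv.Perm (Om m) :=
  gb m x.1 * cond x.2.1 (ga m) 1 * gb m x.2.2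

/-- enlarged inverted orbit -/
def MW.io (m : ℕ) : MW → Om m → Finset (Om m)
  | .base _, z => Finset.univ.image fun x : B4 × Bool × B4 => se m x z
  | .snoc w _, z =>
    w.io m z ∪ Finset.univ.image fun x : B4 × Bool × B4 => (w.ev m * ga m) (se m x z)

/-- codes: trees of depth `L` of merged words -/
def Cd : ℕ → Type
  | 0 => MW
  | L + 1 => Bool × Cd L × Cd L

/-- the code of a merged word -/
def Cd.of : (L : ℕ) → MW → Cd L
  | 0, w => w
  | L + 1, w => (w.sg, Cd.of L (w.sec false), Cd.of L (w.sec true))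

/-- total weight of the leaves -/
def Cd.wt : (L : ℕ) → Cd L → ℕ
  | 0, w => MW.wt w
  | L + 1, t => Cd.wt L t.2.1 + Cd.wt L t.2.2

/-- the action of a code on the vertices of level `m + L` -/
def Cd.ev (m : ℕ) : (L : ℕ) → Cd L → Om (m + L) → Om (m + L)
  | 0, w => fun z => MW.ev m w z
  | L + 1, t => fun z =>
    (xor z.1 t.1, Cd.ev m L (cond (xor z.1 t.1) t.2.2 t.2.1) z.2)

/-- the inverted orbit bound attached to a code -/
def Cd.io (m : ℕ) : (L : ℕ) → Cd L → Om (m + L) → Finset (Om (m + L))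
  | 0, w => fun z => MW.io m w z
  | L + 1, t => fun z =>
    ((Cd.io m L t.2.1 z.2).image fun y => ((false, y) : Bool × Om (m + L))) ∪
      ((Cd.io m L t.2.2 z.2).image fun y => ((true, y) : Bool × Om (m + L)))

/-- the letters `a, b, c, d` -/
inductive Q4 | a | b | c | d
  deriving DecidableEq

instance : Fintype Q4 := ⟨{.a, .b, .c, .d}, fun x => by cases x <;> simp⟩

/-- their action -/
def gq (m : ℕ) : Q4 → Equiv.Perm (Om m)
  | .a => ga m
  | .b => gb m .b
  | .c => gb m .c
  | .d => gb m .d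

/-- append a letter -/
def MW.mulQ (w : MW) : Q4 → MW
  | .a => w.mulA
  | .b => w.mulB .b
  | .c => w.mulB .c
  | .d => w.mulB .d

/-- the generators of `P` : `(q, q)`, `(swap y (s y), 1)`, `(1, swap y (s y))` and `s_(x₀,x₀)` -/
inductive TL | q (g : Q4) | l (g : Q4) | r (g : Q4) | t
  deriving DecidableEq

instance : Fintype TL :=
  ⟨(Finset.univ : Finset Q4).image TL.q ∪ (Finset.univ : Finset Q4).image TL.l ∪
    (Finset.univ : Finset Q4).image TL.r ∪ {.t}, fun x => by cases x <;> simp⟩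

/-- value of a generator of `P` -/
noncomputable def TL.val (m : ℕ) (x₀ y : Om m) : TL → Pg (Om m)
  | .q g => SemidirectProduct.inr (gq m g, gq m g)
  | .l g => SemidirectProduct.inr (Equiv.swap y (gq m g y), 1)
  | .r g => SemidirectProduct.inr (1, Equiv.swap y (gq m g y))
  | .t => SemidirectProduct.inl (sW (x₀, x₀))

/-- the generating set of `P` -/
noncomputable def Tset (m : ℕ) (x₀ y : Om m) : Finset (Pg (Om m)) :=
  haveI := Classical.decEq (Pg (Om m))
  (Finset.univ.image (TL.val m x₀ y)).erase 1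

/-- the ball of radius `n` around `x` in the Schreier graph -/
def Sball (m : ℕ) (x : Om m) : ℕ → Finset (Om m)
  | 0 => {x}
  | n + 1 => Sball m x n ∪ (Sball m x n ×ˢ Finset.univ).image fun p : Om m × Q4 => gq m p.2 p.1

end Pool.Agent.Lib.MP_c23930_al
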