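import Pool.Agent.Lib.MP_c23930_al.Approx

/-!
# A rank inequality over sofic groups
-/

set_option autoImplicit false

namespace Pool.Agent.Lib.MP_c23930_al

open Finset

variable {G : Type} [Group G]

/-- Left translation on the finitely supported functions `G → K`. -/
noncomputable def shift (K : Type) [Field K] (g : G) : (G →₀ K) →ₗ[K] (G →₀ K) :=
  Finsupp.lmapDomain K K (g * ·)

variable {K : Type} [Field K]

@[simp] theorem shift_single (g h : G) (c : K) :
    shift K g (Finsupp.single h c) = Finsupp.single (g * h) c := by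
  simp [shift]

@[simp] theorem shift_one (f : G →₀ K) : shift K (1 : G) f = f := by
  simp only [shift, Finsupp.lmapDomain_apply, one_mul]
  exact Finsupp.mapDomain_id

theorem shift_mul (g h : G) (f : G →₀ K) : shift K (g * h) f = shift K g (shift K h f) := by
  simp only [shift, Finsupp.lmapDomain_apply]
  rw [← Finsupp.mapDomain_comp]
  congr 1
  funext x
  simp [mul_assoc]

/-- The translates of the pairs `(a i, b i)`. -/
noncomputable def uvec {ι : Type} (a b : ι → G →₀ K) (p : G × ι) : (G →₀ K) × (G →₀ K) :=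
  (shift K p.1 (a p.2), shift K p.1 (b p.2))

section chart

variable {n : ℕ} (τ : G → Equiv.Perm (Fin n))

/-- The linear map induced by the chart `h ↦ τ h y`. -/
noncomputable def chart (K : Type) [Field K] (y : Fin n) :
    ((G →₀ K) × (G →₀ K)) →ₗ[K] ((Fin n →₀ K) × (Fin n →₀ K)) :=
  (Finsupp.lmapDomain K K (fun h => τ h y)).prodMap (Finsupp.lmapDomain K K (fun h => τ h y))

theorem chart_uvec {ι : Type} (a b : ι → G →₀ K) (x : Fin n) (g : G) (i : ι)
    (ha : ∀ h ∈ (a i).support, τ (g * h) x = τ h (τ g x))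
    (hb : ∀ h ∈ (b i).support, τ (g * h) x = τ h (τ g x)) :
    chart τ K (τ g x) (a i, b i) = chart τ K x (uvec a b (g, i)) := by
  simp only [chart, uvec, shift, LinearMap.prodMap_apply, Finsupp.lmapDomain_apply]
  rw [← Finsupp.mapDomain_comp, ← Finsupp.mapDomain_comp]
  congr 1
  · exact Finsupp.mapDomain_congr fun h hh => by simp [ha h hh]
  · exact Finsupp.mapDomain_congr fun h hh => by simp [hb h hh]

end chart

theorem span_uvec_mono {ι : Type} (a b : ι → G →₀ K) {A B : Set G} (h : A ⊆ B) :
    Submodule.span K (uvec a b '' {p | p.1 ∈ A}) ≤ Submodule.span K (uvec a b '' {p | p.1 ∈ B}) :=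
  Submodule.span_mono (Set.image_mono fun _ hp => h hp)

/-- Elements of the span of all translates are in the span of finitely many. -/
theorem exists_finset_mem {ι : Type} [DecidableEq G] (a b : ι → G →₀ K)
    (v : (G →₀ K) × (G →₀ K)) (hv : v ∈ Submodule.span K (Set.range (uvec a b))) :
    ∃ T : Finset G, v ∈ Submodule.span K (uvec a b '' {p | p.1 ∈ (T : Set G)}) := by
  obtain ⟨c, hc⟩ := (Finsupp.mem_span_range_iff_exists_finsupp).mp hv
  refine ⟨c.support.image Prod.fst, ?_⟩
  rw [← hc]
  refine Submodule.sum_mem _ fun p hp => Submodule.smul_mem _ _ (Submodule.subset_span ⟨p, ?_, rfl⟩)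
  simp only [coe_image, Set.mem_ofPred_eq]
  exact ⟨p, hp, rfl⟩

end Pool.Agent.Lib.MP_c23930_al
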