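import Pool.Agent.Lib.MP_c23930_al.Rank

/-!
# Linear algebra in a finite model of a sofic group
-/

set_option autoImplicit false

namespace Pool.Agent.Lib.MP_c23930_al

open Finset

variable {G : Type} {K : Type} [Field K]

/-- Nonzero vectors such that every coordinate is used by at most `k` of them span a space of dimension at
least the number of vectors divided by `k`. -/
theorem card_le_mul_finrank [DecidableEq K] {X : Type} [DecidableEq X] {n : ℕ} (v : X → (Fin n →₀ K)) (k : ℕ) :
    ∀ (N : ℕ) (A : Finset X), A.card ≤ N → (∀ x ∈ A, v x ≠ 0) →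
      (∀ y, (A.filter fun x => v x y ≠ 0).card ≤ k) →
      A.card ≤ k * Module.finrank K (Submodule.span K (v '' (A : Set X))) := by
  intro N
  induction N with
  | zero =>
    intro A hA _ _
    omega
  | succ N ih =>
    intro A hA hne hk
    rcases A.eq_empty_or_nonempty with rfl | ⟨x0, hx0⟩
    · simp
    obtain ⟨y0, hy0⟩ : ∃ y, v x0 y ≠ 0 := by
      by_contra hcon
      push Not at hcon
      exact hne x0 hx0 (Finsupp.ext hcon)
    set A' := A.filter fun x => ¬ v x y0 ≠ 0 with hA'
    have hsplit : (A.filter fun x => v x y0 ≠ 0).card + A'.card = A.card :=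
      card_filter_add_card_filter_not (s := A) (fun x => v x y0 ≠ 0)
    have hpos : 1 ≤ (A.filter fun x => v x y0 ≠ 0).card :=
      card_pos.mpr ⟨x0, mem_filter.mpr ⟨hx0, hy0⟩⟩
    have hsub : A' ⊆ A := filter_subset _ _
    have h1 := ih A' (by omega) (fun x hx => hne x (hsub hx)) (fun y =>
      (card_le_card (filter_subset_filter _ hsub)).trans (hk y))
    have hlt : Submodule.span K (v '' (A' : Set X)) < Submodule.span K (v '' (A : Set X)) := by
      refine lt_of_le_of_ne (Submodule.span_mono (Set.image_mono (coe_subset.mpr hsub))) ?_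
      intro heq
      have hmem : v x0 ∈ Submodule.span K (v '' (A' : Set X)) := by
        rw [heq]; exact Submodule.subset_span ⟨x0, hx0, rfl⟩
      have hker : Submodule.span K (v '' (A' : Set X)) ≤ LinearMap.ker (Finsupp.lapply (R := K) y0) := by
        rw [Submodule.span_le]
        rintro _ ⟨x, hx, rfl⟩
        have := (mem_filter.mp (mem_coe.mp hx)).2
        rw [SetLike.mem_coe, LinearMap.mem_ker, Finsupp.lapply_apply]
        exact not_not.mp this
      have := hker hmem
      rw [LinearMap.mem_ker, Finsupp.lapply_apply] at this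
      exact hy0 this
    have h2 := Submodule.finrank_lt_finrank_of_lt hlt
    have h3 := hk y0
    calc A.card = (A.filter fun x => v x y0 ≠ 0).card + A'.card := hsplit.symm
      _ ≤ k + k * Module.finrank K (Submodule.span K (v '' (A' : Set X))) := Nat.add_le_add h3 h1
      _ = k * (Module.finrank K (Submodule.span K (v '' (A' : Set X))) + 1) := by ring
      _ ≤ _ := Nat.mul_le_mul_left _ h2

/-- Linear algebra in a finite model: if `V` contains nonzero vectors `(v x, 0)`, every coordinate being used
at most `k` times, and vectors `(*, τ g x - x)`, `g ∈ Q`, for all good `x`, then it is large. -/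
theorem finrank_model [DecidableEq K] {n : ℕ} (τ : G → Equiv.Perm (Fin n)) (Bad : Finset (Fin n)) (Q : Finset G)
    (hQ : Q.Nonempty) (hinj : ∀ x, x ∉ Bad → ∀ g ∈ Q, ∀ h ∈ Q, τ g x = τ h x → g = h)
    (V : Submodule K ((Fin n →₀ K) × (Fin n →₀ K))) (k : ℕ) (v : Fin n → (Fin n →₀ K))
    (hv0 : ∀ x, x ∉ Bad → v x ≠ 0) (hvk : ∀ y, (univ.filter fun x => v x y ≠ 0).card ≤ k)
    (hV1 : ∀ x, x ∉ Bad → (v x, 0) ∈ V)
    (hV2 : ∀ x, x ∉ Bad → ∀ g ∈ Q, ∃ f, (f, Finsupp.single (τ g x) 1 - Finsupp.single x 1) ∈ V) :
    (k + 1) * n * Q.card ≤ (k * Module.finrank K V + (k + 1) * Bad.card) * Q.card + k * n := by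
  classical
  set star : Fin n → Finset (Fin n) := fun x => Q.image fun g => τ g x with hstar
  set Good : Finset (Fin n) := univ.filter fun x => x ∉ Bad with hGood
  set 𝒴 : Finset (Finset (Fin n)) := Good.powerset.filter fun Y =>
    (Y : Set (Fin n)).PairwiseDisjoint star with h𝒴
  have hne : 𝒴.Nonempty := ⟨∅, by simp [h𝒴]⟩
  obtain ⟨Y, hY, hmax⟩ := exists_max_image 𝒴 card hne
  rw [h𝒴, mem_filter, mem_powerset] at hY
  obtain ⟨hYG, hYd⟩ := hY
  -- the stars of `Y` have `Q.card` elements
  have hYcard : Y.card * Q.card ≤ n := by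
    have h1 : (Y.biUnion star).card = ∑ x ∈ Y, (star x).card := card_biUnion hYd
    have h2 : ∀ x ∈ Y, (star x).card = Q.card := by
      intro x hx
      have hxb : x ∉ Bad := (mem_filter.mp (hYG hx)).2
      exact card_image_of_injOn fun g hg h hh hgh => hinj x hxb g hg h hh hgh
    rw [sum_congr rfl h2, sum_const, smul_eq_mul] at h1
    rw [← h1]
    exact (card_le_univ _).trans (by simp)
  -- every good point is linked to a point of `Y`
  have hlink : ∀ x, x ∉ Bad → ∃ y ∈ Y, ∃ g ∈ Q, ∃ h ∈ Q, τ g x = τ h y := by
    intro x hx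
    by_cases hxY : x ∈ Y
    · obtain ⟨g, hg⟩ := hQ
      exact ⟨x, hxY, g, hg, g, hg, rfl⟩
    by_contra hcon
    push Not at hcon
    have hins : insert x Y ∈ 𝒴 := by
      rw [h𝒴, mem_filter, mem_powerset]
      refine ⟨?_, ?_⟩
      · intro z hz
        rcases mem_insert.mp hz with rfl | hz
        · exact mem_filter.mpr ⟨mem_univ _, hx⟩
        · exact hYG hz
      · rw [coe_insert]
        refine hYd.insert fun y hy _ => ?_
        rw [Finset.disjoint_left]
        intro z hz1 hz2
        rw [hstar] at hz1 hz2
        obtain ⟨g, hg, rfl⟩ := mem_image.mp hz1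
        obtain ⟨h, hh, hgh⟩ := mem_image.mp hz2
        exact hcon y hy g hg h hh hgh.symm
    have := hmax _ hins
    rw [card_insert_of_notMem hxY] at this
    omega
  -- the second coordinates
  set V2 : Submodule K (Fin n →₀ K) := V.map (LinearMap.snd K _ _) with hV2def
  have hV2' : ∀ x, x ∉ Bad → ∀ g ∈ Q, Finsupp.single (τ g x) 1 - Finsupp.single x 1 ∈ V2 := by
    intro x hx g hg
    obtain ⟨f, hf⟩ := hV2 x hx g hg
    exact ⟨_, hf, rfl⟩
  set e2 : Fin n → (Fin n →₀ K) := fun x => Finsupp.single x 1 with he2
  set W : Submodule K (Fin n →₀ K) :=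
    V2 ⊔ Submodule.span K (((Y ∪ Bad).image e2 : Finset _) : Set _) with hW
  have hVW : V2 ≤ W := le_sup_left
  have hW2 : Submodule.span K (((Y ∪ Bad).image e2 : Finset _) : Set _) ≤ W := le_sup_right
  have hm2 : ∀ x, e2 x ∈ W := by
    intro x
    by_cases hx : x ∈ Bad
    · exact hW2 (Submodule.subset_span (by
        exact_mod_cast mem_image_of_mem e2 (mem_union_right Y hx)))
    · obtain ⟨y, hy, g, hg, h, hh, hgh⟩ := hlink x hx
      have hyb : y ∉ Bad := (mem_filter.mp (hYG hy)).2
      have m1 := hVW (hV2' x hx g hg)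
      have m2 := hVW (hV2' y hyb h hh)
      have m3 : e2 y ∈ W := hW2 (Submodule.subset_span (by
        exact_mod_cast mem_image_of_mem e2 (mem_union_left Bad hy)))
      have heq : e2 x = - (Finsupp.single (τ g x) 1 - Finsupp.single x 1) +
          (Finsupp.single (τ h y) 1 - Finsupp.single y 1) + e2 y := by
        rw [he2, hgh]
        simp
      rw [heq]
      exact W.add_mem (W.add_mem (W.neg_mem m1) m2) m3
  have htop : W = ⊤ := by
    rw [Submodule.eq_top_iff']
    intro f
    induction f using Finsupp.induction_linear with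
    | zero => exact W.zero_mem
    | add f g hf hg => exact W.add_mem hf hg
    | single x c =>
      have : (Finsupp.single x c : Fin n →₀ K) = c • e2 x := by simp [he2]
      rw [this]; exact W.smul_mem _ (hm2 x)
  have hfrW : n ≤ Module.finrank K V2 + (Y.card + Bad.card) := by
    have h0 : Module.finrank K W = n := by
      rw [htop, finrank_top, Module.finrank_finsupp_self, Fintype.card_fin]
    have h1 := Submodule.finrank_add_le_finrank_add_finrank V2
      (Submodule.span K (((Y ∪ Bad).image e2 : Finset _) : Set _))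
    have h4 : Module.finrank K (Submodule.span K
        (((Y ∪ Bad).image e2 : Finset _) : Set (Fin n →₀ K))) ≤ Y.card + Bad.card :=
      ((finrank_span_finset_le_card _).trans card_image_le).trans (card_union_le _ _)
    calc n = Module.finrank K W := h0.symm
      _ ≤ _ := h1.trans (Nat.add_le_add_left h4 _)
  -- the first coordinates
  set V1 : Submodule K (Fin n →₀ K) := Submodule.span K (v '' (Good : Set (Fin n))) with hV1def
  have hV1card : n ≤ k * Module.finrank K V1 + Bad.card := by
    have h1 := card_le_mul_finrank v k Good.card Good le_rfl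
      (fun x hx => hv0 x (mem_filter.mp hx).2) (fun y =>
        (card_le_card (filter_subset_filter _ (filter_subset _ _))).trans (hvk y))
    have h2 := card_filter_add_card_filter_not (s := (univ : Finset (Fin n))) (fun x => x ∉ Bad)
    rw [card_univ, Fintype.card_fin] at h2
    have h3 : (univ.filter fun x : Fin n => ¬ x ∉ Bad).card = Bad.card := by
      congr 1; ext x; simp
    rw [h3] at h2
    have h4 : Good.card + Bad.card = n := h2
    calc n = Good.card + Bad.card := h4.symm
      _ ≤ _ := Nat.add_le_add_right h1 _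
  have hsum : Module.finrank K V1 + Module.finrank K V2 ≤ Module.finrank K V := by
    set f : V →ₗ[K] (Fin n →₀ K) := (LinearMap.snd K _ _).domRestrict V with hf
    have h1 := LinearMap.finrank_range_add_finrank_ker (K := K) (V := V) (V₂ := Fin n →₀ K) f
    have h2 : LinearMap.range f = V2 := by
      rw [hf, LinearMap.range_domRestrict]
    have hle : V1 ≤ V.comap (LinearMap.inl K (Fin n →₀ K) (Fin n →₀ K)) := by
      rw [hV1def, Submodule.span_le]
      rintro _ ⟨x, hx, rfl⟩
      exact hV1 x (mem_filter.mp (mem_coe.mp hx)).2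
    have h3 : Module.finrank K V1 ≤ Module.finrank K (LinearMap.ker f) := by
      let g : V1 →ₗ[K] V := ((LinearMap.inl K (Fin n →₀ K) (Fin n →₀ K)).domRestrict V1).codRestrict V
        (fun x => hle x.2)
      let g' : V1 →ₗ[K] LinearMap.ker f := g.codRestrict (LinearMap.ker f) (fun x => by
        rw [LinearMap.mem_ker]; rfl)
      refine LinearMap.finrank_le_finrank_of_injective (f := g') ?_
      intro x y hxy
      have h5 : ((g' x).1.1).1 = ((g' y).1.1).1 := by rw [hxy]
      exact Subtype.ext h5
    rw [h2] at h1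
    omega
  calc (k + 1) * n * Q.card = (k * n + n) * Q.card := by ring
    _ ≤ (k * (Module.finrank K V2 + (Y.card + Bad.card)) + (k * Module.finrank K V1 + Bad.card)) *
        Q.card := Nat.mul_le_mul_right _ (Nat.add_le_add (Nat.mul_le_mul_left _ hfrW) hV1card)
    _ = (k * (Module.finrank K V1 + Module.finrank K V2) + (k + 1) * Bad.card) * Q.card +
        k * (Y.card * Q.card) := by ring
    _ ≤ (k * Module.finrank K V + (k + 1) * Bad.card) * Q.card + k * n := by
        gcongr

end Pool.Agent.Lib.MP_c23930_al
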