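import Pool.Agent.Lib.MP_c23930_al.Rank2

/-!
# The rank inequality over infinite sofic groups
-/

set_option autoImplicit false

namespace Pool.Agent.Lib.MP_c23930_al

open Finset

variable {G : Type} [Group G] {K : Type} [Field K]

/-- A subfamily indexed by a set of points of the finite model. -/
theorem card_le_of_indep {ι : Type} [Fintype ι] {n : ℕ} (τ : G → Equiv.Perm (Fin n))
    (a b : ι → G →₀ K) [DecidableEq ι] [DecidableEq G]
    (Φ : Fin n × ι → (Fin n →₀ K) × (Fin n →₀ K))
    (hΦ : ∀ q, Φ q = chart τ K q.1 (a q.2, b q.2))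
    (B : Finset (Fin n × ι)) (hB : LinearIndepOn K Φ (B : Set (Fin n × ι)))
    (T : Finset G) (x : Fin n)
    (hmul : ∀ g ∈ T, ∀ i, (∀ h ∈ (a i).support, τ (g * h) x = τ h (τ g x)) ∧
      (∀ h ∈ (b i).support, τ (g * h) x = τ h (τ g x)))
    (hinj : ∀ g ∈ T, ∀ h ∈ T, τ g x = τ h x → g = h) :
    ∑ g ∈ T, (B.filter fun q => q.1 = τ g x).card ≤
      Module.finrank K (Submodule.span K (uvec a b '' {p | p.1 ∈ (T : Set G)})) := by
  classical
  have hfin : Set.Finite {p : G × ι | p.1 ∈ (T : Set G)} := by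
    have : {p : G × ι | p.1 ∈ (T : Set G)} = ((T ×ˢ (univ : Finset ι) : Finset (G × ι)) : Set _) := by
      ext p; simp
    rw [this]; exact Finset.finite_toSet _
  have : FiniteDimensional K (Submodule.span K (uvec a b '' {p | p.1 ∈ (T : Set G)})) :=
    FiniteDimensional.span_of_finite K (hfin.image _)
  set B' : Finset (Fin n × ι) := T.biUnion fun g => B.filter fun q => q.1 = τ g x with hB'
  have hcard : ∑ g ∈ T, (B.filter fun q => q.1 = τ g x).card = B'.card := by
    rw [hB', card_biUnion]
    intro g hg h hh hne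
    rw [Function.onFun, Finset.disjoint_left]
    intro q hq1 hq2
    apply hne
    apply hinj g hg h hh
    rw [← (mem_filter.mp hq1).2, ← (mem_filter.mp hq2).2]
  rw [hcard]
  have hsub : (B' : Set (Fin n × ι)) ⊆ B := by
    intro q hq
    obtain ⟨g, _, hq⟩ := mem_biUnion.mp hq
    exact (mem_filter.mp hq).1
  have hli : LinearIndepOn K Φ (B' : Set (Fin n × ι)) := hB.mono hsub
  have hli' : LinearIndependent K (fun q : B' => Φ q.1) := hli
  have h1 := finrank_span_eq_card hli'
  rw [Fintype.card_coe] at h1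
  rw [← h1]
  have hle : Submodule.span K (Set.range fun q : B' => Φ q.1) ≤
      (Submodule.span K (uvec a b '' {p | p.1 ∈ (T : Set G)})).map (chart τ K x) := by
    rw [Submodule.span_le]
    rintro _ ⟨⟨⟨y, i⟩, hq⟩, rfl⟩
    obtain ⟨g, hg, hq⟩ := mem_biUnion.mp hq
    have hy : y = τ g x := (mem_filter.mp hq).2
    refine ⟨uvec a b (g, i), Submodule.subset_span ⟨(g, i), hg, rfl⟩, ?_⟩
    change _ = Φ (y, i)
    rw [hΦ, hy]
    exact (chart_uvec τ a b x g i (hmul g hg i).1 (hmul g hg i).2).symm
  calc Module.finrank K (Submodule.span K (Set.range fun q : B' => Φ q.1))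
      ≤ Module.finrank K ((Submodule.span K (uvec a b '' {p | p.1 ∈ (T : Set G)})).map
          (chart τ K x)) := Submodule.finrank_mono hle
    _ ≤ _ := Submodule.finrank_map_le _ _

omit [Group G] in
/-- Double counting in the finite model. -/
theorem double_count {ι : Type} [Fintype ι] [DecidableEq ι] {n : ℕ} (τ : G → Equiv.Perm (Fin n))
    (Bad : Finset (Fin n)) (T : Finset G) (B : Finset (Fin n × ι)) :
    T.card * B.card ≤ (∑ x ∈ univ.filter (fun x => x ∉ Bad), ∑ g ∈ T,
      (B.filter fun q => q.1 = τ g x).card) + T.card * (Bad.card * Fintype.card ι) := by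
  classical
  rw [sum_comm]
  have key : ∀ g ∈ T, B.card ≤ (∑ x ∈ univ.filter (fun x => x ∉ Bad),
      (B.filter fun q => q.1 = τ g x).card) + Bad.card * Fintype.card ι := by
    intro g _
    have h1 : (∑ x ∈ univ.filter (fun x => x ∉ Bad), (B.filter fun q => q.1 = τ g x).card) =
        (B.filter fun q => (τ g).symm q.1 ∉ Bad).card := by
      rw [card_eq_sum_card_fiberwise (f := fun q : Fin n × ι => (τ g).symm q.1)
        (t := univ.filter (fun x => x ∉ Bad)) (fun q hq => by
          rw [mem_coe, mem_filter] at hq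
          simpa using hq.2)]
      refine sum_congr rfl fun x hx => ?_
      congr 1
      ext q
      simp only [mem_filter]
      constructor
      · rintro ⟨hq, h⟩
        refine ⟨⟨hq, ?_⟩, by rw [h]; simp⟩
        rw [h]; simpa using (mem_filter.mp hx).2
      · rintro ⟨⟨hq, _⟩, h⟩
        exact ⟨hq, by rw [← h]; simp⟩
    have h2 : (B.filter fun q => ¬ (τ g).symm q.1 ∉ Bad).card ≤ Bad.card * Fintype.card ι := by
      have : (Bad ×ˢ (univ : Finset ι)).card = Bad.card * Fintype.card ι := by
        rw [card_product, card_univ]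
      rw [← this]
      refine card_le_card_of_injOn (fun q => ((τ g).symm q.1, q.2)) ?_ ?_
      · intro q hq
        have := (mem_filter.mp hq).2
        simpa using this
      · rintro ⟨x, i⟩ _ ⟨y, j⟩ _ h
        simpa using h
    have h3 := card_filter_add_card_filter_not (s := B) (fun q => (τ g).symm q.1 ∉ Bad)
    omega
  calc T.card * B.card = ∑ g ∈ T, B.card := by rw [sum_const, smul_eq_mul]
    _ ≤ ∑ g ∈ T, ((∑ x ∈ univ.filter (fun x => x ∉ Bad),
      (B.filter fun q => q.1 = τ g x).card) + Bad.card * Fintype.card ι) := sum_le_sum key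
    _ = _ := by rw [sum_add_distrib, sum_const, smul_eq_mul]

/-- Over an infinite sofic group: if the translates of the pairs `(a i, b i)` span `(α, 0)`, `α ≠ 0`, and
elements `(*, g - 1)` for all `g`, then the translates by any finite set `T` span a space of dimension at
least `(1 + 1 / k) |T|`, where `k` is the size of the support of `α`. -/
theorem rank_ge [Infinite G] (hG : Sofic G) {ι : Type} [Fintype ι] (a b : ι → G →₀ K)
    (α : G →₀ K) (hα : α ≠ 0)
    (h1 : (α, 0) ∈ Submodule.span K (Set.range (uvec a b)))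
    (h2 : ∀ g : G, ∃ f, (f, Finsupp.single g 1 - Finsupp.single 1 1) ∈
      Submodule.span K (Set.range (uvec a b)))
    (T : Finset G) :
    (α.support.card + 1) * T.card ≤ α.support.card *
      Module.finrank K (Submodule.span K (uvec a b '' {p | p.1 ∈ (T : Set G)})) := by
  classical
  rcases T.eq_empty_or_nonempty with rfl | hTne
  · simp
  set k := α.support.card with hk
  have hkpos : 0 < k := card_pos.mpr (Finsupp.support_nonempty_iff.mpr hα)
  set t := T.card with ht
  have htpos : 0 < t := card_pos.mpr hTne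
  set r := Module.finrank K (Submodule.span K (uvec a b '' {p | p.1 ∈ (T : Set G)})) with hr
  obtain ⟨Q, hQcard⟩ := Infinite.exists_subset_card_eq G (4 * k * t)
  have hQpos : 0 < 4 * k * t := by positivity
  have hQne : Q.Nonempty := card_pos.mp (by omega)
  obtain ⟨T1, hT1⟩ := exists_finset_mem a b _ h1
  choose fg hfg using h2
  choose Tg hTg using fun g => exists_finset_mem a b _ (hfg g)
  set T0 : Finset G := T1 ∪ Q.biUnion Tg with hT0
  have hm1 : (α, 0) ∈ Submodule.span K (uvec a b '' {p | p.1 ∈ (T0 : Set G)}) :=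
    span_uvec_mono a b (by rw [hT0, coe_union]; exact Set.subset_union_left) hT1
  have hm2 : ∀ g ∈ Q, (fg g, Finsupp.single g 1 - Finsupp.single 1 1) ∈
      Submodule.span K (uvec a b '' {p | p.1 ∈ (T0 : Set G)}) := fun g hg =>
    span_uvec_mono a b (by
      rw [hT0, coe_union]
      intro y hy
      exact Or.inr (mem_coe.mpr (mem_biUnion.mpr ⟨g, hg, mem_coe.mp hy⟩))) (hTg g)
  set Sup : Finset G := univ.biUnion fun i : ι => (a i).support ∪ (b i).support with hSup
  set R0 : Finset G := insert 1 (T ∪ T0 ∪ Q ∪ Sup ∪ α.support) with hR0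
  set R : Finset G := R0 ∪ R0.image (·⁻¹) ∪ (R0 ×ˢ R0).image fun p => p.1 * p.2⁻¹ with hR
  have hsub0 : R0 ⊆ R := by rw [hR]; intro y hy; simp [hy]
  have hinv0 : ∀ g ∈ R0, g⁻¹ ∈ R := fun g hg => by
    rw [hR]; refine mem_union_left _ (mem_union_right _ (mem_image_of_mem _ hg))
  have hdiv0 : ∀ g ∈ R0, ∀ h ∈ R0, g * h⁻¹ ∈ R := fun g hg h hh => by
    rw [hR]
    exact mem_union_right _ (mem_image.mpr ⟨(g, h), mem_product.mpr ⟨hg, hh⟩, rfl⟩)
  have hTR : T ⊆ R0 := fun y hy => by rw [hR0]; simp [hy]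
  have hT0R : T0 ⊆ R0 := fun y hy => by rw [hR0]; simp [hy]
  have hQR : Q ⊆ R0 := fun y hy => by rw [hR0]; simp [hy]
  have hαR : α.support ⊆ R0 := fun y hy => by
    rw [hR0]; exact mem_insert_of_mem (mem_union_right _ hy)
  have haR : ∀ i, ∀ h ∈ (a i).support, h ∈ R0 := fun i h hh => by
    rw [hR0]
    refine mem_insert_of_mem (mem_union_left _ (mem_union_right _ ?_))
    rw [hSup]
    exact mem_biUnion.mpr ⟨i, mem_univ _, mem_union_left _ hh⟩
  have hbR : ∀ i, ∀ h ∈ (b i).support, h ∈ R0 := fun i h hh => by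
    rw [hR0]
    refine mem_insert_of_mem (mem_union_left _ (mem_union_right _ ?_))
    rw [hSup]
    exact mem_biUnion.mpr ⟨i, mem_univ _, mem_union_right _ hh⟩
  set c : ℝ := 4 * t * (k + 1) * (Fintype.card ι + 2) with hc
  have htr : (0 : ℝ) < t := by exact_mod_cast htpos
  have hkr : (0 : ℝ) < k := by exact_mod_cast hkpos
  have hcpos : 0 < c := by positivity
  obtain ⟨n, τ, Bad, hn, hBad, hgood⟩ := hG.approx R (1 / c) (by positivity)
  have hnr : (0 : ℝ) < n := by exact_mod_cast hn
  have hmul : ∀ x, x ∉ Bad → ∀ g ∈ R0, ∀ i,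
      (∀ h ∈ (a i).support, τ (g * h) x = τ h (τ g x)) ∧
      (∀ h ∈ (b i).support, τ (g * h) x = τ h (τ g x)) := fun x hx g hg i =>
    ⟨fun h hh => (hgood x hx).1 g (hsub0 hg) h (hsub0 (haR i h hh)),
      fun h hh => (hgood x hx).1 g (hsub0 hg) h (hsub0 (hbR i h hh))⟩
  have hinj : ∀ x, x ∉ Bad → ∀ g ∈ R0, ∀ h ∈ R0, τ g x = τ h x → g = h := by
    intro x hx g hg h hh heq
    by_contra hne
    obtain ⟨hm, hf, h1x⟩ := hgood x hx
    have e1 := hm g (hsub0 hg) g⁻¹ (hinv0 g hg)
    have e2 := hm h (hsub0 hh) g⁻¹ (hinv0 g hg)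
    rw [mul_inv_cancel, h1x] at e1
    rw [← heq, ← e1] at e2
    exact hf (h * g⁻¹) (hdiv0 h hh g hg) (fun h' => hne (mul_inv_eq_one.mp h').symm) e2
  set Φ : Fin n × ι → (Fin n →₀ K) × (Fin n →₀ K) := fun q => chart τ K q.1 (a q.2, b q.2) with hΦ
  obtain ⟨B0, _, _, hspan, hli⟩ := exists_linearIndepOn_extension
    (K := K) (v := Φ) (s := ∅) (t := Set.univ) (linearIndepOn_empty K Φ) (Set.empty_subset _)
  set B : Finset (Fin n × ι) := (Set.toFinite B0).toFinset with hB
  have hBB : (B : Set (Fin n × ι)) = B0 := by rw [hB]; exact Set.Finite.coe_toFinset _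
  set V : Submodule K ((Fin n →₀ K) × (Fin n →₀ K)) := Submodule.span K (Set.range Φ) with hV
  have hliB : LinearIndepOn K Φ (B : Set (Fin n × ι)) := by rw [hBB]; exact hli
  have hVB : Module.finrank K V ≤ B.card := by
    have hle : V ≤ Submodule.span K ((B.image Φ : Finset _) : Set _) := by
      rw [hV, Submodule.span_le, coe_image, hBB]
      rw [Set.image_univ] at hspan
      exact hspan
    exact (Submodule.finrank_mono hle).trans ((finrank_span_finset_le_card _).trans card_image_le)
  have hchartV : ∀ x, x ∉ Bad → ∀ v ∈ Submodule.span K (uvec a b '' {p | p.1 ∈ (T0 : Set G)}),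
      chart τ K x v ∈ V := by
    intro x hx v hv
    have : Submodule.span K (uvec a b '' {p | p.1 ∈ (T0 : Set G)}) ≤ V.comap (chart τ K x) := by
      rw [Submodule.span_le]
      rintro _ ⟨⟨g, i⟩, hg, rfl⟩
      rw [SetLike.mem_coe, Submodule.mem_comap]
      have hg0 : g ∈ R0 := hT0R hg
      rw [← chart_uvec τ a b x g i (hmul x hx g hg0 i).1 (hmul x hx g hg0 i).2]
      exact Submodule.subset_span ⟨(τ g x, i), rfl⟩
    exact this hv
  set v : Fin n → (Fin n →₀ K) := fun x => Finsupp.mapDomain (fun h => τ h x) α with hv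
  have hv0 : ∀ x, x ∉ Bad → v x ≠ 0 := by
    intro x hx h0
    obtain ⟨g, hg⟩ := Finsupp.support_nonempty_iff.mpr hα
    have h3 : v x (τ g x) = α g := Finsupp.mapDomain_apply' (S := (α.support : Set G)) α
      (Set.Subset.refl _) (fun g hg h hh hgh => hinj x hx g (hαR hg) h (hαR hh) hgh) hg
    rw [h0] at h3
    exact (Finsupp.mem_support_iff.mp hg) h3.symm
  have hvk : ∀ y, (univ.filter fun x => v x y ≠ 0).card ≤ k := by
    intro y
    have hsub : (univ.filter fun x => v x y ≠ 0) ⊆ α.support.image fun g => (τ g).symm y := by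
      intro x hx
      have h3 : y ∈ (v x).support := Finsupp.mem_support_iff.mpr (mem_filter.mp hx).2
      have h4 := Finsupp.mapDomain_support h3
      obtain ⟨g, hg, hgy⟩ := mem_image.mp h4
      exact mem_image.mpr ⟨g, hg, by rw [← hgy]; simp⟩
    exact (card_le_card hsub).trans card_image_le
  have hmodel := finrank_model τ Bad Q hQne
    (fun x hx g hg h hh => hinj x hx g (hQR hg) h (hQR hh)) V k v hv0 hvk
    (fun x hx => by
      have := hchartV x hx _ hm1
      simpa [chart] using this)
    (fun x hx g hg => by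
      have := hchartV x hx _ (hm2 g hg)
      exact ⟨Finsupp.mapDomain (fun h => τ h x) (fg g), by
        simpa [chart, Finsupp.mapDomain_sub, (hgood x hx).2.2] using this⟩)
  have hdc := double_count τ Bad T B
  have hup : ∑ x ∈ univ.filter (fun x => x ∉ Bad), ∑ g ∈ T,
      (B.filter fun q => q.1 = τ g x).card ≤ n * r := by
    calc ∑ x ∈ univ.filter (fun x => x ∉ Bad), ∑ g ∈ T, (B.filter fun q => q.1 = τ g x).card
        ≤ ∑ _x ∈ univ.filter (fun x => x ∉ Bad), r := by
          refine sum_le_sum fun x hx => ?_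
          have hx' : x ∉ Bad := (mem_filter.mp hx).2
          exact card_le_of_indep τ a b Φ (fun q => rfl) B hliB T x
            (fun g hg i => hmul x hx' g (hTR hg) i)
            (fun g hg h hh => hinj x hx' g (hTR hg) h (hTR hh))
      _ = (univ.filter (fun x => x ∉ Bad)).card * r := by rw [sum_const, smul_eq_mul]
      _ ≤ n * r := Nat.mul_le_mul_right _ ((card_le_univ _).trans (by simp))
  -- numerical conclusion
  by_contra hcon
  push Not at hcon
  have hr1 : (k : ℝ) * r ≤ (k + 1) * t - 1 := by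
    have : k * r + 1 ≤ (k + 1) * t := hcon
    have h' : ((k * r + 1 : ℕ) : ℝ) ≤ (((k + 1) * t : ℕ) : ℝ) := by exact_mod_cast this
    push_cast at h'; linarith
  have hA : (t : ℝ) * B.card ≤ n * r + t * (Bad.card * Fintype.card ι) := by
    have : t * B.card ≤ n * r + t * (Bad.card * Fintype.card ι) := by
      refine hdc.trans ?_
      exact Nat.add_le_add_right hup _
    exact_mod_cast this
  have hM : ((k : ℝ) + 1) * n * (4 * k * t) ≤
      (k * B.card + (k + 1) * Bad.card) * (4 * k * t) + k * n := by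
    have h3 : (k + 1) * n * Q.card ≤ (k * B.card + (k + 1) * Bad.card) * Q.card + k * n := by
      refine hmodel.trans ?_
      gcongr
    rw [hQcard] at h3
    exact_mod_cast h3
  have hM' : ((k : ℝ) + 1) * n * (4 * t) ≤ (k * B.card + (k + 1) * Bad.card) * (4 * t) + n := by
    have h4 : (k : ℝ) * ((((k : ℝ) + 1) * n * (4 * t))) ≤
        k * ((k * B.card + (k + 1) * Bad.card) * (4 * t) + n) := by nlinarith [hM]
    exact le_of_mul_le_mul_left h4 hkr
  have hbadc : (Bad.card : ℝ) * c ≤ n := by
    have := hBad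
    rw [one_div, inv_mul_eq_div, le_div_iff₀ hcpos] at this
    exact this
  rw [hc] at hbadc
  have hcardι : (0 : ℝ) ≤ Fintype.card ι := by positivity
  have hbn : (0 : ℝ) ≤ Bad.card := by positivity
  have hA' : 4 * (k : ℝ) * ((t : ℝ) * B.card) ≤ 4 * k * (n * r + t * (Bad.card * Fintype.card ι)) :=
    mul_le_mul_of_nonneg_left hA (by positivity)
  have hr2 : 4 * (n : ℝ) * ((k : ℝ) * r) ≤ 4 * n * ((k + 1) * t - 1) :=
    mul_le_mul_of_nonneg_left hr1 (by positivity)
  have h5 : 4 * (t : ℝ) * Bad.card * (k * Fintype.card ι + (k + 1)) ≤ n := by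
    have h6 : 4 * (t : ℝ) * Bad.card * (k * Fintype.card ι + (k + 1)) ≤
        Bad.card * (4 * t * (k + 1) * (Fintype.card ι + 2)) := by
      have h7 : (k : ℝ) * Fintype.card ι + (k + 1) ≤ (k + 1) * (Fintype.card ι + 2) := by
        nlinarith
      have h8 := mul_le_mul_of_nonneg_left h7 (by positivity : (0 : ℝ) ≤ 4 * t * Bad.card)
      linarith
    linarith
  nlinarith [hM', hA', hr2, h5]

end Pool.Agent.Lib.MP_c23930_al
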