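import Pool.Agent.Lib.MP_c23930_al.UDefs
import Pool.Agent.Lib.MP_f1646b_al.P01

/-!
# U01: Gromov products and the local to global principle
-/

set_option autoImplicit false

namespace Pool.Agent.Lib.MP_c23930_al

open Pool.Agent.Lib.MP_f1646b_al

/-- integer valued geodesic metric with the four point inequality -/
structure FP {Z : Type*} (D : Z → Z → ℕ) (η : ℕ) : Prop where
  geo : IsGeo D
  four : ∀ x y z w, D x z + D y w ≤ max (D x y + D z w) (D x w + D y z) + η
  pos : 1 ≤ η

/-- doubled Gromov product of `x` and `y` with respect to `z` -/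
def gp {Z : Type*} (D : Z → Z → ℕ) (z x y : Z) : ℤ := (D z x : ℤ) + D z y - D x y

variable {Z : Type*} {D : Z → Z → ℕ} {η : ℕ}

theorem fp_of_hyp {δ : ℕ} (h : IsGeo D) (hδ : Hyp D δ) : FP D (4 * δ + 4) := by
  exact ⟨h, fun x y z w => fourpt h hδ x y z w, by omega⟩

theorem gp_symm (h : FP D η) (z x y : Z) : gp D z x y = gp D z y x := by
  unfold gp
  rw [h.geo.symm x y]
  ring

theorem gp_nonneg (h : FP D η) (z x y : Z) : 0 ≤ gp D z x y := by
  unfold gp
  have h1 := h.geo.tri x z y
  have h2 := h.geo.symm x z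
  omega

theorem gp_le (h : FP D η) (z x y : Z) : gp D z x y ≤ 2 * D z x := by
  unfold gp
  have h1 := h.geo.tri z x y
  omega

theorem gp_four (h : FP D η) (z x y w : Z) :
    min (gp D z x y) (gp D z y w) - η ≤ gp D z x w := by
  unfold gp
  have h1 := h.four x y w z
  have h2 := h.geo.symm y z
  have h3 := h.geo.symm w z
  have h4 := h.geo.symm x z
  omega

theorem gp_add (h : FP D η) (m a b : Z) : gp D m a b + gp D a m b = 2 * D m a := by
  unfold gp
  have h1 := h.geo.symm m a
  omega

theorem gp_base (h : FP D η) (z z' x y : Z) : gp D z x y ≤ gp D z' x y + 2 * D z z' := by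
  unfold gp
  have h1 := h.geo.tri z z' x
  have h2 := h.geo.tri z z' y
  omega

theorem gp_pt (h : FP D η) (z x x' y : Z) : gp D z x y ≤ gp D z x' y + 2 * D x x' := by
  unfold gp
  have h1 := h.geo.tri z x' x
  have h2 := h.geo.tri x' x y
  have h3 := h.geo.symm x x'
  omega

/-- a point between `m` and `b` has smaller Gromov products -/
theorem gp_btw (h : FP D η) (m a b b' : Z) (hb : Btw D m b' b) : gp D m a b' ≤ gp D m a b := by
  unfold gp
  unfold MP_f1646b_al.Btw at hb
  have h1 := h.geo.tri a b' b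
  omega

theorem gp_between (h : FP D η) (m b b' : Z) (hb : Btw D m b' b) : gp D m b' b = 2 * D m b' := by
  unfold gp
  unfold MP_f1646b_al.Btw at hb
  omega

/-- local to global principle -/
theorem local_global (h : FP D η) (n κ L : ℕ) (x : ℕ → Z) (hL : κ + η < L)
    (h1 : ∀ i < n, L ≤ D (x i) (x (i + 1)))
    (h2 : ∀ i, i + 2 ≤ n → gp D (x (i + 1)) (x i) (x (i + 2)) ≤ κ) :
    (∀ i, i + 2 ≤ n → gp D (x (i + 1)) (x 0) (x (i + 2)) ≤ κ + η) ∧
    (∀ i < n, (D (x 0) (x i) : ℤ) + D (x i) (x (i + 1)) - κ - η ≤ D (x 0) (x (i + 1))) ∧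
    n * (L - κ - η) ≤ D (x 0) (x n) := by
  have key : ∀ i, (i + 2 ≤ n → gp D (x (i + 1)) (x 0) (x (i + 2)) ≤ κ + η) ∧
      (i < n → (D (x 0) (x i) : ℤ) + D (x i) (x (i + 1)) - κ - η ≤ D (x 0) (x (i + 1))) := by
    intro i
    induction i with
    | zero =>
      refine ⟨fun h3 => ?_, fun _ => ?_⟩
      · have := h2 0 h3
        omega
      · have := h.geo.self (x 0)
        rw [this]
        simp only [zero_add]
        omega
    | succ i ih =>
      obtain ⟨ih1, ih2⟩ := ih
      have sec : i + 1 < n →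
          (D (x 0) (x (i + 1)) : ℤ) + D (x (i + 1)) (x (i + 1 + 1)) - κ - η ≤
            D (x 0) (x (i + 1 + 1)) := by
        intro h3
        have h4 := ih1 (by omega)
        unfold gp at h4
        have h5 := h.geo.symm (x (i + 1)) (x 0)
        rw [h5] at h4
        have e : i + 1 + 1 = i + 2 := rfl
        rw [e]
        omega
      refine ⟨fun h3 => ?_, sec⟩
      have h4 := sec (by omega)
      have h5 := h1 (i + 1) (by omega)
      have h6 := h2 (i + 1) (by omega)
      have h7 := gp_four h (x (i + 1 + 1)) (x (i + 1)) (x 0) (x (i + 1 + 2))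
      have h8 : (2 : ℤ) * L - κ - η ≤ gp D (x (i + 1 + 1)) (x (i + 1)) (x 0) := by
        unfold gp
        have a1 := h.geo.symm (x (i + 1 + 1)) (x (i + 1))
        have a2 := h.geo.symm (x (i + 1 + 1)) (x 0)
        have a3 := h.geo.symm (x (i + 1)) (x 0)
        rw [a1, a2, a3]
        omega
      rcases min_le_iff.1 (show min (gp D (x (i + 1 + 1)) (x (i + 1)) (x 0))
          (gp D (x (i + 1 + 1)) (x 0) (x (i + 1 + 2))) ≤ (κ : ℤ) + η by omega) with h9 | h9
      · omega
      · exact h9
  refine ⟨fun i => (key i).1, fun i => (key i).2, ?_⟩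
  have h3 : ∀ m, m ≤ n → m * (L - κ - η) ≤ D (x 0) (x m) := by
    intro m
    induction m with
    | zero => intro _; simp
    | succ m ih =>
      intro hm
      have h4 := ih (by omega)
      have h5 := (key m).2 (by omega)
      have h6 := h1 m (by omega)
      have h7 : (m + 1) * (L - κ - η) = m * (L - κ - η) + (L - κ - η) := by ring
      omega
  exact h3 n le_rfl

/-- a point with small Gromov product is close to a geodesic -/
theorem near_geod (h : FP D η) (x y z : Z) : ∃ t : ℕ, t ≤ D y z ∧
    ∀ u, Btw D y u z → D y u = t → (2 * D x u : ℤ) ≤ gp D x y z + 2 * η + 1 := by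
  have h0 := gp_nonneg h x y z
  have e0 : gp D x y z = (D x y : ℤ) + D x z - D y z := rfl
  have t1 := h.geo.tri y z x
  have t2 := h.geo.tri y x z
  have s1 := h.geo.symm y x
  have s2 := h.geo.symm z x
  have t3 := h.geo.tri x y z
  have s3 := h.geo.symm x y
  have t4 := h.geo.tri x z y
  have s4 := h.geo.symm z y
  refine ⟨D x y - (D x y + D x z - D y z) / 2, by omega, ?_⟩
  intro u hu ht
  unfold MP_f1646b_al.Btw at hu
  have h1 := h.four x y u z
  have s5 := h.geo.symm u z
  rw [e0]
  omega

end Pool.Agent.Lib.MP_c23930_al
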