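import Pool.Agent.Lib.MP_c23930_al.U01

/-!
# U02: displacement lemma
-/

set_option autoImplicit false

namespace Pool.Agent.Lib.MP_c23930_al

open Pool.Agent.Lib.MP_f1646b_al

namespace U02

variable {Q Z : Type*} [Group Q] [MulAction Q Z] {D : Z → Z → ℕ} {η : ℕ}

/-- the orbit of `p` under powers of `g` -/
theorem pow_dist (h : FP D η) (hi : ∀ (g : Q) x y, D (g • x) (g • y) = D x y) (g : Q) (p : Z)
    (J L : ℕ) (hL : ∀ j, 1 ≤ j → j ≤ J → D p (g ^ j • p) ≤ L) (i j : ℕ) (hij : i ≤ j)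
    (hj : j ≤ J) : D (g ^ i • p) (g ^ j • p) ≤ L := by
  rcases Nat.eq_or_lt_of_le hij with he | hlt
  · rw [he, h.geo.self]; exact Nat.zero_le _
  · have h1 : g ^ j = g ^ i * g ^ (j - i) := by rw [← pow_add]; congr 1; omega
    rw [h1, mul_smul, hi]
    exact hL (j - i) (by omega) (by omega)

theorem pow_dist' (h : FP D η) (hi : ∀ (g : Q) x y, D (g • x) (g • y) = D x y) (g : Q) (p : Z)
    (J L : ℕ) (hL : ∀ j, 1 ≤ j → j ≤ J → D p (g ^ j • p) ≤ L) (i j : ℕ) (hiJ : i ≤ J)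
    (hj : j ≤ J) : D (g ^ i • p) (g ^ j • p) ≤ L := by
  rcases le_total i j with hij | hij
  · exact pow_dist h hi g p J L hL i j hij hj
  · rw [h.geo.symm]
    exact pow_dist h hi g p J L hL j i hij hiJ

/-- the point at distance `2η` from `p` on the way to `g^i p` is moved less -/
theorem key (h : FP D η) (hi : ∀ (g : Q) x y, D (g • x) (g • y) = D x y) (g : Q) (p : Z)
    (C J L i : ℕ) (hL : ∀ j, 1 ≤ j → j ≤ J → D p (g ^ j • p) ≤ L) (hiJ : i ≤ J)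
    (hLi : D p (g ^ i • p) = L) (hbig : C + 9 * η < L) (hlt : D p (g ^ (2 * i) • p) < L + C)
    (m : Z) (hm : MP_f1646b_al.Btw D p m (g ^ i • p)) (hpm : D p m = 2 * η) (j : ℕ) (h1j : 1 ≤ j)
    (hjJ : j ≤ J) : D m (g ^ j • m) < L := by
  have hpos := h.pos
  have hDj := hL j h1j hjJ
  have e1 : D (g ^ j • m) (g ^ j • p) = D m p := hi _ _ _
  have e2 : D m p = 2 * η := by rw [h.geo.symm]; exact hpm
  have e3 : D m (g ^ i • p) = L - 2 * η := by unfold MP_f1646b_al.Btw at hm; omega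
  by_cases hcase : D p (g ^ j • p) < L - 4 * η
  · have h1 := h.geo.tri m p (g ^ j • m)
    have h2 := h.geo.tri p (g ^ j • p) (g ^ j • m)
    have h3 := h.geo.symm (g ^ j • p) (g ^ j • m)
    omega
  -- distances between the orbit points
  have d1 : D (g ^ i • p) (g ^ j • p) ≤ L := pow_dist' h hi g p J L hL i j hiJ hjJ
  have d2 : D p ((g ^ j)⁻¹ • p) = D p (g ^ j • p) := by
    rw [h.geo.symm, ← hi (g ^ j), smul_inv_smul]
  have d3 : D p ((g ^ i)⁻¹ • p) = L := by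
    rw [h.geo.symm, ← hi (g ^ i), smul_inv_smul, hLi]
  have d4 : D ((g ^ i)⁻¹ • p) ((g ^ j)⁻¹ • p) ≤ L := by
    have e : D ((g ^ i)⁻¹ • p) ((g ^ j)⁻¹ • p) = D (g ^ j • p) (g ^ i • p) := by
      rw [← hi (g ^ j * g ^ i) ((g ^ i)⁻¹ • p), mul_smul, smul_inv_smul]
      congr 1
      rw [← pow_add, Nat.add_comm, pow_add, mul_smul, smul_inv_smul]
    rw [e]
    exact pow_dist' h hi g p J L hL j i hjJ hiJ
  have d5 : D (g ^ i • p) ((g ^ i)⁻¹ • p) < L + C := by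
    have e : D (g ^ i • p) ((g ^ i)⁻¹ • p) = D p (g ^ (2 * i) • p) := by
      rw [← hi (g ^ i) (g ^ i • p), smul_inv_smul, ← mul_smul, ← pow_add, h.geo.symm]
      congr 3
      omega
    rw [e]
    exact hlt
  have d6 : D (g ^ j • m) p = D m ((g ^ j)⁻¹ • p) := by
    rw [← hi (g ^ j) m, smul_inv_smul]
  -- Gromov products
  have g1 := gp_four h p (g ^ i • p) ((g ^ i)⁻¹ • p) ((g ^ j)⁻¹ • p)
  have g2 := gp_four h p m (g ^ i • p) (g ^ j • p)
  have g3 := gp_four h p m (g ^ i • p) ((g ^ j)⁻¹ • p)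
  unfold gp at g1 g2 g3
  have f1 := h.four m p (g ^ j • m) (g ^ j • p)
  have s1 := h.geo.symm p (g ^ j • m)
  omega

end U02

theorem displ {Q Z : Type*} [Group Q] [MulAction Q Z] {D : Z → Z → ℕ} {η : ℕ} (h : FP D η)
    (hi : ∀ (g : Q) x y, D (g • x) (g • y) = D x y) [Nonempty Z] (g : Q) (C J : ℕ)
    (hJ : ∀ p : Z, ∃ j, 1 ≤ j ∧ j ≤ J ∧ C + 9 * η < D p (g ^ j • p)) :
    ∃ p : Z, ∃ i, 1 ≤ i ∧ i ≤ J ∧ D p (g ^ i • p) + C ≤ D p (g ^ (2 * i) • p) := by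
  by_contra hc
  push Not at hc
  have hM := Nat.sInf_mem (Set.range_nonempty
    (fun q : Z => (Finset.Icc 1 J).sup fun j => D q (g ^ j • q)))
  obtain ⟨p, hp⟩ := hM
  simp only at hp
  have hmin : ∀ q : Z, ((Finset.Icc 1 J).sup fun j => D p (g ^ j • p)) ≤
      (Finset.Icc 1 J).sup fun j => D q (g ^ j • q) := by
    intro q
    rw [hp]
    exact Nat.sInf_le ⟨q, rfl⟩
  obtain ⟨j₀, h1, h2, h3⟩ := hJ p
  have hne : (Finset.Icc 1 J).Nonempty := ⟨j₀, Finset.mem_Icc.2 ⟨h1, h2⟩⟩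
  obtain ⟨i, hiI, hiL⟩ := Finset.exists_mem_eq_sup _ hne fun j => D p (g ^ j • p)
  have hle : ∀ j, 1 ≤ j → j ≤ J → D p (g ^ j • p) ≤ D p (g ^ i • p) := by
    intro j hj1 hj2
    rw [← hiL]
    exact Finset.le_sup (f := fun j => D p (g ^ j • p)) (Finset.mem_Icc.2 ⟨hj1, hj2⟩)
  obtain ⟨hi1, hi2⟩ := Finset.mem_Icc.1 hiI
  have hbig : C + 9 * η < D p (g ^ i • p) := h3.trans_le (hle j₀ h1 h2)
  have hlt := hc p i hi1 hi2
  obtain ⟨m, hm, hpm⟩ := geo_btw h.geo p (g ^ i • p) (2 * η) (by omega)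
  have hsup : ((Finset.Icc 1 J).sup fun j => D m (g ^ j • m)) < D p (g ^ i • p) := by
    rw [Finset.sup_lt_iff (by rw [Nat.bot_eq_zero]; omega)]
    intro j hj
    obtain ⟨hj1, hj2⟩ := Finset.mem_Icc.1 hj
    exact U02.key h hi g p C J _ i hle hi2 rfl hbig hlt m hm hpm j hj1 hj2
  have := hmin m
  rw [hiL] at this
  omega

end Pool.Agent.Lib.MP_c23930_al
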