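import Pool.Agent.Lib.MP_c23930_al.UDefs
import Pool.Agent.Lib.MP_f1646b_al.Betw

/-!
# U03: chains of apices
-/

set_option autoImplicit false

namespace Pool.Agent.Lib.MP_c23930_al

open Pool.Agent.Lib.MP_f1646b_al

theorem chain {Q Z : Type*} [Group Q] [MulAction Q Z] {D : Z → Z → ℕ} {T : Set Z}
    {β : Z → Z → Z → ℕ} {θ e : ℕ} (h : ActCAS Q D T β θ e) (f : Q) (t : Z) (ht : t ∈ T)
    (hne : f • t ≠ t) (hβ : θ + e < β t (f⁻¹ • t) (f • t)) (k : ℕ) :
    D t (f ^ k • t) = k * D t (f • t) := by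
  have hT : ∀ i : ℕ, f ^ i • t ∈ T := fun i => h.inS _ _ ht
  have hL : 0 < D t (f • t) := dist_pos_of_ne h.cas.geo (Ne.symm hne)
  have hsucc : ∀ i : ℕ, f ^ (i + 1) • t = f ^ i • (f • t) := by
    intro i
    rw [pow_succ, mul_smul]
  have hstep : ∀ i : ℕ, D (f ^ i • t) (f ^ (i + 1) • t) = D t (f • t) := by
    intro i
    rw [hsucc, h.isom]
  have hnei : ∀ i : ℕ, f ^ i • t ≠ f ^ (i + 1) • t := by
    intro i h'
    have h1 := hstep i
    rw [← h', h.cas.geo.self] at h1
    omega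
  have hfi : f⁻¹ • t ≠ t := by
    intro h'
    apply hne
    conv_lhs => rw [← h', smul_inv_smul]
  have hb : ∀ i : ℕ, β (f ^ (i + 1) • t) (f ^ i • t) (f ^ (i + 2) • t) =
      β t (f⁻¹ • t) (f • t) := by
    intro i
    have h1 := h.a_inv (f ^ (i + 1)) t ht (f⁻¹ • t) (f • t) hfi hne
    have h2 : f ^ (i + 1) • f⁻¹ • t = f ^ i • t := by
      rw [pow_succ, mul_smul, smul_inv_smul]
    rw [h2, ← hsucc (i + 1)] at h1
    exact h1
  have key : ∀ k : ℕ, D t (f ^ (k + 1) • t) = (k + 1) * D t (f • t) ∧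
      θ < β (f ^ (k + 1) • t) t (f ^ (k + 2) • t) := by
    intro k
    induction k with
    | zero =>
      refine ⟨by rw [zero_add, pow_one, one_mul], ?_⟩
      have h1 := hb 0
      rw [pow_zero, one_smul] at h1
      rw [h1]
      omega
    | succ k ih =>
      obtain ⟨ih1, ih2⟩ := ih
      have hk0 : t ≠ f ^ (k + 1) • t := by
        intro h'
        rw [← h', h.cas.geo.self] at ih1
        have : 0 < (k + 1) * D t (f • t) := Nat.mul_pos (Nat.succ_pos k) hL
        omega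
      have e1 : MP_f1646b_al.Btw D t (f ^ (k + 1) • t) (f ^ (k + 2) • t) :=
        h.cas.k1 _ (hT (k + 1)) t (f ^ (k + 2) • t) hk0 (hnei (k + 1)).symm ih2
      have e2 : D t (f ^ (k + 2) • t) = (k + 2) * D t (f • t) := by
        unfold MP_f1646b_al.Btw at e1
        rw [ih1, hstep (k + 1)] at e1
        rw [← e1]
        ring
      have hk2 : t ≠ f ^ (k + 2) • t := by
        intro h'
        rw [← h', h.cas.geo.self] at e2
        have : 0 < (k + 2) * D t (f • t) := Nat.mul_pos (Nat.succ_pos _) hL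
        omega
      refine ⟨e2, ?_⟩
      have e3 : β (f ^ (k + 2) • t) (f ^ (k + 1) • t) t = 0 := by
        refine h.cas.k2 _ (hT (k + 2)) _ (hT (k + 1)) t (hnei (k + 1)).symm hk2 hk0 ?_
        rw [h.cas.a_symm _ (hT (k + 1)) _ _ (hnei (k + 1)).symm hk0]
        exact ih2
      have e4 := h.cas.a_tri _ (hT (k + 2)) (f ^ (k + 1) • t) t (f ^ (k + 3) • t)
        (hnei (k + 1)) hk2 (hnei (k + 2)).symm
      have e5 := hb (k + 1)
      rw [e3] at e4
      have e6 : β (f ^ (k + 2) • t) (f ^ (k + 1) • t) (f ^ (k + 3) • t) =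
        β t (f⁻¹ • t) (f • t) := e5
      rw [e6] at e4
      have e7 : θ < β (f ^ (k + 2) • t) t (f ^ (k + 3) • t) := by omega
      exact e7
  rcases k with _ | k
  · rw [pow_zero, one_smul, h.cas.geo.self, zero_mul]
  · exact (key k).1

end Pool.Agent.Lib.MP_c23930_al
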