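import Pool.Agent.Lib.MP_c23930_al.UDefs
import Pool.Agent.Lib.MP_f1646b_al.Betw

/-!
# U04: a good base point (nested minimisers)
-/

set_option autoImplicit false

namespace Pool.Agent.Lib.MP_c23930_al

open Pool.Agent.Lib.MP_f1646b_al

namespace U04

/-- a slowly decreasing sequence stops -/
theorem stop {l : ℕ → ℕ} (hl : ∀ a b, a ≤ b → l b ≤ l a) {K : ℕ} (h0 : l 0 ≤ K) :
    ∃ b ≤ K, l (2 * b) = l (2 * b + 2) := by
  by_contra hc
  push Not at hc
  have key : ∀ b, b ≤ K + 1 → l (2 * b) + b ≤ K := by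
    intro b
    induction b with
    | zero => intro _; simpa using h0
    | succ b ih =>
      intro hb
      have h1 := ih (by omega)
      have h2 := hc b (by omega)
      have h3 := hl (2 * b) (2 * b + 2) (by omega)
      have h4 : 2 * (b + 1) = 2 * b + 2 := by ring
      rw [h4]
      omega
  have := key (K + 1) le_rfl
  omega

end U04

theorem good_base {Q Z : Type*} [Group Q] [MulAction Q Z] {D : Z → Z → ℕ} {T : Set Z}
    {β : Z → Z → Z → ℕ} {θ e : ℕ} (h : ActCAS Q D T β θ e) (g : Q)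
    (hfree : ∀ s ∈ T, g • s ≠ s)
    (hβ : ∀ t ∈ T, β t (g⁻¹ • t) (g • t) ≤ θ + e) (K J : ℕ) (hJ : 1 ≤ J) (p : Z)
    (hp : ∀ j, 1 ≤ j → j ≤ J → D p (g ^ j • p) ≤ K) :
    ∃ p' : Z, p' ∉ T ∧ (∀ j, 1 ≤ j → j ≤ J → D p' (g ^ j • p') ≤ K + 2 * (2 * K + 4) * K) ∧
      ∀ s ∈ T, β s p' (g • p') ≤ 3 * θ + 3 * e := by
  have hg := h.cas.geo
  set C : ℕ → Set Z := fun a => {q | ∀ j, 1 ≤ j → j ≤ J → D q (g ^ j • q) ≤ K + 2 * a * K} with hC
  have hmono : ∀ a b, a ≤ b → C a ⊆ C b := by
    intro a b hab q hq j h1 h2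
    refine (hq j h1 h2).trans ?_
    have : a * K ≤ b * K := Nat.mul_le_mul_right K hab
    nlinarith
  have hpC : ∀ a, p ∈ C a := fun a j h1 h2 => (hp j h1 h2).trans (Nat.le_add_right _ _)
  set l : ℕ → ℕ := fun a => sInf ((fun q => D q (g • q)) '' C a) with hl
  have hne : ∀ a, ((fun q => D q (g • q)) '' C a).Nonempty := fun a => ⟨_, p, hpC a, rfl⟩
  have hle : ∀ a, ∀ q ∈ C a, l a ≤ D q (g • q) := fun a q hq => Nat.sInf_le ⟨q, hq, rfl⟩
  have hat : ∀ a, ∃ q ∈ C a, D q (g • q) = l a := fun a => Nat.sInf_mem (hne a)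
  have hanti : ∀ a b, a ≤ b → l b ≤ l a := by
    intro a b hab
    obtain ⟨q, hq, hq2⟩ := hat a
    rw [← hq2]
    exact hle b q (hmono a b hab hq)
  have h0 : l 0 ≤ K := by
    refine (hle 0 p (hpC 0)).trans ?_
    have := hp 1 le_rfl hJ
    rwa [pow_one] at this
  obtain ⟨b, hbK, hb⟩ := U04.stop hanti h0
  set a := 2 * b with ha
  have e1 : l (a + 1) = l a :=
    le_antisymm (hanti _ _ (by omega)) (by rw [hb]; exact hanti _ _ (by omega))
  have hlK : l a ≤ K := (hanti 0 a (by omega)).trans h0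
  -- the base point
  obtain ⟨p', hp'T, hp'C, hp'l⟩ : ∃ p', p' ∉ T ∧ p' ∈ C (a + 1) ∧ D p' (g • p') = l a := by
    obtain ⟨q, hq, hql⟩ := hat a
    by_cases hqT : q ∈ T
    · have hne' : q ≠ g • q := fun hc => hfree q hqT hc.symm
      obtain ⟨w, hw1, hw2⟩ := exists_adj hg hne'
      have hpos := dist_pos_of_ne hg hne'
      have hwT : w ∉ T := fun hc => h.cas.nadj q hqT w hc hw2
      unfold MP_f1646b_al.Btw at hw1
      have hiso := h.isom g q w
      have t1 := hg.tri w (g • q) (g • w)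
      have h5 : D w (g • w) ≤ l a := by omega
      have hwC : w ∈ C (a + 1) := by
        intro j h1 h2
        have t2 := hg.tri w q (g ^ j • w)
        have t3 := hg.tri q (g ^ j • q) (g ^ j • w)
        have t4 := h.isom (g ^ j) q w
        have t5 := hg.symm w q
        have t6 := hq j h1 h2
        have t7 : 1 ≤ K := by omega
        nlinarith
      refine ⟨w, hwT, hwC, le_antisymm h5 ?_⟩
      rw [← e1]
      exact hle _ _ hwC
    · exact ⟨q, hqT, hmono _ _ (by omega) hq, hql⟩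
  refine ⟨p', hp'T, ?_, ?_⟩
  · intro j h1 h2
    refine (hp'C j h1 h2).trans ?_
    have : (a + 1) * K ≤ (2 * K + 4) * K := Nat.mul_le_mul_right K (by omega)
    nlinarith
  · intro s hs
    by_contra hcon
    push Not at hcon
    have hsp : p' ≠ s := fun hc => hp'T (hc ▸ hs)
    have hgp : g • p' ≠ s := by
      intro hc
      apply hp'T
      have := h.inS g⁻¹ s hs
      rwa [← hc, inv_smul_smul] at this
    have hgs : g • s ≠ s := hfree s hs
    have hgs' : g⁻¹ • s ≠ s := by
      intro hc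
      apply hgs
      conv_lhs => rw [← hc]
      rw [smul_inv_smul]
    have hB : Btw D p' s (g • p') := h.cas.k1 s hs p' (g • p') hsp hgp (by omega)
    unfold MP_f1646b_al.Btw at hB
    have hps : D p' s ≤ K := by omega
    have hsC : s ∈ C (a + 2) := by
      intro j h1 h2
      have t2 := hg.tri s p' (g ^ j • s)
      have t3 := hg.tri p' (g ^ j • p') (g ^ j • s)
      have t4 := h.isom (g ^ j) p' s
      have t5 := hg.symm s p'
      have t6 := hp'C j h1 h2
      nlinarith
    have hsl : l a ≤ D s (g • s) := by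
      rw [hb]
      exact hle _ _ hsC
    have t1 := hg.tri s (g • p') (g • s)
    have t2 := h.isom g p' s
    have hB2 : Btw D s (g • p') (g • s) := by
      unfold MP_f1646b_al.Btw
      omega
    have c1 := h.cas.k3 s hs (g • p') (g • s) hgp hgs hB2
    have hB3 : Btw D s p' (g⁻¹ • s) := by
      apply Btw.comm hg
      unfold MP_f1646b_al.Btw at hB2 ⊢
      have u1 := h.isom g (g⁻¹ • s) p'
      have u2 := h.isom g p' s
      have u3 := h.isom g (g⁻¹ • s) s
      rw [smul_inv_smul] at u1 u3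
      omega
    have c2 := h.cas.k3 s hs p' (g⁻¹ • s) hsp hgs' hB3
    have c3 := hβ s hs
    have c4 := h.cas.a_tri s hs p' (g⁻¹ • s) (g • p') hsp hgs' hgp
    have c5 := h.cas.a_tri s hs (g⁻¹ • s) (g • s) (g • p') hgs' hgs hgp
    have c6 := h.cas.a_symm s hs (g • s) (g • p') hgs hgp
    omega

end Pool.Agent.Lib.MP_c23930_al
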