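import Pool.Agent.Lib.MP_c23930_al.UDefs
import Pool.Agent.Lib.MP_f1646b_al.Betw

/-!
# U05: all turns are bounded (monotone position argument)
-/

set_option autoImplicit false

namespace Pool.Agent.Lib.MP_c23930_al

open Pool.Agent.Lib.MP_f1646b_al

namespace U05

/-- a sequence with increments less than `c` takes a value in every window of length `c` -/
theorem crossing (f : ℕ → ℕ) (c a b v : ℕ) (hab : a ≤ b)
    (hstep : ∀ i, f (i + 1) < f i + c) (hc : 0 < c) (ha : f a ≤ v) (hb : v ≤ f b) :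
    ∃ i, a ≤ i ∧ i ≤ b ∧ v ≤ f i ∧ f i < v + c := by
  classical
  have hex : ∃ i, a ≤ i ∧ v ≤ f i := ⟨b, hab, hb⟩
  have hi := Nat.find_spec hex
  have hib : Nat.find hex ≤ b := Nat.find_min' hex ⟨hab, hb⟩
  refine ⟨Nat.find hex, hi.1, hib, hi.2, ?_⟩
  rcases Nat.eq_or_lt_of_le hi.1 with h | h
  · rw [← h]; omega
  · obtain ⟨k, hk⟩ : ∃ k, Nat.find hex = k + 1 := ⟨Nat.find hex - 1, by omega⟩
    have hk' : ¬ (a ≤ k ∧ v ≤ f k) := Nat.find_min hex (by omega)
    have h1 : f k < v := by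
      by_contra hh
      exact hk' ⟨by omega, by omega⟩
    have h2 := hstep k
    rw [hk]; omega

/-- many times with different values -/
theorem times (f : ℕ → ℕ) (c a b n x : ℕ) (hab : a ≤ b)
    (hstep : ∀ i, f (i + 1) < f i + c) (hc : 0 < c) (ha : f a ≤ x) (hb : x + n * c ≤ f b) :
    ∃ t : Fin (n + 1) → ℕ, (∀ m, a ≤ t m ∧ t m ≤ b) ∧ ∀ m m', f (t m) = f (t m') → m = m' := by
  have h1 : ∀ m : Fin (n + 1), ∃ i, a ≤ i ∧ i ≤ b ∧ x + m * c ≤ f i ∧ f i < x + m * c + c := by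
    intro m
    have h2 : (m : ℕ) * c ≤ n * c := Nat.mul_le_mul_right _ (by omega)
    exact crossing f c a b (x + m * c) hab hstep hc (by omega) (by omega)
  choose t ht using h1
  refine ⟨t, fun m => ⟨(ht m).1, (ht m).2.1⟩, ?_⟩
  have key : ∀ m m' : Fin (n + 1), (m : ℕ) < m' → f (t m) = f (t m') → False := by
    intro m m' hlt he
    have h3 := (ht m).2.2.2
    have h4 := (ht m').2.2.1
    have h5 : ((m : ℕ) + 1) * c ≤ m' * c := Nat.mul_le_mul_right _ (by omega)
    have h6 : ((m : ℕ) + 1) * c = m * c + c := by ring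
    omega
  intro m m' he
  rcases Nat.lt_trichotomy (m : ℕ) m' with h3 | h3 | h3
  · exact (key m m' h3 he).elim
  · exact Fin.ext h3
  · exact (key m' m h3 he.symm).elim

end U05

theorem turns_bounded {Q Z : Type*} [Group Q] [MulAction Q Z] {D : Z → Z → ℕ} {T : Set Z}
    {β : Z → Z → Z → ℕ} {θ e : ℕ} (h : ActCAS Q D T β θ e)
    (hfree : ∀ q : Q, q ≠ 1 → ∀ s ∈ T, q • s ≠ s) (g : Q) (K J A : ℕ) (hA : θ ≤ A) (p : Z)
    (hpT : p ∉ T) (hp : ∀ j, 1 ≤ j → j ≤ J → D p (g ^ j • p) ≤ K)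
    (hβ : ∀ s ∈ T, β s p (g • p) ≤ A) (j : ℕ) (hj1 : 1 ≤ j) (hj : j ≤ J) (s : Z) (hs : s ∈ T) :
    β s p (g ^ j • p) ≤ (2 * K + 10) * (A + e + 1) := by
  classical
  have hB := h.cas
  have hT : ∀ q : Q, q • p ∉ T := fun q hq => hpT (by
    have h1 := h.inS q⁻¹ _ hq
    rwa [inv_smul_smul] at h1)
  have hne : ∀ (q : Q) (t : Z), t ∈ T → q • p ≠ t := fun q t ht hqt => hT q (hqt ▸ ht)
  have hne1 : ∀ t ∈ T, p ≠ t := fun t ht hpt => hpT (hpt ▸ ht)
  set c := A + e + 1 with hc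
  obtain ⟨f, hf⟩ : ∃ f : ℕ → ℕ, ∀ i, f i = β s p (g ^ i • p) := ⟨_, fun _ => rfl⟩
  have hf0 : f 0 = 0 := by
    rw [hf, pow_zero, one_smul]; exact hB.a_self s hs p (hne1 s hs)
  have hmove : ∀ i k : ℕ, β ((g ^ i)⁻¹ • s) p (g ^ k • p) = β s (g ^ i • p) (g ^ (i + k) • p) := by
    intro i k
    have h1 := h.a_inv (g ^ i) ((g ^ i)⁻¹ • s) (h.inS _ s hs) p (g ^ k • p)
      (hne1 _ (h.inS _ s hs)) (hne _ _ (h.inS _ s hs))
    rw [smul_inv_smul, smul_smul, ← pow_add] at h1
    exact h1.symm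
  have hcons : ∀ i, β s (g ^ i • p) (g ^ (i + 1) • p) ≤ A := by
    intro i
    rw [← hmove i 1, pow_one]
    exact hβ _ (h.inS _ s hs)
  have hdiff : ∀ i k, f k ≤ f i + β s (g ^ i • p) (g ^ k • p) + e := by
    intro i k
    rw [hf, hf]
    exact hB.a_tri s hs p (g ^ i • p) (g ^ k • p) (hne1 s hs) (hne _ s hs) (hne _ s hs)
  have hup : ∀ i, f (i + 1) < f i + c := by
    intro i
    have h1 := hdiff i (i + 1)
    have h2 := hcons i
    omega
  have hdown : ∀ i, f i < f (i + 1) + c := by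
    intro i
    have h1 := hdiff (i + 1) i
    have h2 := hcons i
    rw [hB.a_symm s hs _ _ (hne _ s hs) (hne _ s hs)] at h2
    omega
  by_contra hcon
  push Not at hcon
  rw [← hf] at hcon
  obtain ⟨N, hN⟩ : ∃ N, N = K * c := ⟨_, rfl⟩
  have e1 : (2 * K + 10) * c = 2 * N + 10 * c := by rw [hN]; ring
  rw [e1] at hcon
  -- the first time above `(K+1) c`
  have hex : ∃ i, N + c ≤ f i := ⟨j, by omega⟩
  obtain ⟨F, hF⟩ : ∃ F, F = Nat.find hex := ⟨_, rfl⟩
  have hF1 : N + c ≤ f F := by rw [hF]; exact Nat.find_spec hex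
  have hF2 : ∀ i, i < F → f i < N + c := by
    intro i hi
    rw [hF] at hi
    have h1 := Nat.find_min hex hi
    omega
  have hFpos : 1 ≤ F := by
    rcases Nat.eq_zero_or_pos F with h0 | h0
    · rw [h0, hf0] at hF1; omega
    · exact h0
  have hF3 : ∀ i, i ≤ F → f i < N + 2 * c := by
    intro i hi
    rcases Nat.lt_or_ge i F with h1 | h1
    · have h2 := hF2 i h1
      omega
    · obtain ⟨k, hk⟩ : ∃ k, F = k + 1 := ⟨F - 1, by omega⟩
      have h3 : i = k + 1 := by omega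
      have h4 := hF2 k (by omega)
      have h5 := hup k
      rw [h3]; omega
  -- the last time below `(K+4) c`
  obtain ⟨U, hU⟩ : ∃ U, U = Nat.findGreatest (fun i => f i ≤ N + 4 * c) j := ⟨_, rfl⟩
  have hU1 : f U ≤ N + 4 * c := by
    rw [hU]
    have h1 : (fun i => f i ≤ N + 4 * c) 0 := by
      show f 0 ≤ N + 4 * c
      rw [hf0]; omega
    exact Nat.findGreatest_spec (P := fun i => f i ≤ N + 4 * c) (Nat.zero_le j) h1
  have hU2 : ∀ i, U < i → i ≤ j → N + 4 * c < f i := by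
    intro i h1 h2
    rw [hU] at h1
    have h3 := Nat.findGreatest_is_greatest (P := fun i => f i ≤ N + 4 * c) h1 h2
    simp only [not_le] at h3
    exact h3
  have hU3 : U ≤ j := by rw [hU]; exact Nat.findGreatest_le j
  have hU4 : U < j := by
    rcases Nat.lt_or_ge U j with h1 | h1
    · exact h1
    · have : U = j := by omega
      rw [this] at hU1; omega
  have hU5 : ∀ i, U ≤ i → i ≤ j → N + 3 * c ≤ f i := by
    intro i h1 h2
    rcases Nat.lt_or_ge U i with h3 | h3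
    · have := hU2 i h3 h2
      omega
    · have h4 : i = U := by omega
      have h5 := hU2 (U + 1) (by omega) (by omega)
      have h6 := hup U
      rw [h4]; omega
  have hFU : F ≤ U := by
    by_contra hh
    have h1 := hF2 U (by omega)
    have h2 := hU5 U le_rfl hU3
    omega
  -- the apices on the interval from `p` to `g ^ U p`
  have hbig : ∀ i, i ≤ F → i + U ≤ j → θ < β ((g ^ i)⁻¹ • s) p (g ^ U • p) := by
    intro i h1 h2
    rw [hmove]
    have h3 := hdiff i (i + U)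
    have h4 := hF3 i h1
    have h5 := hU5 (i + U) (by omega) h2
    omega
  have hbtw : ∀ i, i ≤ F → i + U ≤ j → Btw D p ((g ^ i)⁻¹ • s) (g ^ U • p) := by
    intro i h1 h2
    exact hB.k1 _ (h.inS _ s hs) p (g ^ U • p) (hne1 _ (h.inS _ s hs)) (hne _ _ (h.inS _ s hs))
      (hbig i h1 h2)
  have hle : ∀ i, i ≤ F → i + U ≤ j → D p ((g ^ i)⁻¹ • s) ≤ K := by
    intro i h1 h2
    have h3 := hbtw i h1 h2
    have h4 := hp U (by omega) (by omega)
    unfold MP_f1646b_al.Btw at h3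
    omega
  have hcpos : 0 < c := by omega
  have eK : (K + 1) * c = N + c := by rw [hN]; ring
  obtain ⟨t, ht1, ht2⟩ : ∃ t : Fin (K + 1 + 1) → ℕ, (∀ m, t m ≤ F ∧ t m + U ≤ j) ∧
      ∀ m m', f (t m) = f (t m') → f (t m + U) = f (t m' + U) → m = m' := by
    rcases Nat.lt_or_ge (j - U) F with h1 | h1
    · obtain ⟨t, ht1, ht2⟩ := U05.times (fun i => f (i + U)) c 0 (j - U) (K + 1) (N + 4 * c)
        (Nat.zero_le _) (fun i => by
          have := hup (i + U)
          have e2 : i + 1 + U = i + U + 1 := by omega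
          simp only [e2]
          exact this) hcpos (by simpa using hU1) (by
          have e2 : j - U + U = j := by omega
          simp only [e2, eK]
          omega)
      refine ⟨t, fun m => ?_, fun m m' _ h3 => ht2 m m' h3⟩
      have := ht1 m
      omega
    · obtain ⟨t, ht1, ht2⟩ := U05.times f c 0 F (K + 1) 0 (Nat.zero_le _) hup hcpos
        (by omega) (by rw [eK]; omega)
      refine ⟨t, fun m => ?_, fun m m' h3 _ => ht2 m m' h3⟩
      have := ht1 m
      omega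
  -- pigeonhole
  obtain ⟨m, -, m', -, hmm, hD⟩ := Finset.exists_ne_map_eq_of_card_lt_of_maps_to
    (s := (Finset.univ : Finset (Fin (K + 1 + 1)))) (t := Finset.range (K + 1))
    (f := fun m => D p ((g ^ t m)⁻¹ • s)) (by simp) (by
      intro m _
      simp only [Finset.coe_range, Set.mem_Iio]
      have := hle (t m) (ht1 m).1 (ht1 m).2
      omega)
  have hD' : D p ((g ^ t m)⁻¹ • s) = D p ((g ^ t m')⁻¹ • s) := hD
  have b1 := hbtw (t m) (ht1 m).1 (ht1 m).2
  have b2 := hbtw (t m') (ht1 m').1 (ht1 m').2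
  have hss : (g ^ t m)⁻¹ • s = (g ^ t m')⁻¹ • s := by
    rcases hB.k1' _ (h.inS (g ^ t m')⁻¹ s hs) p (g ^ U • p) ((g ^ t m)⁻¹ • s)
      (hne1 _ (h.inS _ s hs)) (hne _ _ (h.inS _ s hs)) (hbig (t m') (ht1 m').1 (ht1 m').2) b1 with
      h1 | h1
    · unfold MP_f1646b_al.Btw at h1
      exact (hB.geo.eq_of _ _ (by omega)).symm
    · unfold MP_f1646b_al.Btw at h1 b1 b2
      exact hB.geo.eq_of _ _ (by omega)
  have hfix : (g ^ t m' * (g ^ t m)⁻¹) • s = s := by
    rw [mul_smul, hss, smul_inv_smul]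
  have hone : g ^ t m' * (g ^ t m)⁻¹ = 1 := by
    by_contra hh
    exact hfree _ hh s hs hfix
  have hgg : g ^ t m' = g ^ t m := by
    rwa [mul_inv_eq_one] at hone
  apply hmm
  apply ht2
  · rw [hf, hf, hgg]
  · rw [hf, hf, pow_add, pow_add, hgg]

end Pool.Agent.Lib.MP_c23930_al
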