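import Pool.Agent.Lib.MP_c23930_al.U02
import Pool.Agent.Lib.MP_c23930_al.U03
import Pool.Agent.Lib.MP_c23930_al.U04
import Pool.Agent.Lib.MP_c23930_al.U05

/-!
# U06: elements outside R have strongly loxodromic powers
-/

set_option autoImplicit false

namespace Pool.Agent.Lib.MP_c23930_al

open Pool.Agent.Lib.MP_f1646b_al

theorem exists_lox (θ e δ C : ℕ) (hC : 1 ≤ C) : ∃ K A : ℕ, ∀ J : ℕ,
    ∀ (Q Z : Type) [Group Q] [MulAction Q Z] (D : Z → Z → ℕ) (T : Set Z) (β : Z → Z → Z → ℕ)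
      (R : Subgroup Q), UData Q D T β θ e δ K A J R → ∀ g : Q, g ∉ R →
      ∃ i, 1 ≤ i ∧ i ≤ J + C ∧ ∃ p : Z, D p (g ^ i • p) + C ≤ D p (g ^ (2 * i) • p) := by
  set K0 : ℕ := C + 9 * (4 * δ + 4) with hK0
  set K : ℕ := K0 + 2 * (2 * K0 + 4) * K0 with hK
  refine ⟨K, (2 * K + 10) * (3 * θ + 3 * e + e + 1), ?_⟩
  intro J Q Z _ _ D T β R h g hg
  have hact := h.act
  have hfp : FP D (4 * δ + 4) := fp_of_hyp hact.cas.geo h.hyp
  obtain ⟨p0, hp0, -⟩ := h.trip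
  have : Nonempty Z := ⟨p0⟩
  have hJ : 1 ≤ J := by
    obtain ⟨j, h1, h2, -⟩ := h.disp g hg p0 hp0
    exact h1.trans h2
  have hg1 : g ≠ 1 := fun h1 => hg (h1 ▸ R.one_mem)
  by_cases hc : ∀ p : Z, ∃ j, 1 ≤ j ∧ j ≤ J ∧ K0 < D p (g ^ j • p)
  · obtain ⟨p, i, h1, h2, h3⟩ := displ hfp hact.isom g C J hc
    exact ⟨i, h1, h2.trans (Nat.le_add_right _ _), p, h3⟩
  · push Not at hc
    obtain ⟨p, hp⟩ := hc
    by_cases hb : ∃ t ∈ T, θ + e < β t (g⁻¹ • t) (g • t)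
    · obtain ⟨t, ht, hb⟩ := hb
      have hne : g • t ≠ t := h.free g hg1 t ht
      have hch := chain hact g t ht hne hb
      have hpos : 1 ≤ D t (g • t) := by
        rcases Nat.eq_zero_or_pos (D t (g • t)) with h0 | h0
        · exact absurd (hact.cas.geo.eq_of _ _ h0).symm hne
        · exact h0
      refine ⟨C, hC, Nat.le_add_left _ _, t, ?_⟩
      rw [hch, hch]
      have : C ≤ C * D t (g • t) := Nat.le_mul_of_pos_right C hpos
      nlinarith
    · push Not at hb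
      exfalso
      obtain ⟨p', hp'T, hp', hp'β⟩ := good_base hact g (h.free g hg1) hb K0 J hJ p hp
      obtain ⟨j, h1, h2, h3⟩ := h.disp g hg p' hp'T
      rcases h3 with h3 | ⟨s, hs, -, -, h4⟩
      · exact absurd (hp' j h1 h2) (not_le.mpr h3)
      · have h5 := turns_bounded hact h.free g K J (3 * θ + 3 * e) (by omega) p' hp'T hp' hp'β
          j h1 h2 s hs
        exact absurd h5 (not_le.mpr h4)

end Pool.Agent.Lib.MP_c23930_al
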