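import Pool.Agent.Lib.MP_c23930_al.U01

/-!
# U07: minimisers of the displacement
-/

set_option autoImplicit false

namespace Pool.Agent.Lib.MP_c23930_al

open Pool.Agent.Lib.MP_f1646b_al

variable {Q Z : Type*} [Group Q] [MulAction Q Z] {D : Z → Z → ℕ} {η : ℕ}

namespace U07

theorem exists_argmin {Z : Type*} (p₀ : Z) (f : Z → ℕ) : ∃ p, ∀ x, f p ≤ f x := by
  classical
  have h : ∃ n, ∃ p, f p = n := ⟨f p₀, p₀, rfl⟩
  obtain ⟨p, hp⟩ := Nat.find_spec h
  refine ⟨p, fun x => ?_⟩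
  rw [hp]
  exact Nat.find_min' h ⟨x, rfl⟩

theorem pow_le (h : FP D η) (hi : ∀ (g : Q) x y, D (g • x) (g • y) = D x y) (w : Q) (p : Z)
    (n : ℕ) : D p (w ^ n • p) ≤ n * D p (w • p) := by
  induction n with
  | zero => simp [h.geo.self]
  | succ n ih =>
    have h1 := h.geo.tri p (w ^ n • p) (w ^ (n + 1) • p)
    have h2 : D (w ^ n • p) (w ^ (n + 1) • p) = D p (w • p) := by
      rw [pow_succ, mul_smul, hi]
    have h3 : (n + 1) * D p (w • p) = n * D p (w • p) + D p (w • p) := by ring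
    rw [h3]
    omega

end U07

theorem exists_min (h : FP D η) (hi : ∀ (g : Q) x y, D (g • x) (g • y) = D x y) (w : Q) (C : ℕ)
    (p₀ : Z) (hp : D p₀ (w • p₀) + (C + η + 1) ≤ D p₀ (w ^ 2 • p₀)) :
    ∃ p : Z, (∀ x, D p (w • p) ≤ D x (w • x)) ∧ C ≤ D p (w • p) := by
  obtain ⟨p, hmin⟩ := U07.exists_argmin p₀ (fun x => D x (w • x))
  refine ⟨p, hmin, ?_⟩
  by_contra hC
  have h2 := U07.pow_le h hi w p₀ 2
  have hD0 : C + η + 1 ≤ D p₀ (w • p₀) := by omega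
  set κ := D p₀ (w • p₀) - (C + η + 1) with hκ
  set n := 2 * D p p₀ + 1 with hn
  have hs : ∀ i : ℕ, D (w ^ i • p₀) (w ^ (i + 1) • p₀) = D p₀ (w • p₀) := by
    intro i
    rw [pow_succ, mul_smul, hi]
  have hs2 : ∀ i : ℕ, D (w ^ i • p₀) (w ^ (i + 2) • p₀) = D p₀ (w ^ 2 • p₀) := by
    intro i
    rw [pow_add, mul_smul, hi]
  have h3 := (local_global h n κ (D p₀ (w • p₀)) (fun i => w ^ i • p₀) (by omega)
    (fun i _ => (hs i).ge) (fun i _ => by
      have e1 := hs i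
      have e2 := hs (i + 1)
      have e3 := hs2 i
      have e4 := h.geo.symm (w ^ (i + 1) • p₀) (w ^ i • p₀)
      simp only [gp]
      rw [e4, e1, e3]
      have e5 : D (w ^ (i + 1) • p₀) (w ^ (i + 2) • p₀) = D p₀ (w • p₀) := e2
      rw [e5]
      have e6 : (κ : ℤ) = (D p₀ (w • p₀) : ℤ) - (C + η + 1) := by
        rw [hκ]
        push_cast [Nat.cast_sub hD0]
        ring
      rw [e6]
      have e7 : (D p₀ (w • p₀) : ℤ) + (C + η + 1) ≤ D p₀ (w ^ 2 • p₀) := by exact_mod_cast hp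
      linarith)).2.2
  have h4 : D p₀ (w • p₀) - κ - η = C + 1 := by omega
  rw [h4] at h3
  simp only [pow_zero, one_smul] at h3
  have h5 := U07.pow_le h hi w p n
  have h6 := h.geo.tri p₀ p (w ^ n • p₀)
  have h7 := h.geo.tri p (w ^ n • p) (w ^ n • p₀)
  rw [hi] at h7
  have h8 := h.geo.symm p₀ p
  have h9 : n * D p (w • p) ≤ n * C := Nat.mul_le_mul_left _ (by omega)
  have h10 : n * (C + 1) = n * C + n := by ring
  omega

theorem gp_min (h : FP D η) (hi : ∀ (g : Q) x y, D (g • x) (g • y) = D x y) (w : Q) (m : Z)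
    (hm : ∀ x, D m (w • m) ≤ D x (w • x)) (h2 : 2 * η + 2 ≤ D m (w • m)) :
    gp D m (w⁻¹ • m) (w • m) ≤ 2 * η + 1 := by
  by_contra hcon
  push Not at hcon
  obtain ⟨m', hm1, hm2⟩ := h.geo.geo m (w • m) (η + 1) (by omega)
  have hi' : ∀ x y, D (w⁻¹ • x) y = D x (w • y) := by
    intro x y
    have := hi w (w⁻¹ • x) y
    rw [smul_inv_smul] at this
    exact this.symm
  have e1 : D m (w⁻¹ • m') = D m (w • m) - (η + 1) := by
    rw [h.geo.symm, hi']
    exact hm2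
  have e2 : D m (w • m) ≤ D (w⁻¹ • m') m' := by
    rw [hi']
    exact hm m'
  have e3 : D (w⁻¹ • m') (w⁻¹ • m) = η + 1 := by
    rw [hi, h.geo.symm]
    exact hm1
  have e4 : D m (w⁻¹ • m) = D m (w • m) := by
    rw [h.geo.symm, hi']
  have e5 : D (w • m) m' = D m (w • m) - (η + 1) := by
    rw [h.geo.symm]
    exact hm2
  have f1 := gp_four h m (w⁻¹ • m') (w⁻¹ • m) (w • m)
  have f2 := gp_four h m (w⁻¹ • m') (w • m) m'
  have g1 : gp D m (w⁻¹ • m') m' ≤ 0 := by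
    simp only [gp]
    rw [e1, hm1]
    omega
  have g2 : 2 * (η : ℤ) + 2 ≤ gp D m (w⁻¹ • m') (w⁻¹ • m) := by
    simp only [gp]
    rw [e1, e4, e3]
    omega
  have g3 : 2 * (η : ℤ) + 2 ≤ gp D m (w • m) m' := by
    simp only [gp]
    rw [hm1, e5]
    omega
  have g4 : (η : ℤ) + 2 ≤ gp D m (w⁻¹ • m') (w • m) := by
    have : 2 * (η : ℤ) + 2 ≤ min (gp D m (w⁻¹ • m') (w⁻¹ • m)) (gp D m (w⁻¹ • m) (w • m)) :=
      le_min g2 (by linarith)
    linarith
  have g5 : (η : ℤ) + 2 ≤ min (gp D m (w⁻¹ • m') (w • m)) (gp D m (w • m) m') :=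
    le_min g4 (by linarith)
  linarith

end Pool.Agent.Lib.MP_c23930_al
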