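import Pool.Agent.Lib.MP_c23930_al.U07

/-!
# U08: axes
-/

set_option autoImplicit false

namespace Pool.Agent.Lib.MP_c23930_al

open Pool.Agent.Lib.MP_f1646b_al

/-- `γ` is an axis of `w` with translation length `τ` -/
structure Axis {Q Z : Type*} [Group Q] [MulAction Q Z] (D : Z → Z → ℕ) (w : Q) (γ : ℤ → Z)
    (τ : ℕ) : Prop where
  shift : ∀ i, w • γ i = γ (i + τ)
  min : ∀ x, τ ≤ D x (w • x)
  loc : ∀ i j, i ≤ j → j ≤ i + τ → (D (γ i) (γ j) : ℤ) = j - i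
  lip : ∀ i j, (D (γ i) (γ j) : ℤ) ≤ |j - i|

variable {Q Z : Type*} [Group Q] [MulAction Q Z] {D : Z → Z → ℕ} {η : ℕ}

namespace U08

/-- the periodic path -/
def gam (w : Q) (q : ℕ → Z) (τ : ℕ) (i : ℤ) : Z := w ^ (i / (τ : ℤ)) • q (i % (τ : ℤ)).toNat

theorem gam_lt (w : Q) (q : ℕ → Z) {τ : ℕ} (k : ℤ) {r : ℕ} (hr : r < τ) :
    gam w q τ (k * τ + r) = w ^ k • q r := by
  have h1 : (k * (τ : ℤ) + r) / τ = k := by
    rw [add_comm, Int.add_mul_ediv_right _ _ (by omega), Int.ediv_eq_zero_of_lt (by omega) (by omega),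
      zero_add]
  have h2 : (k * (τ : ℤ) + r) % τ = r := by
    rw [add_comm, Int.add_mul_emod_self_right, Int.emod_eq_of_lt (by omega) (by omega)]
  unfold gam
  rw [h1, h2, Int.toNat_natCast]

theorem gam_le (w : Q) {q : ℕ → Z} {τ : ℕ} (hτ : 1 ≤ τ) (hq : q τ = w • q 0) (k : ℤ) {r : ℕ}
    (hr : r ≤ τ) : gam w q τ (k * τ + r) = w ^ k • q r := by
  rcases Nat.lt_or_ge r τ with h | h
  · exact gam_lt w q k h
  · have h1 : r = τ := le_antisymm hr h
    subst h1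
    have h2 : k * (r : ℤ) + r = (k + 1) * r + (0 : ℕ) := by push_cast; ring
    rw [h2, gam_lt w q (k + 1) (by omega), hq, smul_smul, zpow_add_one]

theorem decomp {τ : ℕ} (hτ : 1 ≤ τ) (i : ℤ) : ∃ (k : ℤ) (r : ℕ), r < τ ∧ i = k * τ + r := by
  have h0 : (τ : ℤ) ≠ 0 := by omega
  have h1 := Int.emod_nonneg i h0
  have h2 := Int.emod_lt_of_pos i (show (0 : ℤ) < τ by omega)
  refine ⟨i / τ, (i % τ).toNat, by omega, ?_⟩
  rw [Int.toNat_of_nonneg h1]
  have := Int.mul_ediv_add_emod i τ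
  rw [mul_comm]
  omega

theorem lip_nat (h : IsGeo D) {γ : ℤ → Z} (hs : ∀ i, D (γ i) (γ (i + 1)) ≤ 1) (i : ℤ) (n : ℕ) :
    D (γ i) (γ (i + n)) ≤ n := by
  induction n with
  | zero => simp [h.self]
  | succ n ih =>
    have h1 := h.tri (γ i) (γ (i + n)) (γ (i + (n + 1 : ℕ)))
    have h2 := hs (i + n)
    have h3 : i + ((n + 1 : ℕ) : ℤ) = i + n + 1 := by push_cast; ring
    rw [h3] at h1 ⊢
    omega

theorem lip_of (h : IsGeo D) {γ : ℤ → Z} (hs : ∀ i, D (γ i) (γ (i + 1)) ≤ 1) (i j : ℤ) :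
    (D (γ i) (γ j) : ℤ) ≤ |j - i| := by
  rcases le_total i j with hij | hij
  · have h1 := lip_nat h hs i (j - i).toNat
    have h2 : i + ((j - i).toNat : ℤ) = j := by omega
    rw [h2] at h1
    rw [abs_of_nonneg (by omega)]
    omega
  · have h1 := lip_nat h hs j (i - j).toNat
    have h2 : j + ((i - j).toNat : ℤ) = i := by omega
    rw [h2, h.symm] at h1
    rw [abs_of_nonpos (by omega)]
    omega

end U08

open U08

/-- the local metric of an axis, for integer parameters -/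
theorem Axis.locZ (h : FP D η) (hi : ∀ (g : Q) x y, D (g • x) (g • y) = D x y) {w : Q}
    {γ : ℤ → Z} {τ : ℕ} (hγ : Axis D w γ τ) (i j : ℤ) (hij : i ≤ j) (hj : j ≤ i + τ) :
    (D (γ i) (γ j) : ℤ) = j - i := by
  have hk : ∀ (k : ℕ) (i : ℤ), w ^ k • γ i = γ (i + k * τ) := by
    intro k
    induction k with
    | zero => intro i; simp
    | succ k ih =>
      intro i
      rw [pow_succ, mul_smul, hγ.shift, ih]
      congr 1
      push_cast
      ring
  rcases Nat.eq_zero_or_pos τ with h0 | h0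
  · subst h0
    have : j = i := by omega
    subst this
    rw [h.geo.self]
    simp
  · have h1 : (i.natAbs : ℤ) ≤ i.natAbs * τ := by
      have h2 : (1 : ℤ) ≤ τ := by omega
      nlinarith [Int.natCast_nonneg i.natAbs]
    obtain ⟨a, ha⟩ : ∃ a : ℕ, (a : ℤ) = i + i.natAbs * τ := ⟨(i + i.natAbs * τ).toNat, by omega⟩
    obtain ⟨b, hb⟩ : ∃ b : ℕ, (b : ℤ) = j + i.natAbs * τ := ⟨(j + i.natAbs * τ).toNat, by omega⟩
    have h2 := hγ.loc a b (by omega) (by omega)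
    rw [ha, hb, ← hk, ← hk, hi] at h2
    rw [h2]
    ring

theorem exists_axis (h : FP D η) (hi : ∀ (g : Q) x y, D (g • x) (g • y) = D x y) (w : Q) (p : Z)
    (hp : ∀ x, D p (w • p) ≤ D x (w • x)) (h1 : 1 ≤ D p (w • p)) :
    ∃ γ : ℤ → Z, γ 0 = p ∧ Axis D w γ (D p (w • p)) := by
  have hb : MP_f1646b_al.Btw D p p (w • p) := by
    unfold MP_f1646b_al.Btw
    rw [h.geo.self, zero_add]
  obtain ⟨q, ⟨q0, q1, qd⟩, -⟩ := exists_geoPath h.geo p (w • p) p hb
  set τ : ℕ := D p (w • p) with hτ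
  have hq : q τ = w • q 0 := by rw [q0, q1]
  have hs : ∀ i, D (gam w q τ i) (gam w q τ (i + 1)) ≤ 1 := by
    intro i
    obtain ⟨k, r, hr, rfl⟩ := decomp h1 i
    have e : k * (τ : ℤ) + r + 1 = k * τ + (r + 1 : ℕ) := by push_cast; ring
    rw [e, gam_le w h1 hq k hr.le, gam_le w h1 hq k (r := r + 1) hr, hi,
      qd r (r + 1) (by omega) (by omega)]
    omega
  have hshift : ∀ i, w • gam w q τ i = gam w q τ (i + τ) := by
    intro i
    obtain ⟨k, r, hr, rfl⟩ := decomp h1 i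
    have e : k * (τ : ℤ) + r + τ = (k + 1) * τ + r := by ring
    rw [e, gam_lt w q k hr, gam_lt w q (k + 1) hr, smul_smul, zpow_add_one, ← zpow_one_add,
      add_comm, zpow_add_one]
  have hlip := lip_of h.geo hs
  refine ⟨gam w q τ, ?_, hshift, hp, ?_, hlip⟩
  · have h2 := gam_lt w q (τ := τ) 0 (r := 0) (by omega)
    simpa [q0] using h2
  · intro i j hij hj
    have h2 := hlip i j
    have h3 := hlip j (i + τ)
    rw [abs_of_nonneg (by omega)] at h2 h3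
    have h4 := hp (gam w q τ i)
    rw [hshift] at h4
    have h5 := h.geo.tri (gam w q τ i) (gam w q τ j) (gam w q τ (i + τ))
    omega

theorem Axis.conj (h : FP D η) (hi : ∀ (g : Q) x y, D (g • x) (g • y) = D x y) {w : Q}
    {γ : ℤ → Z} {τ : ℕ} (hγ : Axis D w γ τ) (s : Q) :
    Axis D (s * w * s⁻¹) (fun i => s • γ i) τ := by
  refine ⟨fun i => ?_, fun x => ?_, fun i j hij hj => ?_, fun i j => ?_⟩
  · show (s * w * s⁻¹) • s • γ i = s • γ (i + τ)
    rw [← hγ.shift, smul_smul, smul_smul]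
    congr 1
    group
  · have h1 := hγ.min (s⁻¹ • x)
    rw [← hi s] at h1
    have h2 : s • s⁻¹ • x = x := smul_inv_smul s x
    have h3 : s • w • s⁻¹ • x = (s * w * s⁻¹) • x := by rw [mul_smul, mul_smul]
    rwa [h2, h3] at h1
  · show (D (s • γ i) (s • γ j) : ℤ) = j - i
    rw [hi]
    exact hγ.loc i j hij hj
  · show (D (s • γ i) (s • γ j) : ℤ) ≤ |j - i|
    rw [hi]
    exact hγ.lip i j

theorem Axis.inv (h : FP D η) (hi : ∀ (g : Q) x y, D (g • x) (g • y) = D x y) {w : Q}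
    {γ : ℤ → Z} {τ : ℕ} (hγ : Axis D w γ τ) : Axis D w⁻¹ (fun i => γ (-i)) τ := by
  refine ⟨fun i => ?_, fun x => ?_, fun i j hij hj => ?_, fun i j => ?_⟩
  · show w⁻¹ • γ (-i) = γ (-(i + τ))
    have h1 := hγ.shift (-(i + τ))
    have h2 : -(i + (τ : ℤ)) + τ = -i := by ring
    rw [h2] at h1
    rw [← h1, inv_smul_smul]
  · have h1 := hγ.min (w⁻¹ • x)
    rwa [smul_inv_smul, h.geo.symm] at h1
  · show (D (γ (-(i : ℤ))) (γ (-(j : ℤ))) : ℤ) = j - i
    rw [h.geo.symm, hγ.locZ h hi (-j) (-i) (by omega) (by omega)]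
    ring
  · show (D (γ (-i)) (γ (-j)) : ℤ) ≤ |j - i|
    have h1 := hγ.lip (-i) (-j)
    have h2 : |(-j : ℤ) - -i| = |j - i| := by
      rw [← abs_neg]
      congr 1
      ring
    rwa [h2] at h1

/-- turns of the axis -/
theorem Axis.turn (h : FP D η) (hi : ∀ (g : Q) x y, D (g • x) (g • y) = D x y) {w : Q}
    {γ : ℤ → Z} {τ : ℕ} (hγ : Axis D w γ τ) (hτ : 2 * η + 2 ≤ τ) (i : ℤ) :
    gp D (γ i) (γ (i - τ)) (γ (i + τ)) ≤ 2 * η + 1 := by
  have h1 : w • γ i = γ (i + τ) := hγ.shift i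
  have h2 : w⁻¹ • γ i = γ (i - τ) := by
    have h3 := hγ.shift (i - τ)
    have h4 : i - (τ : ℤ) + τ = i := by ring
    rw [h4] at h3
    rw [← h3, inv_smul_smul]
  have h3 : D (γ i) (w • γ i) = τ := by
    have h4 := hγ.locZ h hi i (i + τ) (by omega) le_rfl
    rw [h1]
    omega
  have h4 := gp_min h hi w (γ i) (fun x => by rw [h3]; exact hγ.min x) (by rw [h3]; exact hτ)
  rwa [h1, h2] at h4

end Pool.Agent.Lib.MP_c23930_al
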