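import Pool.Agent.Lib.MP_c23930_al.U08

/-!
# U09: three points on an axis, nearest points on an axis
-/

set_option autoImplicit false

namespace Pool.Agent.Lib.MP_c23930_al

open Pool.Agent.Lib.MP_f1646b_al

variable {Q Z : Type*} [Group Q] [MulAction Q Z] {D : Z → Z → ℕ} {η : ℕ}

namespace U09

/-- the forward step: everything behind `γ j` has a small product with `γ (j + τ)` -/
theorem stepA (h : FP D η) (hi : ∀ (g : Q) x y, D (g • x) (g • y) = D x y) {w : Q}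
    {γ : ℤ → Z} {τ : ℕ} (hγ : Axis D w γ τ) (hτ : 6 * η + 6 ≤ τ) (n : ℕ) :
    ∀ i j : ℤ, i ≤ j → (j - i).toNat ≤ n → gp D (γ j) (γ i) (γ (j + τ)) ≤ 3 * η + 1 := by
  induction n using Nat.strong_induction_on with
  | _ n ih =>
    intro i j hij hn
    have hturn := hγ.turn h hi (by omega) j
    by_cases hc : j - i ≤ τ
    · -- `γ i` lies between `γ (j - τ)` and `γ j`
      have hb : MP_f1646b_al.Btw D (γ j) (γ i) (γ (j - τ)) := by
        unfold MP_f1646b_al.Btw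
        have h1 := hγ.locZ h hi i j hij (by omega)
        have h2 := hγ.locZ h hi (j - τ) i (by omega) (by omega)
        have h3 := hγ.locZ h hi (j - τ) j (by omega) (by omega)
        rw [h.geo.symm (γ j) (γ i), h.geo.symm (γ i) (γ (j - τ)), h.geo.symm (γ j) (γ (j - τ))]
        omega
      have h1 := gp_btw h (γ j) (γ (j + τ)) (γ (j - τ)) (γ i) hb
      rw [gp_symm h (γ j) (γ (j + τ)) (γ i), gp_symm h (γ j) (γ (j + τ)) (γ (j - τ))] at h1
      omega
    · have h1 := ih (j - τ - i).toNat (by omega) i (j - τ) (by omega) le_rfl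
      rw [sub_add_cancel] at h1
      have h2 := gp_add h (γ j) (γ (j - τ)) (γ i)
      rw [gp_symm h (γ (j - τ)) (γ j) (γ i)] at h2
      have h3 := hγ.locZ h hi (j - τ) j (by omega) (by omega)
      rw [h.geo.symm (γ (j - τ)) (γ j)] at h3
      have h4 := gp_four h (γ j) (γ (j - τ)) (γ i) (γ (j + τ))
      omega

/-- the backward step -/
theorem stepA' (h : FP D η) (hi : ∀ (g : Q) x y, D (g • x) (g • y) = D x y) {w : Q}
    {γ : ℤ → Z} {τ : ℕ} (hγ : Axis D w γ τ) (hτ : 6 * η + 6 ≤ τ) (j k : ℤ) (hjk : j ≤ k) :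
    gp D (γ j) (γ (j - τ)) (γ k) ≤ 3 * η + 1 := by
  have h1 := stepA h hi (hγ.inv h hi) hτ _ (-k) (-j) (by omega) le_rfl
  simp only [neg_neg] at h1
  rw [show -(-j + (τ : ℤ)) = j - τ by ring] at h1
  rw [gp_symm h]
  exact h1

end U09

theorem Axis.three (h : FP D η) (hi : ∀ (g : Q) x y, D (g • x) (g • y) = D x y) {w : Q}
    {γ : ℤ → Z} {τ : ℕ} (hγ : Axis D w γ τ) (hτ : 6 * η + 6 ≤ τ) (i j k : ℤ) (hij : i ≤ j)
    (hjk : j ≤ k) : gp D (γ j) (γ i) (γ k) ≤ 4 * η + 1 := by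
  have hA := U09.stepA h hi hγ hτ _ i j hij le_rfl
  by_cases hc : k ≤ j + τ
  · have hb : MP_f1646b_al.Btw D (γ j) (γ k) (γ (j + τ)) := by
      unfold MP_f1646b_al.Btw
      have h1 := hγ.locZ h hi j k hjk hc
      have h2 := hγ.locZ h hi k (j + τ) hc (by omega)
      have h3 := hγ.locZ h hi j (j + τ) (by omega) le_rfl
      omega
    have h1 := gp_btw h (γ j) (γ i) (γ (j + τ)) (γ k) hb
    omega
  · have h1 := U09.stepA' h hi hγ hτ (j + τ) k (by omega)
    rw [add_sub_cancel_right] at h1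
    have h2 := gp_add h (γ j) (γ (j + τ)) (γ k)
    have h3 := hγ.locZ h hi j (j + τ) (by omega) le_rfl
    have h4 := gp_four h (γ j) (γ i) (γ k) (γ (j + τ))
    rw [gp_symm h (γ j) (γ k) (γ (j + τ))] at h4
    omega

/-- the axis is unbounded in both directions -/
theorem Axis.far (h : FP D η) (hi : ∀ (g : Q) x y, D (g • x) (g • y) = D x y) {w : Q}
    {γ : ℤ → Z} {τ : ℕ} (hγ : Axis D w γ τ) (hτ : 6 * η + 6 ≤ τ) (i : ℤ) (n : ℕ) :
    n ≤ D (γ i) (γ (i + n * τ)) := by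
  have h1 := (local_global h n (2 * η + 1) τ (fun l : ℕ => γ (i + l * τ)) (by omega)
    (fun l _ => by
      have h3 := hγ.locZ h hi (i + l * τ) (i + (l + 1 : ℕ) * τ) (by push_cast; nlinarith)
        (by push_cast; nlinarith)
      have h4 : (i + ((l + 1 : ℕ) : ℤ) * τ) - (i + l * τ) = τ := by push_cast; ring
      rw [h4] at h3
      show τ ≤ D (γ (i + l * τ)) (γ (i + (l + 1 : ℕ) * τ))
      omega)
    (fun l _ => by
      have h3 := hγ.turn h hi (by omega) (i + (l + 1 : ℕ) * τ)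
      have e1 : (i + ((l + 1 : ℕ) : ℤ) * τ) - τ = i + l * τ := by push_cast; ring
      have e2 : (i + ((l + 1 : ℕ) : ℤ) * τ) + τ = i + (l + 2 : ℕ) * τ := by push_cast; ring
      rw [e1, e2] at h3
      show gp D (γ (i + (l + 1 : ℕ) * τ)) (γ (i + l * τ)) (γ (i + (l + 2 : ℕ) * τ)) ≤
        ((2 * η + 1 : ℕ) : ℤ)
      push_cast at h3 ⊢
      omega)).2.2
  simp only [Nat.cast_zero, zero_mul, add_zero] at h1
  refine le_trans ?_ h1
  calc n = n * 1 := (mul_one n).symm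
    _ ≤ n * (τ - (2 * η + 1) - η) := Nat.mul_le_mul_left n (by omega)

namespace U09

/-- nearest point, forward direction -/
theorem nearest_aux (h : FP D η) (hi : ∀ (g : Q) x y, D (g • x) (g • y) = D x y) {w : Q}
    {γ : ℤ → Z} {τ : ℕ} (hγ : Axis D w γ τ) (z : Z) (j : ℤ)
    (hj : ∀ i, D z (γ j) ≤ D z (γ i)) (k : ℤ) (hjk : j ≤ k) (hk : k ≤ j + τ) :
    gp D (γ j) z (γ k) ≤ 2 * η + 1 := by
  by_contra hX
  push Not at hX
  have h0 := hγ.locZ h hi j k hjk hk
  have h1 := gp_le h (γ j) (γ k) z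
  rw [gp_symm h] at h1
  have h2 : j + (η + 1) ≤ k := by omega
  have h3 := hγ.locZ h hi j (j + (η + 1)) (by omega) (by omega)
  have h4 := hγ.locZ h hi (j + (η + 1)) k h2 (by omega)
  have hb : MP_f1646b_al.Btw D (γ j) (γ (j + (η + 1))) (γ k) := by
    unfold MP_f1646b_al.Btw
    omega
  have h5 := gp_between h (γ j) (γ k) (γ (j + (η + 1))) hb
  have h6 := gp_four h (γ j) z (γ k) (γ (j + (η + 1)))
  rw [gp_symm h (γ j) (γ k) (γ (j + (η + 1))), h5] at h6
  have h7 := hj (j + (η + 1))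
  have h8 : gp D (γ j) z (γ (j + (η + 1))) = (D (γ j) z : ℤ) + D (γ j) (γ (j + (η + 1))) -
    D z (γ (j + (η + 1))) := rfl
  rw [h.geo.symm (γ j) z] at h8
  omega

theorem nearest_fwd (h : FP D η) (hi : ∀ (g : Q) x y, D (g • x) (g • y) = D x y) {w : Q}
    {γ : ℤ → Z} {τ : ℕ} (hγ : Axis D w γ τ) (hτ : 6 * η + 6 ≤ τ) (z : Z) (j : ℤ)
    (hj : ∀ i, D z (γ j) ≤ D z (γ i)) (k : ℤ) (hjk : j ≤ k) :
    gp D (γ j) z (γ k) ≤ 3 * η + 1 := by
  by_cases hc : k ≤ j + τ
  · have := nearest_aux h hi hγ z j hj k hjk hc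
    omega
  · have h1 := nearest_aux h hi hγ z j hj (j + τ) (by omega) le_rfl
    have h2 := Axis.three h hi hγ hτ j (j + τ) k (by omega) (by omega)
    have h3 := gp_add h (γ j) (γ (j + τ)) (γ k)
    have h4 := hγ.locZ h hi j (j + τ) (by omega) le_rfl
    have h5 := gp_four h (γ j) z (γ k) (γ (j + τ))
    rw [gp_symm h (γ j) (γ k) (γ (j + τ))] at h5
    omega

end U09

theorem Axis.nearest (h : FP D η) (hi : ∀ (g : Q) x y, D (g • x) (g • y) = D x y) {w : Q}
    {γ : ℤ → Z} {τ : ℕ} (hγ : Axis D w γ τ) (hτ : 6 * η + 6 ≤ τ) (z : Z) (j : ℤ)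
    (hj : ∀ i, D z (γ j) ≤ D z (γ i)) (k : ℤ) : gp D (γ j) z (γ k) ≤ 3 * η + 1 := by
  rcases le_total j k with hjk | hjk
  · exact U09.nearest_fwd h hi hγ hτ z j hj k hjk
  · have h1 := U09.nearest_fwd h hi (hγ.inv h hi) hτ z (-j)
      (fun i => by simpa only [neg_neg] using hj (-i)) (-k) (by omega)
    simpa only [neg_neg] using h1

end Pool.Agent.Lib.MP_c23930_al
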