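import Pool.Agent.Lib.MP_c23930_al.PDefs
import Pool.Agent.Lib.MP_f1646b_al.Defs

/-!
# Definitions for the disproof S02972 (uniform exponential growth is not a quasi-isometry invariant)
-/

set_option autoImplicit false

namespace Pool.Agent.Lib.MP_c23930_al

open Pool.Agent.Lib.MP_f1646b_al (IsGeo Btw Hyp CAS ActCAS RotFam QuotPkg)
open scoped Pointwise

/-! ### word balls and uniform exponential growth -/

/-- word ball of radius `n` -/
def wball {G : Type*} [Group G] (S : Set G) (n : ℕ) : Set G := (S ∪ S⁻¹ ∪ {1}) ^ n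

/-- every finite generating set has growth at least `c` -/
def UEGWith (G : Type*) [Group G] (c : ℝ) : Prop :=
  ∀ S : Finset G, Subgroup.closure (S : Set G) = ⊤ →
    ∀ n : ℕ, c ^ n ≤ (Set.ncard (wball (S : Set G) n) : ℝ)

/-- uniform exponential growth -/
def UEG (G : Type*) [Group G] : Prop := ∃ c : ℝ, 1 < c ∧ UEGWith G c

/-! ### factors: short elements and betweenness

`B a b` means: `1` lies between `a` and `b`; so `v` lies between `x` and `y` iff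
`B (v⁻¹ * x) (v⁻¹ * y)`. -/

/-- axioms for a factor group with short elements `sh` and betweenness `B` -/
structure Fac {G : Type*} [Group G] (sh : Set G) (B : G → G → Prop) : Prop where
  one : (1 : G) ∈ sh
  inv : ∀ h ∈ sh, h⁻¹ ∈ sh
  symm : ∀ a b, B a b → B b a
  thin : ∀ a b c, B a b → ∃ q ∈ sh, B (q⁻¹ * a) (q⁻¹ * c) ∨ B (q⁻¹ * c) (q⁻¹ * b)
  close : ∀ a h, h ∈ sh → B a (a * h) → a ∈ sh
  path : ∀ a, ∃ (m : ℕ) (p : ℕ → G), p 0 = 1 ∧ p m = a ∧ (∀ i < m, (p i)⁻¹ * p (i + 1) ∈ sh) ∧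
    ∀ i ≤ m, B (p i)⁻¹ ((p i)⁻¹ * a)

/-- axioms for a family of long elements `V k` of a factor group, together with a coarse segment
`Seg k` from `1` to `V k` and an integer coordinate `c k` (the number of chain walls crossed) -/
structure Chains {G : Type*} [Group G] (sh : Set G) (B : G → G → Prop) (V : ℕ → G)
    (Seg : ℕ → Set G) (c : ℕ → G → ℤ) (n : ℕ) : Prop where
  seg_one : ∀ k, 1 ∈ Seg k
  seg_V : ∀ k, V k ∈ Seg k
  c_one : ∀ k, c k 1 = 0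
  c_V : ∀ k, c k (V k) = n
  rng : ∀ k g, 0 ≤ c k g ∧ c k g ≤ n
  lip : ∀ k g h, h ∈ sh → |c k (g * h) - c k g| ≤ 1
  near : ∀ k g h, h ∈ sh → c k (g * h) ≠ c k g → ∃ a ∈ sh, ∃ b ∈ sh, g * a * b ∈ Seg k
  ov : ∀ k k' g, (k = k' ∧ g = 1) ∨
    ∀ p ∈ Seg k', ∀ p' ∈ Seg k', |c k (g * p) - c k (g * p')| ≤ 2
  met : ∀ k, ∀ p ∈ Seg k, ∀ p' ∈ Seg k, ∃ l : List G, (∀ h ∈ l, h ∈ sh) ∧ l.prod = p⁻¹ * p' ∧
    (l.length : ℤ) ≤ 4 * (|c k p - c k p'| + 1)
  hull : ∀ k, ∀ p ∈ Seg k, ∀ p' ∈ Seg k, ∀ v, B (v⁻¹ * p) (v⁻¹ * p') → ∃ q ∈ Seg k, v⁻¹ * q ∈ sh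

/-! ### the infinite cyclic factor -/

/-- short elements of `ℤ` -/
def shZ : Set (Multiplicative ℤ) := {g | |g.toAdd| ≤ 3}

/-- betweenness of `ℤ` -/
def BZ (a b : Multiplicative ℤ) : Prop :=
  (a.toAdd ≤ 0 ∧ 0 ≤ b.toAdd) ∨ (b.toAdd ≤ 0 ∧ 0 ≤ a.toAdd)

/-! ### the factors `Pg Ω` (defined in `PDefs`) -/

/-- short elements of `P` : the part in `W` misses a letter -/
def shP (Ω : Type) : Set (Pg Ω) := {g | ∃ e : Ω × Ω, Misses g.left e}

/-- word length of `W` -/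
noncomputable def ell {Ω : Type} (w : Wg Ω) : ℕ := (crossM Ω).toCoxeterSystem.length w

/-- betweenness of `P` -/
def BP (Ω : Type) (a b : Pg Ω) : Prop := ell (a.left⁻¹ * b.left) = ell a.left + ell b.left

/-! ### free products -/

section FreeProd

variable {ι : Type} {G : ι → Type} [∀ i, Group (G i)]

/-- the Cayley graph of the free product with respect to the short elements -/
def cay (sh : ∀ i, Set (G i)) : SimpleGraph (Monoid.CoprodI G) :=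
  SimpleGraph.fromRel fun u v => ∃ i, ∃ h ∈ sh i, v = u * Monoid.CoprodI.of h

open Classical in
/-- the projection of `v` to the factor `G i`: the head syllable of `v`, if it lies in `G i` -/
noncomputable def gate (i : ι) (v : Monoid.CoprodI G) : G i :=
  (Monoid.CoprodI.Word.equivPair i (Monoid.CoprodI.Word.equiv v)).head

/-- product of a list of syllables -/
def sprod (l : List (Σ i, G i)) : Monoid.CoprodI G := (l.map fun p => Monoid.CoprodI.of p.2).prod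

end FreeProd

/-- data of the relators `V * x⁻¹`: the list `xs ρ` is the list of syllables of `x⁻¹` -/
structure RelData {ι : Type} (G : ι → Type) [∀ i, Group (G i)] (sh : ∀ i, Set (G i))
    (B : ∀ i, G i → G i → Prop) (n : ℕ) where
  Sg : Type
  M : Sg → ι
  k : Sg → ℕ
  V : ∀ i, ℕ → G i
  Seg : ∀ i, ℕ → Set (G i)
  cc : ∀ i, ℕ → G i → ℤ
  xs : Sg → List (Σ i, G i)
  inj : ∀ ρ σ, M ρ = M σ → k ρ = k σ → ρ = σ
  chains : ∀ ρ, Chains (sh (M ρ)) (B (M ρ)) (V (M ρ)) (Seg (M ρ)) (cc (M ρ)) n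
  xs_ne : ∀ ρ, xs ρ ≠ []
  xs_len : ∀ ρ, (xs ρ).length ≤ 3
  xs_short : ∀ ρ, ∀ p ∈ xs ρ, p.2 ∈ sh p.1 ∧ p.2 ≠ 1
  xs_chain : ∀ ρ, List.IsChain (fun p q : (Σ i, G i) => p.1 ≠ q.1)
    ((⟨M ρ, V (M ρ) (k ρ)⟩ : Σ i, G i) :: xs ρ ++ [(⟨M ρ, V (M ρ) (k ρ)⟩ : Σ i, G i)])

namespace RelData

variable {ι : Type} {G : ι → Type} [∀ i, Group (G i)] {sh : ∀ i, Set (G i)}
  {B : ∀ i, G i → G i → Prop} {n : ℕ} (D : RelData G sh B n)

/-- the long syllable -/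
def VV (ρ : D.Sg) : G (D.M ρ) := D.V (D.M ρ) (D.k ρ)

/-- one period of the axis of the relator -/
def per (ρ : D.Sg) : List (Σ i, G i) := ⟨D.M ρ, D.VV ρ⟩ :: D.xs ρ

/-- the relator -/
def r (ρ : D.Sg) : Monoid.CoprodI G := sprod (D.per ρ)

/-- the axis of the relator -/
def Y0 (ρ : D.Sg) : Set (Monoid.CoprodI G) :=
  {v | ∃ j : ℤ, (∃ p ∈ D.Seg (D.M ρ) (D.k ρ), v = D.r ρ ^ j * Monoid.CoprodI.of p) ∨
    ∃ m ≤ (D.per ρ).length, v = D.r ρ ^ j * sprod ((D.per ρ).take m)}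

/-- the coordinate along the axis of the relator -/
noncomputable def P0 (ρ : D.Sg) (v : Monoid.CoprodI G) : ℤ :=
  ∑ᶠ j : ℤ, (D.cc (D.M ρ) (D.k ρ) (gate (D.M ρ) ((D.r ρ ^ j)⁻¹ * v)) -
    D.cc (D.M ρ) (D.k ρ) (gate (D.M ρ) ((D.r ρ ^ j)⁻¹)))

/-- the index set of the lines (and of the apices) -/
abbrev S : Type := Σ ρ : D.Sg, Monoid.CoprodI G ⧸ Subgroup.zpowers (D.r ρ)

/-- the line with index `s` -/
noncomputable def Y (s : D.S) : Set (Monoid.CoprodI G) := {v | s.2.out⁻¹ * v ∈ D.Y0 s.1}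

/-- the coordinate along the line with index `s` -/
noncomputable def P (s : D.S) (v : Monoid.CoprodI G) : ℤ := D.P0 s.1 (s.2.out⁻¹ * v)

/-- the stabiliser of the line `s` -/
noncomputable def R (s : D.S) : Subgroup (Monoid.CoprodI G) := MulAction.stabilizer _ s

/-- all conjugates of relators -/
def N : Subgroup (Monoid.CoprodI G) := Subgroup.normalClosure (Set.range D.r)

end RelData

/-- intervals of the free product -/
def II {ι : Type} {G : ι → Type} [∀ i, Group (G i)] (B : ∀ i, G i → G i → Prop)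
    (x y : Monoid.CoprodI G) : Set (Monoid.CoprodI G) :=
  {x, y} ∪ {v | ∃ i, gate i (v⁻¹ * x) ≠ gate i (v⁻¹ * y) ∧
    B i (gate i (v⁻¹ * x)) (gate i (v⁻¹ * y))}

/-! ### systems of lines in a graph and the cone-off -/

/-- a system of coarse lines in a graph; `P s` is the coordinate along the line `Y s`, `I` are
intervals -/
structure LSys {V S : Type*} (Γ : SimpleGraph V) (Y : S → Set V) (P : S → V → ℤ)
    (I : V → V → Set V) (c Δ : ℕ) : Prop where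
  conn : Γ.Connected
  ne : ∀ s, (Y s).Nonempty
  lip : ∀ s u v, Γ.Adj u v → |P s u - P s v| ≤ 1
  near : ∀ s u v, Γ.Adj u v → P s u ≠ P s v → ∃ q ∈ Y s, Γ.dist u q ≤ c
  ov : ∀ s t, s ≠ t → ∀ p ∈ Y t, ∀ p' ∈ Y t, |P s p - P s p'| ≤ Δ
  met : ∀ s, ∀ p ∈ Y s, ∀ p' ∈ Y s, (Γ.dist p p' : ℤ) ≤ c * (|P s p - P s p'| + 1)
  thin : ∀ x y z, ∀ w ∈ I x y, ∃ v, (v ∈ I x z ∨ v ∈ I z y) ∧ Γ.dist w v ≤ c
  small : ∀ x y, Γ.dist x y ≤ 1 → ∀ w ∈ I x y, Γ.dist x w ≤ c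
  path : ∀ x y, ∃ (m : ℕ) (p : ℕ → V), p 0 = x ∧ p m = y ∧ (∀ i ≤ m, p i ∈ I x y) ∧
    ∀ i < m, Γ.dist (p i) (p (i + 1)) ≤ 1
  hull : ∀ s, ∀ p ∈ Y s, ∀ p' ∈ Y s, ∀ v ∈ I p p', ∃ q ∈ Y s, Γ.dist v q ≤ c

/-- the cone graph -/
def cone {V S : Type*} (Γ : SimpleGraph V) (Y : S → Set V) : SimpleGraph (V ⊕ S) :=
  SimpleGraph.fromRel fun x y =>
    (∃ u v, x = Sum.inl u ∧ y = Sum.inl v ∧ Γ.Adj u v) ∨
    ∃ u s, x = Sum.inl u ∧ y = Sum.inr s ∧ u ∈ Y s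

/-- the metric of the cone-off -/
noncomputable def cd {V S : Type*} (Γ : SimpleGraph V) (Y : S → Set V) : V ⊕ S → V ⊕ S → ℕ :=
  (cone Γ Y).dist

/-- the points of the line `s` through which geodesics from the apex `s` to `x` leave -/
def InS {V S : Type*} (Γ : SimpleGraph V) (Y : S → Set V) (s : S) (x : V ⊕ S) : Set V :=
  {u | u ∈ Y s ∧ cd Γ Y (Sum.inl u) x + 1 = cd Γ Y (Sum.inr s) x}

/-- twice the coordinate of the projection of `x` to the line `s` -/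
noncomputable def mS {V S : Type*} (Γ : SimpleGraph V) (Y : S → Set V) (P : S → V → ℤ) (s : S)
    (x : V ⊕ S) : ℤ :=
  sInf (P s '' InS Γ Y s x) + sSup (P s '' InS Γ Y s x)

/-- the angle function of the cone-off -/
noncomputable def alph {V S : Type*} (Γ : SimpleGraph V) (Y : S → Set V) (P : S → V → ℤ) :
    V ⊕ S → V ⊕ S → V ⊕ S → ℕ
  | Sum.inl _, _, _ => 0
  | Sum.inr s, x, y => (mS Γ Y P s x - mS Γ Y P s y).natAbs

/-- the set of apices -/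
def apx (V S : Type*) : Set (V ⊕ S) := Set.range Sum.inr

/-- a group acting simply transitively on the vertices of a system of lines; `R s` is the
stabiliser of the line `s`, it acts by translations of length a multiple of `n` -/
structure LAct (G : Type*) [Group G] {S : Type*} [MulAction G S] (Γ : SimpleGraph G)
    (Y : S → Set G) (P : S → G → ℤ) (R : S → Subgroup G) (n : ℕ) : Prop where
  adj : ∀ g u v, Γ.Adj u v → Γ.Adj (g * u) (g * v)
  Y_smul : ∀ g s u, u ∈ Y s → g * u ∈ Y (g • s)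
  P_smul : ∀ g s u v, P (g • s) (g * u) - P (g • s) (g * v) = P s u - P s v
  stab : ∀ g s, g ∈ R s ↔ g • s = s
  shift : ∀ s, ∀ ρ ∈ R s, ρ ≠ 1 → ∃ k : ℤ, k ≠ 0 ∧ ∀ u, P s (ρ * u) = P s u + k * n

/-- large tripods -/
def Trip (G : Type*) [Group G] {S : Type*} (Γ : SimpleGraph G) (Y : S → Set G)
    (P : S → G → ℤ) : Prop :=
  ∀ L : ℕ, ∃ t : Fin 3 → G, (∀ i, L ≤ cd Γ Y (Sum.inl 1) (Sum.inl (t i))) ∧
    (∀ i j, i ≠ j → cd Γ Y (Sum.inl 1) (Sum.inl (t i)) + cd Γ Y (Sum.inl 1) (Sum.inl (t j)) ≤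
      cd Γ Y (Sum.inl (t i)) (Sum.inl (t j)) + 2) ∧
    ∀ s i, |P s (t i) - P s 1| ≤ 1

/-! ### the abstract uniform growth theorem -/

/-- everything needed for the abstract uniform growth theorem; `R` is the set of elements about
whose displacement nothing is assumed -/
structure UData (Q : Type*) [Group Q] {Z : Type*} [MulAction Q Z] (D : Z → Z → ℕ) (T : Set Z)
    (β : Z → Z → Z → ℕ) (θ e δ K A J : ℕ) (R : Subgroup Q) : Prop where
  act : ActCAS Q D T β θ e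
  hyp : Hyp D δ
  free : ∀ q : Q, q ≠ 1 → ∀ s ∈ T, q • s ≠ s
  proper : R ≠ ⊤
  disp : ∀ q : Q, q ∉ R → ∀ p : Z, p ∉ T → ∃ j, 1 ≤ j ∧ j ≤ J ∧
    (K < D p (q ^ j • p) ∨ ∃ s ∈ T, s ≠ p ∧ s ≠ q ^ j • p ∧ A < β s p (q ^ j • p))
  trip : ∃ p : Z, p ∉ T ∧ ∃ C : ℕ, ∀ L : ℕ, ∃ t : Fin 3 → Q, (∀ i, L ≤ D p (t i • p)) ∧
    ∀ i j, i ≠ j → D p (t i • p) + D p (t j • p) ≤ D (t i • p) (t j • p) + C

end Pool.Agent.Lib.MP_c23930_al
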